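import Pool.Agent.MP_1a6d78_lc.PS.GTw
import Pool.Agent.MP_1a6d78_lc.PL.Med

-- ======== part 0: formerly Pool.Agent.MP_1a6d78_lc.PS.Alg
section MrgPart0

/-! PROJECT PSC: the primitives, the derived programs, the kill round, frames.
Junk values: `n` for cells, `4 n` for ports, `16 n` for entries and heads. -/

namespace Pool.Agent.MP_1a6d78_lc.PS

open Classical ED PR GL

noncomputable section

/-- The primitives of a level; `rs = 0` open, `rs = 1 + a % 2` when `z` is known to have `Cy a`. -/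
structure Pr where
  al : ℕ → Prop
  lam : ℕ → ℕ
  En : ℕ → ℕ → ℕ
  FE : ℕ → ℕ → ℕ → ℕ
  F : Bool → ℕ → ℕ → Sg → Sg → ℕ
  next : ℕ → ℕ
  cur : ℕ → ℕ
  rs : ℕ

/-- The side hugged by the types 0, 3 and by the types 1, 2. -/
def hs (i : ℕ) : ℕ := if i = 0 ∨ i = 3 then 3 else 1

namespace Pr

variable (P : Pr) (n : ℕ)

/-- The map of the level. -/
def mp : Cm := ⟨n, fun p => if P.al (p / 4) then P.lam p else p⟩

def st (i c : ℕ) : ℕ := P.lam (pt c i) / 4

/-- One period from the successor of `y` to `y`. -/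
def ring (i y : ℕ) : Sg := ⟨i, P.st i y, sd i (P.lam (pt y i)), y⟩

/-- The two segments that cover the walk of `p`. -/
def fu (i p s u : ℕ) : Sg := if u = 0 then ⟨i, p, s, P.En i p⟩ else P.ring i (P.En i p)

def On (y a : ℕ) (A : Sg) : Prop := onf n P.F y a A

def OnC (y : ℕ) (A : Sg) : Prop :=
  (y = A.p ∧ P.al y) ∨ onc n P.F y A

/-- `y` is on the walk of `p`. -/
def pa (i p y : ℕ) : Prop := P.OnC n y (P.fu i p i 0) ∨ P.OnC n y (P.fu i p i 1)

def lo (p : ℕ) : ℕ := if P.lam p % 4 = (p + 1) % 4 then p else P.lam p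

def prb (p : ℕ) : Prop :=
  P.al (p / 4) ∧
    P.lam (pt (P.FE ((P.lo p + 3) % 4) (P.lo p / 4) ((P.lo p + 2) % 4)) (P.lo p + 2)) ≠
      pt (P.FE ((P.lo p + 2) % 4) (P.lam (P.lo p) / 4) ((P.lo p + 2) % 4)) (P.lo p + 3)

/-- The first hit on the whole walk of `p`. -/
def early (i p s a b : ℕ) (B : ℕ → Sg) (m : ℕ) : ℕ :=
  if fo n P.F true a b (P.fu i p s 0) B n m < n then fo n P.F true a b (P.fu i p s 0) B n m
  else fo n P.F true a b (P.fu i p s 1) B n m

/-- The primitive `F` of the next level from pieces: `np A` is the index of the last piece,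
`pc A a k` are the pieces for the side `a`, `rv A k` says that the piece is read backwards. -/
def genF (al' : ℕ → Prop) (np : Sg → ℕ) (pc : Sg → ℕ → ℕ → Sg) (rv : Sg → ℕ → Bool) (fl : Bool)
    (a b : ℕ) (A B : Sg) : ℕ :=
  if al' A.p ∧ al' B.p then fpc n P.F fl a b (pc A a) (rv A) (np A + 1) (pc B b) (np B + 1) else n

/-- Entries `4 p + i`, heads `4 y + i`. -/
def val (e : ℕ) : Prop := P.prb (e / 4) ∧ (e / 4 + e) % 2 = 1

def own (e : ℕ) : ℕ := pt (P.En (e % 4) (e / 16)) e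

def hv (y : ℕ) : Prop := P.al (y / 4) ∧ P.En (y % 4) (y / 4) = y / 4

def ld : Ld := ⟨P.val, P.own, P.hv, P.next, P.cur⟩

/-- Note that `z` is on a limit cycle. -/
def mark (z : ℕ) : Pr :=
  { P with rs := if P.rs = 0 ∧ ∃ t < 8, P.On n z ((t / 2 + 3 * (t % 2)) % 4) (P.fu (t / 2) z 0 1) then
      (if ∃ t < 4, P.On n z (1 + 2 * (t / 2)) (P.fu ((1 + 2 * (t / 2) + t % 2) % 4) z 0 1) then 1
      else 2) else P.rs }

end Pr

/-! ### Frames -/

def Sg.tw (A : Sg) (g : ℕ) : Sg := ⟨fp g A.i, A.p, if A.s < 4 then fs g A.s else A.s, A.q⟩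

/-- The renaming of entries. -/
def te (g e : ℕ) : ℕ := 4 * tp g (e / 4) + fp g (e % 4)

def Pr.tw (P : Pr) (n g : ℕ) : Pr where
  al := P.al
  lam p := if P.al (p / 4) then tp (gi g) (P.lam (tp g p)) else 4 * n
  En i c := P.En (fp g i) c
  FE i c a := P.FE (fp g i) c (fs g a)
  F fl a b A B := P.F fl (fs g a) (fs g b) (A.tw g) (B.tw g)
  next z := tz (16 * n) (te (gi g)) (tp (gi g)) (P.next (tz (16 * n) (te g) (tp g) z))
  cur e := P.cur (te g e)
  rs := if P.rs = 0 then 0 else 1 + (P.rs - 1 + fs g 0) % 2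

/-! ### Rounds -/

/-- The data of a round: lists of length at most `c` are short, `j` is the list level, `h` the hash. -/
structure Rn where
  P : Pr
  n : ℕ
  z : ℕ
  c : ℕ
  q : ℕ
  j : ℕ
  h : ℕ → Prop

namespace Rn

variable (K : Rn)

def short (i y : ℕ) : Prop := K.P.ld.short (16 * K.n) K.q K.c (pt y i)

/-- The port of the `t`-th entry of the head `(i, y)`, `4 n` if the slot is not live. -/
def ent (i y t : ℕ) : ℕ := K.P.ld.en (16 * K.n) K.q (pt y i) t / 4

/-! ### The kill of type 0 -/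

/-- Both ends of the listed links, `t < 4 c`. -/
def links (x t : ℕ) : ℕ :=
  if t % 2 = 0 then
    (if t / 2 < K.c then K.ent 0 x (t / 2) else K.ent 1 (K.P.En 1 x) (t / 2 - K.c))
  else K.P.lam (if t / 2 < K.c then K.ent 0 x (t / 2) else K.ent 1 (K.P.En 1 x) (t / 2 - K.c))

def own0 (p : ℕ) : ℕ := K.P.En 0 (K.P.En ((p + 1) % 2) (p / 4))

def sel (x : ℕ) : Prop :=
  K.P.al x ∧ K.P.En 0 x = x ∧ K.P.FE 0 x 3 = K.n ∧ K.h x ∧ K.short 0 x ∧ K.short 1 (K.P.En 1 x) ∧
    ∀ t < 4 * K.c, K.links x t < 4 * K.n → K.own0 (K.links x t) = x ∨ ¬K.h (K.own0 (K.links x t))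

/-- The selected region in which the `i`-walk of `c` ends, `i < 2`. -/
def obj (i c : ℕ) : ℕ :=
  if K.P.FE i (K.P.En i c) (hs i) = K.n ∧ K.sel (K.P.En 0 (K.P.En i c)) then
    K.P.En 0 (K.P.En i c) else K.n

/-- The number of candidates. -/
def nc : ℕ := 12 * K.c + 2

def C (x t : ℕ) : ℕ :=
  if t < 4 * K.c then K.links x t / 4
  else K.P.FE (2 + t % 2) (K.P.En (2 + t % 2)
    (if (t - 4 * K.c) / 2 = 4 * K.c then x else K.links x ((t - 4 * K.c) / 2) / 4)) (hs (2 + t % 2))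

def meets (p s b : ℕ) : Prop :=
  K.P.pa K.n 0 p b ∨ K.P.early K.n 0 p s 3 2 (K.P.fu 3 b 3) 2 < K.n

def hop (b : ℕ) : ℕ := if K.P.FE 0 b 3 < K.n then K.P.FE 2 (K.P.FE 0 b 3) 1 else b

def G : ℕ → ℕ → ℕ → Prop
  | 0 => fun x t => K.C x t < K.n
  | k + 1 => fun x t => K.C x t < K.n ∧ ∃ r < K.nc + 1,
      K.P.En 0 (it K.n K.hop r (K.C x t)) ≠ x ∨ ∃ t' < K.nc, G k x t' ∧
        K.meets (K.P.FE 0 (it K.n K.hop r (K.C x t)) 3) 3 (K.C x t')

/-- The candidates that survive. -/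
def gd (x t : ℕ) : ℕ := if K.G K.nc x t then K.C x t else K.n

def al' (c : ℕ) : Prop :=
  K.P.al c ∧ (K.obj 0 c = K.n ∨ ∃ t < K.nc, K.meets c 0 (K.gd (K.obj 0 c) t))

/-- The walls, `t < 2 nc`. -/
def wall (w x t : ℕ) : Sg := K.P.fu w (K.gd x (t / 2)) (hs w) (t % 2)

def hits (w t : ℕ) : ℕ :=
  K.P.early K.n w t 2 2 (hs (5 - w)) (K.wall (5 - w) (K.obj 0 t)) (2 * K.nc)

/-- The first surviving port on the `w`-walk after `e`. -/
def nxa (w e : ℕ) : ℕ :=
  if K.al' (K.P.st w e) then K.P.lam (pt e w)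
  else if K.P.FE w (K.P.st w e) (hs w) < K.n ∧ ¬K.P.On K.n (K.hits w (K.P.st w e)) 2
      ⟨w, K.P.st w e, 2, K.P.FE w (K.P.st w e) (hs w)⟩ then
    pt (K.P.FE w (K.P.st w e) (hs w)) (ep w (hs w))
  else pt (K.hits w (K.P.st w e)) (ep w 2)

def lam' (p : ℕ) : ℕ :=
  if K.al' (p / 4) then
    if 2 ≤ p % 4 then K.nxa (p % 4) (p / 4)
    else if K.al' (K.P.lam p / 4) then K.P.lam p else K.nxa (5 - K.P.lam p % 4) (K.P.lam p / 4)
  else 4 * K.n

/-- The new `FE` of the types 2, 3. -/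
def FEd (w c a : ℕ) : ℕ :=
  if a = 2 ∧ K.P.FE w c a < K.n ∧ ¬K.al' (K.P.FE w c a) then K.hits w (K.P.FE w c a)
  else K.P.FE w c a

def cq (i p t : ℕ) : ℕ :=
  if t < K.nc then K.gd (K.obj i p) t
  else K.P.st (ep i (hs i))
    (K.P.F false (hs i) 2 (K.P.fu i p 0 0) (K.wall (3 - i) (K.obj i p) (t - K.nc)))

/-- The last surviving cell of the old walk. -/
def dq (i p : ℕ) : ℕ :=
  K.cq i p (lst (3 * K.nc) fun t => K.P.pa K.n i p (K.cq i p t) ∧ K.al' (K.cq i p t) ∧
    ¬K.al' (K.P.st i (K.cq i p t)))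

def dg (i p : ℕ) : ℕ := K.lam' (pt (K.dq i p) i)

def hp (i p : ℕ) : Prop := sd i (K.dg i p) = 0

def tight (w b g : ℕ) : Prop :=
  K.P.pa K.n w b g ∧ ¬K.P.On K.n (K.FEd w b 2) 2 ⟨w, b, hs w, g⟩

def db (i p : ℕ) : ℕ :=
  K.gd (K.obj i p) (lst K.nc fun t => K.tight (3 - i) (K.gd (K.obj i p) t) (K.dg i p / 4))

/-- The start of the next stage. -/
def nx (i p : ℕ) : ℕ := if K.obj i p = K.n then p else if K.hp i p then K.dg i p / 4 else K.db i p

def dp (i p k : ℕ) : ℕ := it K.n (K.nx i) k p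

/-- The side of the first passage of the stage `k`. -/
def ds (i p s k : ℕ) : ℕ :=
  if k = 0 then s else if K.hp i (K.dp i p (k - 1)) then 0 else hs i

/-- The pieces of the whole new walk, two per stage. -/
def pf (i p s k : ℕ) : Sg :=
  if k % 2 = 0 then ⟨i, K.dp i p (k / 2), K.ds i p s (k / 2), K.dq i (K.dp i p (k / 2))⟩
  else if K.hp i (K.dp i p (k / 2)) then junk K.n
  else ⟨3 - i, K.db i (K.dp i p (k / 2)), hs i, K.dg i (K.dp i p (k / 2)) / 4⟩

/-- On the new limit cycle. -/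
def onp (i c b : ℕ) : Prop := ∃ k < 2 * (K.nc + 1), K.P.OnC K.n b (K.pf i c 0 (2 * (K.nc + 1) + k))

def En' (i c : ℕ) : ℕ :=
  if K.al' c then
    if 2 ≤ i then (if K.al' (K.P.En i c) then K.P.En i c else K.nxa i (K.P.En i c) / 4)
    else if K.obj i (K.dp i c (K.nc + 1)) = K.n then K.P.En i (K.dp i c (K.nc + 1))
    else K.gd (K.obj i c) (amin K.nc fun t =>
      if K.onp i c (K.gd (K.obj i c) t) then K.gd (K.obj i c) t else K.n)
  else K.n

/-- The first passage by `a` inside the stage that starts at `p`. -/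
def fe (i p a : ℕ) : ℕ :=
  if K.obj i p = K.n ∨ K.P.On K.n (K.P.FE i p a) a ⟨i, p, 0, K.dq i p⟩ then K.P.FE i p a
  else if sd i (K.dg i p) = a then K.dg i p / 4 else K.n

def FE' (i c a : ℕ) : ℕ :=
  if K.al' c then
    if 2 ≤ i then K.FEd i c a
    else K.fe i (K.dp i c (lst (2 * (K.nc + 1)) fun k => K.fe i (K.dp i c k) a < K.n)) a
  else K.n

/-- The index of the last piece. -/
def np (A : Sg) : ℕ :=
  if 2 ≤ A.i then 0 else lst (4 * (K.nc + 1)) fun k =>
    K.obj A.i (K.dp A.i A.p (k / 2)) = K.n ∨ K.P.OnC K.n A.q (K.pf A.i A.p A.s k)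

def pc (A : Sg) (_a k : ℕ) : Sg :=
  if 2 ≤ A.i then A
  else if k = K.np A then
    (if k % 2 = 0 then ⟨A.i, K.dp A.i A.p (k / 2), K.ds A.i A.p A.s (k / 2), A.q⟩
    else ⟨3 - A.i, A.q, hs A.i, K.dg A.i (K.dp A.i A.p (k / 2)) / 4⟩)
  else K.pf A.i A.p A.s k

def rv (A : Sg) (k : ℕ) : Bool := decide (A.i < 2 ∧ k % 2 = 1)

/-- The new geometry with the old lists. -/
def N : Pr :=
  ⟨K.al', K.lam', K.En', K.FE', K.P.genF K.n K.al' K.np K.pc rv, K.P.next, K.P.cur,
    if K.P.rs = 0 ∧ ¬K.al' K.z then 2 else K.P.rs⟩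

def moved (i c : ℕ) : Prop := i < 2 ∧ K.obj i c < K.n

def ins (e : ℕ) : Prop := K.N.val e ∧ (K.moved (e % 4) (e / 16) ∨ ¬K.P.val e)

def ren (y : ℕ) : ℕ :=
  if K.moved (y % 4) (y / 4) then 16 * K.n else pt (K.P.En (y % 4) (y / 4)) y

/-- The killer seen from the port `p` upwards. -/
def up (p : ℕ) : ℕ := K.obj ((p + 1) % 2) (p / 4)

def seen (p : ℕ) : ℕ := if K.up p < K.n then K.up p else K.up (K.P.lam p)

def bp (x t : ℕ) : ℕ :=
  if t < 4 * K.nc then pt (K.gd x (t / 4)) t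
  else pt (K.FEd (2 + t % 2) (K.gd x ((t - 4 * K.nc) / 2)) 2) (ep (2 + t % 2) 2)

/-- The ports at which entries may have to be inserted, `t < 12 nc`. -/
def nxp (x t : ℕ) : ℕ := if t % 2 = 0 then K.bp x (t / 2) else K.lam' (K.bp x (t / 2))

def Nx (z t : ℕ) : ℕ :=
  pt (K.nxp (if zl (16 * K.n) z = 0 then K.obj (ze (16 * K.n) z % 4) (ze (16 * K.n) z / 4)
    else K.seen (ze (16 * K.n) z / 4)) t) (ze (16 * K.n) z)

def an (e : ℕ) : ℕ :=
  if K.moved (e % 4) (K.N.own e / 4) then code (16 * K.n) 0 (K.N.own e)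
  else K.P.ld.slot (16 * K.n) (pt (K.links (K.up (e / 4)) (lst (4 * K.c) fun t =>
    K.P.val (pt (K.links (K.up (e / 4)) t) e) ∧
      K.P.own (pt (K.links (K.up (e / 4)) t) e) = K.ren (K.N.own e))) e)

def rd : GL.Rd :=
  ⟨16 * K.n, K.q, K.j, 12 * K.nc, K.P.ld, K.N.val, K.N.own, K.N.hv, K.ins, K.ren, K.an, K.Nx⟩

def kill : Pr := { K.N with next := K.rd.next, cur := K.rd.cur }

end Rn

end

end Pool.Agent.MP_1a6d78_lc.PS

end MrgPart0

-- ======== part 1: formerly Pool.Agent.MP_1a6d78_lc.PL.Rch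
section MrgPart1

/-! PROJECT PSC: directed cycles in terms of sides; Minty, not both, the bridge to level zero. -/

namespace Pool.Agent.MP_1a6d78_lc.PL

open Classical ED PR

/-- The previous port of the cell. -/
def r3 (p : ℕ) : ℕ := 4 * (p / 4) + (p + 3) % 4

/-- The opposite port of the cell. -/
def op (p : ℕ) : ℕ := 4 * (p / 4) + (p + 2) % 4

/-- Walks on the sides (the side `p` follows the port `p`): round a region, or across a cell from
the side `k` to the side `k + 2`. -/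
def Rch (n : ℕ) (lk : ℕ → ℕ) (k : ℕ) : ℕ → ℕ → Prop :=
  Relation.ReflTransGen fun a b => a < 4 * n ∧ (b = r3 (lk a) ∨ (a % 4 = k % 4 ∧ b = op a))

/-- The cell `c` is on a directed cycle of type `k`. -/
def Cyc (n : ℕ) (lk : ℕ → ℕ) (k c : ℕ) : Prop :=
  Rch n lk k (4 * c + (k + 2) % 4) (4 * c + k % 4)

/-- A map: alive cells and links. -/
structure Ok (n : ℕ) (al : ℕ → Prop) (lk : ℕ → ℕ) : Prop where
  iv : Iv (4 * n) lk
  fix : ∀ p < 4 * n, lk p = p ↔ ¬al (p / 4)
  par : ∀ p < 4 * n, al (p / 4) → (lk p + p) % 2 = 1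

variable {n k c a b : ℕ} {ρ lk lk' pr : ℕ → ℕ} {al al' : ℕ → Prop}

theorem Ok.alive (H : Ok n al lk) (h : a < 4 * n) (u : al (a / 4)) : al (lk a / 4) := by
  by_contra v
  have := (H.fix _ (H.iv a h).1).2 v
  rw [(H.iv a h).2] at this
  exact (H.fix a h).1 this.symm u

theorem r3_pm : Pm (4 * n) r3 :=
  ⟨fun d h => by unfold r3; omega, fun a _ b _ h => by unfold r3 at h; omega⟩

theorem op_op (p : ℕ) : op (op p) = p := by unfold op; omega

theorem op_lt (h : a < 4 * n) : op a < 4 * n := by unfold op; omega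

theorem Rch.psi (h : a < 4 * n) : Rch n lk k a (r3 (lk a)) := .single ⟨h, Or.inl rfl⟩

theorem Rch.arc (h : a < 4 * n) (e : a % 4 = k % 4) : Rch n lk k a (op a) :=
  .single ⟨h, Or.inr ⟨e, rfl⟩⟩

theorem Rch.lt (iv : Iv (4 * n) lk) (h : Rch n lk k a b) (ha : a < 4 * n) : b < 4 * n := by
  induction h with
  | refl => exact ha
  | tail _ u _ =>
    rcases u with ⟨u, rfl | ⟨-, rfl⟩⟩
    exacts [r3_pm.1 _ (iv _ u).1, op_lt u]

theorem Rch.sc (iv : Iv (4 * n) lk) (ha : a < 4 * n) (h : Sc (4 * n) (fun p => r3 (lk p)) a b) :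
    Rch n lk k a b :=
  Sc.ind (r3_pm.comp iv.pm).1 ha .refl (fun _ hd u => u.trans (Rch.psi hd)) h

theorem Rch.back (iv : Iv (4 * n) lk) (ha : a < 4 * n) : Rch n lk k (r3 (lk a)) a :=
  .sc iv (r3_pm.1 _ (iv a ha).1)
    ((Sc.step (r3_pm.comp iv.pm).1 ha).symm (r3_pm.comp iv.pm) ha)

/-- The side before a port and the side after its partner are in one region. -/
theorem Rch.bk (iv : Iv (4 * n) lk) (ha : a < 4 * n) : Rch n lk k (r3 a) (lk a) := by
  have := Rch.back (k := k) iv (iv a ha).1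
  rwa [(iv a ha).2] at this

theorem Rch.fw (iv : Iv (4 * n) lk) (ha : a < 4 * n) : Rch n lk k (lk a) (r3 a) := by
  have := Rch.psi (k := k) (lk := lk) (iv a ha).1
  rwa [(iv a ha).2] at this

theorem Rch.mod {j : ℕ} (e : k % 4 = j % 4) (h : Rch n lk k a b) : Rch n lk j a b := by
  unfold Rch at *
  rwa [← e]

theorem Rch.rev (iv : Iv (4 * n) lk) (h : Rch n lk k a b) : Rch n lk (k + 2) b a := by
  induction h with
  | refl => exact .refl
  | tail _ u ih =>
    rcases u with ⟨u, rfl | ⟨e, rfl⟩⟩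
    · exact (Rch.back iv u).trans ih
    · have := Rch.arc (lk := lk) (k := k + 2) (op_lt u) (by unfold op; omega)
      rw [op_op] at this
      exact this.trans ih

theorem Cyc.mod {j : ℕ} (e : k % 4 = j % 4) (h : Cyc n lk k c) : Cyc n lk j c := by
  unfold Cyc at *
  rw [← e, show (j + 2) % 4 = (k + 2) % 4 by omega]
  exact h.mod e

theorem Cyc.rev (iv : Iv (4 * n) lk) (h : Cyc n lk k c) : Cyc n lk (k + 2) c := by
  unfold Cyc
  rw [show (k + 2 + 2) % 4 = k % 4 by omega]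
  exact Rch.rev iv h

/-- Only the parity of the type matters. -/
theorem Cyc.par {j : ℕ} (iv : Iv (4 * n) lk) (e : k % 2 = j % 2) (h : Cyc n lk k c) :
    Cyc n lk j c := by
  by_cases u : k % 4 = j % 4
  · exact h.mod u
  · exact (h.rev iv).mod (by omega)

/-- MINTY: every cell is on a directed cycle or on a directed cycle of the dual. -/
theorem minty (H : Ok n al lk) (hc : c < n) (ac : al c) (h : ¬Cyc n lk k c) :
    Cyc n lk (k + 3) c := by
  have iv := H.iv
  obtain ⟨S, hS⟩ : ∃ S : ℕ → Prop, ∀ p, S p ↔ Rch n lk k (4 * c + (k + 2) % 4) p :=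
    ⟨_, fun _ => Iff.rfl⟩
  obtain ⟨σ, hσ⟩ : ∃ σ : ℕ → ℕ, ∀ p, σ p = if S (4 * (p / 4) + (k + 2) % 4) ∧
      ¬S (4 * (p / 4) + k % 4) then op p else p := ⟨_, fun _ => rfl⟩
  have o4 : ∀ p, op p / 4 = p / 4 := fun p => by unfold op; omega
  have si : Iv (4 * n) σ := fun p hp => by
    by_cases e : S (4 * (p / 4) + (k + 2) % 4) ∧ ¬S (4 * (p / 4) + k % 4)
    · rw [hσ p, if_pos e, hσ, o4, if_pos e, op_op]
      exact ⟨op_lt hp, rfl⟩
    · rw [hσ p, if_neg e, hσ, if_neg e]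
      exact ⟨hp, rfl⟩
  have pm := (r3_pm.comp iv.pm).comp si.pm
  have h0 : 4 * c + (k + 3) % 4 < 4 * n := by omega
  have r43 : ∀ p, r4 (r3 p) = p := fun p => by unfold r4 r3; omega
  have step : ∀ p < 4 * n, p % 2 = (k + 1) % 2 → ¬S (r4 p) →
      ¬S (r3 (σ p)) ∧ Rch n lk (k + 3) p (σ p) := fun p hp par u => by
    rw [hσ]
    split_ifs with e
    · by_cases t : p % 4 = (k + 1) % 4
      · exact absurd e.1 (by rwa [show 4 * (p / 4) + (k + 2) % 4 = r4 p by unfold r4; omega])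
      · exact ⟨by rw [show r3 (op p) = 4 * (p / 4) + k % 4 by unfold r3 op; omega]; exact e.2,
          .arc hp (by omega)⟩
    · refine ⟨fun v => ?_, .refl⟩
      by_cases t : p % 4 = (k + 1) % 4
      · refine u ((hS _).2 ?_)
        rw [show r4 p = op (r3 p) by unfold r3 r4 op; omega]
        exact ((hS _).1 v).trans (Rch.arc (r3_pm.1 p hp) (by unfold r3; omega))
      · refine e ⟨?_, ?_⟩
        · rwa [show 4 * (p / 4) + (k + 2) % 4 = r3 p by unfold r3; omega]
        · rwa [show 4 * (p / 4) + k % 4 = r4 p by unfold r4; omega]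
  have s0 : σ (4 * c + (k + 3) % 4) = 4 * c + (k + 1) % 4 := by
    rw [hσ, show (4 * c + (k + 3) % 4) / 4 = c by omega, if_pos ⟨(hS _).2 .refl, by rwa [hS]⟩]
    unfold op
    omega
  have s4 : ∀ p, σ p / 4 = p / 4 ∧ σ p % 2 = p % 2 := fun p => by
    rw [hσ]
    unfold op
    split_ifs <;> omega
  have one : ∀ p < 4 * n, al (p / 4) → p % 2 = (k + 1) % 2 → ¬S (r4 p) →
      al (r3 (lk (σ p)) / 4) ∧ r3 (lk (σ p)) % 2 = (k + 1) % 2 ∧ ¬S (r4 (r3 (lk (σ p)))) :=
    fun p hp u par v => by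
      have i1 := s4 p
      have i2 := H.alive (si p hp).1 (i1.1 ▸ u)
      have i3 := H.par _ (si p hp).1 (i1.1 ▸ u)
      refine ⟨by rwa [show r3 (lk (σ p)) / 4 = lk (σ p) / 4 by unfold r3; omega],
        by unfold r3; omega, fun w => (step p hp par v).1 ((hS _).2 ?_)⟩
      rw [r43] at w
      exact ((hS _).1 w).trans (Rch.fw iv (si p hp).1)
  obtain ⟨t, ht, e⟩ := pm.period h0
  obtain ⟨t, rfl⟩ : ∃ v, t = v + 1 := ⟨t - 1, by omega⟩
  rw [Function.iterate_succ_apply] at e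
  have b0 := one _ h0 (by rwa [show (4 * c + (k + 3) % 4) / 4 = c by omega]) (by omega) (by
    rwa [show r4 (4 * c + (k + 3) % 4) = 4 * c + k % 4 by unfold r4; omega, hS])
  have := (iter_inv (f := fun p => r3 (lk (σ p))) (Q := fun p => p < 4 * n ∧ (al (p / 4) ∧
    p % 2 = (k + 1) % 2 ∧ ¬S (r4 p)) ∧ Rch n lk (k + 3) (4 * c + (k + 1) % 4) p)
    (fun p u => ⟨pm.1 p u.1, one p u.1 u.2.1.1 u.2.1.2.1 u.2.1.2.2, (u.2.2.trans
      (step p u.1 u.2.1.2.1 u.2.1.2.2).2).trans (Rch.psi (si p u.1).1)⟩)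
    ⟨pm.1 _ h0, b0, by beta_reduce; rw [s0]; exact Rch.psi (by omega)⟩ t).2.2
  rw [e] at this
  unfold Cyc
  rwa [show (k + 3 + 2) % 4 = (k + 1) % 4 by omega]

/-- NOT BOTH for every plane map. -/
theorem not_both (H : Ok n al lk) (h : Pln n lk) (hc : c < n) (ac : al c) (g0 : Cyc n lk k c)
    (g1 : Cyc n lk (k + 1) c) : False := by
  have iv := H.iv
  obtain ⟨s, hs⟩ : ∃ s, s = 4 * c + (k + 2) % 4 := ⟨_, rfl⟩
  have key : ∀ x, Rch n lk k s x → (x < 4 * n ∧ al (x / 4) ∧ x % 2 = k % 2) ∧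
      ∃ z y m : ℕ → ℤ, (∀ d < 4 * n, z (lk d) = -z d) ∧
      (∀ d < 4 * n, y (r4 d) = y d + (z d + ((if d = x then 1 else 0) - if d = s then 1 else 0))) ∧
      (∀ e, 0 ≤ m e) ∧ ∀ e, z (4 * e + k % 4) + z (4 * e + (k + 1) % 4) +
        (if 4 * e + k % 4 = x then 1 else 0) + m e = 0 := fun x u => by
    induction u with
    | refl =>
      refine ⟨⟨by omega, by rwa [show s / 4 = c by omega], by omega⟩, fun _ => 0, fun _ => 0,
        fun _ => 0, by simp, by simp, by simp, fun e => ?_⟩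
      rw [if_neg (by omega)]
      rfl
    | @tail u v _ w ih =>
      obtain ⟨⟨h0, a0, p0⟩, z, y, m, h1, h2, h3, h4⟩ := ih
      rcases w with ⟨-, rfl | ⟨w, rfl⟩⟩
      · have i1 := H.par u h0 a0
        have i2 := iv u h0
        refine ⟨⟨r3_pm.1 _ i2.1, by
          rw [show r3 (lk u) / 4 = lk u / 4 by unfold r3; omega]; exact H.alive h0 a0,
          by unfold r3; omega⟩,
          fun d => z d + ((if d = u then 1 else 0) - if d = lk u then 1 else 0),
          fun d => y d + if d = lk u then 1 else 0, m, fun d hd => ?_, fun d hd => ?_, h3,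
          fun e => ?_⟩
        · have j1 : lk d = u ↔ d = lk u :=
            ⟨fun r => by rw [← r, (iv d hd).2], fun r => by rw [r, i2.2]⟩
          have j2 : lk d = lk u ↔ d = u := ⟨iv.pm.2 d hd u h0, fun r => by rw [r]⟩
          simp only [j1, j2, h1 d hd]
          ring
        · have j1 : r4 d = lk u ↔ d = r3 (lk u) := by unfold r4 r3; omega
          simp only [j1, h2 d hd]
          ring
        · have := h4 e
          have j1 : 4 * e + k % 4 = r3 (lk u) ↔ 4 * e + (k + 1) % 4 = lk u := by unfold r3; omega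
          simp only [j1, if_neg (show 4 * e + k % 4 ≠ lk u by omega),
            if_neg (show 4 * e + (k + 1) % 4 ≠ u by omega)]
          linear_combination this
      · refine ⟨⟨op_lt h0, by rwa [show op u / 4 = u / 4 by unfold op; omega],
          by unfold op; omega⟩, z,
          fun d => y d - ((if d = r4 u then 1 else 0) + if d = op u then 1 else 0),
          fun e => m e + if 4 * e + k % 4 = u then 1 else 0, h1, fun d hd => ?_, fun e => ?_,
          fun e => ?_⟩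
        · have j1 : r4 d = r4 u ↔ d = u := by unfold r4; omega
          have j2 : r4 d = op u ↔ d = r4 u := by unfold r4 op; omega
          simp only [j1, j2, h2 d hd]
          ring
        · have := h3 e
          beta_reduce
          split_ifs <;> omega
        · rw [if_neg (show 4 * e + k % 4 ≠ op u by unfold op; omega)]
          linear_combination h4 e
  obtain ⟨x, hx⟩ : ∃ x, x = 4 * c + k % 4 := ⟨_, rfl⟩
  obtain ⟨-, z, y, m, h1, h2, h3, h4⟩ := key x (by rw [hs, hx]; exact g0)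
  obtain ⟨f, hf⟩ := Pl.colZ (Two.Col.pl h Two.pm iv) Two.pm lk iv (fun _ _ => Or.inr rfl) z
    (fun d => y d - ((if d = r4 x then 1 else 0) + if d = s then 1 else 0)) h1 fun d hd => by
      have j1 : r4 d = r4 x ↔ d = x := by unfold r4; omega
      have j2 : r4 d = s ↔ d = r4 x := by unfold r4; omega
      simp only [j1, j2, h2 d hd]
      ring
  have ar : ∀ e < n, f (r4 (4 * e + (k + 1) % 4)) = f (r4 (op (4 * e + (k + 1) % 4))) +
      (z (4 * e + k % 4) + z (4 * e + (k + 1) % 4)) := fun e he => by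
    rw [(hf _ (by omega)).1, show r4 (op (4 * e + (k + 1) % 4)) = 4 * e + k % 4 by
      unfold r4 op; omega, ← add_assoc, ← (hf (4 * e + k % 4) (by omega)).1,
      show r4 (4 * e + k % 4) = 4 * e + (k + 1) % 4 by unfold r4; omega]
  have mono : ∀ a b, Rch n lk (k + 1) a b → f (r4 a) ≤ f (r4 b) := fun a b u => by
    induction u with
    | refl => exact le_rfl
    | @tail u v _ w ih =>
      rcases w with ⟨w, rfl | ⟨e', rfl⟩⟩
      · rw [show r4 (r3 (lk u)) = lk u by unfold r4 r3; omega, (hf u w).2, ← (hf u w).1]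
        exact ih
      · obtain ⟨e, rfl⟩ : ∃ e, u = 4 * e + (k + 1) % 4 := ⟨u / 4, by omega⟩
        have i1 := ar e (by omega)
        have i2 := h3 e
        have i3 := h4 e
        split_ifs at i3 <;> omega
  have i0 := mono _ _ g1
  have i1 := ar c hc
  have i2 := h3 c
  have i3 := h4 c
  rw [if_pos hx.symm] at i3
  rw [show op (4 * c + (k + 1) % 4) = 4 * c + (k + 1 + 2) % 4 by unfold op; omega] at i1
  omega

/-- Exactly one of the two. -/
theorem cyc_iff (H : Ok n al lk) (h : Pln n lk) (hc : c < n) (ac : al c) :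
    Cyc n lk (k + 1) c ↔ ¬Cyc n lk k c :=
  ⟨fun g1 g0 => not_both H h hc ac g0 g1, fun g => (minty H hc ac g).par H.iv (by omega)⟩

theorem ok_lam (p : Pm (2 * n) ρ) : Ok n (fun _ => True) (lam n ρ) := by
  have e : ∀ q, (lam n ρ q + q) % 2 = 1 := fun q => by
    unfold lam
    split_ifs <;> omega
  refine ⟨(lam_iv p).1, fun q _ => ⟨fun u => ?_, fun u => absurd trivial u⟩, fun q _ _ => e q⟩
  have := e q
  omega

/-- The bridge to level zero. -/
theorem bridge (p : Pm (2 * n) ρ) :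
    Go n ρ (2 * c + 1) (2 * c) ↔ Cyc n (lam n ρ) 0 c := by
  have l0 := (lam_iv p).2.1
  have ps : ∀ d, r3 (lam n ρ (2 * d)) = 2 * ρ d := fun d => by rw [l0]; unfold r3; omega
  constructor
  · intro h
    have key : ∀ x, Go n ρ (2 * c + 1) x → Rch n (lam n ρ) 0 (2 * (2 * c + 1)) (2 * x) := by
      intro x u
      induction u with
      | refl => exact .refl
      | @tail u v _ w ih =>
        rcases w with ⟨w, rfl | ⟨e, rfl⟩⟩
        · exact ih.tail ⟨by omega, Or.inl (ps u).symm⟩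
        · exact ih.tail ⟨by omega, Or.inr ⟨by omega, by unfold op; omega⟩⟩
    have := key _ h
    unfold Cyc
    rwa [show 4 * c + (0 + 2) % 4 = 2 * (2 * c + 1) by omega,
      show 4 * c + 0 % 4 = 2 * (2 * c) by omega]
  · intro h
    have key : ∀ x, Rch n (lam n ρ) 0 (4 * c + (0 + 2) % 4) x →
        ∃ d, x = 2 * d ∧ Go n ρ (2 * c + 1) d := by
      intro x u
      induction u with
      | refl => exact ⟨_, by omega, .refl⟩
      | @tail u v _ w ih =>
        obtain ⟨d, rfl, ih⟩ := ih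
        rcases w with ⟨w, rfl | ⟨e, rfl⟩⟩
        · exact ⟨_, ps d, ih.tail ⟨by omega, Or.inl rfl⟩⟩
        · exact ⟨d + 1, by unfold op; omega, ih.tail ⟨by omega, Or.inr ⟨by omega, rfl⟩⟩⟩
    obtain ⟨d, e, u⟩ := key _ h
    rwa [show d = 2 * c by omega] at u

/-- LEVEL ZERO: the map of the reduction. -/
theorem zero_code {m : ℕ} (σ α : Equiv.Perm (Fin m)) (dir : Fin m → Bool) (s t : Fin m)
    (h1 : α * α = 1) (h2 : Planar σ α) {x : List Bool} (hx : x = code σ α dir s t) :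
    Ok (cells (inp x)) (fun _ => True) (lam (cells (inp x)) (rho (inp x))) ∧
      Pln (cells (inp x)) (lam (cells (inp x)) (rho (inp x))) ∧ e0 (inp x) < cells (inp x) ∧
      (Reach σ α dir s t ↔
        Cyc (cells (inp x)) (lam (cells (inp x)) (rho (inp x))) 0 (e0 (inp x))) := by
  obtain ⟨k1, -, -, k2, k3⟩ := red_code σ α dir s t h1 h2 hx
  exact ⟨ok_lam k1, med_code σ α dir s t h1 h2 hx, k2, k3.trans (bridge k1)⟩

end Pool.Agent.MP_1a6d78_lc.PL

end MrgPart1

-- ======== part 2: formerly Pool.Agent.MP_1a6d78_lc.PL.Lift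
section MrgPart2

/-! PROJECT PSC: cycles lift through kills and cuts; cuts keep maps plane. -/

namespace Pool.Agent.MP_1a6d78_lc.PL

open Classical ED PR

variable {n k i j c a b : ℕ} {lk lk' pr : ℕ → ℕ} {al al' : ℕ → Prop}

/-- A cell on its own `i`-cycle is on a directed cycle; `e` is the port of entry. -/
theorem walk_cyc (H : Ok n al lk) (hi : i < 4) (hc : c < n) (ac : al c) {t e : ℕ} (he : e < 4)
    (h : lk (4 * (fun a => lk (4 * a + i) / 4)^[t] c + i) = 4 * c + e) :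
    Cyc n lk (if e = (i + 1) % 4 then i + 1 else i) c := by
  have iv := H.iv
  have st : ∀ a < n, al a → (lk (4 * a + i) / 4 < n ∧ al (lk (4 * a + i) / 4)) ∧
      (lk (4 * a + i) + i) % 2 = 1 := fun a ha u => by
    have u' : al ((4 * a + i) / 4) := by rwa [show (4 * a + i) / 4 = a by omega]
    have := (iv (4 * a + i) (by omega)).1
    have := H.par _ (by omega) u'
    exact ⟨⟨by omega, H.alive (by omega) u'⟩, by omega⟩
  have key := iter_inv (f := fun a => lk (4 * a + i) / 4) (Q := fun a => (a < n ∧ al a) ∧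
    Rch n lk (i + 2) (4 * c + i) (4 * a + i) ∧
    Rch n lk (i + 1) (4 * c + (i + 3) % 4) (4 * a + (i + 3) % 4)) (fun a u => by
      obtain ⟨k1, k2⟩ := st a u.1.1 u.1.2
      have l : 4 * a + i < 4 * n := by omega
      have l' := (iv _ l).1
      refine ⟨k1, u.2.1.trans ((Rch.psi l).trans ?_), u.2.2.trans ?_⟩
      · by_cases v : lk (4 * a + i) % 4 = (i + 1) % 4
        · rw [show r3 (lk (4 * a + i)) = 4 * (lk (4 * a + i) / 4) + i by unfold r3; omega]
        · rw [show 4 * (lk (4 * a + i) / 4) + i = op (r3 (lk (4 * a + i))) by unfold op r3; omega]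
          exact Rch.arc (r3_pm.1 _ l') (by unfold r3; omega)
      · rw [show 4 * a + (i + 3) % 4 = r3 (4 * a + i) by unfold r3; omega]
        refine (Rch.bk iv l).trans ?_
        by_cases v : lk (4 * a + i) % 4 = (i + 1) % 4
        · rw [show 4 * (lk (4 * a + i) / 4) + (i + 3) % 4 = op (lk (4 * a + i)) by
            unfold op; omega]
          exact Rch.arc l' v
        · rw [show 4 * (lk (4 * a + i) / 4) + (i + 3) % 4 = lk (4 * a + i) by omega]) ⟨⟨hc, ac⟩, .refl, .refl⟩ t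
  generalize (fun a => lk (4 * a + i) / 4)^[t] c = y at h key
  obtain ⟨⟨k1, k2⟩, k3, k4⟩ := key
  have l : 4 * y + i < 4 * n := by omega
  have p := (st y k1 k2).2
  split_ifs with v
  · have := Rch.bk (k := i + 1) iv l
    rw [h, v, show r3 (4 * y + i) = 4 * y + (i + 3) % 4 by unfold r3; omega] at this
    exact k4.trans this
  · have := k3.trans (Rch.psi l)
    rw [h, show r3 (4 * c + e) = 4 * c + (i + 2) % 4 by unfold r3; omega] at this
    refine Cyc.par (k := i + 2) iv (by omega) ?_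
    unfold Cyc
    rwa [show (i + 2 + 2) % 4 = i by omega]

/-- Cells whose side `k` has a rank that falls against the arcs are on no cycle of type `k`. -/
theorem not_cyc {T : ℕ → Prop} {rk : ℕ → ℕ} (hc : c < n)
    (h1 : ∀ p < 4 * n, T (r3 (lk p)) → T p ∧ rk p ≤ rk (r3 (lk p)))
    (h2 : ∀ p < 4 * n, p % 4 = k % 4 → T (op p) → T p ∧ rk p < rk (op p))
    (h : T (4 * c + k % 4)) : ¬Cyc n lk k c := fun g => by
  have key : ∀ a, Rch n lk k a (4 * c + k % 4) → T a ∧ rk a ≤ rk (4 * c + k % 4) := fun a u => by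
    induction u using Relation.ReflTransGen.head_induction_on with
    | refl => exact ⟨h, le_rfl⟩
    | head w _ ih =>
      rcases w with ⟨w, rfl | ⟨e, rfl⟩⟩
      · exact ⟨(h1 _ w ih.1).1, (h1 _ w ih.1).2.trans ih.2⟩
      · exact ⟨(h2 _ w e ih.1).1, (h2 _ w e ih.1).2.le.trans ih.2⟩
  have i1 := key _ g
  have e : op (4 * c + k % 4) = 4 * c + (k + 2) % 4 := by unfold op; omega
  have i2 := h2 (4 * c + k % 4) (by omega) (by omega) (e ▸ i1.1)
  rw [e] at i2
  omega

/-- The partner of a port in the smoothing of type `k`. -/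
def sm (k p : ℕ) : ℕ := if p % 2 = k % 2 then r4 p else r3 p

theorem lift_kill (H : Ok n al lk) (H' : Ok n al' lk') (hs : ∀ c, al' c → al c)
    (h1 : ∀ p < 4 * n, al' (p / 4) → Cv lk (sm k) al' p (lk' p))
    (h2 : ∀ d < n, al d → ¬al' d → Cyc n lk (k + 1) d) (hc : c < n) (ac : al' c)
    (g : Cyc n lk' j c) : Cyc n lk j c := by
  have iv := H.iv
  have cv : ∀ x r, Cv lk (sm k) al' x r → x < 4 * n → al (x / 4) → x % 2 = j % 2 →
      Rch n lk j x (r3 r) := fun x r u => by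
    induction u with
    | stop _ => exact fun hx _ _ => Rch.psi hx
    | @go x r d _ ih =>
      intro hx ax px
      have l := (iv x hx).1
      have p := H.par x hx ax
      have a1 := H.alive hx ax
      have e : sm k (lk x) / 4 = lk x / 4 ∧ (sm k (lk x) + lk x) % 2 = 1 := by
        unfold sm r4 r3
        split_ifs <;> omega
      refine ((Rch.psi hx).trans ?_).trans (ih (by omega) (e.1 ▸ a1) (by omega))
      unfold sm
      split_ifs with v
      · by_cases w : r3 (lk x) % 4 = j % 4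
        · rw [show r4 (lk x) = op (r3 (lk x)) by unfold r4 op r3; omega]
          exact Rch.arc (r3_pm.1 _ l) w
        · have := (h2 _ (by omega) a1 d).par (j := j) iv (by omega)
          unfold Cyc at this
          rwa [show 4 * (lk x / 4) + (j + 2) % 4 = r3 (lk x) by unfold r3 at w ⊢; omega,
            show 4 * (lk x / 4) + j % 4 = r4 (lk x) by unfold r3 at w; unfold r4; omega] at this
      · exact .refl
  have key : ∀ x, Rch n lk' j (4 * c + (j + 2) % 4) x → (x < 4 * n ∧ al' (x / 4) ∧ x % 2 = j % 2) ∧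
      Rch n lk j (4 * c + (j + 2) % 4) x := fun x u => by
    induction u with
    | refl => exact ⟨⟨by omega, by rwa [show (4 * c + (j + 2) % 4) / 4 = c by omega], by omega⟩,
        .refl⟩
    | @tail u v _ w ih =>
      obtain ⟨⟨h0, a0, p0⟩, ih⟩ := ih
      rcases w with ⟨-, rfl | ⟨w, rfl⟩⟩
      · have := H'.par u h0 a0
        exact ⟨⟨r3_pm.1 _ (H'.iv u h0).1, by
          rw [show r3 (lk' u) / 4 = lk' u / 4 by unfold r3; omega]; exact H'.alive h0 a0,
          by unfold r3; omega⟩, ih.trans (cv _ _ (h1 u h0 a0) h0 (hs _ a0) p0)⟩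
      · exact ⟨⟨op_lt h0, by rwa [show op u / 4 = u / 4 by unfold op; omega],
          by unfold op; omega⟩, ih.trans (Rch.arc h0 w)⟩
  exact (key _ g).2

theorem pln_kill (H : Ok n al lk) (H' : Ok n al' lk') (hs : ∀ c, al' c → al c) (h : Pln n lk)
    (h1 : ∀ p < 4 * n, al' (p / 4) → Cv lk (sm k) al' p (lk' p)) : Pln n lk' := by
  have e : ∀ p, sm k p / 4 = p / 4 ∧ sm k (sm k p) = p ∧ (sm k p = r4 p ∨ p = r4 (sm k p)) :=
    fun p => by
      unfold sm r4 r3
      split_ifs <;> omega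
  refine smooth h H.iv (fun p hp => ?_) (fun p hp u => ?_)
    (fun p hp u => ⟨(e p).2.1, (e p).2.2, (H'.fix p hp).2 u⟩) h1
  · by_cases u : al (p / 4)
    · exact Or.inr (H.par p hp u)
    · exact Or.inl ((H.fix p hp).2 u)
  · have v := (H.fix p hp).1 u
    have := (e p).1
    exact ⟨fun w => v (hs _ w), (H.fix _ (by omega)).2 (by rwa [this])⟩

/-- A union `R` of `i`-cycles with the ports of entry `en`. -/
structure Ring (n : ℕ) (lk : ℕ → ℕ) (i : ℕ) (R : ℕ → Prop) (en : ℕ → ℕ) : Prop where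
  hi : i < 4
  nx : ∀ a, R a → a < n ∧ ∃ b, R b ∧ lk (4 * a + i) = 4 * b + en b
  pv : ∀ b, R b → (en b = (i + 1) % 4 ∨ en b = (i + 3) % 4) ∧
    ∃ a, R a ∧ lk (4 * a + i) = 4 * b + en b

/-- `lk'` is the cut of `lk` along the rings: every cell is joined to the next one of its kind. -/
structure IsCut (n : ℕ) (lk lk' : ℕ → ℕ) (i : ℕ) (R : ℕ → Prop) (en : ℕ → ℕ) : Prop
    extends Ring n lk i R en where
  on : ∀ a, R a →
    Cv lk (fun r => 4 * (r / 4) + i) (fun c => en c = en a) (4 * a + i) (lk' (4 * a + i))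
  bk : ∀ a, R a → Cv lk (fun r => 4 * (r / 4) + en (r / 4)) (fun c => en c = en a)
    (4 * a + en a) (lk' (4 * a + en a))
  off : ∀ p < 4 * n, ¬(R (p / 4) ∧ (p % 4 = i ∨ p % 4 = en (p / 4))) → lk' p = lk p

variable {R P : ℕ → Prop} {en pr' : ℕ → ℕ}

theorem Cv.rev (iv : Iv (4 * n) lk) {S : ℕ → Prop}
    (hS : ∀ x, S x → x < 4 * n ∧ S (pr (lk x)) ∧ pr (lk x) / 4 = lk x / 4 ∧ pr' (pr (lk x)) = lk x)
    {x r s : ℕ} (h : Cv lk pr P x r) (hx : S x) (g : Cv lk pr' P (lk x) s) : Cv lk pr' P r s := by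
  induction h with
  | stop _ => exact g
  | @go x r d _ ih =>
    obtain ⟨-, k2, k3, k4⟩ := hS x hx
    have e := (iv _ (hS _ k2).1).2
    exact ih k2 (.go (by rwa [e, k3]) (by rwa [e, k4]))

theorem Cv.fin {S : ℕ → Prop} (hS : ∀ x, S x → S (pr (lk x))) {x r : ℕ} (h : Cv lk pr P x r)
    (hx : S x) : P (r / 4) ∧ ∃ y, S y ∧ r = lk y := by
  induction h with
  | stop d => exact ⟨d, _, hx, rfl⟩
  | go _ _ ih => exact ih (hS _ hx)

theorem Ring.en4 (G : Ring n lk i R en) (h : R a) : en a < 4 ∧ (en a + i) % 2 = 1 := by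
  have := (G.pv a h).1
  omega

theorem Ring.pv' (G : Ring n lk i R en) (iv : Iv (4 * n) lk) (h : R b) :
    ∃ a, R a ∧ lk (4 * b + en b) = 4 * a + i := by
  obtain ⟨-, a, k1, k2⟩ := G.pv b h
  have := (G.nx a k1).1
  have := G.hi
  exact ⟨a, k1, by rw [← k2, (iv _ (by omega)).2]⟩

theorem Ring.sx (G : Ring n lk i R en) : ∀ x, (∃ a, R a ∧ x = 4 * a + i) → x < 4 * n ∧
    (∃ a, R a ∧ 4 * (lk x / 4) + i = 4 * a + i) ∧ (4 * (lk x / 4) + i) / 4 = lk x / 4 ∧
    4 * ((4 * (lk x / 4) + i) / 4) + en ((4 * (lk x / 4) + i) / 4) = lk x := by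
  rintro _ ⟨a, h, rfl⟩
  obtain ⟨k1, b, k2, k3⟩ := G.nx a h
  have := G.hi
  have := G.en4 k2
  rw [k3, show (4 * b + en b) / 4 = b by omega, show (4 * b + i) / 4 = b by omega]
  exact ⟨by omega, ⟨b, k2, rfl⟩, rfl, rfl⟩

theorem Ring.sn (G : Ring n lk i R en) (iv : Iv (4 * n) lk) : ∀ x, (∃ a, R a ∧ x = 4 * a + en a) →
    x < 4 * n ∧ (∃ a, R a ∧ 4 * (lk x / 4) + en (lk x / 4) = 4 * a + en a) ∧
    (4 * (lk x / 4) + en (lk x / 4)) / 4 = lk x / 4 ∧
    4 * ((4 * (lk x / 4) + en (lk x / 4)) / 4) + i = lk x := by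
  rintro _ ⟨a, h, rfl⟩
  obtain ⟨b, k2, k3⟩ := G.pv' iv h
  have := (G.nx a h).1
  have := G.hi
  have := G.en4 k2
  have := G.en4 h
  rw [k3, show (4 * b + i) / 4 = b by omega, show (4 * b + en b) / 4 = b by omega]
  exact ⟨by omega, ⟨b, k2, rfl⟩, rfl, rfl⟩

/-- The new link at a port of exit. -/
theorem IsCut.nx' (C : IsCut n lk lk' i R en) (iv : Iv (4 * n) lk) (h : R a) :
    ∃ b, R b ∧ en b = en a ∧ lk' (4 * a + i) = 4 * b + en b ∧ lk' (4 * b + en b) = 4 * a + i := by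
  have l := (C.sx _ ⟨a, h, rfl⟩).1
  have hi := C.hi
  obtain ⟨k1, _, ⟨y, k2, rfl⟩, k3⟩ := (C.on a h).fin (fun x u => (C.sx x u).2.1) ⟨a, h, rfl⟩
  obtain ⟨-, b, k4, k5⟩ := C.nx y k2
  have := C.en4 k4
  rw [k3, k5, show (4 * b + en b) / 4 = b by omega] at k1
  refine ⟨b, k4, k1, k3.trans k5, (C.bk b k4).uniq ?_⟩
  have := (C.on a h).rev iv (pr' := fun r => 4 * (r / 4) + en (r / 4)) C.sx ⟨a, h, rfl⟩
    (.stop (by rw [(iv _ l).2, show (4 * a + i) / 4 = a by omega]))
  rwa [(iv _ l).2, k3, k5, ← k1] at this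

/-- The new link at a port of entry. -/
theorem IsCut.pv'' (C : IsCut n lk lk' i R en) (iv : Iv (4 * n) lk) (h : R b) :
    ∃ a, R a ∧ en a = en b ∧ lk' (4 * a + i) = 4 * b + en b ∧ lk' (4 * b + en b) = 4 * a + i := by
  have l := (C.sn iv _ ⟨b, h, rfl⟩).1
  have hi := C.hi
  have := C.en4 h
  obtain ⟨k1, _, ⟨y, k2, rfl⟩, k3⟩ := (C.bk b h).fin (fun x u => (C.sn iv x u).2.1) ⟨b, h, rfl⟩
  obtain ⟨a, k4, k5⟩ := C.pv' iv k2
  rw [k3, k5, show (4 * a + i) / 4 = a by omega] at k1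
  refine ⟨a, k4, k1, (C.on a k4).uniq ?_, k3.trans k5⟩
  have := (C.bk b h).rev iv (pr' := fun r => 4 * (r / 4) + i) (C.sn iv) ⟨b, h, rfl⟩
    (.stop (by rw [(iv _ l).2, show (4 * b + en b) / 4 = b by omega]))
  rw [(iv _ l).2, k3, k5] at this
  rwa [k1]

theorem Ring.cases (G : Ring n lk i R en) (iv : Iv (4 * n) lk) {p : ℕ} (hp : p < 4 * n) :
    (∃ a, R a ∧ p = 4 * a + i) ∨ (∃ a, R a ∧ p = 4 * a + en a) ∨
      (¬(R (p / 4) ∧ (p % 4 = i ∨ p % 4 = en (p / 4))) ∧
        ¬(R (lk p / 4) ∧ (lk p % 4 = i ∨ lk p % 4 = en (lk p / 4)))) := by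
  by_cases u : R (p / 4) ∧ (p % 4 = i ∨ p % 4 = en (p / 4))
  · rcases u with ⟨u, v | v⟩
    · exact Or.inl ⟨_, u, by omega⟩
    · exact Or.inr (Or.inl ⟨_, u, by omega⟩)
  · refine Or.inr (Or.inr ⟨u, fun ⟨w, v⟩ => u ?_⟩)
    have hi := G.hi
    rcases v with v | v
    · obtain ⟨-, b, k1, k2⟩ := G.nx _ w
      have := G.en4 k1
      rw [show 4 * (lk p / 4) + i = lk p by omega, (iv p hp).2] at k2
      rw [k2, show (4 * b + en b) / 4 = b by omega]
      exact ⟨k1, by omega⟩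
    · obtain ⟨b, k1, k2⟩ := G.pv' iv w
      rw [show 4 * (lk p / 4) + en (lk p / 4) = lk p by omega, (iv p hp).2] at k2
      rw [k2, show (4 * b + i) / 4 = b by omega]
      exact ⟨k1, by omega⟩

theorem Ring.live (G : Ring n lk i R en) (H : Ok n al lk) (h : R a) : al a := by
  obtain ⟨k1, b, k2, k3⟩ := G.nx a h
  have := G.en4 k2
  have := G.hi
  by_contra u
  have := (H.fix (4 * a + i) (by omega)).2 (by rwa [show (4 * a + i) / 4 = a by omega])
  omega

theorem IsCut.ok (C : IsCut n lk lk' i R en) (H : Ok n al lk) : Ok n al lk' := by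
  have iv := H.iv
  have hi := C.hi
  have key : ∀ p < 4 * n, (lk' p < 4 * n ∧ lk' (lk' p) = p) ∧ (lk' p = p ↔ ¬al (p / 4)) ∧
      (al (p / 4) → (lk' p + p) % 2 = 1) := fun p hp => by
    rcases C.cases iv hp with ⟨a, h, rfl⟩ | ⟨a, h, rfl⟩ | ⟨u, v⟩
    · obtain ⟨b, k1, -, k2, k3⟩ := C.nx' iv h
      have := C.en4 k1
      have := (C.nx b k1).1
      rw [k2, k3, show (4 * a + i) / 4 = a by omega]
      exact ⟨⟨by omega, rfl⟩, ⟨fun e => by omega, fun e => absurd (C.live H h) e⟩, fun _ => by omega⟩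
    · obtain ⟨b, k1, -, k2, k3⟩ := C.pv'' iv h
      have := C.en4 h
      have := (C.nx b k1).1
      rw [k3, k2, show (4 * a + en a) / 4 = a by omega]
      exact ⟨⟨by omega, rfl⟩, ⟨fun e => by omega, fun e => absurd (C.live H h) e⟩, fun _ => by omega⟩
    · rw [C.off p hp u, C.off _ (iv p hp).1 v]
      exact ⟨iv p hp, H.fix p hp, H.par p hp⟩
  exact ⟨fun p hp => (key p hp).1, fun p hp => (key p hp).2.1, fun p hp => (key p hp).2.2⟩

theorem Cv.ex {S : ℕ → Prop} (hS : ∀ x, S x → x < 4 * n ∧ S (pr (lk x)) ∧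
    pr (lk x) / 4 = lk x / 4) (inj : ∀ x y, S x → S y → pr (lk x) = pr (lk y) → x = y) {x : ℕ}
    (hx : S x) (h : P (x / 4)) : ∃ r, Cv lk pr P x r := by
  obtain ⟨g, hg⟩ : ∃ g : ℕ → ℕ, ∀ y, g y = if S y then pr (lk y) else y := ⟨_, fun _ => rfl⟩
  have pm : Pm (4 * n) g := ⟨fun d hd => by
      rw [hg]
      split_ifs with u
      exacts [(hS _ (hS d u).2.1).1, hd], fun a _ b _ e => by
    rw [hg, hg] at e
    split_ifs at e with u v v
    exacts [inj a b u v e, absurd (e ▸ (hS a u).2.1) v, absurd (e ▸ (hS b v).2.1) u, e]⟩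
  have key : ∀ t y, S y → P (g^[t + 1] y / 4) → ∃ r, Cv lk pr P y r := fun t => by
    induction t with
    | zero =>
      intro y u v
      rw [zero_add, Function.iterate_one, hg, if_pos u, (hS y u).2.2] at v
      exact ⟨_, .stop v⟩
    | succ t ih =>
      intro y u v
      by_cases w : P (lk y / 4)
      · exact ⟨_, .stop w⟩
      · rw [Function.iterate_succ_apply, hg, if_pos u] at v
        obtain ⟨r, e⟩ := ih _ (hS y u).2.1 v
        exact ⟨r, .go w e⟩
  obtain ⟨t, ht, e⟩ := pm.period (hS x hx).1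
  exact key (t - 1) x hx (by rwa [show t - 1 + 1 = t by omega, e])

/-- The cut exists. -/
theorem cut_ex (G : Ring n lk i R en) (iv : Iv (4 * n) lk) : ∃ lk', IsCut n lk lk' i R en := by
  have hi := G.hi
  have e1 : ∀ a, ∃ r, R a → Cv lk (fun r => 4 * (r / 4) + i) (fun c => en c = en a) (4 * a + i) r :=
    fun a => by
      by_cases h : R a
      · simp only [h, true_imp_iff]
        refine Cv.ex (n := n) (S := fun x => ∃ a, R a ∧ x = 4 * a + i)
          (fun x u => ⟨(G.sx x u).1, (G.sx x u).2.1, (G.sx x u).2.2.1⟩) (fun x y u v e => ?_)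
          ⟨a, h, rfl⟩ (by rw [show (4 * a + i) / 4 = a by omega])
        refine iv.pm.2 x (G.sx x u).1 y (G.sx y v).1 ?_
        rw [← (G.sx x u).2.2.2, ← (G.sx y v).2.2.2, e]
      · exact ⟨0, fun u => absurd u h⟩
  have e2 : ∀ a, ∃ r, R a → Cv lk (fun r => 4 * (r / 4) + en (r / 4)) (fun c => en c = en a)
      (4 * a + en a) r := fun a => by
    by_cases h : R a
    · simp only [h, true_imp_iff]
      have := G.en4 h
      refine Cv.ex (n := n) (S := fun x => ∃ a, R a ∧ x = 4 * a + en a)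
        (fun x u => ⟨(G.sn iv x u).1, (G.sn iv x u).2.1, (G.sn iv x u).2.2.1⟩)
        (fun x y u v e => ?_) ⟨a, h, rfl⟩ (by rw [show (4 * a + en a) / 4 = a by omega])
      refine iv.pm.2 x (G.sn iv x u).1 y (G.sn iv y v).1 ?_
      rw [← (G.sn iv x u).2.2.2, ← (G.sn iv y v).2.2.2, e]
    · exact ⟨0, fun u => absurd u h⟩
  choose f1 h1 using e1
  choose f2 h2 using e2
  refine ⟨fun p => if R (p / 4) ∧ p % 4 = i then f1 (p / 4) else
    if R (p / 4) ∧ p % 4 = en (p / 4) then f2 (p / 4) else lk p, G, fun a h => ?_, fun a h => ?_,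
    fun p _ u => ?_⟩
  · rw [show (4 * a + i) / 4 = a by omega, if_pos ⟨h, by omega⟩]
    exact h1 a h
  · have := G.en4 h
    rw [show (4 * a + en a) / 4 = a by omega, if_neg (fun u => by omega), if_pos ⟨h, by omega⟩]
    exact h2 a h
  · rw [if_neg fun v => u ⟨v.1, Or.inl v.2⟩, if_neg fun v => u ⟨v.1, Or.inr v.2⟩]

/-- A step of the cut map from a side that is not in a new critical region. -/
theorem IsCut.step (C : IsCut n lk lk' i R en) (iv : Iv (4 * n) lk) {p : ℕ} (hp : p < 4 * n) :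
    (¬(R (p / 4) ∧ p % 4 = (if en (p / 4) = (i + 1) % 4 then i else en (p / 4))) →
      ¬(R (r3 (lk' p) / 4) ∧ r3 (lk' p) % 4 =
        (if en (r3 (lk' p) / 4) = (i + 1) % 4 then i else en (r3 (lk' p) / 4))) ∧
      Rch n lk j p (r3 (lk' p))) ∧
    (R (p / 4) ∧ p % 4 = (if en (p / 4) = (i + 1) % 4 then i else en (p / 4)) →
      (R (r3 (lk' p) / 4) ∧ r3 (lk' p) % 4 =
        (if en (r3 (lk' p) / 4) = (i + 1) % 4 then i else en (r3 (lk' p) / 4))) ∧
      r3 (lk' p) % 4 = p % 4) := by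
  have hi := C.hi
  rcases C.cases iv hp with ⟨a, h, rfl⟩ | ⟨a, h, rfl⟩ | ⟨u, v⟩
  · obtain ⟨b, k1, k0, k2, -⟩ := C.nx' iv h
    have e := (C.pv a h).1
    have cv : en a = (i + 3) % 4 → ∀ x r, Cv lk (fun r => 4 * (r / 4) + i) (fun c => en c = en a) x r →
        (∃ a, R a ∧ x = 4 * a + i) → Rch n lk j x (r3 r) := fun e x r u => by
      induction u with
      | stop _ => exact fun w => Rch.psi (C.sx _ w).1
      | @go x r d _ ih =>
        intro w
        obtain ⟨w1, w2, -, w3⟩ := C.sx _ w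
        refine .trans ?_ (ih w2)
        obtain ⟨y, w4, w5⟩ := w2
        have := (C.pv y w4).1
        rw [show lk x / 4 = y by omega] at d w3 ⊢
        rw [show (4 * y + i) / 4 = y by omega] at w3
        rw [show 4 * y + i = r3 (lk x) by unfold r3; omega]
        exact Rch.psi w1
    rw [show (4 * a + i) / 4 = a by omega, show r3 (lk' (4 * a + i)) / 4 = b by
      rw [k2]; unfold r3; omega, k0]
    split_ifs with s
    · exact ⟨fun w => absurd ⟨h, by omega⟩ w, fun _ => by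
        rw [k2]; unfold r3; exact ⟨⟨k1, by omega⟩, by omega⟩⟩
    · exact ⟨fun _ => ⟨by rw [k2]; unfold r3; omega, cv (by omega) _ _ (C.on a h) ⟨a, h, rfl⟩⟩,
        fun w => by omega⟩
  · obtain ⟨b, k1, k0, -, k2⟩ := C.pv'' iv h
    have e := (C.pv a h).1
    have cv : en a = (i + 1) % 4 → ∀ x r, Cv lk (fun r => 4 * (r / 4) + en (r / 4))
        (fun c => en c = en a) x r → (∃ a, R a ∧ x = 4 * a + en a) → Rch n lk j x (r3 r) :=
      fun e x r u => by
        induction u with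
        | stop _ => exact fun w => Rch.psi (C.sn iv _ w).1
        | @go x r d _ ih =>
          intro w
          obtain ⟨w1, w2, w0, w3⟩ := C.sn iv _ w
          refine .trans ?_ (ih w2)
          obtain ⟨y, w4, w5⟩ := w2
          have := (C.pv y w4).1
          rw [w0] at w3
          rw [w5] at w0
          rw [show lk x / 4 = y by omega] at d w3 ⊢
          rw [show 4 * y + en y = r3 (lk x) by unfold r3; omega]
          exact Rch.psi w1
    rw [show (4 * a + en a) / 4 = a by omega, show r3 (lk' (4 * a + en a)) / 4 = b by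
      rw [k2]; unfold r3; omega, k0]
    split_ifs with s
    · exact ⟨fun _ => ⟨by rw [k2]; unfold r3; omega, cv s _ _ (C.bk a h) ⟨a, h, rfl⟩⟩,
        fun w => by omega⟩
    · exact ⟨fun w => absurd ⟨h, by omega⟩ w, fun _ => by
        rw [k2]; unfold r3; exact ⟨⟨k1, by omega⟩, by omega⟩⟩
  · rw [C.off p hp u, show r3 (lk p) / 4 = lk p / 4 by unfold r3; omega]
    refine ⟨fun _ => ⟨fun w => v ⟨w.1, ?_⟩, Rch.psi hp⟩, fun w => absurd ⟨w.1, ?_⟩ u⟩
    · have := (C.pv _ w.1).1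
      have := w.2
      unfold r3 at this
      split_ifs at this <;> omega
    · have := w.2
      split_ifs at this <;> omega

theorem lift_cut (C : IsCut n lk lk' i R en) (iv : Iv (4 * n) lk)
    (g : Cyc n lk' j c) : Cyc n lk j c := by
  have key : ∀ x, Rch n lk' j (4 * c + (j + 2) % 4) x →
      (¬(R (x / 4) ∧ x % 4 = (if en (x / 4) = (i + 1) % 4 then i else en (x / 4))) ∧
        Rch n lk j (4 * c + (j + 2) % 4) x) ∨
      ((R (x / 4) ∧ x % 4 = (if en (x / 4) = (i + 1) % 4 then i else en (x / 4))) ∧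
        x % 4 = (j + 2) % 4) := fun x u => by
    induction u with
    | refl => exact (Classical.em _).symm.imp (fun w => ⟨w, .refl⟩) fun w => ⟨w, by omega⟩
    | @tail u v _ w ih =>
      rcases w with ⟨h0, rfl | ⟨w, rfl⟩⟩
      · have s := C.step (j := j) iv h0
        rcases ih with ih | ih
        · exact Or.inl ⟨(s.1 ih.1).1, ih.2.trans (s.1 ih.1).2⟩
        · exact Or.inr ⟨(s.2 ih.1).1, (s.2 ih.1).2.trans ih.2⟩
      · rcases ih with ih | ih
        · by_cases t : R (op u / 4) ∧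
            op u % 4 = (if en (op u / 4) = (i + 1) % 4 then i else en (op u / 4))
          · exact Or.inr ⟨t, by unfold op; omega⟩
          · exact Or.inl ⟨t, ih.2.trans (Rch.arc h0 w)⟩
        · have := ih.2
          omega
  rcases key _ g with u | u
  · exact u.2
  · have := u.2
    omega

/-- The cut of a plane map is plane. -/
theorem pln_cut (C : IsCut n lk lk' i R en) (H : Ok n al lk) (h : Pln n lk) : Pln n lk' := by
  intro z y hz hy
  have iv := H.iv
  have hi := C.hi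
  obtain ⟨f, hf⟩ : ∃ f : ℕ → ℕ → ZMod 2, ∀ e a, f e a = if k : ∃ r,
    Cv lk (fun r => 4 * (r / 4) + i) (fun c => en c = e) (4 * a + i) r then z k.choose else 0 :=
    ⟨_, fun _ _ => rfl⟩
  have f1 : ∀ e a r, Cv lk (fun r => 4 * (r / 4) + i) (fun c => en c = e) (4 * a + i) r →
      f e a = z r := fun e a r k => by
    rw [hf, dif_pos ⟨r, k⟩, (Exists.choose_spec ⟨r, k⟩).uniq k]
  have f2 : ∀ e a, en (lk (4 * a + i) / 4) ≠ e → f e a = f e (lk (4 * a + i) / 4) :=
    fun e a k => by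
      by_cases u : ∃ r, Cv lk (fun r => 4 * (r / 4) + i) (fun c => en c = e)
        (4 * (lk (4 * a + i) / 4) + i) r
      · obtain ⟨r, u⟩ := u
        rw [f1 _ _ _ u, f1 _ _ _ (.go k u)]
      · rw [hf, hf, dif_neg u, dif_neg]
        rintro ⟨r, v⟩
        cases v with
        | stop v => exact k v
        | go _ v => exact u ⟨_, v⟩
  have f3 : ∀ a, R a → f (en a) a = z (4 * a + i) := fun a k => by
    rw [f1 _ _ _ (C.on a k), (hz _ (C.sx _ ⟨a, k, rfl⟩).1).1]
  have fs : ∀ a b, R b → lk (4 * a + i) = 4 * b + en b →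
      f (en b) a = z (4 * b + en b) ∧ ∀ e ≠ en b, f e a = f e b := fun a b k u => by
    have := C.en4 k
    have e : lk (4 * a + i) / 4 = b := by omega
    exact ⟨by rw [← u]; exact f1 _ _ _ (.stop (by rw [e])), fun e' v => by
      rw [f2 e' a (by rw [e]; exact v.symm), e]⟩
  obtain ⟨w, hw⟩ : ∃ w : ℕ → ZMod 2, ∀ p, w p = z p +
    if R (p / 4) ∧ (p % 4 = i ∨ p % 4 = en (p / 4)) then f ((en (p / 4) + 2) % 4) (p / 4) else 0 :=
    ⟨_, fun _ => rfl⟩
  have wq : ∀ a, ∀ q < 4, w (4 * a + q) = z (4 * a + q) +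
      if R a ∧ (q = i ∨ q = en a) then f ((en a + 2) % 4) a else 0 := fun a q hq => by
    rw [hw, show (4 * a + q) / 4 = a by omega, show (4 * a + q) % 4 = q by omega]
  have wx : ∀ a, R a → w (4 * a + i) = z (4 * a + i) + f ((en a + 2) % 4) a := fun a k => by
    rw [wq a i hi, if_pos ⟨k, Or.inl rfl⟩]
  have wn : ∀ a, R a → w (4 * a + en a) = z (4 * a + en a) + f ((en a + 2) % 4) a := fun a k => by
    rw [wq a _ (C.en4 k).1, if_pos ⟨k, Or.inr rfl⟩]
  have we : ∀ a b, R a → R b → lk (4 * a + i) = 4 * b + en b → w (4 * b + en b) = w (4 * a + i) :=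
    fun a b k k' u => by
      obtain ⟨s1, s2⟩ := fs a b k' u
      have := C.en4 k
      have := C.en4 k'
      rw [wx a k, wn b k', ← f3 a k, ← s1, ← s2 _ (by omega)]
      by_cases e : en a = en b
      · rw [e]
      · rw [show (en a + 2) % 4 = en b by omega, show (en b + 2) % 4 = en a by omega, add_comm]
  obtain ⟨c, hc⟩ := h.col (z := w) (fun p hp => by
      rcases C.cases iv hp with ⟨a, k, rfl⟩ | ⟨a, k, rfl⟩ | ⟨u, v⟩
      · obtain ⟨-, b, k1, k2⟩ := C.nx a k
        have := C.en4 k1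
        exact ⟨by rw [k2, we a b k k1 k2], fun e => by omega⟩
      · obtain ⟨-, b, k1, k2⟩ := C.pv a k
        obtain ⟨b', k3, k4⟩ := C.pv' iv k
        have := C.en4 k
        exact ⟨by rw [we b a k1 k k2, ← k2, (iv _ (C.sx _ ⟨b, k1, rfl⟩).1).2],
          fun e => by omega⟩
      · rw [hw, hw, if_neg u, if_neg v, add_zero, add_zero, ← C.off p hp u]
        exact hz p hp) fun a ha => by
    have a0 := hy (4 * a) (by omega)
    have a1 := hy (4 * a + 1) (by omega)
    have a2 := hy (4 * a + 2) (by omega)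
    have a3 := hy (4 * a + 3) (by omega)
    rw [Two.r0] at a0
    rw [Two.r1] at a1
    rw [Two.r2] at a2
    rw [Two.r3] at a3
    have w0 : w (4 * a) = z (4 * a) + _ := wq a 0 (by omega)
    rw [w0, wq a 1 (by omega), wq a 2 (by omega), wq a 3 (by omega)]
    have : ∀ t : ZMod 2, (if R a ∧ (0 = i ∨ 0 = en a) then t else 0) +
        (if R a ∧ (1 = i ∨ 1 = en a) then t else 0) + (if R a ∧ (2 = i ∨ 2 = en a) then t else 0) +
        (if R a ∧ (3 = i ∨ 3 = en a) then t else 0) = 0 := fun t => by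
      by_cases k : R a
      · have := (C.pv a k).1
        have := Two.z2 t
        generalize en a = e at *
        simp only [k, true_and]
        split_ifs <;> first | omega | simpa
      · simp [k]
    linear_combination this (f ((en a + 2) % 4) a) - a0 - a1 - a2 - a3
  obtain ⟨d, hd⟩ : ∃ d : ℕ → ZMod 2, ∀ p, d p = c p +
    if R (p / 4) ∧ p % 4 = (if en (p / 4) = (i + 1) % 4 then en (p / 4) else i) then
      f ((en (p / 4) + 2) % 4) (p / 4) else 0 := ⟨_, fun _ => rfl⟩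
  have d4 : ∀ p < 4 * n, d (r4 p) = d p + z p := fun p hp => by
    rw [hd, hd, (hc p hp).1, hw, show r4 p / 4 = p / 4 by unfold r4; omega,
      show r4 p % 4 = (p + 1) % 4 by unfold r4; omega]
    by_cases k : R (p / 4)
    · have := (C.pv _ k).1
      have := Two.z2 (f ((en (p / 4) + 2) % 4) (p / 4))
      simp only [k, true_and]
      split_ifs <;> first | omega | ring1 | linear_combination this
    · simp [k]
  have cx : ∀ a < n, c (lk (4 * a + i)) = c (r4 (4 * a + i)) := fun a ha => by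
    rw [(hc _ (by omega)).1, (hc _ (by omega)).2]
  have dx : ∀ a, R a → d (lk' (4 * a + i)) = d (4 * a + i) + z (4 * a + i) := fun a k => by
    have ea := (C.pv a k).1
    have cv : ∀ x r, Cv lk (fun r => 4 * (r / 4) + i) (fun c => en c = en a) x r → ∀ u, R u →
        x = 4 * u + i → d r = c (r4 x) + if en a = (i + 1) % 4 then f ((i + 3) % 4) u else 0 :=
      fun x r v => by
        induction v with
        | stop t =>
          rintro u k' rfl
          obtain ⟨l, b, k1, k2⟩ := C.nx u k'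
          have := C.en4 k1
          rw [k2, show (4 * b + en b) / 4 = b by omega] at t
          rw [hd, cx u l, k2, show (4 * b + en b) / 4 = b by omega,
            show (4 * b + en b) % 4 = en b by omega, t]
          by_cases e : en a = (i + 1) % 4
          · rw [if_pos e, if_pos ⟨k1, rfl⟩, if_pos e, (fs u b k1 k2).2 _ (by omega),
              show (en a + 2) % 4 = (i + 3) % 4 by omega]
          · rw [if_neg e, if_neg (by omega), if_neg e]
        | @go x r t _ ih =>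
          rintro u k' rfl
          obtain ⟨l, b, k1, k2⟩ := C.nx u k'
          have eb := (C.pv b k1).1
          have l' := (C.nx b k1).1
          rw [k2, show (4 * b + en b) / 4 = b by omega] at t ih
          rw [ih b k1 rfl, ← cx u l, k2]
          by_cases e : en a = (i + 1) % 4
          · rw [if_pos e, if_pos e, ← show en b = (i + 3) % 4 by omega, f3 b k1, (fs u b k1 k2).1,
              (hc _ (by omega)).1, wx b k1,
              show 4 * b + i = r4 (4 * b + en b) by unfold r4; omega, (hc _ (by omega)).1, wn b k1]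
            linear_combination Two.z2 (z (r4 (4 * b + en b))) + Two.z2 (f ((en b + 2) % 4) b)
          · rw [if_neg e, if_neg e, show r4 (4 * b + i) = 4 * b + en b by unfold r4; omega]
    rw [cv _ _ (C.on a k) a k rfl, ← d4 _ (C.sx _ ⟨a, k, rfl⟩).1, hd,
      show r4 (4 * a + i) / 4 = a by unfold r4; omega,
      show r4 (4 * a + i) % 4 = (i + 1) % 4 by unfold r4; omega]
    by_cases e : en a = (i + 1) % 4
    · rw [if_pos e, if_pos e, if_pos ⟨k, e.symm⟩, show (en a + 2) % 4 = (i + 3) % 4 by omega]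
    · rw [if_neg e, if_neg e, if_neg (by omega)]
  refine ⟨d, fun p hp => ⟨d4 p hp, ?_⟩⟩
  rcases C.cases iv hp with ⟨a, k, rfl⟩ | ⟨a, k, rfl⟩ | ⟨u, v⟩
  · exact dx a k
  · obtain ⟨b, k1, -, k2, k3⟩ := C.pv'' iv k
    have := dx b k1
    rw [k2] at this
    rw [k3, this, ← k3, (hz _ hp).1, add_assoc, Two.z2, add_zero]
  · have o : ∀ q, ¬(R (q / 4) ∧ (q % 4 = i ∨ q % 4 = en (q / 4))) → d q = c q := fun q t => by
      rw [hd, if_neg, add_zero]
      exact fun s => t ⟨s.1, by have := s.2; split_ifs at this <;> omega⟩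
    rw [C.off p hp u, o _ u, o _ v, (hc p hp).2, hw, if_neg u, add_zero]

end Pool.Agent.MP_1a6d78_lc.PL

end MrgPart2

-- ======== part 3: formerly Pool.Agent.MP_1a6d78_lc.PS.Cert
section MrgPart3

/-! PROJECT PSC: certificates; the smoothing and the cut exist, are plane and keep the answer. -/

namespace Pool.Agent.MP_1a6d78_lc.PS.Ct

open Classical ED PR PL Relation

open Cm (pr0)

variable {M M' : Cm} {a b c i x y z p u : ℕ} {D X R : ℕ → Prop}

theorem al_lk (H : M.Ok) (h : M.al (p / 4)) : M.al (M.lk p / 4) := by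
  by_contra v
  have := (H.fix _).2 v
  rw [H.inv] at this
  exact (H.fix p).1 this.symm h

theorem ok_pl (H : M.Ok) : PL.Ok M.n M.al M.lk := by
  refine ⟨fun p hp => ⟨?_, H.inv p⟩, fun p _ => H.fix p, fun p _ => H.par p⟩
  by_cases u : M.al (p / 4)
  · have := H.lt _ (al_lk H u)
    omega
  · rwa [(H.fix p).2 u]

theorem lt4 (H : M.Ok) (h : M.al (p / 4)) : p < 4 * M.n := by
  have := H.lt _ h
  omega

theorem r4_div (p : ℕ) : r4 p / 4 = p / 4 := by unfold r4; omega

theorem nr_al (H : M.Ok) : M.al (M.nr x / 4) ↔ M.al (x / 4) := by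
  unfold Cm.nr
  refine ⟨fun h => ?_, fun h => al_lk H (by rwa [r4_div])⟩
  have := al_lk H h
  rwa [H.inv, r4_div] at this

theorem nr_inj (H : M.Ok) : Function.Injective M.nr := fun x y e => by
  have := congrArg M.lk e
  unfold Cm.nr at this
  rw [H.inv, H.inv] at this
  unfold r4 at this
  omega

theorem nr_par (H : M.Ok) (h : M.al (x / 4)) : M.nr x % 2 = x % 2 := by
  have := H.par (r4 x) (by rwa [r4_div])
  unfold Cm.nr
  unfold r4 at *
  omega

theorem nr_per (H : M.Ok) (x : ℕ) : ∃ t, 0 < t ∧ M.nr^[t] x = x := by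
  by_cases h : x < 4 * M.n
  · exact ((ok_pl H).iv.pm.comp Two.pm).period h
  · have e : ∀ y, y / 4 = x / 4 → M.nr y = r4 y := fun y e => (H.fix _).2 fun v => by
      have := H.lt _ v
      rw [r4_div] at this
      omega
    refine ⟨4, by omega, ?_⟩
    show M.nr (M.nr (M.nr (M.nr x))) = x
    rw [e x rfl, e (r4 x) (by simp only [r4_div]), e (r4 (r4 x)) (by simp only [r4_div]),
      e _ (by simp only [r4_div])]
    unfold r4
    omega

theorem rg_refl (M : Cm) (x : ℕ) : M.Rg x x := ⟨0, rfl⟩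

theorem rg_nr (M : Cm) (x : ℕ) : M.Rg x (M.nr x) := ⟨1, rfl⟩

theorem rg_trans (h : M.Rg x y) (k : M.Rg y z) : M.Rg x z := by
  obtain ⟨s, rfl⟩ := h
  obtain ⟨t, rfl⟩ := k
  exact ⟨t + s, Function.iterate_add_apply _ _ _ _⟩

theorem rg_ind {Q : ℕ → Prop} (h : M.Rg x y) (h0 : Q x) (hs : ∀ d, Q d → Q (M.nr d)) : Q y := by
  obtain ⟨s, rfl⟩ := h
  exact iter_inv hs h0 s

theorem rg_back (H : M.Ok) (x : ℕ) : M.Rg (M.nr x) x := by
  obtain ⟨t, h, e⟩ := nr_per H x
  refine ⟨t - 1, ?_⟩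
  rwa [← Function.iterate_succ_apply, show (t - 1).succ = t by omega]

theorem rg_symm (H : M.Ok) (h : M.Rg x y) : M.Rg y x :=
  rg_ind (Q := fun d => M.Rg d x) h (rg_refl M x) fun d k => rg_trans (rg_back H d) k

theorem rg_al (H : M.Ok) (h : M.Rg x y) : M.al (y / 4) ↔ M.al (x / 4) :=
  rg_ind (Q := fun d => M.al (d / 4) ↔ M.al (x / 4)) h Iff.rfl fun _ k => (nr_al H).trans k

theorem rg_par (H : M.Ok) (h : M.Rg x y) (k : M.al (x / 4)) : y % 2 = x % 2 :=
  (rg_ind (Q := fun d => M.al (d / 4) ∧ d % 2 = x % 2) h ⟨k, rfl⟩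
    fun _ k => ⟨(nr_al H).2 k.1, (nr_par H k.1).trans k.2⟩).2

theorem crit_mod (h : M.Crit x) (k : M.Rg x y) : y % 4 = x % 4 :=
  (rg_ind (Q := fun d => M.Rg x d ∧ d % 4 = x % 4) k ⟨rg_refl M x, rfl⟩
    fun d k => ⟨rg_trans k.1 (rg_nr M d), (not_not.1 (h d k.1)).trans k.2⟩).2

theorem nr_psi (H : M.Ok) (x : ℕ) : M.nr (PL.r3 (M.lk x)) = x := by
  unfold Cm.nr
  rw [show r4 (PL.r3 (M.lk x)) = M.lk x by unfold r4 PL.r3; omega, H.inv]

theorem rg_rch (H : M.Ok) (h : M.Rg x y) (k : M.al (x / 4)) : M.Rch a x y :=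
  (rg_ind (Q := fun d => M.al (d / 4) ∧ M.Rch a x d) h ⟨k, .refl⟩
    fun _ k => ⟨(nr_al H).2 k.1, k.2.tail ⟨k.1, Or.inl rfl⟩⟩).2

theorem rch_iff (H : M.Ok) (k : M.al (x / 4)) : M.Rch a x y ↔ PL.Rch M.n M.lk a x y := by
  constructor
  · intro h
    induction h with
    | refl => exact .refl
    | @tail u v _ w ih =>
      rcases w with ⟨w, rfl | ⟨e, rfl⟩⟩
      · have := PL.Rch.bk (k := a) (ok_pl H).iv (lt4 H (by rwa [r4_div] : M.al (r4 u / 4)))
        rw [show PL.r3 (r4 u) = u by unfold PL.r3 r4; omega] at this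
        exact ih.trans this
      · rw [show pt (u / 4) (a + 2) = op u by unfold pt op; omega]
        exact ih.trans (PL.Rch.arc (lt4 H w) e)
  · intro h
    suffices M.al (y / 4) ∧ M.Rch a x y from this.2
    induction h with
    | refl => exact ⟨k, .refl⟩
    | @tail u v _ w ih =>
      rcases w with ⟨-, rfl | ⟨e, rfl⟩⟩
      · have := rg_back H (PL.r3 (M.lk u))
        rw [nr_psi H] at this
        exact ⟨(rg_al H this).2 ih.1, ih.2.trans (rg_rch H this ih.1)⟩
      · exact ⟨by rw [show op u / 4 = u / 4 by unfold op; omega]; exact ih.1,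
          ih.2.tail ⟨ih.1, Or.inr ⟨e, by unfold pt op; omega⟩⟩⟩

theorem cy_iff (H : M.Ok) : M.Cy a z ↔ M.al z ∧ Cyc M.n M.lk a z :=
  and_congr_right fun k => rch_iff H (by rwa [show pt z (a + 2) / 4 = z by unfold pt; omega])

/-- Only the parity of the type matters. -/
theorem cy_par (H : M.Ok) (e : a % 2 = b % 2) (h : M.Cy a z) : M.Cy b z := by
  rw [cy_iff H] at h ⊢
  exact ⟨h.1, h.2.par (ok_pl H).iv e⟩

/-- NOT BOTH. -/
theorem cy_nb (H : M.Ok) (e : (a + b) % 2 = 1) (h : M.Cy a z) (k : M.Cy b z) : False := by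
  rw [cy_iff H] at h k
  exact not_both (ok_pl H) H.pl (H.lt _ h.1) h.1 h.2 (k.2.par (ok_pl H).iv (by omega))

/-- MINTY. -/
theorem cy_or (H : M.Ok) (e : (a + b) % 2 = 1) (h : M.al z) : M.Cy a z ∨ M.Cy b z := by
  rw [cy_iff H, cy_iff H]
  by_cases k : Cyc M.n M.lk a z
  · exact Or.inl ⟨h, k⟩
  · exact Or.inr ⟨h, (minty (ok_pl H) (H.lt _ h) h k).par (ok_pl H).iv (by omega)⟩

/-- A cell of a limit cycle. -/
theorem kd_cy (H : M.Ok) (hi : i < 4) (h : M.Kd i u z) : M.Cy (u + 1) z := by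
  obtain ⟨w, ⟨k1, t, k2⟩, rfl, rfl⟩ := h
  have e : M.st i = fun a => M.lk (4 * a + i) / 4 := by
    funext a
    unfold Cm.st pt
    rw [Nat.mod_eq_of_lt hi]
  have pw : pt w i = 4 * w + i := by unfold pt; omega
  have a1 : M.al (M.st i w) := al_lk H (by rwa [show pt w i / 4 = w by omega])
  have := walk_cyc (ok_pl H) hi (H.lt _ a1) a1 (t := t) (e := M.lk (pt w i) % 4) (by omega) (by
    unfold Cm.wk at k2
    rw [← e, k2, ← pw]
    unfold Cm.st
    omega)
  rw [cy_iff H]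
  refine ⟨a1, this.par (ok_pl H).iv ?_⟩
  unfold Cm.ss sd
  split_ifs <;> omega

theorem per_kd (H : M.Ok) (h : M.Per i z) : ∃ u, M.Kd i u z := by
  obtain ⟨k1, t, k2⟩ := h
  have al : M.al (M.wk i z t) := iter_inv (Q := M.al)
    (fun a k => al_lk H (by rwa [show pt a i / 4 = a by unfold pt; omega])) k1 t
  have e : M.st i (M.wk i z t) = z := by
    unfold Cm.wk at *
    rwa [← Function.iterate_succ_apply' (M.st i), Function.iterate_succ_apply]
  exact ⟨_, _, ⟨al, t, by rw [e]⟩, e, rfl⟩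

theorem dd_al (H : M.Ok) (hx : M.al x) (h : M.Dd x c) : M.al c := by
  induction h with
  | @top c k =>
    have := (rg_al H k).2 (by rwa [show 4 * x / 4 = x by omega])
    rwa [show 4 * c / 4 = c by omega] at this
  | @step c k _ ih =>
    obtain ⟨u, k⟩ := k
    have := (rg_al H k).1 (by rw [show (4 * u + 2) / 4 = u by omega]; exact ih u k)
    rwa [show 4 * c / 4 = c by omega] at this

theorem last_arc (H : M.Ok) (h : M.Rch 0 x y) :
    M.Rg y x ∨ ∃ u, M.al u ∧ M.Rch 0 x (4 * u) ∧ M.Rg y (4 * u + 2) := by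
  induction h with
  | refl => exact Or.inl (rg_refl _ _)
  | @tail u v g w ih =>
    rcases w with ⟨w, rfl | ⟨e, rfl⟩⟩
    · exact ih.imp (rg_trans (rg_back H u)) fun ⟨d, k0, k1, k2⟩ =>
        ⟨d, k0, k1, rg_trans (rg_back H u) k2⟩
    · exact Or.inr ⟨u / 4, w, by rwa [show 4 * (u / 4) = u by omega], rg_refl _ _⟩

/-- A cell that dies is on no cycle of type 0. -/
theorem dd_not (H : M.Ok) (hx : M.Top x) (h : M.Dd x c) : ¬M.Rch 0 (4 * c + 2) (4 * c) := by
  induction h with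
  | @top c k =>
    intro g
    rcases last_arc H g with u | ⟨d, -, -, u⟩ <;>
    · have := crit_mod hx.2 (rg_trans k u)
      omega
  | @step c k l ih =>
    intro g
    rcases last_arc H g with u | ⟨d, k0, k1, u⟩
    · exact ih c u g
    · have ac : M.al (4 * c / 4) := (rg_al H u).1 (by rwa [show (4 * d + 2) / 4 = d by omega])
      refine ih d u ((rg_rch H (rg_symm H u) ((rg_al H u).2 ac)).trans (.head ⟨ac, Or.inr
        ⟨by omega, ?_⟩⟩ k1))
      unfold pt
      omega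

theorem dd_cy (H : M.Ok) (hx : M.Top x) (h : M.Dd x z) : M.Cy 1 z :=
  (cy_or H (a := 0) rfl (dd_al H hx.1 h)).resolve_left fun k => dd_not H hx h k.2

/-! ### The smoothing -/

theorem pr0_sm : pr0 = sm 0 := by
  funext p
  unfold pr0 sm r4 PL.r3
  split_ifs <;> omega

theorem pr0_S (H : M.Ok) : ∀ x, M.al (x / 4) → x < 4 * M.n ∧ M.al (pr0 (M.lk x) / 4) ∧
    pr0 (M.lk x) / 4 = M.lk x / 4 ∧ pr0 (pr0 (M.lk x)) = M.lk x := fun x h => by
  have e : pr0 (M.lk x) / 4 = M.lk x / 4 ∧ pr0 (pr0 (M.lk x)) = M.lk x := by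
    unfold pr0
    split_ifs <;> omega
  exact ⟨lt4 H h, e.1 ▸ al_lk H h, e⟩

theorem cv_par (H : M.Ok) {P : ℕ → Prop} {r : ℕ} (h : Cv M.lk pr0 P x r) (k : M.al (x / 4)) :
    (r + x) % 2 = 1 := by
  induction h with
  | stop _ => exact H.par _ k
  | @go x r _ _ ih =>
    have := ih (pr0_S H x k).2.1
    have := H.par _ k
    unfold pr0 at *
    split_ifs at * <;> omega

theorem smo_ex (H : M.Ok) (D : ℕ → Prop) : ∃ M', M.Smo M' D := by
  have e : ∀ p, ∃ r, M.al (p / 4) ∧ ¬D (p / 4) → Cv M.lk pr0 (fun c => M.al c ∧ ¬D c) p r :=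
    fun p => by
      by_cases h : M.al (p / 4) ∧ ¬D (p / 4)
      · simp only [h, not_false_iff, and_self, true_imp_iff]
        refine Cv.ex (n := M.n) (S := fun x => M.al (x / 4))
          (fun x u => ⟨(pr0_S H x u).1, (pr0_S H x u).2.1, (pr0_S H x u).2.2.1⟩)
          (fun x y u v e => ?_) h.1 h
        rw [← H.inv x, ← H.inv y, ← (pr0_S H x u).2.2.2, ← (pr0_S H y v).2.2.2, e]
      · exact ⟨0, fun u => absurd u h⟩
  choose f hf using e
  have al : Cm.al ⟨M.n, fun p => if M.al (p / 4) ∧ ¬D (p / 4) then f p else p⟩ =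
      fun c => M.al c ∧ ¬D c := by
    funext c
    have e : 4 * c / 4 = c := by omega
    refine propext ⟨fun h => ?_, fun h k => ?_⟩
    · by_contra k
      exact h (if_neg (by rwa [e]))
    · have k' : (if M.al (4 * c / 4) ∧ ¬D (4 * c / 4) then f (4 * c) else 4 * c) = 4 * c := k
      rw [if_pos (by rwa [e])] at k'
      have := cv_par H (hf (4 * c) (by rwa [e])) (by rw [e]; exact h.1)
      omega
  refine ⟨⟨M.n, fun p => if M.al (p / 4) ∧ ¬D (p / 4) then f p else p⟩, rfl,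
    fun c => by rw [al], fun p h => ?_, fun p h => ?_⟩ <;> rw [al] at *
  · have := hf p h
    rwa [← (if_pos h : ite _ (f p) p = _)] at this
  · exact if_neg h

theorem smo_ok (H : M.Ok) (S : M.Smo M' D) : M'.Ok := by
  have par : ∀ p, M'.al (p / 4) → (M'.lk p + p) % 2 = 1 := fun p h =>
    cv_par H (S.lk p h) ((S.al _).1 h).1
  have inv : ∀ p, M'.lk (M'.lk p) = p := fun p => by
    by_cases h : M'.al (p / 4)
    · have k := ((S.al _).1 h).1
      refine (S.lk _ ((S.lk p h).fin (fun x u => (pr0_S H x u).2.1) k).1).uniq ?_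
      have := (S.lk p h).rev (ok_pl H).iv (pr' := pr0) (pr0_S H) k (.stop (by rwa [H.inv]))
      rwa [H.inv] at this
    · rw [S.fix p h, S.fix p h]
  have fix : ∀ p, M'.lk p = p ↔ ¬M'.al (p / 4) := fun p =>
    ⟨fun e h => by have := par p h; omega, S.fix p⟩
  refine ⟨fun c h => S.n ▸ H.lt c ((S.al c).1 h).1, inv, fix, par, ?_⟩
  rw [S.n]
  refine pln_kill (k := 0) (ok_pl H) (al' := M'.al)
    ⟨fun p hp => ⟨?_, inv p⟩, fun p _ => fix p, fun p _ => par p⟩ (fun c h => ((S.al c).1 h).1) H.pl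
    fun p _ h => pr0_sm ▸ S.lk p h
  by_cases h : M'.al (p / 4)
  · exact lt4 H ((S.al _).1 ((S.lk p h).fin (fun x u => (pr0_S H x u).2.1) ((S.al _).1 h).1).1).1
  · rwa [S.fix p h]

/-- Cycles lift through the kill. -/
theorem smo_cy (H : M.Ok) (S : M.Smo M' D) (hD : ∀ c, M.al c → D c → M.Cy 1 c) (h : M'.Cy a z) :
    M.Cy a z := by
  have H' := smo_ok H S
  have o := ok_pl H'
  rw [cy_iff H'] at h
  rw [S.n] at o h
  have k := ((S.al _).1 h.1).1
  exact (cy_iff H).2 ⟨k, lift_kill (k := 0) (ok_pl H) o (fun c h => ((S.al c).1 h).1)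
    (fun p _ h => pr0_sm ▸ S.lk p h) (fun d _ u v => ((cy_iff H).1 (hD d u
      (not_not.1 fun w => v ((S.al d).2 ⟨u, w⟩)))).2) (H.lt _ k) h.1 h.2⟩

theorem dead_cy (H : M.Ok) (hX : ∀ x, X x → M.Top x) (h : M.Dead X z) : M.Cy 1 z := by
  obtain ⟨x, k1, k2⟩ := h
  exact dd_cy H (hX x k1) k2

/-- The kill keeps the answer. -/
theorem kill_iff (H : M.Ok) (hX : ∀ x, X x → M.Top x) (S : M.Smo M' (M.Dead X)) (h : M'.al z) :
    M'.Cy a z ↔ M.Cy a z :=
  ⟨smo_cy H S fun _ _ => dead_cy H hX, fun k =>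
    (cy_or (smo_ok H S) (b := a + 1) (by omega) h).resolve_right fun v =>
      cy_nb H (by omega) k (smo_cy H S (fun _ _ => dead_cy H hX) v)⟩

/-! ### The cut -/

theorem per_inj (h : M.Per i x) (k : M.Per i y) (e : M.st i x = M.st i y) : x = y := by
  obtain ⟨-, s, h⟩ := h
  obtain ⟨-, t, k⟩ := k
  exact Function.IsPeriodicPt.eq_of_apply_eq (f := M.st i) (m := s + 1) (n := t + 1) h k
    s.succ_pos t.succ_pos e

theorem per_st (H : M.Ok) (h : M.Per i x) : M.Per i (M.st i x) := by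
  obtain ⟨k, s, h⟩ := h
  refine ⟨al_lk H (by rwa [show pt x i / 4 = x by unfold pt; omega]), s, ?_⟩
  unfold Cm.wk at *
  rw [← Function.iterate_succ_apply, Function.iterate_succ_apply', h]

theorem kd_per (H : M.Ok) (h : M.Kd i a y) : M.Per i y := by
  obtain ⟨u, k, rfl, -⟩ := h
  exact per_st H k

theorem kd_uniq (h : M.Kd i a y) (k : M.Kd i b y) : a = b := by
  obtain ⟨u, h1, h2, rfl⟩ := h
  obtain ⟨v, k1, k2, rfl⟩ := k
  rw [per_inj h1 k1 (h2.trans k2.symm)]

theorem co_st : M.Co i (M.st i x) y ↔ M.Co i x y := by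
  constructor
  · rintro ⟨u, ⟨t, h⟩, k⟩
    exact ⟨u, ⟨t + 1, h⟩, k⟩
  · rintro ⟨u, ⟨t, rfl⟩, s, k⟩
    refine ⟨M.wk i x (t + 1), ⟨t, rfl⟩, s + 1, ?_⟩
    unfold Cm.wk at *
    rw [Function.iterate_succ_apply', Function.iterate_succ_apply', k]

/-- The port of entry of a cell of a limit cycle of type 0. -/
noncomputable def en0 (M : Cm) (c : ℕ) : ℕ := if M.Kd 0 0 c then 1 else 3

theorem en_kd (h : M.Kd 0 a y) : en0 M y = ep 0 a ∧ (a = 0 ∨ a = 3) := by
  have e : a = 0 ∨ a = 3 := by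
    obtain ⟨u, -, -, rfl⟩ := h
    unfold Cm.ss sd
    split_ifs <;> omega
  refine ⟨?_, e⟩
  unfold en0
  rcases e with rfl | rfl
  · rw [if_pos h]; rfl
  · rw [if_neg fun k => by have := kd_uniq h k; omega]; rfl

theorem en_st (H : M.Ok) (h : M.Per 0 u) : M.lk (4 * u) = 4 * M.st 0 u + en0 M (M.st 0 u) := by
  have := H.par (4 * u) (by rw [show 4 * u / 4 = u by omega]; exact h.1)
  rw [(en_kd ⟨u, h, rfl, rfl⟩).1]
  unfold Cm.ss Cm.st
  rw [show pt u 0 = 4 * u from rfl]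
  unfold sd
  split_ifs <;> simp only [ep] <;> norm_num <;> omega

theorem ring_of (H : M.Ok) (R : ℕ → Prop) :
    PL.Ring M.n M.lk 0 (fun y => ∃ v a, R v ∧ M.Rc v a y) (en0 M) := by
  refine ⟨by omega, ?_, ?_⟩
  · rintro y ⟨v, a, h, k1, k2⟩
    have p := kd_per H k1
    exact ⟨H.lt _ p.1, _, ⟨v, _, h, ⟨y, p, rfl, rfl⟩, co_st.2 k2⟩, en_st H p⟩
  · rintro y ⟨v, a, h, ⟨u, p, rfl, rfl⟩, k2⟩
    obtain ⟨b, k⟩ := per_kd H p
    exact ⟨by unfold en0; split_ifs <;> omega, u, ⟨v, b, h, k, co_st.1 k2⟩, en_st H p⟩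

theorem cv_fe (H : M.Ok) (h : M.Kd 0 a y) : M.FE 0 y a < M.n ∧ M.Kd 0 a (M.FE 0 y a) ∧
    Cv M.lk (fun r => 4 * (r / 4) + 0) (fun c => en0 M c = en0 M y) (4 * y + 0)
      (pt (M.FE 0 y a) (ep 0 a)) := by
  have p := kd_per H h
  have pw : ∀ t, M.Per 0 (M.wk 0 y t) := iter_inv (Q := M.Per 0) (fun _ => per_st H) p
  have ex : ∃ t < M.n, M.ss 0 (M.wk 0 y t) = a := by
    obtain ⟨u, k, rfl, rfl⟩ := h
    obtain ⟨s, k1, k2⟩ := iter_bnd' (Q := M.Per 0) (fun _ => per_st H) (fun _ v => H.lt _ v.1) p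
      k.2.choose_spec
    exact ⟨s, k1, congrArg _ k2⟩
  obtain ⟨l1, l2⟩ := lst_spec ex
  rw [Cm.FE, if_pos ⟨p.1, ex⟩]
  have mn := fun t (ht : t < M.n) => lst_le (P := fun t => M.ss 0 (M.wk 0 y t) = a) ht
  generalize lst M.n (fun t => M.ss 0 (M.wk 0 y t) = a) = T at *
  have sc : ∀ t, M.wk 0 y (t + 1) = M.st 0 (M.wk 0 y t) := fun t =>
    Function.iterate_succ_apply' _ _ _
  have kd : M.Kd 0 a (M.wk 0 y (T + 1)) := ⟨_, pw T, (sc T).symm, l2⟩
  refine ⟨H.lt _ (pw _).1, kd, ?_⟩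
  have key : ∀ d t, t + d = T → Cv M.lk (fun r => 4 * (r / 4) + 0) (fun c => en0 M c = en0 M y)
      (4 * M.wk 0 y t + 0) (pt (M.wk 0 y (T + 1)) (ep 0 a)) := fun d => by
    induction d with
    | zero =>
      rintro t rfl
      have e := en_st H (pw t)
      rw [← sc] at e
      have e3 : en0 M (M.wk 0 y (t + 1)) < 4 := by unfold en0; split_ifs <;> omega
      rw [← (en_kd kd).1, show pt (M.wk 0 y (t + 0 + 1)) (en0 M (M.wk 0 y (t + 0 + 1))) =
        M.lk (4 * M.wk 0 y t + 0) by rw [add_zero, add_zero, e]; unfold pt; omega]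
      refine .stop ?_
      rw [add_zero, e, show (4 * M.wk 0 y (t + 1) + en0 M (M.wk 0 y (t + 1))) / 4 =
        M.wk 0 y (t + 1) by omega, (en_kd h).1]
      exact (en_kd kd).1
    | succ d ih =>
      intro t ht
      have e : M.lk (4 * M.wk 0 y t + 0) / 4 = M.wk 0 y (t + 1) := (sc t).symm
      refine .go ?_ (by rw [e]; exact ih (t + 1) (by omega))
      obtain ⟨k1, k2⟩ := en_kd (⟨_, pw t, (sc t).symm, rfl⟩ : M.Kd 0 _ (M.wk 0 y (t + 1)))
      obtain ⟨k3, k4⟩ := en_kd h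
      rw [e, k1, k3]
      have : M.ss 0 (M.wk 0 y t) ≠ a := fun v => by have := mn t (by omega) v; omega
      unfold ep
      split_ifs <;> omega
  exact key T 0 (by omega)

theorem off_iff : (∃ v a, R v ∧ M.Rc v a (p / 4) ∧ (p % 4 = 0 ∨ p % 4 = ep 0 a)) ↔
    (∃ v a, R v ∧ M.Rc v a (p / 4)) ∧ (p % 4 = 0 ∨ p % 4 = en0 M (p / 4)) :=
  ⟨fun ⟨v, a, h, k, e⟩ => ⟨⟨v, a, h, k⟩, (en_kd k.1).1 ▸ e⟩,
    fun ⟨⟨v, a, h, k⟩, e⟩ => ⟨v, a, h, k, (en_kd k.1).1 ▸ e⟩⟩

theorem cutm_ex (H : M.Ok) (R : ℕ → Prop) : ∃ M', M.Cutm M' R := by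
  obtain ⟨f, C⟩ := cut_ex (ring_of H R) (ok_pl H).iv
  have o := (C.ok (ok_pl H)).iv
  refine ⟨⟨M.n, fun p => if p < 4 * M.n then f p else M.lk p⟩, rfl, fun p => ?_,
    fun v a y h k => ?_, fun p h => ?_⟩
  · by_cases u : p < 4 * M.n
    · simp only [if_pos u, if_pos (o p u).1, (o p u).2]
    · have : M.lk p = p := (H.fix p).2 fun v => u (lt4 H v)
      simp only [if_neg u, this]
  · have := H.lt _ (kd_per H k.1).1
    exact (if_pos (by omega)).trans ((C.on y ⟨v, a, h, k⟩).uniq (cv_fe H k.1).2.2)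
  · show ite _ _ _ = _
    split_ifs with u
    · exact C.off p u (mt off_iff.2 h)
    · rfl

theorem cutm_cut (H : M.Ok) (S : M.Cutm M' R) :
    IsCut M.n M.lk M'.lk 0 (fun y => ∃ v a, R v ∧ M.Rc v a y) (en0 M) := by
  obtain ⟨f, C⟩ := cut_ex (ring_of H R) (ok_pl H).iv
  have e : ∀ y, (∃ v a, R v ∧ M.Rc v a y) → M'.lk (4 * y + 0) = f (4 * y + 0) :=
    fun y ⟨v, a, h, k⟩ => (S.ring v a y h k).trans ((cv_fe H k.1).2.2.uniq (C.on y ⟨v, a, h, k⟩))
  refine ⟨ring_of H R, fun y h => e y h ▸ C.on y h, fun y h => ?_,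
    fun p _ h => S.off p (mt off_iff.1 h)⟩
  obtain ⟨b, k1, -, k2, k3⟩ := C.pv'' (ok_pl H).iv h
  have := C.bk y h
  rw [k3] at this
  rw [← k2, ← e b k1, S.inv, e b k1, k2]
  exact this

theorem cutm_al (H : M.Ok) (S : M.Cutm M' R) : M'.al = M.al := by
  funext c
  have e : 4 * c / 4 = c := by omega
  by_cases h : c < M.n
  · have := ((cutm_cut H S).ok (ok_pl H)).fix (4 * c) (by omega)
    rw [e] at this
    exact propext (this.not.trans not_not)
  · unfold Cm.al
    rw [S.off _ fun ⟨v, a, _, k, _⟩ => h (e ▸ H.lt _ (kd_per H k.1).1)]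

theorem cutm_ok (H : M.Ok) (S : M.Cutm M' R) : M'.Ok := by
  have o := (cutm_cut H S).ok (ok_pl H)
  have e := cutm_al H S
  refine ⟨fun c h => S.n ▸ H.lt c (e ▸ h), S.inv, fun p => ?_, fun p h => ?_,
    S.n ▸ pln_cut (cutm_cut H S) (ok_pl H) H.pl⟩
  · rw [e]
    by_cases h : p < 4 * M.n
    · exact o.fix p h
    · rw [S.off _ fun ⟨v, a, _, k, _⟩ => h (lt4 H (kd_per H k.1).1)]
      exact H.fix p
  · rw [e] at h
    exact o.par p (lt4 H h) h

/-- Cycles lift through the cut. -/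
theorem cutm_cy (H : M.Ok) (S : M.Cutm M' R) (h : M'.Cy a z) : M.Cy a z := by
  rw [cy_iff (cutm_ok H S), cutm_al H S, S.n] at h
  exact (cy_iff H).2 ⟨h.1, lift_cut (cutm_cut H S) (ok_pl H).iv h.2⟩

/-- The cut keeps the answer. -/
theorem cutm_iff (H : M.Ok) (S : M.Cutm M' R) : M'.Cy a z ↔ M.Cy a z :=
  ⟨cutm_cy H S, fun k => (cy_or (cutm_ok H S) (b := a + 1) (by omega)
    (cutm_al H S ▸ k.1)).resolve_right fun v => cy_nb H (by omega) k (cutm_cy H S v)⟩

/-! ### Level zero -/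

/-- The map of a rotation of darts. -/
noncomputable def zm (n : ℕ) (ρ : ℕ → ℕ) : Cm := ⟨n, fun p => if p < 4 * n then lam n ρ p else p⟩

theorem trunc {n : ℕ} {lk : ℕ → ℕ} (N : Cm) (e : N = ⟨n, fun p => if p < 4 * n then lk p else p⟩)
    (H : PL.Ok n (fun _ => True) lk) (h : Pln n lk) :
    N.Ok ∧ (∀ c, N.al c ↔ c < n) ∧ ∀ c < n, (N.Cy a c ↔ Cyc n lk a c) := by
  have l : ∀ p, N.lk p = if p < 4 * n then lk p else p := fun p => by rw [e]
  have hn : N.n = n := by rw [e]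
  have fx : ∀ p, N.lk p = p ↔ ¬p / 4 < n := fun p => by
    rw [l]
    split_ifs with u
    · exact ⟨fun v => absurd trivial ((H.fix p u).1 v), fun v => by omega⟩
    · exact ⟨fun _ => by omega, fun _ => rfl⟩
  have al : ∀ c, N.al c ↔ c < n := fun c => by
    have := (fx (4 * c)).not
    rwa [not_not, show 4 * c / 4 = c by omega] at this
  have ok : N.Ok := by
    refine ⟨fun c u => hn ▸ (al c).1 u, fun p => ?_, fun p => by rw [al, fx], fun p u => ?_,
      fun z y hz hy => ?_⟩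
    · by_cases u : p < 4 * n
      · rw [l p, if_pos u, l, if_pos (H.iv p u).1, (H.iv p u).2]
      · rw [l p, if_neg u, l, if_neg u]
    · have : p < 4 * n := by have := (al _).1 u; omega
      rw [l, if_pos this]
      exact H.par p this trivial
    · rw [hn] at *
      obtain ⟨c, hc⟩ := h z y (fun d hd => by have := hz d hd; rwa [l, if_pos hd] at this) hy
      exact ⟨c, fun d hd => by rw [l, if_pos hd]; exact hc d hd⟩
  refine ⟨ok, al, fun c hc => ?_⟩
  rw [cy_iff ok, al, and_iff_right hc, hn]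
  have : (fun x y => x < 4 * n ∧ (y = PL.r3 (N.lk x) ∨ (x % 4 = a % 4 ∧ y = op x))) =
      fun x y => x < 4 * n ∧ (y = PL.r3 (lk x) ∨ (x % 4 = a % 4 ∧ y = op x)) := by
    funext x y
    exact propext (and_congr_right fun u => by rw [l, if_pos u])
  unfold Cyc PL.Rch
  rw [this]

/-- LEVEL ZERO. -/
theorem zero_ok {m : ℕ} (σ α : Equiv.Perm (Fin m)) (dir : Fin m → Bool) (s t : Fin m)
    (h1 : α * α = 1) (h2 : Planar σ α) {w : List Bool} (hw : w = code σ α dir s t) :
    (zm (cells (inp w)) (rho (inp w))).Ok ∧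
      (∀ c, (zm (cells (inp w)) (rho (inp w))).al c ↔ c < cells (inp w)) ∧
      e0 (inp w) < cells (inp w) ∧
      (Reach σ α dir s t ↔ (zm (cells (inp w)) (rho (inp w))).Cy 0 (e0 (inp w))) := by
  obtain ⟨k1, k2, k3, k4⟩ := zero_code σ α dir s t h1 h2 hw
  obtain ⟨l1, l2, l3⟩ := trunc (a := 0) (zm (cells (inp w)) (rho (inp w))) rfl k1 k2
  exact ⟨l1, l2, k3, k4.trans (l3 _ k3).symm⟩

end Pool.Agent.MP_1a6d78_lc.PS.Ct

end MrgPart3

-- ======== part 4: formerly Pool.Agent.MP_1a6d78_lc.PS.Geo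
section MrgPart4

/-! PROJECT PSC: the meaning of the primitives, the hypotheses of a round. -/

namespace Pool.Agent.MP_1a6d78_lc.PS

open Classical ED PR GL

noncomputable section

/-- A path of the `i`-walk on which all passages are by the side `a`. -/
def Cm.Ti (M : Cm) (i a u v : ℕ) : Prop :=
  ∃ t, M.wk i u t = v ∧ ∀ s < t, M.ss i (M.wk i u s) = a

/-- The other side of the type `i < 4`. -/
def os (i a : ℕ) : ℕ := if a = i then (i + 3) % 4 else i

structure Geo (M : Cm) (P : Pr) : Prop where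
  al : P.al = M.al
  lam : ∀ p, P.lam p = if M.al (p / 4) then M.lk p else 4 * M.n
  nm : M.Nm P.En
  FE : ∀ i < 4, ∀ a < 4, ∀ c, P.FE i c a = M.FE i c a
  F : M.GF P.F

/-- The hypotheses of a round. -/
structure Rn.Hy (K : Rn) (M : Cm) : Prop where
  ok : M.Ok
  n : K.n = M.n
  geo : Geo M K.P
  le : ∀ i y t, K.ent i y t ≤ 4 * M.n
  val : ∀ i < 4, ∀ y t, M.al y → K.P.En i y = y → K.ent i y t < 4 * M.n →
    M.Prb (K.ent i y t) ∧ (K.ent i y t + i) % 2 = 1 ∧ K.P.En i (K.ent i y t / 4) = y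
  ex : ∀ i < 4, ∀ p, M.Prb p → (p + i) % 2 = 1 → K.short i (K.P.En i (p / 4)) →
    ∃ t < K.c, K.ent i (K.P.En i (p / 4)) t = p
  cur : ∀ e, K.P.val e → K.P.cur e ≠ 0

end

end Pool.Agent.MP_1a6d78_lc.PS

end MrgPart4

-- marker of a merged file
example : 731051 + 138984 = 731051 + 138984 := rfl
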