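import Pool.Agent.MP_1a6d78_lc.PS.LStep

/-! PROJECT PSC: the machine. -/

namespace Pool.Agent.MP_1a6d78_lc.PS

open Classical ED PR SC GL Ct

def MainS : Prop :=
  ∃ (M : ED.TM) (c : ℕ), ∀ x : List Bool, ∃ r : Bool,
    M.out (M.run x ((x.length + 2) ^ c)).q = some r ∧
    (∀ (t : ℕ) (i : Fin M.k), (M.run x t).head i ≤ c * (Nat.log 2 x.length + 1) ^ 3) ∧
    ∀ (n : ℕ) (σ α : Equiv.Perm (Fin n)) (dir : Fin n → Bool) (s t : Fin n),
      α * α = 1 → PR.Planar σ α → x = PR.code σ α dir s t →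
        (r = true ↔ PR.Reach σ α dir s t)

theorem le_pow (n k : ℕ) : k + 1 ≤ (n + 2) ^ k :=
  Nat.lt_two_pow_self.trans_le (Nat.pow_le_pow_left (by omega) k)

theorem qbig {n N l D j : ℕ} (h1 : n ≤ (N + 2) ^ 6) (h2 : l ≤ N + 1) (h3 : j ≤ D * l) :
    16 * n * (2 * j + 4) < (N + 2) ^ (32 * D + 64 + 7) := by
  have a1 : 2 * j + 4 ≤ (2 * D + 4) * (N + 2) := by nlinarith [Nat.mul_le_mul_left D h2]
  have a4 : 0 < (N + 2) ^ 7 := by positivity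
  calc 16 * n * (2 * j + 4) ≤ 16 * (N + 2) ^ 6 * ((2 * D + 4) * (N + 2)) :=
        Nat.mul_le_mul (Nat.mul_le_mul_left 16 h1) a1
    _ = (32 * D + 64) * (N + 2) ^ 7 := by ring
    _ < (32 * D + 64 + 1) * (N + 2) ^ 7 := Nat.mul_lt_mul_of_pos_right (by omega) a4
    _ ≤ _ := by rw [pow_add]; exact Nat.mul_le_mul_right _ (le_pow N _)

theorem wbig {N c b e : ℕ} :
    9 * (4 * (4 * c) * (2 * (N + 2) ^ b + 3) ^ 2) ≤ (N + 2) ^ (2 * b + 3600 * c + e) := by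
  have a1 : 1 ≤ (N + 2) ^ b := Nat.one_le_pow _ _ (by omega)
  have a2 := Nat.mul_le_mul_left (((N + 2) ^ b) ^ 2) (le_pow N (3600 * c))
  have a3 : (2 * (N + 2) ^ b + 3) ^ 2 ≤ (5 * (N + 2) ^ b) ^ 2 := Nat.pow_le_pow_left (by omega) 2
  refine le_trans ?_ (Nat.pow_le_pow_right (by omega) (Nat.le_add_right _ e))
  rw [pow_add, mul_comm 2 b, pow_mul]
  rw [mul_pow] at a3
  nlinarith [Nat.mul_le_mul_left (144 * c) a3]

variable {κ m β q : List Bool → ℕ}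

theorem cStep (c : ℕ) (hk : ∀ x, 12 ≤ κ x) (hq : Cn κ fun x _ => q x) (hb : ∀ x, q x ≤ β x) :
    Nq κ m β fun x g ρ => toO (q x)
      (step (M0 x).n (z0 x) c (q x) (ofO (q x) g) (hd (ρ 1)) (hd (ρ 0))) (ρ 2) :=
  toOC (q := q) (stepC (P := fun x g _ => ofO (q x) g) (ofOC hk (Q.lift hq) hb) c (Q.lift B0.n)
    (Q.lift B0.z) (Q.lift hq) (Q.v 1) (Q.v 0)) (Q.lift hq) (Q.vL 2)

theorem cAns (hk : ∀ x, 12 ≤ κ x) (hq : Cn κ fun x _ => q x) (hb : ∀ x, q x ≤ β x) :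
    Nq κ m β fun x g _ => if (ofO (q x) g).rs = 1 then 1 else 0 :=
  Q.ite (Q.eq (ofOC (q := q) hk (Q.lift hq) hb).rs (Q.c 1)) (Q.c 1) (Q.c 0)

theorem phi0 {A N n u t : ℕ} (h1 : n ≤ (N + 2) ^ 6) (h2 : u ≤ n) (h3 : t ≤ 16 * n) :
    A * (u + 1) + t ≤ (N + 2) ^ (2 * A + 16 + 6) := by
  have w : 1 ≤ (N + 2) ^ 6 := Nat.one_le_pow _ _ (by omega)
  calc A * (u + 1) + t ≤ A * (2 * (N + 2) ^ 6) + 17 * (N + 2) ^ 6 :=
        Nat.add_le_add (Nat.mul_le_mul_left A (by omega)) (by omega)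
    _ = (2 * A + 16 + 1) * (N + 2) ^ 6 := by ring
    _ ≤ _ := by rw [pow_add]; exact Nat.mul_le_mul_right _ (le_pow N _)

theorem fin (c A T : ℕ) (hc : 3840 ≤ c) (hA : 49152 * c + 2 ≤ A) (hK : (A + 32) * (768 * c) ≤ T) :
    MainS := by
  obtain ⟨D, eD⟩ : ∃ D, D = T * (2 * (2 * A + 16 + 6) + 1) := ⟨_, rfl⟩
  obtain ⟨q, eq⟩ : ∃ q : List Bool → ℕ, q = fun x => (x.length + 2) ^ (32 * D + 64 + 7) := ⟨_, rfl⟩
  obtain ⟨b, eb⟩ : ∃ b, b = 2 * (32 * D + 64 + 7) + 3600 * c + (D + 1) := ⟨_, rfl⟩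
  have cq : ∀ κ, Cn κ fun x _ => q x := fun κ =>
    K.cg (K.pow _ (K.add (kitOne κ).len (K.c 2))) fun x _ => by rw [eq]
  have qb : ∀ x, q x ≤ (x.length + 2) ^ b := fun x => by
    rw [eq]; exact Nat.pow_le_pow_right (by omega) (by omega)
  have q7 : ∀ x, 7 ≤ q x := fun x => by
    have := le_pow x.length (32 * D + 64 + 7)
    rw [eq]
    dsimp only
    omega
  have nb : ∀ x, (M0 x).n ≤ (x.length + 2) ^ 6 := (PL.redC fun _ => 0).2.2.2.2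
  have e : ∀ x P, ofO (q x) (nrm 12 ((x.length + 2) ^ b) (toO (q x) P)) = P.clip (q x) :=
    fun x P => ofO_toO (qb x) (q7 x) P
  have bg : ∀ x, ∀ j ≤ D * lg x, 16 * (M0 x).n * (2 * j + 4) < q x := fun x j hj => by
    rw [eq]; exact qbig (nb x) (lg_le x) hj
  obtain ⟨M, k, H⟩ := elimP 12 1 b (2 * A + 16 + 6) T (le_trans (Nat.mul_pos (by omega) (by omega)) hK) (by omega)
    (by rw [← eD]; exact Nat.lt_two_pow_self.le.trans (Nat.pow_le_pow_right (by omega) (by omega)))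
    _ rfl (fun x => toO (q x) (base0 (M0 x)))
    (fun x w j o => toO (q x) (step (M0 x).n (z0 x) c (q x) (ofO (q x) o) j w))
    (fun x _ o => Phi A (M0 x).n (q x) (ofO (q x) o))
    (fun x _ o => if (ofO (q x) o).rs = 1 then 1 else 0)
    (fun x => 9 * (4 * (4 * c) * (2 * q x + 3) ^ 2))
    (fun x j o => Good (M0 x).n (z0 x) ((M0 x).Cy 0 (z0 x)) (ofO (q x) o) j ∧ j ≤ D * lg x)
    (fun x => (M0 x).Ok ∧ (M0 x).al (z0 x))
    (fun κ hκ => ⟨B0.base (cq κ), cStep c hκ (cq κ) qb,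
      PhiC (P := fun x g => ofO (q x) g) (ofOC hκ (Q.lift (cq κ)) qb) A B0.n (cq κ)
        (fun x => by have := bg x 0 (Nat.zero_le _); have := qb x; omega) qb, cAns hκ (cq κ) qb,
      K.mul (K.c 9) (K.mul (K.c (4 * (4 * c))) (K.pow 2 (K.add (K.mul (K.c 2) (cq κ)) (K.c 3))))⟩)
    (fun x => by rw [eq, eb]; exact wbig)
    (fun x hx => by
      obtain ⟨ls, I, -⟩ := base0S _ hx.1
      rw [e]
      exact ⟨clip_good (Or.inr ⟨rfl, _, ls, rfl, I, hx.2, Iff.rfl⟩)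
        (big (k := 0) (bg x 0 (Nat.zero_le _)) (by omega)) (q7 x), Nat.zero_le _⟩)
    (fun x hx => by
      obtain ⟨ls, I, t⟩ := base0S _ hx.1
      rw [e, phi_clip A I rfl (big (j := 0) (k := 0) (bg x 0 (Nat.zero_le _)) (by omega)) (q7 x)]
      exact phi0 (nb x) ((Nat.sub_le _ _).trans (cnt_le _ _)) t)
    (fun x _ j hj o w _ h => by
      rw [← eD] at hj
      rw [e]
      exact ⟨clip_good (step_good h.1 (bg x j hj.le) (by omega))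
        (big (k := 2) (bg x j hj.le) le_rfl) (q7 x), hj⟩)
    (fun x _ j hj o h => by
      rw [← eD] at hj
      obtain ⟨w, w1, w2⟩ := step_pot h.1 (bg x j hj.le) (q7 x) hc hA hK
      exact ⟨w, w1, by rw [e]; exact w2⟩)
  refine ⟨M, k, fun x => ?_⟩
  obtain ⟨a, h1, h2, h3⟩ := H x
  refine ⟨a, h1, h2, fun n σ α dir s t hα hG hx => ?_⟩
  obtain ⟨p1, p2, p3⟩ := code0 σ α dir s t hα hG hx
  obtain ⟨j, o, ⟨g, hj⟩, z, rfl⟩ := h3 ⟨p1, p2⟩
  rcases g with g | ⟨g, N, ls, e1, I, -⟩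
  · rw [p3, ← g.2]
    split_ifs with h <;> simp [h]
  · rw [← e1, phi_eq A I g (by rw [e1]; exact big (k := 0) (bg x j hj) (by omega))] at z
    exact absurd (Nat.eq_zero_of_add_eq_zero_right z) (Nat.mul_pos (by omega) (by omega)).ne'

theorem main : MainS := fin 3840 _ _ le_rfl le_rfl le_rfl

end Pool.Agent.MP_1a6d78_lc.PS
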