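import Pool.Agent.MP_1a6d78_lc.PS.Drop

-- ======== part 0: formerly Pool.Agent.MP_1a6d78_lc.PS.FCS
section MrgPart0

/-! PROJECT PSC: a cut does not change the kills. -/

namespace Pool.Agent.MP_1a6d78_lc.PS

namespace FCS

variable {M : Cm} {R : ℕ → ℕ → Prop} {x t a y : ℕ}

theorem rg_trans {z : ℕ} (a : M.Rg x y) (b : M.Rg y z) : M.Rg x z :=
  let ⟨s, hs⟩ := a
  let ⟨t, ht⟩ := b
  ⟨t + s, by rw [Function.iterate_add_apply, hs, ht]⟩

theorem rpa (h : M.Rs R) {u : ℕ} (r : R t y) (p : M.Pa t y u) : R t u := by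
  obtain ⟨k, rfl⟩ := p
  induction k with
  | zero => exact r
  | succ k ih => rw [Cm.wk_succ]; exact (h _ _ ih).2.2

theorem two (W : WalkK M) (D : DeadK M x) (h : M.Rs R) (r : R t y) (k : M.Kd t a y)
    (d : M.Dd x y) : a = 2 ∧ (t = 2 ∨ t = 3) := by
  obtain ⟨t4, rn, -⟩ := h t y r
  obtain ⟨c1, c2, -, -, c3, c4⟩ := D.cyc y d
  have := (W.kd_per t a y k).2
  have h0 : t ≠ 0 := fun e => c3 (e ▸ rn)
  have h1 : t ≠ 1 := fun e => c4 (e ▸ rn)
  have h2 : t = 2 → a ≠ 1 := fun e e' => c1 (by rwa [e, e'] at k)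
  have h3 : t = 3 → a ≠ 3 := fun e e' => c2 (by rwa [e, e'] at k)
  omega

theorem pred (ok : M.Ok) (W : WalkK M) (h : M.Rs R) (r : R t y) (k : M.Kd t a y) :
    M.lk (pt y (ep t a)) % 4 = t % 4 ∧ R t (M.lk (pt y (ep t a)) / 4) := by
  obtain ⟨-, k1, k2⟩ := (W.kd_iff t a y).1 k
  refine ⟨k1, rpa h r (W.per_pa t _ y k2 ⟨1, ?_⟩).2⟩
  change M.lk (pt _ t) / 4 = y
  rw [show pt (M.lk (pt y (ep t a)) / 4) t = M.lk (pt y (ep t a)) by rw [pt]; omega, ok.inv, pt_div]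

theorem other (W : WalkK M) (G : RegK M) (rn : M.Rng t y) (ht : t = 2 ∨ t = 3) :
    ∃ a u, a ≠ 2 ∧ M.Pa t y u ∧ M.Kd t a u ∧ M.Rg (4 * y + 2) (4 * u + 2) := by
  obtain ⟨a, w, a2, p, k⟩ : ∃ a w, a ≠ 2 ∧ M.Pa t y w ∧ M.Kd t a w := by
    obtain ⟨-, ⟨w, p, k⟩, w', p', k'⟩ := rn
    rcases ht with rfl | rfl
    exacts [⟨_, w', by decide, p', k'⟩, ⟨_, w, by decide, p, k⟩]
  obtain ⟨pw, n, e⟩ := W.per_pa t y w rn.1 p
  have cl : ∀ n, ∃ a u, a ≠ 2 ∧ M.Pa t w u ∧ M.Kd t a u ∧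
      M.Rg (4 * M.wk t w n + 2) (4 * u + 2) := by
    intro n
    induction n with
    | zero => exact ⟨a, w, a2, .refl _ _, k, 0, rfl⟩
    | succ n ih =>
      have pu := (W.per_pa t w _ pw (.wk t w n)).1
      by_cases s : M.ss t (M.wk t w n) = 2
      · obtain ⟨a, u, b1, b2, b3, b4⟩ := ih
        refine ⟨a, u, b1, b2, b3, rg_trans ?_ b4⟩
        have e := W.ent t _ pu.1
        rw [s, ← Cm.wk_succ] at e
        rcases ht with rfl | rfl
        · have := G.bw (pt (M.wk 2 w n) 2)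
          rw [e, show ep 2 2 = 3 from rfl] at this
          convert this using 1 <;> simp only [pt, r3] <;> omega
        · have := G.symm _ _ (G.fw (pt (M.wk 3 w n) 3))
          rw [e, show ep 3 2 = 2 from rfl] at this
          convert this using 1 <;> simp only [pt, r3] <;> omega
      · exact ⟨_, _, s, .wk t w (n + 1), ⟨_, pu, (Cm.wk_succ ..).symm, rfl⟩, 0, rfl⟩
  obtain ⟨a, u, b1, b2, b3, b4⟩ := cl n
  exact ⟨a, u, b1, p.trans b2, b3, e ▸ b4⟩

theorem hop {N : Cm} {c k : ℕ} (dd : ∀ c, N.Dd x c ↔ M.Dd x c)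
    (h : ∀ s ≤ k, ∀ p, p / 4 = M.wk 3 c s → N.lk p = M.lk p) (h1 : M.lk (4 * c + 2) % 4 = 1)
    (h2 : ¬M.Dd x (M.st 2 c)) (h3 : ∀ s ≤ k, M.Dd x (M.wk 3 c s))
    (h4 : M.lk (4 * M.wk 3 c k + 3) % 4 = 0) : N.Hop x := by
  have e : ∀ s ≤ k, N.wk 3 c s = M.wk 3 c s := by
    intro s hs
    induction s with
    | zero => rfl
    | succ s ih =>
      rw [Cm.wk_succ, Cm.wk_succ, ih (by omega), Cm.st, Cm.st, h s (by omega) _ (pt_div _ _)]
  refine ⟨c, k, ?_, ?_, fun s hs => ?_, ?_⟩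
  · rw [h 0 (by omega) _ (by rw [Cm.wk_zero]; omega), h1]
  · rw [dd, Cm.st, h 0 (by omega) (pt c 2) (pt_div _ _)]
    exact h2
  · rw [dd, e s hs]
    exact h3 s hs
  · rw [e k le_rfl, h k le_rfl _ (by omega), h4]

end FCS

open FCS in
theorem fCS : S_Walk → S_Reg → S_Dead → S_Sep → S_CutW → S_CutR → S_CS := by
  intro hW hG hD hS hCW hCR M M' R ok ok' rs cut x top
  have W := hW M ok
  have D := hD M ok x top
  have CW := hCW M M' R ok ok' rs cut
  have CR := hCR M M' R ok ok' rs cut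
  have cr : ∀ c a, a < 4 → M.Cor R (4 * c + a) → ∃ t, R t c ∧ M.Kd t a c := fun c a a4 h => by
    rwa [Cm.Cor, show (4 * c + a) / 4 = c by omega, show (4 * c + a) % 4 = a by omega] at h
  have nc : ∀ c a, a < 4 → a ≠ 2 → M.Dd x c → ¬M.Cor R (4 * c + a) := fun c a a4 a2 d h =>
    let ⟨_, r, k⟩ := cr c a a4 h
    a2 (two W D rs r k d).1
  have n0 : ∀ c, M.Dd x c → ¬M.Cor R (4 * c) := fun c => nc c 0 (by omega) (by omega)
  have nx := n0 x (.top ⟨0, rfl⟩)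
  have oth : ∀ u, M.Cor R (4 * u + 2) →
      ∃ y, M.Rg (4 * u + 2) (4 * y + 2) ∧ ¬M.Dd x y ∧ ¬M.Cor R (4 * y + 2) := by
    intro u h
    obtain ⟨t, r, k⟩ := cr u 2 (by omega) h
    have t4 := (rs t u r).1
    have ht : t = 2 ∨ t = 3 := by have := (W.kd_per _ _ _ k).2; omega
    obtain ⟨a, y, a2, p, ky, g⟩ := other W (hG M ok) (rs t u r).2.1 ht
    refine ⟨y, g, fun d => a2 (two W D rs (rpa rs r p) ky d).1, fun h' => ?_⟩
    obtain ⟨t', r', k'⟩ := cr y 2 (by omega) h'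
    have t4' := (rs t' y r').1
    have := (W.kd_per _ _ _ k').2
    by_cases e : t' = t
    · exact a2 (W.kd_one _ _ _ _ ky (e ▸ k'))
    · refine (hS M ok t' t4' y (rs t' y r').2.1).1 2 k' ?_
      rw [show ep t' 2 = t by unfold ep; split_ifs <;> omega]
      exact (W.kd_per _ _ _ ky).1
  have dd : ∀ c, M'.Dd x c ↔ M.Dd x c := fun c => by
    refine ⟨fun h => ?_, fun h => ?_⟩
    · induction h with
      | top g => exact .top ((CR.rg _ _ nx).1 g).1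
      | @step c ex _ ih =>
        have c0 : ¬M.Cor R (4 * c) := fun h => by
          obtain ⟨t, r, k⟩ := cr c 0 (by omega) h
          obtain ⟨u, g⟩ := ex
          have := (((CR.cor t 0 c r k).2.2 _).1 g).1
          omega
        refine .step (ex.imp fun u g => ((CR.rg _ _ c0).1 g).1) fun u g => ?_
        by_cases e : M.Cor R (4 * u + 2)
        · obtain ⟨y, g', d, n⟩ := oth u e
          exact absurd (ih y ((CR.rg _ _ c0).2 ⟨rg_trans g g', n⟩)) d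
        · exact ih u ((CR.rg _ _ c0).2 ⟨g, e⟩)
    · induction h with
      | top g => exact .top ((CR.rg _ _ nx).2 ⟨g, n0 _ (.top g)⟩)
      | @step c ex al ih =>
        have c0 := n0 c (.step ex al)
        refine .step (ex.imp fun u g => (CR.rg _ _ c0).2 ⟨g, fun e => ?_⟩)
          fun u g => ih u ((CR.rg _ _ c0).1 g).1
        obtain ⟨y, g', d, -⟩ := oth u e
        exact d (al y (rg_trans g g'))
  have un : ∀ y, (∀ t, ¬R t y) → ∀ p, p / 4 = y → M'.lk p = M.lk p := fun y h p e =>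
    cut.off p fun ⟨t, _, r, _⟩ => h t (e ▸ r)
  have kd : ∀ t y, R t y → M.Dd x y → M.Kd t 2 y ∧ (t = 2 ∨ t = 3) := fun t y r d => by
    obtain ⟨a, k⟩ := (rs t y r).2.1.1.kd ok
    obtain ⟨rfl, e⟩ := two W D rs r k d
    exact ⟨k, e⟩
  have hp : M'.Hop x ↔ M.Hop x := by
    constructor
    · rintro ⟨c, k, h1, h2, h3, h4⟩
      refine hop (fun c => (dd c).symm) (fun s hs p e => (un _ (fun t r => ?_) p e).symm)
        h1 h2 h3 h4
      obtain ⟨k2, ht⟩ := kd t _ r ((dd _).1 (h3 s hs))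
      have tw := (CW.twin t 2 _ r k2).2.2 (M'.wk 3 c k)
      have p3 : M'.Pa 3 (M'.wk 3 c s) (M'.wk 3 c k) :=
        ⟨k - s, by rw [← Cm.wk_add, Nat.add_sub_cancel' hs]⟩
      have q : M.Pa t (M'.wk 3 c s) (M'.wk 3 c k) ∧ M.Kd t 2 (M'.wk 3 c k) := by
        rcases ht with rfl | rfl
        exacts [tw.2.1 p3, tw.1.1 p3]
      have tw' := CW.twin t 2 _ (rpa rs r q.1) q.2
      have k3 : M'.Kd 2 2 (M'.wk 3 c k) := by
        rcases ht with rfl | rfl
        exacts [tw'.1, tw'.2.1]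
      have : M'.lk (4 * M'.wk 3 c k + 3) % 4 = 2 := (((hW M' ok').kd_iff 2 2 _).1 k3).2.1
      omega
    · rintro ⟨c, k, h1, h2, h3, h4⟩
      have ex : ∃ s, M.lk (4 * M.wk 3 c s + 3) % 4 = 0 := ⟨k, h4⟩
      have le := Nat.find_min' ex h4
      have r2 : ∀ d s, s + d = k → ¬R 2 (M.wk 3 c s) := by
        intro d
        induction d with
        | zero =>
          intro s e r
          obtain rfl : s = k := e
          have : M.lk (4 * M.wk 3 c s + 3) % 4 = 2 := (pred ok W rs r (kd 2 _ r (h3 s le_rfl)).1).1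
          omega
        | succ d ih =>
          intro s e r
          refine ih (s + 1) (by omega) ?_
          rw [Cm.wk_succ]
          exact (pred ok W rs r (kd 2 _ r (h3 s (by omega))).1).2
      have r3 : ∀ s ≤ Nat.find ex, ¬R 3 (M.wk 3 c s) := by
        intro s hs r
        induction s with
        | zero =>
          have : M.lk (4 * c + 2) % 4 = 3 := (pred ok W rs r (kd 3 _ r (h3 0 (by omega))).1).1
          omega
        | succ s ih =>
          have q : R 3 (M.lk (4 * M.wk 3 c (s + 1) + 2) / 4) :=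
            (pred ok W rs r (kd 3 _ r (h3 _ (by omega))).1).2
          have m := Nat.find_min ex (show s < Nat.find ex by omega)
          have e : (4 * M.wk 3 c s + 3) / 4 = M.wk 3 c s := by omega
          have := ok.par (4 * M.wk 3 c s + 3) (by rw [e]; exact D.al _ (h3 s (by omega)))
          have w : M.wk 3 c (s + 1) = M.lk (4 * M.wk 3 c s + 3) / 4 := Cm.wk_succ ..
          rw [show 4 * M.wk 3 c (s + 1) + 2 = M.lk (4 * M.wk 3 c s + 3) by omega, ok.inv, e] at q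
          exact ih (by omega) q
      refine hop dd (fun s hs => un _ fun t r => ?_) h1 h2 (fun s hs => h3 s (hs.trans le))
        (Nat.find_spec ex)
      rcases (kd t _ r (h3 s (hs.trans le))).2 with rfl | rfl
      exacts [r2 (k - s) s (by omega) r, r3 s hs r]
  refine ⟨⟨(CW.al x).2 top.1, (CR.crit _ nx).2 top.2⟩, dd, fun z =>
    or_congr (dd z) (or_congr (exists_congr fun c => ?_) hp)⟩
  rw [dd]
  exact and_congr_right fun d => or_congr (CR.sad _ (n0 c d)) (or_congr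
    (CR.sad _ (nc c 1 (by omega) (by omega) d)) (CR.sad _ (nc c 3 (by omega) (by omega) d)))

end Pool.Agent.MP_1a6d78_lc.PS

end MrgPart0

-- ======== part 1: formerly Pool.Agent.MP_1a6d78_lc.PS.FCmp
section MrgPart1

/-! PROJECT PSC, row CMP: cuts one after the other. -/

namespace Pool.Agent.MP_1a6d78_lc.PS

open Classical

namespace FCmp

theorem eq_pt {p y q : ℕ} (h : p / 4 = y) (k : p % 4 = q % 4) : pt y q = p := by
  unfold pt; omega

theorem ep_lt (t a : ℕ) : ep t a % 4 = ep t a := by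
  unfold ep; split_ifs <;> omega

theorem rs_pa {M : Cm} {R : ℕ → ℕ → Prop} (hR : M.Rs R) {t a b : ℕ} (h : R t a)
    (k : M.Pa t a b) : R t b := by
  obtain ⟨s, rfl⟩ := k
  induction s with
  | zero => exact h
  | succ s ih => rw [Cm.wk_succ]; exact (hR _ _ ih).2.2

/-- The cell before `y` on its cycle. -/
theorem prev {M : Cm} (hM : M.Ok) (K : WalkK M) {t a y : ℕ} (h : M.Kd t a y) :
    M.lk (pt y (ep t a)) = pt (M.lk (pt y (ep t a)) / 4) t ∧
      M.Pa t y (M.lk (pt y (ep t a)) / 4) := by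
  obtain ⟨-, h1, h2⟩ := (K.kd_iff t a y).1 h
  have e : pt (M.lk (pt y (ep t a)) / 4) t = M.lk (pt y (ep t a)) := eq_pt rfl h1
  refine ⟨e.symm, (K.per_pa t _ y h2 ⟨1, ?_⟩).2⟩
  show M.lk (pt _ t) / 4 = y
  rw [e, hM.inv, pt_div]

theorem on_exit (M : Cm) (t y : ℕ) : M.On t y (pt y t) :=
  Or.inl ⟨pt_mod y t, by rw [pt_div]; exact Cm.Pa.refl _ _⟩

theorem on_of {M : Cm} (hM : M.Ok) (K : WalkK M) {t a p : ℕ} (ht : t < 4)
    (h : M.Kd t a (p / 4)) (k : p % 4 = t ∨ p % 4 = ep t a) : M.On t (p / 4) p := by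
  rcases k with k | k
  · exact Or.inl ⟨by omega, Cm.Pa.refl _ _⟩
  · have e : pt (p / 4) (ep t a) = p := eq_pt rfl (by rw [ep_lt, k])
    obtain ⟨h1, h2⟩ := prev hM K h
    rw [e] at h1 h2
    exact Or.inr ⟨by rw [h1, pt_mod], h2⟩

end FCmp

open FCmp

theorem fCmp : S_Walk → S_Sep → S_CutW → S_Cmp := by
  intro hW hS hC M M1 M2 R R' hM h1 h2 hR C1
  have K := hW M hM
  have K1 := hW M1 h1
  have W := hC M M1 R hM h1 hR C1
  have st_eq : ∀ t < 4, ∀ y, M.Rng t y → ¬R t y → M1.st t y = M.st t y := fun t ht y hy hn => by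
    unfold Cm.st
    rw [(W.keep t ht y hy hn).2.1 _ (on_exit M t y)]
  constructor
  · intro hR' C2
    have L : ∀ t y, R' t y → t < 4 ∧ M.Rng t y ∧ ¬R t y := fun t y h =>
      ⟨(hR' t y h).1, W.lift t (hR' t y h).1 y (hR' t y h).2.1⟩
    refine ⟨fun t y h => ?_, fun t y h => (L t y h).2.2, C2.n.trans C1.n, C2.inv, ?_, ?_⟩
    · obtain ⟨a, b, c⟩ := L t y h
      exact ⟨a, b, st_eq t a y b c ▸ (hR' t y h).2.2⟩
    · rintro t y a (h | h) hk
      · rw [← C1.ring t y a h hk]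
        refine C2.off _ ?_
        rintro ⟨t', a', q1, q2, q3⟩
        obtain ⟨l1, l2, l3⟩ := L _ _ q1
        have q4 := ((W.keep t' l1 _ l2 l3).2.2.2.1 a').1 q2
        have o := on_of hM K l1 q4 q3
        rw [pt_div] at o l2 l3
        have := ((hS M hM t (hR t y h).1 y (hR t y h).2.1).2 t' l1 y _ l2.1 (on_exit M t y) o).1
        exact l3 (this ▸ h)
      · obtain ⟨l1, l2, l3⟩ := L _ _ h
        obtain ⟨-, -, -, k1, k2⟩ := W.keep t l1 y l2 l3
        rw [C2.ring t y a h ((k1 a).2 hk), k2]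
    · intro p hp
      rw [C2.off p, C1.off p]
      · rintro ⟨t, a, q1, q2, q3⟩
        exact hp ⟨t, a, Or.inl q1, q2, q3⟩
      · rintro ⟨t, a, q1, q2, q3⟩
        obtain ⟨l1, l2, l3⟩ := L _ _ q1
        exact hp ⟨t, a, Or.inr q1, ((W.keep t l1 _ l2 l3).2.2.2.1 a).1 q2, q3⟩
  · intro hR' hsub C2
    refine ⟨?_, C2.n.trans C1.n.symm, C2.inv, ?_, ?_⟩
    · rintro t y ⟨h, hn⟩
      obtain ⟨l1, l2, l3⟩ := hR' t y h
      refine ⟨l1, (W.keep t l1 y l2 hn).1, ?_⟩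
      rw [st_eq t l1 y l2 hn]
      exact ⟨l3, fun k => hn (rs_pa hR k l2.1.2)⟩
    · rintro t y a ⟨h, hn⟩ hk
      obtain ⟨l1, l2, -⟩ := hR' t y h
      obtain ⟨-, -, -, k1, k2⟩ := W.keep t l1 y l2 hn
      rw [C2.ring t y a h ((k1 a).1 hk), k2]
    · intro p hp
      by_cases h : ∃ t a, R' t (p / 4) ∧ M.Kd t a (p / 4) ∧ (p % 4 = t ∨ p % 4 = ep t a)
      · obtain ⟨t, a, q1, q2, q3⟩ := h
        obtain ⟨l1, l2, -⟩ := hR' t _ q1
        have hr : R t (p / 4) := by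
          by_contra hn
          exact hp ⟨t, a, ⟨q1, hn⟩, ((W.keep t l1 _ l2 hn).2.2.2.1 a).2 q2, q3⟩
        rcases q3 with q3 | q3
        · have e : pt (p / 4) t = p := eq_pt rfl (by omega)
          have e1 := C1.ring t _ a hr q2
          have e2 := C2.ring t _ a q1 q2
          rw [e] at e1 e2
          rw [e1, e2]
        · have e : pt (p / 4) (ep t a) = p := eq_pt rfl (by rw [ep_lt, q3])
          obtain ⟨t1, -, t2⟩ := W.twin t a _ hr q2
          obtain ⟨u1, u2⟩ := prev h1 K1 t1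
          rw [e] at u1 u2
          obtain ⟨v1, v2⟩ := (t2 _).1.1 u2
          have r1 := rs_pa hR hr v1
          have e1 := C1.ring t _ a r1 v2
          have e2 := C2.ring t _ a (hsub _ _ r1) v2
          rw [← e1, ← u1, h1.inv] at e2
          calc M2.lk p = M2.lk (M2.lk (M1.lk p)) := by rw [e2]
            _ = M1.lk p := C2.inv _
      · rw [C2.off p h, C1.off p]
        rintro ⟨t, a, q1, q2, q3⟩
        exact h ⟨t, a, hsub _ _ q1, q2, q3⟩

end Pool.Agent.MP_1a6d78_lc.PS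

end MrgPart1

-- ======== part 2: formerly Pool.Agent.MP_1a6d78_lc.PS.FCutW
section MrgPart2

/-! PROJECT PSC, row CUTW: walks after a cut. -/

namespace Pool.Agent.MP_1a6d78_lc.PS

open Classical ED PR PL Relation Cm

noncomputable section

namespace FCutW

set_option linter.unusedSectionVars false

/-- Two maps with the same links along a walk have the same walk. -/
theorem agree {A B : Cm} {t v : ℕ} (h : ∀ y, A.Pa t v y → B.lk (pt y t) = A.lk (pt y t)) (s : ℕ) :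
    B.wk t v s = A.wk t v s := by
  induction s with
  | zero => rfl
  | succ s ih =>
    rw [wk_succ, wk_succ, ih]
    unfold Cm.st
    rw [h _ (Pa.wk _ _ _)]

theorem agree_pa {A B : Cm} {t v : ℕ} (h : ∀ y, A.Pa t v y → B.lk (pt y t) = A.lk (pt y t))
    (y : ℕ) : B.Pa t v y ↔ A.Pa t v y :=
  exists_congr fun s => by rw [agree h]

theorem agree_per {A B : Cm} {t v : ℕ} (h : ∀ y, A.Pa t v y → B.lk (pt y t) = A.lk (pt y t))
    (hv : B.al v) (k : A.Per t v) : B.Per t v := by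
  obtain ⟨s, e⟩ := k.2
  exact ⟨hv, s, by rw [← wk_succ', agree h, wk_succ', e]⟩

/-- Kinds are kept along a common cycle. -/
theorem agree_kd {A B : Cm} {t v a y : ℕ}
    (h : ∀ y, A.Pa t v y → B.lk (pt y t) = A.lk (pt y t)) (hal : ∀ c, A.al c → B.al c)
    (hy : A.Pa t v y) (k : A.Kd t a y) : B.Kd t a y := by
  obtain ⟨u, p, rfl, rfl⟩ := k
  have hu : A.Pa t v u := hy.trans p.2
  refine ⟨u, agree_per (fun w hw => h w (hu.trans hw)) (hal u p.1) p, ?_, ?_⟩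
  · unfold Cm.st; rw [h u hu]
  · unfold ss; rw [h u hu]

/-- One walk follows the other up to the first port with `C`. -/
theorem follow {A B : Cm} {C : ℕ → Prop} {i c y : ℕ}
    (h : ∀ u, ¬C u → B.lk (pt u i) = A.lk (pt u i)) (k : A.Pa i c y) :
    B.Pa i c y ∨ ∃ u, A.Pa i c u ∧ B.Pa i c u ∧ C u := by
  obtain ⟨s, rfl⟩ := k
  induction s with
  | zero => exact Or.inl (Pa.refl _ _)
  | succ s ih =>
    rcases ih with ih | ih
    · by_cases hc : C (A.wk i c s)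
      · exact Or.inr ⟨_, Pa.wk _ _ _, ih, hc⟩
      · refine Or.inl (ih.trans ⟨1, ?_⟩)
        rw [A.wk_succ]
        show B.st i _ = _
        unfold Cm.st
        rw [h _ hc]
    · exact Or.inr ih

variable {M M' : Cm} {R : ℕ → ℕ → Prop}

theorem clos (hR : M.Rs R) {t y u : ℕ} (h : R t y) (k : M.Pa t y u) : R t u := by
  obtain ⟨s, rfl⟩ := k
  induction s with
  | zero => exact h
  | succ s ih => rw [wk_succ]; exact (hR _ _ ih).2.2

/-- The changed ports. -/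
def Chg (M : Cm) (R : ℕ → ℕ → Prop) (p : ℕ) : Prop :=
  ∃ t a, R t (p / 4) ∧ M.Kd t a (p / 4) ∧ (p % 4 = t ∨ p % 4 = ep t a)

section
variable (W : WalkK M) (W' : WalkK M') (h : M.Ok) (h' : M'.Ok) (hR : M.Rs R) (hC : M.Cutx M' R)
include W hR hC

theorem nxt {t a y : ℕ} (r : R t y) (k : M.Kd t a y) :
    M'.st t y = M.FE t y a ∧ M'.ss t y = a ∧ M.Pa t y (M'.st t y) ∧ M.Kd t a (M'.st t y) := by
  have e := hC.ring t y a r k
  have e1 : M'.st t y = M.FE t y a := by unfold Cm.st; rw [e, pt_div]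
  have f := W.fe_kd t y y a (W.kd_per _ _ _ k).1 (Pa.refl _ _) k
  refine ⟨e1, ?_, e1 ▸ f.2.1, e1 ▸ f.2.2⟩
  have ha := (W.kd_per _ _ _ k).2
  unfold ss sd
  rw [e, pt_mod]
  unfold ep
  split_ifs <;> omega

theorem fwd {t a y u : ℕ} (r : R t y) (k : M.Kd t a y) (p : M'.Pa t y u) :
    M.Pa t y u ∧ M.Kd t a u := by
  obtain ⟨s, rfl⟩ := p
  induction s with
  | zero => exact ⟨Pa.refl _ _, k⟩
  | succ s ih =>
    rw [wk_succ]
    have n := nxt W hR hC (clos hR r ih.1) ih.2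
    exact ⟨ih.1.trans n.2.2.1, n.2.2.2⟩

theorem bwd {t a : ℕ} (s : ℕ) : ∀ y, R t y → M.Kd t a y → M.Kd t a (M.wk t y s) →
    M'.Pa t y (M.wk t y s) := by
  induction s using Nat.strong_induction_on with
  | _ s ih =>
    intro y r k ku
    cases s with
    | zero => exact Pa.refl _ _
    | succ s =>
      have py := (W.kd_per _ _ _ k).1
      have n := nxt W hR hC r k
      have hs : M.ss t (M.wk t y s) = a :=
        W.kd_one t _ _ _ ⟨_, (W.per_pa _ _ _ py (Pa.wk _ _ s)).1, (wk_succ _ _ _).symm, rfl⟩ ku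
      obtain ⟨q, e, -, hq⟩ := W.fe_spec t y a (W.fe_kd t y y a py (Pa.refl _ _) k).1
      have hle : q ≤ s := not_lt.1 fun l => hq s l hs
      have e2 : M.wk t y (s + 1) = M.wk t (M'.st t y) (s - q) := by
        rw [n.1, e, ← wk_add]; congr 1; omega
      rw [e2] at ku ⊢
      exact (Pa.step _ _).trans (ih _ (by omega) _ (clos hR r n.2.2.1) n.2.2.2 ku)

omit hR in
include h' in
theorem al_iff (c : ℕ) : M'.al c ↔ M.al c := by
  by_cases k : Chg M R (4 * c)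
  · obtain ⟨t, a, r, k, -⟩ := k
    rw [show 4 * c / 4 = c by omega] at r k
    refine iff_of_true ?_ (W.kd_per _ _ _ k).1.1
    by_contra hn
    have e := (h'.fix (pt c t)).2 (by rw [pt_div]; exact hn)
    rw [hC.ring t c a r k] at e
    have e2 := congrArg (· % 4) e
    simp only [pt_mod] at e2
    unfold ep at e2
    split_ifs at e2 <;> omega
  · unfold al
    rw [hC.off _ k]

include h' in
theorem per_t {t a y : ℕ} (r : R t y) (k : M.Kd t a y) : M'.Per t y := by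
  have n := nxt W hR hC r k
  have py := (W.kd_per _ _ _ k).1
  obtain ⟨s, e⟩ := (W.per_pa _ _ _ py n.2.2.1).2
  refine ⟨(al_iff W h' hC y).2 py.1, ?_⟩
  have := bwd W hR hC s _ (clos hR r n.2.2.1) n.2.2.2 (by rw [e]; exact k)
  rwa [e] at this

include h' in
/-- The previous cell of the same kind. -/
theorem prv {t a y : ℕ} (r : R t y) (k : M.Kd t a y) :
    ∃ u, M.Pa t y u ∧ M.Kd t a u ∧ M'.st t u = y := by
  obtain ⟨b, u, p, e, -⟩ := (per_t W h' hR hC r k).kd h'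
  have q : M'.Pa t y u := e ▸ p.2
  exact ⟨u, (fwd W hR hC r k q).1, (fwd W hR hC r k q).2, e⟩

theorem rev {t a y : ℕ} (r : R t y) (k : M.Kd t a y) :
    M'.lk (pt (M'.st t y) (ep t a)) = pt y t := by
  rw [(nxt W hR hC r k).1, ← hC.ring t y a r k, hC.inv]

theorem rev_st {t a y : ℕ} (r : R t y) (k : M.Kd t a y) :
    M'.st (ep t a) (M'.st t y) = y ∧ M'.ss (ep t a) (M'.st t y) = a := by
  have e := rev W hR hC r k
  have ha := (W.kd_per _ _ _ k).2
  constructor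
  · show M'.lk _ / 4 = y
    rw [e, pt_div]
  · show sd _ (M'.lk _) = a
    rw [e]
    unfold sd
    rw [pt_mod]
    unfold ep
    split_ifs <;> omega

include h' in
theorem pa_j {t a y : ℕ} (r : R t y) (k : M.Kd t a y) (u : ℕ) :
    M'.Pa (ep t a) y u ↔ M.Pa t y u ∧ M.Kd t a u := by
  constructor
  · rintro ⟨s, rfl⟩
    induction s with
    | zero => exact ⟨Pa.refl _ _, k⟩
    | succ s ih =>
      obtain ⟨w, p, kw, e⟩ := prv W h' hR hC (clos hR r ih.1) ih.2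
      rw [wk_succ, ← e, (rev_st W hR hC (clos hR r (ih.1.trans p)) kw).1]
      exact ⟨ih.1.trans p, kw⟩
  · rintro ⟨p, ku⟩
    have ru := clos hR r p
    obtain ⟨s, e⟩ := (W.per_pa _ _ _ (W.kd_per _ _ _ k).1 p).2
    obtain ⟨q, e2⟩ := bwd W hR hC s u ru ku (by rw [e]; exact k)
    rw [← e, ← e2]
    clear e2
    induction q with
    | zero => exact Pa.refl _ _
    | succ q ih =>
      have f := fwd W hR hC ru ku (Pa.wk t u q)
      refine Pa.trans ⟨1, ?_⟩ ih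
      rw [M'.wk_succ t u q]
      exact (rev_st W hR hC (clos hR ru f.1) f.2).1

include h' in
theorem twin {t a y : ℕ} (r : R t y) (k : M.Kd t a y) : M'.Kd t a y ∧ M'.Kd (ep t a) a y ∧
    ∀ u, (M'.Pa t y u ↔ M.Pa t y u ∧ M.Kd t a u) ∧
      (M'.Pa (ep t a) y u ↔ M.Pa t y u ∧ M.Kd t a u) := by
  refine ⟨?_, ?_, fun u => ⟨⟨fwd W hR hC r k, ?_⟩, pa_j W h' hR hC r k u⟩⟩
  · obtain ⟨w, p, kw, e⟩ := prv W h' hR hC r k
    exact ⟨w, per_t W h' hR hC (clos hR r p) kw, e, (nxt W hR hC (clos hR r p) kw).2.1⟩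
  · have n := nxt W hR hC r k
    have v := rev_st W hR hC r k
    refine ⟨M'.st t y, ⟨h'.al_st t (per_t W h' hR hC r k).1, ?_⟩, v.1, v.2⟩
    rw [v.1]
    exact (pa_j W h' hR hC r k _).2 n.2.2
  · rintro ⟨⟨s, rfl⟩, ku⟩
    exact bwd W hR hC s y r k ku

omit hC in
include h in
/-- A changed port is on its ring. -/
theorem chg_on {p t a : ℕ} (k : M.Kd t a (p / 4)) (e : p % 4 = t ∨ p % 4 = ep t a)
    (r : R t (p / 4)) : M.On t (p / 4) p := by
  have ht := (hR _ _ r).1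
  rcases e with e | e
  · exact Or.inl ⟨by omega, Pa.refl _ _⟩
  · have e1 : pt (p / 4) (ep t a) = p := by rw [← e]; unfold pt; omega
    have k1 := ((W.kd_iff _ _ _).1 k).2
    rw [e1] at k1
    refine Or.inr ⟨k1.1, ?_⟩
    have e2 : M.st t (M.lk p / 4) = p / 4 := by
      unfold Cm.st
      rw [show pt (M.lk p / 4) t = M.lk p by have := k1.1; unfold pt; omega, h.inv]
    rw [← e2]
    exact k1.2.2

end

end FCutW

open FCutW in
theorem fCutW : S_Walk → S_Sep → S_CutW := by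
  intro hW hS M M' R h h' hR hC
  have W := hW M h
  have W' := hW M' h'
  have hal := al_iff W h' hC
  have hoff : ∀ i u, (¬∃ t a, R t u ∧ M.Kd t a u ∧ (i % 4 = t ∨ i % 4 = ep t a)) →
      M'.lk (pt u i) = M.lk (pt u i) := fun i u k => hC.off _ (by rwa [pt_div, pt_mod])
  refine ⟨hal, fun t ht v hv hn => ?_, fun t ht v hv => ?_, fun t a y r k => twin W h' hR hC r k,
    fun p hp => ?_, fun i c y k => ?_, fun i c y k => ?_⟩
  · have on : ∀ p, M.On t v p → M'.lk p = M.lk p := by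
      refine fun p hp => hC.off p ?_
      rintro ⟨t', a, r, k, e⟩
      obtain ⟨rfl, q⟩ := (hS M h t ht v hv).2 t' (hR _ _ r).1 _ p (W.kd_per _ _ _ k).1 hp
        (chg_on W h hR k e r)
      exact hn (clos hR r (W.per_pa _ _ _ hv.1 q).2)
    have ag : ∀ y, M.Pa t v y → M'.lk (pt y t) = M.lk (pt y t) := fun y hy =>
      on _ (Or.inl ⟨pt_mod _ _, by rwa [pt_div]⟩)
    have kd : ∀ a y, M.Pa t v y → M.Kd t a y → M'.Kd t a y := fun a y hy k =>
      agree_kd ag (fun c => (hal c).2) hy k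
    obtain ⟨pv, ⟨y1, p1, k1⟩, y2, p2, k2⟩ := hv
    refine ⟨⟨agree_per ag ((hal v).2 pv.1) pv, ⟨y1, (agree_pa ag _).2 p1, kd _ _ p1 k1⟩,
      y2, (agree_pa ag _).2 p2, kd _ _ p2 k2⟩, on, agree_pa ag,
      fun a => ⟨fun k => ?_, kd a v (Pa.refl _ _)⟩, fun a => ?_⟩
    · obtain ⟨b, kb⟩ := pv.kd h
      rwa [W'.kd_one t a b v k (kd b v (Pa.refl _ _) kb)]
    · have hs : ∀ s, M'.ss t (M.wk t v s) = M.ss t (M.wk t v s) := fun s => by
        unfold ss; rw [ag _ (Pa.wk _ _ _)]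
      unfold FE
      simp only [hal, hC.n, agree ag, hs]
  · obtain ⟨pv, ⟨y1, p1, k1⟩, y2, p2, k2⟩ := hv
    have nc : ∀ y, M'.Pa t v y → ¬∃ t' a, R t' y ∧ M.Kd t' a y ∧ (t % 4 = t' ∨ t % 4 = ep t' a) := by
      rintro y hy ⟨t', a, r, k, e⟩
      have hb := (W'.per_pa _ _ _ pv hy).2
      have one : ∀ u, M'.Pa t y u → M'.Kd t a u := by
        intro u hu
        rw [Nat.mod_eq_of_lt ht] at e
        rcases e with rfl | rfl
        · have f := ((twin W h' hR hC r k).2.2 u).1.1 hu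
          exact (twin W h' hR hC (clos hR r f.1) f.2).1
        · have f := ((twin W h' hR hC r k).2.2 u).2.1 hu
          exact (twin W h' hR hC (clos hR r f.1) f.2).2.1
      have e1 := W'.kd_one _ _ _ _ k1 (one _ (hb.trans p1))
      have e2 := W'.kd_one _ _ _ _ k2 (one _ (hb.trans p2))
      omega
    have ag : ∀ y, M'.Pa t v y → M.lk (pt y t) = M'.lk (pt y t) := fun y hy =>
      (hoff t y (nc y hy)).symm
    have pv' := agree_per ag ((hal v).1 pv.1) pv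
    refine ⟨⟨pv', ⟨y1, (agree_pa ag _).2 p1, agree_kd ag (fun c => (hal c).1) p1 k1⟩,
      y2, (agree_pa ag _).2 p2, agree_kd ag (fun c => (hal c).1) p2 k2⟩, fun r => ?_⟩
    obtain ⟨a, k⟩ := pv'.kd h
    exact nc v (Pa.refl _ _) ⟨t, a, r, k, Or.inl (Nat.mod_eq_of_lt ht)⟩
  · by_cases c : Chg M R p
    · obtain ⟨t, a, r, k, e | e⟩ := c
      · exact absurd (e ▸ r) hp
      · have e1 : pt (p / 4) (ep t a) = p := by rw [← e]; unfold pt; omega
        obtain ⟨w, q, kw, ew⟩ := prv W h' hR hC r k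
        have v := rev W hR hC (clos hR r q) kw
        have k1 := ((W.kd_iff _ _ _).1 k).2.1
        rw [ew, e1] at v
        rw [e1] at k1
        rw [v, pt_mod, k1]
    · rw [hC.off p c]
  · rcases follow (B := M) (fun u hu => (hoff i u hu).symm) k with q | ⟨u, q1, q2, t, a, q⟩
    · exact Or.inl q
    · exact Or.inr ⟨u, t, a, q2, q1, q⟩
  · rcases follow (B := M') (hoff i) k with q | ⟨u, q1, q2, t, a, q⟩
    · exact Or.inl q
    · exact Or.inr ⟨u, t, a, q1, q2, q⟩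

end

end Pool.Agent.MP_1a6d78_lc.PS

end MrgPart2

-- ======== part 3: formerly Pool.Agent.MP_1a6d78_lc.PS.FDead
section MrgPart3

/-! PROJECT PSC: the cells that die with a critical region. -/

namespace Pool.Agent.MP_1a6d78_lc.PS

open Classical ED PR PL Relation Ct

namespace FDead

variable {M : Cm} {x y c d : ℕ}

theorem fw {Q : ℕ → Prop} (h : M.Rg x y) (h0 : Q x) (hs : ∀ d, M.Rg x d → Q d → Q (M.nr d)) :
    Q y :=
  (rg_ind (Q := fun d => M.Rg x d ∧ Q d) h ⟨rg_refl M x, h0⟩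
    fun d k => ⟨rg_trans k.1 (rg_nr M d), hs d k.1 k.2⟩).2

theorem bw {Q : ℕ → Prop} (h : M.Rg x y) (h0 : Q y) (hs : ∀ d, M.Rg x d → Q (M.nr d) → Q d) :
    Q x := by
  obtain ⟨t, e⟩ := h
  suffices k : ∀ d, M.Rg x d → M.nr^[t] d = y → Q d from k x (rg_refl M x) e
  clear e
  induction t with
  | zero => exact fun d _ e => (show d = y from e) ▸ h0
  | succ t ih => exact fun d k e => hs d k (ih _ (rg_trans k (rg_nr M d)) e)

theorem d4 (c : ℕ) : 4 * c / 4 = c := by omega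

theorem nr0 (M : Cm) (c : ℕ) : M.nr (4 * c) = M.lk (4 * c + 1) :=
  congrArg M.lk (by unfold r4; omega)

theorem st0 (M : Cm) (c : ℕ) : M.st 0 c = M.lk (4 * c) / 4 := rfl

theorem st1 (M : Cm) (c : ℕ) : M.st 1 c = M.lk (4 * c + 1) / 4 := rfl

theorem lk_nr (H : M.Ok) (d : ℕ) : M.lk (M.nr d) = r4 d := H.inv _

theorem prev (H : M.Ok) (y : ℕ) : M.Rg y (r3 (M.lk y)) :=
  rg_symm H ⟨1, nr_psi H y⟩

theorem out (H : M.Ok) (h : M.Dd x c) (k : M.Rg (4 * c) (4 * d)) : M.Dd x d := by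
  cases h with
  | top e => exact .top (rg_trans e k)
  | step e f =>
    exact .step (e.imp fun u e => rg_trans (rg_symm H k) e) fun u e => f u (rg_trans k e)

theorem inc (hx : M.Top x) (h : M.Dd x c) (k : M.Rg (4 * c) (4 * d + 2)) : M.Dd x d := by
  cases h with
  | top e =>
    have := crit_mod hx.2 (rg_trans e k)
    omega
  | step e f => exact f d k

theorem typ (H : M.Ok) (h : M.al c) (k : M.Rg (4 * c) y) :
    y = 4 * (y / 4) ∨ y = 4 * (y / 4) + 2 := by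
  have := rg_par H k (by rwa [d4])
  omega

theorem reg (H : M.Ok) (hx : M.Top x) (h : M.Dd x c) (k : M.Rg (4 * c) y) : M.Dd x (y / 4) := by
  rcases typ H (dd_al H hx.1 h) k with e | e
  exacts [out H h (e ▸ k), inc hx h (e ▸ k)]

theorem up0 (H : M.Ok) (hx : M.Top x) (h : M.Dd x c) : M.Dd x (M.st 0 c) := by
  have := reg H hx h (prev H (4 * c))
  rwa [show r3 (M.lk (4 * c)) / 4 = M.st 0 c by rw [st0]; unfold r3; omega] at this

theorem up1 (H : M.Ok) (hx : M.Top x) (h : M.Dd x c) : M.Dd x (M.st 1 c) := by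
  have := reg H hx h (rg_nr M (4 * c))
  rwa [nr0] at this

theorem pa {i : ℕ} (hs : ∀ c, M.Dd x c → M.Dd x (M.st i c)) (h : M.Dd x c) (k : M.Pa i c d) :
    M.Dd x d := by
  obtain ⟨t, rfl⟩ := k
  exact iter_inv hs h t

theorem co (H : M.Ok) (R : RegK M) (hx : M.Top x) (h : M.Dd x c) : M.Pa 0 c x ∧ M.Pa 1 c x := by
  have a := dd_al H hx.1 h
  induction h with
  | @top c k =>
    have := (R.crit_kd c 0 (by omega) a ((R.crit _ _ k).1 hx.2)).2.2 x
    exact ⟨this.1.1 (rg_symm H k), this.2.1 (rg_symm H k)⟩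
  | @step c k f ih =>
    obtain ⟨u, k⟩ := k
    have g : ∀ u, M.Rg (4 * c) (4 * u + 2) → M.Pa 0 u x ∧ M.Pa 1 u x :=
      fun u k => ih u k (dd_al H hx.1 (f u k))
    have e0 : (4 * u + 2) / 4 = u := by omega
    constructor
    · rw [← d4 c]
      refine fw (Q := fun d => M.Pa 0 (d / 4) x) (rg_symm H k) (e0.symm ▸ (g u k).1)
        fun d k1 k2 => ?_
      have k3 := rg_trans (rg_trans k k1) (rg_nr M d)
      rcases typ H a k3 with e | e
      · refine (Cm.Pa.step 0 _).trans ?_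
        rwa [st0, ← e, lk_nr H, r4_div]
      · exact (g _ (e ▸ k3)).1
    · rw [← d4 c]
      refine bw (Q := fun d => M.Pa 1 (d / 4) x) k (e0.symm ▸ (g u k).2) fun d k1 k2 => ?_
      rcases typ H a k1 with e | e
      · refine (Cm.Pa.step 1 _).trans ?_
        rwa [st1, ← nr0, ← e]
      · exact (g _ (e ▸ k1)).2

theorem cy01 (H : M.Ok) (W : WalkK M) (R : RegK M) (hx : M.Top x) (h : M.Dd x c) :
    ¬M.Kd 0 3 c ∧ ¬M.Kd 1 1 c := by
  have a := dd_al H hx.1 h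
  have b := (R.crit_kd x 0 (by omega) hx.1 hx.2).2.2 c
  have g := fun k : M.Rg (4 * x) (4 * c) => R.crit_kd c 0 (by omega) a ((R.crit _ _ k).1 hx.2)
  constructor
  · intro k
    have := W.kd_one _ _ _ _ k
      (g (b.1.2 (W.per_pa _ _ _ (W.kd_per _ _ _ k).1 (co H R hx h).1).2)).1
    omega
  · intro k
    have := W.kd_one _ _ _ _ k
      (g (b.2.2 (W.per_pa _ _ _ (W.kd_per _ _ _ k).1 (co H R hx h).2).2)).2.1
    omega

theorem cy2 (H : M.Ok) (W : WalkK M) (hx : M.Top x) (h : M.Dd x c) : ¬M.Kd 2 1 c := by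
  intro k
  induction h with
  | @top c e =>
    have h1 : M.lk (4 * c + 1) % 4 = 2 := ((W.kd_iff _ _ _).1 k).2.1
    have := crit_mod hx.2 (rg_trans e (rg_nr M _))
    rw [nr0] at this
    omega
  | @step c _ f ih =>
    have := (fw (Q := fun d => d % 4 = 2 ∧ M.Per 2 (d / 4)) (rg_back H (4 * c))
      (by rw [nr0]; exact ((W.kd_iff _ _ _).1 k).2) fun d k1 k2 => by
        have e : d = 4 * (d / 4) + 2 := by omega
        have k3 := (W.kd_ex _ _ k2.2).resolve_right (ih _ (e ▸ rg_trans (rg_nr M _) k1))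
        have e1 : r4 d = pt (d / 4) (ep 2 (2 % 4)) := by
          change _ = 4 * (d / 4) + 3
          unfold r4
          omega
        unfold Cm.nr
        rw [e1]
        exact ((W.kd_iff _ _ _).1 k3).2).1
    omega

theorem cy3 (H : M.Ok) (W : WalkK M) (hx : M.Top x) (h : M.Dd x c) : ¬M.Kd 3 3 c := by
  intro k
  induction h with
  | @top c e =>
    have h1 : M.lk (4 * c) % 4 = 3 := ((W.kd_iff _ _ _).1 k).2.1
    have := crit_mod hx.2 (rg_trans e (prev H _))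
    unfold r3 at this
    omega
  | @step c _ f ih =>
    have h1 : M.lk (4 * c) % 4 = 3 ∧ M.Per 3 (M.lk (4 * c) / 4) := ((W.kd_iff _ _ _).1 k).2
    have := (bw (Q := fun d => d % 4 = 2 ∧ M.Per 3 (d / 4)) (prev H (4 * c))
      ⟨by unfold r3; omega, by
        rw [show r3 (M.lk (4 * c)) / 4 = M.lk (4 * c) / 4 by unfold r3; omega]
        exact h1.2⟩ fun d k1 k2 => by
        have e : M.nr d = 4 * (M.nr d / 4) + 2 := by omega
        have k3 := (W.kd_ex _ _ k2.2).resolve_left (ih _ (e ▸ rg_trans k1 (rg_nr M _)))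
        have k4 : M.lk (4 * (M.nr d / 4) + 2) % 4 = 3 ∧
          M.Per 3 (M.lk (4 * (M.nr d / 4) + 2) / 4) := ((W.kd_iff _ _ _).1 k3).2
        rw [← e, lk_nr H, r4_div] at k4
        exact ⟨by have := k4.1; unfold r4 at this; omega, k4.2⟩).1
    omega

theorem top1 (H : M.Ok) (hx : M.Top x) (t : ℕ) : ∀ c, M.Dd x c → M.wk 1 c t = x →
    ∃ o o', M.Run 1 1 c o' ∧ M.lk (4 * o' + 1) = 4 * o ∧ M.Dd x o ∧ M.Dd x o' ∧
      M.Rg (4 * c + 1) (4 * o' + 1) := by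
  have key : ∀ c, M.Dd x c → M.lk (4 * c + 1) % 4 = 0 →
      ∃ o o', M.Run 1 1 c o' ∧ M.lk (4 * o' + 1) = 4 * o ∧ M.Dd x o ∧ M.Dd x o' ∧
        M.Rg (4 * c + 1) (4 * o' + 1) := fun c h e =>
    ⟨M.st 1 c, c, .refl, by rw [st1]; omega, up1 H hx h, h, rg_refl _ _⟩
  induction t with
  | zero =>
    rintro c h (rfl : c = x)
    have := crit_mod hx.2 (rg_nr M _)
    rw [nr0] at this
    exact key c h (by omega)
  | succ t ih =>
    intro c h e
    have h1 := typ H (dd_al H hx.1 h) (rg_nr M _)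
    rw [nr0, ← st1] at h1
    rcases h1 with h1 | h1
    · exact key c h (by omega)
    · obtain ⟨o, o', a1, a2, a3, a4, a5⟩ := ih _ (up1 H hx h) e
      refine ⟨o, o', .head ⟨rfl, ?_⟩ a1, a2, a3, a4, rg_trans (rg_symm H ⟨1, ?_⟩) a5⟩
      · change sd 1 (M.lk (4 * c + 1)) = 1
        rw [sd, if_pos (by omega)]
      · change M.lk (r4 _) = _
        rw [show r4 (4 * M.st 1 c + 1) = 4 * M.st 1 c + 2 by unfold r4; omega, ← h1, H.inv]

theorem top3 (H : M.Ok) (hx : M.Top x) (t : ℕ) : ∀ c, M.Dd x c → M.wk 0 c t = x →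
    ∃ o o', M.Run 0 3 c o ∧ M.lk (4 * o) = 4 * o' + 1 ∧ M.Dd x o ∧ M.Dd x o' ∧
      M.Rg (4 * c + 3) (4 * o' + 1) := by
  have n3 : ∀ c, M.nr (4 * c + 3) = M.lk (4 * c) := fun c => congrArg M.lk (by unfold r4; omega)
  have key : ∀ c, M.Dd x c → M.lk (4 * c) % 4 = 1 →
      ∃ o o', M.Run 0 3 c o ∧ M.lk (4 * o) = 4 * o' + 1 ∧ M.Dd x o ∧ M.Dd x o' ∧
        M.Rg (4 * c + 3) (4 * o' + 1) := fun c h e =>
    have e' : M.lk (4 * c) = 4 * M.st 0 c + 1 := by rw [st0]; omega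
    ⟨c, M.st 0 c, .refl, e', h, up0 H hx h, ⟨1, (n3 c).trans e'⟩⟩
  induction t with
  | zero =>
    rintro c h (rfl : c = x)
    have := crit_mod hx.2 (prev H _)
    unfold r3 at this
    exact key c h (by omega)
  | succ t ih =>
    intro c h e
    have h1 := H.par (4 * c) (by rw [d4]; exact dd_al H hx.1 h)
    by_cases h2 : M.lk (4 * c) % 4 = 1
    · exact key c h h2
    · obtain ⟨o, o', a1, a2, a3, a4, a5⟩ := ih _ (up0 H hx h) e
      refine ⟨o, o', .head ⟨rfl, ?_⟩ a1, a2, a3, a4, rg_trans ⟨1, (n3 c).trans ?_⟩ a5⟩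
      · change sd 0 (M.lk (4 * c)) = 3
        rw [sd, if_neg h2]
      · rw [st0]
        omega

theorem move (h : M.Rg (4 * x) (4 * y)) (k : M.Dd y c) : M.Dd x c := by
  induction k with
  | top e => exact .top (rg_trans h e)
  | step e _ ih => exact .step e ih

end FDead

open FDead in
theorem fDead : S_Walk → S_Reg → S_Dead := fun hW hR M H x hx =>
  have W := hW M H
  have R := hR M H
  { al := fun _ => dd_al H hx.1
    up := fun _ h => ⟨up0 H hx h, up1 H hx h⟩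
    out := fun _ _ => out H
    inc := fun _ _ => inc hx
    co := fun _ => co H R hx
    cyc := fun _ h => ⟨cy2 H W hx h, cy3 H W hx h, (cy01 H W R hx h).1, (cy01 H W R hx h).2,
      fun ⟨_, _, _, a, b⟩ => (cy01 H W R hx (pa (fun _ => up0 H hx) h a)).1 b,
      fun ⟨_, ⟨_, a, b⟩, _⟩ => (cy01 H W R hx (pa (fun _ => up1 H hx) h a)).2 b⟩
    top1 := fun c h => let ⟨t, e⟩ := (co H R hx h).2; top1 H hx t c h e
    top3 := fun c h => let ⟨t, e⟩ := (co H R hx h).1; top3 H hx t c h e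
    same := fun y k => by
      have e : ∀ c, M.Dd y c ↔ M.Dd x c := fun c => ⟨move k, move (rg_symm H k)⟩
      refine ⟨⟨?_, (R.crit _ _ k).1 hx.2⟩, e, fun z => ?_⟩
      · have := (rg_al H k).2 (by rw [d4]; exact hx.1)
        rwa [d4] at this
      · simp only [Cm.NT, Cm.Hop, e] }

end Pool.Agent.MP_1a6d78_lc.PS

end MrgPart3

-- ======== part 4: formerly Pool.Agent.MP_1a6d78_lc.PS.FG0a
section MrgPart4

/-! PROJECT PSC, row G0A: the border of a kill that does not pay, walls of type 2. -/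

namespace Pool.Agent.MP_1a6d78_lc.PS

open Classical ED PR PL Relation

namespace FG0a

variable {M : Cm} {x z : ℕ}

lemma st2 (c : ℕ) : M.st 2 c = M.lk (4 * c + 2) / 4 := rfl
lemma st3 (c : ℕ) : M.st 3 c = M.lk (4 * c + 3) / 4 := rfl

lemma ss2 (c : ℕ) : M.ss 2 c = 2 ↔ M.lk (4 * c + 2) % 4 = 3 := by
  show sd 2 (M.lk (4 * c + 2)) = 2 ↔ _
  unfold sd
  split_ifs with k <;> simp_all

lemma ss3 (c : ℕ) (h : M.ss 3 c = 2) : M.lk (4 * c + 3) % 4 ≠ 0 := by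
  intro k
  have e : sd 3 (M.lk (4 * c + 3)) = 2 := h
  unfold sd at e
  rw [if_pos (by omega)] at e
  omega

/-- A configuration at the border lies on a closed wall. -/
lemma wall (hR : RegK M) (hD : DeadK M x) (hW : S_Wall) (h : M.Ok) (hx : M.Top x)
    (hn : ¬M.NT z x) {g : ℕ} (h1 : M.lk (4 * g + 2) % 4 = 3) (h2 : ¬M.Dd x g)
    (h3 : M.Dd x (M.st 2 g)) : M.Cap x 2 g := by
  rcases hW M h x g hx h1 h2 h3 with ⟨w, hs, ⟨-, a2, a3, a4⟩ | ⟨a1, -, a3, -⟩⟩ | k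
  · refine absurd (Or.inr (Or.inl ⟨_, a4, Or.inr (Or.inr ?_)⟩)) hn
    have e : 4 * M.st 2 w + 3 = M.lk (4 * w + 2) := by rw [st2]; omega
    rw [e]
    exact (hR.sad _ _ (hR.fw _)).1 ((hR.prb_up _ (by omega)).1 a2).2
  · have key : ∀ d, M.Seg x w d → M.Hop x ∨
        ∃ t, (∀ s ≤ t, M.Dd x (M.wk 3 d s)) ∧ M.lk (4 * M.wk 3 d t + 3) % 4 = 0 := by
      intro d hd
      induction hd with
      | refl => exact Or.inr ⟨0, fun s e => by rw [Nat.le_zero.1 e]; exact a1, a3⟩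
      | @tail c d _ hc ih =>
        rcases ih with k | ⟨t, t1, t2⟩
        · exact Or.inl k
        obtain ⟨rfl, hc⟩ := hc
        by_cases k : M.Dd x (M.st 2 c)
        · have e1 := (ss2 c).1 (hc.2 k)
          have e2 : M.st 3 (M.st 2 c) = c := by
            rw [st3, show 4 * M.st 2 c + 3 = M.lk (4 * c + 2) by rw [st2]; omega, h.inv]
            omega
          refine Or.inr ⟨t + 1, fun s e => ?_, by rw [Cm.wk_succ', e2]; exact t2⟩
          cases s with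
          | zero => exact k
          | succ s => rw [Cm.wk_succ', e2]; exact t1 s (by omega)
        · have e1 : ¬M.lk (4 * c + 2) % 4 = 3 := fun e => k (hc.1 ((ss2 c).2 e))
          have e2 := h.par (4 * c + 2)
            (by rw [show (4 * c + 2) / 4 = c by omega]; exact hD.al _ (t1 0 (Nat.zero_le _)))
          exact Or.inl ⟨c, t, by omega, k, t1, t2⟩
    rcases key g hs with k | ⟨t, t1, -⟩
    · exact absurd (Or.inr (Or.inr k)) hn
    · exact absurd (t1 0 (Nat.zero_le _)) h2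
  · exact k

end FG0a

open FG0a in
theorem fG0a : S_Walk → S_Reg → S_Dead → S_Wall → S_G0a := by
  intro sK sR sD hW M h z x p hx hn hp hq
  have hK := sK M h
  have hR := sR M h
  have hD := sD M h x hx
  refine ⟨fun e1 e2 => ?_, fun e1 e2 => ?_⟩
  · have e : 4 * (M.lk p / 4) + 2 = M.lk p := by omega
    exact wall hR hD hW h hx hn (by rw [e, h.inv]; exact e1) hq (by rw [st2, e, h.inv]; exact hp)
  have e : 4 * (p / 4) + 2 = p := by omega
  obtain ⟨⟨o, r, hr, ho⟩, -⟩ := hR.run 3 3 (p / 4) (M.lk p / 4) (Or.inr rfl)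
    ⟨hD.al _ hp, by
      show M.lk (4 * (p / 4) + 2) = 4 * (M.lk p / 4) + 1
      rw [e]
      omega⟩
  have key : ∀ c, M.Run 3 2 (p / 4) c → M.Cap x 2 (p / 4) ∨ ∃ t, M.wk 3 (p / 4) t = c ∧
      (∀ s ≤ t, M.Dd x (M.wk 3 (p / 4) s)) ∧ M.Pa 2 c (p / 4) := by
    intro c hc
    induction hc with
    | refl => exact Or.inr ⟨0, rfl, fun s e => by rw [Nat.le_zero.1 e]; exact hp, Cm.Pa.refl _ _⟩
    | @tail c d _ hc ih =>
      rcases ih with k | ⟨t, t0, t1, t2⟩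
      · exact Or.inl k
      obtain ⟨rfl, hc⟩ := hc
      have dc : M.Dd x c := t0 ▸ t1 t le_rfl
      have a1 := ss3 c hc
      have a2 := h.par (4 * c + 3) (by rw [show (4 * c + 3) / 4 = c by omega]; exact hD.al _ dc)
      have a3 : 4 * M.st 3 c + 2 = M.lk (4 * c + 3) := by rw [FG0a.st3]; omega
      have a4 : M.st 2 (M.st 3 c) = c := by rw [st2, a3, h.inv]; omega
      have a5 : M.Pa 2 (M.st 3 c) (p / 4) := Cm.Pa.trans ⟨1, a4⟩ t2
      by_cases k : M.Dd x (M.st 3 c)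
      · refine Or.inr ⟨t + 1, by rw [Cm.wk_succ, t0], fun s e => ?_, a5⟩
        rcases Nat.lt_or_ge s (t + 1) with l | l
        · exact t1 s (by omega)
        · rw [show s = t + 1 by omega, Cm.wk_succ, t0]
          exact k
      · obtain ⟨c1, c2⟩ := wall hR hD hW h hx hn (g := M.st 3 c) (by rw [a3, h.inv]; omega) k
          (by rw [a4]; exact dc)
        exact Or.inl ⟨hK.rn_pa _ _ _ c1 a5, fun y hy => c2 y (a5.trans hy)⟩
  rcases key r hr with k | ⟨t, t0, t1, -⟩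
  · exact k
  · have ho' : M.lk (4 * r + 3) = 4 * o + 0 := ho
    refine absurd (Or.inr (Or.inr
      ⟨p / 4, t, by rw [e]; exact e2, by rw [st2, e]; exact hq, t1, ?_⟩)) hn
    rw [t0, ho']
    omega

end Pool.Agent.MP_1a6d78_lc.PS

end MrgPart4

-- ======== part 5: formerly Pool.Agent.MP_1a6d78_lc.PS.FG1
section MrgPart5

/-! PROJECT PSC, row G1. -/

namespace Pool.Agent.MP_1a6d78_lc.PS

open Cm

namespace FG1

variable {M : Cm} {z x y : ℕ}

/-- The setting. -/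
structure St (M : Cm) (z x y : ℕ) : Prop where
  ok : M.Ok
  w : WalkK M
  r : RegK M
  d : DeadK M x
  nt : ¬M.NT z x
  dy : M.Dd x y
  cr : M.Crit (4 * y + 2)
  g0 : ∀ p, M.Dd x (p / 4) → ¬M.Dd x (M.lk p / 4) → ∃ t, (t = 2 ∨ t = 3) ∧
    ((p % 4 = t ∧ M.Cap x t (p / 4)) ∨ (M.lk p % 4 = t ∧ M.Cap x t (M.lk p / 4)))

theorem co_st (i c y : ℕ) : M.Co i (M.st i c) y ↔ M.Co i c y :=
  ⟨fun k => (Pa.step i c).co.trans k, fun k => (Pa.step i c).co.symm.trans k⟩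

theorem kd4 {a b : ℕ} (k : M.Kd 4 a b) : M.Kd 0 a b := k

namespace St

variable (h : St M z x y)

include h

theorem kd {c : ℕ} (k : M.Pa 2 y c) : M.Kd 2 2 c ∧ M.Kd 3 2 c := by
  have a := h.d.al y h.dy
  have k1 := ((h.r.crit_kd y 2 (by norm_num) a h.cr).2.2 c).1.2 k
  have k2 := h.r.crit_kd c 2 (by norm_num) (k.al h.ok a) ((h.r.crit _ _ k1).1 h.cr)
  exact ⟨k2.1, k2.2.1⟩

theorem nr {c t : ℕ} (k : M.Pa 2 y c) (ht : t = 2 ∨ t = 3) : ¬M.Rng t c := by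
  have a := (h.r.crit_kd y 2 (by norm_num) (h.d.al y h.dy) h.cr).2.2
  rcases ht with rfl | rfl
  · rintro ⟨-, -, u, k1, k2⟩
    exact absurd (k2.uniq h.ok (h.kd (k.trans k1)).1) (by norm_num)
  · rintro ⟨-, ⟨u, k1, k2⟩, -⟩
    have k3 := (a u).1.1 ((a u).2.2 (((a c).2.1 ((a c).1.2 k)).trans k1))
    exact absurd (k2.uniq h.ok (h.kd k3).2) (by norm_num)

theorem dead_pa {c : ℕ} (k : M.Pa 2 c y) : M.Dd x c := by
  obtain ⟨t, e⟩ := k
  induction t generalizing c with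
  | zero => exact (show c = y from e) ▸ h.dy
  | succ t ih =>
    have k1 : M.Dd x (M.lk (pt c 2) / 4) := ih e
    have k : M.Pa 2 c y := ⟨_, e⟩
    by_contra k2
    have e1 : M.lk (M.lk (pt c 2)) = pt c 2 := h.ok.inv _
    obtain ⟨s, hs, ⟨k3, k4⟩ | ⟨k3, k4⟩⟩ := h.g0 _ k1 (by rwa [e1, pt_div])
    · have p := h.ok.par _ (h.d.al _ k1)
      rw [e1] at p
      have p2 := pt_mod c 2
      obtain rfl : s = 3 := by omega
      have e2 : pt (M.lk (pt c 2) / 4) 3 = M.lk (pt c 2) := by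
        have : ∀ q, q % 4 = 3 → pt (q / 4) 3 = q := fun q _ => by unfold pt; omega
        exact this _ k3
      have e3 : M.st 3 (M.lk (pt c 2) / 4) = c := by rw [Cm.st, e2, e1, pt_div]
      refine k2 ((k4.2 c ⟨1, e3⟩).2 ⟨_, k4.1.1, e3, ?_⟩)
      rw [Cm.ss, e2, e1, sd, pt_mod]
      rfl
    · rw [e1, pt_mod] at k3
      rw [e1, pt_div] at k4
      subst k3
      exact h.nr (k4.1.1.pa h.ok k).2 hs k4.1

theorem dead {c : ℕ} (k : M.Co 2 c y) : M.Dd x c :=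
  h.dead_pa (k.pa h.ok ((h.kd (Pa.refl 2 y)).1.per h.ok))

theorem sad {e w : ℕ} (he : e = 1 ∨ e = 3) (k : M.Co 2 w y) (k1 : M.Prb (pt w (2 + e + 2)))
    (k2 : M.lk (pt w (2 + e + 2)) % 4 = 2) : False := by
  refine h.nt (Or.inr (Or.inl ⟨w, h.dead k, ?_⟩))
  rcases he with rfl | rfl
  · have := ((h.r.prb_up _ (by rw [k2]; unfold pt; omega)).1 k1).2
    rw [show r3 (pt w (2 + 1 + 2)) = 4 * w by unfold r3 pt; omega] at this
    exact Or.inl this
  · exact Or.inr (Or.inr ((h.r.prb_dn _ (by rw [k2]; unfold pt; omega)).1 k1).2)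

theorem up (hB : S_Bas) {b : ℕ} (k : M.Dd x b) : M.Co 2 (M.st 0 b) y ↔ M.Co 2 b y := by
  by_contra k1
  have a := h.d.al b k
  have e1 := (h.w.back 0 b a).2
  obtain ⟨e, he, k2, k3⟩ : ∃ e, (e = 1 ∨ e = 3) ∧ M.Cfg 2 e (M.st 0 b) b ∧
      ¬M.Kd (2 + 2) (sd (2 + 2) (2 + e + 2)) b := by
    rcases ss_cases (M := M) 0 b with e2 | e2 <;> rw [e2] at e1
    · exact ⟨3, Or.inr rfl, ⟨h.ok.al_st 0 a, e1⟩, fun k4 => (h.d.cyc b k).2.2.1 (kd4 k4)⟩
    · exact ⟨1, Or.inl rfl, ⟨h.ok.al_st 0 a, e1⟩, fun k4 =>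
        (h.d.cyc _ (h.d.up b k).1).2.2.1 ⟨b, (kd4 k4).per h.ok, rfl, e2⟩⟩
  obtain ⟨e', a', b', g, u, he', -, -, ⟨r, -, f1⟩, f2, f3, f4, f5⟩ :=
    hB M h.ok (fun c => M.Co 2 c y) 2 e _ b he (fun c => co_st 2 c y) k2 k3 k1
  by_cases k4 : M.Co 2 u y
  · exact h.sad he' k4 f5 f2.2
  · refine h.sad he' (by_contra fun k5 => f3 (iff_of_false k5 k4)) f4 ?_
    rw [← f1, h.ok.inv, pt_mod]

theorem co (hB : S_Bas) {c : ℕ} (k : M.Dd x c) : M.Co 2 c y := by
  have key : ∀ t c, M.Dd x c → (M.Co 2 (M.wk 0 c t) y ↔ M.Co 2 c y) := fun t => by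
    induction t with
    | zero => exact fun _ _ => Iff.rfl
    | succ t ih => exact fun c k => (ih _ (h.d.up c k).1).trans (h.up hB k)
  obtain ⟨s, e⟩ := (h.d.co c k).1
  obtain ⟨t, f⟩ := (h.d.co y h.dy).1
  rw [← key s c k, e, ← f, key t y h.dy]
  exact Co.refl 2 y

theorem cap (hB : S_Bas) {t v : ℕ} (ht : t = 2 ∨ t = 3) (k : M.Cap x t v) : False := by
  obtain ⟨⟨p, ⟨a, a1, a2⟩, b, b1, b2⟩, k2⟩ := id k
  rcases ht with rfl | rfl
  · have k3 := (h.co hB ((k2 a a1).2 a2)).symm.pa h.ok (a2.per h.ok)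
    exact h.nr k3 (Or.inl rfl) (h.w.rn_pa _ _ _ k.1 a1)
  · have key : ∀ t c, M.Pa 3 v c → M.Dd x (M.wk 3 c t) → M.Dd x c := fun t => by
      induction t with
      | zero => exact fun _ _ k => k
      | succ t ih =>
        intro c k3 k4
        have k5 := k3.trans (Pa.step 3 c)
        have k6 := ih _ k5 k4
        have k7 := (p.pa h.ok k3).1
        have e : M.ss 3 c = 2 := Kd.uniq h.ok ⟨c, k7, rfl, rfl⟩ ((k2 _ k5).1 k6)
        have e1 := (h.w.back 3 c k7.1).1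
        rw [e] at e1
        refine h.dead ?_
        rw [← e1]
        exact (co_st 2 _ y).2 (h.co hB k6)
    obtain ⟨s, e⟩ := (p.pa h.ok a1).2.trans b1
    have k3 := (k2 a a1).1 (key s a a1 (e ▸ (k2 b b1).2 b2))
    exact absurd (k3.uniq h.ok a2) (by norm_num)

end St

end FG1

theorem fG1 : S_Walk → S_Reg → S_Dead → S_Bas → S_G0 → S_G1 := by
  intro hW hR hD hB hG M ok z x y hx hn hy hc p hp
  have h : FG1.St M z x y :=
    ⟨ok, hW M ok, hR M ok, hD M ok x hx, hn, hy, hc, fun p => hG M ok z x p hx hn⟩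
  by_contra k
  obtain ⟨t, ht, ⟨-, k1⟩ | ⟨-, k1⟩⟩ := h.g0 p hp k
  exacts [h.cap hB ht k1, h.cap hB ht k1]

end Pool.Agent.MP_1a6d78_lc.PS

end MrgPart5

-- ======== part 6: formerly Pool.Agent.MP_1a6d78_lc.PS.FMir
section MrgPart6

/-! PROJECT PSC: the mirror keeps the kill of type 0. -/

namespace Pool.Agent.MP_1a6d78_lc.PS

open PR PL

namespace FMir

open Ct

variable {M : Cm} {x c z : ℕ}

theorem ts0 (c : ℕ) : ts 5 (4 * c) = 4 * c := by unfold ts fs; split_ifs <;> omega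

theorem ts1 (c : ℕ) : ts 5 (4 * c + 1) = 4 * c + 3 := by unfold ts fs; split_ifs <;> omega

theorem ts2 (c : ℕ) : ts 5 (4 * c + 2) = 4 * c + 2 := by unfold ts fs; split_ifs <;> omega

theorem ts3 (c : ℕ) : ts 5 (4 * c + 3) = 4 * c + 1 := by unfold ts fs; split_ifs <;> omega

theorem back (M : Cm) : (M.tw 5).tw 5 = M := tw_tw (g := 5) (by omega) M

theorem top (H : M.Ok) (h : M.Top x) : (M.tw 5).Top x :=
  ⟨by rw [tw_al H (by omega)]; exact h.1, (tw_crit H (by omega)).2 (by rw [ts0]; exact h.2)⟩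

theorem dd0 (H : M.Ok) (h : M.Dd x c) : (M.tw 5).Dd x c := by
  induction h with
  | top k => exact .top ((tw_rg H (by omega)).2 (by rwa [ts0, ts0]))
  | step k _ ih =>
    obtain ⟨u, k⟩ := k
    refine .step ⟨u, (tw_rg H (by omega)).2 (by rwa [ts0, ts2])⟩ fun v w => ih v ?_
    have := (tw_rg H (by omega)).1 w
    rwa [ts0, ts2] at this

theorem dd (H : M.Ok) : (M.tw 5).Dd x c ↔ M.Dd x c :=
  ⟨fun h => by have := dd0 (tw_ok H (by omega)) h; rwa [back] at this, dd0 H⟩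

theorem wk_succ (M : Cm) (i c t : ℕ) : M.wk i c (t + 1) = M.st i (M.wk i c t) :=
  Function.iterate_succ_apply' _ _ _

theorem lk5 (p : ℕ) : fp 5 ((M.tw 5).lk p) = M.lk (tp 5 p) % 4 := by
  rw [← tw_lk (by omega), tp_mod]

theorem hop (H : M.Ok) (K : DeadK M x) (h : M.Hop x) : (M.tw 5).Hop x := by
  classical
  obtain ⟨c, t, h1, h2, h3, h4⟩ := h
  have ex : ∃ t, M.lk (4 * M.wk 3 c t + 3) % 4 = 0 := ⟨t, h4⟩
  have le : Nat.find ex ≤ t := Nat.find_le h4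
  have e0 := Nat.find_spec ex
  have mn : ∀ s < Nat.find ex, M.lk (4 * M.wk 3 c s + 3) % 4 ≠ 0 := fun s k => Nat.find_min ex k
  generalize Nat.find ex = n at le e0 mn
  have p3 : ∀ d, pt d 3 = 4 * d + 3 := fun d => rfl
  have p2 : ∀ d, pt d 2 = 4 * d + 2 := fun d => rfl
  have r : ∀ d, r4 (4 * d + 2) = 4 * d + 3 ∧ r4 (4 * d) = 4 * d + 1 := fun d => by
    unfold r4
    omega
  have lk : ∀ s < n, M.lk (4 * M.wk 3 c s + 3) = 4 * M.wk 3 c (s + 1) + 2 := fun s k => by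
    have i1 := mn s k
    have i2 := H.par (4 * M.wk 3 c s + 3) (by
      rw [show (4 * M.wk 3 c s + 3) / 4 = M.wk 3 c s by omega]
      exact K.al _ (h3 s (by omega)))
    rw [wk_succ, Cm.st, p3]
    omega
  have bk : ∀ s ≤ n, M.wk 2 (M.wk 3 c n) s = M.wk 3 c (n - s) := by
    intro s
    induction s with
    | zero => exact fun _ => rfl
    | succ s ih =>
      intro k
      rw [wk_succ, ih (by omega), show n - s = n - (s + 1) + 1 by omega, Cm.st, p2,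
        ← lk _ (by omega), H.inv]
      omega
  have rg : ∀ s ≤ n, M.Rg (4 * M.st 2 c) (4 * M.wk 3 c s + 2) := by
    intro s
    induction s with
    | zero =>
      intro _
      have := rg_nr M (4 * M.st 2 c)
      rwa [Cm.nr, (r _).2, show 4 * M.st 2 c + 1 = M.lk (4 * c + 2) by
        rw [Cm.st, p2]; omega, H.inv] at this
    | succ s ih =>
      intro k
      have := rg_trans (ih (by omega)) (rg_nr M _)
      rwa [Cm.nr, (r _).1, lk s (by omega)] at this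
  have f2 : fp 5 2 = 3 := rfl
  have f3 : fp 5 3 = 2 := rfl
  refine ⟨M.wk 3 c n, n, ?_, ?_, fun s k => ?_, ?_⟩
  · have := lk5 (M := M) (4 * M.wk 3 c n + 2)
    rw [← p2, tp_pt, f2, p3, p2, e0] at this
    unfold fp at this
    split_ifs at this <;> omega
  · rw [dd H, tw_st (by omega), f2]
    intro k
    have := rg_trans (rg n le_rfl) (rg_nr M _)
    rw [Cm.nr, (r _).1, show M.lk (4 * M.wk 3 c n + 3) = 4 * M.st 3 (M.wk 3 c n) by
      rw [Cm.st, p3]; omega] at this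
    exact h2 (K.out _ _ k (rg_symm H this))
  · rw [dd H, tw_wk (by omega), f3, bk s k]
    exact h3 _ (by omega)
  · rw [tw_wk (by omega), f3, bk n le_rfl, Nat.sub_self, show M.wk 3 c 0 = c from rfl]
    have := lk5 (M := M) (4 * c + 3)
    rw [← p3, tp_pt, f3, p2, p3, h1] at this
    unfold fp at this
    split_ifs at this <;> omega

theorem nt (H : M.Ok) (K : DeadK M x) (h : M.NT z x) : (M.tw 5).NT z x := by
  rcases h with h | ⟨c, h, k⟩ | h
  · exact Or.inl (dd0 H h)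
  · refine Or.inr (Or.inl ⟨c, dd0 H h, ?_⟩)
    rw [tw_sad H (by omega), tw_sad H (by omega), tw_sad H (by omega), ts0, ts1, ts3]
    tauto
  · exact Or.inr (Or.inr (hop H K h))

end FMir

theorem fMir (_ : S_Walk) (_ : S_Reg) (hD : S_Dead) (_ : S_Tw) : S_Mir := fun M H x h =>
  ⟨FMir.top H h, fun _ => FMir.dd H, fun _ => ⟨fun k => by
    have H' := Ct.tw_ok H (g := 5) (by omega)
    have := FMir.nt H' (hD _ H' x (FMir.top H h)) k
    rwa [FMir.back] at this, FMir.nt H (hD M H x h)⟩⟩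

end Pool.Agent.MP_1a6d78_lc.PS

end MrgPart6

-- ======== part 7: formerly Pool.Agent.MP_1a6d78_lc.PS.FPC
section MrgPart7

namespace Pool.Agent.MP_1a6d78_lc.PS

open Classical ED PR PL Relation Cm

namespace FPC

theorem closed {M : Cm} {W : ℕ → Prop} {i : ℕ} (h : ∀ c, W c → W (M.st i c)) {a b : ℕ}
    (p : M.Pa i a b) (ha : W a) : W b := by
  obtain ⟨t, rfl⟩ := p
  induction t with
  | zero => exact ha
  | succ t ih => rw [wk_succ]; exact h _ ih

theorem enter {M : Cm} {W : ℕ → Prop} {i a b : ℕ} (p : M.Pa i a b) (ha : ¬W a) (hb : W b) :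
    ∃ c, M.Pa i a c ∧ ¬W c ∧ W (M.st i c) := by
  obtain ⟨t, rfl⟩ := p
  induction t with
  | zero => exact absurd hb ha
  | succ t ih =>
    by_cases h : W (M.wk i a t)
    · exact ih h
    · exact ⟨_, Pa.wk _ _ _, h, by rwa [wk_succ] at hb⟩

end FPC

theorem fPC : S_Walk → S_Reg → S_Dead → S_CutEx → S_CutW → S_CutR → S_PE → S_Om → S_PC := by
  intro hW hR hD hE hCW hCR hPE hO M H z v ⟨hv, M', W, H', hc, clo, cln, wy, nt⟩
  have w := hW M H
  have rs := ((hE M H).2 0 (by omega) v hv).1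
  have K := hCW M M' _ H H' rs hc
  have C := hCR M M' _ H H' rs hc
  have pv := hv.1
  obtain ⟨y1, py1, ky1⟩ := hv.2.1
  obtain ⟨y2, py2, ky2⟩ := hv.2.2
  obtain ⟨-, px, kx⟩ := w.fe_kd 0 v y1 0 pv py1 ky1
  obtain ⟨-, py, ky⟩ := w.fe_kd 0 v y2 3 pv py2 ky2
  have top : M'.Top (M.FE 0 v 0) :=
    ⟨(K.al _).2 (w.kd_per _ _ _ kx).1.1, (C.cor 0 0 _ ⟨rfl, px⟩ kx).1⟩
  have pe := hPE M' H' z _ top
  have cl : ∀ i a b, M'.Pa i a b → W a → W b := fun i a b p =>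
    FPC.closed (fun c hc' => clo (pt c i) (by rwa [pt_div])) p
  have bk : ∀ y, M.Pa 0 v y → M.Pa 0 y v := fun y p => (w.per_pa 0 v y pv p).2
  have tw : ∀ a y u, M.Pa 0 v y → M.Kd 0 a y → M.Pa 0 v u → M.Kd 0 a u → W y → W u :=
    fun a y u p k p' k' => cl 0 y u (((K.twin 0 a y ⟨rfl, p⟩ k).2.2 u).1.2 ⟨(bk y p).trans p', k'⟩)
  have out : ∀ y, M.Pa 0 v y → M.Kd 0 0 y → ¬W y := fun y p k h =>
    pe.2.2 W clo cln (tw 0 y _ p k px kx h) nt
  have o1 : ∀ t a c, M.One 0 v t c → M.Kd t a c → (1 = t ∨ 1 = ep t a) →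
      M.Pa 0 v c ∧ M.Kd 0 0 c := by
    rintro t a c ⟨rfl, p⟩ k e
    refine ⟨p, ?_⟩
    rcases (w.kd_per _ _ _ k).2 with rfl | rfl
    · exact k
    · exact absurd e (by decide)
  have ch : ∀ c, (M.Pa 0 v c ∧ M.Kd 0 0 c) ∨ M'.lk (pt c 1) = M.lk (pt c 1) := fun c => by
    by_cases h : ∃ t a, M.One 0 v t (pt c 1 / 4) ∧ M.Kd t a (pt c 1 / 4) ∧
        (pt c 1 % 4 = t ∨ pt c 1 % 4 = ep t a)
    · obtain ⟨t, a, r, k, e⟩ := h
      rw [pt_div] at r k
      rw [pt_mod] at e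
      exact Or.inl (o1 t a c r k e)
    · exact Or.inr (hc.off _ h)
  have c1 : ∀ c, W c → W (M.st 1 c) := fun c h => by
    rcases ch c with ⟨p, k⟩ | e
    · exact absurd h (out c p k)
    · have := clo (pt c 1) (by rwa [pt_div])
      rwa [e] at this
  have all : M.All v := by
    rintro p ⟨pb, par, u, pu, yu⟩
    by_cases h : W (p / 4)
    · by_cases r : M.One 0 v (p % 4) (p / 4)
      · exact Or.inl ⟨r.1, (w.per_pa 0 v _ pv r.2).1, (bk _ r.2).co⟩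
      · exact absurd h (cln.2 p ((C.prb p r).2 pb))
    · obtain ⟨c, pc, nc, wc⟩ := FPC.enter pu h (FPC.closed c1 yu wy)
      rcases ch c with ⟨p, k⟩ | e
      · exact Or.inr ⟨c, pc, k, (bk c p).co⟩
      · have := clo (M'.lk (pt c 1)) (by rw [e]; exact wc)
        rw [hc.inv, pt_div] at this
        exact absurd this nc
  have ring := (w.ring v).2 hv
  obtain ⟨om1, om2, -, -⟩ := hO M H v ring all
  have dk := hD M' H' _ top
  have d0 : ∀ c, M'.Dd (M.FE 0 v 0) c → M.Co 0 c v := fun c h => by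
    rcases K.walk 0 c _ (dk.co c h).1 with p | ⟨u, t, a, p, -, r, -⟩
    · exact (p.trans (bk _ px)).co
    · exact (p.trans (bk _ r.2)).co
  have d1 : ∀ c, M'.Dd (M.FE 0 v 0) c → M.Co 1 c (M.FE 0 v 3) := fun c h => by
    rcases K.walk 1 c _ (dk.co c h).2 with p | ⟨u, t, a, p, -, r, k, e⟩
    · exact p.co.trans (om2 _ ⟨kx, (bk _ px).co⟩)
    · obtain ⟨q, k'⟩ := o1 t a u r k e
      exact p.co.trans (om2 _ ⟨k', (bk _ q).co⟩)
  refine ⟨ring, ?_, all⟩
  rcases pe.1 nt with h | h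
  · exact Or.inr (d0 z h)
  obtain ⟨p, pb, dd, par⟩ := h 0
  left
  by_cases r : M.One 0 v (p % 4) (p / 4)
  swap
  · exact ⟨p, ⟨(C.prb p r).1 pb, par, d1 _ dd⟩, d0 _ dd⟩
  have pd := (w.per_pa 0 v _ pv r.2).1
  have kd : M.Kd 0 0 (p / 4) := by
    rcases w.kd_ex 0 _ pd with k | k
    · exact k
    · exact absurd (tw 3 _ _ py ky r.2 k wy) (cln.2 p pb)
  obtain ⟨-, p2, k2⟩ := w.fe_kd 0 _ _ 0 pd (Pa.refl _ _) kd
  have e := hc.ring 0 _ 0 ⟨rfl, r.2⟩ kd
  have e0 : pt (p / 4) 0 = p := by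
    have := r.1
    unfold pt
    omega
  rw [e0] at e
  set d := M.FE 0 (p / 4) 0 with hd
  have b1 : M.Prb (pt d (ep 0 0)) := by
    refine (C.prb _ fun h => ?_).1 (by rw [← e]; exact ((hR M' H').prb_lk p).2 pb)
    have := h.1
    rw [pt_mod] at this
    revert this
    decide
  obtain ⟨-, m0, pe'⟩ := (w.kd_iff 0 0 d).1 k2
  have e1 : pt (M.lk (pt d (ep 0 0)) / 4) 0 = M.lk (pt d (ep 0 0)) := by
    unfold pt at m0 ⊢
    omega
  have s1 : M.st 0 (M.lk (pt d (ep 0 0)) / 4) = d := by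
    unfold Cm.st
    rw [e1, H.inv, pt_div]
  have co : M.Co 0 (M.lk (pt d (ep 0 0)) / 4) v := by
    have := Pa.step (M := M) 0 (M.lk (pt d (ep 0 0)) / 4)
    rw [s1] at this
    exact (this.trans (bk _ (r.2.trans p2))).co
  refine ⟨_, ⟨((hR M H).prb_lk _).2 b1, by omega, ?_⟩, co⟩
  rcases w.kd_ex 0 _ pe' with k | k
  · exact om2 _ ⟨k, co⟩
  · exact (om1 _ _ (Pa.refl _ _) ⟨k, co⟩).1

end Pool.Agent.MP_1a6d78_lc.PS

end MrgPart7

-- ======== part 8: formerly Pool.Agent.MP_1a6d78_lc.PS.FPE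
section MrgPart8

/-! PROJECT PSC, row PE: probes and kills that pay. -/

namespace Pool.Agent.MP_1a6d78_lc.PS

open Classical ED PR PL Relation

namespace FPE

variable {M : Cm} {x : ℕ}

/-- Both ends of a saddle link give both parities. -/
theorem both (ok : M.Ok) (R : RegK M) {p : ℕ} (hp : M.Prb p) (h1 : M.Dd x (p / 4))
    (h2 : M.Dd x (M.lk p / 4)) (q : ℕ) : ∃ p, M.Prb p ∧ M.Dd x (p / 4) ∧ p % 2 = q % 2 := by
  have := ok.par p hp.1
  by_cases e : p % 2 = q % 2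
  · exact ⟨p, hp, h1, e⟩
  · exact ⟨M.lk p, (R.prb_lk p).2 hp, h2, by omega⟩

theorem nr2 (c : ℕ) : M.nr (4 * c + 2) = M.lk (4 * c + 3) := by
  unfold Cm.nr r4
  congr 1
  omega

theorem nr0 (c : ℕ) : M.nr (4 * c) = M.lk (4 * c + 1) := by
  unfold Cm.nr r4
  congr 1
  omega

theorem st_eq (i c : ℕ) (hi : i < 4) : M.st i c = M.lk (4 * c + i) / 4 := by
  unfold Cm.st pt
  rw [Nat.mod_eq_of_lt hi]

theorem hop (ok : M.Ok) (R : RegK M) (D : DeadK M x) (h : M.Hop x) (q : ℕ) :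
    ∃ p, M.Prb p ∧ M.Dd x (p / 4) ∧ p % 2 = q % 2 := by
  obtain ⟨c, t0, h1, h2, h3, h4⟩ := h
  have hex : ∃ t, M.lk (4 * M.wk 3 c t + 3) % 4 = 0 := ⟨t0, h4⟩
  obtain ⟨t, ht, hmin⟩ : ∃ t, M.lk (4 * M.wk 3 c t + 3) % 4 = 0 ∧
      ∀ s < t, M.lk (4 * M.wk 3 c s + 3) % 4 ≠ 0 :=
    ⟨Nat.find hex, Nat.find_spec hex, fun s hs => Nat.find_min hex hs⟩
  have hle : t ≤ t0 := not_lt.1 fun a => hmin t0 a h4
  have hd : ∀ s ≤ t, M.Dd x (M.wk 3 c s) := fun s hs => h3 s (hs.trans hle)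
  have hw : ∀ s ≤ t, M.nr^[s] (4 * c + 2) = 4 * M.wk 3 c s + 2 := by
    intro s hs
    induction s with
    | zero => rfl
    | succ s ih =>
      have a := hmin s hs
      have b := ok.par (4 * M.wk 3 c s + 3) (by
        rw [show (4 * M.wk 3 c s + 3) / 4 = M.wk 3 c s by omega]
        exact D.al _ (hd s (by omega)))
      have e : M.wk 3 c (s + 1) = M.lk (4 * M.wk 3 c s + 3) / 4 := by
        rw [← st_eq 3 _ (by omega)]
        exact Function.iterate_succ_apply' _ _ _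
      rw [Function.iterate_succ_apply', ih (by omega), nr2, e]
      omega
  have hc : M.Dd x c := hd 0 (Nat.zero_le _)
  have hrg : M.Rg (4 * c + 2) (4 * M.wk 3 c t + 2) := ⟨t, hw t le_rfl⟩
  have halt : M.Alt (4 * M.wk 3 c t + 2) := by
    unfold Cm.Alt
    rw [nr2]
    omega
  have hf : M.nr (4 * M.st 2 c) = 4 * c + 2 := by
    rw [nr0, st_eq 2 c (by omega), show 4 * (M.lk (4 * c + 2) / 4) + 1 = M.lk (4 * c + 2) by omega,
      ok.inv]
  have hinj : Function.Injective M.nr := R.inj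
  have hs : M.Sad (4 * c + 2) := by
    by_contra hs
    refine h2 (.step ⟨c, 1, hf⟩ fun u ⟨j, hj⟩ => ?_)
    have hcu : M.Rg (4 * c + 2) (4 * u + 2) := by
      obtain ⟨i, hi⟩ := R.symm _ _ ⟨1, hf⟩
      exact ⟨j + i, by rw [Function.iterate_add_apply, hi, hj]⟩
    have hex' : ∃ k, M.Alt (M.nr^[k] (4 * u + 2)) := by
      obtain ⟨i, hi⟩ := R.symm _ _ hcu
      exact ⟨t + i, by rwa [Function.iterate_add_apply, hi, hw t le_rfl]⟩
    obtain ⟨k, hk, hkm⟩ : ∃ k, M.Alt (M.nr^[k] (4 * u + 2)) ∧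
        ∀ s < k, ¬M.Alt (M.nr^[s] (4 * u + 2)) :=
      ⟨Nat.find hex', Nat.find_spec hex', fun s hs => Nat.find_min hex' hs⟩
    have hty : ∀ s ≤ k, M.nr^[s] (4 * u + 2) % 4 = 2 := by
      intro s hs
      induction s with
      | zero => show (4 * u + 2) % 4 = 2; omega
      | succ s ih =>
        rw [Function.iterate_succ_apply', not_not.1 (hkm s hs), ih (by omega)]
    have he : M.nr^[k] (4 * u + 2) = M.nr^[t] (4 * c + 2) := by
      by_contra hne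
      obtain ⟨i, hi⟩ := hcu
      refine hs ⟨_, _, ⟨k + i, by rw [Function.iterate_add_apply, hi]⟩, ⟨t, rfl⟩, hne, hk,
        by rwa [hw t le_rfl], ?_⟩
      rw [hty k le_rfl, hw t le_rfl]
      omega
    rcases le_or_gt k t with a | a
    · obtain ⟨d, rfl⟩ := Nat.exists_eq_add_of_le a
      rw [Function.iterate_add_apply] at he
      have := (hinj.iterate k he).trans (hw d (by omega))
      rw [show u = M.wk 3 c d by omega]
      exact hd d (by omega)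
    · obtain ⟨d, rfl⟩ := Nat.exists_eq_add_of_lt a
      rw [Nat.add_assoc, Function.iterate_add_apply] at he
      have := hinj.iterate t he
      rw [Function.iterate_succ_apply', ← hf] at this
      have h5 := hty d (by omega)
      rw [hinj this] at h5
      omega
  by_cases e : q % 2 = 0
  · have e1 : (4 * c + 2) / 4 = c := by omega
    exact ⟨4 * c + 2, (R.prb_dn _ (by omega)).2 ⟨e1.symm ▸ D.al _ hc, hs⟩, e1.symm ▸ hc, by omega⟩
  · have e1 : (4 * M.wk 3 c t + 3) / 4 = M.wk 3 c t := by omega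
    have e2 : r3 (4 * M.wk 3 c t + 3) = 4 * M.wk 3 c t + 2 := by unfold r3; omega
    exact ⟨4 * M.wk 3 c t + 3, (R.prb_up _ (by omega)).2 ⟨e1.symm ▸ D.al _ (hd t le_rfl),
      e2.symm ▸ (R.sad _ _ hrg).1 hs⟩, e1.symm ▸ hd t le_rfl, by omega⟩

theorem top (ok : M.Ok) (R : RegK M) (D : DeadK M x) {o o' : ℕ} (h : M.lk (4 * o' + 1) = 4 * o)
    (h1 : M.Dd x o) (h2 : M.Dd x o') (hs : M.Sad (4 * o' + 1)) (q : ℕ) :
    ∃ p, M.Prb p ∧ M.Dd x (p / 4) ∧ p % 2 = q % 2 := by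
  have e1 : (4 * o' + 1) / 4 = o' := by omega
  have e2 : M.lk (4 * o' + 1) / 4 = o := by omega
  exact both ok R ((R.prb_dn _ (by omega)).2 ⟨e1.symm ▸ D.al _ h2, hs⟩) (e1.symm ▸ h2)
    (e2.symm ▸ h1) q

theorem one (ok : M.Ok) (R : RegK M) (D : DeadK M x) {z : ℕ} (h : M.NT z x) :
    M.Dd x z ∨ ∀ q, ∃ p, M.Prb p ∧ M.Dd x (p / 4) ∧ p % 2 = q % 2 := by
  rcases h with h | ⟨c, hc, h | h | h⟩ | h
  · exact Or.inl h
  · have e0 : 4 * c / 4 = c := by omega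
    obtain ⟨y, -, ⟨j, hj⟩, -, -, ha, -, hy, -⟩ :=
      R.sad2 (4 * c) (e0.symm ▸ D.al _ hc) h 2 (by omega)
    obtain ⟨u, rfl⟩ : ∃ u, y = 4 * u + 2 := ⟨y / 4, by omega⟩
    have hu := D.inc c u hc ⟨j, hj⟩
    have e1 : (4 * u + 3) / 4 = u := by omega
    have e2 : r3 (4 * u + 3) = 4 * u + 2 := by unfold r3; omega
    have b := ok.par (4 * u + 3) (e1.symm ▸ D.al _ hu)
    unfold Cm.Alt at ha
    rw [nr2] at ha
    refine Or.inr (both ok R ((R.prb_up (4 * u + 3) (by omega)).2 ⟨e1.symm ▸ D.al _ hu,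
      e2.symm ▸ (R.sad _ _ ⟨j, hj⟩).1 h⟩) (e1.symm ▸ hu) (D.out c _ hc ⟨j + 1, ?_⟩))
    rw [Function.iterate_succ_apply', hj, nr2]
    omega
  · obtain ⟨o, o', -, a, b, d, e⟩ := D.top1 c hc
    exact Or.inr (top ok R D a b d ((R.sad _ _ e).1 h))
  · obtain ⟨o, o', -, a, b, d, e⟩ := D.top3 c hc
    exact Or.inr (top ok R D (by rw [← a, ok.inv]) b d ((R.sad _ _ e).1 h))
  · exact Or.inr (hop ok R D h)

theorem up (R : RegK M) {z p : ℕ} (hp : M.Prb p) (h : M.lk p % 4 = (p + 1) % 4)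
    (h1 : M.Dd x (p / 4)) (h2 : M.Dd x (M.lk p / 4)) : M.NT z x := by
  have a := ((R.prb_up p h).1 hp).2
  have b := (R.sad _ _ (R.fw p)).1 a
  refine Or.inr (Or.inl ?_)
  by_cases e : M.lk p % 4 = 2
  · exact ⟨_, h1, Or.inl (by rwa [show 4 * (p / 4) = r3 p by unfold r3; omega])⟩
  refine ⟨_, h2, ?_⟩
  rcases (by omega : M.lk p % 4 = 0 ∨ M.lk p % 4 = 1 ∨ M.lk p % 4 = 3) with e | e | e
  · exact Or.inl (by rwa [show 4 * (M.lk p / 4) = M.lk p by omega])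
  · exact Or.inr (Or.inl (by rwa [show 4 * (M.lk p / 4) + 1 = M.lk p by omega]))
  · exact Or.inr (Or.inr (by rwa [show 4 * (M.lk p / 4) + 3 = M.lk p by omega]))

end FPE

open FPE in
theorem fPE : S_Walk → S_Reg → S_Dead → S_PE := by
  intro _ hR hD M ok z x hx
  have R := hR M ok
  have D := hD M ok x hx
  refine ⟨one ok R D, fun h hc => ⟨fun a => h (Or.inl a), fun p hp a => h ?_⟩,
    fun W hW hz hx' h => ?_⟩
  · have := ok.par p hp.1
    by_cases e : M.lk p % 4 = (p + 1) % 4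
    · exact up R hp e a (hc p a)
    · exact up R ((R.prb_lk p).2 hp) (by rw [ok.inv]; omega) (hc p a) (by rwa [ok.inv])
  · have key : ∀ t c, W (M.wk 0 c t) → W c := by
      intro t
      induction t with
      | zero => exact fun c a => a
      | succ t ih =>
        intro c a
        have := hW _ (show W (M.lk (4 * c) / 4) from ih (M.st 0 c) a)
        rwa [ok.inv, show 4 * c / 4 = c by omega] at this
    have sub : ∀ c, M.Dd x c → W c := fun c hc => by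
      obtain ⟨t, ht⟩ := (D.co c hc).1
      exact key t c (ht.symm ▸ hx')
    rcases one ok R D h with a | a
    · exact hz.1 (sub z a)
    · obtain ⟨p, hp, a, -⟩ := a 0
      exact hz.2 p hp (sub _ a)

end Pool.Agent.MP_1a6d78_lc.PS

end MrgPart8

-- ======== part 9: formerly Pool.Agent.MP_1a6d78_lc.PS.FPInj
section MrgPart9

/-! PROJECT PSC, row PINJ: two paying rings with the same inner cycle coincide. -/

namespace Pool.Agent.MP_1a6d78_lc.PS

open Classical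

namespace FPInj

variable {M M' : Cm} {W : ℕ → Prop} {z v : ℕ}

theorem clo_iff (ok : M'.Ok) (c : M'.Clo W) (p : ℕ) : W (p / 4) ↔ W (M'.lk p / 4) := by
  refine ⟨c p, fun h => ?_⟩
  have := c (M'.lk p) h
  rwa [ok.inv] at this

theorem off_step (ok : M'.Ok) (cut : M.Cutx M' (M.One 0 v)) (c : M'.Clo W) (i : ℕ) {x : ℕ}
    (h : ¬M.Pa 0 v x) : W x ↔ W (M.st i x) := by
  have e : M'.lk (pt x i) = M.lk (pt x i) := by
    refine cut.off _ ?_
    rintro ⟨t, a, hp, -⟩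
    have hq := hp.2
    rw [pt_div] at hq
    exact h hq
  have := clo_iff ok c (pt x i)
  rw [pt_div, e] at this
  exact this

theorem off_walk (ok : M'.Ok) (cut : M.Cutx M' (M.One 0 v)) (c : M'.Clo W) {x y : ℕ}
    (p : M.Pa 0 x y) (h : ¬M.Pa 0 v y) : W x ↔ W y := by
  obtain ⟨t, e⟩ := p
  induction t generalizing x with
  | zero => rw [← e]; rfl
  | succ t ih =>
    have hx : ¬M.Pa 0 v x := fun k => h (Cm.Pa.trans k ⟨t + 1, e⟩)
    exact (off_step ok cut c 0 hx).trans (ih e)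

theorem pa_clo (c : M'.Clo W) {i a b : ℕ} (h : M'.Pa i a b) (w : W a) : W b := by
  obtain ⟨t, rfl⟩ := h
  induction t with
  | zero => exact w
  | succ t ih =>
    rw [Cm.wk_succ]
    exact c (pt (M'.wk i a t) i) (by rwa [pt_div])

/-- The data of a paying ring. -/
structure Dat (M M' : Cm) (W : ℕ → Prop) (z v : ℕ) : Prop where
  rng : M.Rng 0 v
  ok : M'.Ok
  cut : M.Cutx M' (M.One 0 v)
  clo : M'.Clo W
  cln : M'.Cln z W
  inn : W (M.FE 0 v 3)
  nt : M'.NT z (M.FE 0 v 0)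

theorem outer (hW : S_Walk) (hX : S_CutEx) (hC : S_CutW) (hR : S_CutR) (hP : S_PE) (ok : M.Ok)
    (D : Dat M M' W z v) {y : ℕ} (p : M.Pa 0 v y) (k : M.Kd 0 0 y) : ¬W y := by
  intro w
  have K := hW M ok
  have rs := ((hX M ok).2 0 (by omega) v D.rng).1
  have C := hC M M' _ ok D.ok rs D.cut
  have R := hR M M' _ ok D.ok rs D.cut
  obtain ⟨-, px, kx⟩ := K.fe_kd 0 v y 0 D.rng.1 p k
  have al : M'.al (M.FE 0 v 0) := (C.al _).2 (K.kd_per _ _ _ kx).1.1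
  have cr : M'.Crit (4 * M.FE 0 v 0 + 0) := (R.cor 0 0 _ ⟨rfl, px⟩ kx).1
  have top : M'.Top (M.FE 0 v 0) := ⟨al, cr⟩
  have pyx : M.Pa 0 y (M.FE 0 v 0) := Cm.Pa.trans (K.per_pa 0 v y D.rng.1 p).2 px
  have q : M'.Pa 0 y (M.FE 0 v 0) := (((C.twin 0 0 y ⟨rfl, p⟩ k).2.2 _).1).2 ⟨pyx, kx⟩
  exact (hP M' D.ok z _ top).2.2 W D.clo D.cln (pa_clo D.clo q w) D.nt

theorem one_step (hW : S_Walk) (hX : S_CutEx) (hC : S_CutW) (hR : S_CutR) (hP : S_PE) (ok : M.Ok)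
    (D : Dat M M' W z v) {x : ℕ} (w : W x) : W (M.st 1 x) := by
  have e : M'.lk (pt x 1) = M.lk (pt x 1) := by
    refine D.cut.off _ ?_
    rintro ⟨t, a, hp, hk, hq⟩
    obtain ⟨rfl, hp⟩ := hp
    rw [pt_div] at hp hk
    rw [pt_mod] at hq
    have ha := ((hW M ok).kd_per _ _ _ hk).2
    have a0 : a = 0 := by
      unfold ep at hq
      rcases ha with ha | ha
      · omega
      · subst ha
        simp at hq
    subst a0
    exact outer hW hX hC hR hP ok D hp hk w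
  have := D.clo (pt x 1) (by rwa [pt_div])
  rw [e] at this
  exact this

theorem one_walk (hW : S_Walk) (hX : S_CutEx) (hC : S_CutW) (hR : S_CutR) (hP : S_PE) (ok : M.Ok)
    (D : Dat M M' W z v) (t : ℕ) : W (M.wk 1 (M.FE 0 v 3) t) := by
  induction t with
  | zero => exact D.inn
  | succ t ih =>
    rw [Cm.wk_succ]
    exact one_step hW hX hC hR hP ok D ih

theorem outside (hW : S_Walk) (hX : S_CutEx) (hR : S_CutR) (hQ : S_PC) (ok : M.Ok)
    (D : Dat M M' W z v) {v' : ℕ} (P : M.Pend z v') (n : ¬M.Pa 0 v v') : ¬W v' := by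
  intro w
  have K := hW M ok
  have rs := ((hX M ok).2 0 (by omega) v D.rng).1
  have R := hR M M' _ ok D.ok rs D.cut
  rcases (hQ M ok z v' P).cand with ⟨p, eg, co⟩ | co
  · have pa := (K.co_per 0 _ _ P.1.1).1 co
    have nr : ¬M.One 0 v (p % 4) (p / 4) := fun k => n (Cm.Pa.trans k.2 pa)
    exact D.cln.2 p ((R.prb p nr).2 eg.1) ((off_walk D.ok D.cut D.clo pa n).2 w)
  · have pa := (K.co_per 0 _ _ P.1.1).1 co
    exact D.cln.1 ((off_walk D.ok D.cut D.clo pa n).2 w)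

end FPInj

open FPInj in
theorem fPInj (hW : S_Walk) (_hG : S_Reg) (_hD : S_Dead) (hX : S_CutEx) (hC : S_CutW)
    (hR : S_CutR) (hP : S_PE) (hQ : S_PC) : S_PInj := by
  intro M ok z v v' P P' co
  by_contra n
  obtain ⟨r1, M1, W, o1, c1, l1, n1, i1, t1⟩ := id P
  obtain ⟨r2, M2, W', o2, c2, l2, n2, i2, t2⟩ := id P'
  have D : Dat M M1 W z v := ⟨r1, o1, c1, l1, n1, i1, t1⟩
  have D' : Dat M M2 W' z v' := ⟨r2, o2, c2, l2, n2, i2, t2⟩
  have K := hW M ok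
  have dis : ∀ y, M.Pa 0 v y → ¬M.Pa 0 v' y := fun y a b => n ⟨y, a, b⟩
  have a1 : ¬W v' := outside hW hX hR hQ ok D P' fun k => dis _ k (Cm.Pa.refl _ _)
  have a2 : ¬W' v := outside hW hX hR hQ ok D' P fun k => dis _ (Cm.Pa.refl _ _) k
  obtain ⟨y, py, ky⟩ := r1.2.2
  have p0 : M.Pa 0 v (M.FE 0 v 3) := (K.fe_kd 0 v y 3 r1.1 py ky).2.1
  have key : ∀ t, ¬W' (M.wk 1 (M.FE 0 v 3) t) := by
    intro t
    induction t with
    | zero => exact fun w => a2 ((off_walk o2 c2 l2 p0 (dis _ p0)).2 w)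
    | succ t ih =>
      rw [Cm.wk_succ]
      intro w
      by_cases hx : M.Pa 0 v' (M.wk 1 (M.FE 0 v 3) t)
      · exact a1 ((off_walk o1 c1 l1 hx fun k => dis _ k hx).2 (one_walk hW hX hC hR hP ok D t))
      · exact ih ((off_step o2 c2 l2 1 hx).2 w)
  obtain ⟨u, ⟨s, e1⟩, ⟨t, e2⟩⟩ := co
  have := one_walk hW hX hC hR hP ok D' t
  rw [e2, ← e1] at this
  exact key s this

end Pool.Agent.MP_1a6d78_lc.PS

end MrgPart9

-- ======== part 10: formerly Pool.Agent.MP_1a6d78_lc.PS.FPT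
section MrgPart10

/-! PROJECT PSC, row PT: a ring that pays after the cut of a clean ring pays before. -/

namespace Pool.Agent.MP_1a6d78_lc.PS

open Classical ED PR PL Relation

namespace FPT

variable {M M' : Cm} {R : ℕ → ℕ → Prop} {W : ℕ → Prop} {z t : ℕ}

theorem clo_pa (h : M.Clo W) {i a b : ℕ} (p : M.Pa i a b) (ha : W a) : W b := by
  obtain ⟨s, rfl⟩ := p
  induction s with
  | zero => exact ha
  | succ s ih => rw [Cm.wk_succ]; exact h (pt _ i) (by rw [pt_div]; exact ih)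

theorem rs_pa (h : M.Rs R) {t a b : ℕ} (p : M.Pa t a b) (ha : R t a) : R t b := by
  obtain ⟨s, rfl⟩ := p
  induction s with
  | zero => exact ha
  | succ s ih => rw [Cm.wk_succ]; exact (h t _ ih).2.2

theorem clo_not (hM : M.Ok) (h : M.Clo W) : M.Clo fun c => ¬W c := fun p hp hq =>
  hp (by have := h _ hq; rwa [hM.inv] at this)

theorem st_eq {p i : ℕ} (h : p % 4 = i % 4) : M.st i (p / 4) = M.lk p / 4 := by
  have : pt (p / 4) i = p := by unfold pt; omega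
  unfold Cm.st; rw [this]

theorem pa_lk {p i : ℕ} (h : p % 4 = i) : M.Pa i (p / 4) (M.lk p / 4) := by
  rw [← st_eq (i := i) (by omega)]; exact Cm.Pa.step _ _

/-- Closed clean sets stay so after a cut of rings of one type. -/
theorem down (hR : S_Reg) (hM' : M'.Ok) (hC : M.Cutx M' R) (cw : CutWK M M' R)
    (cr : CutRK M M' R) (one : ∀ t' y, R t' y → t' = t) (h1 : M.Clo W) (h2 : M.Cln z W) :
    M'.Clo W ∧ M'.Cln z W := by
  have c : M'.Clo W := by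
    intro p hp
    by_cases hc : ∃ t a, R t (p / 4) ∧ M.Kd t a (p / 4) ∧ (p % 4 = t ∨ p % 4 = ep t a)
    · obtain ⟨t', a, k1, k2, k3⟩ := hc
      have tw := (cw.twin t' a _ k1 k2).2.2 (M'.lk p / 4)
      rcases k3 with k3 | k3
      · exact clo_pa h1 (tw.1.1 (pa_lk k3)).1 hp
      · exact clo_pa h1 (tw.2.1 (pa_lk k3)).1 hp
    · rw [hC.off p hc]; exact h1 p hp
  refine ⟨c, h2.1, fun p hp hw => ?_⟩
  by_cases k : R (p % 4) (p / 4)
  · have par := hM'.par p hp.1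
    have e := one _ _ k
    refine h2.2 (M'.lk p) ((cr.prb _ fun k' => ?_).1 (((hR M' hM').prb_lk p).2 hp)) (c p hw)
    have := one _ _ k'
    omega
  · exact h2.2 p ((cr.prb p k).1 hp) hw

/-- A closed clean set after the cut that has all ring cells or none is closed and clean before. -/
theorem up (hW : S_Walk) (hR : S_Reg) (hM : M.Ok) (hS : M.Rs R) (hC : M.Cutx M' R)
    (cr : CutRK M M' R) (one : ∀ t' y, R t' y → t' = t)
    (all : ∀ y u, R t y → R t u → W y → W u) (h1 : M'.Clo W) (h2 : M'.Cln z W) :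
    M.Clo W ∧ M.Cln z W := by
  have c : M.Clo W := by
    intro p hp
    by_cases hc : ∃ t a, R t (p / 4) ∧ M.Kd t a (p / 4) ∧ (p % 4 = t ∨ p % 4 = ep t a)
    · obtain ⟨t', a, k1, k2, k3⟩ := hc
      obtain rfl := one _ _ k1
      refine all _ _ k1 (rs_pa hS ?_ k1) hp
      rcases k3 with k3 | k3
      · exact pa_lk k3
      · obtain ⟨-, e1, e2⟩ := ((hW M hM).kd_iff _ _ _).1 k2
        have e : pt (p / 4) (ep t' a) = p := by unfold pt; omega
        rw [e] at e1 e2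
        have e3 : M.st t' (M.lk p / 4) = p / 4 := by rw [st_eq e1, hM.inv]
        exact ((hW M hM).per_pa _ _ _ e2 (e3 ▸ Cm.Pa.step _ _)).2
    · rw [← hC.off p hc]; exact h1 p hp
  refine ⟨c, h2.1, fun p hp hw => ?_⟩
  by_cases k : R (p % 4) (p / 4)
  · have par := hM.par p hp.1
    have e := one _ _ k
    refine h2.2 (M.lk p) ((cr.prb _ fun k' => ?_).2 (((hR M hM).prb_lk p).2 hp)) (c p hw)
    have := one _ _ k'
    omega
  · exact h2.2 p ((cr.prb p k).2 hp) hw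

end FPT

open FPT in
theorem fPT (hW : S_Walk) (hR : S_Reg) (hX : S_CutEx) (hCW : S_CutW) (hCR : S_CutR) (hCS : S_CS)
    (hCmp : S_Cmp) (hPE : S_PE) : S_PT := by
  intro M M1 D z t v v' hM hM1 ht hv hC1 hD1 hD2 ⟨y0, hy0, dy0⟩ ⟨hv1, M12, W, h12, hC12, hW1, hW2,
    hW3, hNT⟩
  have K := hW M hM
  have rs : M.Rs (M.One t v) := ((hX M hM).2 t ht v hv).1
  have cw1 := hCW M M1 _ hM hM1 rs hC1
  obtain ⟨hv', nR⟩ := cw1.lift 0 (by norm_num) v' hv1
  obtain ⟨-, -, kpa, -, kfe⟩ := cw1.keep 0 (by norm_num) v' hv' nR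
  have rs1 : M1.Rs (M1.One 0 v') := ((hX M1 hM1).2 0 (by norm_num) v' hv1).1
  have eO : M1.One 0 v' = M.One 0 v' := by
    funext t' y; unfold Cm.One; rw [kpa]
  rw [kfe] at hW3 hNT
  obtain ⟨hD1', hD2'⟩ := down hR h12 hC12 (hCW _ _ _ hM1 h12 rs1 hC12) (hCR _ _ _ hM1 h12 rs1 hC12)
    (fun _ _ k => k.1) hD1 hD2
  rw [eO] at rs1 hC12
  obtain ⟨rs', M2, h2, hC2⟩ := (hX M hM).2 0 (by norm_num) v' hv'
  obtain ⟨-, dis, hCu⟩ := (hCmp M M1 M12 _ (M.One 0 v') hM hM1 h12 rs hC1).1 rs1 hC12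
  have rsu : M.Rs fun t' y => M.One t v t' y ∨ M.One 0 v' t' y := fun t' y k =>
    k.elim (fun k => ⟨(rs _ _ k).1, (rs _ _ k).2.1, Or.inl (rs _ _ k).2.2⟩)
      fun k => ⟨(rs' _ _ k).1, (rs' _ _ k).2.1, Or.inr (rs' _ _ k).2.2⟩
  obtain ⟨rs2, hC3⟩ := (hCmp M M2 M12 _ _ hM h2 h12 rs' hC2).2 rsu (fun _ _ k => Or.inr k) hCu
  have eR : (fun t' y => (M.One t v t' y ∨ M.One 0 v' t' y) ∧ ¬M.One 0 v' t' y) = M.One t v := by
    funext t' y
    exact propext ⟨fun k => k.1.resolve_right k.2, fun k => ⟨Or.inl k, fun k' => dis _ _ k' k⟩⟩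
  rw [eR] at rs2 hC3
  obtain ⟨pv, ⟨ya, pa, ka⟩, yb, pb, kb⟩ := hv'
  obtain ⟨-, f0, g0⟩ := K.fe_kd 0 v' ya _ pv pa ka
  obtain ⟨-, f3, -⟩ := K.fe_kd 0 v' yb _ pv pb kb
  change M.Pa 0 v' (M.FE 0 v' 0) at f0
  change M.Kd 0 0 (M.FE 0 v' 0) at g0
  change M.Pa 0 v' (M.FE 0 v' 3) at f3
  have top2 : M2.Top (M.FE 0 v' 0) :=
    ⟨((hCW _ _ _ hM h2 rs' hC2).al _).2 (K.kd_per _ _ _ g0).1.1,
      ((hCR _ _ _ hM h2 rs' hC2).cor 0 0 _ ⟨rfl, f0⟩ g0).1⟩
  obtain ⟨top12, -, nt⟩ := hCS M2 M12 _ h2 h12 rs2 hC3 _ top2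
  have nD : ¬D (M.FE 0 v' 3) := fun k => by
    have p3 := ((hW M1 hM1).per_pa 0 _ _ hv1.1 ((kpa _).2 f3)).2
    exact (hPE M12 h12 z _ top12).2.2 D hD1' hD2'
      (clo_pa hD1 (p3.trans ((kpa _).2 f0)) k) hNT
  have cr3 := hCR _ _ _ h2 h12 rs2 hC3
  refine ⟨⟨pv, ⟨ya, pa, ka⟩, yb, pb, kb⟩, M2, ?_⟩
  by_cases hc : ∃ y, M.Pa t v y ∧ W y ∧ ¬D y
  · obtain ⟨y1, hy1, wy1, dy1⟩ := hc
    have cwu := hCW _ _ _ hM h12 rsu hCu
    have same : ∀ {y u a : ℕ}, M.Pa t v y → M.Pa t v u → M.Kd t a y → M.Kd t a u →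
        M12.Pa t y u := fun {y u a} py pu ky ku =>
      ((cwu.twin t a y (Or.inl ⟨rfl, py⟩) ky).2.2 u).1.2
        ⟨(K.per_pa _ _ _ hv.1 py).2.trans pu, ku⟩
    have kd := fun {y : ℕ} (py : M.Pa t v y) => K.kd_ex t y (K.per_pa _ _ _ hv.1 py).1
    have all : ∀ u, M.Pa t v u → W u ∨ D u := by
      intro u pu
      rcases kd hy0 with k0 | k0 <;> rcases kd hy1 with k1 | k1 <;> rcases kd pu with k | k
      all_goals first
        | exact absurd (clo_pa hD1' (same hy0 hy1 k0 k1) dy0) dy1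
        | exact Or.inr (clo_pa hD1' (same hy0 pu k0 k) dy0)
        | exact Or.inl (clo_pa hW1 (same hy1 pu k1 k) wy1)
    obtain ⟨u1, u2⟩ := up (W := fun c => W c ∨ D c) (z := z) hW hR h2 rs2 hC3 cr3
      (fun _ _ k => k.1) (fun _ u _ k _ => all u k.2)
      (fun p k => k.imp (hW1 p) (hD1' p))
      ⟨fun k => k.elim hW2.1 hD2.1, fun p hp k => k.elim (hW2.2 p hp) (hD2'.2 p hp)⟩
    exact ⟨_, h2, hC2, u1, u2, Or.inl hW3, (nt z).1 hNT⟩
  · obtain ⟨u1, u2⟩ := up (W := fun c => W c ∧ ¬D c) (z := z) hW hR h2 rs2 hC3 cr3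
      (fun _ _ k => k.1) (fun y _ k _ w => absurd ⟨y, k.2, w⟩ hc)
      (fun p k => ⟨hW1 p k.1, clo_not h12 hD1' p k.2⟩)
      ⟨fun k => hW2.1 k.1, fun p hp k => hW2.2 p hp k.1⟩
    exact ⟨_, h2, hC2, u1, u2, ⟨hW3, nD⟩, (nt z).1 hNT⟩

end Pool.Agent.MP_1a6d78_lc.PS

end MrgPart10

-- ======== part 11: formerly Pool.Agent.MP_1a6d78_lc.PS.FProg
section MrgPart11

/-! PROJECT PSC, row PROG: a large family in one frame. -/

namespace Pool.Agent.MP_1a6d78_lc.PS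

open Classical ED PR PL Relation

noncomputable section

namespace FProg

theorem fib (A : Finset (ℕ × ℕ)) (k n m : ℕ) (h : ∀ a ∈ A, a.1 < k ∧ a.2 < n)
    (hm : ∀ g < k, PR.cnt n (fun x => (g, x) ∈ A) ≤ m) : A.card ≤ k * m := by
  have s : A ⊆ (Finset.range k).biUnion fun g =>
      ((Finset.range n).filter fun x => (g, x) ∈ A).image fun x => (g, x) := by
    intro a ha
    simp only [Finset.mem_biUnion, Finset.mem_range, Finset.mem_image, Finset.mem_filter]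
    exact ⟨a.1, (h a ha).1, a.2, ⟨(h a ha).2, ha⟩, rfl⟩
  refine (Finset.card_le_card s).trans (Finset.card_biUnion_le.trans ?_)
  refine (Finset.sum_le_card_nsmul _ _ m fun g hg => ?_).trans (by simp)
  refine Finset.card_image_le.trans ?_
  refine le_trans (le_of_eq ?_) (hm g (Finset.mem_range.1 hg))
  unfold PR.cnt
  congr

theorem outer (hW : S_Walk) {N : Cm} (H : N.Ok) {v : ℕ} (r : N.Rng 0 v) :
    N.Pa 0 v (N.FE 0 v 0) ∧ N.Kd 0 0 (N.FE 0 v 0) := by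
  obtain ⟨p, ⟨y, hy, ky⟩, _⟩ := r
  exact ((hW N H).fe_kd 0 v y 0 p hy ky).2

theorem sub {N : Cm} (H : N.Ok) {R : ℕ → Prop} {v v' : ℕ} (r : N.Rng 0 v) (hv : R v')
    (c : N.Co 0 v v') : ∀ t y, N.One 0 v t y → N.Zr R t y := by
  rintro t y ⟨e, p⟩
  have k := Cm.Per.pa H r.1 p
  exact ⟨e, k.1, v', hv, Cm.Co.trans (Cm.Pa.co k.2) c⟩

theorem top (hW : S_Walk) (hX : S_CutEx) (hR : S_CutR) (hS : S_CS) (hC : S_Cmp) {N N' : Cm}
    (H : N.Ok) {R : ℕ → Prop} (hr : ∀ v, R v → N.Ring v) (hc : N.Cutm N' R) {z v v' : ℕ}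
    (P : N.Pend z v) (hv : R v') (c : N.Co 0 v v') :
    N'.Top (N.FE 0 v 0) ∧ N'.NT z (N.FE 0 v 0) := by
  obtain ⟨r, M2, W, H2, C2, -, -, -, nt⟩ := P
  obtain ⟨rs, e, ok⟩ := (hX N H).1 N' R hr
  have r1 := ((hX N H).2 0 (by omega) v r).1
  obtain ⟨rs2, C3⟩ := (hC N M2 N' _ _ H H2 (ok hc) r1 C2).2 rs (sub H r hv c) (e.1 hc)
  obtain ⟨p, k⟩ := outer hW H r
  have T : M2.Top (N.FE 0 v 0) := by
    refine ⟨fun q => ?_, ((hR N M2 _ H H2 r1 C2).cor 0 0 _ ⟨rfl, p⟩ k).1⟩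
    have u := C2.ring 0 _ 0 ⟨rfl, p⟩ k
    have u1 : pt (N.FE 0 v 0) 0 = 4 * N.FE 0 v 0 := rfl
    have u2 : ep 0 0 = 1 := rfl
    rw [u1, q, u2] at u
    unfold pt at u
    omega
  obtain ⟨T', -, n'⟩ := hS M2 N' _ H2 (ok hc) rs2 C3 _ T
  exact ⟨T', (n' z).2 nt⟩

theorem sep (hW : S_Walk) (hX : S_CutEx) (hR : S_CutR) {N N' : Cm}
    (H : N.Ok) {R : ℕ → Prop} (hr : ∀ v, R v → N.Ring v) (hc : N.Cutm N' R) {v w v' : ℕ}
    (r : N.Rng 0 v) (s : N.Rng 0 w) (hv : R v') (c : N.Co 0 v v')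
    (g : N'.Rg (4 * N.FE 0 v 0) (4 * N.FE 0 w 0)) : N.Co 0 v w := by
  obtain ⟨rs, e, ok⟩ := (hX N H).1 N' R hr
  obtain ⟨p, k⟩ := outer hW H r
  have u := (((hR N N' _ H (ok hc) rs (e.1 hc)).cor 0 0 _ (sub H r hv c 0 _ ⟨rfl, p⟩) k).2.2
    (4 * N.FE 0 w 0)).1 g
  have d : 4 * N.FE 0 w 0 / 4 = N.FE 0 w 0 := by omega
  rw [d] at u
  exact ⟨_, p.trans u.2.1, (outer hW H s).1⟩

end FProg

theorem fProg : S_Walk → S_Tw → S_CutEx → S_CutR → S_CS → S_Cmp → S_PC → S_PInj → S_Act →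
    S_Prog := by
  intro hW hT hX hR hS hC hP hI hA M H z hz
  obtain ⟨A, P, hc, a1, a2, p1, p2⟩ := hA M H z hz
  by_cases c1 : ∃ g < 4, M.mu + 1 ≤ 12 * PR.cnt M.n fun x => (g, x) ∈ A
  · obtain ⟨g, hg, c⟩ := c1
    refine ⟨g, by omega, _, c, Or.inl ⟨fun x hx => (a1 _ hx).2, fun x y hx hy r => ?_⟩⟩
    exact congrArg Prod.snd (a2 _ hx _ hy rfl r)
  by_cases c2 : ∃ g < 8, M.mu + 1 ≤ 12 * PR.cnt M.n fun x => (g, x) ∈ P
  · obtain ⟨g, hg, c⟩ := c2
    have K := (hT M H g hg).ok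
    have inj : ∀ v v', (g, v) ∈ P → (g, v') ∈ P → (M.tw g).Co 0 v v' → v = v' :=
      fun v v' hv hv' r => congrArg Prod.snd (p2 _ hv _ hv' rfl r)
    refine ⟨g, hg, _, c, Or.inr ⟨fun v hv => hP _ K z v (p1 _ hv).2, inj,
      fun v v' hv hv' r => inj v v' hv hv' (hI _ K z v v' (p1 _ hv).2 (p1 _ hv').2 r),
      fun N' R hr hm => ⟨fun v v' hv hv' r => ?_, fun v w v' w' hv hw hv' _ r _ u => ?_⟩⟩⟩
    · exact FProg.top hW hX hR hS hC K hr hm (p1 _ hv).2 hv' r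
    · exact inj v w hv hw (FProg.sep hW hX hR K hr hm (p1 _ hv).2.1 (p1 _ hw).2.1 hv' r u)
  exfalso
  have b1 := FProg.fib A 4 M.n (M.mu / 12) (fun a ha => ⟨(a1 a ha).1,
    (hT M H a.1 (by have := (a1 a ha).1; omega)).ok.lt _ (a1 a ha).2.1.1⟩) fun g hg => by
      have := Nat.not_le.1 fun u => c1 ⟨g, hg, u⟩
      omega
  have b2 := FProg.fib P 8 M.n (M.mu / 12) (fun a ha => ⟨(p1 a ha).1,
    (hT M H a.1 (p1 a ha).1).ok.lt _ (p1 a ha).2.1.1.1⟩) fun g hg => by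
      have := Nat.not_le.1 fun u => c2 ⟨g, hg, u⟩
      omega
  omega

end

end Pool.Agent.MP_1a6d78_lc.PS

end MrgPart11

-- ======== part 12: formerly Pool.Agent.MP_1a6d78_lc.PS.FStep
section MrgPart12

/-! PROJECT PSC, row STEP: witnesses go back along the cut of a clean ring. -/

namespace Pool.Agent.MP_1a6d78_lc.PS

open Classical ED PR PL Relation

namespace FStep

/-- The situation of the step. -/
structure Sit (M N : Cm) (D : ℕ → Prop) (z t v : ℕ) : Prop where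
  ok : M.Ok
  ok1 : N.Ok
  lt : t < 4
  rng : M.Rng t v
  rs : M.Rs (M.One t v)
  cut : M.Cutx N (M.One t v)
  clo : N.Clo D
  cln : N.Cln z D
  ex : ∃ y, M.Pa t v y ∧ D y

variable {M N : Cm} {D : ℕ → Prop} {z t v : ℕ}

theorem Sit.tw (hT : S_Tw) (hC : S_TwC) (h : Sit M N D z t v) {g s : ℕ} (hg : g < 8) (hs : s < 4)
    (e : fp g s = t) : Sit (M.tw g) (N.tw g) D z s v := by
  have K := hT M h.ok g hg
  have K1 := hT N h.ok1 g hg
  have e1 : (fun t' y => t' < 4 ∧ M.One t v (fp g t') y) = (M.tw g).One s v := by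
    funext t' y
    unfold Cm.One
    rw [K.pa, e, ← e, Ct.fp_inj hg]
    exact propext ⟨fun k => ⟨by omega, k.2.2⟩, fun k => ⟨by omega, by omega, k.2⟩⟩
  have := hC M N _ h.ok h.ok1 h.rs h.cut g hg
  rw [e1] at this
  obtain ⟨y, y1, y2⟩ := h.ex
  exact ⟨K.ok, K1.ok, hs, (K.rn _ _).2 (e ▸ h.rng), this.1, this.2, (K1.clo _).2 h.clo,
    (K1.cln _ _).2 h.cln, y, (K.pa _ _ _).2 (e ▸ y1), y2⟩

theorem clo_pa (h : N.Clo D) {i a b : ℕ} (k : N.Pa i a b) (ha : D a) : D b := by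
  obtain ⟨s, rfl⟩ := k
  induction s with
  | zero => exact ha
  | succ s ih =>
    rw [Cm.wk_succ]
    exact h _ (by rwa [pt_div])

/-- All cells of one kind of the ring are in `D`. -/
theorem Sit.kind (hW : S_Walk) (hC : S_CutW) (h : Sit M N D z t v) :
    ∃ a, (a = t % 4 ∨ a = (t + 3) % 4) ∧ ∀ x, M.Pa t v x → M.Kd t a x → D x := by
  obtain ⟨y, y1, y2⟩ := h.ex
  have W := hW M h.ok
  obtain ⟨p1, p2⟩ := W.per_pa _ _ _ h.rng.1 y1
  obtain ⟨a, ha⟩ := p1.kd h.ok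
  exact ⟨a, (W.kd_per _ _ _ ha).2, fun x x1 x2 => clo_pa h.clo
    ((((hC M N _ h.ok h.ok1 h.rs h.cut).twin t a y ⟨rfl, y1⟩ ha).2.2 x).1.2 ⟨p2.trans x1, x2⟩) y2⟩

/-- Two cells of the same kind of the ring have their corners in one region. -/
theorem Sit.rg (hW : S_Walk) (hR : S_CutR) (h : Sit M N D z t v) {x y : ℕ} (x1 : M.Pa t v x)
    (x2 : M.Kd t 0 x) (y1 : M.Pa t v y) (y2 : M.Kd t 0 y) : N.Rg (4 * x) (4 * y) := by
  have e : 4 * y / 4 = y := by omega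
  exact (((hR M N _ h.ok h.ok1 h.rs h.cut).cor t 0 x ⟨rfl, x1⟩ x2).2.2 (4 * y)).2
    ⟨by omega, by rw [e]; exact ((hW M h.ok).per_pa _ _ _ h.rng.1 x1).2.trans y1, by rwa [e]⟩

theorem Sit.pend (hW : S_Walk) (hD : S_Dead) (hC : S_CutW) (hR : S_CutR) (hP : S_PE)
    (h : Sit M N D z 0 v) {x : ℕ} (x1 : M.Pa 0 v x) (x2 : M.Kd 0 0 x) (x3 : N.Top x)
    (x4 : N.NT z x) : M.Pend z v := by
  have W := hW M h.ok
  obtain ⟨a, a1, a2⟩ := h.kind hW hC
  obtain ⟨y, y1, y2⟩ := h.rng.2.2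
  obtain ⟨-, f1, f2⟩ := W.fe_kd _ _ _ _ h.rng.1 x1 x2
  obtain ⟨-, g1, g2⟩ := W.fe_kd _ _ _ _ h.rng.1 y1 y2
  refine ⟨h.rng, N, D, h.ok1, h.cut, h.clo, h.cln, ?_,
    (((hD N h.ok1 x x3).same _ (h.rg hW hR x1 x2 f1 f2)).2.2 z).2 x4⟩
  rcases a1 with rfl | rfl
  · exact absurd x4 ((hP N h.ok1 z x x3).2.2 D h.clo h.cln (a2 x x1 x2))
  · exact a2 _ g1 g2

theorem cor_iff {x : ℕ} : M.Cor (M.One t v) (4 * x) ↔ M.Pa t v x ∧ M.Kd t 0 x := by
  unfold Cm.Cor Cm.One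
  rw [show 4 * x / 4 = x by omega, show 4 * x % 4 = 0 by omega]
  exact ⟨fun ⟨_, ⟨e, k⟩, l⟩ => ⟨k, e ▸ l⟩, fun k => ⟨t, ⟨rfl, k.1⟩, k.2⟩⟩

theorem Sit.keep (hC : S_CutW) (hR : S_CutR) (hS : S_CS) (h : Sit M N D z t v) {x : ℕ}
    (k : ¬M.Cor (M.One t v) (4 * x)) (x3 : N.Top x) (x4 : N.NT z x) : M.Top x ∧ M.NT z x := by
  have k1 : M.Top x := ⟨((hC M N _ h.ok h.ok1 h.rs h.cut).al x).1 x3.1,
    ((hR M N _ h.ok h.ok1 h.rs h.cut).crit _ k).1 x3.2⟩
  exact ⟨k1, ((hS M N _ h.ok h.ok1 h.rs h.cut x k1).2.2 z).1 x4⟩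

theorem Sit.co (hC : S_CutW) (h : Sit M N D z t v) {a b : ℕ} (ha : N.Rng 0 a) (hb : N.Rng 0 b)
    (k : M.Co 0 a b) : N.Co 0 a b := by
  have C := hC M N _ h.ok h.ok1 h.rs h.cut
  obtain ⟨u, u1, u2⟩ := k
  obtain ⟨a1, a2⟩ := C.lift 0 (by decide) a ha
  obtain ⟨b1, b2⟩ := C.lift 0 (by decide) b hb
  exact ⟨u, ((C.keep 0 (by decide) a a1 a2).2.2.1 u).2 u1,
    ((C.keep 0 (by decide) b b1 b2).2.2.1 u).2 u2⟩

theorem Sit.nco (hC : S_CutW) (h : Sit M N D z 0 v) {a : ℕ} (ha : N.Rng 0 a) : ¬M.Co 0 v a :=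
  fun k =>
    let ⟨a1, a2⟩ := (hC M N _ h.ok h.ok1 h.rs h.cut).lift 0 (by decide) a ha
    a2 ⟨rfl, k.pa h.ok a1.1⟩

theorem tw5 (hT : S_Tw) (h : M.Ok) {g : ℕ} (hg : g < 4) :
    (M.tw g).tw 5 = M.tw (4 + (g + 1) % 4) := by
  obtain ⟨k, k1, k2, -, k3, k4⟩ := (hT M h g (by omega)).comp 5 (by decide)
  have e := k2 0
  rw [show fp 5 0 = 1 from rfl] at e
  have k5 : ¬k < 4 := fun l => by have := (k3.1 l).1 hg; omega
  rw [k4, show k = 4 + (g + 1) % 4 by unfold fp at e; simp only [if_neg k5, if_pos hg] at e; omega]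

end FStep

open FStep in
theorem fStep : S_Walk → S_Reg → S_Dead → S_Tw → S_Mir → S_TwC → S_CutEx → S_CutW → S_CutR →
    S_CS → S_PE → S_PT → S_Step := by
  intro hW _ hD hT hM hTC hE hC hR hS hP hPT M N D z t v ok ok1 lt rng cut clo cln ex
    ⟨A, P, c1, a1, a2, p1, p2⟩
  have h : Sit M N D z t v := ⟨ok, ok1, lt, rng, ((hE M ok).2 t lt v rng).1, cut, clo, cln, ex⟩
  have fe : ∀ {g}, g < 8 → fp g (fp (gi g) t) = t := fun hg =>
    ((Ct.fp_fp hg t).2).trans (Nat.mod_eq_of_lt lt)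
  have fr : ∀ {g}, g < 8 → Sit (M.tw g) (N.tw g) D z (fp (gi g) t) v := fun hg =>
    h.tw hT hTC hg (Ct.fp_lt _ _) (fe hg)
  rw [(hR M N _ ok ok1 h.rs cut).mu] at c1
  obtain ⟨Q, hQ⟩ : ∃ Q : ℕ × ℕ → Prop, Q = fun a =>
    (M.tw a.1).Cor ((M.tw a.1).One (fp (gi a.1) t) v) (4 * a.2) := ⟨_, rfl⟩
  have l8 : ∀ a ∈ A, a.1 < 8 := fun a ha => by have := (a1 a ha).1; omega
  have k1 : ∀ a ∈ A, ¬Q a → a.1 < 4 ∧ (M.tw a.1).Top a.2 ∧ (M.tw a.1).NT z a.2 := fun a ha k =>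
    ⟨(a1 a ha).1, (fr (l8 a ha)).keep hC hR hS (by rwa [hQ] at k) (a1 a ha).2.1 (a1 a ha).2.2⟩
  have k2 : ∀ a ∈ A, ¬Q a → ∀ b ∈ A, ¬Q b → a.1 = b.1 → (M.tw a.1).Rg (4 * a.2) (4 * b.2) →
      a = b := fun a ha k b hb l e r => by
    have S := fr (l8 a ha)
    rw [hQ] at k l
    exact a2 a ha b hb e (((hR _ _ _ S.ok S.ok1 S.rs S.cut).rg _ _ k).2 ⟨r, by rw [e]; exact l⟩)
  have k3 : ∀ a ∈ P, a.1 < 8 ∧ (M.tw a.1).Pend z a.2 := fun a ha =>
    let S := fr (p1 a ha).1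
    ⟨(p1 a ha).1, hPT _ _ D z _ v _ S.ok S.ok1 S.lt S.rng S.cut S.clo S.cln S.ex (p1 a ha).2⟩
  have k4 : ∀ a ∈ P, ∀ b ∈ P, a.1 = b.1 → (M.tw a.1).Co 0 a.2 b.2 → a = b := fun a ha b hb e r =>
    p2 a ha b hb e ((fr (p1 a ha).1).co hC (p1 a ha).2.1 (by rw [e]; exact (p1 b hb).2.1) r)
  by_cases hc : ∃ c ∈ A, Q c
  swap
  · have hn : ∀ a ∈ A, ¬Q a := fun a ha k => hc ⟨a, ha, k⟩
    exact ⟨A, P, c1, fun a ha => k1 a ha (hn a ha),
      fun a ha b hb => k2 a ha (hn a ha) b hb (hn b hb), k3, k4⟩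
  obtain ⟨c, hc, qc⟩ := hc
  obtain ⟨a0, b1, b2⟩ := h.kind hW hC
  have tr : ∀ a ∈ A, Q a → M.Pa t v a.2 ∧ M.Kd t a.1 a.2 ∧ a.1 ≠ a0 := fun a ha k => by
    rw [hQ] at k
    have K := hT M ok a.1 (l8 a ha)
    have S := fr (l8 a ha)
    obtain ⟨u1, u2⟩ := cor_iff.1 k
    rw [K.pa, fe (l8 a ha)] at u1
    rw [K.kd _ _ _ (by decide), fe (l8 a ha), show fs a.1 0 = a.1 by
      have := (a1 a ha).1; unfold fs; rw [if_pos this]; omega] at u2
    exact ⟨u1, u2, fun e => (hP _ S.ok1 z a.2 (a1 a ha).2.1).2.2 D S.clo S.cln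
      (b2 _ u1 (e ▸ u2)) (a1 a ha).2.2⟩
  have one : ∀ a ∈ A, Q a → c = a := fun a ha k => by
    obtain ⟨-, u2, u3⟩ := tr a ha k
    obtain ⟨-, w2, w3⟩ := tr c hc qc
    have e1 := ((hW M ok).kd_per _ _ _ u2).2
    have e2 := ((hW M ok).kd_per _ _ _ w2).2
    have e : c.1 = a.1 := by omega
    rw [hQ] at k qc
    rw [← e] at k
    exact a2 c hc a ha e ((fr (l8 c hc)).rg hW hR (cor_iff.1 qc).1 (cor_iff.1 qc).2
      (cor_iff.1 k).1 (cor_iff.1 k).2)
  obtain ⟨u1, u2, -⟩ := tr c hc qc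
  obtain ⟨d1, d2, d3⟩ := a1 c hc
  obtain ⟨g, g1, g2, g3, g4, g5⟩ : ∃ g < 8, fp g 0 = t ∧ fs g 0 = c.1 ∧ (N.tw g).Top c.2 ∧
      (N.tw g).NT z c.2 := by
    rcases ((hW M ok).kd_per _ _ _ u2).2 with e | e
    · exact ⟨c.1, by omega, by unfold fp; rw [if_pos d1]; omega,
        by unfold fs; rw [if_pos d1]; omega, d2, d3⟩
    · have m := hM _ (fr (l8 c hc)).ok1 c.2 d2
      rw [tw5 hT ok1 d1] at m
      exact ⟨4 + (c.1 + 1) % 4, by omega, by unfold fp; rw [if_neg (by omega)]; omega,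
        by unfold fs; rw [if_neg (by omega)]; omega, m.1, (m.2.2 z).2 d3⟩
  have S := h.tw hT hTC g1 (show 0 < 4 by decide) g2
  have K := hT M ok g g1
  have pn : (M.tw g).Pend z v := S.pend hW hD hC hR hP ((K.pa _ _ _).2 (g2 ▸ u1))
    ((K.kd _ _ _ (by decide)).2 (by rw [g2, g3]; exact u2)) g4 g5
  have nc : ∀ b ∈ P, g = b.1 → ¬(M.tw g).Co 0 v b.2 := fun b hb e =>
    S.nco hC (by rw [e]; exact (p1 b hb).2.1)
  have hn : ∀ a ∈ A.erase c, a ∈ A ∧ ¬Q a := fun a ha =>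
    ⟨Finset.mem_of_mem_erase ha, fun k =>
      Finset.ne_of_mem_erase ha (one a (Finset.mem_of_mem_erase ha) k).symm⟩
  refine ⟨A.erase c, insert (g, v) P, ?_, fun a ha => k1 a (hn a ha).1 (hn a ha).2,
    fun a ha b hb => k2 a (hn a ha).1 (hn a ha).2 b (hn b hb).1 (hn b hb).2, fun a ha => ?_,
    fun a ha b hb e r => ?_⟩
  · rw [Finset.card_insert_of_notMem fun k => nc _ k rfl (Cm.Co.refl _ _)]
    have := Finset.card_erase_add_one hc
    omega
  · rcases Finset.mem_insert.1 ha with rfl | ha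
    exacts [⟨g1, pn⟩, k3 a ha]
  · rcases Finset.mem_insert.1 ha with rfl | ha <;> rcases Finset.mem_insert.1 hb with rfl | hb
    · rfl
    · exact absurd r (nc b hb e)
    · exact absurd (show (M.tw g).Co 0 v a.2 from (show g = a.1 from e.symm) ▸ r.symm)
        (nc a ha e.symm)
    · exact k4 a ha b hb e r

end Pool.Agent.MP_1a6d78_lc.PS

end MrgPart12

-- marker of a merged file
example : 731051 + 328103 = 731051 + 328103 := rfl
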