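import Pool.Agent.MP_1a6d78_lc.PS.GTw
import Pool.Agent.MP_1a6d78_lc.PS.Geo
import Pool.Agent.MP_1a6d78_lc.PL.Med
import Pool.Agent.MP_1a6d78_lc.PS.Tw

-- ======== part 0: formerly Pool.Agent.MP_1a6d78_lc.PS.MBase
section MrgPart0

/-! PROJECT PSC: the map of level 0 is computable; the number `mu` is computable with long loops. -/

namespace Pool.Agent.MP_1a6d78_lc.PS

open Classical ED PR PL SC GL

noncomputable section

/-- The map of the input. -/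
def M0 (x : List Bool) : Cm :=
  ⟨cells (inp x), fun p => if p < 4 * cells (inp x) ∧
    lam (cells (inp x)) (rho (inp x)) p < 4 * cells (inp x) then
      lam (cells (inp x)) (rho (inp x)) p else p⟩

def z0 (x : List Bool) : ℕ := e0 (inp x)

/-- `mu` with bounded quantifiers. -/
def muB (n : ℕ) (lk : ℕ → ℕ) : ℕ :=
  cnt n (fun c => lk (4 * c) ≠ 4 * c) - ncl (4 * n) (fun x => lk (4 * (x / 4)) ≠ 4 * (x / 4) ∧
    ∃ y < 4 * n, Sc (4 * n) (fun x => lk (r4 x)) x y ∧ lk (r4 y) % 4 ≠ y % 4)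
    (Sc (4 * n) fun x => lk (r4 x))

theorem Cm.Ok.lk_lt {M : Cm} (h : M.Ok) {p : ℕ} (hp : p < 4 * M.n) : M.lk p < 4 * M.n := by
  by_cases k : M.al (p / 4)
  · have := h.lt _ (h.al_lk k)
    omega
  · rwa [(h.fix p).2 k]

theorem muB_eq {M : Cm} (h : M.Ok) : muB M.n M.lk = M.mu := by
  have hf : ∀ a < 4 * M.n, M.nr a < 4 * M.n := fun a k => h.lk_lt (by unfold r4; omega)
  have e : ∀ a < 4 * M.n, ∀ b, Sc (4 * M.n) M.nr a b ↔ M.Rg a b := fun a k b => sc_iff hf k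
  refine congrArg (cnt M.n M.al - ·) (cnt_congr fun a k => and_congr (and_congr_right fun _ => ?_)
    (forall_congr' fun b => imp_congr_right fun _ => imp_congr_left (e a k b)))
  constructor
  · rintro ⟨y, -, u, v⟩ c
    exact c y ((e a k y).1 u) v
  · intro c
    obtain ⟨y, u⟩ := not_forall.1 c
    obtain ⟨u, v⟩ := Classical.not_imp.1 u
    exact ⟨y, ((e a k y).2 u).lt hf k, (e a k y).2 u, not_not.1 v⟩

theorem muBC {κ β n : List Bool → ℕ} {lk : List Bool → Orc → ℕ → ℕ} (hn : Cn κ fun x _ => n x)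
    (hb : ∀ x, 4 * n x ≤ β x) (hl : F1 κ β β fun x g _ => lk x g) :
    Nq κ β β fun x g _ => muB (n x) (lk x g) := by
  have n4 : Nq κ β β fun x _ _ => 4 * n x := Q.mul (Q.c 4) (Q.lift hn)
  have r : ∀ {a : EN}, Nq κ β β a → Nq κ β β fun x g ρ => lk x g (r4 (a x g ρ)) := fun h =>
    hl (Q.add (Q.mul (Q.c 4) (Q.div h (Q.c 4))) (Q.mod (Q.add h (Q.c 1)) (Q.c 4)))
  have sc : ∀ {a b : EN}, Nq κ β β a → Nq κ β β b → Pq κ β β fun x g ρ =>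
      Sc (4 * n x) (fun y => lk x g (r4 y)) (a x g ρ) (b x g ρ) := fun {a b} ha hc =>
    Q.cgP (Q.ex (P := fun x g ρ t => it (4 * n x) (fun y => lk x g (r4 y)) (min t (4 * n x))
        (a x g ρ) = b x g ρ) n4 (fun x _ _ => hb x)
      (Q.eq (Q.it (f := fun x g _ y => lk x g (r4 y)) n4 (r (Q.v 0)) (Q.min (Q.v 0) n4)
        (fun x _ _ => (min_le_right _ _).trans (hb x)) (Q.w ha)) (Q.w hc))) fun x g ρ =>
      exists_congr fun t => and_congr_right fun k => by rw [min_eq_left k.le]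
  have al : ∀ {a : EN}, Nq κ β β a → Pq κ β β fun x g ρ => lk x g (4 * a x g ρ) ≠ 4 * a x g ρ :=
    fun h => Q.ne (hl (Q.mul (Q.c 4) h)) (Q.mul (Q.c 4) h)
  refine Q.sub (Q.cnt (P := fun x g _ c => lk x g (4 * c) ≠ 4 * c) (Q.lift hn)
    (fun x _ _ => by have := hb x; omega) (al (Q.v 0))) ?_
  exact Q.cnt (P := fun x g _ d => (lk x g (4 * (d / 4)) ≠ 4 * (d / 4) ∧
      ∃ y < 4 * n x, Sc (4 * n x) (fun y => lk x g (r4 y)) d y ∧ lk x g (r4 y) % 4 ≠ y % 4) ∧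
      ∀ e < 4 * n x, Sc (4 * n x) (fun y => lk x g (r4 y)) d e → d ≤ e) n4 (fun x _ _ => hb x)
    (Q.and (Q.and (al (Q.div (Q.v 0) (Q.c 4)))
      (Q.ex (P := fun x g ρ y => Sc (4 * n x) (fun y => lk x g (r4 y)) (hd (ρ 0)) y ∧
          lk x g (r4 y) % 4 ≠ y % 4) n4 (fun x _ _ => hb x)
        (Q.and (sc (Q.v 1) (Q.v 0)) (Q.ne (Q.mod (r (Q.v 0)) (Q.c 4)) (Q.mod (Q.v 0) (Q.c 4))))))
      (Q.all (P := fun x g ρ e => Sc (4 * n x) (fun y => lk x g (r4 y)) (hd (ρ 0)) e →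
          hd (ρ 0) ≤ e) n4 (fun x _ _ => hb x) (Q.imp (sc (Q.v 1) (Q.v 0)) (Q.le (Q.v 1) (Q.v 0)))))

theorem code0 {m : ℕ} (σ α : Equiv.Perm (Fin m)) (dir : Fin m → Bool) (s t : Fin m)
    (h1 : α * α = 1) (h2 : Planar σ α) {x : List Bool} (hx : x = PR.code σ α dir s t) :
    (M0 x).Ok ∧ (M0 x).al (z0 x) ∧ (Reach σ α dir s t ↔ (M0 x).Cy 0 (z0 x)) := by
  obtain ⟨k1, k2, k3, k4⟩ := Ct.zero_ok σ α dir s t h1 h2 hx
  have e : M0 x = Ct.zm (cells (inp x)) (rho (inp x)) := by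
    refine congrArg (Cm.mk _) (funext fun p => ?_)
    by_cases c : p < 4 * cells (inp x)
    · have u : (if p < 4 * cells (inp x) then lam (cells (inp x)) (rho (inp x)) p else p) <
        4 * cells (inp x) := k1.lk_lt c
      rw [if_pos c] at u
      rw [if_pos c, if_pos ⟨c, u⟩]
    · rw [if_neg c, if_neg fun u => c u.1]
  rw [e]
  exact ⟨k1, (k2 _).2 k3, k4⟩

namespace B0

theorem lk_lt (x : List Bool) {p : ℕ} (h : p < 4 * (M0 x).n) : (M0 x).lk p < 4 * (M0 x).n := by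
  show (if _ then _ else _) < _
  split_ifs with k
  exacts [k.2, h]

theorem lk_ge (x : List Bool) {p : ℕ} (h : 4 * (M0 x).n ≤ p) : (M0 x).lk p = p :=
  if_neg fun k => absurd k.1 (not_lt.2 h)

theorem al_lt (x : List Bool) {c : ℕ} (h : (M0 x).al c) : c < (M0 x).n :=
  not_le.1 fun k => h (lk_ge x (by omega))

theorem st_lt (x : List Bool) (i : ℕ) : ∀ c < (M0 x).n, (M0 x).st i c < (M0 x).n := fun c h => by
  have := lk_lt x (p := pt c i) (by unfold pt; omega)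
  unfold Cm.st
  omega

theorem wk_eq (x : List Bool) (i c t : ℕ) : (M0 x).wk i c t =
    if c < (M0 x).n then it (M0 x).n ((M0 x).st i) t c else c := by
  split_ifs with h
  · exact (it_eq (st_lt x i) h t).symm
  · refine Function.iterate_fixed ?_ t
    rw [Cm.st, lk_ge x (by unfold pt; omega), pt_div]

theorem ok_iff (x : List Bool) (A : Sg) : (M0 x).ok A ↔
    A.i < 4 ∧ (M0 x).al A.p ∧ ∃ t < (M0 x).n, (M0 x).wk A.i A.p t = A.q :=
  and_congr_right fun _ => and_congr_right fun h => ⟨fun ⟨_, k⟩ =>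
    iter_bnd' (Q := fun a => a < (M0 x).n) (st_lt x _) (fun _ h => h) (al_lt x h) k,
    fun ⟨t, _, k⟩ => ⟨t, k⟩⟩

variable {κ : List Bool → ℕ} {i a b c t : List Bool → Env → ℕ} {A B : List Bool → Env → Sg}

/-- A computable segment. -/
def Sv (κ : List Bool → ℕ) (A : List Bool → Env → Sg) : Prop :=
  (Cn κ fun x ρ => (A x ρ).i) ∧ (Cn κ fun x ρ => (A x ρ).p) ∧ (Cn κ fun x ρ => (A x ρ).s) ∧
    Cn κ fun x ρ => (A x ρ).q

theorem Sv.w (h : Sv κ A) : Sv κ fun x ρ => A x (tl ρ) :=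
  ⟨K.w h.1, K.w h.2.1, K.w h.2.2.1, K.w h.2.2.2⟩

theorem n : Cn κ fun x _ => (M0 x).n := (redC κ).1

theorem z : Cn κ fun x _ => z0 x := (redC κ).2.2.1

theorem lk (h : Cn κ a) : Cn κ fun x ρ => (M0 x).lk (a x ρ) :=
  have l := K.app (f := fun x _ => lam (cells (inp x)) (rho (inp x))) (redC κ).2.2.2.1 h
  K.ite (K.and (K.lt h (K.mul (K.c 4) n)) (K.lt l (K.mul (K.c 4) n))) l h

theorem al (h : Cn κ a) : PR.Cp κ fun x ρ => (M0 x).al (a x ρ) :=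
  K.ne (lk (K.mul (K.c 4) h)) (K.mul (K.c 4) h)

theorem pt (ha : Cn κ a) (hb : Cn κ b) : Cn κ fun x ρ => pt (a x ρ) (b x ρ) :=
  K.add (K.mul (K.c 4) ha) (K.mod hb (K.c 4))

theorem st (hi : Cn κ i) (ha : Cn κ a) : Cn κ fun x ρ => (M0 x).st (i x ρ) (a x ρ) :=
  K.div (lk (pt ha hi)) (K.c 4)

theorem ss (hi : Cn κ i) (ha : Cn κ a) : Cn κ fun x ρ => (M0 x).ss (i x ρ) (a x ρ) :=
  K.ite (K.eq (K.mod (lk (pt ha hi)) (K.c 4)) (K.mod (K.add hi (K.c 1)) (K.c 4)))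
    (K.mod hi (K.c 4)) (K.mod (K.add hi (K.c 3)) (K.c 4))

theorem wk (hi : Cn κ i) (ha : Cn κ a) (ht : Cn κ t) :
    Cn κ fun x ρ => (M0 x).wk (i x ρ) (a x ρ) (t x ρ) :=
  K.cg (K.ite (i := fun _ _ => propDecidable _) (K.lt ha n)
    (K.it (f := fun x ρ => (M0 x).st (i x ρ)) n (st (K.w hi) (K.v 0)) ht ha) ha)
    fun x ρ => by rw [wk_eq]; congr

theorem En0 (hi : Cn κ i) (ha : Cn κ a) : Cn κ fun x ρ => (M0 x).En0 (i x ρ) (a x ρ) :=
  K.ite (al ha) (K.lst (P := fun x ρ y => ∃ t < (M0 x).n,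
      (M0 x).wk (i x ρ) (a x ρ) ((M0 x).n + t) = y) n
    (K.ex (P := fun x ρ t => (M0 x).wk (i x (tl ρ)) (a x (tl ρ)) ((M0 x).n + t) = hd (ρ 0)) n
      (K.eq (wk (K.w (K.w hi)) (K.w (K.w ha)) (K.add n (K.v 0))) (K.v 1)))) n

theorem FE (hi : Cn κ i) (ha : Cn κ a) (hb : Cn κ b) :
    Cn κ fun x ρ => (M0 x).FE (i x ρ) (a x ρ) (b x ρ) :=
  have h := K.eq (ss (K.w hi) (wk (K.w hi) (K.w ha) (K.v 0))) (K.w hb)
  K.ite (K.and (al ha) (K.ex (P := fun x ρ t =>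
      (M0 x).ss (i x ρ) ((M0 x).wk (i x ρ) (a x ρ) t) = b x ρ) n h))
    (wk hi ha (K.add (K.lst (P := fun x ρ t =>
      (M0 x).ss (i x ρ) ((M0 x).wk (i x ρ) (a x ρ) t) = b x ρ) n h) (K.c 1))) n

theorem el (h : Sv κ A) (ht : Cn κ t) : Cn κ fun x ρ => (M0 x).el (A x ρ) (t x ρ) :=
  wk h.1 h.2.1 ht

theorem sv (h : Sv κ A) (ht : Cn κ t) : Cn κ fun x ρ => (M0 x).sv (A x ρ) (t x ρ) :=
  K.ite (K.eq ht (K.c 0)) h.2.2.1 (ss h.1 (wk h.1 h.2.1 (K.sub ht (K.c 1))))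

theorem ln (h : Sv κ A) : Cn κ fun x ρ => (M0 x).ln (A x ρ) :=
  K.lst (P := fun x ρ t => (M0 x).el (A x ρ) t = (A x ρ).q) n
    (K.eq (el h.w (K.v 0)) (K.w h.2.2.2))

theorem ok (h : Sv κ A) : PR.Cp κ fun x ρ => (M0 x).ok (A x ρ) :=
  K.cgP (K.and (K.lt h.1 (K.c 4)) (K.and (al h.2.1)
    (K.ex (P := fun x ρ t => (M0 x).wk (A x ρ).i (A x ρ).p t = (A x ρ).q) n
      (K.eq (el h.w (K.v 0)) (K.w h.2.2.2))))) fun x _ => (ok_iff x _).symm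

theorem Ps (h : Sv κ A) (ha : Cn κ a) (hb : Cn κ b) :
    PR.Cp κ fun x ρ => (M0 x).Ps (A x ρ) (a x ρ) (b x ρ) :=
  K.cgP (K.ex (P := fun x ρ t => (M0 x).el (A x ρ) t = a x ρ ∧ (M0 x).sv (A x ρ) t = b x ρ)
    (K.add (ln h) (K.c 1)) (K.and (K.eq (el h.w (K.v 0)) (K.w ha)) (K.eq (sv h.w (K.v 0)) (K.w hb))))
    fun _ _ => exists_congr fun _ => and_congr_left' Nat.lt_succ_iff

theorem hit (ha : Cn κ a) (hb : Cn κ b) (h : Sv κ A) (k : Sv κ B) (ht : Cn κ t) :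
    PR.Cp κ fun x ρ => (M0 x).hit (a x ρ) (b x ρ) (A x ρ) (B x ρ) (t x ρ) :=
  K.and (K.le ht (ln h)) (K.and (K.eq (sv h ht) ha) (Ps k (el h ht) hb))

theorem F (fl : Bool) (ha : Cn κ a) (hb : Cn κ b) (h : Sv κ A) (k : Sv κ B) :
    Cn κ fun x ρ => (M0 x).F fl (a x ρ) (b x ρ) (A x ρ) (B x ρ) := by
  have u := hit (K.w ha) (K.w hb) h.w k.w (K.v 0)
  refine K.ite (K.and (ok h) (K.and (ok k) (K.ex (P := fun x ρ t =>
    (M0 x).hit (a x ρ) (b x ρ) (A x ρ) (B x ρ) t) n u))) (el h ?_) n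
  cases fl
  · exact K.sub (K.sub n (K.c 1)) (K.lst (P := fun x ρ t =>
      (M0 x).hit (a x ρ) (b x ρ) (A x ρ) (B x ρ) ((M0 x).n - 1 - t)) n
      (hit (K.w ha) (K.w hb) h.w k.w (K.sub (K.sub n (K.c 1)) (K.v 0))))
  · exact K.lst (P := fun x ρ t => (M0 x).hit (a x ρ) (b x ρ) (A x ρ) (B x ρ) t) n u

end B0

end

end Pool.Agent.MP_1a6d78_lc.PS

end MrgPart0

-- ======== part 1: formerly Pool.Agent.MP_1a6d78_lc.PS.FSpec
section MrgPart1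

/-! PROJECT PSC: cuts, basins, progress.  Statements of the rows; hints: PSC1a6d78_FSPEC.md. -/

namespace Pool.Agent.MP_1a6d78_lc.PS

open Classical ED PR PL Relation

noncomputable section

namespace Cm

variable (M : Cm)

/-- `v` is on a limit cycle of type `t` with cells of both kinds. -/
def Rng (t v : ℕ) : Prop :=
  M.Per t v ∧ (∃ y, M.Pa t v y ∧ M.Kd t (t % 4) y) ∧ ∃ y, M.Pa t v y ∧ M.Kd t ((t + 3) % 4) y

/-- The link at the port `p` is used by the `t`-walk of `v`. -/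
def On (t v p : ℕ) : Prop :=
  (p % 4 = t % 4 ∧ M.Pa t v (p / 4)) ∨ (M.lk p % 4 = t % 4 ∧ M.Pa t v (M.lk p / 4))

/-- A piece of an `i`-walk that passes all cells after the first by the side `a`. -/
def Run (i a : ℕ) : ℕ → ℕ → Prop := ReflTransGen fun x y => y = M.st i x ∧ M.ss i x = a

def Cfg (i e a b : ℕ) : Prop := M.al a ∧ M.lk (pt a (i + e)) = pt b (i + 2)

/-- The first cell that the `i`-walk of `a` enters by the port `i - e`. -/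
def Fh (i e a h : ℕ) : Prop :=
  ∃ r, M.Run i (sd i (i + e)) a r ∧ M.lk (pt r i) = pt h (i + e + 2)

/-- The last cell of the run of type `i - e` from `b` that enters by the port `i + 2`. -/
def Lu (i e b u : ℕ) : Prop :=
  M.Run (i + e + 2) (sd (i + e + 2) (i + 2)) b u ∧ M.lk (pt u (i + e + 2)) % 4 = i % 4

def Clo (W : ℕ → Prop) : Prop := ∀ p, W (p / 4) → W (M.lk p / 4)

def Cln (z : ℕ) (W : ℕ → Prop) : Prop := ¬W z ∧ ∀ p, M.Prb p → ¬W (p / 4)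

/-- A piece of a wall: the cells passed by the side 2 are dead, the others are not. -/
def Seg (x : ℕ) : ℕ → ℕ → Prop :=
  ReflTransGen fun c d => d = M.st 2 c ∧ (M.ss 2 c = 2 ↔ M.Dd x d)

/-- A closed wall. -/
def Cap (x t v : ℕ) : Prop := M.Rng t v ∧ ∀ y, M.Pa t v y → (M.Dd x y ↔ M.Kd t 2 y)

/-- A system of whole rings. -/
def Rs (R : ℕ → ℕ → Prop) : Prop := ∀ t y, R t y → t < 4 ∧ M.Rng t y ∧ R t (M.st t y)

def One (t v : ℕ) (t' y : ℕ) : Prop := t' = t ∧ M.Pa t v y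

/-- The rings of type 0 of the cells with `R`. -/
def Zr (R : ℕ → Prop) (t y : ℕ) : Prop := t = 0 ∧ M.Per 0 y ∧ ∃ v, R v ∧ M.Co 0 y v

/-- `M'` comes from `M` by cutting the rings of the system `R`. -/
structure Cutx (M' : Cm) (R : ℕ → ℕ → Prop) : Prop where
  n : M'.n = M.n
  inv : ∀ p, M'.lk (M'.lk p) = p
  ring : ∀ t y a, R t y → M.Kd t a y → M'.lk (pt y t) = pt (M.FE t y a) (ep t a)
  off : ∀ p, (¬∃ t a, R t (p / 4) ∧ M.Kd t a (p / 4) ∧ (p % 4 = t ∨ p % 4 = ep t a)) →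
    M'.lk p = M.lk p

/-- The label `x` is a corner of a ring of the system. -/
def Cor (R : ℕ → ℕ → Prop) (x : ℕ) : Prop := ∃ t, R t (x / 4) ∧ M.Kd t (x % 4) (x / 4)

/-- The test of the cut without the candidate. -/
def All (v : ℕ) : Prop :=
  ∀ p, M.Eg v p → (p % 4 = 0 ∧ M.Per 0 (p / 4) ∧ M.Co 0 (p / 4) v) ∨
    ∃ y, M.Pa 1 (p / 4) y ∧ M.Rc v 0 y

/-- The inner side of the ring is clean and the outer pole pays after the cut. -/
def Pend (z v : ℕ) : Prop :=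
  M.Rng 0 v ∧ ∃ (M' : Cm) (W : ℕ → Prop), M'.Ok ∧ M.Cutx M' (M.One 0 v) ∧ M'.Clo W ∧ M'.Cln z W ∧
    W (M.FE 0 v 3) ∧ M'.NT z (M.FE 0 v 0)

/-- Enough poles and rings that pay. -/
def Wit (z : ℕ) : Prop :=
  ∃ A P : Finset (ℕ × ℕ), M.mu + 1 ≤ A.card + P.card ∧
    (∀ a ∈ A, a.1 < 4 ∧ (M.tw a.1).Top a.2 ∧ (M.tw a.1).NT z a.2) ∧
    (∀ a ∈ A, ∀ b ∈ A, a.1 = b.1 → (M.tw a.1).Rg (4 * a.2) (4 * b.2) → a = b) ∧
    (∀ a ∈ P, a.1 < 8 ∧ (M.tw a.1).Pend z a.2) ∧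
    ∀ a ∈ P, ∀ b ∈ P, a.1 = b.1 → (M.tw a.1).Co 0 a.2 b.2 → a = b

end Cm

/-! ### Kit -/

/-- WALK -/
structure WalkK (M : Cm) : Prop where
  lk_al : ∀ p, M.al (M.lk p / 4) ↔ M.al (p / 4)
  st_al : ∀ i c, M.al (M.st i c) ↔ M.al c
  pa_al : ∀ i a b, M.Pa i a b → (M.al b ↔ M.al a)
  ent : ∀ i c, M.al c → M.lk (pt c i) = pt (M.st i c) (ep i (M.ss i c))
  back : ∀ i c, M.al c → M.st (ep i (M.ss i c)) (M.st i c) = c ∧
    M.lk (pt (M.st i c) (ep i (M.ss i c))) = pt c i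
  ev : ∀ i c, M.al c → ∃ u, M.Pa i c u ∧ M.Per i u
  per_pa : ∀ i a b, M.Per i a → M.Pa i a b → M.Per i b ∧ M.Pa i b a
  per_inj : ∀ i a b, M.Per i a → M.Per i b → M.st i a = M.st i b → a = b
  kd_ex : ∀ i y, M.Per i y → M.Kd i (i % 4) y ∨ M.Kd i ((i + 3) % 4) y
  kd_per : ∀ i a y, M.Kd i a y → M.Per i y ∧ (a = i % 4 ∨ a = (i + 3) % 4)
  kd_one : ∀ i a b y, M.Kd i a y → M.Kd i b y → a = b
  kd_iff : ∀ i a y, M.Kd i a y ↔ (a = i % 4 ∨ a = (i + 3) % 4) ∧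
    M.lk (pt y (ep i a)) % 4 = i % 4 ∧ M.Per i (M.lk (pt y (ep i a)) / 4)
  co_trans : ∀ i a b c, M.Co i a b → M.Co i b c → M.Co i a c
  co_per : ∀ i a b, M.Per i b → (M.Co i a b ↔ M.Pa i a b)
  fe : ∀ i c a, M.FE i c a < M.n ↔ M.al c ∧ ∃ t, M.ss i (M.wk i c t) = a
  fe_spec : ∀ i c a, M.FE i c a < M.n → ∃ t, M.FE i c a = M.wk i c (t + 1) ∧
    M.ss i (M.wk i c t) = a ∧ ∀ s < t, M.ss i (M.wk i c s) ≠ a
  fe_kd : ∀ i v y a, M.Per i v → M.Pa i v y → M.Kd i a y →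
    M.FE i v a < M.n ∧ M.Pa i v (M.FE i v a) ∧ M.Kd i a (M.FE i v a)
  ring : ∀ v, M.Ring v ↔ M.Rng 0 v
  rn_pa : ∀ t v y, M.Rng t v → M.Pa t v y → M.Rng t y

def S_Walk : Prop := ∀ M : Cm, M.Ok → WalkK M

/-- REGION -/
structure RegK (M : Cm) : Prop where
  al : ∀ x y, M.Rg x y → (M.al (y / 4) ↔ M.al (x / 4))
  par : ∀ x y, M.al (x / 4) → M.Rg x y → y % 2 = x % 2
  symm : ∀ x y, M.Rg x y → M.Rg y x
  inj : ∀ x y, M.nr x = M.nr y → x = y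
  crit : ∀ x y, M.Rg x y → (M.Crit x ↔ M.Crit y)
  sad : ∀ x y, M.Rg x y → (M.Sad x ↔ M.Sad y)
  fw : ∀ p, M.Rg (r3 p) (M.lk p)
  bw : ∀ p, M.Rg (r3 (M.lk p)) p
  prb_lk : ∀ p, M.Prb (M.lk p) ↔ M.Prb p
  prb_up : ∀ p, M.lk p % 4 = (p + 1) % 4 → (M.Prb p ↔ M.al (p / 4) ∧ M.Sad (r3 p))
  prb_dn : ∀ p, M.lk p % 4 = (p + 3) % 4 → (M.Prb p ↔ M.al (p / 4) ∧ M.Sad p)
  alt : ∀ x, M.al (x / 4) → ¬M.Crit x → ∀ q, q % 2 = x % 2 →
    ∃ y, M.Rg x y ∧ M.Alt y ∧ y % 4 = q % 4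
  sad2 : ∀ x, M.al (x / 4) → M.Sad x → ∀ q, q % 2 = x % 2 →
    ∃ y y', M.Rg x y ∧ M.Rg x y' ∧ y ≠ y' ∧ M.Alt y ∧ M.Alt y' ∧ y % 4 = q % 4 ∧ y' % 4 = q % 4
  crit_typ : ∀ x y, M.Crit x → M.Rg x y → y % 4 = x % 4
  crit_kd : ∀ c a, a < 4 → M.al c → M.Crit (4 * c + a) → M.Kd a a c ∧ M.Kd (a + 1) a c ∧
    ∀ y, (M.Rg (4 * c + a) (4 * y + a) ↔ M.Pa a c y) ∧
      (M.Rg (4 * c + a) (4 * y + a) ↔ M.Pa (a + 1) c y)
  kd_crit : ∀ i a c, (∀ y, M.Pa i c y → M.Kd i a y) → M.Crit (4 * c + a)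
  run : ∀ i e a b, e = 1 ∨ e = 3 → M.Cfg i e a b → (∃ h, M.Fh i e a h) ∧ ∃ u, M.Lu i e b u
  flow : ∀ i e a b h u, e = 1 ∨ e = 3 → M.Cfg i e a b → M.Fh i e a h → M.Lu i e b u →
    (h ≠ u ↔ M.Prb (pt a (i + e))) ∧ (h ≠ u ↔ M.Prb (pt h (i + e + 2))) ∧
      (h ≠ u ↔ M.Prb (pt u (i + e + 2)))

def S_Reg : Prop := ∀ M : Cm, M.Ok → RegK M

/-- DEAD -/
structure DeadK (M : Cm) (x : ℕ) : Prop where
  al : ∀ c, M.Dd x c → M.al c
  up : ∀ c, M.Dd x c → M.Dd x (M.st 0 c) ∧ M.Dd x (M.st 1 c)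
  out : ∀ c d, M.Dd x c → M.Rg (4 * c) (4 * d) → M.Dd x d
  inc : ∀ c u, M.Dd x c → M.Rg (4 * c) (4 * u + 2) → M.Dd x u
  co : ∀ c, M.Dd x c → M.Pa 0 c x ∧ M.Pa 1 c x
  cyc : ∀ c, M.Dd x c → ¬M.Kd 2 1 c ∧ ¬M.Kd 3 3 c ∧ ¬M.Kd 0 3 c ∧ ¬M.Kd 1 1 c ∧
    ¬M.Rng 0 c ∧ ¬M.Rng 1 c
  top1 : ∀ c, M.Dd x c → ∃ o o', M.Run 1 1 c o' ∧ M.lk (4 * o' + 1) = 4 * o ∧ M.Dd x o ∧
    M.Dd x o' ∧ M.Rg (4 * c + 1) (4 * o' + 1)
  top3 : ∀ c, M.Dd x c → ∃ o o', M.Run 0 3 c o ∧ M.lk (4 * o) = 4 * o' + 1 ∧ M.Dd x o ∧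
    M.Dd x o' ∧ M.Rg (4 * c + 3) (4 * o' + 1)
  same : ∀ y, M.Rg (4 * x) (4 * y) →
    M.Top y ∧ (∀ c, M.Dd y c ↔ M.Dd x c) ∧ ∀ z, M.NT z y ↔ M.NT z x

def S_Dead : Prop := ∀ M : Cm, M.Ok → ∀ x, M.Top x → DeadK M x

/-- FRAME -/
structure TwK (M : Cm) (g : ℕ) : Prop where
  ok : (M.tw g).Ok
  al : ∀ c, (M.tw g).al c ↔ M.al c
  cell : ∀ p, (M.tw g).lk p / 4 = M.lk (tp g p) / 4
  port : ∀ p, fp g ((M.tw g).lk p) = M.lk (tp g p) % 4
  st : ∀ i c, (M.tw g).st i c = M.st (fp g i) c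
  pa : ∀ i a b, (M.tw g).Pa i a b ↔ M.Pa (fp g i) a b
  per : ∀ i c, (M.tw g).Per i c ↔ M.Per (fp g i) c
  co : ∀ i a b, (M.tw g).Co i a b ↔ M.Co (fp g i) a b
  kd : ∀ i a y, a < 4 → ((M.tw g).Kd i a y ↔ M.Kd (fp g i) (fs g a) y)
  fe : ∀ i c a, a < 4 → (M.tw g).FE i c a = M.FE (fp g i) c (fs g a)
  rn : ∀ t v, (M.tw g).Rng t v ↔ M.Rng (fp g t) v
  rg : ∀ x y, (M.tw g).Rg x y ↔ M.Rg (Ct.ts g x) (Ct.ts g y)
  crit : ∀ x, (M.tw g).Crit x ↔ M.Crit (Ct.ts g x)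
  sad : ∀ x, (M.tw g).Sad x ↔ M.Sad (Ct.ts g x)
  prb : ∀ p, (M.tw g).Prb p ↔ M.Prb (tp g p)
  mu : (M.tw g).mu = M.mu
  clo : ∀ W, (M.tw g).Clo W ↔ M.Clo W
  cln : ∀ z W, (M.tw g).Cln z W ↔ M.Cln z W
  back : (M.tw g).tw (gi g) = M
  comp : ∀ h < 8, ∃ k < 8, (∀ q, fp k q = fp g (fp h q)) ∧ (∀ a, fs k a = fs g (fs h a)) ∧
    (k < 4 ↔ (g < 4 ↔ h < 4)) ∧ (M.tw g).tw h = M.tw k

def S_Tw : Prop := ∀ M : Cm, M.Ok → ∀ g < 8, TwK M g

/-- MIRROR -/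
def S_Mir : Prop := ∀ M : Cm, M.Ok → ∀ x, M.Top x →
  (M.tw 5).Top x ∧ (∀ c, (M.tw 5).Dd x c ↔ M.Dd x c) ∧ ∀ z, (M.tw 5).NT z x ↔ M.NT z x

/-- Cuts in another frame. -/
def S_TwC : Prop := ∀ (M M' : Cm) (R : ℕ → ℕ → Prop), M.Ok → M'.Ok → M.Rs R → M.Cutx M' R →
  ∀ g < 8, (M.tw g).Rs (fun t y => t < 4 ∧ R (fp g t) y) ∧
    (M.tw g).Cutx (M'.tw g) fun t y => t < 4 ∧ R (fp g t) y

/-- The cut of the machine is a cut of a system; cuts of one ring exist. -/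
def S_CutEx : Prop := ∀ M : Cm, M.Ok →
  (∀ (M' : Cm) (R : ℕ → Prop), (∀ v, R v → M.Ring v) →
    M.Rs (M.Zr R) ∧ (M.Cutm M' R ↔ M.Cutx M' (M.Zr R)) ∧ (M.Cutm M' R → M'.Ok)) ∧
  ∀ t < 4, ∀ v, M.Rng t v → M.Rs (M.One t v) ∧ ∃ M' : Cm, M'.Ok ∧ M.Cutx M' (M.One t v)

/-! ### Planarity -/

/-- SIDE -/
def S_Side : Prop := ∀ M : Cm, M.Ok → ∀ t < 4, ∀ v, M.Rng t v → ∃ W : ℕ → Prop,
  (∀ y, M.Pa t v y → (W y ↔ M.Kd t t y)) ∧ ∀ p, ¬M.On t v p → (W (p / 4) ↔ W (M.lk p / 4))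

/-- SEP -/
def S_Sep : Prop := ∀ M : Cm, M.Ok → ∀ t < 4, ∀ v, M.Rng t v →
  (∀ a, M.Kd t a v → ¬M.Per (ep t a) v) ∧
    ∀ t' < 4, ∀ u p, M.Per t' u → M.On t v p → M.On t' u p → t' = t ∧ M.Pa t v u

/-- BASE -/
def S_Base : Prop := ∀ M : Cm, M.Ok → ∀ z, M.al z → ∃ S : Finset ℕ, M.mu + 2 ≤ S.card ∧
  (∀ x ∈ S, M.al (x / 4) ∧ M.Crit x ∧ ∀ W, M.Clo W → M.Cln z W → ¬W (x / 4)) ∧
    ∀ x ∈ S, ∀ y ∈ S, M.Rg x y → x = y

/-! ### Basins and walls -/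

/-- BASIN -/
def S_Bas : Prop := ∀ M : Cm, M.Ok → ∀ (B : ℕ → Prop) (i e a b : ℕ), e = 1 ∨ e = 3 →
  (∀ c, B (M.st i c) ↔ B c) → M.Cfg i e a b → ¬M.Kd (i + 2) (sd (i + 2) (i + e + 2)) b →
    ¬(B a ↔ B b) → ∃ e' a' b' h u, (e' = 1 ∨ e' = 3) ∧ M.Cfg i e' a' b' ∧ M.Pa (i + 2) b' b ∧
      M.Fh i e' a' h ∧ M.Lu i e' b' u ∧ ¬(B h ↔ B u) ∧ M.Prb (pt h (i + e' + 2)) ∧
        M.Prb (pt u (i + e' + 2))

/-- WALL -/
def S_Wall : Prop := ∀ M : Cm, M.Ok → ∀ x g, M.Top x → M.lk (4 * g + 2) % 4 = 3 → ¬M.Dd x g →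
  M.Dd x (M.st 2 g) →
    (∃ w, M.Seg x w g ∧ ((¬M.Dd x w ∧ M.Prb (4 * w + 2) ∧ M.lk (4 * w + 2) % 4 = 3 ∧
      M.Dd x (M.st 2 w)) ∨ (M.Dd x w ∧ M.Prb (4 * w + 3) ∧ M.lk (4 * w + 3) % 4 = 0 ∧
        ¬M.Dd x (M.st 3 w)))) ∨ M.Cap x 2 g

/-- The border of a kill that does not pay, walls of type 2. -/
def S_G0a : Prop := ∀ M : Cm, M.Ok → ∀ z x p, M.Top x → ¬M.NT z x → M.Dd x (p / 4) →
  ¬M.Dd x (M.lk p / 4) → (p % 4 = 3 → M.lk p % 4 = 2 → M.Cap x 2 (M.lk p / 4)) ∧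
    (p % 4 = 2 → M.lk p % 4 = 1 → M.Cap x 2 (p / 4))

/-- The border of a kill that does not pay. -/
def S_G0 : Prop := ∀ M : Cm, M.Ok → ∀ z x p, M.Top x → ¬M.NT z x → M.Dd x (p / 4) →
  ¬M.Dd x (M.lk p / 4) → ∃ t, (t = 2 ∨ t = 3) ∧
    ((p % 4 = t ∧ M.Cap x t (p / 4)) ∨ (M.lk p % 4 = t ∧ M.Cap x t (M.lk p / 4)))

def S_G1 : Prop := ∀ M : Cm, M.Ok → ∀ z x y, M.Top x → ¬M.NT z x → M.Dd x y →
  M.Crit (4 * y + 2) → M.Clo (M.Dd x)

/-- Probes and kills that pay. -/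
def S_PE : Prop := ∀ M : Cm, M.Ok → ∀ z x, M.Top x →
  (M.NT z x → M.Dd x z ∨ ∀ q, ∃ p, M.Prb p ∧ M.Dd x (p / 4) ∧ p % 2 = q % 2) ∧
  (¬M.NT z x → M.Clo (M.Dd x) → M.Cln z (M.Dd x)) ∧
  ∀ W, M.Clo W → M.Cln z W → W x → ¬M.NT z x

/-! ### Cuts -/

/-- Walks after a cut. -/
structure CutWK (M M' : Cm) (R : ℕ → ℕ → Prop) : Prop where
  al : ∀ c, M'.al c ↔ M.al c
  keep : ∀ t < 4, ∀ v, M.Rng t v → ¬R t v → M'.Rng t v ∧ (∀ p, M.On t v p → M'.lk p = M.lk p) ∧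
    (∀ y, M'.Pa t v y ↔ M.Pa t v y) ∧ (∀ a, M'.Kd t a v ↔ M.Kd t a v) ∧
      ∀ a, M'.FE t v a = M.FE t v a
  lift : ∀ t < 4, ∀ v, M'.Rng t v → M.Rng t v ∧ ¬R t v
  twin : ∀ t a y, R t y → M.Kd t a y → M'.Kd t a y ∧ M'.Kd (ep t a) a y ∧
    ∀ u, (M'.Pa t y u ↔ M.Pa t y u ∧ M.Kd t a u) ∧ (M'.Pa (ep t a) y u ↔ M.Pa t y u ∧ M.Kd t a u)
  typ : ∀ p, ¬R (p % 4) (p / 4) → M'.lk p % 4 = M.lk p % 4
  walk : ∀ i c y, M'.Pa i c y → M.Pa i c y ∨ ∃ u t a, M.Pa i c u ∧ M'.Pa i c u ∧ R t u ∧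
    M.Kd t a u ∧ (i % 4 = t ∨ i % 4 = ep t a)
  walk' : ∀ i c y, M.Pa i c y → M'.Pa i c y ∨ ∃ u t a, M.Pa i c u ∧ M'.Pa i c u ∧ R t u ∧
    M.Kd t a u ∧ (i % 4 = t ∨ i % 4 = ep t a)

def S_CutW : Prop := ∀ (M M' : Cm) (R : ℕ → ℕ → Prop), M.Ok → M'.Ok → M.Rs R → M.Cutx M' R →
  CutWK M M' R

/-- One step along a region after a cut. -/
def S_CutN : Prop := ∀ (M M' : Cm) (R : ℕ → ℕ → Prop), M.Ok → M'.Ok → M.Rs R → M.Cutx M' R →
  ∀ x, ¬M.Cor R x → ∃ k, 0 < k ∧ M'.nr x = M.nr^[k] x ∧ ¬M.Cor R (M'.nr x) ∧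
    (∀ s, 0 < s → s < k → M.Cor R (M.nr^[s] x)) ∧
    (1 < k → M'.Alt x ∧ ∃ s < k, M.Alt (M.nr^[s] x) ∧ M.nr^[s] x % 4 = x % 4 ∧
      ∀ s' < k, M.Alt (M.nr^[s'] x) → s' = s)

/-- Regions after a cut. -/
structure CutRK (M M' : Cm) (R : ℕ → ℕ → Prop) : Prop where
  rg : ∀ x y, ¬M.Cor R x → (M'.Rg x y ↔ M.Rg x y ∧ ¬M.Cor R y)
  cor : ∀ t a y, R t y → M.Kd t a y → M'.Crit (4 * y + a) ∧ ¬M.Crit (4 * y + a) ∧
    ∀ x, M'.Rg (4 * y + a) x ↔ x % 4 = a ∧ M.Pa t y (x / 4) ∧ M.Kd t a (x / 4)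
  ex : ∀ x, ∃ y, M.Rg x y ∧ ¬M.Cor R y
  crit : ∀ x, ¬M.Cor R x → (M'.Crit x ↔ M.Crit x)
  sad : ∀ x, ¬M.Cor R x → (M'.Sad x ↔ M.Sad x)
  prb : ∀ p, ¬R (p % 4) (p / 4) → (M'.Prb p ↔ M.Prb p)
  mu : M'.mu = M.mu

def S_CutR : Prop := ∀ (M M' : Cm) (R : ℕ → ℕ → Prop), M.Ok → M'.Ok → M.Rs R → M.Cutx M' R →
  CutRK M M' R

/-- CS -/
def S_CS : Prop := ∀ (M M' : Cm) (R : ℕ → ℕ → Prop), M.Ok → M'.Ok → M.Rs R → M.Cutx M' R →
  ∀ x, M.Top x → M'.Top x ∧ (∀ c, M'.Dd x c ↔ M.Dd x c) ∧ ∀ z, M'.NT z x ↔ M.NT z x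

/-- Cuts one after the other. -/
def S_Cmp : Prop := ∀ (M M1 M2 : Cm) (R R' : ℕ → ℕ → Prop), M.Ok → M1.Ok → M2.Ok → M.Rs R →
  M.Cutx M1 R →
    (M1.Rs R' → M1.Cutx M2 R' →
      M.Rs R' ∧ (∀ t y, R' t y → ¬R t y) ∧ M.Cutx M2 fun t y => R t y ∨ R' t y) ∧
    (M.Rs R' → (∀ t y, R t y → R' t y) → M.Cutx M2 R' →
      M1.Rs (fun t y => R' t y ∧ ¬R t y) ∧ M1.Cutx M2 fun t y => R' t y ∧ ¬R t y)

/-- OMEGA: what the test of the cut gives. -/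
def S_Om : Prop := ∀ M : Cm, M.Ok → ∀ v, M.Ring v → M.All v →
  (∀ c y, M.Pa 3 c y → M.Rc v 3 y → M.Co 1 c (M.FE 0 v 3) ∧ ∀ u, M.Pa 1 c u → ¬M.Rc v 0 u) ∧
  (∀ y, M.Rc v 0 y → M.Co 1 y (M.FE 0 v 3)) ∧ (∀ y, M.Rc v 3 y → ¬M.Prb (4 * y + 3)) ∧
  ∀ p y, M.Prb p → p % 2 = 0 → M.Pa 3 (p / 4) y → M.Rc v 3 y →
    p % 4 = 0 ∧ M.Rc v 3 (p / 4) ∧ M.Rc v 0 (M.lk p / 4)

def S_PC : Prop := ∀ M : Cm, M.Ok → ∀ z v, M.Pend z v → M.Cond z v

def S_PInj : Prop := ∀ M : Cm, M.Ok → ∀ z v v', M.Pend z v → M.Pend z v' →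
  M.Co 1 (M.FE 0 v 3) (M.FE 0 v' 3) → M.Co 0 v v'

/-- A ring that pays after the cut of a clean ring pays before. -/
def S_PT : Prop := ∀ (M M1 : Cm) (D : ℕ → Prop) (z t v v' : ℕ), M.Ok → M1.Ok → t < 4 →
  M.Rng t v → M.Cutx M1 (M.One t v) → M1.Clo D → M1.Cln z D → (∃ y, M.Pa t v y ∧ D y) →
    M1.Pend z v' → M.Pend z v'

def S_Step : Prop := ∀ (M M1 : Cm) (D : ℕ → Prop) (z t v : ℕ), M.Ok → M1.Ok → t < 4 →
  M.Rng t v → M.Cutx M1 (M.One t v) → M1.Clo D → M1.Cln z D → (∃ y, M.Pa t v y ∧ D y) →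
    M1.Wit z → M.Wit z

/-- ACT -/
def S_Act : Prop := ∀ M : Cm, M.Ok → ∀ z, M.al z → M.Wit z

/-- PROG -/
def S_Prog : Prop := ∀ M : Cm, M.Ok → ∀ z, M.al z → ∃ g < 8, ∃ Y : ℕ → Prop,
  M.mu + 1 ≤ 12 * cnt M.n Y ∧
    (((∀ x, Y x → (M.tw g).Top x ∧ (M.tw g).NT z x) ∧
      ∀ x y, Y x → Y y → (M.tw g).Rg (4 * x) (4 * y) → x = y) ∨
    ((∀ v, Y v → (M.tw g).Cond z v) ∧
      (∀ v v', Y v → Y v' → (M.tw g).Co 0 v v' → v = v') ∧
      (∀ v v', Y v → Y v' → (M.tw g).Co 1 ((M.tw g).FE 0 v 3) ((M.tw g).FE 0 v' 3) → v = v') ∧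
      ∀ (N' : Cm) (R : ℕ → Prop), (∀ v, R v → (M.tw g).Ring v) → (M.tw g).Cutm N' R →
        (∀ v v', Y v → R v' → (M.tw g).Co 0 v v' →
          N'.Top ((M.tw g).FE 0 v 0) ∧ N'.NT z ((M.tw g).FE 0 v 0)) ∧
        ∀ v w v' w', Y v → Y w → R v' → R w' → (M.tw g).Co 0 v v' → (M.tw g).Co 0 w w' →
          N'.Rg (4 * (M.tw g).FE 0 v 0) (4 * (M.tw g).FE 0 w 0) → v = w))

end

end Pool.Agent.MP_1a6d78_lc.PS

end MrgPart1

-- ======== part 2: formerly Pool.Agent.MP_1a6d78_lc.PS.FBas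
section MrgPart2

/-! PROJECT PSC, row BAS: the border of a basin has a saddle link. -/

namespace Pool.Agent.MP_1a6d78_lc.PS

open Classical Relation

namespace FBas

variable {M : Cm}

/-- One step of a run that enters by the port `i + 2`. -/
theorem step (H : M.Ok) (K : WalkK M) {i e x : ℕ} (he : e = 1 ∨ e = 3) (hx : M.al x)
    (hs : M.ss (i + e + 2) x = sd (i + e + 2) (i + 2)) :
    M.lk (pt x (i + e + 2)) = pt (M.st (i + e + 2) x) (i + 2) ∧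
      M.st (i + 2) (M.st (i + e + 2) x) = x ∧
      M.ss (i + 2) (M.st (i + e + 2) x) = sd (i + 2) (i + e + 2) := by
  have h1 : M.lk (pt x (i + e + 2)) = pt (M.st (i + e + 2) x) (i + 2) := by
    rw [K.ent _ _ hx, hs]
    unfold pt ep sd
    split_ifs <;> omega
  have h2 : M.lk (pt (M.st (i + e + 2) x) (i + 2)) = pt x (i + e + 2) := by
    rw [← h1, H.inv]
  refine ⟨h1, ?_, ?_⟩
  · show M.lk (pt (M.st (i + e + 2) x) (i + 2)) / 4 = x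
    rw [h2, pt_div]
  · show sd (i + 2) (M.lk (pt (M.st (i + e + 2) x) (i + 2))) = _
    rw [h2]
    unfold sd
    rw [pt_mod]

/-- The cells of a run lie behind its first cell. -/
theorem run (H : M.Ok) (K : WalkK M) {i e b x : ℕ} (he : e = 1 ∨ e = 3) (hb : M.al b)
    (r : M.Run (i + e + 2) (sd (i + e + 2) (i + 2)) b x) :
    M.al x ∧ M.Pa (i + 2) x b ∧ (x = b ∨ ∃ y, M.Pa (i + 2) x y ∧ M.st (i + 2) y = b ∧
      M.ss (i + 2) y = sd (i + 2) (i + e + 2)) := by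
  induction r with
  | refl => exact ⟨hb, Cm.Pa.refl _ _, Or.inl rfl⟩
  | @tail x y _ s ih =>
    obtain ⟨hx, hp, hq⟩ := ih
    obtain ⟨rfl, hs⟩ := s
    obtain ⟨_, h2, h3⟩ := step H K he hx hs
    have p1 : M.Pa (i + 2) (M.st (i + e + 2) x) x := by
      have := Cm.Pa.step (M := M) (i + 2) (M.st (i + e + 2) x)
      rwa [h2] at this
    refine ⟨H.al_st _ hx, p1.trans hp, Or.inr ?_⟩
    rcases hq with rfl | ⟨y, py, e1, e2⟩
    · exact ⟨_, Cm.Pa.refl _ _, h2, h3⟩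
    · exact ⟨y, p1.trans py, e1, e2⟩

/-- A run that changes membership has a step that does. -/
theorem change {B : ℕ → Prop} {j s b u : ℕ} (r : M.Run j s b u) :
    (B u ↔ B b) ∨ ∃ x, M.Run j s b x ∧ M.ss j x = s ∧ ¬(B x ↔ B (M.st j x)) := by
  induction r with
  | refl => exact Or.inl Iff.rfl
  | @tail x y r s ih =>
    obtain ⟨rfl, hs⟩ := s
    rcases ih with ih | ih
    · by_cases k : B x ↔ B (M.st j x)
      · exact Or.inl (k.symm.trans ih)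
      · exact Or.inr ⟨x, r, hs, k⟩
    · exact Or.inr ih

theorem keep {B : ℕ → Prop} {i s a r : ℕ} (hB : ∀ c, B (M.st i c) ↔ B c) (h : M.Run i s a r) :
    B r ↔ B a := by
  induction h with
  | refl => exact Iff.rfl
  | tail _ s ih => rw [s.1, hB, ih]

theorem flip {e : ℕ} (he : e = 1 ∨ e = 3) (x i : ℕ) :
    (4 - e = 1 ∨ 4 - e = 3) ∧ pt x (i + (4 - e)) = pt x (i + e + 2) := by
  unfold pt
  omega

theorem fin (H : M.Ok) (K : WalkK M) {j b : ℕ} (hb : M.al b) : {y | M.Pa j y b}.Finite :=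
  (Set.finite_lt_nat M.n).subset fun y hy => H.lt y ((K.pa_al j y b hy).1 hb)

end FBas

open FBas in
theorem fBas : S_Walk → S_Reg → S_Bas := by
  intro hW hR M H B i e a b he hB hc hk hab
  have K := hW M H
  have G := hR M H
  generalize hm : {y | M.Pa (i + 2) y b}.ncard = m
  induction m using Nat.strong_induction_on generalizing e a b with
  | _ m ih =>
  have hb : M.al b := by
    have := (K.lk_al (pt a (i + e))).2 (by rw [pt_div]; exact hc.1)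
    rwa [hc.2, pt_div] at this
  obtain ⟨⟨h, hh⟩, u, hu⟩ := G.run i e a b he hc
  rcases change (B := B) hu.1 with k | ⟨x, rx, hs, k⟩
  · have hha : B h ↔ B a := by
      obtain ⟨r, rr, er⟩ := hh
      have : h = M.st i r := by
        show h = M.lk (pt r i) / 4
        rw [er, pt_div]
      rw [this, hB, keep hB rr]
    have hne : ¬(B h ↔ B u) := fun l => hab (hha.symm.trans (l.trans k))
    have hhu : h ≠ u := fun l => hne (by rw [l])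
    obtain ⟨_, f2, f3⟩ := G.flow i e a b h u he hc hh hu
    exact ⟨e, a, b, h, u, he, hc, Cm.Pa.refl _ _, hh, hu, hne, f2.1 hhu, f3.1 hhu⟩
  · obtain ⟨hx, px, q⟩ := run H K he hb rx
    obtain ⟨h1, h2, h3⟩ := step H K he hx hs
    have hx' := H.al_st (i + e + 2) hx
    have p1 : M.Pa (i + 2) (M.st (i + e + 2) x) x := by
      have := Cm.Pa.step (M := M) (i + 2) (M.st (i + e + 2) x)
      rwa [h2] at this
    have px' := p1.trans px
    have np : ¬M.Per (i + 2) (M.st (i + e + 2) x) := by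
      intro p
      apply hk
      rcases q with l | ⟨y, py, e1, e2⟩
      · exact ⟨_, p, h2.trans l, h3⟩
      · exact ⟨y, (K.per_pa _ _ _ p (p1.trans py)).1, e1, e2⟩
    have hc' : M.Cfg i (4 - e) x (M.st (i + e + 2) x) := ⟨hx, by rw [(flip he x i).2, h1]⟩
    have lt : {y | M.Pa (i + 2) y (M.st (i + e + 2) x)}.ncard < m := by
      rw [← hm]
      refine Set.ncard_lt_ncard ⟨fun y hy => Cm.Pa.trans hy px', fun l => np ⟨hx', ?_⟩⟩
        (fin H K hb)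
      rw [h2]
      exact px.trans (l (Cm.Pa.refl _ _))
    obtain ⟨e', a', b', h', u', t1, t2, t3, t4⟩ := ih _ lt (4 - e) x _ (flip he x i).1 hc'
      (fun l => np (K.kd_per _ _ _ l).1) k rfl
    exact ⟨e', a', b', h', u', t1, t2, t3.trans px', t4⟩

end Pool.Agent.MP_1a6d78_lc.PS

end MrgPart2

-- ======== part 3: formerly Pool.Agent.MP_1a6d78_lc.PS.FG0
section MrgPart3

/-! PROJECT PSC: the border of a kill that does not pay. -/

namespace Pool.Agent.MP_1a6d78_lc.PS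

theorem fG0 : S_Walk → S_Dead → S_Tw → S_Mir → S_G0a → S_G0 := by
  intro _ hD hT hM hG M H z x p hx hn hd hl
  have D := hD M H x hx
  have T := hT M H 5 (by omega)
  obtain ⟨m1, m2, m3⟩ := hM M H x hx
  have par := H.par p (D.al _ hd)
  have f2 : fp 5 2 = 3 := by decide
  have s2 : fs 5 2 = 2 := by decide
  have cap : ∀ v, (M.tw 5).Cap x 2 v → M.Cap x 3 v := fun v h =>
    ⟨f2 ▸ (T.rn 2 v).1 h.1, fun y hy => by
      have := h.2 y ((T.pa 2 v y).2 (f2 ▸ hy))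
      rwa [m2, T.kd 2 2 y (by omega), f2, s2] at this⟩
  have e1 : tp 5 (tp 5 p) = p := (Ct.tp_tp (g := 5) (by omega) p).1
  have e2 := Ct.tp_div 5 p
  have e3 := Ct.tp_mod 5 p
  have e4 := T.cell (tp 5 p)
  have e5 := T.port (tp 5 p)
  rw [e1] at e4 e5
  have g1 := hG M H z x p hx hn hd hl
  have g2 := hG (M.tw 5) T.ok z x (tp 5 p) m1 (fun h => hn ((m3 z).1 h))
    (by rw [m2, e2]; exact hd) (by rw [m2, e4]; exact hl)
  rw [e2, e4] at g2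
  have up : ∀ i, p % 4 = i → M.lk p / 4 = M.st i (p / 4) := fun i hi => by
    unfold Cm.st pt
    congr 2
    omega
  unfold fp at e3 e5
  rw [if_neg (by omega)] at e3 e5
  obtain h | h | h | h : p % 4 = 0 ∨ p % 4 = 1 ∨ p % 4 = 2 ∨ p % 4 = 3 := by omega
  · exact absurd (up 0 h ▸ (D.up _ hd).1) hl
  · exact absurd (up 1 h ▸ (D.up _ hd).2) hl
  · by_cases k : M.lk p % 4 = 1
    · exact ⟨2, Or.inl rfl, Or.inl ⟨h, g1.2 h k⟩⟩
    · exact ⟨3, Or.inr rfl, Or.inr ⟨by omega, cap _ (g2.1 (by omega) (by omega))⟩⟩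
  · by_cases k : M.lk p % 4 = 2
    · exact ⟨2, Or.inl rfl, Or.inr ⟨k, g1.1 h k⟩⟩
    · exact ⟨3, Or.inr rfl, Or.inl ⟨h, cap _ (g2.2 (by omega) (by omega))⟩⟩

end Pool.Agent.MP_1a6d78_lc.PS

end MrgPart3

-- ======== part 4: formerly Pool.Agent.MP_1a6d78_lc.PS.FReg
section MrgPart4

/-! PROJECT PSC, row REG. -/

namespace Pool.Agent.MP_1a6d78_lc.PS

open Cm Ct PR Relation

namespace FReg

variable {M : Cm} {x y z p q c i j a b e h u r s : ℕ}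

theorem ptc (c : ℕ) (e : p % 4 = q % 4) : pt c p = pt c q := by unfold pt; omega

theorem nr_pt (c : ℕ) (e : p % 4 = (q + 1) % 4) : M.nr (pt c q) = M.lk (pt c p) := by
  unfold Cm.nr
  congr 1
  unfold r4 pt
  omega

theorem nr_r3 (p : ℕ) : M.nr (r3 p) = M.lk p := by
  unfold Cm.nr
  congr 1
  unfold r4 r3
  omega

theorem fw (p : ℕ) : M.Rg (r3 p) (M.lk p) := nr_r3 p ▸ rg_nr M (r3 p)

theorem bw (H : M.Ok) (p : ℕ) : M.Rg (r3 (M.lk p)) p := by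
  have := fw (M := M) (M.lk p)
  rwa [H.inv] at this

theorem prb_lk (H : M.Ok) (p : ℕ) : M.Prb (M.lk p) ↔ M.Prb p := by
  have a1 : M.al (M.lk p / 4) ↔ M.al (p / 4) :=
    ⟨fun k => by have := H.al_lk k; rwa [H.inv] at this, H.al_lk⟩
  unfold Cm.Prb
  rw [a1]
  refine and_congr_right fun k => ?_
  have := H.par p k
  rw [show M.lo (M.lk p) = M.lo p by
    unfold Cm.lo
    rw [H.inv]
    split_ifs <;> omega]

theorem prb_up (e : M.lk p % 4 = (p + 1) % 4) : M.Prb p ↔ M.al (p / 4) ∧ M.Sad (r3 p) := by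
  rw [Cm.Prb, Cm.lo, if_pos e]

theorem prb_dn (H : M.Ok) (e : M.lk p % 4 = (p + 3) % 4) : M.Prb p ↔ M.al (p / 4) ∧ M.Sad p := by
  rw [Cm.Prb, Cm.lo, if_neg (by omega), sad_rg H (bw H p)]

/-- A piece of a region without alternation. -/
def NA (M : Cm) : ℕ → ℕ → Prop := ReflTransGen fun x y => y = M.nr x ∧ ¬M.Alt x

theorem NA.rg (k : NA M x y) : M.Rg x y ∧ y % 4 = x % 4 := by
  induction k with
  | refl => exact ⟨rg_refl _ _, rfl⟩
  | tail _ w ih =>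
    obtain ⟨rfl, w⟩ := w
    exact ⟨rg_trans ih.1 (rg_nr _ _), (not_not.1 w).trans ih.2⟩

theorem first (k : M.Rg x y) (w : M.Alt y) : ∃ z, NA M x z ∧ M.Alt z := by
  obtain ⟨t, rfl⟩ := k
  induction t generalizing x with
  | zero => exact ⟨x, .refl, w⟩
  | succ t ih =>
    by_cases v : M.Alt x
    · exact ⟨x, .refl, v⟩
    · obtain ⟨z, k1, k2⟩ := ih (x := M.nr x) w
      exact ⟨z, .head ⟨rfl, v⟩ k1, k2⟩

theorem NA.inj (H : M.Ok) (w : M.Alt x) (w' : M.Alt y) (k : NA M (M.nr x) z)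
    (k' : NA M (M.nr y) z) : x = y := by
  induction k with
  | refl =>
    rcases k'.cases_tail with e | ⟨d, -, e, v⟩
    · exact nr_inj H e
    · exact absurd (nr_inj H e ▸ w) v
  | tail k1 k2 ih =>
    obtain ⟨rfl, k2⟩ := k2
    rcases k'.cases_tail with e | ⟨d, k3, e, v⟩
    · exact absurd (nr_inj H e ▸ w') k2
    · exact ih (nr_inj H e ▸ k3)

theorem next (H : M.Ok) (k : M.al (y / 4)) (w : M.Alt y) :
    ∃ z, NA M (M.nr y) z ∧ M.Alt z ∧ M.Rg y z ∧ z % 4 = (y + 2) % 4 :=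
  let ⟨z, k1, k2⟩ := first (rg_back H y) w
  ⟨z, k1, k2, rg_trans (rg_nr _ _) k1.rg.1, k1.rg.2.trans (alt_mod H k w)⟩

theorem alt (H : M.Ok) (k : M.al (x / 4)) (w : ¬M.Crit x) (e : q % 2 = x % 2) :
    ∃ y, M.Rg x y ∧ M.Alt y ∧ y % 4 = q % 4 := by
  obtain ⟨y, k1, k2⟩ : ∃ y, M.Rg x y ∧ M.Alt y := by
    by_contra v
    exact w fun y k1 k2 => v ⟨y, k1, k2⟩
  have := rg_par H k1 k
  by_cases v : y % 4 = q % 4
  · exact ⟨y, k1, k2, v⟩
  · obtain ⟨z, -, k3, k4, k5⟩ := next H ((rg_al H k1).2 k) k2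
    exact ⟨z, rg_trans k1 k4, k3, by omega⟩

theorem sad2 (H : M.Ok) (k : M.al (x / 4)) (w : M.Sad x) (e : q % 2 = x % 2) :
    ∃ y y', M.Rg x y ∧ M.Rg x y' ∧ y ≠ y' ∧ M.Alt y ∧ M.Alt y' ∧ y % 4 = q % 4 ∧
      y' % 4 = q % 4 := by
  obtain ⟨y, y', k1, k2, k3, k4, k5, k6⟩ := w
  have := rg_par H k1 k
  by_cases v : y % 4 = q % 4
  · exact ⟨y, y', k1, k2, k3, k4, k5, v, k6 ▸ v⟩
  · obtain ⟨z, l1, l2, l3, l4⟩ := next H ((rg_al H k1).2 k) k4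
    obtain ⟨z', m1, m2, m3, m4⟩ := next H ((rg_al H k2).2 k) k5
    exact ⟨z, z', rg_trans k1 l3, rg_trans k2 m3, fun v => k3 (NA.inj H k4 k5 l1 (v ▸ m1)), l2, m2,
      by omega, by omega⟩

/-- A region with two alternations of different types. -/
theorem two (k : NA M (M.nr x) y) (k' : NA M (M.nr y) x) (e : x % 4 ≠ y % 4) : ¬M.Sad x := by
  have key : ∀ d, M.Rg x d → M.Alt d → d = x ∨ d = y := fun d w v => by
    have := rg_ind (Q := fun d => NA M d x ∨ NA M d y) w (Or.inl .refl) fun d w => by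
      rcases w with w | w <;> rcases w.cases_head with rfl | ⟨_, ⟨rfl, -⟩, w⟩
      exacts [Or.inr k, Or.inl w, Or.inl k', Or.inr w]
    exact this.imp (fun w => w.cases_head.resolve_right fun ⟨_, w, _⟩ => w.2 v)
      fun w => w.cases_head.resolve_right fun ⟨_, w, _⟩ => w.2 v
  rintro ⟨d, d', k1, k2, k3, k4, k5, k6⟩
  rcases key d k1 k4 with rfl | rfl <;> rcases key d' k2 k5 with rfl | rfl <;> omega

theorem crit_kd (H : M.Ok) (ha : a < 4) (hc : M.al c) (k : M.Crit (4 * c + a)) :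
    M.Kd a a c ∧ M.Kd (a + 1) a c ∧ ∀ y, (M.Rg (4 * c + a) (4 * y + a) ↔ M.Pa a c y) ∧
      (M.Rg (4 * c + a) (4 * y + a) ↔ M.Pa (a + 1) c y) := by
  have ty : ∀ d, M.Rg (4 * c + a) d → pt (d / 4) a = d ∧ pt (d / 4) (a + 1) = r4 d := fun d w => by
    have := crit_mod k w
    unfold pt r4
    omega
  have s1 : ∀ d, M.Rg (4 * c + a) d → M.st (a + 1) (d / 4) = M.nr d / 4 := fun d w => by
    rw [Cm.st, (ty d w).2, Cm.nr]
  have s0 : ∀ d, M.Rg (4 * c + a) d → M.st a (M.nr d / 4) = d / 4 := fun d w => by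
    rw [Cm.st, (ty _ (rg_trans w (rg_nr _ _))).1, Cm.nr, H.inv, r4_div]
  have e0 : (4 * c + a) / 4 = c := by omega
  have p1 : ∀ d, M.Rg (4 * c + a) d → M.Pa (a + 1) c (d / 4) := fun d w =>
    (rg_ind (Q := fun d => M.Rg (4 * c + a) d ∧ M.Pa (a + 1) c (d / 4)) w
      ⟨rg_refl _ _, e0.symm ▸ Pa.refl _ _⟩ fun d w =>
        ⟨rg_trans w.1 (rg_nr _ _), w.2.trans (s1 d w.1 ▸ Pa.step _ _)⟩).2
  have p0 : ∀ d, M.Rg (4 * c + a) d → M.Pa a c (d / 4) := fun d w =>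
    e0 ▸ (rg_ind (Q := fun f => M.Rg (4 * c + a) f ∧ M.Pa a (f / 4) (d / 4)) (rg_symm H w)
      ⟨w, Pa.refl _ _⟩ fun f w =>
        ⟨rg_trans w.1 (rg_nr _ _), (Pa.step _ _).trans ((s0 f w.1).symm ▸ w.2)⟩).2
  have rb : ∀ d, M.Rg (4 * c + a) d → M.Rg (4 * c + a) (r3 (M.lk d)) := fun d w =>
    rg_trans w (rg_symm H (bw H d))
  have e4 : ∀ d, M.Rg (4 * c + a) d → M.Rg (4 * c + a) (4 * (d / 4) + a) := fun d w => by
    have := crit_mod k w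
    rwa [show 4 * (d / 4) + a = d by omega]
  have al : ∀ d, M.Rg (4 * c + a) d → M.al (d / 4) := fun d w => (rg_al H w).2 (e0.symm ▸ hc)
  refine ⟨?_, ?_, fun y => ⟨⟨fun w => ?_, ?_⟩, fun w => ?_, ?_⟩⟩
  · have w := rg_nr M (4 * c + a)
    have e1 := (s0 _ (rg_refl _ _)).trans e0
    refine ⟨_, ⟨al _ w, e1.symm ▸ p0 _ w⟩, e1, ?_⟩
    rw [Cm.ss, (ty _ w).1, Cm.nr, H.inv]
    unfold sd r4
    split_ifs <;> omega
  · have w := rb _ (rg_refl _ _)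
    have e1 := s1 _ w
    rw [nr_r3, H.inv, e0] at e1
    refine ⟨_, ⟨al _ w, e1.symm ▸ p1 _ w⟩, e1, ?_⟩
    rw [Cm.ss, (ty _ w).2, ← Cm.nr, nr_r3, H.inv]
    unfold sd
    split_ifs <;> omega
  · simpa only [show (4 * y + a) / 4 = y by omega] using p0 _ w
  · rintro ⟨t, rfl⟩
    refine iter_inv (Q := fun y => M.Rg (4 * c + a) (4 * y + a)) (fun y w => ?_) (rg_refl _ _) t
    have := e4 _ (rb _ w)
    rwa [show r3 (M.lk (4 * y + a)) / 4 = M.st a y by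
      rw [Cm.st, show pt y a = 4 * y + a by unfold pt; omega]; unfold r3; omega] at this
  · simpa only [show (4 * y + a) / 4 = y by omega] using p1 _ w
  · rintro ⟨t, rfl⟩
    refine iter_inv (Q := fun y => M.Rg (4 * c + a) (4 * y + a)) (fun y w => ?_) (rg_refl _ _) t
    have := e4 _ (rg_trans w (rg_nr _ _))
    rwa [← s1 _ w, show (4 * y + a) / 4 = y by omega] at this

theorem kd_crit (H : M.Ok) (k : ∀ y, M.Pa i c y → M.Kd i a y) : M.Crit (4 * c + a) := by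
  have ha : a = i % 4 ∨ a = (i + 3) % 4 :=
    let ⟨u, _, _, e⟩ := k c (Pa.refl _ _); e ▸ ss_cases i u
  have st : ∀ y, M.Pa i c y → ∃ u, M.Pa i c u ∧ M.nr (pt y a) = pt u a := fun y w => by
    rcases ha with ha | ha
    · obtain ⟨u, k1, rfl, k2⟩ := k y w
      refine ⟨u, w.trans k1.2, ?_⟩
      rw [nr_pt (p := ep i (M.ss i u)) _ (by rw [k2]; unfold ep; split_ifs <;> omega),
        ← H.lk_pt k1.1, H.inv]
      exact ptc _ (by omega)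
    · have k1 := (k y w).per H
      have w' := w.trans (Pa.step i y)
      refine ⟨_, w', ?_⟩
      rw [nr_pt (p := i) _ (by omega), H.lk_pt k1.1, Kd.uniq H ⟨y, k1, rfl, rfl⟩ (k _ w')]
      exact ptc _ (by unfold ep; split_ifs <;> omega)
  intro d w
  obtain ⟨y, k1, rfl⟩ := rg_ind (Q := fun d => ∃ y, M.Pa i c y ∧ d = pt y a) w
    ⟨c, Pa.refl _ _, by unfold pt; omega⟩ fun _ ⟨y, k1, k2⟩ => k2 ▸ st y k1
  obtain ⟨u, -, k2⟩ := st y k1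
  rw [Cm.Alt, k2, pt_mod, pt_mod]
  exact fun v => v rfl

theorem runx (H : M.Ok) (ha : M.al a) (k : M.lk (pt a (ep i s)) % 4 ≠ i % 4) :
    ∃ r, M.Run i s a r ∧ M.al r ∧ M.ss i r ≠ s := by
  by_contra v
  have all : ∀ y, M.Pa i a y → M.ss i y = s := by
    have nx : ∀ y, M.Run i s a y ∧ M.al y → M.ss i y = s := fun y w =>
      by_contra fun w' => v ⟨y, w.1, w.2, w'⟩
    rintro _ ⟨t, rfl⟩
    exact nx _ (iter_inv (Q := fun y => M.Run i s a y ∧ M.al y)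
      (fun y w => ⟨w.1.tail ⟨rfl, nx y w⟩, H.al_st i w.2⟩) ⟨.refl, ha⟩ t)
  have pre : ∀ y, M.Pa i a y → M.Per i y → ∃ w, M.Per i w ∧ M.st i w = y ∧ M.ss i w = s :=
    fun y k1 k2 => let ⟨_, w, k3, k4, _⟩ := k2.kd H; ⟨w, k3, k4, all w (k1.trans (k4 ▸ k3.2))⟩
  have dn : ∀ t, M.Per i (M.wk i a t) → M.Per i a := fun t => by
    induction t with
    | zero => exact id
    | succ t ih =>
      intro w
      obtain ⟨y, k1, k2, k3⟩ := pre _ (Pa.wk _ _ _) w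
      rw [wk_succ] at k2
      exact ih (H.st_inj k1.1 (H.al_wk i ha t) k2 (k3.trans (all _ (Pa.wk _ _ _)).symm) ▸ k1)
  obtain ⟨t, ht, e⟩ := (Pa.wk i a M.n).bnd H ha
  obtain ⟨m, hm⟩ := Nat.exists_eq_add_of_lt ht
  obtain ⟨y, k1, k2, k3⟩ := pre a (Pa.refl _ _) (dn t ⟨H.al_wk i ha t, m, by
    rw [← wk_succ', ← wk_add, ← add_assoc, ← hm, e]⟩)
  rw [← k2, ← k3, ← H.lk_pt k1.1, H.inv, pt_mod] at k
  exact k rfl

theorem cfg_b (H : M.Ok) (k : M.Cfg i e a b) : M.al b ∧ M.lk (pt b (i + 2)) = pt a (i + e) := by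
  have := H.al_st (i + e) k.1
  rw [Cm.st, k.2, pt_div] at this
  exact ⟨this, by rw [← k.2, H.inv]⟩

theorem run (H : M.Ok) (he : e = 1 ∨ e = 3) (k : M.Cfg i e a b) :
    (∃ h, M.Fh i e a h) ∧ ∃ u, M.Lu i e b u := by
  obtain ⟨hb, k2⟩ := cfg_b H k
  constructor
  · obtain ⟨r, k3, k4, k5⟩ := runx H (i := i) (s := sd i (i + e)) k.1 (by
      rw [ptc (q := i + e) a (by unfold ep sd; split_ifs <;> omega), k.2, pt_mod]; omega)
    refine ⟨M.st i r, r, k3, (H.lk_pt k4).trans (ptc _ ?_)⟩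
    have := ss_cases (M := M) i r
    unfold ep sd at *
    split_ifs at * <;> omega
  · obtain ⟨u, k3, k4, k5⟩ := runx H (i := i + e + 2) (s := sd (i + e + 2) (i + 2)) hb (by
      rw [ptc (q := i + 2) b (by unfold ep sd; split_ifs <;> omega), k2, pt_mod]; omega)
    refine ⟨u, k3, ?_⟩
    have := ss_cases (M := M) (i + e + 2) u
    rw [H.lk_pt k4, pt_mod]
    unfold ep sd at *
    split_ifs at * <;> omega

/-- A run that passes the side `i + 3` goes forward along the region. -/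
theorem run_fw (H : M.Ok) (k : M.Run i s a r) (ha : M.al a) (e : s % 4 = (i + 3) % 4)
    (e' : q % 4 = s % 4) : M.al r ∧ NA M (pt a q) (pt r q) := by
  induction k with
  | refl => exact ⟨ha, .refl⟩
  | @tail x y _ w ih =>
    obtain ⟨rfl, w⟩ := w
    have : M.nr (pt x q) = pt (M.st i x) q := by
      rw [nr_pt (p := i) _ (by omega), H.lk_pt ih.1, w]
      exact ptc _ (by unfold ep; split_ifs <;> omega)
    exact ⟨H.al_st i ih.1, ih.2.tail ⟨this.symm, fun v => v (by rw [this, pt_mod, pt_mod])⟩⟩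

/-- A run that passes the side `i` goes backward along the region. -/
theorem run_bw (H : M.Ok) (k : M.Run i s a r) (ha : M.al a) (e : s % 4 = i % 4)
    (e' : q % 4 = s % 4) : M.al r ∧ NA M (pt r q) (pt a q) := by
  induction k with
  | refl => exact ⟨ha, .refl⟩
  | @tail x y _ w ih =>
    obtain ⟨rfl, w⟩ := w
    have : M.nr (pt (M.st i x) q) = pt x q := by
      rw [nr_pt (p := ep i (M.ss i x)) _ (by rw [w]; unfold ep; split_ifs <;> omega),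
        ← H.lk_pt ih.1, H.inv]
      exact ptc _ (by omega)
    exact ⟨H.al_st i ih.1, .head ⟨this.symm, fun v => v (by rw [this, pt_mod, pt_mod])⟩ ih.2⟩

theorem r3_pt (c : ℕ) (e : p % 4 = (q + 1) % 4) : r3 (pt c p) = pt c q := by
  unfold r3 pt
  omega

theorem pt_ne (k : h ≠ u) : pt h q ≠ pt u q := fun v => k (by unfold pt at v; omega)

theorem flow (H : M.Ok) (he : e = 1 ∨ e = 3) (k : M.Cfg i e a b) (f : M.Fh i e a h)
    (l : M.Lu i e b u) : (h ≠ u ↔ M.Prb (pt a (i + e))) ∧ (h ≠ u ↔ M.Prb (pt h (i + e + 2))) ∧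
      (h ≠ u ↔ M.Prb (pt u (i + e + 2))) := by
  obtain ⟨hb, k2⟩ := cfg_b H k
  obtain ⟨ha, k1⟩ := k
  obtain ⟨r, f1, f2⟩ := f
  obtain ⟨l1, l2⟩ := l
  have f3 : M.lk (pt h (i + e + 2)) = pt r i := by rw [← f2, H.inv]
  rcases he with rfl | rfl
  · obtain ⟨hr, n1⟩ := run_bw (q := i) H f1 ha (by unfold sd; split_ifs <;> omega)
      (by unfold sd; split_ifs <;> omega)
    obtain ⟨hu, n2⟩ := run_fw (q := i + 2) H l1 hb (by unfold sd; split_ifs <;> omega)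
      (by unfold sd; split_ifs <;> omega)
    have hh : M.al h := by have := H.al_st i hr; rwa [Cm.st, f2, pt_div] at this
    rw [← k1, ← nr_pt (q := i) a rfl] at n2
    rw [← f3, ← nr_pt (q := i + 2) h rfl] at n1
    have g1 := rg_trans (rg_nr _ _) n1.rg.1
    have g2 := rg_trans (rg_nr _ _) n2.rg.1
    have key : h ≠ u ↔ M.Sad (pt a i) := ⟨fun v => ⟨_, _, rg_symm H g1, g2, pt_ne v, by
      rw [Cm.Alt, ← n1.rg.2, pt_mod, pt_mod]; omega, by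
      rw [Cm.Alt, nr_pt (p := i + 1 + 2) u rfl, l2, pt_mod]; omega, by rw [pt_mod, pt_mod]⟩,
      fun w v => two n2 (v ▸ n1) (by rw [pt_mod, pt_mod]; omega) w⟩
    rw [prb_up (by rw [k1, pt_mod]; unfold pt; omega), prb_up (by rw [f3, pt_mod]; unfold pt; omega),
      prb_up (by rw [l2]; unfold pt; omega), pt_div, pt_div, pt_div, r3_pt (q := i) a rfl,
      r3_pt (q := i + 2) h rfl, r3_pt (q := i + 2) u rfl, sad_rg H g1, ← sad_rg H g2]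
    simp only [ha, hh, hu, true_and, key, and_self]
  · obtain ⟨hr, n1⟩ := run_fw (q := i + 3) H f1 ha (by unfold sd; split_ifs <;> omega)
      (by unfold sd; split_ifs <;> omega)
    obtain ⟨hu, n2⟩ := run_bw (q := i + 3 + 2) H l1 hb (by unfold sd; split_ifs <;> omega)
      (by unfold sd; split_ifs <;> omega)
    have hh : M.al h := by have := H.al_st i hr; rwa [Cm.st, f2, pt_div] at this
    have e1 : M.nr (pt b (i + 3 + 2)) = pt a (i + 3) := (nr_pt b (by omega)).trans k2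
    have e2 : M.nr (pt r (i + 3)) = pt h (i + 3 + 2) := (nr_pt r (by omega)).trans f2
    have e3 : M.nr (r3 (M.lk (pt u (i + 3 + 2)))) = pt u (i + 3 + 2) := by rw [nr_r3, H.inv]
    have g1 : M.Rg (pt a (i + 3)) (pt h (i + 3 + 2)) := rg_trans n1.rg.1 (e2 ▸ rg_nr _ _)
    have g2 : M.Rg (pt u (i + 3 + 2)) (pt a (i + 3)) := rg_trans n2.rg.1 (e1 ▸ rg_nr _ _)
    have t3 : r3 (M.lk (pt u (i + 3 + 2))) % 4 = (i + 3) % 4 := by unfold r3; omega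
    have key : h ≠ u ↔ M.Sad (pt a (i + 3)) := ⟨fun v => ⟨_, _, n1.rg.1,
      rg_symm H (rg_trans (bw H _) g2), fun w => pt_ne v (by rw [← e2, w, e3]), by
      rw [Cm.Alt, e2, pt_mod, pt_mod]; omega, by
      rw [Cm.Alt, e3, t3, pt_mod]; omega, by rw [t3, pt_mod]⟩,
      fun w v => two (x := pt r (i + 3)) (y := pt b (i + 3 + 2)) (by rw [e2, v]; exact n2)
        (e1 ▸ n1) (by rw [pt_mod, pt_mod]; omega) ((sad_rg H n1.rg.1).1 w)⟩
    rw [prb_dn H (by rw [k1, pt_mod]; unfold pt; omega),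
      prb_dn H (by rw [f3, pt_mod]; unfold pt; omega), prb_dn H (by rw [l2]; unfold pt; omega),
      pt_div, pt_div, pt_div, ← sad_rg H g1, sad_rg H g2]
    simp only [ha, hh, hu, true_and, key, and_self]

end FReg

open FReg

theorem fReg (_ : S_Walk) : S_Reg := fun _ H =>
  { al := fun _ _ => rg_al H
    par := fun _ _ k w => rg_par H w k
    symm := fun _ _ => rg_symm H
    inj := fun _ _ e => nr_inj H e
    crit := fun _ _ => crit_rg H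
    sad := fun _ _ => sad_rg H
    fw := fw
    bw := bw H
    prb_lk := prb_lk H
    prb_up := fun _ => prb_up
    prb_dn := fun _ => prb_dn H
    alt := fun _ k w _ => alt H k w
    sad2 := fun _ k w _ => sad2 H k w
    crit_typ := fun _ _ => crit_mod
    crit_kd := fun _ _ => crit_kd H
    kd_crit := fun _ _ _ => kd_crit H
    run := fun _ _ _ _ => run H
    flow := fun _ _ _ _ _ _ => flow H }

end Pool.Agent.MP_1a6d78_lc.PS

end MrgPart4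

-- ======== part 5: formerly Pool.Agent.MP_1a6d78_lc.PS.Drop
section MrgPart5

/-! PROJECT PSC: the kill lowers `mu`. -/

namespace Pool.Agent.MP_1a6d78_lc.PS

open Classical ED PR PL Relation Cm Ct

namespace Drop

variable {M M' : Cm} {X : ℕ → Prop}

/-- The link at the port 0 of `o` alternates for the region of `x`. -/
def Ps (M : Cm) (o x : ℕ) : Prop :=
  (M.lk (4 * o) % 4 = 1 ∧ M.Rg x (4 * o + 3)) ∨ (M.lk (4 * o) % 4 = 3 ∧ M.Rg x (4 * o))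

theorem Ps.rg {o x y : ℕ} (h : Ps M o y) (k : M.Rg x y) : Ps M o x :=
  h.imp (fun u => ⟨u.1, rg_trans k u.2⟩) fun u => ⟨u.1, rg_trans k u.2⟩

theorem Ps.one (H : M.Ok) {o x y : ℕ} (h : Ps M o x) (k : Ps M o y) : M.Rg x y := by
  rcases h with h | h <;> rcases k with k | k
  exacts [rg_trans h.2 (rg_symm H k.2), by omega, by omega, rg_trans h.2 (rg_symm H k.2)]

theorem nr0 (M : Cm) (c : ℕ) : M.nr (4 * c) = M.lk (4 * c + 1) := by rw [Cm.nr, Two.r0]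

theorem nr1 (M : Cm) (c : ℕ) : M.nr (4 * c + 1) = M.lk (4 * c + 2) := by rw [Cm.nr, Two.r1]

theorem nr2 (M : Cm) (c : ℕ) : M.nr (4 * c + 2) = M.lk (4 * c + 3) := by rw [Cm.nr, Two.r2]

theorem nr3 (M : Cm) (c : ℕ) : M.nr (4 * c + 3) = M.lk (4 * c) := by rw [Cm.nr, Two.r3]

theorem st_of {p c q : ℕ} (H : M.Ok) (hq : q < 4) (e : M.lk p = 4 * c + q) :
    M.st q c = p / 4 := by
  unfold Cm.st
  rw [show pt c q = 4 * c + q by unfold pt; omega, ← e, H.inv]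

theorem alt2 (H : M.Ok) {x y : ℕ} (a : M.al (x / 4)) (r : M.Rg x y) (k : M.Alt y)
    (e : y % 4 = 2) : ∃ o, M.nr y = 4 * o ∧ M.Rg x (4 * o) ∧ Ps M o x := by
  have := alt_mod H ((rg_al H r).2 a) k
  have e1 : M.nr y = 4 * (M.nr y / 4) := by omega
  have r' := rg_trans r (rg_nr M y)
  refine ⟨_, e1, e1 ▸ r', Or.inr ⟨?_, e1 ▸ r'⟩⟩
  rw [← e1, Cm.nr, H.inv]
  unfold r4
  omega

theorem alt3 (H : M.Ok) {x y : ℕ} (a : M.al (x / 4)) (r : M.Rg x y) (k : M.Alt y)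
    (e : y % 4 = 3) : M.lk (4 * (y / 4)) % 4 = 1 ∧ Ps M (y / 4) x := by
  have := alt_mod H ((rg_al H r).2 a) k
  have e1 : y = 4 * (y / 4) + 3 := by omega
  rw [e1, nr3] at this
  have e2 : M.lk (4 * (y / 4)) % 4 = 1 := by omega
  exact ⟨e2, Or.inl ⟨e2, e1 ▸ r⟩⟩

theorem ncl_eq (n : ℕ) (A : ℕ → Prop) : ncl n A Eq = cnt n A :=
  cnt_congr fun _ _ => ⟨And.left, fun k => ⟨k, fun _ _ e => e.le⟩⟩

theorem eqv_eq (n : ℕ) : Eqv n Eq :=
  ⟨fun _ _ => rfl, fun _ _ _ _ => Eq.symm, fun _ _ _ _ _ _ => Eq.trans⟩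

theorem nc_le (H : M.Ok) (G : RegK M) :
    ncl (4 * M.n) (fun x => M.al (x / 4) ∧ ¬M.Crit x) M.Rg ≤ cnt M.n M.al := by
  have e : ∀ x, ∃ o, M.al (x / 4) ∧ ¬M.Crit x → M.al o ∧ Ps M o x := fun x => by
    by_cases k : M.al (x / 4) ∧ ¬M.Crit x
    · rcases Nat.mod_two_eq_zero_or_one x with u | u
      · obtain ⟨y, r, a, e⟩ := G.alt x k.1 k.2 2 (by omega)
        obtain ⟨o, -, o2, o3⟩ := alt2 H k.1 r a e
        have := (rg_al H o2).2 k.1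
        rw [show 4 * o / 4 = o by omega] at this
        exact ⟨o, fun _ => ⟨this, o3⟩⟩
      · obtain ⟨y, r, a, e⟩ := G.alt x k.1 k.2 3 (by omega)
        exact ⟨y / 4, fun _ => ⟨(rg_al H r).2 k.1, (alt3 H k.1 r a e).2⟩⟩
    · exact ⟨0, fun u => absurd u k⟩
  choose f hf using e
  rw [← ncl_eq M.n M.al]
  exact ncl_le f (rg_eqv H _) (eqv_eq _) (fun _ _ _ _ e k => e ▸ k)
    (fun x _ k => ⟨H.lt _ (hf x k).1, (hf x k).1⟩)
    fun x _ y _ k k' e => (hf x k).2.one H (e ▸ (hf y k').2)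

theorem ncl_cut (n : ℕ) (A Q : ℕ → Prop) (r : ℕ → ℕ → Prop) :
    ncl n A r = ncl n (fun x => A x ∧ Q x) r + ncl n (fun x => A x ∧ ¬Q x) r := by
  unfold ncl
  rw [cnt_split _ _ Q]
  congr 1 <;> exact cnt_congr fun _ _ => by tauto

theorem ev (H : M.Ok) {P : ℕ → Prop} {p r : ℕ} (h : Cv M.lk pr0 P p r) (a : M.al (p / 4))
    (o : p % 2 = 1) : ∃ k, M.nr^[k + 1] (r3 p) = r ∧
      ∀ s < k, ¬P (M.nr^[s + 1] (r3 p) / 4) := by
  have n1 : ∀ q, M.nr (r3 q) = M.lk q := fun q => by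
    rw [Cm.nr, show r4 (r3 q) = q by unfold r4 r3; omega]
  induction h with
  | @stop x _ => exact ⟨0, n1 x, fun _ h => absurd h (by omega)⟩
  | @go x r k _ ih =>
    have := H.par x a
    have e : pr0 (M.lk x) = M.lk x + 1 := if_pos (by omega)
    obtain ⟨t, t1, t2⟩ := ih (by rw [e, show (M.lk x + 1) / 4 = M.lk x / 4 by omega]; exact al_lk H a)
      (by omega)
    rw [show r3 (pr0 (M.lk x)) = M.nr (r3 x) by rw [n1, e]; unfold r3; omega] at t1 t2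
    refine ⟨t + 1, t1, fun s hs => ?_⟩
    cases s with
    | zero => rwa [zero_add, Function.iterate_one, n1]
    | succ s => exact t2 s (by omega)

end Drop

open Drop

theorem drop (hW : S_Walk) (hR : S_Reg) (hD : S_Dead) (M M' : Cm) (X : ℕ → Prop) (z : ℕ)
    (H : M.Ok) (F : M.Fam X) (S : M.Smo M' (M.Dead X)) (hz : ¬M.Dead X z) :
    2 * M'.mu + cnt M.n (fun x => X x ∧ M.NT z x) ≤ 2 * M.mu := by
  have H' := smo_ok H S
  have K := hW M H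
  have G := hR M H
  have D := fun x (k : X x) => hD M H x (F.top x k)
  have uq : ∀ x y c, X x → X y → M.Dd x c → M.Dd y c → x = y := fun x y c hx hy k l => by
    have i1 := G.crit_kd x 0 (by omega) (F.top x hx).1 (F.top x hx).2
    have i2 := G.crit_kd y 0 (by omega) (F.top y hy).1 (F.top y hy).2
    refine F.one x y hx hy ((i1.2.2 y).1.2 ((K.co_per _ _ _ (K.kd_per _ _ _ i2.1).1).1 ?_))
    exact ((D x hx).co c k).1.co.symm.trans ((D y hy).co c l).1.co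
  have dal : ∀ c, M.Dead X c → M.al c := fun c ⟨x, k, l⟩ => (D x k).al c l
  have same : ∀ p, M'.al (p / 4) → M'.al (M.lk p / 4) → M'.lk p = M.lk p := fun p k l =>
    (S.lk p k).uniq (.stop l)
  have face : ∀ u d y, X u → M.Dd u d → y / 4 = d → y % 2 = 1 → ∃ o, M.Dd u o ∧
      M.lk (4 * o) % 4 = 1 ∧ M.Rg y (4 * o + 3) := fun u d y hu k e o => by
    have fin : ∀ o o', M.lk (4 * o) = 4 * o' + 1 → M.Rg y (4 * o' + 1) →
        M.lk (4 * o) % 4 = 1 ∧ M.Rg y (4 * o + 3) := fun o o' l r =>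
      ⟨by omega, rg_trans r (by rw [← l, ← nr3]; exact rg_back H _)⟩
    rcases (by omega : y = 4 * d + 1 ∨ y = 4 * d + 3) with rfl | rfl
    · obtain ⟨o, o', -, l, d1, -, r⟩ := (D u hu).top1 d k
      exact ⟨o, d1, fin o o' (by rw [← l, H.inv]) r⟩
    · obtain ⟨o, o', -, l, d1, -, r⟩ := (D u hu).top3 d k
      exact ⟨o, d1, fin o o' l r⟩
  obtain ⟨Hit, hH⟩ : ∃ Hit : ℕ → Prop, ∀ x, Hit x ↔ ∃ o v, X v ∧ M.Dd v o ∧ Ps M o x :=
    ⟨_, fun _ => Iff.rfl⟩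
  have Hrg : ∀ x y, M.Rg x y → Hit y → Hit x := fun x y r k =>
    let ⟨o, v, k1, k2, k3⟩ := (hH y).1 k; (hH x).2 ⟨o, v, k1, k2, k3.rg r⟩
  have evn : ∀ y, M'.al (y / 4) → y % 2 = 0 → ∃ k, M.nr^[k + 1] y = M'.nr y ∧
      ∀ s < k, ¬M'.al (M.nr^[s + 1] y / 4) := fun y a o => by
    have := ev H (S.lk (r4 y) (by rwa [r4_div])) (by rw [r4_div]; exact ((S.al _).1 a).1)
      (by unfold r4; omega)
    rwa [show r3 (r4 y) = y by unfold r3 r4; omega] at this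
  have odd : ∀ x y, M.al (x / 4) → x % 2 = 1 → ¬Hit x → M.Rg x y → M'.al (y / 4) :=
    fun x y a o k r => (S.al _).2 ⟨(rg_al H r).2 a, fun ⟨u, hu, d⟩ => by
      obtain ⟨o', o1, o2, o3⟩ := face u _ y hu d rfl (by rw [rg_par H r a, o])
      exact k ((hH x).2 ⟨o', u, hu, o1, Or.inl ⟨o2, rg_trans r o3⟩⟩)⟩
  have oddn : ∀ y, M.al (y / 4) → y % 2 = 1 → ¬Hit y → M'.nr y = M.nr y := fun y a o k =>
    same _ (by rw [r4_div]; exact odd y y a o k (rg_refl _ _)) (odd y _ a o k (rg_nr _ _))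
  have pure : ∀ x y, M'.al (x / 4) → ¬Hit x → M'.Rg x y → M.Rg x y := fun x y a k r => by
    refine (rg_ind (Q := fun d => M'.al (d / 4) ∧ M.Rg x d) r ⟨a, rg_refl _ _⟩
      fun d u => ⟨(nr_al H').2 u.1, rg_trans u.2 ?_⟩).2
    rcases Nat.mod_two_eq_zero_or_one d with o | o
    · obtain ⟨t, e, -⟩ := evn d u.1 o
      exact ⟨_, e⟩
    · rw [oddn d ((S.al _).1 u.1).1 o fun v => k (Hrg _ _ u.2 v)]
      exact rg_nr _ _
  have ev2 : ∀ t x, M'.al (x / 4) → x % 2 = 0 → M'.al (M.nr^[t] x / 4) → M'.Rg x (M.nr^[t] x) := by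
    intro t
    induction t using Nat.strong_induction_on with
    | _ t ih =>
      intro x a o b
      cases t with
      | zero => exact rg_refl _ _
      | succ t =>
        obtain ⟨k, e, l⟩ := evn x a o
        obtain ⟨r, rfl⟩ : ∃ r, t = r + k :=
          ⟨t - k, by have : ¬t < k := fun h => l t h b; omega⟩
        rw [add_assoc, Function.iterate_add_apply, e] at b ⊢
        exact rg_trans (rg_nr _ _) (ih r (by omega) _ ((nr_al H').2 a)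
          (by rw [nr_par H' a, o]) b)
  have ind : ∀ o, M.al o → ¬M.Crit (4 * o) → (∀ u, M.Rg (4 * o) (4 * u + 2) → M.Dead X u) →
      M.Dead X o := fun o a nc all => by
    have a4 : M.al (4 * o / 4) := by rwa [show 4 * o / 4 = o by omega]
    obtain ⟨l0, r0, a0, e0⟩ := G.alt (4 * o) a4 nc 0 (by omega)
    have m0 := alt_mod H ((rg_al H r0).2 a4) a0
    have e1 : M.nr l0 = 4 * (M.nr l0 / 4) + 2 := by omega
    have r1 := rg_trans r0 (rg_nr M l0)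
    obtain ⟨x, hx, dx⟩ := all _ (e1 ▸ r1)
    refine ⟨x, hx, .step ⟨_, e1 ▸ r1⟩ fun u ru => ?_⟩
    have := rg_ind (Q := fun l => M.Rg (4 * o) l ∧
        ((l % 4 = 2 ∧ M.Dd x (l / 4)) ∨ (l % 4 = 0 ∧ M.Co 0 (l / 4) x)))
      (rg_trans (rg_symm H r1) ru) ⟨r1, Or.inl ⟨by omega, dx⟩⟩ fun l ⟨r, k⟩ => by
      have r' := rg_trans r (rg_nr M l)
      have al := (rg_al H r).2 a4
      have p1 := rg_par H r' a4
      obtain ⟨b, hb | hb⟩ : ∃ b, M.nr l = 4 * b ∨ M.nr l = 4 * b + 2 := ⟨M.nr l / 4, by omega⟩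
      · refine ⟨r', Or.inr ⟨by omega, co_st.1 ?_⟩⟩
        rw [hb, show 4 * b / 4 = b by omega, st_of H (by omega) (q := 0) hb, r4_div]
        exact k.elim (fun k => ((D x hx).co _ k.2).1.co) And.right
      · obtain ⟨y, hy, dy⟩ := all b (hb ▸ r')
        refine ⟨r', Or.inl ⟨by omega, ?_⟩⟩
        rw [hb, show (4 * b + 2) / 4 = b by omega]
        by_cases e : l = l0
        · rw [← e, hb, show (4 * b + 2) / 4 = b by omega] at dx
          exact dx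
        have cy := ((D y hy).co b dy).2.co
        have key : M.Prb (r4 l) → M.Co 0 (l / 4) x → x = y := fun p c =>
          F.ind x y (r4 l) hx hy p
            (by rwa [r4_div, show (r4 l + 1) % 2 = 0 by have := rg_par H r a4; unfold r4; omega])
            (by change M.Co ((M.nr l + 1) % 2) (M.nr l / 4) y
                rwa [hb, show (4 * b + 2 + 1) % 2 = 1 by omega, show (4 * b + 2) / 4 = b by omega])
        suffices x = y from this ▸ dy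
        rcases k with k | k
        · obtain ⟨c, rfl⟩ : ∃ c, l = 4 * c + 2 := ⟨l / 4, by omega⟩
          rw [show (4 * c + 2) / 4 = c by omega] at k al key
          rw [nr2] at hb
          obtain ⟨o1, d1, l1, q1⟩ := face x c (4 * c + 3) hx k.2 (by omega) (by omega)
          obtain ⟨o2, d2, l2, q2⟩ := face y b (4 * b + 1) hy dy (by omega) (by omega)
          by_cases eo : o1 = o2
          · exact uq x y o1 hx hy d1 (eo ▸ d2)
          refine key ?_ ((D x hx).co _ k.2).1.co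
          rw [Two.r2]
          refine (G.prb_dn _ (by omega)).2 ⟨by rwa [show (4 * c + 3) / 4 = c by omega],
            _, _, q1, rg_trans ?_ q2, by omega, ?_, ?_, by omega⟩
          · have := rg_back H (4 * b + 1)
            rwa [nr1, ← hb, H.inv] at this
          · rw [Cm.Alt, nr3]; omega
          · rw [Cm.Alt, nr3]; omega
        · refine key ((G.prb_up _ ?_).2 ⟨by rwa [r4_div], ?_⟩) k.2
          · change M.nr l % 4 = _
            unfold r4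
            omega
          · rw [show r3 (r4 l) = l by unfold r3 r4; omega]
            exact ⟨l, l0, rg_refl _ _, rg_trans (rg_symm H r) r0, e, by rw [Cm.Alt]; omega, a0,
              by omega⟩
    rcases this.2 with k | k
    · have := k.2
      rwa [show (4 * u + 2) / 4 = u by omega] at this
    · omega
  have theta : ∀ x, ∃ y, (M.al (x / 4) ∧ ¬M.Crit x) ∧ ¬Hit x →
      M.Rg x y ∧ M'.al (y / 4) ∧ ¬M'.Crit y := fun x => by
    by_cases k : (M.al (x / 4) ∧ ¬M.Crit x) ∧ ¬Hit x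
    swap
    · exact ⟨0, fun u => absurd u k⟩
    obtain ⟨⟨a, nc⟩, nh⟩ := k
    rcases Nat.mod_two_eq_zero_or_one x with u | u
    · obtain ⟨y, r, ay, e⟩ := G.alt x a nc 2 (by omega)
      obtain ⟨o, -, o2, o3⟩ := alt2 H a r ay e
      have e4 : 4 * o / 4 = o := by omega
      have ao : M.al o := e4 ▸ (rg_al H o2).2 a
      have nd : ¬M.Dead X o := fun ⟨v, v1, v2⟩ => nh ((hH x).2 ⟨o, v, v1, v2, o3⟩)
      have ao' : M'.al (4 * o / 4) := e4.symm ▸ (S.al o).2 ⟨ao, nd⟩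
      refine ⟨4 * o, fun _ => ⟨o2, ao', fun c => nd (ind o ao (mt (crit_rg H o2).2 nc)
        fun f rf => by_contra fun nf => ?_)⟩⟩
      have af := (rg_al H rf).2 (e4.symm ▸ ao)
      obtain ⟨t, ht⟩ := rf
      have := crit_mod c (ev2 t _ ao' (by omega) (by
        rw [ht]; exact (S.al _).2 ⟨af, by rwa [show (4 * f + 2) / 4 = f by omega]⟩))
      omega
    · obtain ⟨y, r, ay, -⟩ := G.alt x a nc 1 (by omega)
      refine ⟨y, fun _ => ⟨r, odd x y a u nh r, fun c => c y (rg_refl _ _) ?_⟩⟩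
      rw [Cm.Alt, oddn y ((rg_al H r).2 a) (by rw [rg_par H r a, u]) fun v => nh (Hrg _ _ r v)]
      exact ay
  choose th hth using theta
  obtain ⟨Lo, hL⟩ : ∃ Lo : ℕ → Prop, ∀ u, Lo u ↔
      ∀ o o' v x, M.Dd u o → X v → M.Dd v o' → Ps M o x → Ps M o' x → v = u := ⟨_, fun _ => Iff.rfl⟩
  have lon : ∀ u, X u → Lo u → ∀ x y, M'.al (x / 4) → x % 2 = 1 → (∃ o, M.Dd u o ∧ Ps M o x) →
      M'.Rg x y → ∃ o, M.Dd u o ∧ Ps M o y := fun u hu lu x y a o k r => by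
    have cv : ∀ p r, Cv M.lk pr0 M'.al p r → M.al (p / 4) → p % 2 = 0 →
        (∃ o, M.Dd u o ∧ Ps M o (r3 p)) → ∃ o, M.Dd u o ∧ Ps M o r := fun p r h => by
      induction h with
      | @stop p _ => exact fun _ _ ⟨o, o1, o2⟩ => ⟨o, o1, o2.rg (rg_symm H (G.fw p))⟩
      | @go p r k _ ih =>
        rintro a e ⟨o, o1, o2⟩
        have := H.par p a
        have e1 : pr0 (M.lk p) = M.lk p - 1 := if_neg (by omega)
        have al := al_lk H a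
        obtain ⟨v, hv, dv⟩ : M.Dead X (M.lk p / 4) := by_contra fun n => k ((S.al _).2 ⟨al, n⟩)
        obtain ⟨o', q1, q2, q3⟩ := face v _ (M.lk p) hv dv rfl (by omega)
        obtain rfl := (hL u).1 lu o o' v _ o1 hv q1 o2 (Or.inl ⟨q2, rg_trans (G.fw p) q3⟩)
        obtain ⟨o3, s1, s2, s3⟩ := face v _ (r3 (pr0 (M.lk p))) hv dv (by rw [e1]; unfold r3; omega)
          (by rw [e1]; unfold r3; omega)
        exact ih (by rwa [e1, show (M.lk p - 1) / 4 = M.lk p / 4 by omega]) (by omega)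
          ⟨o3, s1, Or.inl ⟨s2, s3⟩⟩
    exact (rg_ind (Q := fun d => M'.al (d / 4) ∧ d % 2 = 1 ∧ ∃ o, M.Dd u o ∧ Ps M o d) r ⟨a, o, k⟩
      fun d w => ⟨(nr_al H').2 w.1, by rw [nr_par H' w.1, w.2.1],
        cv _ _ (S.lk (r4 d) (by rw [r4_div]; exact w.1)) (by rw [r4_div]; exact ((S.al _).1 w.1).1)
          (by have := w.2.1; unfold r4; omega)
          (by rw [show r3 (r4 d) = d by unfold r3 r4; omega]; exact w.2.2)⟩).2.2
  obtain ⟨Tw, hT⟩ : ∃ Tw : ℕ → Prop, ∀ u, Tw u ↔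
      ∃ o o' x, M.Dd u o ∧ M.Dd u o' ∧ o ≠ o' ∧ Ps M o x ∧ Ps M o' x := ⟨_, fun _ => Iff.rfl⟩
  have new : ∀ u, ∃ y, X u ∧ M.NT z u ∧ Lo u ∧ ¬Tw u → (M'.al (y / 4) ∧ ¬M'.Crit y) ∧ y % 2 = 1 ∧
      ∃ o, M.Dd u o ∧ Ps M o y := fun u => by
    by_cases k : X u ∧ M.NT z u ∧ Lo u ∧ ¬Tw u
    swap
    · exact ⟨0, fun v => absurd v k⟩
    obtain ⟨hu, nt, lu, nt2⟩ := k
    have fc : ∀ y, y % 2 = 1 → M.Dd u (y / 4) → M.Sad y → ∃ y, (M'.al (y / 4) ∧ ¬M'.Crit y) ∧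
        y % 2 = 1 ∧ ∃ o, M.Dd u o ∧ Ps M o y := fun y o d s => by
      obtain ⟨o1, d1, l1, q1⟩ := face u _ y hu d rfl o
      have a := (D u hu).al _ d
      obtain ⟨w, r, aw, ew, nw⟩ : ∃ w, M.Rg y w ∧ M.Alt w ∧ w % 4 = 3 ∧ w / 4 ≠ o1 := by
        obtain ⟨w, w', k1, k2, k3, k4, k5, k6, k7⟩ := G.sad2 y a s 3 (by omega)
        by_cases e : w / 4 = o1
        exacts [⟨w', k2, k5, k7, by omega⟩, ⟨w, k1, k4, k6, e⟩]
      obtain ⟨l2, p2⟩ := alt3 H a r aw ew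
      have p1 : Ps M o1 y := Or.inl ⟨l1, q1⟩
      have nd : ¬M.Dead X (w / 4) := fun ⟨v, hv, dv⟩ => by
        obtain rfl := (hL u).1 lu o1 _ v y d1 hv dv p1 p2
        exact nt2 ((hT v).2 ⟨_, _, y, d1, dv, nw.symm, p1, p2⟩)
      have aw' : M'.al (w / 4) := (S.al _).2 ⟨(rg_al H r).2 a, nd⟩
      refine ⟨w, ⟨aw', fun c => c w (rg_refl _ _) ?_⟩, by omega, o1, d1, p1.rg (rg_symm H r)⟩
      have e : M'.nr w = M.nr w := same _ (by rwa [r4_div]) ((S.al _).2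
        ⟨(nr_al H).2 ((rg_al H r).2 a), fun ⟨v, hv, dv⟩ => nd ⟨v, hv, ?_⟩⟩)
      · rwa [Cm.Alt, e]
      · have := ((D v hv).up _ dv).2
        have m := alt_mod H ((rg_al H r).2 a) aw
        rwa [st_of H (by omega) (p := r4 w) (q := 1)
          (by change M.nr w = 4 * (M.nr w / 4) + 1; omega), r4_div] at this
    suffices ∃ y, (M'.al (y / 4) ∧ ¬M'.Crit y) ∧ y % 2 = 1 ∧ ∃ o, M.Dd u o ∧ Ps M o y from
      let ⟨y, k⟩ := this; ⟨y, fun _ => k⟩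
    rcases nt with nt | ⟨c, d, s | s | s⟩ | ⟨c, t, l, no, run, e⟩
    · exact absurd ⟨u, hu, nt⟩ hz
    · have a : M.al (4 * c / 4) := by rw [show 4 * c / 4 = c by omega]; exact (D u hu).al _ d
      obtain ⟨w, w', k1, k2, k3, k4, k5, k6, k7⟩ := G.sad2 _ a s 2 (by omega)
      obtain ⟨o, o1, o2, o3⟩ := alt2 H a k1 k4 k6
      obtain ⟨o', p1, p2, p3⟩ := alt2 H a k2 k5 k7
      exact absurd ((hT u).2 ⟨o, o', _, (D u hu).out _ _ d o2, (D u hu).out _ _ d p2,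
        fun e => k3 (nr_inj H (by rw [o1, p1, e])), o3, p3⟩) nt2
    · exact fc _ (by omega) (by rwa [show (4 * c + 1) / 4 = c by omega]) s
    · exact fc _ (by omega) (by rwa [show (4 * c + 3) / 4 = c by omega]) s
    · have go : ∀ t c, (∀ s ≤ t, M.Dd u (M.wk 3 c s)) → M.lk (4 * M.wk 3 c t + 3) % 4 = 0 →
          ∃ e o, M.Dd u e ∧ M.lk (4 * e + 3) = 4 * o ∧ M.Rg (4 * c + 2) (4 * o) ∧
            (M'.al o → Cv M.lk pr0 M'.al (4 * c + 3) (4 * o)) := fun t => by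
        have z0 : ∀ c, M.Dd u c → M.lk (4 * c + 3) % 4 = 0 → ∃ e o, M.Dd u e ∧
            M.lk (4 * e + 3) = 4 * o ∧ M.Rg (4 * c + 2) (4 * o) ∧
              (M'.al o → Cv M.lk pr0 M'.al (4 * c + 3) (4 * o)) := fun c d k => by
          have e : M.lk (4 * c + 3) = 4 * (M.lk (4 * c + 3) / 4) := by omega
          exact ⟨c, _, d, e, by rw [← e, ← nr2]; exact rg_nr _ _, fun a => e ▸ .stop a⟩
        induction t with
        | zero => exact fun c d k => z0 c (d 0 le_rfl) k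
        | succ t ih =>
          intro c d k
          by_cases e : M.lk (4 * c + 3) % 4 = 0
          · exact z0 c (d 0 (by omega)) e
          obtain ⟨e', o, i1, i2, i3, i4⟩ := ih (M.st 3 c) (fun s hs => d (s + 1) (by omega)) k
          have := H.par (4 * c + 3)
            (by rw [show (4 * c + 3) / 4 = c by omega]; exact (D u hu).al _ (d 0 (by omega)))
          have e2 : M.lk (4 * c + 3) = 4 * M.st 3 c + 2 := by
            change _ = 4 * (M.lk (4 * c + 3) / 4) + 2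
            omega
          refine ⟨e', o, i1, i2, rg_trans (by rw [← e2, ← nr2]; exact rg_nr _ _) i3,
            fun a => .go (fun v => ((S.al _).1 v).2 ⟨u, hu, d 1 (by omega)⟩) ?_⟩
          rw [e2, show pr0 (4 * M.st 3 c + 2) = 4 * M.st 3 c + 3 from if_pos (by omega)]
          exact i4 a
      obtain ⟨e', o2, i1, i2, i3, i4⟩ := go t c run e
      have dc : M.Dd u c := run 0 (by omega)
      have e1 : M.lk (4 * c + 2) = 4 * M.st 2 c + 1 := by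
        change _ = 4 * (M.lk (4 * c + 2) / 4) + 1
        omega
      have e2 : M.lk (4 * M.st 2 c + 1) = 4 * c + 2 := by rw [← e1, H.inv]
      have r1 : M.Rg (4 * M.st 2 c) (4 * c + 2) := by rw [← e2, ← nr0]; exact rg_nr _ _
      have n1 : ¬M.Dead X (M.st 2 c) := fun ⟨v, hv, dv⟩ =>
        no (uq v u c hv hu ((D v hv).inc _ _ dv r1) dc ▸ dv)
      have n2 : ¬M.Dead X o2 := fun ⟨v, hv, dv⟩ =>
        n1 ⟨v, hv, (D v hv).out _ _ dv (rg_symm H (rg_trans r1 i3))⟩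
      have ac := (D u hu).al _ dc
      have a2 : M'.al o2 := (S.al _).2 ⟨by
        have := (rg_al H i3).2 (by rwa [show (4 * c + 2) / 4 = c by omega])
        rwa [show 4 * o2 / 4 = o2 by omega] at this, n2⟩
      have a1 : M'.al ((4 * M.st 2 c + 1) / 4) := by
        rw [show (4 * M.st 2 c + 1) / 4 = M.st 2 c by omega]
        exact (S.al _).2 ⟨H.al_st 2 ac, n1⟩
      have l' : M'.lk (4 * M.st 2 c + 1) = 4 * o2 := (S.lk _ a1).uniq (.go (by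
        rw [e2, show (4 * c + 2) / 4 = c by omega]
        exact fun v => ((S.al _).1 v).2 ⟨u, hu, dc⟩) (by
        rw [e2, show pr0 (4 * c + 2) = 4 * c + 3 from if_pos (by omega)]
        exact i4 a2))
      obtain ⟨o, d1, l1, q1⟩ := face u e' (4 * e' + 3) hu i1 (by omega) (by omega)
      refine ⟨4 * o2 + 3, ⟨by rwa [show (4 * o2 + 3) / 4 = o2 by omega],
        fun c => c _ (rg_refl _ _) ?_⟩, by omega, o, d1, Or.inl ⟨l1, rg_trans ?_ q1⟩⟩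
      · rw [Cm.Alt, nr3, ← l', H'.inv]
        omega
      · have := rg_nr M (4 * o2 + 3)
        rwa [nr3, ← i2, H.inv, i2] at this
  choose nw hnw using new
  have part1 : ∀ w : ℕ → ℕ,
      ncl (4 * M.n) (fun x => (M.al (x / 4) ∧ ¬M.Crit x) ∧ Hit x) M.Rg +
        cnt M.n (fun u => X u ∧ (Tw u ∨ ∃ o o' v x, M.Dd u o ∧ X v ∧ M.Dd v o' ∧ Ps M o x ∧
          Ps M o' x ∧ w v < w u)) ≤ cnt M.n (M.Dead X) := fun w => by
    have e : ∀ x, ∃ o v, Hit x → X v ∧ M.Dd v o ∧ Ps M o x ∧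
        ∀ o' v', X v' → M.Dd v' o' → Ps M o' x → w v ≤ w v' := fun x => by
      by_cases k : Hit x
      · have ex : ∃ m, ∃ o v, X v ∧ M.Dd v o ∧ Ps M o x ∧ w v = m :=
          let ⟨o, v, k1, k2, k3⟩ := (hH x).1 k; ⟨_, o, v, k1, k2, k3, rfl⟩
        obtain ⟨o, v, k1, k2, k3, k4⟩ := Nat.find_spec ex
        exact ⟨o, v, fun _ => ⟨k1, k2, k3, fun o' v' l1 l2 l3 =>
          k4 ▸ Nat.find_min' ex ⟨o', v', l1, l2, l3, rfl⟩⟩⟩
      · exact ⟨0, 0, fun u => absurd u k⟩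
    choose f fv hf using e
    obtain ⟨I, hI⟩ : ∃ I : ℕ → Prop, ∀ o, I o ↔
      ∃ x < 4 * M.n, Hit x ∧ (∀ e < 4 * M.n, M.Rg x e → x ≤ e) ∧ f x = o := ⟨_, fun _ => Iff.rfl⟩
    have e2 : ∀ u, ∃ o, X u ∧ (Tw u ∨ ∃ o o' v x, M.Dd u o ∧ X v ∧ M.Dd v o' ∧ Ps M o x ∧
        Ps M o' x ∧ w v < w u) → M.Dd u o ∧ ¬I o := fun u => by
      by_cases k : X u ∧ (Tw u ∨ ∃ o o' v x, M.Dd u o ∧ X v ∧ M.Dd v o' ∧ Ps M o x ∧
        Ps M o' x ∧ w v < w u)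
      swap
      · exact ⟨0, fun v => absurd v k⟩
      rcases k.2 with t | ⟨o, o', v, x, k1, k2, k3, k4, k5, k6⟩
      · obtain ⟨o, o', x, k1, k2, k3, k4, k5⟩ := (hT u).1 t
        by_cases i : I o
        · refine ⟨o', fun _ => ⟨k2, fun i' => k3 ?_⟩⟩
          obtain ⟨a, a1, a2, a3, rfl⟩ := (hI o).1 i
          obtain ⟨b, b1, b2, b3, rfl⟩ := (hI o').1 i'
          have r := rg_trans ((hf a a2).2.2.1.one H k4) (k5.one H (hf b b2).2.2.1)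
          rw [le_antisymm (a3 b b1 r) (b3 a a1 (rg_symm H r))]
        · exact ⟨o, fun _ => ⟨k1, i⟩⟩
      · refine ⟨o, fun _ => ⟨k1, fun i => ?_⟩⟩
        obtain ⟨a, -, a2, -, rfl⟩ := (hI o).1 i
        obtain ⟨j1, j2, j3, j4⟩ := hf a a2
        have := j4 o' v k2 k3 (k5.rg (j3.one H k4))
        rw [uq _ _ _ j1 k.1 j2 k1] at this
        omega
    choose g hg using e2
    rw [cnt_split M.n (M.Dead X) I]
    refine Nat.add_le_add (cnt_inj f (fun x hx k => ?_) fun x hx y hy k l e => ?_)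
      (cnt_inj g (fun u _ k => ?_) fun u _ v _ k l e => ?_)
    · obtain ⟨j1, j2, -⟩ := hf x k.1.2
      exact ⟨H.lt _ (dal _ ⟨_, j1, j2⟩), (hI _).2 ⟨x, hx, k.1.2, k.2, rfl⟩, _, j1, j2⟩
    · have r := (hf x k.1.2).2.2.1.one H (e ▸ (hf y l.1.2).2.2.1)
      exact le_antisymm (k.2 y hy r) (l.2 x hx (rg_symm H r))
    · exact ⟨H.lt _ (dal _ ⟨_, k.1, (hg u k).1⟩), (hg u k).2, _, k.1, (hg u k).1⟩
    · exact uq u v _ k.1 l.1 (hg u k).1 (e ▸ (hg v l).1)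
  have hinv : ∀ x y, M'.Rg x y → M'.al (x / 4) → ¬Hit x → ¬Hit y := fun x y r a k v =>
    k (Hrg _ _ (pure x y a k r) v)
  have lt' : ∀ y, M'.al (y / 4) → y < 4 * M'.n := fun y a => lt4 H' a
  have p2 : ncl (4 * M.n) (fun x => (M.al (x / 4) ∧ ¬M.Crit x) ∧ ¬Hit x) M.Rg ≤
      ncl (4 * M'.n) (fun x => (M'.al (x / 4) ∧ ¬M'.Crit x) ∧ ¬Hit x) M'.Rg :=
    ncl_le th (rg_eqv H _) (rg_eqv H' _)
      (fun x _ y _ r k => ⟨⟨(rg_al H' r).2 k.1.1, mt (crit_rg H' r).2 k.1.2⟩, hinv x y r k.1.1 k.2⟩)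
      (fun x _ k => ⟨lt' _ (hth x k).2.1, (hth x k).2,
        fun v => k.2 (Hrg _ _ (hth x k).1 v)⟩)
      fun x _ y _ k l r => rg_trans (hth x k).1 (rg_trans (pure _ _ (hth x k).2.1
        (fun v => k.2 (Hrg _ _ (hth x k).1 v)) r) (rg_symm H (hth y l).1))
  have p3 : cnt M.n (fun u => X u ∧ M.NT z u ∧ Lo u ∧ ¬Tw u) ≤
      ncl (4 * M'.n) (fun x => (M'.al (x / 4) ∧ ¬M'.Crit x) ∧ Hit x) M'.Rg := by
    rw [← ncl_eq]
    refine ncl_le nw (eqv_eq _) (rg_eqv H' _)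
      (fun x _ y _ r k => ⟨⟨(rg_al H' r).2 k.1.1, mt (crit_rg H' r).2 k.1.2⟩, by_contra fun v =>
        hinv y x (rg_symm H' r) ((rg_al H' r).2 k.1.1) v k.2⟩) (fun u _ k => ?_)
      fun u _ v _ k l r => ?_
    · obtain ⟨j1, -, o, j2, j3⟩ := hnw u k
      exact ⟨lt' _ j1.1, j1, (hH _).2 ⟨o, u, k.1, j2, j3⟩⟩
    · obtain ⟨j1, j2, j3⟩ := hnw u k
      obtain ⟨o, o1, o2⟩ := lon u k.1 k.2.2.1 _ _ j1.1 j2 j3 r
      obtain ⟨-, -, o', o3, o4⟩ := hnw v l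
      exact ((hL u).1 k.2.2.1 o o' v _ o1 l.1 o3 o2 o4).symm
  have q1 := part1 id
  have q2 := part1 fun v => M.n - v
  have q3 := (cnt_mono (n := M.n) (P := fun x => X x ∧ M.NT z x) fun u _ k => ?_).trans
    ((cnt_or _ _ _).trans (Nat.add_le_add_right (cnt_or M.n
      (fun u => X u ∧ (Tw u ∨ ∃ o o' v x, M.Dd u o ∧ X v ∧ M.Dd v o' ∧ Ps M o x ∧
          Ps M o' x ∧ id v < id u))
      fun u => X u ∧ (Tw u ∨ ∃ o o' v x, M.Dd u o ∧ X v ∧ M.Dd v o' ∧ Ps M o x ∧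
          Ps M o' x ∧ M.n - v < M.n - u)) (cnt M.n fun u => X u ∧ M.NT z u ∧ Lo u ∧ ¬Tw u)))
  · have c1 := cnt_split M.n M.al (M.Dead X)
    have c2 : cnt M.n (fun a => M.Dead X a ∧ M.al a) = cnt M.n (M.Dead X) :=
      cnt_congr fun a _ => ⟨And.left, fun k => ⟨k, dal a k⟩⟩
    have c3 : cnt M.n (fun a => ¬M.Dead X a ∧ M.al a) = cnt M'.n M'.al := by
      rw [S.n]
      exact cnt_congr fun a _ => by rw [S.al, and_comm]
    have c4 := nc_le H' (hR M' H')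
    have c5 := ncl_cut (4 * M.n) (fun x => M.al (x / 4) ∧ ¬M.Crit x) Hit M.Rg
    have c6 := ncl_cut (4 * M'.n) (fun x => M'.al (x / 4) ∧ ¬M'.Crit x) Hit M'.Rg
    unfold Cm.mu
    omega
  · by_cases t : Tw u
    · exact Or.inl (Or.inl ⟨k.1, Or.inl t⟩)
    by_cases l : Lo u
    · exact Or.inr ⟨k.1, k.2, l, t⟩
    rw [hL] at l
    push Not at l
    obtain ⟨o, o', v, x, l1, l2, l3, l4, l5, l6⟩ := l
    have := H.lt v (F.top v l2).1
    rcases Nat.lt_or_gt_of_ne l6 with c | c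
    · exact Or.inl (Or.inl ⟨k.1, Or.inr ⟨o, o', v, x, l1, l2, l3, l4, l5, c⟩⟩)
    · exact Or.inl (Or.inr ⟨k.1, Or.inr ⟨o, o', v, x, l1, l2, l3, l4, l5, by omega⟩⟩)

end Pool.Agent.MP_1a6d78_lc.PS

end MrgPart5

-- marker of a merged file
example : 731051 + 68989 = 731051 + 68989 := rfl
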