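import Pool.Agent.MP_1a6d78_lc.PD.CkAll
import Pool.Agent.MP_1a6d78_lc.PL.Med
import Pool.Agent.MP_1a6d78_lc.PD.Spec2

-- ======== part 0: formerly Pool.Agent.MP_1a6d78_lc.PS.GList
section MrgPart0

/-! PROJECT PSC: linked lists of entries over the levels, without geometry. -/

namespace Pool.Agent.MP_1a6d78_lc.GL

open Classical ED PR SC

noncomputable section

/-- Slots: level 0 heads, level `l ≥ 1` entries, `0` is the end of a list. -/
def code (m l e : ℕ) : ℕ := l * m + e + 1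

def ze (m z : ℕ) : ℕ := (z - 1) % m

def zl (m z : ℕ) : ℕ := (z - 1) / m

/-- Valid entries, their owners, valid heads; the two stored primitives. -/
structure Ld where
  val : ℕ → Prop
  own : ℕ → ℕ
  hv : ℕ → Prop
  next : ℕ → ℕ
  cur : ℕ → ℕ

namespace Ld

variable (D : Ld) (m q : ℕ)

def live (z : ℕ) : Prop := D.val (ze m z) ∧ D.cur (ze m z) = zl m z

/-- The `i`-th slot of the list of `y`. -/
def sl (y i : ℕ) : ℕ := it q D.next (i + 1) (code m 0 y)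

def len (y : ℕ) : ℕ := lst q fun i => D.sl m q y i = 0

/-- The number of slots. -/
def N : ℕ := ∑ y ∈ Finset.range m, if D.hv y then D.len m q y else 0

/-- At most `c` slots. -/
def short (c y : ℕ) : Prop := D.sl m q y c = 0

/-- The entry of the `i`-th slot, `m` if the slot is not live. -/
def en (y i : ℕ) : ℕ :=
  if D.sl m q y i ≠ 0 ∧ D.live m (D.sl m q y i) then ze m (D.sl m q y i) else m

/-- The live slot of the entry `e`. -/
def slot (e : ℕ) : ℕ := code m (D.cur e) e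

def rem (h : ℕ → Prop) (z : ℕ) : Prop := ¬D.live m z ∧ h z ∧ (D.next z = 0 ∨ ¬h (D.next z))

/-- The garbage round. -/
def gnext (h : ℕ → Prop) (z : ℕ) : ℕ :=
  if D.next z ≠ 0 ∧ D.rem m h (D.next z) then D.next (D.next z) else D.next z

def garb (h : ℕ → Prop) : Ld := { D with next := D.gnext m h }

def clip : Ld :=
  { D with next := fun z => min (D.next (min z q)) q, cur := fun e => min (D.cur (min e q)) q }

end Ld

/-- Level 0. -/
def bnext (m : ℕ) (val : ℕ → Prop) (own : ℕ → ℕ) (z : ℕ) : ℕ :=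
  lst (2 * m + 1) fun w => z ≠ 0 ∧ z < w ∧ zl m w = 1 ∧ val (ze m w) ∧
    own (ze m w) = if zl m z = 0 then ze m z else own (ze m z)

/-- A round: the new head `y` continues the list of the old head `ren y` (if that is valid), the
entry `e` with `ins e` is inserted behind the slot or head `an e`, it is one of `Nx (an e) i`, `i < k`. -/
structure Rd where
  m : ℕ
  q : ℕ
  j : ℕ
  k : ℕ
  D : Ld
  val : ℕ → Prop
  own : ℕ → ℕ
  hv : ℕ → Prop
  ins : ℕ → Prop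
  ren : ℕ → ℕ
  an : ℕ → ℕ
  Nx : ℕ → ℕ → ℕ

namespace Rd

variable (K : Rd)

def onx (z : ℕ) : ℕ :=
  if zl K.m z = 0 then
    (if z ≠ 0 ∧ K.D.hv (K.ren (ze K.m z)) then K.D.next (code K.m 0 (K.ren (ze K.m z))) else 0)
  else K.D.next z

def cI (z w i : ℕ) : Prop :=
  K.ins (K.Nx z i) ∧ K.an (K.Nx z i) = z ∧ w < code K.m (K.j + 2) (K.Nx z i)

def nI (z w : ℕ) : ℕ :=
  if ∃ i < K.k, K.cI z w i then
    code K.m (K.j + 2) (K.Nx z (amin K.k fun i => if K.cI z w i then K.Nx z i else K.m))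
  else K.onx z

def next (z : ℕ) : ℕ := if zl K.m z = K.j + 2 then K.nI (K.an (ze K.m z)) z else K.nI z 0

def cur (e : ℕ) : ℕ := if K.ins e then K.j + 2 else K.D.cur e

def new : Ld := ⟨K.val, K.own, K.hv, K.next, K.cur⟩

end Rd

/-- `l` is the list that follows `a`. -/
def Lk (nx : ℕ → ℕ) : ℕ → List ℕ → Prop
  | a, [] => nx a = 0
  | a, z :: l => nx a = z ∧ Lk nx z l

/-- The invariant. -/
structure LI (m : ℕ) (D : Ld) (j : ℕ) (ls : ℕ → List ℕ) : Prop where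
  vl : ∀ e, D.val e → e < m ∧ D.hv (D.own e)
  hl : ∀ y, D.hv y → y < m
  z0 : D.next 0 = 0
  lk : ∀ y, D.hv y → Lk D.next (code m 0 y) (ls y)
  nd : ∀ y, D.hv y → (ls y).Nodup
  dj : ∀ x y, D.hv x → D.hv y → ∀ z ∈ ls x, z ∈ ls y → x = y
  rg : ∀ y, D.hv y → ∀ z ∈ ls y, 1 ≤ zl m z ∧ zl m z ≤ j + 1
  mem : ∀ e, D.val e → D.slot m e ∈ ls (D.own e)

def tot (m : ℕ) (hv : ℕ → Prop) (ls : ℕ → List ℕ) : ℕ :=
  ∑ y ∈ Finset.range m, if hv y then (ls y).length else 0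

/-- What the geometry has to supply for a round. -/
structure Rd.Hy (K : Rd) : Prop where
  vl : ∀ e, K.val e → e < K.m ∧ K.hv (K.own e)
  hl : ∀ y, K.hv y → y < K.m
  iv : ∀ e, K.ins e → K.val e
  keep : ∀ e, K.val e → ¬K.ins e → K.D.val e ∧ K.ren (K.own e) = K.D.own e
  inj : ∀ x y, K.hv x → K.hv y → K.D.hv (K.ren x) → K.ren x = K.ren y → x = y
  an : ∀ e, K.ins e → K.an e = code K.m 0 (K.own e) ∨
    ∃ e', K.D.val e' ∧ K.D.own e' = K.ren (K.own e) ∧ K.an e = K.D.slot K.m e'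
  Nx : ∀ e, K.ins e → ∃ i < K.k, K.Nx (K.an e) i = e

theorem ze_mk {m e : ℕ} (l : ℕ) (h : e < m) : ze m (code m l e) = e := by
  rw [ze, code, Nat.add_sub_cancel, Nat.mul_add_mod', Nat.mod_eq_of_lt h]

theorem zl_mk {m e : ℕ} (l : ℕ) (h : e < m) : zl m (code m l e) = l := by
  rw [zl, code, Nat.add_sub_cancel, add_comm, Nat.add_mul_div_right _ _ (by omega),
    Nat.div_eq_of_lt h, zero_add]

theorem mk_ne (m l e : ℕ) : code m l e ≠ 0 := Nat.succ_ne_zero _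

theorem mk_eq {m z : ℕ} (h : z ≠ 0) : code m (zl m z) (ze m z) = z := by
  have := Nat.div_add_mod' (z - 1) m
  unfold code zl ze
  omega

theorem zl_zero (m : ℕ) : zl m 0 = 0 := by simp [zl]

theorem mk_le {m e : ℕ} (l : ℕ) (h : e < m) : code m l e ≤ m * (l + 1) := by
  unfold code
  nlinarith

theorem ze_lt {m : ℕ} (z : ℕ) (h : 0 < m) : ze m z < m := Nat.mod_lt _ h

/-! ### Linked lists -/

theorem congr_hd {f : ℕ → ℕ} {a b : ℕ} {l : List ℕ} (e : f a = f b) (h : Lk f b l) : Lk f a l := by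
  cases l with
  | nil => exact e.trans h
  | cons z l => exact ⟨e.trans h.1, h.2⟩

theorem chain {f : ℕ → ℕ} {w : ℕ} {R : List ℕ} (hR : ∀ a, f a = w → Lk f a R) (I : List ℕ) :
    ∀ z, List.IsChain (fun u v => f u = v) (z :: (I ++ [w])) → Lk f z (I ++ R) := by
  induction I with
  | nil => exact fun z h => hR z (List.isChain_cons_cons.1 h).1
  | cons y I ih =>
    intro z h
    obtain ⟨h1, h2⟩ := List.isChain_cons_cons.1 h
    exact ⟨h1, ih y h2⟩

theorem lk_ins (nx nx' : ℕ → ℕ) (I : ℕ → List ℕ) (l : List ℕ) : ∀ a, Lk nx a l →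
    (∀ z ∈ l, List.IsChain (fun u v => nx' u = v) (z :: (I z ++ [nx z]))) →
    ∀ a', nx' a' = nx a → Lk nx' a' (l.flatMap fun z => z :: I z) := by
  induction l with
  | nil => exact fun a h _ a' e => e.trans h
  | cons z l ih =>
    intro a h k a' e
    rw [List.flatMap_cons]
    exact ⟨e.trans h.1, chain (ih z h.2 fun y hy => k y (List.mem_cons_of_mem _ hy)) _ _
      (k z List.mem_cons_self)⟩

theorem lk_del (nx : ℕ → ℕ) (R : ℕ → Prop) (l : List ℕ) : ∀ a, Lk nx a l → 0 ∉ l →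
    (∀ z ∈ l, R z → nx z ≠ 0 → ¬R (nx z)) →
    Lk (fun z => if nx z ≠ 0 ∧ R (nx z) then nx (nx z) else nx z) a (l.filter fun z => ¬R z) := by
  induction l with
  | nil =>
    intro a h _ _
    have e : nx a = 0 := h
    exact (if_neg fun k => k.1 e).trans e
  | cons z l ih =>
    intro a h h0 k
    have e : nx a = z := h.1
    have z0 : z ≠ 0 := fun c => h0 (c ▸ List.mem_cons_self)
    have t := ih z h.2 (fun c => h0 (List.mem_cons_of_mem _ c))
      fun y hy => k y (List.mem_cons_of_mem _ hy)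
    by_cases c : R z
    · rw [List.filter_cons_of_neg (by simpa using c)]
      refine congr_hd ?_ t
      have k1 : ¬(nx z ≠ 0 ∧ R (nx z)) := fun u => k z List.mem_cons_self c u.1 u.2
      show (if nx a ≠ 0 ∧ R (nx a) then nx (nx a) else nx a) =
        if nx z ≠ 0 ∧ R (nx z) then nx (nx z) else nx z
      rw [e, if_pos ⟨z0, c⟩, if_neg k1]
    · rw [List.filter_cons_of_pos (by simpa using c)]
      refine ⟨?_, t⟩
      show (if nx a ≠ 0 ∧ R (nx a) then nx (nx a) else nx a) = z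
      rw [e, if_neg fun u => c u.2]

theorem srt (f : ℕ → ℕ) (S : Finset ℕ) (a e : ℕ) (h : ∀ w, w = a ∨ w ∈ S →
    (f w ∈ S ∧ (w = a ∨ w < f w) ∧ ∀ v ∈ S, (w = a ∨ w < v) → f w ≤ v) ∨
      (f w = e ∧ ∀ v ∈ S, w ≠ a ∧ v ≤ w)) (ha : a ∉ S) (l : List ℕ) :
    ∀ w, l.Pairwise (· < ·) → (∀ v ∈ l, v ∈ S) → w = a ∨ w ∈ S →
      (∀ v ∈ S, (w = a ∨ w < v) ↔ v ∈ l) →
      List.IsChain (fun u v => f u = v) (w :: (l ++ [e])) := by
  induction l with
  | nil =>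
    intro w _ _ hw k
    rcases h w hw with ⟨h1, h2, -⟩ | ⟨h1, -⟩
    · exact absurd ((k _ h1).1 h2) List.not_mem_nil
    · exact List.isChain_cons_cons.2 ⟨h1, List.isChain_singleton _⟩
  | cons y l ih =>
    intro w p hl hw k
    obtain ⟨p1, p2⟩ := List.pairwise_cons.1 p
    have yS : y ∈ S := hl y List.mem_cons_self
    have wy : w = a ∨ w < y := (k y yS).2 List.mem_cons_self
    have ya : y ≠ a := fun c => ha (c ▸ yS)
    refine List.isChain_cons_cons.2 ⟨?_, ih y p2 (fun v hv => hl v (List.mem_cons_of_mem _ hv))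
      (Or.inr yS) fun v hv => ⟨fun u => ?_, fun u => Or.inr (p1 v u)⟩⟩
    · rcases h w hw with ⟨h1, h2, h3⟩ | ⟨-, h2⟩
      · have k1 := h3 y yS wy
        rcases List.mem_cons.1 ((k _ h1).1 h2) with c | c
        · exact c
        · have := p1 _ c
          omega
      · obtain ⟨k1, k2⟩ := h2 y yS
        rcases wy with c | c
        · exact absurd c k1
        · omega
    · have yv : y < v := u.resolve_left ya
      rcases List.mem_cons.1 ((k v hv).1 (wy.imp_right fun c => c.trans yv)) with c | c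
      · omega
      · exact c

theorem it_shift (n : ℕ) (f : ℕ → ℕ) (t d : ℕ) :
    it n f (t + 1) d = it n f t (min (f d) n) := by
  induction t with
  | zero => rfl
  | succ t ih => exact congrArg (fun a => min (f a) n) ih

theorem it_nil {n : ℕ} {f : ℕ → ℕ} (h : f 0 = 0) (t : ℕ) : it n f t 0 = 0 := by
  induction t with
  | zero => rfl
  | succ t ih =>
    show min (f (it n f t 0)) n = 0
    rw [ih, h, Nat.zero_min]

theorem lk_it {q : ℕ} {nx : ℕ → ℕ} (h0 : nx 0 = 0) : ∀ (l : List ℕ) (a : ℕ), Lk nx a l →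
    (∀ z ∈ l, z < q) → ∀ i, it q nx (i + 1) a = l.getD i 0
  | [], a, h, _, i => by
    rw [it_shift, show nx a = 0 from h, Nat.zero_min, it_nil h0]
    rfl
  | z :: l, a, h, hq, i => by
    rw [it_shift, h.1, Nat.min_eq_left (hq z List.mem_cons_self).le]
    cases i with
    | zero => rfl
    | succ i => exact lk_it h0 l z h.2 (fun w k => hq w (List.mem_cons_of_mem _ k)) i

theorem lk_clip {q : ℕ} {nx : ℕ → ℕ} : ∀ (l : List ℕ) (a : ℕ), Lk nx a l → a ≤ q →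
    (∀ z ∈ l, z < q) → Lk (fun z => min (nx (min z q)) q) a l
  | [], a, h, ha, _ => by
    show min (nx (min a q)) q = 0
    rw [Nat.min_eq_left ha, show nx a = 0 from h, Nat.zero_min]
  | z :: l, a, h, ha, hq => by
    have hz := (hq z List.mem_cons_self).le
    refine ⟨?_, lk_clip l z h.2 hz fun w k => hq w (List.mem_cons_of_mem _ k)⟩
    show min (nx (min a q)) q = z
    rw [Nat.min_eq_left ha, h.1, Nat.min_eq_left hz]

theorem getD_ne {l : List ℕ} (h : 0 ∉ l) {i : ℕ} (k : l.getD i 0 = 0) : l.length ≤ i := by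
  by_contra c
  rw [List.getD_eq_getElem _ _ (not_le.1 c)] at k
  exact h (k ▸ List.getElem_mem _)

theorem len_lt {q : ℕ} {l : List ℕ} (hq : 0 < q) (h0 : 0 ∉ l) (hn : l.Nodup)
    (h : ∀ z ∈ l, z < q) : l.length < q := by
  have h1 : (0 :: l).toFinset ⊆ Finset.range q := fun z hz => by
    rcases List.mem_cons.1 (List.mem_toFinset.1 hz) with e | e
    · exact Finset.mem_range.2 (e ▸ hq)
    · exact Finset.mem_range.2 (h z e)
  have h2 := Finset.card_le_card h1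
  rwa [List.toFinset_card_of_nodup (List.nodup_cons.2 ⟨h0, hn⟩), Finset.card_range] at h2

theorem next_ne {nx : ℕ → ℕ} : ∀ (l : List ℕ) (a : ℕ), Lk nx a l → l.Nodup → 0 ∉ l →
    ∀ z ∈ l, nx z ≠ z
  | [], _, _, _, _ => fun _ h => by simp at h
  | y :: l, _, h, hn, h0 => fun z hz => by
    rcases List.mem_cons.1 hz with rfl | hz
    · cases l with
      | nil => exact fun e => h0 (by rw [← (show nx z = 0 from h.2), e]; simp)
      | cons y' l' =>
        exact fun e => (List.nodup_cons.1 hn).1 (by rw [← e, h.2.1]; simp)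
    · exact next_ne l y h.2 (List.nodup_cons.1 hn).2 (fun k => h0 (List.mem_cons_of_mem _ k)) z hz

theorem lk_range {nx : ℕ → ℕ} {A : ℕ → Prop} {N : ℕ}
    (h : ∀ z, A z → nx z = lst N fun w => z + 1 ≤ w ∧ A w) :
    ∀ k b a, b + k = N → (nx a = lst N fun w => b ≤ w ∧ A w) →
      Lk nx a ((List.range' b k).filter fun w => decide (A w)) := by
  intro k
  induction k with
  | zero =>
    intro b a e ha
    show nx a = 0
    rw [ha]
    refine lst_none ?_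
    rintro ⟨m, h1, h2, _⟩
    omega
  | succ k ih =>
    intro b a e ha
    rw [List.range'_succ]
    by_cases hb : A b
    · rw [List.filter_cons_of_pos (by simpa using hb)]
      refine ⟨?_, ih (b + 1) b (by omega) (h b hb)⟩
      have h1 : lst N (fun w => b ≤ w ∧ A w) ≤ b := lst_le (by omega) ⟨le_rfl, hb⟩
      have h2 := (lst_spec (n := N) (P := fun w => b ≤ w ∧ A w) ⟨b, by omega, le_rfl, hb⟩).2.1
      omega
    · rw [List.filter_cons_of_neg (by simpa using hb)]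
      refine ih (b + 1) a (by omega) (ha.trans (lst_congr fun m _ => ⟨fun k => ⟨?_, k.2⟩,
        fun k => ⟨by omega, k.2⟩⟩))
      rcases k.1.eq_or_lt with e' | e'
      · exact absurd (e' ▸ k.2) hb
      · exact e'

/-! ### Reading the lists -/

namespace LI

variable {m j q : ℕ} {D : Ld} {ls : ℕ → List ℕ} (I : LI m D j ls)
include I

theorem nz {y : ℕ} (hy : D.hv y) : 0 ∉ ls y := fun k => by
  have := (I.rg y hy 0 k).1
  rw [zl_zero] at this
  omega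

theorem lt (hq : m * (j + 2) < q) {y z : ℕ} (hy : D.hv y) (hz : z ∈ ls y) : z < q := by
  have e := mk_eq (m := m) (show z ≠ 0 from fun c => I.nz hy (c ▸ hz))
  have h1 := mk_le (zl m z) (ze_lt z (Nat.zero_lt_of_lt (I.hl y hy)))
  have h2 := Nat.mul_le_mul_left m (Nat.succ_le_succ (I.rg y hy z hz).2)
  rw [e] at h1
  exact (h1.trans h2).trans_lt hq

theorem sl (hq : m * (j + 2) < q) {y : ℕ} (hy : D.hv y) (i : ℕ) :
    D.sl m q y i = (ls y).getD i 0 :=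
  lk_it I.z0 _ _ (I.lk y hy) (fun _ k => I.lt hq hy k) i

theorem len (hq : m * (j + 2) < q) {y : ℕ} (hy : D.hv y) : D.len m q y = (ls y).length := by
  have h1 := len_lt (by omega) (I.nz hy) (I.nd y hy) fun z k => I.lt hq hy k
  have h2 : D.sl m q y (ls y).length = 0 := by rw [I.sl hq hy, List.getD_eq_default _ _ le_rfl]
  refine le_antisymm (lst_le h1 h2) (getD_ne (I.nz hy) ?_)
  rw [← I.sl hq hy]
  exact (lst_spec (P := fun i => D.sl m q y i = 0) ⟨_, h1, h2⟩).2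

theorem N (hq : m * (j + 2) < q) : D.N m q = tot m D.hv ls :=
  Finset.sum_congr rfl fun y _ => by
    by_cases k : D.hv y
    · rw [if_pos k, if_pos k, I.len hq k]
    · rw [if_neg k, if_neg k]

theorem short (hq : m * (j + 2) < q) {y : ℕ} (hy : D.hv y) (c : ℕ) :
    D.short m q c y ↔ (ls y).length ≤ c := by
  rw [Ld.short, I.sl hq hy]
  exact ⟨getD_ne (I.nz hy), fun h => List.getD_eq_default _ _ h⟩

theorem live_slot {e : ℕ} (h : D.val e) : D.live m (D.slot m e) := by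
  rw [Ld.live, Ld.slot, ze_mk _ (I.vl e h).1, zl_mk _ (I.vl e h).1]
  exact ⟨h, rfl⟩

theorem live_own {y z : ℕ} (hy : D.hv y) (hz : z ∈ ls y) (h : D.live m z) :
    D.own (ze m z) = y ∧ D.slot m (ze m z) = z := by
  have e : D.slot m (ze m z) = z := by
    rw [Ld.slot, h.2, mk_eq fun c => I.nz hy (c ▸ hz)]
  have k := I.mem _ h.1
  rw [e] at k
  exact ⟨I.dj _ _ (I.vl _ h.1).2 hy z k hz, e⟩

/-- A listed entry is valid and belongs to the head. -/
theorem en_val (hq : m * (j + 2) < q) {y i : ℕ} (hy : D.hv y) (h : D.en m q y i < m) :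
    D.val (D.en m q y i) ∧ D.own (D.en m q y i) = y := by
  unfold Ld.en at h ⊢
  split_ifs at h ⊢ with k
  · refine ⟨k.2.1, (I.live_own hy ?_ k.2).1⟩
    have k1 := k.1
    rw [I.sl hq hy] at k1 ⊢
    have : i < (ls y).length := not_le.1 fun c => k1 (List.getD_eq_default _ _ c)
    rw [List.getD_eq_getElem _ _ this]
    exact List.getElem_mem _
  · omega

theorem en_le (y i : ℕ) : D.en m q y i ≤ m := by
  unfold Ld.en
  split_ifs with k
  · exact (I.vl _ k.2.1).1.le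
  · exact le_rfl

/-- A short list shows all valid entries of its head. -/
theorem en_ex (hq : m * (j + 2) < q) {c e : ℕ} (h : D.val e) (hs : D.short m q c (D.own e)) :
    ∃ i < c, D.en m q (D.own e) i = e := by
  have hy := (I.vl e h).2
  obtain ⟨i, hi, k⟩ := List.getElem_of_mem (I.mem e h)
  have h1 : D.sl m q (D.own e) i = D.slot m e := by rw [I.sl hq hy, List.getD_eq_getElem _ _ hi, k]
  refine ⟨i, hi.trans_le ((I.short hq hy c).1 hs), ?_⟩
  rw [Ld.en, h1, if_pos ⟨mk_ne _ _ _, I.live_slot h⟩, Ld.slot, ze_mk _ (I.vl e h).1]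

theorem tot_card : tot m D.hv ls =
    (((Finset.range m).filter D.hv).biUnion fun y => (ls y).toFinset).card := by
  rw [tot, ← Finset.sum_filter, Finset.card_biUnion]
  · exact Finset.sum_congr rfl fun y hy =>
      (List.toFinset_card_of_nodup (I.nd y (Finset.mem_filter.1 hy).2)).symm
  · intro x hx y hy hne
    refine Finset.disjoint_left.2 fun w h1 h2 => hne ?_
    exact I.dj x y (Finset.mem_filter.1 hx).2 (Finset.mem_filter.1 hy).2 w
      (List.mem_toFinset.1 h1) (List.mem_toFinset.1 h2)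

theorem tot_cnt (hq : m * (j + 2) < q) :
    tot m D.hv ls = cnt q fun z => ∃ y, D.hv y ∧ z ∈ ls y := by
  rw [I.tot_card, cnt]
  congr 1
  ext z
  simp only [Finset.mem_filter, Finset.mem_range, Finset.mem_biUnion, List.mem_toFinset]
  exact ⟨fun ⟨y, h1, h2⟩ => ⟨I.lt hq h1.2 h2, y, h1.2, h2⟩,
    fun ⟨_, y, h1, h2⟩ => ⟨y, ⟨I.hl y h1, h1⟩, h2⟩⟩

theorem clip (hq : m * (j + 2) < q) : LI m (D.clip q) j ls := by
  have hj : m * (j + 2) = m * j + 2 * m := by ring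
  refine ⟨I.vl, I.hl, ?_, fun y hy => ?_, I.nd, I.dj, I.rg, fun e h => ?_⟩
  · show min (D.next (min 0 q)) q = 0
    rw [Nat.zero_min, I.z0, Nat.zero_min]
  · have := mk_le 0 (I.hl y hy)
    exact lk_clip _ _ (I.lk y hy) (by omega) fun z k => I.lt hq hy k
  · have he := (I.vl e h).1
    have h1 := I.mem e h
    have h2 := (I.rg _ (I.vl e h).2 _ h1).2
    have h3 : j ≤ m * j := Nat.le_mul_of_pos_left j (by omega)
    rw [Ld.slot, zl_mk _ he] at h2
    show code m (min (D.cur (min e q)) q) e ∈ _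
    rwa [Nat.min_eq_left (by omega : e ≤ q), Nat.min_eq_left (by omega)]

theorem up : LI m D (j + 1) ls :=
  ⟨I.vl, I.hl, I.z0, I.lk, I.nd, I.dj, fun y hy z hz => by have := I.rg y hy z hz; omega, I.mem⟩

/-- Few lists are long. -/
theorem markov (hq : m * (j + 2) < q) (c : ℕ) :
    c * cnt m (fun y => D.hv y ∧ ¬D.short m q c y) ≤ tot m D.hv ls := by
  rw [cnt, Finset.card_filter, Finset.mul_sum]
  refine Finset.sum_le_sum fun y _ => ?_
  split_ifs with h1 h2 h2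
  · have := mt (I.short hq h2 c).2 h1.2
    omega
  · exact absurd h1.1 h2
  · omega
  · omega

/-- The garbage round. -/
theorem garb (h : ℕ → Prop) (q : ℕ) : ∃ ls', LI m (D.garb m h) (j + 1) ls' ∧ tot m D.hv ls' +
    cnt q (fun z => (∃ y, D.hv y ∧ z ∈ ls y) ∧ D.rem m h z) ≤ tot m D.hv ls := by
  refine ⟨fun y => (ls y).filter fun z => ¬D.rem m h z, ⟨I.vl, I.hl, ?_, fun y hy => ?_,
    fun y hy => (I.nd y hy).filter _,
    fun x y hx hy z h1 h2 => I.dj x y hx hy z (List.mem_filter.1 h1).1 (List.mem_filter.1 h2).1,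
    fun y hy z hz => I.up.rg y hy z (List.mem_filter.1 hz).1, fun e he => ?_⟩, ?_⟩
  · show (if D.next 0 ≠ 0 ∧ D.rem m h (D.next 0) then D.next (D.next 0) else D.next 0) = 0
    rw [if_neg fun k => k.1 I.z0, I.z0]
  · exact lk_del D.next (D.rem m h) (ls y) _ (I.lk y hy) (I.nz hy)
      fun z _ k1 k2 k3 => (k1.2.2.resolve_left k2) k3.2.1
  · exact List.mem_filter.2 ⟨I.mem e he, decide_eq_true fun k => k.1 (I.live_slot he)⟩
  · have a1 : cnt q (fun z => (∃ y, D.hv y ∧ z ∈ ls y) ∧ D.rem m h z) ≤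
        tot m D.hv fun y => (ls y).filter fun z => D.rem m h z := by
      unfold cnt tot
      refine le_trans (Finset.card_le_card (t := (Finset.range m).biUnion fun y =>
        if D.hv y then ((ls y).filter fun z => D.rem m h z).toFinset else ∅) ?_)
        (Finset.card_biUnion_le.trans (Finset.sum_le_sum fun y _ => ?_))
      · intro z hz
        simp only [Finset.mem_filter] at hz
        obtain ⟨-, ⟨y, hy, hz1⟩, hz2⟩ := hz
        refine Finset.mem_biUnion.2 ⟨y, Finset.mem_range.2 (I.hl y hy), ?_⟩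
        rw [if_pos hy, List.mem_toFinset, List.mem_filter]
        exact ⟨hz1, decide_eq_true hz2⟩
      · split_ifs
        · exact List.toFinset_card_le _
        · exact le_rfl
    refine (Nat.add_le_add_left a1 _).trans (le_of_eq ?_)
    unfold tot
    rw [← Finset.sum_add_distrib]
    refine Finset.sum_congr rfl fun y _ => ?_
    split_ifs
    · rw [add_comm, List.length_eq_length_filter_add (l := ls y) fun z => decide (D.rem m h z)]
      simp only [decide_not]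
    · rfl

/-- If at most half of the slots are live, some garbage round gains a constant fraction. -/
theorem garb_gain (hq : m * (j + 2) < q) {c : ℕ} (hc : 0 < c)
    (h : 2 * cnt m D.val ≤ tot m D.hv ls) :
    ∃ w < 4 * c * (2 * q + 3) ^ 2, ∃ ls' g, LI m (D.garb m (colq q (4 * c) w)) (j + 1) ls' ∧
      tot m D.hv ls' + g ≤ tot m D.hv ls ∧ tot m D.hv ls ≤ 16 * c * g := by
  obtain ⟨w, hw, k⟩ := hash q c (fun z => (∃ y, D.hv y ∧ z ∈ ls y) ∧ ¬D.live m z)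
    (fun z _ => D.next z) hc
  obtain ⟨ls', I', k'⟩ := I.garb (colq q (4 * c) w) q
  refine ⟨w, hw, ls', _, I', k', ?_⟩
  have a0 : cnt q (fun z => (∃ y, D.hv y ∧ z ∈ ls y) ∧ D.live m z) ≤ cnt m D.val := by
    refine cnt_inj (ze m) (fun a _ h => ⟨(I.vl _ h.2.1).1, h.2.1⟩) ?_
    rintro a _ b _ ⟨⟨x, a1, a2⟩, a3⟩ ⟨⟨y, b1, b2⟩, b3⟩ e
    rw [← (I.live_own a1 a2 a3).2, ← (I.live_own b1 b2 b3).2, e]
  have a1 := (cnt_mono (n := q) (P := fun z => ∃ y, D.hv y ∧ z ∈ ls y)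
    fun z _ hz => (by by_cases e : D.live m z; exacts [Or.inl ⟨hz, e⟩, Or.inr ⟨hz, e⟩])).trans
    (cnt_or q (fun z => (∃ y, D.hv y ∧ z ∈ ls y) ∧ D.live m z)
      fun z => (∃ y, D.hv y ∧ z ∈ ls y) ∧ ¬D.live m z)
  have a2 := k.trans (Nat.mul_le_mul_left _ (cnt_mono
    (Q := fun z => (∃ y, D.hv y ∧ z ∈ ls y) ∧ D.rem m (colq q (4 * c) w) z) ?_))
  · rw [← I.tot_cnt hq] at a1
    rw [show 16 * c = 2 * (8 * c) by ring, mul_assoc]
    omega
  · rintro z _ ⟨⟨⟨y, hy, hz⟩, h1⟩, h2, h3⟩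
    exact ⟨⟨y, hy, hz⟩, h1, h2,
      Or.inr (h3 0 hc (next_ne _ _ (I.lk y hy) (I.nd y hy) (I.nz hy) z hz))⟩

end LI

/-! ### Level 0 -/

theorem base {m : ℕ} {val hv : ℕ → Prop} {own : ℕ → ℕ} (vl : ∀ e, val e → e < m ∧ hv (own e))
    (hl : ∀ y, hv y → y < m) :
    ∃ ls, LI m ⟨val, own, hv, bnext m val own, fun _ => 1⟩ 0 ls ∧ tot m hv ls ≤ m := by
  let A : ℕ → ℕ → Prop := fun y w => zl m w = 1 ∧ val (ze m w) ∧ own (ze m w) = y
  have one : ∀ w, zl m w = 1 → m < w := fun w h => by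
    have h1 := Nat.div_mul_le_self (w - 1) m
    have h0 : w ≠ 0 := fun e => by rw [e, zl_zero] at h; omega
    unfold zl at h
    rw [h] at h1
    omega
  have mem : ∀ y w, (w ∈ (List.range' 0 (2 * m + 1)).filter fun w => @decide (A y w) (propDecidable _)) ↔
      w < 2 * m + 1 ∧ A y w := fun y w => by simp [List.mem_filter]
  have I : LI m ⟨val, own, hv, bnext m val own, fun _ => 1⟩ 0
      fun y => (List.range' 0 (2 * m + 1)).filter fun w => @decide (A y w) (propDecidable _) := by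
    refine ⟨vl, hl, lst_none fun ⟨_, _, k, _⟩ => k rfl, fun y hy => ?_,
      fun y _ => (List.nodup_range' (s := 0) (n := 2 * m + 1)).filter _,
      fun x y _ _ z h1 h2 => ((mem x z).1 h1).2.2.2.symm.trans ((mem y z).1 h2).2.2.2,
      fun y _ z h => by rw [((mem y z).1 h).2.1]; omega, fun e h => ?_⟩
    · have hy' : y < m := hl y hy
      refine lk_range (N := 2 * m + 1) (fun z hz => ?_) _ 0 _ (Nat.zero_add _) ?_
      · have h0 : z ≠ 0 := by have := one z hz.1; omega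
        show bnext m val own z = _
        rw [bnext, if_neg (by rw [hz.1]; omega), hz.2.2]
        exact lst_congr fun w _ => ⟨fun k => k.2, fun k => ⟨h0, k⟩⟩
      · show bnext m val own _ = _
        rw [bnext, if_pos (zl_mk _ hy'), ze_mk _ hy']
        refine lst_congr fun w _ => ⟨fun k => ⟨Nat.zero_le _, k.2.2⟩,
          fun k => ⟨mk_ne _ _ _, ?_, k.2⟩⟩
        have := one w k.2.1
        unfold code
        omega
    · have he := (vl e h).1
      have := mk_le 1 he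
      refine (mem _ _).2 ⟨by show code m 1 e < _; omega, zl_mk 1 he, ?_, ?_⟩
      · show val (ze m (code m 1 e))
        rwa [ze_mk _ he]
      · show own (ze m (code m 1 e)) = own e
        rw [ze_mk _ he]
  refine ⟨_, I, I.tot_card.trans_le ((Finset.card_le_card (t := Finset.Ioc m (2 * m))
    fun w hw => ?_).trans (by rw [Nat.card_Ioc]; omega))⟩
  obtain ⟨y, -, k⟩ := Finset.mem_biUnion.1 hw
  obtain ⟨k1, k2⟩ := (mem y w).1 (List.mem_toFinset.1 k)
  exact Finset.mem_Ioc.2 ⟨one w k2.1, by omega⟩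

/-! ### Insertion -/

namespace Rd

variable {K : Rd} {ls : ℕ → List ℕ}

/-- The slots inserted behind `z`. -/
def S (K : Rd) (z : ℕ) : Finset ℕ :=
  ((Finset.range K.m).filter fun e => K.ins e ∧ K.an e = z).image (code K.m (K.j + 2))

def ol (K : Rd) (ls : ℕ → List ℕ) (y : ℕ) : List ℕ := if K.D.hv (K.ren y) then ls (K.ren y) else []

def nl (K : Rd) (ls : ℕ → List ℕ) (y : ℕ) : List ℕ :=
  (K.S (code K.m 0 y)).sort (· ≤ ·) ++ (K.ol ls y).flatMap fun z => z :: (K.S z).sort (· ≤ ·)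

theorem mem_S (H : K.Hy) {z w : ℕ} :
    w ∈ K.S z ↔ ∃ e, K.ins e ∧ K.an e = z ∧ w = code K.m (K.j + 2) e := by
  simp only [S, Finset.mem_image, Finset.mem_filter, Finset.mem_range]
  exact ⟨fun ⟨e, h, k⟩ => ⟨e, h.2.1, h.2.2, k.symm⟩,
    fun ⟨e, h1, h2, k⟩ => ⟨e, ⟨(H.vl e (H.iv e h1)).1, h1, h2⟩, k.symm⟩⟩

theorem S_zl (H : K.Hy) {z w : ℕ} (h : w ∈ K.S z) :
    zl K.m w = K.j + 2 ∧ K.an (ze K.m w) = z ∧ 0 < w := by
  obtain ⟨e, h1, h2, rfl⟩ := (mem_S H).1 h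
  rw [zl_mk _ (H.vl e (H.iv e h1)).1, ze_mk _ (H.vl e (H.iv e h1)).1]
  exact ⟨rfl, h2, Nat.succ_pos _⟩

theorem nI_spec (H : K.Hy) (z w : ℕ) :
    (K.nI z w ∈ K.S z ∧ w < K.nI z w ∧ ∀ v ∈ K.S z, w < v → K.nI z w ≤ v) ∨
    (K.nI z w = K.onx z ∧ ∀ v ∈ K.S z, v ≤ w) := by
  have a2 : ∀ v ∈ K.S z, w < v → ∃ i < K.k, K.cI z w i ∧ code K.m (K.j + 2) (K.Nx z i) = v := by
    intro v hv hw
    obtain ⟨e, h1, h2, rfl⟩ := (mem_S H).1 hv
    obtain ⟨i, hi, k1⟩ := H.Nx e h1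
    rw [h2] at k1
    exact ⟨i, hi, ⟨by rwa [k1], by rwa [k1], by rwa [k1]⟩, by rw [k1]⟩
  by_cases h : ∃ i < K.k, K.cI z w i
  · left
    rw [nI, if_pos h]
    obtain ⟨i, hi, h⟩ := h
    obtain ⟨-, k⟩ := amin_spec (fun i => if K.cI z w i then K.Nx z i else K.m)
      (Nat.zero_lt_of_lt hi)
    generalize amin K.k (fun i => if K.cI z w i then K.Nx z i else K.m) = a at k
    have hm : K.cI z w a := by
      by_contra hm
      have k1 := k i hi
      rw [if_neg hm, if_pos h] at k1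
      exact absurd (H.vl _ (H.iv _ h.1)).1 (not_lt.2 k1)
    refine ⟨(mem_S H).2 ⟨_, hm.1, hm.2.1, rfl⟩, hm.2.2, fun v hv hw => ?_⟩
    obtain ⟨i', hi', h', rfl⟩ := a2 v hv hw
    have k1 := k i' hi'
    rw [if_pos hm, if_pos h'] at k1
    unfold code
    omega
  · right
    refine ⟨by rw [nI, if_neg h], fun v hv => not_lt.1 fun hw => ?_⟩
    obtain ⟨i, hi, k, -⟩ := a2 v hv hw
    exact h ⟨i, hi, k⟩

theorem chain' (H : K.Hy) {z : ℕ} (h : zl K.m z ≠ K.j + 2) :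
    List.IsChain (fun u v => K.next u = v) (z :: ((K.S z).sort (· ≤ ·) ++ [K.onx z])) := by
  have hz : z ∉ K.S z := fun k => h (S_zl H k).1
  refine srt _ (K.S z) z _ ?_ hz _ z (Finset.sortedLT_sort _).pairwise
    (fun _ hv => (Finset.mem_sort _).1 hv) (Or.inl rfl)
    fun _ hv => ⟨fun _ => (Finset.mem_sort _).2 hv, fun _ => Or.inl rfl⟩
  rintro w (rfl | hw)
  · rw [next, if_neg h]
    rcases nI_spec H w 0 with k | k
    · exact Or.inl ⟨k.1, Or.inl rfl, fun v hv _ => k.2.2 v hv (S_zl H hv).2.2⟩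
    · exact Or.inr ⟨k.1, fun v hv => absurd (k.2 v hv) (not_le.2 (S_zl H hv).2.2)⟩
  · have hne : w ≠ z := fun e => hz (e ▸ hw)
    rw [next, if_pos (S_zl H hw).1, (S_zl H hw).2.1]
    rcases nI_spec H z w with k | k
    · exact Or.inl ⟨k.1, Or.inr k.2.1, fun v hv k' => k.2.2 v hv (k'.resolve_left hne)⟩
    · exact Or.inr ⟨k.1, fun v hv => ⟨hne, k.2 v hv⟩⟩

theorem mem_ol {y z : ℕ} : z ∈ K.ol ls y ↔ K.D.hv (K.ren y) ∧ z ∈ ls (K.ren y) := by
  unfold ol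
  split_ifs with h <;> simp [h]

theorem mem_nl {y w : ℕ} :
    w ∈ K.nl ls y ↔ w ∈ K.S (code K.m 0 y) ∨ ∃ z ∈ K.ol ls y, w = z ∨ w ∈ K.S z := by
  simp only [nl, List.mem_append, List.mem_flatMap, List.mem_cons, Finset.mem_sort]

theorem step (I : LI K.m K.D K.j ls) (H : K.Hy) : ∃ ls', LI K.m K.new (K.j + 1) ls' ∧
    tot K.m K.hv ls' ≤ tot K.m K.D.hv ls + cnt K.m K.ins := by
  have rg : ∀ y, ∀ z ∈ K.ol ls y, 1 ≤ zl K.m z ∧ zl K.m z ≤ K.j + 1 := fun y z hz =>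
    I.rg _ (mem_ol.1 hz).1 z (mem_ol.1 hz).2
  let rt : ℕ → ℕ := fun w => if zl K.m w = K.j + 2 then K.an (ze K.m w) else w
  have rt_eq : ∀ {z w}, zl K.m z ≠ K.j + 2 → w = z ∨ w ∈ K.S z → rt w = z := by
    rintro z w h (rfl | k)
    · exact if_neg h
    · exact (if_pos (S_zl H k).1).trans (S_zl H k).2.1
  have rt_hd : ∀ {y w}, K.hv y → w ∈ K.S (code K.m 0 y) → rt w = code K.m 0 y := fun hy k =>
    rt_eq (by rw [zl_mk _ (H.hl _ hy)]; omega) (Or.inr k)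
  have J : LI K.m K.new (K.j + 1) (K.nl ls) := by
    refine ⟨H.vl, H.hl, ?_, fun y hy => ?_, fun y hy => ?_, fun x y hx hy w h1 h2 => ?_,
      fun y hy w h => ?_, fun e h => ?_⟩
    · show K.next 0 = 0
      rw [next, if_neg (by rw [zl_zero]; omega)]
      rcases nI_spec H 0 0 with k | k
      · obtain ⟨e, k1, k2, -⟩ := (mem_S H).1 k.1
        rcases H.an e k1 with u | ⟨_, -, -, u⟩ <;> exact absurd (u.symm.trans k2) (mk_ne _ _ _)
      · rw [k.1, onx, if_pos (zl_zero _), if_neg fun c => c.1 rfl]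
    · have hy' := H.hl y hy
      refine chain (fun a ha => ?_) _ _ (chain' H (by rw [zl_mk _ hy']; omega))
      rw [onx, if_pos (zl_mk _ hy'), ze_mk _ hy'] at ha
      by_cases c : K.D.hv (K.ren y)
      · rw [if_pos ⟨mk_ne _ _ _, c⟩] at ha
        rw [ol, if_pos c]
        refine lk_ins _ _ _ _ _ (I.lk _ c) (fun z hz => ?_) a ha
        have := I.rg _ c z hz
        have k := chain' H (z := z) (by omega)
        rwa [onx, if_neg (by omega)] at k
      · rw [if_neg fun u => c u.2] at ha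
        rw [ol, if_neg c]
        exact ha
    · have nd : (K.ol ls y).Nodup := by
        unfold ol
        split_ifs with c
        exacts [I.nd _ c, List.nodup_nil]
      refine List.nodup_append.2 ⟨Finset.sort_nodup _ _, List.nodup_flatMap.2 ⟨fun z hz =>
        List.nodup_cons.2 ⟨fun k => ?_, Finset.sort_nodup _ _⟩, nd.pairwise_of_forall_ne ?_⟩, ?_⟩
      · have := (S_zl H ((Finset.mem_sort _).1 k)).1
        have := rg y z hz
        omega
      · intro z hz z' hz' hne w h1 h2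
        simp only [List.mem_cons, Finset.mem_sort] at h1 h2
        have := rg y z hz
        have := rg y z' hz'
        exact hne ((rt_eq (by omega) h1).symm.trans (rt_eq (by omega) h2))
      · rintro w h1 _ h2 rfl
        simp only [List.mem_flatMap, List.mem_cons, Finset.mem_sort] at h1 h2
        obtain ⟨z, hz, h2⟩ := h2
        have k := rg y z hz
        rw [← rt_eq (by omega) h2, rt_hd hy h1, zl_mk _ (H.hl y hy)] at k
        omega
    · rcases mem_nl.1 h1 with h1 | ⟨z, hz, h1⟩ <;> rcases mem_nl.1 h2 with h2 | ⟨z', hz', h2⟩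
      · have := (rt_hd hx h1).symm.trans (rt_hd hy h2)
        unfold code at this
        omega
      · have k := rg y z' hz'
        rw [← rt_eq (by omega) h2, rt_hd hx h1, zl_mk _ (H.hl x hx)] at k
        omega
      · have k := rg x z hz
        rw [← rt_eq (by omega) h1, rt_hd hy h2, zl_mk _ (H.hl y hy)] at k
        omega
      · have k1 := rg x z hz
        have k2 := rg y z' hz'
        obtain rfl : z = z' := (rt_eq (by omega) h1).symm.trans (rt_eq (by omega) h2)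
        exact H.inj x y hx hy (mem_ol.1 hz).1
          (I.dj _ _ (mem_ol.1 hz).1 (mem_ol.1 hz').1 z (mem_ol.1 hz).2 (mem_ol.1 hz').2)
    · rcases mem_nl.1 h with h | ⟨z, hz, rfl | h⟩
      · have := (S_zl H h).1
        omega
      · have := rg y w hz
        omega
      · have := (S_zl H h).1
        omega
    · show code K.m (K.cur e) e ∈ K.nl ls (K.own e)
      by_cases k : K.ins e
      · rw [cur, if_pos k]
        have hS := (mem_S H).2 ⟨e, k, rfl, rfl⟩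
        rcases H.an e k with u | ⟨e', u1, u2, u3⟩
        · exact mem_nl.2 (Or.inl (u ▸ hS))
        · exact mem_nl.2 (Or.inr ⟨_, mem_ol.2 ⟨u2 ▸ (I.vl e' u1).2, u2 ▸ I.mem e' u1⟩,
            Or.inr (u3 ▸ hS)⟩)
      · rw [cur, if_neg k]
        obtain ⟨u1, u2⟩ := H.keep e h k
        exact mem_nl.2 (Or.inr ⟨_, mem_ol.2 ⟨u2 ▸ (I.vl e u1).2, u2 ▸ I.mem e u1⟩, Or.inl rfl⟩)
  refine ⟨_, J, J.tot_card.trans_le ?_⟩
  rw [I.tot_card, cnt]
  refine le_trans (Finset.card_le_card fun w hw => ?_) ((Finset.card_union_le _ _).trans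
    (Nat.add_le_add_left (Finset.card_image_le (f := code K.m (K.j + 2))) _))
  obtain ⟨y, -, hw⟩ := Finset.mem_biUnion.1 hw
  have new : ∀ z, w ∈ K.S z →
      w ∈ ((Finset.range K.m).filter K.ins).image (code K.m (K.j + 2)) := fun z h => by
    obtain ⟨e, h1, -, rfl⟩ := (mem_S H).1 h
    exact Finset.mem_image_of_mem _
      (Finset.mem_filter.2 ⟨Finset.mem_range.2 (H.vl e (H.iv e h1)).1, h1⟩)
  rcases mem_nl.1 (List.mem_toFinset.1 hw) with h | ⟨z, hz, rfl | h⟩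
  · exact Finset.mem_union_right _ (new _ h)
  · exact Finset.mem_union_left _ (Finset.mem_biUnion.2 ⟨_, Finset.mem_filter.2
      ⟨Finset.mem_range.2 (I.hl _ (mem_ol.1 hz).1), (mem_ol.1 hz).1⟩,
        List.mem_toFinset.2 (mem_ol.1 hz).2⟩)
  · exact Finset.mem_union_right _ (new _ h)

end Rd

end

end Pool.Agent.MP_1a6d78_lc.GL

end MrgPart0

-- ======== part 1: formerly Pool.Agent.MP_1a6d78_lc.PS.Defs
section MrgPart1

/-! PROJECT PSC: the semantic layer.  Prototype: PSC1a6d78_proto_h56.py.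
Ports `4 c + q`: 0 NE, 1 NW, 2 SW, 3 SE.  Side `a` lies between the ports `a` and `a + 1`; the number
`4 c + a` is also the LABEL of the side `a` of the cell `c`. -/

namespace Pool.Agent.MP_1a6d78_lc.PS

open Classical ED PR PL Relation

noncomputable section

def pt (c q : ℕ) : ℕ := 4 * c + q % 4

def r3 (d : ℕ) : ℕ := 4 * (d / 4) + (d + 3) % 4

/-- The side passed by an `i`-walk that enters by the port `r`. -/
def sd (i r : ℕ) : ℕ := if r % 4 = (i + 1) % 4 then i % 4 else (i + 3) % 4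

/-- The port by which an `i`-walk enters when it passes the side `a`. -/
def ep (i a : ℕ) : ℕ := if a % 4 = i % 4 then (i + 1) % 4 else (i + 3) % 4

/-- The least (`fl`) or largest index below `n` with `P`. -/
def pick (fl : Bool) (n : ℕ) (P : ℕ → Prop) : ℕ :=
  if fl then lst n P else n - 1 - lst n fun i => P (n - 1 - i)

/-- A segment: the `i`-walk from `p` (first passage counted with side `s`) up to the first `q`. -/
structure Sg where
  i : ℕ
  p : ℕ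
  s : ℕ
  q : ℕ

/-- A cell map; dead ports are fixed by `lk`. -/
structure Cm where
  n : ℕ
  lk : ℕ → ℕ

namespace Cm

variable (M : Cm)

def al (c : ℕ) : Prop := M.lk (4 * c) ≠ 4 * c

structure Ok : Prop where
  lt : ∀ c, M.al c → c < M.n
  inv : ∀ p, M.lk (M.lk p) = p
  fix : ∀ p, M.lk p = p ↔ ¬M.al (p / 4)
  par : ∀ p, M.al (p / 4) → (M.lk p + p) % 2 = 1
  pl : Pln M.n M.lk

/-! ### Walks -/

def st (i c : ℕ) : ℕ := M.lk (pt c i) / 4

def wk (i c t : ℕ) : ℕ := (M.st i)^[t] c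

/-- The side by which the `i`-walk passes the cell after `c`. -/
def ss (i c : ℕ) : ℕ := sd i (M.lk (pt c i))

/-- `b` is on the `i`-walk of `a`. -/
def Pa (i a b : ℕ) : Prop := ∃ t, M.wk i a t = b

/-- On a limit cycle. -/
def Per (i c : ℕ) : Prop := M.al c ∧ M.Pa i (M.st i c) c

/-- The same limit cycle. -/
def Co (i a b : ℕ) : Prop := ∃ u, M.Pa i a u ∧ M.Pa i b u

/-- `y` is on a limit cycle that passes it by the side `a`. -/
def Kd (i a y : ℕ) : Prop := ∃ u, M.Per i u ∧ M.st i u = y ∧ M.ss i u = a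

/-- Names of the limit cycles. -/
structure Nm (En : ℕ → ℕ → ℕ) : Prop where
  junk : ∀ i < 4, ∀ c, ¬M.al c → En i c = M.n
  pa : ∀ i < 4, ∀ c, M.al c → M.Pa i c (En i c)
  per : ∀ i < 4, ∀ c, M.al c → M.Per i (En i c)
  st : ∀ i < 4, ∀ c, M.al c → En i (M.st i c) = En i c

/-- The least cell of the limit cycle (level 0). -/
def En0 (i c : ℕ) : ℕ :=
  if M.al c then lst M.n fun y => ∃ t < M.n, M.wk i c (M.n + t) = y else M.n

/-- The first cell after `c` passed by the side `a`. -/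
def FE (i c a : ℕ) : ℕ :=
  if M.al c ∧ ∃ t < M.n, M.ss i (M.wk i c t) = a then
    M.wk i c (lst M.n (fun t => M.ss i (M.wk i c t) = a) + 1) else M.n

def el (A : Sg) (t : ℕ) : ℕ := M.wk A.i A.p t

def sv (A : Sg) (t : ℕ) : ℕ := if t = 0 then A.s else M.ss A.i (M.wk A.i A.p (t - 1))

def ln (A : Sg) : ℕ := lst M.n fun t => M.el A t = A.q

def ok (A : Sg) : Prop := A.i < 4 ∧ M.al A.p ∧ M.Pa A.i A.p A.q

/-- The segment passes `y` by the side `a`. -/
def Ps (A : Sg) (y a : ℕ) : Prop := ∃ t ≤ M.ln A, M.el A t = y ∧ M.sv A t = a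

def hit (a b : ℕ) (A B : Sg) (t : ℕ) : Prop := t ≤ M.ln A ∧ M.sv A t = a ∧ M.Ps B (M.el A t) b

/-- The first or last cell that `A` passes by `a` and `B` by `b`. -/
def F (fl : Bool) (a b : ℕ) (A B : Sg) : ℕ :=
  if M.ok A ∧ M.ok B ∧ ∃ t < M.n, M.hit a b A B t then M.el A (pick fl M.n (M.hit a b A B)) else M.n

/-! ### Regions -/

/-- The next label of the region. -/
def nr (x : ℕ) : ℕ := M.lk (r4 x)

def Rg (x y : ℕ) : Prop := ∃ t, M.nr^[t] x = y

def Alt (x : ℕ) : Prop := M.nr x % 4 ≠ x % 4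

def Crit (x : ℕ) : Prop := ∀ y, M.Rg x y → ¬M.Alt y

def Sad (x : ℕ) : Prop :=
  ∃ y y', M.Rg x y ∧ M.Rg x y' ∧ y ≠ y' ∧ M.Alt y ∧ M.Alt y' ∧ y % 4 = y' % 4

/-- The lower end of the link: the link alternates for the region of the label `r3 (lo p)`. -/
def lo (p : ℕ) : ℕ := if M.lk p % 4 = (p + 1) % 4 then p else M.lk p

def Prb (p : ℕ) : Prop := M.al (p / 4) ∧ M.Sad (r3 (M.lo p))

/-- Cells minus non critical regions. -/
def mu : ℕ := cnt M.n M.al - ncl (4 * M.n) (fun x => M.al (x / 4) ∧ ¬M.Crit x) M.Rg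

/-- Moves inside a region, and through a cell from the side `a` to the side `a + 2`. -/
def Rch (a : ℕ) : ℕ → ℕ → Prop :=
  ReflTransGen fun x y => M.al (x / 4) ∧ (y = M.nr x ∨ (x % 4 = a % 4 ∧ y = pt (x / 4) (a + 2)))

/-- `z` is on a closed path of the parity of `a`. -/
def Cy (a z : ℕ) : Prop := M.al z ∧ M.Rch a (pt z (a + 2)) (pt z a)

/-! ### The kill of type 0 -/

/-- The side 0 of `x` is in a critical region. -/
def Top (x : ℕ) : Prop := M.al x ∧ M.Crit (4 * x)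

/-- The cells that die with the region above `x`. -/
inductive Dd (x : ℕ) : ℕ → Prop
  | top {c : ℕ} : M.Rg (4 * x) (4 * c) → Dd x c
  | step {c : ℕ} : (∃ u, M.Rg (4 * c) (4 * u + 2)) → (∀ u, M.Rg (4 * c) (4 * u + 2) → Dd x u) →
      Dd x c

/-- A whole run of cells above a region is dead, the region is not. -/
def Hop (x : ℕ) : Prop :=
  ∃ c t, M.lk (4 * c + 2) % 4 = 1 ∧ ¬M.Dd x (M.st 2 c) ∧ (∀ s ≤ t, M.Dd x (M.wk 3 c s)) ∧
    M.lk (4 * M.wk 3 c t + 3) % 4 = 0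

/-- The kill of `x` pays. -/
def NT (z x : ℕ) : Prop :=
  M.Dd x z ∨ (∃ c, M.Dd x c ∧ (M.Sad (4 * c) ∨ M.Sad (4 * c + 1) ∨ M.Sad (4 * c + 3))) ∨ M.Hop x

/-- Smoothing of type 0 joins the ports 0, 1 and the ports 2, 3. -/
def pr0 (p : ℕ) : ℕ := if p % 2 = 0 then p + 1 else p - 1

/-- `M'` comes from `M` by smoothing the cells with `D`. -/
structure Smo (M' : Cm) (D : ℕ → Prop) : Prop where
  n : M'.n = M.n
  al : ∀ c, M'.al c ↔ M.al c ∧ ¬D c
  lk : ∀ p, M'.al (p / 4) → Cv M.lk pr0 M'.al p (M'.lk p)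
  fix : ∀ p, ¬M'.al (p / 4) → M'.lk p = p

/-- No saddle link joins the basins of two members of the family. -/
def Ind (X : ℕ → Prop) : Prop :=
  ∀ x y p, X x → X y → M.Prb p → M.Co ((p + 1) % 2) (p / 4) x →
    M.Co ((M.lk p + 1) % 2) (M.lk p / 4) y → x = y

/-- A family of names of critical regions that can be killed together. -/
structure Fam (X : ℕ → Prop) : Prop where
  top : ∀ x, X x → M.Top x
  one : ∀ x y, X x → X y → M.Rg (4 * x) (4 * y) → x = y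
  ind : M.Ind X

def Dead (X : ℕ → Prop) (c : ℕ) : Prop := ∃ x, X x ∧ M.Dd x c

/-! ### The cut of rings of type 0: outer cells are passed by the side 0, inner cells by the side 3 -/

def Ring (v : ℕ) : Prop := M.Per 0 v ∧ M.FE 0 v 0 < M.n ∧ M.FE 0 v 3 < M.n

/-- A cell of kind `a` of the cycle of `v`. -/
def Rc (v a y : ℕ) : Prop := M.Kd 0 a y ∧ M.Co 0 y v

/-- A valid entry of the 1-cycle of the first inner cell. -/
def Eg (v p : ℕ) : Prop := M.Prb p ∧ p % 2 = 0 ∧ M.Co 1 (p / 4) (M.FE 0 v 3)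

structure Cond (z v : ℕ) : Prop where
  ring : M.Ring v
  cand : (∃ p, M.Eg v p ∧ M.Co 0 (p / 4) v) ∨ M.Co 0 z v
  all : ∀ p, M.Eg v p → (p % 4 = 0 ∧ M.Per 0 (p / 4) ∧ M.Co 0 (p / 4) v) ∨
    ∃ y, M.Pa 1 (p / 4) y ∧ M.Rc v 0 y

/-- `M'` comes from `M` by cutting the rings of the cells `v` with `R v`. -/
structure Cutm (M' : Cm) (R : ℕ → Prop) : Prop where
  n : M'.n = M.n
  inv : ∀ p, M'.lk (M'.lk p) = p
  ring : ∀ v a y, R v → M.Rc v a y → M'.lk (4 * y) = pt (M.FE 0 y a) (ep 0 a)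
  off : ∀ p, (¬∃ v a, R v ∧ M.Rc v a (p / 4) ∧ (p % 4 = 0 ∨ p % 4 = ep 0 a)) → M'.lk p = M.lk p

end Cm

/-! ### Frames: the group of the square, `g < 8`; `g < 4` rotations, `g ≥ 4` reflections -/

def fp (g q : ℕ) : ℕ := if g < 4 then (g + q) % 4 else (g + 4 - q % 4) % 4

def fs (g a : ℕ) : ℕ := if g < 4 then (g + a) % 4 else (g + 3 - a % 4) % 4

def gi (g : ℕ) : ℕ := if g < 4 then (4 - g) % 4 else g

def tp (g p : ℕ) : ℕ := 4 * (p / 4) + fp g p

/-- The port `q` of the new map is the port `fp g q` of the old map. -/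
def Cm.tw (M : Cm) (g : ℕ) : Cm := ⟨M.n, fun p => tp (gi g) (M.lk (tp g p))⟩

end

end Pool.Agent.MP_1a6d78_lc.PS

end MrgPart1

-- ======== part 2: formerly Pool.Agent.MP_1a6d78_lc.PS.Seg
section MrgPart2

/-! PROJECT PSC: walks and segments. -/

namespace Pool.Agent.MP_1a6d78_lc.PS

open Classical ED PR PL

theorem pt_div (c q : ℕ) : pt c q / 4 = c := by unfold pt; omega

theorem pt_mod (c q : ℕ) : pt c q % 4 = q % 4 := by unfold pt; omega

theorem pt_eta (p : ℕ) : pt (p / 4) p = p := by unfold pt; omega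

theorem pick_spec {n : ℕ} {P : ℕ → Prop} (fl : Bool) (h : ∃ m < n, P m) :
    pick fl n P < n ∧ P (pick fl n P) ∧
      ∀ m < n, P m → if fl then pick fl n P ≤ m else m ≤ pick fl n P := by
  cases fl
  · obtain ⟨m, h1, h2⟩ := h
    have e : ∀ m < n, n - 1 - (n - 1 - m) = m := fun m h => by omega
    obtain ⟨k1, k2⟩ := lst_spec (n := n) (P := fun i => P (n - 1 - i))
      ⟨n - 1 - m, by omega, by rw [e m h1]; exact h2⟩
    refine ⟨by simp only [pick]; simp; omega, k2, fun u u1 u2 => ?_⟩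
    have := lst_le (n := n) (m := n - 1 - u) (P := fun i => P (n - 1 - i)) (by omega)
      (by rw [e u u1]; exact u2)
    simp only [pick]
    simp
    omega
  · exact ⟨(lst_spec h).1, (lst_spec h).2, fun m h1 h2 => lst_le h1 h2⟩

namespace Cm

variable {M : Cm}

/-- `y` is on the segment. -/
def Mem (M : Cm) (A : Sg) (y : ℕ) : Prop := ∃ t ≤ M.ln A, M.el A t = y

/-- `y` and `y'` are on the segment, `y` not after `y'`. -/
def Bf (M : Cm) (A : Sg) (y y' : ℕ) : Prop :=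
  ∃ s t, s ≤ t ∧ t ≤ M.ln A ∧ M.el A s = y ∧ M.el A t = y'

/-- `Bf` for `fl = true`, the reverse order for `fl = false`. -/
def Bo (M : Cm) (fl : Bool) (A : Sg) (y y' : ℕ) : Prop := if fl then M.Bf A y y' else M.Bf A y' y

/-- `v` is the first (`fl`) or last cell of `A` with `I`, `n` if there is none. -/
def Ex (M : Cm) (fl : Bool) (A : Sg) (I : ℕ → Prop) (v : ℕ) : Prop :=
  (v = M.n ∧ ∀ u, ¬I u) ∨ (v < M.n ∧ I v ∧ ∀ u, I u → M.Bo fl A v u)

/-! ### Walks -/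

theorem wk_zero (i c : ℕ) : M.wk i c 0 = c := rfl

theorem wk_succ (i c t : ℕ) : M.wk i c (t + 1) = M.st i (M.wk i c t) :=
  Function.iterate_succ_apply' _ _ _

theorem wk_succ' (i c t : ℕ) : M.wk i c (t + 1) = M.wk i (M.st i c) t := rfl

theorem wk_add (i c s t : ℕ) : M.wk i c (s + t) = M.wk i (M.wk i c s) t := by
  unfold wk
  rw [add_comm, Function.iterate_add_apply]

theorem Ok.al_lk (h : M.Ok) {p : ℕ} (hp : M.al (p / 4)) : M.al (M.lk p / 4) := by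
  by_contra k
  have e := (h.fix _).2 k
  rw [h.inv] at e
  exact (h.fix p).1 e.symm hp

theorem Ok.al_st (h : M.Ok) (i : ℕ) {c : ℕ} (hc : M.al c) : M.al (M.st i c) :=
  h.al_lk (by rw [pt_div]; exact hc)

theorem Ok.al_wk (h : M.Ok) (i : ℕ) {c : ℕ} (hc : M.al c) (t : ℕ) : M.al (M.wk i c t) :=
  iter_inv (Q := M.al) (fun _ k => h.al_st i k) hc t

theorem Ok.st_dead (h : M.Ok) (i : ℕ) {c : ℕ} (hc : ¬M.al c) : M.st i c = c := by
  unfold st
  rw [(h.fix _).2 (by rw [pt_div]; exact hc), pt_div]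

theorem Ok.not_al_n (h : M.Ok) : ¬M.al M.n := fun k => lt_irrefl _ (h.lt _ k)

/-- The port reached by the step. -/
theorem Ok.lk_pt (h : M.Ok) {i c : ℕ} (hc : M.al c) :
    M.lk (pt c i) = pt (M.st i c) (ep i (M.ss i c)) := by
  have p := h.par (pt c i) (by rw [pt_div]; exact hc)
  unfold st ss ep sd
  unfold pt at *
  split_ifs <;> omega

theorem ss_cases (i c : ℕ) : M.ss i c = i % 4 ∨ M.ss i c = (i + 3) % 4 := by
  unfold ss sd
  split_ifs <;> simp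

/-- A step is determined by its end and its side. -/
theorem Ok.st_inj (h : M.Ok) {i a b : ℕ} (ha : M.al a) (hb : M.al b) (e1 : M.st i a = M.st i b)
    (e2 : M.ss i a = M.ss i b) : a = b := by
  have k : M.lk (pt a i) = M.lk (pt b i) := by rw [h.lk_pt ha, h.lk_pt hb, e1, e2]
  have := congrArg (fun p => M.lk p / 4) k
  simpa only [h.inv, pt_div] using this

theorem Pa.refl (i a : ℕ) : M.Pa i a a := ⟨0, rfl⟩

theorem Pa.trans {i a b c : ℕ} (h : M.Pa i a b) (k : M.Pa i b c) : M.Pa i a c := by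
  obtain ⟨s, rfl⟩ := h
  obtain ⟨t, rfl⟩ := k
  exact ⟨s + t, wk_add _ _ _ _⟩

theorem Pa.step (i a : ℕ) : M.Pa i a (M.st i a) := ⟨1, rfl⟩

theorem Pa.wk (i a t : ℕ) : M.Pa i a (M.wk i a t) := ⟨t, rfl⟩

theorem Pa.tot {i a b c : ℕ} (h : M.Pa i a b) (k : M.Pa i a c) : M.Pa i b c ∨ M.Pa i c b := by
  obtain ⟨s, rfl⟩ := h
  obtain ⟨t, rfl⟩ := k
  rcases le_total s t with u | u <;> obtain ⟨r, rfl⟩ := Nat.exists_eq_add_of_le u
  exacts [Or.inl ⟨r, (wk_add _ _ _ _).symm⟩, Or.inr ⟨r, (wk_add _ _ _ _).symm⟩]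

theorem Pa.cases {i a b : ℕ} (h : M.Pa i a b) : a = b ∨ M.Pa i (M.st i a) b := by
  obtain ⟨t, rfl⟩ := h
  cases t with
  | zero => exact Or.inl rfl
  | succ t => exact Or.inr ⟨t, rfl⟩

theorem Pa.al (h : M.Ok) {i a b : ℕ} (ha : M.al a) (k : M.Pa i a b) : M.al b := by
  obtain ⟨t, rfl⟩ := k
  exact h.al_wk i ha t

theorem Pa.bnd (h : M.Ok) {i a b : ℕ} (ha : M.al a) (k : M.Pa i a b) : ∃ t < M.n, M.wk i a t = b := by
  obtain ⟨t, e⟩ := k
  exact iter_bnd' (Q := M.al) (fun _ k => h.al_st i k) h.lt ha e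

theorem Per.st (h : M.Ok) {i c : ℕ} (k : M.Per i c) : M.Per i (M.st i c) := by
  obtain ⟨t, e⟩ := k.2
  exact ⟨h.al_st i k.1, t, by rw [← wk_succ', wk_succ, e]⟩

theorem Per.pa (h : M.Ok) {i c y : ℕ} (k : M.Per i c) (p : M.Pa i c y) : M.Per i y ∧ M.Pa i y c := by
  obtain ⟨t, rfl⟩ := p
  induction t with
  | zero => exact ⟨k, Pa.refl _ _⟩
  | succ t ih =>
    rw [wk_succ]
    exact ⟨ih.1.st h, ih.1.2.trans ih.2⟩

theorem Co.refl (i a : ℕ) : M.Co i a a := ⟨a, Pa.refl _ _, Pa.refl _ _⟩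

theorem Co.symm {i a b : ℕ} (h : M.Co i a b) : M.Co i b a :=
  let ⟨u, p, q⟩ := h; ⟨u, q, p⟩

theorem Co.trans {i a b c : ℕ} (h : M.Co i a b) (k : M.Co i b c) : M.Co i a c := by
  obtain ⟨u, p, q⟩ := h
  obtain ⟨v, r, s⟩ := k
  rcases q.tot r with w | w
  exacts [⟨v, p.trans w, s⟩, ⟨u, p, s.trans w⟩]

theorem Pa.co {i a b : ℕ} (h : M.Pa i a b) : M.Co i a b := ⟨b, h, Pa.refl _ _⟩

/-- Every walk with the same end passes a periodic cell. -/
theorem Co.pa (h : M.Ok) {i a b : ℕ} (k : M.Co i a b) (p : M.Per i b) : M.Pa i a b :=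
  let ⟨_, u, v⟩ := k; u.trans (p.pa h v).2

theorem Nm.pa_eq {En : ℕ → ℕ → ℕ} (h : M.Ok) (N : M.Nm En) {i a b : ℕ} (hi : i < 4) (ha : M.al a)
    (k : M.Pa i a b) : En i b = En i a := by
  obtain ⟨t, rfl⟩ := k
  induction t with
  | zero => rfl
  | succ t ih => rw [wk_succ, N.st i hi _ (h.al_wk i ha t), ih]

theorem Nm.al {En : ℕ → ℕ → ℕ} (N : M.Nm En) {i a : ℕ} (hi : i < 4) (ha : M.al a) :
    M.al (En i a) := (N.per i hi a ha).1

theorem Nm.idem {En : ℕ → ℕ → ℕ} (h : M.Ok) (N : M.Nm En) {i a : ℕ} (hi : i < 4) (ha : M.al a) :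
    En i (En i a) = En i a := N.pa_eq h hi ha (N.pa i hi a ha)

theorem Nm.co {En : ℕ → ℕ → ℕ} (h : M.Ok) (N : M.Nm En) {i a b : ℕ} (hi : i < 4) (ha : M.al a)
    (hb : M.al b) : En i a = En i b ↔ M.Co i a b :=
  ⟨fun e => ⟨_, N.pa i hi a ha, e ▸ N.pa i hi b hb⟩,
    fun ⟨_, p, q⟩ => (N.pa_eq h hi ha p).symm.trans (N.pa_eq h hi hb q)⟩

/-- A periodic cell is entered by exactly one side. -/
theorem Per.kd (h : M.Ok) {i y : ℕ} (k : M.Per i y) : ∃ a, M.Kd i a y := by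
  obtain ⟨t, e⟩ := k.2
  exact ⟨_, M.wk i y t, (k.pa h (Pa.wk _ _ _)).1, by rw [← wk_succ, wk_succ', e], rfl⟩

theorem Kd.per (h : M.Ok) {i a y : ℕ} (k : M.Kd i a y) : M.Per i y :=
  let ⟨_, p, e, _⟩ := k; e ▸ p.st h

theorem Per.st_inj (h : M.Ok) {i u v : ℕ} (p : M.Per i u) (q : M.Per i v)
    (e : M.st i u = M.st i v) : u = v := by
  obtain ⟨s, hs⟩ := p.2
  obtain ⟨t, ht⟩ := q.2
  have per : ∀ {u s : ℕ}, M.wk i (M.st i u) s = u → ∀ k, M.wk i u (k * (s + 1)) = u := by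
    intro u s hs k
    induction k with
    | zero => rw [zero_mul]; rfl
    | succ k ih => rw [add_mul, one_mul, wk_add, ih, wk_succ', hs]
  have a1 := per hs (t + 1)
  have a2 := per ht (s + 1)
  rw [show (t + 1) * (s + 1) = (t * s + t + s) + 1 by ring, wk_succ', e] at a1
  rw [show (s + 1) * (t + 1) = (t * s + t + s) + 1 by ring, wk_succ'] at a2
  exact a1.symm.trans a2

theorem Kd.uniq (h : M.Ok) {i a b y : ℕ} (k : M.Kd i a y) (l : M.Kd i b y) : a = b := by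
  obtain ⟨u, p, e, rfl⟩ := k
  obtain ⟨v, q, f, rfl⟩ := l
  rw [p.st_inj h q (e.trans f.symm)]

/-! ### The first passage by a side -/

theorem FE_le (h : M.Ok) (i c a : ℕ) : M.FE i c a = M.n ∨ M.al (M.FE i c a) := by
  unfold FE
  split_ifs with k
  exacts [Or.inr (h.al_wk i k.1 _), Or.inl rfl]

theorem FE_dead {i c a : ℕ} (hc : ¬M.al c) : M.FE i c a = M.n := if_neg fun k => hc k.1

theorem FE_ex (h : M.Ok) {i c a t : ℕ} (hc : M.al c) (e : M.ss i (M.wk i c t) = a) :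
    ∃ t < M.n, M.ss i (M.wk i c t) = a :=
  let ⟨s, s1, s2⟩ := (Pa.wk i c t).bnd h hc; ⟨s, s1, by rw [s2, e]⟩

theorem FE_none (h : M.Ok) {i c a : ℕ} (hc : M.al c) :
    M.FE i c a = M.n ↔ ∀ t, M.ss i (M.wk i c t) ≠ a := by
  constructor
  · intro e t k
    have := h.lt _ (h.al_wk i hc (lst M.n (fun t => M.ss i (M.wk i c t) = a) + 1))
    rw [FE, if_pos ⟨hc, FE_ex h hc k⟩] at e
    omega
  · exact fun k => if_neg fun ⟨_, t, _, e⟩ => k t e

theorem FE_eq (h : M.Ok) {i c a t : ℕ} (hc : M.al c) (e : M.ss i (M.wk i c t) = a)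
    (k : ∀ s < t, M.ss i (M.wk i c s) ≠ a) : M.FE i c a = M.wk i c (t + 1) := by
  have x := FE_ex h hc e
  obtain ⟨x1, x2⟩ := lst_spec x
  rw [FE, if_pos ⟨hc, x⟩]
  have : lst M.n (fun t => M.ss i (M.wk i c t) = a) = t := by
    rcases lt_trichotomy (lst M.n fun t => M.ss i (M.wk i c t) = a) t with u | u | u
    · exact absurd x2 (k _ u)
    · exact u
    · exact absurd (lst_le (u.trans x1) e) (not_le.2 u)
  rw [this]

theorem FE_spec (h : M.Ok) {i c a : ℕ} (k : M.FE i c a < M.n) : M.al c ∧ ∃ t,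
    M.FE i c a = M.wk i c (t + 1) ∧ M.ss i (M.wk i c t) = a ∧
      ∀ s < t, M.ss i (M.wk i c s) ≠ a := by
  have hc : M.al c := by_contra fun u => by rw [FE_dead u] at k; exact lt_irrefl _ k
  have ex : ∃ t, M.ss i (M.wk i c t) = a := by_contra fun u =>
    k.ne ((FE_none h hc).2 fun t e => u ⟨t, e⟩)
  exact ⟨hc, Nat.find ex, FE_eq h hc (Nat.find_spec ex) fun _ => Nat.find_min ex,
    Nat.find_spec ex, fun _ => Nat.find_min ex⟩

/-! ### Segments -/

variable {A B : Sg}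

theorem ln_spec (h : M.Ok) (k : M.ok A) :
    M.ln A < M.n ∧ M.el A (M.ln A) = A.q ∧ ∀ t < M.ln A, M.el A t ≠ A.q := by
  obtain ⟨u1, u2⟩ := lst_spec (P := fun t => M.el A t = A.q) (k.2.2.bnd h k.2.1)
  exact ⟨u1, u2, fun t ht e => absurd (lst_le (P := fun t => M.el A t = A.q) (ht.trans u1) e)
    (not_le.2 ht)⟩

theorem ln_eq (h : M.Ok) (k : M.ok A) {l : ℕ} (e : M.el A l = A.q) (hl : ∀ t < l, M.el A t ≠ A.q) :
    M.ln A = l := by
  obtain ⟨-, u2, u3⟩ := ln_spec h k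
  rcases lt_trichotomy (M.ln A) l with u | u | u
  exacts [absurd u2 (hl _ u), u, absurd e (u3 _ u)]

theorem el_inj (h : M.Ok) (k : M.ok A) {s t : ℕ} (hs : s ≤ M.ln A) (ht : t ≤ M.ln A)
    (e : M.el A s = M.el A t) : s = t :=
  iter_first (ln_spec h k).2.1 (ln_spec h k).2.2 s hs t ht e

theorem el_al (h : M.Ok) (k : M.ok A) (t : ℕ) : M.al (M.el A t) := h.al_wk _ k.2.1 t

theorem sv_succ (A : Sg) (t : ℕ) : M.sv A (t + 1) = M.ss A.i (M.el A t) := rfl

theorem Ps.mem {y a : ℕ} (p : M.Ps A y a) : M.Mem A y := let ⟨t, u, v, _⟩ := p; ⟨t, u, v⟩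

theorem Mem.ps {y : ℕ} (p : M.Mem A y) : ∃ a, M.Ps A y a := let ⟨t, u, v⟩ := p; ⟨_, t, u, v, rfl⟩

theorem Mem.pa {y : ℕ} (p : M.Mem A y) : M.Pa A.i A.p y := let ⟨t, _, v⟩ := p; ⟨t, v⟩

theorem Mem.al (h : M.Ok) (k : M.ok A) {y : ℕ} (p : M.Mem A y) : M.al y := p.pa.al h k.2.1

theorem mem_p (A : Sg) : M.Mem A A.p := ⟨0, Nat.zero_le _, rfl⟩

theorem ps_p (A : Sg) : M.Ps A A.p A.s := ⟨0, Nat.zero_le _, rfl, rfl⟩

theorem mem_q (h : M.Ok) (k : M.ok A) : M.Mem A A.q := ⟨_, le_rfl, (ln_spec h k).2.1⟩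

theorem Ps.uniq (h : M.Ok) (k : M.ok A) {y a b : ℕ} (p : M.Ps A y a) (q : M.Ps A y b) : a = b := by
  obtain ⟨s, s1, s2, rfl⟩ := p
  obtain ⟨t, t1, t2, rfl⟩ := q
  rw [el_inj h k s1 t1 (s2.trans t2.symm)]

theorem Bf.left {y y' : ℕ} (b : M.Bf A y y') : M.Mem A y :=
  let ⟨s, _, u, v, e, _⟩ := b; ⟨s, u.trans v, e⟩

theorem Bf.right {y y' : ℕ} (b : M.Bf A y y') : M.Mem A y' :=
  let ⟨_, t, _, v, _, e⟩ := b; ⟨t, v, e⟩

theorem Bf.pa {y y' : ℕ} (b : M.Bf A y y') : M.Pa A.i y y' := by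
  obtain ⟨s, t, u, -, rfl, rfl⟩ := b
  obtain ⟨r, rfl⟩ := Nat.exists_eq_add_of_le u
  exact ⟨r, (wk_add _ _ _ _).symm⟩

theorem Mem.bf {y : ℕ} (p : M.Mem A y) : M.Bf A y y := let ⟨t, u, e⟩ := p; ⟨t, t, le_rfl, u, e, e⟩

theorem Mem.bf_p {y : ℕ} (p : M.Mem A y) : M.Bf A A.p y :=
  let ⟨t, u, e⟩ := p; ⟨0, t, Nat.zero_le _, u, rfl, e⟩

theorem Mem.bf_q (h : M.Ok) (k : M.ok A) {y : ℕ} (p : M.Mem A y) : M.Bf A y A.q :=
  let ⟨t, u, e⟩ := p; ⟨t, _, u, le_rfl, e, (ln_spec h k).2.1⟩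

theorem Mem.tot {y y' : ℕ} (p : M.Mem A y) (q : M.Mem A y') : M.Bf A y y' ∨ M.Bf A y' y := by
  obtain ⟨s, s1, s2⟩ := p
  obtain ⟨t, t1, t2⟩ := q
  rcases le_total s t with u | u
  exacts [Or.inl ⟨s, t, u, t1, s2, t2⟩, Or.inr ⟨t, s, u, s1, t2, s2⟩]

theorem Bf.anti (h : M.Ok) (k : M.ok A) {y y' : ℕ} (b : M.Bf A y y') (c : M.Bf A y' y) : y = y' := by
  obtain ⟨s, t, u, v, rfl, rfl⟩ := b
  obtain ⟨s', t', u', v', e1, e2⟩ := c
  have a1 := el_inj h k (u'.trans v') v e1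
  have a2 := el_inj h k v' (u.trans v) e2
  rw [show s = t by omega]

theorem Bf.trans (h : M.Ok) (k : M.ok A) {x y z : ℕ} (b : M.Bf A x y) (c : M.Bf A y z) :
    M.Bf A x z := by
  obtain ⟨s, t, u, v, rfl, rfl⟩ := b
  obtain ⟨s', t', u', v', e1, rfl⟩ := c
  have a1 := el_inj h k (u'.trans v') v e1
  exact ⟨s, t', by omega, v', rfl, rfl⟩

theorem Mem.bo (fl : Bool) {y : ℕ} (p : M.Mem A y) : M.Bo fl A y y := by
  cases fl <;> exact p.bf

theorem Bo.left {fl : Bool} {y y' : ℕ} (b : M.Bo fl A y y') : M.Mem A y := by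
  cases fl
  exacts [Bf.right b, Bf.left b]

theorem Bo.right {fl : Bool} {y y' : ℕ} (b : M.Bo fl A y y') : M.Mem A y' := by
  cases fl
  exacts [Bf.left b, Bf.right b]

theorem Mem.toto (fl : Bool) {y y' : ℕ} (p : M.Mem A y) (q : M.Mem A y') :
    M.Bo fl A y y' ∨ M.Bo fl A y' y := by
  cases fl
  exacts [q.tot p, p.tot q]

theorem Bo.anti (h : M.Ok) (k : M.ok A) {fl : Bool} {y y' : ℕ} (b : M.Bo fl A y y')
    (c : M.Bo fl A y' y) : y = y' := by
  cases fl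
  exacts [Bf.anti h k c b, Bf.anti h k b c]

theorem Bo.trans (h : M.Ok) (k : M.ok A) {fl : Bool} {x y z : ℕ} (b : M.Bo fl A x y)
    (c : M.Bo fl A y z) : M.Bo fl A x z := by
  cases fl
  exacts [Bf.trans h k c b, Bf.trans h k b c]

theorem Ex.uniq (h : M.Ok) (k : M.ok A) {fl : Bool} {I : ℕ → Prop} {v w : ℕ} (a : M.Ex fl A I v)
    (b : M.Ex fl A I w) : v = w := by
  rcases a with ⟨a1, a2⟩ | ⟨-, a2, a3⟩ <;> rcases b with ⟨b1, b2⟩ | ⟨-, b2, b3⟩
  exacts [a1.trans b1.symm, absurd b2 (a2 _), absurd a2 (b2 _), (a3 _ b2).anti h k (b3 _ a2)]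

theorem Ex.congr {fl : Bool} {I J : ℕ → Prop} {v : ℕ} (a : M.Ex fl A I v) (e : ∀ u, I u ↔ J u) :
    M.Ex fl A J v := (funext fun u => propext (e u) : I = J) ▸ a

theorem Ex.le {fl : Bool} {I : ℕ → Prop} {v : ℕ} (a : M.Ex fl A I v) : v ≤ M.n :=
  a.elim (fun k => k.1.le) fun k => k.1.le

theorem Ex.lt_iff {fl : Bool} {I : ℕ → Prop} {v : ℕ} (a : M.Ex fl A I v) : v < M.n ↔ ∃ u, I u :=
  a.elim (fun k => ⟨fun c => absurd k.1 c.ne, fun ⟨u, c⟩ => absurd c (k.2 u)⟩)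
    fun k => ⟨fun _ => ⟨v, k.2.1⟩, fun _ => k.1⟩

theorem Ex.of_lt {fl : Bool} {I : ℕ → Prop} {v : ℕ} (a : M.Ex fl A I v) (h : v < M.n) :
    I v ∧ ∀ u, I u → M.Bo fl A v u :=
  a.elim (fun k => absurd k.1 h.ne) fun k => k.2

theorem F_junk (fl : Bool) (a b : ℕ) (k : ¬(M.ok A ∧ M.ok B)) : M.F fl a b A B = M.n :=
  if_neg fun u => k ⟨u.1, u.2.1⟩

theorem F_spec (h : M.Ok) (fl : Bool) (a b : ℕ) (k : M.ok A) (l : M.ok B) :
    M.Ex fl A (fun y => M.Ps A y a ∧ M.Ps B y b) (M.F fl a b A B) := by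
  have n1 := (ln_spec h k).1
  unfold F
  split_ifs with u
  · obtain ⟨p1, p2, p3⟩ := pick_spec fl u.2.2
    refine Or.inr ⟨h.lt _ (el_al h k _), ⟨⟨_, p2.1, rfl, p2.2.1⟩, p2.2.2⟩, ?_⟩
    rintro y ⟨⟨t, t1, rfl, t3⟩, t4⟩
    have := p3 t (by omega) ⟨t1, t3, t4⟩
    cases fl
    exacts [⟨_, _, this, p2.1, rfl, rfl⟩, ⟨_, _, this, t1, rfl, rfl⟩]
  · refine Or.inl ⟨rfl, ?_⟩
    rintro y ⟨⟨t, t1, rfl, t3⟩, t4⟩
    exact u ⟨k, l, t, by omega, t1, t3, t4⟩

theorem F_le (h : M.Ok) (fl : Bool) (a b : ℕ) (A B : Sg) : M.F fl a b A B ≤ M.n := by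
  by_cases k : M.ok A ∧ M.ok B
  exacts [(F_spec h fl a b k.1 k.2).le, (F_junk fl a b k).le]

/-! ### Special segments -/

theorem one_ok {i y : ℕ} (s : ℕ) (hi : i < 4) (hy : M.al y) : M.ok ⟨i, y, s, y⟩ :=
  ⟨hi, hy, Pa.refl _ _⟩

theorem one_ps (h : M.Ok) {i y s : ℕ} (k : M.ok ⟨i, y, s, y⟩) (u a : ℕ) :
    M.Ps ⟨i, y, s, y⟩ u a ↔ u = y ∧ a = s := by
  have e : M.ln ⟨i, y, s, y⟩ = 0 := ln_eq h k rfl fun _ k => absurd k (Nat.not_lt_zero _)
  constructor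
  · rintro ⟨t, t1, rfl, rfl⟩
    rw [e, Nat.le_zero] at t1
    rw [t1]
    exact ⟨rfl, rfl⟩
  · rintro ⟨rfl, rfl⟩
    exact ps_p _

/-- Cut at the end. -/
theorem cutq (h : M.Ok) (k : M.ok A) {r : ℕ} (m : M.Mem A r) : M.ok ⟨A.i, A.p, A.s, r⟩ ∧
    (∀ y a, M.Ps ⟨A.i, A.p, A.s, r⟩ y a ↔ M.Ps A y a ∧ M.Bf A y r) ∧
    ∀ y y', M.Bf ⟨A.i, A.p, A.s, r⟩ y y' ↔ M.Bf A y y' ∧ M.Bf A y' r := by
  have o : M.ok ⟨A.i, A.p, A.s, r⟩ := ⟨k.1, k.2.1, m.pa⟩
  obtain ⟨l, l1, rfl⟩ := m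
  have e : M.ln ⟨A.i, A.p, A.s, M.el A l⟩ = l :=
    ln_eq h o rfl fun t ht c => ht.ne (el_inj h k (ht.le.trans l1) l1 c)
  refine ⟨o, fun y a => ⟨?_, ?_⟩, fun y y' => ⟨?_, ?_⟩⟩
  · rintro ⟨t, t1, rfl, rfl⟩
    rw [e] at t1
    exact ⟨⟨t, t1.trans l1, rfl, rfl⟩, t, l, t1, l1, rfl, rfl⟩
  · rintro ⟨⟨t, t1, rfl, rfl⟩, s, s', u1, u2, u3, u4⟩
    have a1 := el_inj h k (u1.trans u2) t1 u3
    have a2 := el_inj h k u2 l1 u4
    exact ⟨t, by omega, rfl, rfl⟩
  · rintro ⟨s, t, u1, u2, rfl, rfl⟩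
    rw [e] at u2
    exact ⟨⟨s, t, u1, u2.trans l1, rfl, rfl⟩, t, l, u2, l1, rfl, rfl⟩
  · rintro ⟨⟨s, t, u1, u2, rfl, rfl⟩, s', t', v1, v2, v3, v4⟩
    have a1 := el_inj h k (v1.trans v2) u2 v3
    have a2 := el_inj h k v2 l1 v4
    exact ⟨s, t, u1, by omega, rfl, rfl⟩

/-- Cut at the start. -/
theorem cutp (h : M.Ok) (k : M.ok A) {r s : ℕ} (m : M.Ps A r s) : M.ok ⟨A.i, r, s, A.q⟩ ∧
    (∀ y a, M.Ps ⟨A.i, r, s, A.q⟩ y a ↔ M.Ps A y a ∧ M.Bf A r y) ∧
    ∀ y y', M.Bf ⟨A.i, r, s, A.q⟩ y y' ↔ M.Bf A y y' ∧ M.Bf A r y := by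
  have o : M.ok ⟨A.i, r, s, A.q⟩ := ⟨k.1, m.mem.al h k, (m.mem.bf_q h k).pa⟩
  obtain ⟨l, l1, rfl, rfl⟩ := m
  have el : ∀ t, M.el ⟨A.i, M.el A l, M.sv A l, A.q⟩ t = M.el A (l + t) := fun t =>
    (wk_add _ _ _ _).symm
  have sv : ∀ t, M.sv ⟨A.i, M.el A l, M.sv A l, A.q⟩ t = M.sv A (l + t) := fun t => by
    cases t with
    | zero => rfl
    | succ t => rw [sv_succ, el]; rfl
  have e : M.ln ⟨A.i, M.el A l, M.sv A l, A.q⟩ = M.ln A - l :=
    ln_eq h o (by rw [el, Nat.add_sub_cancel' l1]; exact (ln_spec h k).2.1) fun t ht => by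
      rw [el]; exact (ln_spec h k).2.2 _ (by omega)
  refine ⟨o, fun y a => ⟨?_, ?_⟩, fun y y' => ⟨?_, ?_⟩⟩
  · rintro ⟨t, t1, rfl, rfl⟩
    rw [e] at t1
    rw [el, sv]
    exact ⟨⟨l + t, by omega, rfl, rfl⟩, l, l + t, by omega, by omega, rfl, rfl⟩
  · rintro ⟨⟨t, t1, rfl, rfl⟩, s, s', u1, u2, u3, u4⟩
    have a1 := el_inj h k (u1.trans u2) l1 u3
    have a2 := el_inj h k u2 t1 u4
    exact ⟨t - l, by omega, by rw [el, show l + (t - l) = t by omega],
      by rw [sv, show l + (t - l) = t by omega]⟩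
  · rintro ⟨s, t, u1, u2, rfl, rfl⟩
    rw [e] at u2
    rw [el, el]
    exact ⟨⟨l + s, l + t, by omega, by omega, rfl, rfl⟩, l, l + s, by omega, by omega, rfl, rfl⟩
  · rintro ⟨⟨s, t, u1, u2, rfl, rfl⟩, s', t', v1, v2, v3, v4⟩
    have a1 := el_inj h k (v1.trans v2) l1 v3
    have a2 := el_inj h k v2 (u1.trans u2) v4
    exact ⟨s - l, t - l, by omega, by omega, by rw [el, show l + (s - l) = s by omega],
      by rw [el, show l + (t - l) = t by omega]⟩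

/-- The cycle of `v`, from the cell after `v` to `v`. -/
def rg (M : Cm) (i v : ℕ) : Sg := ⟨i, M.st i v, M.ss i v, v⟩

theorem rg_ok (h : M.Ok) {i v : ℕ} (hi : i < 4) (p : M.Per i v) : M.ok (M.rg i v) :=
  ⟨hi, h.al_st i p.1, p.2⟩

theorem rg_el (i v t : ℕ) : M.el (M.rg i v) t = M.wk i v (t + 1) := rfl

theorem rg_sv (i v t : ℕ) : M.sv (M.rg i v) t = M.ss i (M.wk i v t) := by
  cases t <;> rfl

theorem rg_ps (h : M.Ok) {i v : ℕ} (hi : i < 4) (p : M.Per i v) (y a : ℕ) :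
    M.Ps (M.rg i v) y a ↔ M.Kd i a y ∧ M.Co i y v := by
  have o := rg_ok h hi p
  constructor
  · rintro ⟨t, -, rfl, rfl⟩
    rw [rg_el, rg_sv]
    exact ⟨⟨_, (p.pa h (Pa.wk _ _ _)).1, (wk_succ _ _ _).symm, rfl⟩, (Pa.wk _ _ _).co.symm⟩
  · rintro ⟨k, c⟩
    have e : M.wk i v (M.ln (M.rg i v) + 1) = v := (ln_spec h o).2.1
    have all : ∀ t, ∃ s ≤ M.ln (M.rg i v), M.wk i v (s + 1) = M.wk i v t := fun t => by
      induction t with
      | zero => exact ⟨_, le_rfl, e⟩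
      | succ t ih =>
        obtain ⟨s, s1, s2⟩ := ih
        rcases s1.lt_or_eq with u | u
        · exact ⟨s + 1, u, by rw [wk_succ, s2, wk_succ]⟩
        · exact ⟨0, Nat.zero_le _, by rw [wk_succ _ _ t, ← s2, u, e]; rfl⟩
    obtain ⟨t, rfl⟩ := c.symm.pa h (k.per h)
    obtain ⟨s, s1, s2⟩ := all t
    refine ⟨s, s1, s2, ?_⟩
    rw [rg_sv]
    exact Kd.uniq h ⟨_, (p.pa h (Pa.wk _ _ _)).1, (wk_succ _ _ _).symm.trans s2, rfl⟩ k

/-- The path to a periodic cell and the cycle contain all the passages of the walk. -/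
theorem full_ps (h : M.Ok) {i p s v : ℕ} (hi : i < 4) (hp : M.al p) (k : M.Pa i p v)
    (q : M.Per i v) (y a : ℕ) : M.Ps ⟨i, p, s, v⟩ y a ∨ M.Ps (M.rg i v) y a ↔
      (y = p ∧ a = s) ∨ ∃ t, M.wk i p (t + 1) = y ∧ M.ss i (M.wk i p t) = a := by
  have o : M.ok ⟨i, p, s, v⟩ := ⟨hi, hp, k⟩
  have e : M.wk i p (M.ln ⟨i, p, s, v⟩) = v := (ln_spec h o).2.1
  constructor
  · rintro (⟨t, -, rfl, rfl⟩ | ⟨t, -, rfl, rfl⟩)
    · cases t with
      | zero => exact Or.inl ⟨rfl, rfl⟩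
      | succ t => exact Or.inr ⟨t, rfl, rfl⟩
    · exact Or.inr ⟨M.ln ⟨i, p, s, v⟩ + t, by rw [add_assoc, wk_add, e, rg_el],
        by rw [wk_add, e, rg_sv]⟩
  · rintro (⟨rfl, rfl⟩ | ⟨t, rfl, rfl⟩)
    · exact Or.inl (ps_p _)
    · rcases lt_or_ge t (M.ln ⟨i, p, s, v⟩) with u | u
      · exact Or.inl ⟨t + 1, u, rfl, rfl⟩
      · obtain ⟨r, rfl⟩ := Nat.exists_eq_add_of_le u
        refine Or.inr ((rg_ps h hi q _ _).2 ?_)
        rw [add_assoc, wk_add, wk_add, e]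
        exact ⟨⟨_, (q.pa h (Pa.wk _ _ _)).1, (wk_succ _ _ _).symm, rfl⟩, (Pa.wk _ _ _).co.symm⟩

end Cm

end Pool.Agent.MP_1a6d78_lc.PS

end MrgPart2

-- ======== part 3: formerly Pool.Agent.MP_1a6d78_lc.PS.Pcs
section MrgPart3

/-! PROJECT PSC: folds of the two-segment primitive; the primitive of a new level from pieces. -/

namespace Pool.Agent.MP_1a6d78_lc.PS

open Classical ED PR PL

noncomputable section

abbrev FT : Type := Bool → ℕ → ℕ → Sg → Sg → ℕ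

/-- Cut `X` at the best hit found so far. -/
def shr (n : ℕ) (fl : Bool) (a : ℕ) (X : Sg) (r : ℕ) : Sg :=
  if r < n then (if fl then ⟨X.i, X.p, X.s, r⟩ else ⟨X.i, r, a, X.q⟩) else X

/-- The first or last hit of `X` with one of the segments `B k`, `k < m`, or the cell `r0`. -/
def fo (n : ℕ) (f : FT) (fl : Bool) (a b : ℕ) (X : Sg) (B : ℕ → Sg) (r0 m : ℕ) : ℕ :=
  itr (fun k r => if f fl a b (shr n fl a X r) (B k) < n then f fl a b (shr n fl a X r) (B k) else r)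
    r0 m

/-- The segment passes `y` by the side `a`. -/
def onf (n : ℕ) (f : FT) (y a : ℕ) (A : Sg) : Prop :=
  f true a ((a + 1) % 4) A ⟨(a + 1) % 4, y, (a + 1) % 4, y⟩ < n

/-- The segment contains `y` (the start side has to be one of the two sides of the type). -/
def onc (n : ℕ) (f : FT) (y : ℕ) (A : Sg) : Prop := onf n f y A.i A ∨ onf n f y ((A.i + 3) % 4) A

def junk (n : ℕ) : Sg := ⟨0, n, 0, n⟩

/-- The two-segment primitive from the pieces `X k`, `k < m` (read backwards if `rv k`) and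
`Y l`, `l < m'`. -/
def fpc (n : ℕ) (f : FT) (fl : Bool) (a b : ℕ) (X : ℕ → Sg) (rv : ℕ → Bool) (m : ℕ) (Y : ℕ → Sg)
    (m' : ℕ) : ℕ :=
  if ∃ k < m, fo n f (xor fl (rv k)) a b (X k) Y n m' < n then
    fo n f (xor fl (rv (pick fl m fun k => fo n f (xor fl (rv k)) a b (X k) Y n m' < n))) a b
      (X (pick fl m fun k => fo n f (xor fl (rv k)) a b (X k) Y n m' < n)) Y n m'
  else n

namespace Cm

variable {M M' : Cm}

/-- Weakly correct segments. -/
def wo (M : Cm) (A : Sg) : Prop := M.al A.p → M.ok A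

/-- `f` is the two-segment primitive of `M`. -/
def GF (M : Cm) (f : FT) : Prop :=
  ∀ fl a b A B, a < 4 → b < 4 → a ≠ b → M.wo A → M.wo B → f fl a b A B = M.F fl a b A B

/-- The passages of `A` in `M'` by the side `a` are those of the pieces `X k`, `k < m`, of `M`;
the pieces pass removed cells only by the side `δ`. -/
structure Cov (M M' : Cm) (δ a : ℕ) (A : Sg) (X : ℕ → Sg) (rv : ℕ → Bool) (m : ℕ) : Prop where
  wo : ∀ k < m, M.wo (X k)
  c1 : ∀ y, M'.Ps A y a → ∃ k < m, M.ok (X k) ∧ M.Ps (X k) y a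
  c2 : ∀ k < m, ∀ y, M.ok (X k) → M.Ps (X k) y a → M'.Ps A y a ∨ (¬M'.al y ∧ a = δ)
  lt : ∀ k k' y y', k < k' → k' < m → M.ok (X k) → M.ok (X k') → M.Ps (X k) y a →
    M.Ps (X k') y' a → M'.al y → M'.al y' → M'.Bf A y y'
  eq : ∀ k < m, ∀ y y', M.ok (X k) → M.Ps (X k) y a → M.Ps (X k) y' a → M'.al y → M'.al y' →
    M.Bo (!rv k) (X k) y y' → M'.Bf A y y'

variable {f : FT} {A B X : Sg}

theorem ok.wo (k : M.ok A) : M.wo A := fun _ => k

theorem wo_dead (k : ¬M.al A.p) : M.wo A := fun u => absurd u k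

theorem junk_wo (h : M.Ok) : M.wo (junk M.n) := wo_dead h.not_al_n

theorem junk_not (h : M.Ok) : ¬M.ok (junk M.n) := fun k => h.not_al_n k.2.1

theorem one_wo {i : ℕ} (y s : ℕ) (hi : i < 4) : M.wo ⟨i, y, s, y⟩ := fun k => one_ok s hi k

theorem gf_self (M : Cm) : M.GF M.F := fun _ _ _ _ _ _ _ _ _ _ => rfl

theorem onf_iff (h : M.Ok) (g : M.GF f) {y a : ℕ} (ha : a < 4) (w : M.wo A) :
    onf M.n f y a A ↔ M.ok A ∧ M.Ps A y a := by
  have b : (a + 1) % 4 < 4 := Nat.mod_lt _ (by omega)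
  unfold onf
  rw [g _ _ _ _ _ ha b (by omega) w (one_wo _ _ b)]
  by_cases k : M.ok A ∧ M.ok ⟨(a + 1) % 4, y, (a + 1) % 4, y⟩
  · rw [(F_spec h true _ _ k.1 k.2).lt_iff]
    exact ⟨fun ⟨u, u1, u2⟩ => ⟨k.1, ((one_ps h k.2 _ _).1 u2).1 ▸ u1⟩,
      fun u => ⟨y, u.2, (one_ps h k.2 _ _).2 ⟨rfl, rfl⟩⟩⟩
  · rw [F_junk _ _ _ k]
    exact ⟨fun u => absurd u (lt_irrefl _), fun u => absurd ⟨u.1, one_ok _ b (u.2.mem.al h u.1)⟩ k⟩

theorem Ps.side {y a : ℕ} (p : M.Ps A y a) : (y = A.p ∧ a = A.s) ∨ a = A.i % 4 ∨ a = (A.i + 3) % 4 := by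
  obtain ⟨t, -, rfl, rfl⟩ := p
  cases t with
  | zero => exact Or.inl ⟨rfl, rfl⟩
  | succ t => exact Or.inr (ss_cases _ _)

theorem onc_iff (h : M.Ok) (g : M.GF f) {y : ℕ} (hi : A.i < 4) (w : M.wo A)
    (hs : A.s = A.i ∨ A.s = (A.i + 3) % 4) : onc M.n f y A ↔ M.ok A ∧ M.Mem A y := by
  unfold onc
  rw [onf_iff h g hi w, onf_iff h g (Nat.mod_lt _ (by omega)) w]
  refine ⟨fun k => k.elim (fun k => ⟨k.1, k.2.mem⟩) fun k => ⟨k.1, k.2.mem⟩, fun ⟨k, m⟩ => ?_⟩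
  obtain ⟨a, p⟩ := m.ps
  rcases p.side with u | u | u
  · rcases hs with e | e
    exacts [Or.inl ⟨k, e ▸ u.2 ▸ p⟩, Or.inr ⟨k, e ▸ u.2 ▸ p⟩]
  · rw [Nat.mod_eq_of_lt hi] at u
    exact Or.inl ⟨k, u ▸ p⟩
  · exact Or.inr ⟨k, u ▸ p⟩

theorem shr_spec (h : M.Ok) (k : M.ok X) {fl : Bool} {a r : ℕ} (m : M.Mem X r)
    (s : fl = true ∨ M.Ps X r a) : M.ok (shr M.n fl a X r) ∧
      (∀ y c, M.Ps (shr M.n fl a X r) y c ↔ M.Ps X y c ∧ M.Bo fl X y r) ∧
      ∀ y y', M.Bo fl (shr M.n fl a X r) y y' → M.Bo fl X y y' := by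
  rw [shr, if_pos (h.lt _ (m.al h k))]
  cases fl
  · obtain ⟨u1, u2, u3⟩ := cutp h k (s.resolve_left (by simp))
    exact ⟨u1, u2, fun y y' b => ((u3 _ _).1 b).1⟩
  · obtain ⟨u1, u2, u3⟩ := cutq h k m
    exact ⟨u1, u2, fun y y' b => ((u3 _ _).1 b).1⟩

/-- The fold, started with `r0`. -/
theorem fo_spec' (h : M.Ok) (g : M.GF f) (fl : Bool) {a b : ℕ} (ha : a < 4) (hb : b < 4)
    (hab : a ≠ b) (k : M.ok X) {B : ℕ → Sg} {r0 : ℕ}
    (h0 : r0 = M.n ∨ (M.Mem X r0 ∧ (fl = true ∨ M.Ps X r0 a))) :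
    ∀ m, (∀ l < m, M.wo (B l)) → M.Ex fl X
      (fun y => (y = r0 ∧ r0 < M.n) ∨ (M.Ps X y a ∧ ∃ l < m, M.ok (B l) ∧ M.Ps (B l) y b))
      (fo M.n f fl a b X B r0 m) := by
  intro m
  induction m with
  | zero =>
    intro _
    show M.Ex _ _ _ r0
    rcases h0 with e | ⟨e, -⟩
    · exact Or.inl ⟨e, fun u c => c.elim (fun c => c.2.ne e) fun ⟨_, _, c, _⟩ => by omega⟩
    · refine Or.inr ⟨h.lt _ (e.al h k), Or.inl ⟨rfl, h.lt _ (e.al h k)⟩, fun u c => ?_⟩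
      rcases c with c | ⟨_, _, c, _⟩
      · exact c.1 ▸ e.bo fl
      · omega
  | succ m ih =>
    intro w
    have i := ih fun l hl => w l (hl.trans m.lt_succ_self)
    have wm := w m m.lt_succ_self
    show M.Ex _ _ _ (if f fl a b (shr M.n fl a X (fo M.n f fl a b X B r0 m)) (B m) < M.n then
      f fl a b (shr M.n fl a X (fo M.n f fl a b X B r0 m)) (B m) else fo M.n f fl a b X B r0 m)
    generalize fo M.n f fl a b X B r0 m = r at i
    have sp : ∀ y, ((y = r0 ∧ r0 < M.n) ∨ (M.Ps X y a ∧ ∃ l < m + 1, M.ok (B l) ∧ M.Ps (B l) y b)) ↔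
        ((y = r0 ∧ r0 < M.n) ∨ (M.Ps X y a ∧ ∃ l < m, M.ok (B l) ∧ M.Ps (B l) y b)) ∨
          (M.Ps X y a ∧ M.ok (B m) ∧ M.Ps (B m) y b) := fun y => by
      rw [Nat.exists_lt_succ_right, and_or_left, or_assoc]
    refine Ex.congr ?_ fun y => (sp y).symm
    by_cases ob : M.ok (B m)
    swap
    · have w1 : M.wo (shr M.n fl a X r) := by
        rcases i with ⟨e, -⟩ | ⟨-, i1, -⟩
        · rw [shr, if_neg e.not_lt]; exact k.wo
        · rcases i1 with ⟨rfl, c⟩ | i1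
          · obtain ⟨c1, c2⟩ := h0.resolve_left c.ne
            exact (shr_spec h k c1 c2).1.wo
          · exact (shr_spec h k i1.1.mem (Or.inr i1.1)).1.wo
      rw [g _ _ _ _ _ ha hb hab w1 wm, F_junk _ _ _ fun u => ob u.2, if_neg (lt_irrefl _)]
      exact i.congr fun u => ⟨Or.inl, fun c => c.elim id fun c => absurd c.2.1 ob⟩
    rcases i with ⟨e, i2⟩ | ⟨i0, i1, i2⟩
    · rw [shr, if_neg e.not_lt, g _ _ _ _ _ ha hb hab k.wo wm]
      have s := F_spec h fl a b k ob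
      have s' := s.congr (J := fun y => ((y = r0 ∧ r0 < M.n) ∨
          (M.Ps X y a ∧ ∃ l < m, M.ok (B l) ∧ M.Ps (B l) y b)) ∨
          (M.Ps X y a ∧ M.ok (B m) ∧ M.Ps (B m) y b)) fun u =>
        ⟨fun c => Or.inr ⟨c.1, ob, c.2⟩, fun c => c.elim (fun c => absurd c (i2 u))
          fun c => ⟨c.1, c.2.2⟩⟩
      split_ifs with u
      · exact s'
      · exact (e.trans (le_antisymm s.le (not_lt.1 u)).symm) ▸ s'
    · obtain ⟨c1, c2⟩ : M.Mem X r ∧ (fl = true ∨ M.Ps X r a) := by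
        rcases i1 with ⟨rfl, c⟩ | i1
        exacts [h0.resolve_left c.ne, ⟨i1.1.mem, Or.inr i1.1⟩]
      obtain ⟨s1, s2, s3⟩ := shr_spec h k c1 c2
      rw [g _ _ _ _ _ ha hb hab s1.wo wm]
      have s := F_spec h fl a b s1 ob
      split_ifs with u
      · obtain ⟨⟨v1, v2⟩, v3⟩ := s.of_lt u
        obtain ⟨v4, v5⟩ := (s2 _ _).1 v1
        refine Or.inr ⟨u, Or.inr ⟨v4, ob, v2⟩, fun y c => ?_⟩
        rcases c with c | c
        · exact v5.trans h k (i2 y c)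
        · rcases c.1.mem.toto fl c1 with t | t
          exacts [s3 _ _ (v3 y ⟨(s2 _ _).2 ⟨c.1, t⟩, c.2.2⟩), v5.trans h k t]
      · refine Or.inr ⟨i0, Or.inl i1, fun y c => ?_⟩
        rcases c with c | c
        · exact i2 y c
        · rcases c.1.mem.toto fl c1 with t | t
          exacts [absurd (s.lt_iff.2 ⟨y, (s2 _ _).2 ⟨c.1, t⟩, c.2.2⟩) u, t]

theorem fo_spec (h : M.Ok) (g : M.GF f) (fl : Bool) {a b : ℕ} (ha : a < 4) (hb : b < 4)
    (hab : a ≠ b) (k : M.ok X) {B : ℕ → Sg} {m : ℕ} (w : ∀ l < m, M.wo (B l)) :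
    M.Ex fl X (fun y => M.Ps X y a ∧ ∃ l < m, M.ok (B l) ∧ M.Ps (B l) y b)
      (fo M.n f fl a b X B M.n m) :=
  (fo_spec' h g fl ha hb hab k (Or.inl rfl) m w).congr fun _ =>
    ⟨fun c => c.resolve_left fun c => lt_irrefl _ c.2, Or.inr⟩

theorem fo_dead (g : M.GF f) (fl : Bool) {a b : ℕ} (ha : a < 4) (hb : b < 4)
    (hab : a ≠ b) (k : ¬M.al X.p) {B : ℕ → Sg} {m : ℕ} (w : ∀ l < m, M.wo (B l)) :
    fo M.n f fl a b X B M.n m = M.n := by
  induction m with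
  | zero => rfl
  | succ m ih =>
    show (if f fl a b (shr M.n fl a X (fo M.n f fl a b X B M.n m)) (B m) < M.n then
      f fl a b (shr M.n fl a X (fo M.n f fl a b X B M.n m)) (B m) else fo M.n f fl a b X B M.n m) = _
    rw [ih fun l hl => w l (hl.trans m.lt_succ_self), shr, if_neg (lt_irrefl _),
      g _ _ _ _ _ ha hb hab (wo_dead k) (w m m.lt_succ_self), F_junk _ _ _ fun u => k u.1.2.1,
      if_neg (lt_irrefl _)]

/-- FC: the new primitive. -/
theorem fpc_eq (h : M.Ok) (h' : M'.Ok) (e : M'.n = M.n) (g : M.GF f) (fl : Bool) {δ a b : ℕ}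
    (ha : a < 4) (hb : b < 4) (hab : a ≠ b) (oa : M'.ok A) (ob : M'.ok B) {X Y : ℕ → Sg}
    {rv rw' : ℕ → Bool} {m m' : ℕ} (ca : Cov M M' δ a A X rv m) (cb : Cov M M' δ b B Y rw' m') :
    fpc M.n f fl a b X rv m Y m' = M'.F fl a b A B := by
  have key : ∀ k < m, ∀ y, M.ok (X k) →
      (M.Ps (X k) y a ∧ ∃ l < m', M.ok (Y l) ∧ M.Ps (Y l) y b) → M'.Ps A y a ∧ M'.Ps B y b := by
    rintro k hk y o ⟨p, l, hl, o', p'⟩
    rcases ca.c2 k hk y o p with u | u <;> rcases cb.c2 l hl y o' p' with v | v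
    exacts [⟨u, v⟩, absurd (u.mem.al h' oa) v.1, absurd (v.mem.al h' ob) u.1,
      absurd (u.2.trans v.2.symm) hab]
  have okk : ∀ k < m, fo M.n f (xor fl (rv k)) a b (X k) Y M.n m' < M.n → M.ok (X k) :=
    fun k hk c => ca.wo k hk (by_contra fun d => c.ne (fo_dead g _ ha hb hab d cb.wo))
  have back : ∀ y, M'.Ps A y a ∧ M'.Ps B y b → ∃ k < m, M.ok (X k) ∧
      M.Ps (X k) y a ∧ ∃ l < m', M.ok (Y l) ∧ M.Ps (Y l) y b := fun y c =>
    let ⟨k, k1, k2, k3⟩ := ca.c1 y c.1; ⟨k, k1, k2, k3, cb.c1 y c.2⟩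
  refine Ex.uniq h' oa ?_ (F_spec h' fl a b oa ob)
  unfold fpc
  split_ifs with u
  · obtain ⟨p1, p2, p3⟩ := pick_spec fl u
    generalize (pick fl m fun k => fo M.n f (xor fl (rv k)) a b (X k) Y M.n m' < M.n) = k0
      at p1 p2 p3
    have o := okk k0 p1 p2
    obtain ⟨s1, s2⟩ := (fo_spec h g (xor fl (rv k0)) ha hb hab o cb.wo).of_lt p2
    have s3 := key k0 p1 _ o s1
    have a0 := s3.1.mem.al h' oa
    refine Or.inr ⟨e ▸ p2, s3, fun y c => ?_⟩
    obtain ⟨k, k1, k2, k3⟩ := back y c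
    have a1 := c.1.mem.al h' oa
    have t := p3 k k1 ((fo_spec h g (xor fl (rv k)) ha hb hab k2 cb.wo).lt_iff.2 ⟨y, k3⟩)
    by_cases ek : k = k0
    · subst ek
      have b0 := s2 y k3
      cases fl
      · refine ca.eq k k1 _ _ o k3.1 s1.1 a1 a0 ?_
        revert b0
        cases rv k <;> exact id
      · refine ca.eq k k1 _ _ o s1.1 k3.1 a0 a1 ?_
        revert b0
        cases rv k <;> exact id
    · cases fl
      · exact ca.lt k k0 _ _ (lt_of_le_of_ne t ek) p1 k2 o k3.1 s1.1 a1 a0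
      · exact ca.lt k0 k _ _ (lt_of_le_of_ne t (Ne.symm ek)) k1 o k2 s1.1 k3.1 a0 a1
  · refine Or.inl ⟨e.symm, fun y c => ?_⟩
    obtain ⟨k, k1, k2, k3⟩ := back y c
    exact u ⟨k, k1, (fo_spec h g (xor fl (rv k)) ha hb hab k2 cb.wo).lt_iff.2 ⟨y, k3⟩⟩

end Cm

end

end Pool.Agent.MP_1a6d78_lc.PS

end MrgPart3

-- ======== part 4: formerly Pool.Agent.MP_1a6d78_lc.PS.MKit
section MrgPart4

/-! PROJECT PSC: loops of constant length are unrolled; closure rules for the lists. -/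

namespace Pool.Agent.MP_1a6d78_lc.GL

open Classical ED PR SC

abbrev EN : Type := List Bool → Orc → Env → ℕ

abbrev EP : Type := List Bool → Orc → Env → Prop

variable {κ m β : List Bool → ℕ}

namespace U

variable {a b : EN} {P : List Bool → Orc → Env → ℕ → Prop} {f : List Bool → Orc → Env → ℕ → ℕ}

theorem tt : Pq κ m β fun _ _ _ => True := Q.cgP (Q.eq (Q.c 0) (Q.c 0)) fun _ _ _ => by simp

theorem ff : Pq κ m β fun _ _ _ => False := Q.cgP (Q.not tt) fun _ _ _ => by simp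

theorem cP (p : Prop) : Pq κ m β fun _ _ _ => p := by
  by_cases h : p
  · exact Q.cgP tt fun _ _ _ => by simp [h]
  · exact Q.cgP ff fun _ _ _ => by simp [h]

theorem iff {R S : EP} (h : Pq κ m β R) (k : Pq κ m β S) :
    Pq κ m β fun x g ρ => R x g ρ ↔ S x g ρ :=
  Q.cgP (Q.and (Q.imp h k) (Q.imp k h)) fun _ _ _ => iff_iff_implies_and_implies.symm

theorem iteP {R S T : EP} {i : ∀ x g ρ, Decidable (R x g ρ)} (h : Pq κ m β R) (k : Pq κ m β S)
    (l : Pq κ m β T) : Pq κ m β fun x g ρ => @ite _ (R x g ρ) (i x g ρ) (S x g ρ) (T x g ρ) :=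
  Q.cgP (Q.or (Q.and h k) (Q.and (Q.not h) l)) fun x g ρ => by
    by_cases u : R x g ρ <;> simp [u]

theorem ex (k : ℕ) (h : ∀ i, Pq κ m β fun x g ρ => P x g ρ i) :
    Pq κ m β fun x g ρ => ∃ i < k, P x g ρ i := by
  induction k with
  | zero => exact Q.cgP ff fun _ _ _ => by simp
  | succ k ih => exact Q.cgP (Q.or ih (h k)) fun _ _ _ => Nat.exists_lt_succ_right.symm

theorem all (k : ℕ) (h : ∀ i, Pq κ m β fun x g ρ => P x g ρ i) :
    Pq κ m β fun x g ρ => ∀ i < k, P x g ρ i :=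
  Q.cgP (Q.not (ex (P := fun x g ρ i => ¬P x g ρ i) k fun i => Q.not (h i))) fun _ _ _ => by simp

/-- A computed index below a constant. -/
theorem sw (k : ℕ) (h : ∀ i, Nq κ m β fun x g ρ => f x g ρ i) (ha : Nq κ m β a)
    (hk : ∀ x g ρ, a x g ρ ≤ k) : Nq κ m β fun x g ρ => f x g ρ (a x g ρ) := by
  have : ∀ k, Nq κ m β fun x g ρ => f x g ρ (min (a x g ρ) k) := fun k => by
    induction k with
    | zero => exact Q.cg (h 0) fun _ _ _ => by rw [Nat.min_zero]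
    | succ k ih =>
      refine Q.cg (Q.ite (i := fun _ _ _ => propDecidable _) (Q.le ha (Q.c k)) ih (h (k + 1)))
        fun x g ρ => ?_
      split_ifs with u
      · rw [min_eq_left u, min_eq_left (u.trans k.le_succ)]
      · rw [min_eq_right (by omega)]
  exact Q.cg (this k) fun x g ρ => by rw [min_eq_left (hk x g ρ)]

theorem swP (k : ℕ) (h : ∀ i, Pq κ m β fun x g ρ => P x g ρ i) (ha : Nq κ m β a)
    (hk : ∀ x g ρ, a x g ρ ≤ k) : Pq κ m β fun x g ρ => P x g ρ (a x g ρ) :=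
  sw (f := fun x g ρ i => if P x g ρ i then 1 else 0) k h ha hk

theorem lst_le' (k : ℕ) (P : ℕ → Prop) : lst k P ≤ k := by
  rcases Nat.eq_zero_or_pos k with rfl | h
  · exact (lst_none (by simp)).le
  · exact (lst_lt P h).le

theorem lst (k : ℕ) (h : ∀ i, Pq κ m β fun x g ρ => P x g ρ i) :
    Nq κ m β fun x g ρ => PR.lst k (P x g ρ) := by
  induction k with
  | zero => exact Q.cg (Q.c 0) fun _ _ _ => (lst_none (by simp)).symm
  | succ k ih =>
    refine Q.cg (Q.ite (i := fun _ _ _ => propDecidable _) (ex k h) ih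
      (Q.ite (i := fun _ _ _ => propDecidable _) (h k) (Q.c k) (Q.c 0))) fun x g ρ => ?_
    split_ifs with u v
    · obtain ⟨u1, u2⟩ := lst_spec u
      obtain ⟨v1, v2⟩ := lst_spec (n := k + 1) (P := P x g ρ) ⟨_, u1.trans k.lt_succ_self, u2⟩
      have w := lst_le (u1.trans k.lt_succ_self) u2
      exact le_antisymm (lst_le (w.trans_lt u1) v2) w
    · obtain ⟨v1, v2⟩ := lst_spec (n := k + 1) (P := P x g ρ) ⟨k, k.lt_succ_self, v⟩
      exact le_antisymm (not_lt.1 fun c => u ⟨_, c, v2⟩) (Nat.le_of_lt_succ v1)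
    · refine (lst_none fun ⟨i, h1, h2⟩ => ?_).symm
      rcases Nat.lt_succ_iff_lt_or_eq.1 h1 with c | rfl
      exacts [u ⟨i, c, h2⟩, v h2]

theorem amin (k : ℕ) (h : ∀ i, Nq κ m β fun x g ρ => f x g ρ i) :
    Nq κ m β fun x g ρ => PR.amin k (f x g ρ) :=
  lst (P := fun x g ρ i => ∀ i' < k, f x g ρ i ≤ f x g ρ i') k fun i =>
    all (P := fun x g ρ i' => f x g ρ i ≤ f x g ρ i') k fun i' => Q.le (h i) (h i')

/-- `f (lst k P)`. -/
theorem atl (k : ℕ) (h : ∀ i, Nq κ m β fun x g ρ => f x g ρ i)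
    (hP : ∀ i, Pq κ m β fun x g ρ => P x g ρ i) :
    Nq κ m β fun x g ρ => f x g ρ (PR.lst k (P x g ρ)) :=
  sw k h (lst k hP) fun _ _ _ => lst_le' _ _

/-- `f (amin k e)`. -/
theorem ata {e : List Bool → Orc → Env → ℕ → ℕ} (k : ℕ) (h : ∀ i, Nq κ m β fun x g ρ => f x g ρ i)
    (he : ∀ i, Nq κ m β fun x g ρ => e x g ρ i) :
    Nq κ m β fun x g ρ => f x g ρ (PR.amin k (e x g ρ)) :=
  sw k h (amin k he) fun _ _ _ => lst_le' _ _

theorem cnt (k : ℕ) (h : ∀ i, Pq κ m β fun x g ρ => P x g ρ i) :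
    Nq κ m β fun x g ρ => PR.cnt k (P x g ρ) := by
  induction k with
  | zero => exact Q.cg (Q.c 0) fun _ _ _ => by simp [PR.cnt]
  | succ k ih => exact Q.cg (Q.add ih (h k)) fun _ _ _ => (cnt_succ _ _).symm

theorem itr {F : List Bool → Orc → Env → ℕ → ℕ → ℕ} (k : ℕ)
    (h : ∀ i {a : EN}, Nq κ m β a → Nq κ m β fun x g ρ => F x g ρ i (a x g ρ)) (ha : Nq κ m β a) :
    Nq κ m β fun x g ρ => ED.itr (F x g ρ) (a x g ρ) k := by
  induction k with
  | zero => exact ha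
  | succ k ih => exact h k ih

theorem it (k : ℕ) (hb : Nq κ m β b)
    (h : ∀ {a : EN}, Nq κ m β a → Nq κ m β fun x g ρ => f x g ρ (a x g ρ)) (ha : Nq κ m β a) :
    Nq κ m β fun x g ρ => PR.it (b x g ρ) (f x g ρ) k (a x g ρ) :=
  itr (F := fun x g ρ _ v => min (f x g ρ v) (b x g ρ)) k (fun _ _ k => Q.min (h k) hb) ha

theorem iter (k : ℕ) (h : ∀ {a : EN}, Nq κ m β a → Nq κ m β fun x g ρ => f x g ρ (a x g ρ))
    (ha : Nq κ m β a) : Nq κ m β fun x g ρ => (f x g ρ)^[k] (a x g ρ) := by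
  induction k with
  | zero => exact ha
  | succ k ih => exact Q.cg (h ih) fun _ _ _ => (Function.iterate_succ_apply' _ _ _).symm

theorem colq {N w : EN} (k : ℕ) (hN : Nq κ m β N) (hw : Nq κ m β w) (ha : Nq κ m β a) :
    Pq κ m β fun x g ρ => SC.colq (N x g ρ) k (w x g ρ) (a x g ρ) :=
  have h : Nq κ m β fun x g ρ => 2 * N x g ρ + 3 := Q.add (Q.mul (Q.c 2) hN) (Q.c 3)
  Q.and (Q.lt ha hN) (Q.eq (Q.mod (Q.mod (Q.mul (Q.mod (Q.div hw h) h) ha) (Q.mod hw h))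
    (Q.c k)) (Q.div (Q.div hw h) h))

theorem consL {l : List Bool → Orc → Env → List ℕ} (k : ℕ) (hk : ∀ x, k + 1 ≤ κ x)
    (ha : Nq κ m β a) (hl : Lq κ m β l) (e : ∀ x g ρ, (l x g ρ).length = k) :
    Lq κ m β fun x g ρ => a x g ρ :: l x g ρ :=
  Q.cgL (M.bind _ _ ha (M.bind _ _ (Q.wL hl) (M.lift _ ((kitOne κ).tab
    (fun _ ρ i => if i = 0 then hd (ρ 1) else gt (ρ 0) (i - 1)) hk (K.c (k + 1))
    (K.ite (K.eq (K.v 0) (K.c 0)) (K.v 2) (K.gt (K.vL 1) (K.sub (K.v 0) (K.c 1))))))))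
    fun x g ρ => by
      refine List.ext_getElem (by simp [tab, e]) fun i h1 h2 => ?_
      cases i with
      | zero => simp [tab, cons, hd]
      | succ i =>
        have : i < (l x g ρ).length := by simpa using h2
        have e' : tl (cons [a x g ρ] ρ) = ρ := rfl
        simp [tab, cons, gt, e', this]

end U

/-- A computable function of one number. -/
def F1 (κ m β : List Bool → ℕ) (f : List Bool → Orc → Env → ℕ → ℕ) : Prop :=
  ∀ {a : EN}, Nq κ m β a → Nq κ m β fun x g ρ => f x g ρ (a x g ρ)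

/-- A computable predicate of one number. -/
def P1 (κ m β : List Bool → ℕ) (f : List Bool → Orc → Env → ℕ → Prop) : Prop :=
  ∀ {a : EN}, Nq κ m β a → Pq κ m β fun x g ρ => f x g ρ (a x g ρ)

variable {M q l a b : EN}

theorem codeC (hM : Nq κ m β M) (hl : Nq κ m β l) (ha : Nq κ m β a) :
    Nq κ m β fun x g ρ => code (M x g ρ) (l x g ρ) (a x g ρ) :=
  Q.add (Q.add (Q.mul hl hM) ha) (Q.c 1)

theorem zeC (hM : Nq κ m β M) (ha : Nq κ m β a) : Nq κ m β fun x g ρ => ze (M x g ρ) (a x g ρ) :=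
  Q.mod (Q.sub ha (Q.c 1)) hM

theorem zlC (hM : Nq κ m β M) (ha : Nq κ m β a) : Nq κ m β fun x g ρ => zl (M x g ρ) (a x g ρ) :=
  Q.div (Q.sub ha (Q.c 1)) hM

/-- The list data are computable. -/
structure LC (κ m β : List Bool → ℕ) (D : List Bool → Orc → Env → Ld) : Prop where
  val : P1 κ m β fun x g ρ => (D x g ρ).val
  own : F1 κ m β fun x g ρ => (D x g ρ).own
  hv : P1 κ m β fun x g ρ => (D x g ρ).hv
  next : F1 κ m β fun x g ρ => (D x g ρ).next
  cur : F1 κ m β fun x g ρ => (D x g ρ).cur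

namespace LC

variable {D : List Bool → Orc → Env → Ld} (H : LC κ m β D) (hM : Nq κ m β M)
include H hM

theorem live (ha : Nq κ m β a) : Pq κ m β fun x g ρ => (D x g ρ).live (M x g ρ) (a x g ρ) :=
  Q.and (H.val (zeC hM ha)) (Q.eq (H.cur (zeC hM ha)) (zlC hM ha))

theorem sl (hq : Nq κ m β q) (ha : Nq κ m β a) (i : ℕ) :
    Nq κ m β fun x g ρ => (D x g ρ).sl (M x g ρ) (q x g ρ) (a x g ρ) i :=
  U.it (f := fun x g ρ => (D x g ρ).next) (i + 1) hq H.next (codeC hM (Q.c 0) ha)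

theorem short (hq : Nq κ m β q) (c : ℕ) (ha : Nq κ m β a) :
    Pq κ m β fun x g ρ => (D x g ρ).short (M x g ρ) (q x g ρ) c (a x g ρ) :=
  Q.eq (H.sl hM hq ha c) (Q.c 0)

theorem en (hq : Nq κ m β q) (ha : Nq κ m β a) (i : ℕ) :
    Nq κ m β fun x g ρ => (D x g ρ).en (M x g ρ) (q x g ρ) (a x g ρ) i :=
  Q.ite (Q.and (Q.ne (H.sl hM hq ha i) (Q.c 0)) (H.live hM (H.sl hM hq ha i)))
    (zeC hM (H.sl hM hq ha i)) hM

theorem slot (ha : Nq κ m β a) : Nq κ m β fun x g ρ => (D x g ρ).slot (M x g ρ) (a x g ρ) :=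
  codeC hM (H.cur ha) ha

theorem gnext {h : List Bool → Orc → Env → ℕ → Prop} (hh : P1 κ m β h) :
    F1 κ m β fun x g ρ => (D x g ρ).gnext (M x g ρ) (h x g ρ) := fun ha =>
  have k := H.next ha
  Q.ite (Q.and (Q.ne k (Q.c 0)) (Q.and (Q.not (H.live hM k)) (Q.and (hh k)
    (Q.or (Q.eq (H.next k) (Q.c 0)) (Q.not (hh (H.next k))))))) (H.next k) k

end LC

/-- The data of a round are computable. -/
structure RC (κ m β : List Bool → ℕ) (k : ℕ) (K : List Bool → Orc → Env → Rd) : Prop where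
  k : ∀ x g ρ, (K x g ρ).k = k
  M : Nq κ m β fun x g ρ => (K x g ρ).m
  j : Nq κ m β fun x g ρ => (K x g ρ).j
  D : LC κ m β fun x g ρ => (K x g ρ).D
  ins : P1 κ m β fun x g ρ => (K x g ρ).ins
  ren : F1 κ m β fun x g ρ => (K x g ρ).ren
  an : F1 κ m β fun x g ρ => (K x g ρ).an
  Nx : ∀ i, F1 κ m β fun x g ρ z => (K x g ρ).Nx z i

namespace RC

variable {k : ℕ} {K : List Bool → Orc → Env → Rd} (H : RC κ m β k K)
include H

theorem onx (ha : Nq κ m β a) : Nq κ m β fun x g ρ => (K x g ρ).onx (a x g ρ) :=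
  Q.ite (Q.eq (zlC H.M ha) (Q.c 0))
    (Q.ite (Q.and (Q.ne ha (Q.c 0)) (H.D.hv (H.ren (zeC H.M ha))))
      (H.D.next (codeC H.M (Q.c 0) (H.ren (zeC H.M ha)))) (Q.c 0)) (H.D.next ha)

theorem cI (ha : Nq κ m β a) (hb : Nq κ m β b) (i : ℕ) :
    Pq κ m β fun x g ρ => (K x g ρ).cI (a x g ρ) (b x g ρ) i :=
  Q.and (H.ins (H.Nx i ha)) (Q.and (Q.eq (H.an (H.Nx i ha)) ha)
    (Q.lt hb (codeC H.M (Q.add H.j (Q.c 2)) (H.Nx i ha))))

theorem nI (ha : Nq κ m β a) (hb : Nq κ m β b) :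
    Nq κ m β fun x g ρ => (K x g ρ).nI (a x g ρ) (b x g ρ) :=
  Q.cg (Q.ite (i := fun _ _ _ => propDecidable _)
    (U.ex (P := fun x g ρ i => (K x g ρ).cI (a x g ρ) (b x g ρ) i) k (H.cI ha hb))
    (codeC H.M (Q.add H.j (Q.c 2)) (U.ata (f := fun x g ρ i => (K x g ρ).Nx (a x g ρ) i)
      (e := fun x g ρ i => if (K x g ρ).cI (a x g ρ) (b x g ρ) i then (K x g ρ).Nx (a x g ρ) i
        else (K x g ρ).m) k (fun i => H.Nx i ha) fun i => Q.ite (H.cI ha hb i) (H.Nx i ha) H.M))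
    (H.onx ha)) fun x g ρ => by
      rw [Rd.nI, H.k]
      congr

theorem next : F1 κ m β fun x g ρ => (K x g ρ).next := fun ha =>
  Q.ite (Q.eq (zlC H.M ha) (Q.add H.j (Q.c 2))) (H.nI (H.an (zeC H.M ha)) ha) (H.nI ha (Q.c 0))

theorem cur : F1 κ m β fun x g ρ => (K x g ρ).cur := fun ha =>
  Q.ite (H.ins ha) (Q.add H.j (Q.c 2)) (H.D.cur ha)

end RC

/-- The number of slots, with long loops. -/
theorem NC {M q : List Bool → ℕ} {D : List Bool → Orc → Ld} (H : LC κ β β fun x g _ => D x g)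
    (hM : Cn κ fun x _ => M x) (hq : Cn κ fun x _ => q x) (h1 : ∀ x, M x ≤ β x)
    (h2 : ∀ x, q x ≤ β x) : Nq κ β β fun x g _ => (D x g).N (M x) (q x) := by
  have e : ∀ x g y, (D x g).len (M x) (q x) y = PR.lst (q x) fun i => PR.it (q x) (D x g).next
      (min (i + 1) (q x)) (code (M x) 0 y) = 0 := fun x g y =>
    lst_congr fun i hi => by rw [min_eq_left (Nat.succ_le_of_lt hi)]; rfl
  refine Q.sum (fun x g _ y => if (D x g).hv y then (D x g).len (M x) (q x) y else 0) (Q.lift hM)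
    (fun x _ _ => h1 x) (Q.ite (H.hv (Q.v 0)) (Q.cg ?_ fun x g ρ => (e x g _).symm) (Q.c 0))
  exact Q.lst (P := fun x g ρ i => PR.it (q x) (D x g).next (min (i + 1) (q x))
      (code (M x) 0 (hd (ρ 0))) = 0) (Q.lift hq) (fun x _ _ => h2 x)
    (Q.eq (Q.it (f := fun x g _ => (D x g).next) (Q.lift hq) (H.next (Q.v 0))
      (Q.min (Q.add (Q.v 0) (Q.c 1)) (Q.lift hq)) (fun x _ _ => (min_le_right _ _).trans (h2 x))
      (codeC (Q.lift hM) (Q.c 0) (Q.v 1))) (Q.c 0))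

/-- The lists of level 0. -/
theorem bnextC {M : List Bool → ℕ} {val : List Bool → ℕ → Prop} {own : List Bool → ℕ → ℕ}
    (hM : Cn κ fun x _ => M x)
    (hv : ∀ {a : List Bool → Env → ℕ}, Cn κ a → PR.Cp κ fun x ρ => val x (a x ρ))
    (ho : ∀ {a : List Bool → Env → ℕ}, Cn κ a → Cn κ fun x ρ => own x (a x ρ))
    {a : List Bool → Env → ℕ} (ha : Cn κ a) :
    Cn κ fun x ρ => bnext (M x) (val x) (own x) (a x ρ) :=
  have e : ∀ {a : List Bool → Env → ℕ}, Cn κ a → Cn κ fun x ρ => ze (M x) (a x ρ) :=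
    fun h => K.mod (K.sub h (K.c 1)) hM
  have l : ∀ {a : List Bool → Env → ℕ}, Cn κ a → Cn κ fun x ρ => zl (M x) (a x ρ) :=
    fun h => K.div (K.sub h (K.c 1)) hM
  K.lst (P := fun x ρ w => a x ρ ≠ 0 ∧ a x ρ < w ∧ zl (M x) w = 1 ∧ val x (ze (M x) w) ∧
      own x (ze (M x) w) = if zl (M x) (a x ρ) = 0 then ze (M x) (a x ρ)
        else own x (ze (M x) (a x ρ))) (K.add (K.mul (K.c 2) hM) (K.c 1))
    (K.and (K.not (K.eq (K.w ha) (K.c 0))) (K.and (K.lt (K.w ha) (K.v 0))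
      (K.and (K.eq (l (K.v 0)) (K.c 1)) (K.and (hv (e (K.v 0))) (K.eq (ho (e (K.v 0)))
        (K.ite (K.eq (l (K.w ha)) (K.c 0)) (e (K.w ha)) (ho (e (K.w ha)))))))))

end Pool.Agent.MP_1a6d78_lc.GL

end MrgPart4

-- ======== part 5: formerly Pool.Agent.MP_1a6d78_lc.PS.GTw
section MrgPart5

/-! PROJECT PSC: renaming of entries and heads. -/

namespace Pool.Agent.MP_1a6d78_lc.GL

open Classical ED PR SC

noncomputable section

/-- Entries are renamed by `e`, heads by `h`. -/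
def tz (m : ℕ) (e h : ℕ → ℕ) (z : ℕ) : ℕ :=
  if z = 0 then 0 else code m (zl m z) (if zl m z = 0 then h (ze m z) else e (ze m z))

/-- The entry `a` (head `y`) of the new lists is the entry `e a` (head `h y`) of the old lists. -/
def Ld.tw (D : Ld) (m : ℕ) (e e' h h' : ℕ → ℕ) : Ld :=
  ⟨fun a => a < m ∧ D.val (e a), fun a => h' (D.own (e a)), fun y => y < m ∧ D.hv (h y),
    fun z => tz m e' h' (D.next (tz m e h z)), fun a => D.cur (e a)⟩

/-- Inverse bijections of the numbers below `m`. -/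
def Bij (m : ℕ) (f f' : ℕ → ℕ) : Prop := ∀ a < m, f a < m ∧ f' a < m ∧ f (f' a) = a ∧ f' (f a) = a

theorem Bij.symm {m : ℕ} {f f' : ℕ → ℕ} (h : Bij m f f') : Bij m f' f := fun a k =>
  ⟨(h a k).2.1, (h a k).1, (h a k).2.2.2, (h a k).2.2.1⟩

variable {m j : ℕ} {e e' h h' : ℕ → ℕ}

theorem tz_code (l : ℕ) {a : ℕ} (k : a < m) :
    tz m e h (code m l a) = code m l (if l = 0 then h a else e a) := by
  rw [tz, if_neg (mk_ne _ _ _), zl_mk _ k, ze_mk _ k]

theorem tz_tz (hm : 0 < m) (he : Bij m e e') (hh : Bij m h h') (z : ℕ) :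
    tz m e h (tz m e' h' z) = z ∧ zl m (tz m e' h' z) = zl m z := by
  by_cases c : z = 0
  · subst c
    exact ⟨rfl, rfl⟩
  have k := ze_lt z hm
  have k' : (if zl m z = 0 then h' (ze m z) else e' (ze m z)) < m := by
    split_ifs
    exacts [(hh _ k).2.1, (he _ k).2.1]
  rw [show tz m e' h' z = _ from if_neg c, tz_code _ k', zl_mk _ k']
  refine ⟨Eq.trans (congrArg _ ?_) (mk_eq c), rfl⟩
  split_ifs
  exacts [(hh _ k).2.2.1, (he _ k).2.2.1]

theorem lk_map {nx f f' : ℕ → ℕ} (h0 : f' 0 = 0) (hf : ∀ z, f (f' z) = z) :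
    ∀ (l : List ℕ) (a : ℕ), Lk nx a l → Lk (fun z => f' (nx (f z))) (f' a) (l.map f')
  | [], a, k => by
    show f' (nx (f (f' a))) = 0
    rw [hf, show nx a = 0 from k, h0]
  | z :: l, a, k => ⟨by
      show f' (nx (f (f' a))) = f' z
      rw [hf, k.1], lk_map h0 hf l z k.2⟩

theorem LI.tw {D : Ld} {ls : ℕ → List ℕ} (I : LI m D j ls) (he : Bij m e e') (hh : Bij m h h') :
    ∃ ls', LI m (D.tw m e e' h h') j ls' ∧ tot m (D.tw m e e' h h').hv ls' = tot m D.hv ls := by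
  have inj : 0 < m → Function.Injective (tz m e' h') := fun hm a b k => by
    rw [← (tz_tz hm he hh a).1, k, (tz_tz hm he hh b).1]
  refine ⟨fun y => (ls (h y)).map (tz m e' h'), ⟨fun a k => ?_, fun y k => k.1, ?_, fun y k => ?_,
    fun y k => (I.nd _ k.2).map (inj (Nat.zero_lt_of_lt k.1)), fun x y kx ky z h1 h2 => ?_,
    fun y k z hz => ?_, fun a k => ?_⟩, ?_⟩
  · have u := I.hl _ (I.vl _ k.2).2
    refine ⟨k.1, (hh _ u).2.1, ?_⟩
    show D.hv (h (h' (D.own (e a))))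
    rw [(hh _ u).2.2.1]
    exact (I.vl _ k.2).2
  · show tz m e' h' (D.next (tz m e h 0)) = 0
    rw [show tz m e h 0 = 0 from rfl, I.z0]
    rfl
  · have u := lk_map (f := tz m e h) (f' := tz m e' h') rfl
      (fun z => (tz_tz (Nat.zero_lt_of_lt k.1) he hh z).1) _ _ (I.lk _ k.2)
    rwa [tz_code _ (hh y k.1).1, if_pos rfl, (hh y k.1).2.2.2] at u
  · obtain ⟨a, a1, rfl⟩ := List.mem_map.1 h1
    obtain ⟨b, b1, b2⟩ := List.mem_map.1 h2
    obtain rfl := inj (Nat.zero_lt_of_lt kx.1) b2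
    rw [← (hh x kx.1).2.2.2, I.dj _ _ kx.2 ky.2 _ a1 b1, (hh y ky.1).2.2.2]
  · obtain ⟨a, a1, rfl⟩ := List.mem_map.1 hz
    rw [(tz_tz (Nat.zero_lt_of_lt k.1) he hh a).2]
    exact I.rg _ k.2 a a1
  · have u := I.hl _ (I.vl _ k.2).2
    have v := I.mem _ k.2
    have w := (I.rg _ (I.vl _ k.2).2 _ v).1
    rw [Ld.slot, zl_mk _ (he a k.1).1] at w
    show code m (D.cur (e a)) a ∈ (ls (h (h' (D.own (e a))))).map (tz m e' h')
    rw [(hh _ u).2.2.1]
    refine List.mem_map.2 ⟨_, v, ?_⟩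
    rw [Ld.slot, tz_code _ (he a k.1).1, if_neg (by omega), (he a k.1).2.2.2]
  · refine Finset.sum_bij' (fun y _ => h y) (fun y _ => h' y)
      (fun y k => Finset.mem_range.2 (hh y (Finset.mem_range.1 k)).1)
      (fun y k => Finset.mem_range.2 (hh y (Finset.mem_range.1 k)).2.1)
      (fun y k => (hh y (Finset.mem_range.1 k)).2.2.2)
      (fun y k => (hh y (Finset.mem_range.1 k)).2.2.1) fun y k => ?_
    by_cases c : D.hv (h y)
    · rw [if_pos c, if_pos ⟨Finset.mem_range.1 k, c⟩, List.length_map]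
    · rw [if_neg c, if_neg fun u => c u.2]

/-- The invariant only depends on the values at valid entries. -/
theorem LI.congr {D D' : Ld} {ls : ℕ → List ℕ} (I : LI m D j ls) (h1 : ∀ a, D'.val a ↔ D.val a)
    (h2 : ∀ a, D.val a → D'.own a = D.own a) (h3 : ∀ y, D'.hv y ↔ D.hv y) (h4 : D'.next = D.next)
    (h5 : D'.cur = D.cur) : LI m D' j ls ∧ tot m D'.hv ls = tot m D.hv ls := by
  refine ⟨⟨fun a k => ?_, fun y k => I.hl y ((h3 y).1 k), h4 ▸ I.z0,
    fun y k => h4 ▸ I.lk y ((h3 y).1 k), fun y k => I.nd y ((h3 y).1 k),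
    fun x y a b => I.dj x y ((h3 x).1 a) ((h3 y).1 b), fun y k => I.rg y ((h3 y).1 k),
    fun a k => ?_⟩, by rw [show D'.hv = D.hv from funext fun y => propext (h3 y)]⟩
  · rw [h3, h2 a ((h1 a).1 k)]
    exact I.vl a ((h1 a).1 k)
  · rw [Ld.slot, h5, h2 a ((h1 a).1 k)]
    exact I.mem a ((h1 a).1 k)

theorem tzC {κ m β : List Bool → ℕ} {M a : EN} {e h : List Bool → Orc → Env → ℕ → ℕ}
    (hM : Nq κ m β M) (he : F1 κ m β e) (hh : F1 κ m β h) (ha : Nq κ m β a) :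
    Nq κ m β fun x g ρ => tz (M x g ρ) (e x g ρ) (h x g ρ) (a x g ρ) :=
  Q.ite (Q.eq ha (Q.c 0)) (Q.c 0) (codeC hM (zlC hM ha)
    (Q.ite (Q.eq (zlC hM ha) (Q.c 0)) (hh (zeC hM ha)) (he (zeC hM ha))))

end

end Pool.Agent.MP_1a6d78_lc.GL

end MrgPart5

-- marker of a merged file
example : 731051 + 352093 = 731051 + 352093 := rfl
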