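import Pool.Agent.MP_1a6d78_lc.PS.Geo
import Pool.Agent.MP_1a6d78_lc.PS.Seg2

/-! PROJECT PSC: the meaning of the derived programs. -/

namespace Pool.Agent.MP_1a6d78_lc.PS

open Classical ED PR PL Cm

namespace Cm

variable {M : Cm}

/-- The side of the passage number `t` of the walk of `p`, counted from the start side `s`. -/
def sw (M : Cm) (i p s t : ℕ) : ℕ := if t = 0 then s else M.ss i (M.wk i p (t - 1))

theorem sw_zero (i p s : ℕ) : M.sw i p s 0 = s := rfl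

theorem sw_succ (i p s t : ℕ) : M.sw i p s (t + 1) = M.ss i (M.wk i p t) := rfl

theorem sv_sw (A : Sg) (t : ℕ) : M.sv A t = M.sw A.i A.p A.s t := rfl

/-- `v` is the cell of the first passage `t` of the walk of `p` with `H t`. -/
def Fst (M : Cm) (i p : ℕ) (H : ℕ → Prop) (v : ℕ) : Prop :=
  (v = M.n ∧ ∀ t, ¬H t) ∨ (v < M.n ∧ ∃ t, v = M.wk i p t ∧ H t ∧ ∀ t' < t, ¬H t')

theorem Fst.le {i p v : ℕ} {H : ℕ → Prop} (a : M.Fst i p H v) : v ≤ M.n :=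
  a.elim (fun k => k.1.le) fun k => k.1.le

theorem Fst.lt_iff {i p v : ℕ} {H : ℕ → Prop} (a : M.Fst i p H v) : v < M.n ↔ ∃ t, H t :=
  a.elim (fun k => ⟨fun c => absurd k.1 c.ne, fun ⟨u, c⟩ => absurd c (k.2 u)⟩)
    fun k => ⟨fun _ => let ⟨t, _, u, _⟩ := k.2; ⟨t, u⟩, fun _ => k.1⟩

theorem Fst.of_lt {i p v : ℕ} {H : ℕ → Prop} (a : M.Fst i p H v) (h : v < M.n) :
    ∃ t, v = M.wk i p t ∧ H t ∧ ∀ t' < t, ¬H t' :=
  a.elim (fun k => absurd k.1 h.ne) fun k => k.2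

theorem Fst.eq {i p v t : ℕ} {H : ℕ → Prop} (a : M.Fst i p H v) (h : H t) (k : ∀ t' < t, ¬H t') :
    v = M.wk i p t := by
  obtain ⟨u, u1, u2, u3⟩ := a.of_lt (a.lt_iff.2 ⟨t, h⟩)
  rcases lt_trichotomy u t with c | c | c
  exacts [absurd u2 (k u c), c ▸ u1, absurd h (u3 t c)]

theorem Fst.none {i p v : ℕ} {H : ℕ → Prop} (a : M.Fst i p H v) (k : ∀ t, ¬H t) : v = M.n :=
  le_antisymm a.le (not_lt.1 fun c => let ⟨t, u⟩ := a.lt_iff.1 c; k t u)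

theorem Fst.congr {i p v : ℕ} {H J : ℕ → Prop} (a : M.Fst i p H v) (e : ∀ t, H t ↔ J t) :
    M.Fst i p J v := (funext fun u => propext (e u) : H = J) ▸ a

/-- The first hit on a segment, with indices. -/
theorem Ex.idx (h : M.Ok) {A : Sg} (k : M.ok A) {a v : ℕ} {J : ℕ → Prop}
    (e : M.Ex true A (fun y => M.Ps A y a ∧ J y) v) :
    (v = M.n ∧ ∀ t ≤ M.ln A, ¬(M.sv A t = a ∧ J (M.el A t))) ∨
      (v < M.n ∧ ∃ t ≤ M.ln A, v = M.el A t ∧ (M.sv A t = a ∧ J (M.el A t)) ∧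
        ∀ t' < t, ¬(M.sv A t' = a ∧ J (M.el A t'))) := by
  rcases e with ⟨e1, e2⟩ | ⟨e1, ⟨⟨t, t1, rfl, t3⟩, e2⟩, e3⟩
  · exact Or.inl ⟨e1, fun t ht c => e2 _ ⟨⟨t, ht, rfl, c.1⟩, c.2⟩⟩
  · refine Or.inr ⟨e1, t, t1, rfl, ⟨t3, e2⟩, fun t' ht c => ?_⟩
    obtain ⟨u, w, uw, w1, u2, w2⟩ : M.Bf A _ _ := e3 _ ⟨⟨t', by omega, rfl, c.1⟩, c.2⟩
    have a1 := el_inj h k (uw.trans w1) t1 u2
    have a2 := el_inj h k w1 (by omega) w2
    omega

end Cm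

namespace Geo

variable {M : Cm} {P : Pr} (G : Geo M P) (h : M.Ok)
include G

theorem lam_al {p : ℕ} (k : M.al (p / 4)) : P.lam p = M.lk p := by rw [G.lam, if_pos k]

theorem lam_dead {p : ℕ} (k : ¬M.al (p / 4)) : P.lam p = 4 * M.n := by rw [G.lam, if_neg k]

theorem lam_pt {c : ℕ} (i : ℕ) (k : M.al c) : P.lam (pt c i) = M.lk (pt c i) :=
  G.lam_al (by rw [pt_div]; exact k)

theorem st_al {c : ℕ} (i : ℕ) (k : M.al c) : P.st i c = M.st i c :=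
  congrArg (· / 4) (G.lam_pt i k)

theorem st_dead {c : ℕ} (i : ℕ) (k : ¬M.al c) : P.st i c = M.n := by
  rw [Pr.st, G.lam_dead (by rw [pt_div]; exact k)]
  omega

theorem ring_eq {v : ℕ} (i : ℕ) (k : M.al v) : P.ring i v = M.rg i v := by
  rw [Pr.ring, G.st_al i k, G.lam_pt i k]
  rfl

theorem En_dead {i c : ℕ} (hi : i < 4) (k : ¬M.al c) : P.En i c = M.n := G.nm.junk i hi c k

theorem fu0 (i p s : ℕ) : P.fu i p s 0 = ⟨i, p, s, P.En i p⟩ := rfl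

theorem fu1 {i p : ℕ} (s : ℕ) {u : ℕ} (hu : u ≠ 0) (hi : i < 4) (k : M.al p) :
    P.fu i p s u = M.rg i (P.En i p) := by
  rw [Pr.fu, if_neg hu, G.ring_eq i (G.nm.al hi k)]

include h

theorem mp_eq : P.mp M.n = M := by
  cases M with
  | mk n lk =>
    simp only [Pr.mp, Cm.mk.injEq, true_and]
    funext p
    rw [G.al]
    split_ifs with k
    exacts [G.lam_al k, ((h.fix p).2 k).symm]

theorem al_lam {p : ℕ} : M.al (P.lam p / 4) ↔ M.al (p / 4) := by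
  by_cases k : M.al (p / 4)
  · rw [G.lam_al k]; exact iff_of_true (h.al_lk k) k
  · rw [G.lam_dead k, Nat.mul_div_cancel_left _ (by omega)]; exact iff_of_false h.not_al_n k

theorem lam_lam {p : ℕ} (k : M.al (p / 4)) : P.lam (P.lam p) = p := by
  rw [G.lam_al k, G.lam_al (h.al_lk k), h.inv]

theorem En_lt {i c : ℕ} (hi : i < 4) : P.En i c < M.n ↔ M.al c :=
  ⟨fun u => by_contra fun k => u.ne (G.En_dead hi k), fun k => h.lt _ (G.nm.al hi k)⟩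

theorem En_al {i c : ℕ} (hi : i < 4) : M.al (P.En i c) ↔ M.al c :=
  ⟨fun u => (G.En_lt h hi).1 (h.lt _ u), G.nm.al hi⟩

theorem ring_dead {v : ℕ} (i : ℕ) (k : ¬M.al v) : ¬M.al (P.ring i v).p := by
  show ¬M.al (P.st i v)
  rw [G.st_dead i k]
  exact h.not_al_n

/-- The ring of a name or of a junk value. -/
theorem ring_wo {i : ℕ} (c : ℕ) (hi : i < 4) : M.wo (P.ring i (P.En i c)) := by
  by_cases k : M.al c
  · rw [G.ring_eq i (G.nm.al hi k)]; exact (rg_ok h hi (G.nm.per i hi c k)).wo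
  · exact wo_dead (G.ring_dead h i fun u => k ((G.En_al h hi).1 u))

theorem fu_ok {i p : ℕ} (s u : ℕ) (hi : i < 4) (k : M.al p) : M.ok (P.fu i p s u) := by
  by_cases c : u = 0
  · subst c; exact ⟨hi, k, G.nm.pa i hi p k⟩
  · rw [G.fu1 s c hi k]; exact rg_ok h hi (G.nm.per i hi p k)

theorem fu_dead {i p : ℕ} (s u : ℕ) (hi : i < 4) (k : ¬M.al p) : ¬M.al (P.fu i p s u).p := by
  by_cases c : u = 0
  · subst c; exact k
  · rw [Pr.fu, if_neg c]; exact G.ring_dead h i fun u => k ((G.En_al h hi).1 u)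

theorem fu_wo {i : ℕ} (p s u : ℕ) (hi : i < 4) : M.wo (P.fu i p s u) := by
  by_cases k : M.al p
  exacts [(G.fu_ok h s u hi k).wo, wo_dead (G.fu_dead h s u hi k)]

theorem fu_ok_iff {i p : ℕ} (s u : ℕ) (hi : i < 4) : M.ok (P.fu i p s u) ↔ M.al p :=
  ⟨fun o => by_contra fun k => G.fu_dead h s u hi k o.2.1, G.fu_ok h s u hi⟩

/-- The two segments contain exactly the passages of the walk. -/
theorem fu_ps {i p : ℕ} (s : ℕ) (hi : i < 4) (k : M.al p) (y a : ℕ) :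
    (∃ u < 2, M.Ps (P.fu i p s u) y a) ↔ ∃ t, M.wk i p t = y ∧ M.sw i p s t = a := by
  have e := full_ps (s := s) h hi k (G.nm.pa i hi p k) (G.nm.per i hi p k) y a
  rw [← G.fu1 s one_ne_zero hi k, ← G.fu0] at e
  constructor
  · rintro ⟨u, hu, c⟩
    have : M.Ps (P.fu i p s 0) y a ∨ M.Ps (P.fu i p s 1) y a := by
      rcases (by omega : u = 0 ∨ u = 1) with rfl | rfl
      exacts [Or.inl c, Or.inr c]
    rcases e.1 this with ⟨rfl, rfl⟩ | ⟨t, c⟩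
    exacts [⟨0, rfl, rfl⟩, ⟨t + 1, c⟩]
  · rintro ⟨t, c⟩
    have : M.Ps (P.fu i p s 0) y a ∨ M.Ps (P.fu i p s 1) y a := e.2 (by
      cases t with
      | zero => exact Or.inl ⟨c.1.symm, c.2.symm⟩
      | succ t => exact Or.inr ⟨t, c⟩)
    exact this.elim (fun c => ⟨0, by omega, c⟩) fun c => ⟨1, by omega, c⟩

theorem On_iff {y a : ℕ} {A : Sg} (ha : a < 4) (w : M.wo A) :
    P.On M.n y a A ↔ M.ok A ∧ M.Ps A y a := onf_iff h G.F ha w

theorem OnC_iff {y : ℕ} {A : Sg} (hi : A.i < 4) (w : M.wo A) :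
    P.OnC M.n y A ↔ M.ok A ∧ M.Mem A y := by
  unfold Pr.OnC onc
  rw [onf_iff h G.F hi w, onf_iff h G.F (Nat.mod_lt _ (by omega)) w, G.al]
  constructor
  · rintro (⟨rfl, k⟩ | k | k)
    exacts [⟨w k, mem_p _⟩, ⟨k.1, k.2.mem⟩, ⟨k.1, k.2.mem⟩]
  · rintro ⟨k, m⟩
    obtain ⟨a, p⟩ := m.ps
    rcases p.side with u | u | u
    · exact Or.inl ⟨u.1, m.al h k⟩
    · rw [Nat.mod_eq_of_lt hi] at u
      exact Or.inr (Or.inl ⟨k, u ▸ p⟩)
    · exact Or.inr (Or.inr ⟨k, u ▸ p⟩)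

/-- On the ring of the name of `c`. -/
theorem On_ring {i c y a : ℕ} (hi : i < 4) (ha : a < 4) :
    P.On M.n y a (P.ring i (P.En i c)) ↔ M.al c ∧ M.Kd i a y ∧ M.Co i y c := by
  rw [G.On_iff h ha (G.ring_wo h c hi)]
  by_cases k : M.al c
  · rw [G.ring_eq i (G.nm.al hi k), rg_ps h hi (G.nm.per i hi c k)]
    have e := (G.nm.pa i hi c k).co
    exact ⟨fun u => ⟨k, u.2.1, u.2.2.trans e.symm⟩,
      fun u => ⟨rg_ok h hi (G.nm.per i hi c k), u.2.1, u.2.2.trans e⟩⟩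
  · exact iff_of_false (fun u => G.ring_dead h i (fun u => k ((G.En_al h hi).1 u)) u.1.2.1)
      fun u => k u.1

theorem pa_iff {i p y : ℕ} (hi : i < 4) : P.pa M.n i p y ↔ M.al p ∧ M.Pa i p y := by
  have i1 : (P.fu i p i 1).i < 4 := hi
  unfold Pr.pa
  rw [G.OnC_iff h (A := P.fu i p i 0) hi (G.fu_wo h _ _ _ hi), G.OnC_iff h i1 (G.fu_wo h _ _ _ hi),
    G.fu_ok_iff h _ _ hi, G.fu_ok_iff h _ _ hi, ← and_or_left]
  refine and_congr_right fun k => ⟨fun c => ?_, fun ⟨t, c⟩ => ?_⟩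
  · obtain ⟨u, hu, a, c⟩ : ∃ u < 2, ∃ a, M.Ps (P.fu i p i u) y a :=
      c.elim (fun c => ⟨0, by omega, c.ps⟩) fun c => ⟨1, by omega, c.ps⟩
    obtain ⟨t, c, -⟩ := (G.fu_ps h i hi k y a).1 ⟨u, hu, c⟩
    exact ⟨t, c⟩
  · obtain ⟨u, hu, c⟩ := (G.fu_ps h i hi k y _).2 ⟨t, c, rfl⟩
    rcases (by omega : u = 0 ∨ u = 1) with rfl | rfl
    exacts [Or.inl c.mem, Or.inr c.mem]

theorem fo_ex (fl : Bool) {a b : ℕ} (ha : a < 4) (hb : b < 4) (hab : a ≠ b) {X : Sg} (k : M.ok X)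
    {B : ℕ → Sg} {m : ℕ} (w : ∀ l < m, M.wo (B l)) :
    M.Ex fl X (fun y => M.Ps X y a ∧ ∃ l < m, M.ok (B l) ∧ M.Ps (B l) y b)
      (fo M.n P.F fl a b X B M.n m) := fo_spec h G.F fl ha hb hab k w

theorem early_dead {i p s a b m : ℕ} {B : ℕ → Sg} (hi : i < 4) (ha : a < 4) (hb : b < 4)
    (hab : a ≠ b) (k : ¬M.al p) (w : ∀ l < m, M.wo (B l)) : P.early M.n i p s a b B m = M.n := by
  unfold Pr.early
  rw [fo_dead G.F true ha hb hab (G.fu_dead h s 0 hi k) w,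
    fo_dead G.F true ha hb hab (G.fu_dead h s 1 hi k) w, if_neg (lt_irrefl _)]

/-- The first passage of the whole walk that is a hit. -/
theorem early_fst {i p s a b m : ℕ} {B : ℕ → Sg} (hi : i < 4) (ha : a < 4) (hb : b < 4)
    (hab : a ≠ b) (k : M.al p) (w : ∀ l < m, M.wo (B l)) :
    M.Fst i p (fun t => M.sw i p s t = a ∧ ∃ l < m, M.ok (B l) ∧ M.Ps (B l) (M.wk i p t) b)
      (P.early M.n i p s a b B m) := by
  have o0 := G.fu_ok h s 0 hi k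
  have o1 := G.fu_ok h s 1 hi k
  have e0 := (G.fo_ex h true ha hb hab o0 w).idx h o0
  have e1 := (G.fo_ex h true ha hb hab o1 w).idx h o1
  unfold Pr.early
  rcases e0 with ⟨e0, n0⟩ | ⟨e0, t, -, t2, t3, t4⟩
  swap
  · rw [if_pos e0]
    exact Or.inr ⟨e0, t, t2, t3, t4⟩
  rw [if_neg e0.not_lt]
  have e : M.wk i p (M.ln (P.fu i p s 0)) = P.En i p := (ln_spec h o0).2.1
  have el : ∀ t, M.el (P.fu i p s 1) t = M.wk i p (M.ln (P.fu i p s 0) + t + 1) := fun t => by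
    rw [add_assoc, wk_add, e, G.fu1 s one_ne_zero hi k, rg_el]
  have sv : ∀ t, M.sv (P.fu i p s 1) t = M.sw i p s (M.ln (P.fu i p s 0) + t + 1) := fun t => by
    rw [sw_succ, wk_add, e, G.fu1 s one_ne_zero hi k, rg_sv]
  rcases e1 with ⟨e1, n1⟩ | ⟨e1, t, -, t2, t3, t4⟩
  · refine Or.inl ⟨e1, fun t c => ?_⟩
    obtain ⟨u, hu, r, r1, r2, r3⟩ := (G.fu_ps h s hi k _ _).2 ⟨t, rfl, c.1⟩
    rcases (by omega : u = 0 ∨ u = 1) with rfl | rfl
    exacts [n0 r r1 ⟨r3, r2 ▸ c.2⟩, n1 r r1 ⟨r3, r2 ▸ c.2⟩]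
  · refine Or.inr ⟨e1, _, t2.trans (el t), by rw [el, sv] at t3; exact t3, fun u hu c => ?_⟩
    rcases le_or_gt u (M.ln (P.fu i p s 0)) with d | d
    · exact n0 u d c
    · obtain ⟨r, rfl⟩ := Nat.exists_eq_add_of_lt d
      exact t4 r (by omega) (by rw [el, sv]; exact c)

theorem early_le {i p s a b m : ℕ} {B : ℕ → Sg} (hi : i < 4) (ha : a < 4) (hb : b < 4)
    (hab : a ≠ b) (w : ∀ l < m, M.wo (B l)) : P.early M.n i p s a b B m ≤ M.n := by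
  by_cases k : M.al p
  exacts [(G.early_fst h hi ha hb hab k w).le, (G.early_dead h hi ha hb hab k w).le]

/-- FCOR: the new primitive `F`. -/
theorem genF_gf {M' : Cm} (h' : M'.Ok) (e : M'.n = M.n) {al' : ℕ → Prop} (ea : al' = M'.al)
    {np : Sg → ℕ} {pc : Sg → ℕ → ℕ → Sg} {rv : Sg → ℕ → Bool} (δ : ℕ)
    (c : ∀ A, ∀ a < 4, M'.ok A → Cov M M' δ a A (pc A a) (rv A) (np A + 1)) :
    M'.GF (P.genF M.n al' np pc rv) := by
  intro fl a b A B ha hb hab wa wb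
  unfold Pr.genF
  rw [ea]
  split_ifs with u
  · exact fpc_eq h h' e G.F fl ha hb hab (wa u.1) (wb u.2) (c A a ha (wa u.1)) (c B b hb (wb u.2))
  · rw [F_junk _ _ _ fun k => u ⟨k.1.2.1, k.2.2.1⟩, e]

end Geo

end Pool.Agent.MP_1a6d78_lc.PS
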