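import Pool.Agent.MP_1a6d78_lc.PS.KAnc
import Pool.Agent.MP_1a6d78_lc.PS.Prog
import Pool.Agent.MP_1a6d78_lc.PS.Drop

-- ======== part 0: formerly Pool.Agent.MP_1a6d78_lc.PS.SpecB
section MrgPart0

/-! PROJECT PSC: the statements for the programs of the kill round. -/

namespace Pool.Agent.MP_1a6d78_lc.PS

open Classical ED PR GL

noncomputable section

/-- PRB: the test for saddle links. -/
def PrbS : Prop := ∀ (M : Cm) (P : Pr), M.Ok → Geo M P → ∀ p, P.prb p ↔ M.Prb p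

namespace Rn

variable (K : Rn) (M M' : Cm)

/-- The semantic kill. -/
abbrev ks : Ks := ⟨M, M', K.sel, K.P.En⟩

/-- SEL -/
structure SelK : Prop where
  fam : M.Fam K.sel
  name : ∀ {x}, K.sel x → K.P.En 0 x = x
  ole : ∀ i c, K.obj i c ≤ M.n
  obj : ∀ {i c x}, i < 2 → (K.obj i c = x ∧ x < M.n ↔ M.al c ∧ K.sel x ∧ M.Co i c x)
  lle : ∀ x t, K.links x t ≤ 4 * M.n
  lsd : ∀ {x t}, K.sel x → K.links x t < 4 * M.n → M.Lsd x (K.links x t)
  lex : ∀ {x p}, K.sel x → M.Lsd x p → ∃ t < 4 * K.c, K.links x t = p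
  cand : ∀ {x t}, K.sel x → K.C x t = M.n ∨ (M.al (K.C x t) ∧ M.Cand K.P.En x (K.C x t))
  cex : ∀ {x b}, K.sel x → M.Cand K.P.En x b → ∃ t < K.nc, K.C x t = b
  seen : ∀ {x q}, K.sel x → M.Lsd x q → K.seen q = x

structure H1 : Prop where
  hy : K.Hy M
  g1 : (K.ks M M').G1
  meet : (K.ks M M').MeetK
  sel : K.SelK M

/-- GOOD -/
structure GoodK : Prop where
  meets : ∀ p s b, s < 4 → (K.meets p s b ↔ M.al p ∧ M.al b ∧ M.Mt p s b)
  gd : ∀ {x t}, K.sel x → t < K.nc → K.gd x t = if M'.al (K.C x t) then K.C x t else M.n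
  gal : ∀ {x t}, K.sel x → t < K.nc →
    K.gd x t = M.n ∨ (M'.al (K.gd x t) ∧ M.Cand K.P.En x (K.gd x t))
  gex : ∀ {x b}, K.sel x → M.Cand K.P.En x b → M'.al b → ∃ t < K.nc, K.gd x t = b
  al : K.al' = M'.al

/-- LAM -/
structure LamK : Prop where
  hits : ∀ {w x t}, w = 2 ∨ w = 3 → K.sel x → M.Dd x t → M.Lv M' t →
    M.Fst w t (fun s => M'.al (M.wk w t s) ∧ M.sw w t 2 s = 2) (K.hits w t)
  nxa : ∀ {w e t}, w = 2 ∨ w = 3 → M.Lv M' e → M.Nt M' w e t →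
    K.nxa w e = M.lk (pt (M.wk w e t) w)
  lam : ∀ p, K.lam' p = if M'.al (p / 4) then M'.lk p else 4 * M'.n
  fed : ∀ {w c a}, w = 2 ∨ w = 3 → a < 4 → M'.al c ∨ c = M.n → K.FEd w c a = M'.FE w c a

structure H2 : Prop where
  h1 : K.H1 M M'
  good : K.GoodK M M'
  lam : K.LamK M M'

/-- STAGE -/
structure StageK : Prop where
  q : ∀ {i p}, i < 2 → M'.al p → K.obj i p < M.n → M.Pa i p (K.dq i p) ∧ M'.al (K.dq i p) ∧
    M.Dd (K.obj i p) (M.st i (K.dq i p)) ∧ ¬M.Per i p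
  g : ∀ {i p}, i < 2 → M'.al p → K.obj i p < M.n → K.dg i p = M'.lk (pt (K.dq i p) i)
  hp : ∀ {i p}, i < 2 → M'.al p → K.obj i p < M.n → K.hp i p →
    M.Cand K.P.En (K.obj i p) (K.dg i p / 4)
  tight : ∀ {w b g}, w = 2 ∨ w = 3 → M'.al b ∨ b = M.n → M'.al g →
    (K.tight w b g ↔ M'.al b ∧ M'.Ti w (hs w) b g)
  b : ∀ {i p}, i < 2 → M'.al p → K.obj i p < M.n → ¬K.hp i p →
    M.Cand K.P.En (K.obj i p) (K.db i p) ∧ M'.al (K.db i p) ∧
      M'.Ti (3 - i) (hs i) (K.db i p) (K.dg i p / 4)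

/-- The new walk from `p`: `a` steps to `dq`, one step to `dg`, `b` steps to the next start. -/
structure One (i p a b : ℕ) : Prop where
  q : M.wk i p a = K.dq i p
  fst : ∀ t < a, M.wk i p t ≠ K.dq i p
  old : ∀ t ≤ a, M'.wk i p t = M.wk i p t
  ss : ∀ t < a, M'.ss i (M.wk i p t) = M.ss i (M.wk i p t)
  g : M'.wk i p (a + 1) = K.dg i p / 4 ∧ M'.ss i (K.dq i p) = sd i (K.dg i p)
  nx : M'.wk i p (a + 1 + b) = K.nx i p
  hop : K.hp i p → b = 0
  wall : ¬K.hp i p → M'.ss i (K.dq i p) = hs i ∧ M'.ln ⟨3 - i, K.db i p, hs i, K.dg i p / 4⟩ = b ∧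
    M'.ok ⟨3 - i, K.db i p, hs i, K.dg i p / 4⟩ ∧ ∀ t ≤ b,
      M'.wk (3 - i) (K.db i p) (b - t) = M'.wk i p (a + 1 + t) ∧
      M'.sw (3 - i) (K.db i p) (hs i) t = hs i ∧ M'.sw i p 0 (a + 1 + t) = hs i

/-- DP: the loop. -/
structure DpK : Prop where
  one : ∀ {i p}, i < 2 → M'.al p → K.obj i p < M.n → ∃ a b, K.One M M' i p a b
  inv : ∀ {i p u}, i < 2 → M'.al p → M'.Pa i p u → K.obj i u = K.obj i p ∨ K.obj i u = M.n
  dp : ∀ {i p} k, i < 2 → M'.al p → K.dp i p (k + 1) = K.nx i (K.dp i p k) ∧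
    M'.al (K.dp i p k) ∧ M'.Pa i p (K.dp i p k)
  exit : ∀ {i p u}, i < 2 → M'.al p → M'.Pa i p u → K.obj i u = M.n →
    K.obj i (K.dp i p K.nc) = M.n
  stay : ∀ {i p k l}, i < 2 → M'.al p → K.obj i (K.dp i p k) = M.n → k ≤ l → K.dp i p l = K.dp i p k
  per : ∀ {i p}, i < 2 → M'.al p → K.obj i (K.dp i p K.nc) < M.n →
    ∃ s L, s ≤ K.nc ∧ 0 < L ∧ L ≤ K.nc ∧ ∀ k, s ≤ k → K.dp i p (k + L) = K.dp i p k
  cand : ∀ {i p k}, i < 2 → M'.al p → K.obj i (K.dp i p k) < M.n →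
    M.Cand K.P.En (K.obj i p) (K.dp i p (k + 1))

/-- The stages cover the new walk: the stage `k` starts at the index `u k`. -/
structure Idx (i p : ℕ) (u a b : ℕ → ℕ) : Prop where
  zero : u 0 = 0
  dp : ∀ k, M'.wk i p (u k) = K.dp i p k
  one : ∀ k, K.obj i (K.dp i p k) < M.n →
    K.One M M' i (K.dp i p k) (a k) (b k) ∧ u (k + 1) = u k + a k + 1 + b k
  ds : ∀ k s, (∀ l < k, K.obj i (K.dp i p l) < M.n) → K.ds i p s k = M'.sw i p s (u k)

structure H3 : Prop where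
  h2 : K.H2 M M'
  stage : K.StageK M M'
  dp : K.DpK M M'
  idx : ∀ {i p}, i < 2 → M'.al p → ∃ u a b, K.Idx M M' i p u a b

/-- PF: the cells of the pieces. -/
def PfK : Prop :=
  ∀ {i p u a b} s k y, i < 2 → M'.al p → K.Idx M M' i p u a b → K.obj i (K.dp i p k) < M.n →
    M.wo (K.pf i p s (2 * k)) ∧ M.wo (K.pf i p s (2 * k + 1)) ∧
    (K.P.OnC K.n y (K.pf i p s (2 * k)) ↔ ∃ t ≤ a k, M'.wk i p (u k + t) = y) ∧
    (M'.al y → (K.P.OnC K.n y (K.pf i p s (2 * k + 1)) ↔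
      ¬K.hp i (K.dp i p k) ∧ ∃ t ≤ b k, M'.wk i p (u k + a k + 1 + t) = y))

/-- EN -/
structure EnK : Prop where
  nm : M'.Nm K.En'
  mov : ∀ {i c}, i < 2 → M'.al c → K.obj i (K.En' i c) < M.n → K.obj i c = K.obj i (K.En' i c)
  old : ∀ {i c}, i < 4 → M'.al c → ¬K.moved i c → K.P.En i (K.En' i c) = K.P.En i c

/-- FE -/
def FeK : Prop := ∀ i < 4, ∀ a < 4, ∀ c, K.FE' i c a = M'.FE i c a

/-- COV -/
def CovK : Prop := ∀ A, ∀ a < 4, M'.ok A → Cm.Cov M M' 2 a A (K.pc A a) (rv A) (K.np A + 1)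

end Rn

def SelS : Prop := ∀ (K : Rn) M, K.Hy M → M.FlowK → K.SelK M

def GoodS : Prop := ∀ (K : Rn) M M', K.H1 M M' → K.GoodK M M'

def LamS : Prop := ∀ (K : Rn) M M', K.H1 M M' → K.GoodK M M' → K.LamK M M'

def StageS : Prop := ∀ (K : Rn) M M', K.H2 M M' → K.StageK M M'

def DpS : Prop := ∀ (K : Rn) M M', K.H2 M M' → K.StageK M M' → K.DpK M M'

def IdxS : Prop := ∀ (K : Rn) M M', K.H2 M M' → K.StageK M M' → K.DpK M M' →
  ∀ {i p}, i < 2 → M'.al p → ∃ u a b, K.Idx M M' i p u a b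

def PfS : Prop := ∀ (K : Rn) M M', K.H3 M M' → K.PfK M M'

def EnS : Prop := ∀ (K : Rn) M M', K.H3 M M' → K.PfK M M' → K.EnK M M'

def FeS : Prop := ∀ (K : Rn) M M', K.H3 M M' → K.FeK M'

def CovS : Prop := ∀ (K : Rn) M M', K.H3 M M' → K.PfK M M' → K.CovK M M'

/-- LIST: what the lists need. -/
def ListS : Prop := PrbS → ∀ (K : Rn) M M', K.H3 M M' → K.EnK M M' → (K.ks M M').ValK →
  (K.ks M M').AncK → Geo M' K.N → K.rd.Hy

/-- The kill round. -/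
def KillS : Prop := ∀ (K : Rn) M, K.Hy M → ∃ M', M.Smo M' (M.Dead K.sel) ∧ M'.Ok ∧ M.Fam K.sel ∧
  Geo M' K.kill ∧ K.rd.Hy

end

end Pool.Agent.MP_1a6d78_lc.PS

end MrgPart0

-- ======== part 1: formerly Pool.Agent.MP_1a6d78_lc.PS.KSel
section MrgPart1

/-! PROJECT PSC, row SEL: selection, objects, candidate list. -/

namespace Pool.Agent.MP_1a6d78_lc.PS

open Classical ED PR GL Cm

namespace KSel

variable {M : Cm} {i x y c : ℕ}

theorem top_rg (h : M.Ok) (t : M.Top x) (r : M.Rg (4 * x) (4 * c)) : M.Top c := by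
  have := (Ct.rg_al h r).2 (by rw [show 4 * x / 4 = x by omega]; exact t.1)
  rw [show 4 * c / 4 = c by omega] at this
  exact ⟨this, fun z k => t.2 z (Ct.rg_trans r k)⟩

theorem nr4 (M : Cm) (c : ℕ) : M.nr (4 * c) = M.lk (pt c 1) := by
  unfold Cm.nr; congr 1; unfold r4 pt; omega

theorem nr1 (h : M.Ok) (a : M.al c) (s : M.ss 1 c = 0) : M.nr (4 * c) = 4 * M.st 1 c := by
  rw [nr4, h.lk_pt a, s]; rfl

theorem nr0 (h : M.Ok) (a : M.al c) (s : M.ss 0 c = 0) : M.nr (4 * M.st 0 c) = 4 * c := by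
  have e := h.lk_pt (i := 0) a
  rw [s] at e
  rw [nr4, ← show ep 0 0 = 1 from rfl, ← e, h.inv]; rfl

theorem top_ss (h : M.Ok) (t : M.Top c) (hi : i < 2) : M.ss i c = 0 := by
  rcases (by omega : i = 0 ∨ i = 1) with rfl | rfl
  · have e := Ct.nr_psi h (4 * c)
    have r : M.Rg (4 * c) (PL.r3 (M.lk (4 * c))) := Ct.rg_symm h ⟨1, e⟩
    have := Ct.crit_mod t.2 r
    unfold Cm.ss sd
    rw [show pt c 0 = 4 * c from rfl, if_pos (by unfold PL.r3 at this; omega)]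
  · have := Ct.crit_mod t.2 (Ct.rg_nr M _)
    rw [nr4] at this
    unfold Cm.ss sd
    rw [if_neg (by omega)]

theorem top_st (h : M.Ok) (t : M.Top c) (hi : i < 2) : M.Rg (4 * c) (4 * M.st i c) := by
  have s := top_ss h t hi
  rcases (by omega : i = 0 ∨ i = 1) with rfl | rfl
  · exact Ct.rg_symm h ⟨1, nr0 h t.1 s⟩
  · exact ⟨1, nr1 h t.1 s⟩

theorem pa_rg (h : M.Ok) (t : M.Top x) (hi : i < 2) (p : M.Pa i x c) : M.Rg (4 * x) (4 * c) := by
  obtain ⟨s, rfl⟩ := p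
  induction s with
  | zero => exact Ct.rg_refl _ _
  | succ s ih => rw [wk_succ]; exact Ct.rg_trans ih (top_st h (top_rg h t ih) hi)

theorem rg_pa1 (h : M.Ok) (t : M.Top x) (r : M.Rg (4 * x) (4 * c)) : M.Pa 1 x c := by
  obtain ⟨d, e, p⟩ := Ct.rg_ind (Q := fun z => ∃ d, z = 4 * d ∧ M.Pa 1 x d) r ⟨x, rfl, Pa.refl _ _⟩
    (by
      rintro _ ⟨d, rfl, p⟩
      have td := top_rg h t (pa_rg h t (by omega) p)
      exact ⟨_, nr1 h td.1 (top_ss h td (by omega)), p.trans (Pa.step _ _)⟩)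
  rwa [show c = d by omega]

theorem rg_pa (h : M.Ok) (t : M.Top x) (hi : i < 2) (r : M.Rg (4 * x) (4 * c)) : M.Pa i x c := by
  rcases (by omega : i = 0 ∨ i = 1) with rfl | rfl
  · have tc := top_rg h t r
    obtain ⟨s, rfl⟩ := rg_pa1 h tc (Ct.rg_symm h r)
    clear r t
    induction s with
    | zero => exact Pa.refl _ _
    | succ s ih =>
      have td := top_rg h tc (pa_rg h tc (by omega) (Pa.wk 1 c s))
      have e := nr1 h td.1 (top_ss h td (by omega))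
      rw [nr4] at e
      have e' : M.st 0 (M.st 1 (M.wk 1 c s)) = M.wk 1 c s := by
        rw [Cm.st, show pt (M.st 1 (M.wk 1 c s)) 0 = 4 * M.st 1 (M.wk 1 c s) from rfl, ← e, h.inv,
          pt_div]
      rw [wk_succ]
      exact (e' ▸ Pa.step 0 (M.st 1 (M.wk 1 c s))).trans ih
  · exact rg_pa1 h t r

/-- A cycle all of whose passages are by the side 0 bounds a critical region. -/
theorem top_of (h : M.Ok) (hi : i < 2) (p : M.Per i y) (f : M.FE i y (hs i) = M.n) : M.Top y := by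
  have s : ∀ c, M.Pa i y c → M.ss i c = 0 := by
    rintro _ ⟨t, rfl⟩
    have k := (FE_none h p.1).1 f t
    have := ss_cases (M := M) i (M.wk i y t)
    unfold hs at k
    split_ifs at k <;> omega
  have cl : ∀ d, M.Pa i y d → ∃ u, M.nr (4 * d) = 4 * u ∧ M.Pa i y u := by
    intro d pd
    rcases (by omega : i = 0 ∨ i = 1) with rfl | rfl
    · obtain ⟨_, u, pu, rfl, -⟩ := (p.pa h pd).1.kd h
      have q := pd.trans (pu.pa h (Pa.step _ _)).2
      exact ⟨u, nr0 h pu.1 (s u q), q⟩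
    · exact ⟨_, nr1 h (pd.al h p.1) (s d pd), pd.trans (Pa.step _ _)⟩
  refine ⟨p.1, fun z r => ?_⟩
  obtain ⟨d, rfl, pd⟩ := Ct.rg_ind (Q := fun z => ∃ d, z = 4 * d ∧ M.Pa i y d) r
    ⟨y, rfl, Pa.refl _ _⟩ (by rintro _ ⟨d, rfl, pd⟩; exact cl d pd)
  obtain ⟨u, e, -⟩ := cl d pd
  unfold Cm.Alt
  omega

theorem en_pa (h : M.Ok) {En : ℕ → ℕ → ℕ} (N : M.Nm En) (hi : i < 2) (a : M.al c)
    (k : M.Co i c x) : M.Pa i x (En i c) :=
  (k.symm.trans (N.pa i (by omega) c a).co).pa h (N.per i (by omega) c a)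

theorem en_en (h : M.Ok) {En : ℕ → ℕ → ℕ} (N : M.Nm En) (t : M.Top x) (hi : i < 2) (a : M.al c)
    (k : M.Co i c x) : En 0 (En i c) = En 0 x :=
  N.pa_eq h (by omega) t.1 (rg_pa h t (by omega) (pa_rg h t hi (en_pa h N hi a k)))

variable {K : Rn}

theorem sel_al (H : K.Hy M) (s : K.sel x) : M.al x := H.geo.al ▸ s.1

theorem sel_top (H : K.Hy M) (s : K.sel x) : M.Top x :=
  top_of H.ok (i := 0) (by omega) (s.2.1 ▸ H.geo.nm.per 0 (by omega) x (sel_al H s))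
    (by rw [← H.geo.FE 0 (by omega) _ (by decide), ← H.n]; exact s.2.2.1)

theorem both (H : K.Hy M) (s : K.sel x) {p : ℕ} (b : M.Prb p) (k : M.Co ((p + 1) % 2) (p / 4) x) :
    ∃ u < 2 * K.c, K.links x (2 * u) = p ∧ K.links x (2 * u + 1) = M.lk p := by
  have e := (H.geo.nm.co H.ok (by omega) b.1 (sel_al H s)).2 k
  have l := H.geo.lam_al b.1
  rcases (by omega : (p + 1) % 2 = 0 ∨ (p + 1) % 2 = 1) with j | j <;> rw [j] at e
  · rw [s.2.1] at e
    obtain ⟨t, t1, t2⟩ := H.ex 0 (by omega) p b (by omega) (e ▸ s.2.2.2.2.1)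
    rw [e] at t2
    refine ⟨t, by omega, ?_, ?_⟩ <;> unfold Rn.links
    · rw [if_pos (by omega), show 2 * t / 2 = t by omega, if_pos t1, t2]
    · rw [if_neg (by omega), show (2 * t + 1) / 2 = t by omega, if_pos t1, t2, l]
  · obtain ⟨t, t1, t2⟩ := H.ex 1 (by omega) p b (by omega) (e ▸ s.2.2.2.2.2.1)
    rw [e] at t2
    refine ⟨K.c + t, by omega, ?_, ?_⟩ <;> unfold Rn.links
    · rw [if_pos (by omega), if_neg (by omega), show 2 * (K.c + t) / 2 - K.c = t by omega, t2]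
    · rw [if_neg (by omega), if_neg (by omega), show (2 * (K.c + t) + 1) / 2 - K.c = t by omega,
        t2, l]

theorem ind (H : K.Hy M) : M.Ind K.sel := by
  intro x y p sx sy b kx ky
  obtain ⟨u, u1, -, u3⟩ := both H sx b kx
  have a := H.ok.al_lk b.1
  have := sx.2.2.2.2.2.2 (2 * u + 1) (by omega) (by rw [u3, H.n]; exact Ct.lt4 H.ok a)
  rw [u3, Rn.own0, en_en H.ok H.geo.nm (sel_top H sy) (by omega) a ky, sy.2.1] at this
  exact (this.resolve_right fun k => k sy.2.2.2.1).symm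

theorem obj (H : K.Hy M) (hi : i < 2) :
    K.obj i c = x ∧ x < M.n ↔ M.al c ∧ K.sel x ∧ M.Co i c x := by
  have h := H.ok
  have N := H.geo.nm
  have f : ∀ y, K.P.FE i y (hs i) = M.FE i y (hs i) :=
    H.geo.FE i (by omega) _ (by unfold hs; split_ifs <;> omega)
  unfold Rn.obj
  rw [f, H.n]
  constructor
  · rintro ⟨e, l⟩
    split_ifs at e with k
    · subst e
      have a := (H.geo.En_al h (by omega)).1 ((H.geo.En_al h (by omega)).1 (sel_al H k.2))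
      have t := top_of h hi (N.per i (by omega) c a) k.1
      exact ⟨a, k.2, ((N.pa i (by omega) c a).trans
        (rg_pa h t hi (pa_rg h t (by omega) (N.pa 0 (by omega) _ t.1)))).co⟩
    · omega
  · rintro ⟨a, s, k⟩
    have t := sel_top H s
    have e := (en_en h N t hi a k).trans s.2.1
    have t' := top_rg h t (pa_rg h t hi (en_pa h N hi a k))
    have g : M.FE i (K.P.En i c) (hs i) = M.n := (FE_none h t'.1).2 fun r => by
      rw [top_ss h (top_rg h t' (pa_rg h t' hi (Pa.wk _ _ _))) hi]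
      unfold hs; split_ifs <;> omega
    rw [e, if_pos ⟨g, s⟩]
    exact ⟨rfl, h.lt _ t.1⟩

theorem lle (H : K.Hy M) (x t : ℕ) : K.links x t ≤ 4 * M.n := by
  have l : ∀ p, K.P.lam p ≤ 4 * M.n := fun p => by
    rw [H.geo.lam]
    split_ifs with k
    exacts [(Ct.lt4 H.ok (H.ok.al_lk k)).le, le_rfl]
  unfold Rn.links
  split_ifs
  exacts [H.le _ _ _, H.le _ _ _, l _, l _]

theorem lsd (H : K.Hy M) (F : M.FlowK) (s : K.sel x) {t : ℕ} (l : K.links x t < 4 * M.n) :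
    M.Lsd x (K.links x t) := by
  have h := H.ok
  have N := H.geo.nm
  have a := sel_al H s
  have key : ∀ e, e = (if t / 2 < K.c then K.ent 0 x (t / 2) else
      K.ent 1 (K.P.En 1 x) (t / 2 - K.c)) → e < 4 * M.n → M.Prb e ∧ M.Co ((e + 1) % 2) (e / 4) x := by
    intro e he le
    split_ifs at he
    · subst he
      obtain ⟨v1, v2, v3⟩ := H.val 0 (by omega) x _ a s.2.1 le
      rw [show (K.ent 0 x (t / 2) + 1) % 2 = 0 by omega]
      exact ⟨v1, (N.co h (by omega) v1.1 a).1 (v3.trans s.2.1.symm)⟩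
    · subst he
      obtain ⟨v1, v2, v3⟩ := H.val 1 (by omega) _ _ (N.al (by omega) a) (N.idem h (by omega) a) le
      rw [v2]
      exact ⟨v1, (N.co h (by omega) v1.1 a).1 v3⟩
  unfold Rn.links at l ⊢
  generalize he : (if t / 2 < K.c then K.ent 0 x (t / 2) else
    K.ent 1 (K.P.En 1 x) (t / 2 - K.c)) = e at l ⊢
  split_ifs at l ⊢
  · exact ⟨(key e he.symm l).1, Or.inl (key e he.symm l).2⟩
  · have ae : M.al (e / 4) := by_contra fun k => l.ne (H.geo.lam_dead k)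
    obtain ⟨k1, k2⟩ := key e he.symm (Ct.lt4 h ae)
    rw [H.geo.lam_al ae]
    exact ⟨(F.plk e).2 k1, Or.inr (by rw [h.inv]; exact k2)⟩

theorem lex (H : K.Hy M) (F : M.FlowK) (s : K.sel x) {p : ℕ} (l : M.Lsd x p) :
    ∃ t < 4 * K.c, K.links x t = p := by
  rcases l.2 with k | k
  · obtain ⟨u, u1, u2, -⟩ := both H s l.1 k
    exact ⟨_, by omega, u2⟩
  · obtain ⟨u, u1, -, u3⟩ := both H s ((F.plk p).2 l.1) k
    exact ⟨_, by omega, u3.trans (H.ok.inv p)⟩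

theorem hs_lt (w : ℕ) : hs w < 4 := by unfold hs; split_ifs <;> omega

theorem cand (H : K.Hy M) (F : M.FlowK) (s : K.sel x) (t : ℕ) :
    K.C x t = M.n ∨ (M.al (K.C x t) ∧ M.Cand K.P.En x (K.C x t)) := by
  have two : ∀ u, K.links x u / 4 = M.n ∨ M.Lsd x (K.links x u) := fun u =>
    (lle H x u).eq_or_lt.imp (fun e => by omega) (lsd H F s)
  unfold Rn.C
  by_cases ht : t < 4 * K.c
  · rw [if_pos ht]
    exact (two t).imp id fun l => ⟨l.1.1, Or.inl ⟨_, l, rfl⟩⟩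
  · rw [if_neg ht, H.geo.FE _ (by omega) _ (hs_lt _)]
    refine (FE_le H.ok _ _ _).imp id fun a => ⟨a, Or.inr ⟨_, _, by omega, ?_, rfl, H.ok.lt _ a⟩⟩
    have b := (H.geo.En_al H.ok (by omega)).1 (FE_spec H.ok (H.ok.lt _ a)).1
    split_ifs at b ⊢
    · exact Or.inl rfl
    · exact Or.inr ⟨_, (two _).resolve_left fun e => H.ok.not_al_n (e ▸ b), rfl⟩

theorem cex (H : K.Hy M) (F : M.FlowK) (s : K.sel x) {b : ℕ} (k : M.Cand K.P.En x b) :
    ∃ t < K.nc, K.C x t = b := by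
  unfold Rn.nc Rn.C
  rcases k with ⟨p, l, rfl⟩ | ⟨w, d, hw, sr, rfl, -⟩
  · obtain ⟨t, t1, t2⟩ := lex H F s l
    exact ⟨t, by omega, by rw [if_pos t1, t2]⟩
  · obtain ⟨u, u1, u2⟩ : ∃ u ≤ 4 * K.c, (if u = 4 * K.c then x else K.links x u / 4) = d := by
      rcases sr with rfl | ⟨p, l, rfl⟩
      · exact ⟨_, le_rfl, if_pos rfl⟩
      · obtain ⟨t, t1, t2⟩ := lex H F s l
        exact ⟨t, t1.le, by rw [if_neg t1.ne, t2]⟩
    refine ⟨4 * K.c + 2 * u + (w - 2), by omega, ?_⟩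
    rw [if_neg (by omega), show 2 + (4 * K.c + 2 * u + (w - 2)) % 2 = w by omega,
      show (4 * K.c + 2 * u + (w - 2) - 4 * K.c) / 2 = u by omega, u2,
      H.geo.FE _ (by omega) _ (hs_lt _)]

theorem seen (H : K.Hy M) (s : K.sel x) {q : ℕ} (l : M.Lsd x q) : K.seen q = x := by
  unfold Rn.seen Rn.up
  rw [H.n, H.geo.lam_al l.1.1]
  rcases l.2 with k | k
  · obtain ⟨e, lt⟩ := (obj H (by omega)).2 ⟨l.1.1, s, k⟩
    rw [e, if_pos lt]
  · split_ifs with u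
    · obtain ⟨-, sy, ky⟩ := (obj H (by omega)).1 ⟨rfl, u⟩
      exact ind H _ _ q sy s l.1 ky k
    · exact ((obj H (by omega)).2 ⟨H.ok.al_lk l.1.1, s, k⟩).1

end KSel

open KSel in
theorem selS : SelS := by
  intro K M H F
  refine ⟨⟨fun x => sel_top H, fun x y sx sy r => ?_, ind H⟩, fun s => s.2.1, fun i c => ?_,
    fun hi => obj H hi, lle H, fun s => lsd H F s, fun s => lex H F s, fun s => cand H F s _,
    fun s => cex H F s, fun s => seen H s⟩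
  · have := H.geo.nm.pa_eq H.ok (by omega) (sel_al H sx) (rg_pa H.ok (sel_top H sx) (i := 0)
      (by omega) r)
    rw [sx.2.1, sy.2.1] at this
    exact this.symm
  · unfold Rn.obj
    split_ifs with k
    exacts [(H.ok.lt _ (sel_al H k.2)).le, H.n.le]

end Pool.Agent.MP_1a6d78_lc.PS

end MrgPart1

-- ======== part 2: formerly Pool.Agent.MP_1a6d78_lc.PS.FTwC
section MrgPart2

/-! PROJECT PSC, row TWC: cuts in another frame. -/

namespace Pool.Agent.MP_1a6d78_lc.PS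

open Classical ED PR PL Relation

namespace FTwC

theorem ep_lt (t a : ℕ) : ep t a < 4 := by
  unfold ep
  split_ifs <;> omega

theorem fp_ep {g t a : ℕ} (h : g < 8) (ha : a = t % 4 ∨ a = (t + 3) % 4) :
    fp g (ep t a) = ep (fp g t) (fs g a) := by
  unfold fp fs ep
  rcases ha with ha | ha <;> split_ifs <;> omega

theorem pt_congr {c q r : ℕ} (e : q % 4 = r % 4) : pt c q = pt c r := by
  unfold pt
  omega

end FTwC

open FTwC

theorem fTwC : S_Walk → S_Tw → S_TwC := by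
  intro W T M M' R H H' S C g hg
  have K := T M H g hg
  have K' := T M' H' g hg
  have WK := W _ K.ok
  have W0 := W _ H
  refine ⟨?_, C.n, K'.ok.inv, ?_, ?_⟩
  · rintro t y ⟨ht, h⟩
    obtain ⟨_, h2, h3⟩ := S _ _ h
    exact ⟨ht, (K.rn t y).2 h2, ht, by rw [K.st]; exact h3⟩
  · rintro t y a ⟨ht, h⟩ hk
    have ha := (WK.kd_per t a y hk).2
    have ha4 : a < 4 := by omega
    have e := C.ring _ y _ h ((K.kd t a y ha4).1 hk)
    show tp (gi g) (M'.lk (tp g (pt y t))) = _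
    rw [Ct.tp_pt, e, Ct.tp_pt, K.fe t y a ha4, ← fp_ep hg ha, (Ct.fp_fp hg _).1]
    exact pt_congr (Nat.mod_mod _ _)
  · intro p hp
    show tp (gi g) (M'.lk (tp g p)) = tp (gi g) (M.lk (tp g p))
    rw [C.off]
    rintro ⟨t, a, h, hk, e⟩
    rw [Ct.tp_div] at h hk
    rw [Ct.tp_mod] at e
    have ht : t < 4 := (S _ _ h).1
    have ha4 : a < 4 := by
      have := (W0.kd_per t a _ hk).2
      omega
    have e1 : fp g (fp (gi g) t) = t := by rw [(Ct.fp_fp hg t).2]; omega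
    have e2 : fs g (fs (gi g) a) = a := by rw [(Ct.fs_fs hg a).2]; omega
    have l1 := Ct.fp_lt (gi g) t
    have l2 := Ct.fs_lt (gi g) a
    have hk' : (M.tw g).Kd (fp (gi g) t) (fs (gi g) a) (p / 4) := by
      rw [K.kd _ _ _ l2, e1, e2]
      exact hk
    have e3 := fp_ep hg (WK.kd_per _ _ _ hk').2
    rw [e1, e2] at e3
    refine hp ⟨fp (gi g) t, fs (gi g) a, ⟨l1, by rw [e1]; exact h⟩, hk', ?_⟩
    rcases e with e | e
    · left
      have := (Ct.fp_inj hg).1 (e.trans e1.symm)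
      omega
    · right
      have := (Ct.fp_inj hg).1 (e.trans e3.symm)
      have l3 := ep_lt (fp (gi g) t) (fs (gi g) a)
      omega

end Pool.Agent.MP_1a6d78_lc.PS

end MrgPart2

-- ======== part 3: formerly Pool.Agent.MP_1a6d78_lc.PS.FWalk
section MrgPart3

/-! PROJECT PSC, row WALK. -/

namespace Pool.Agent.MP_1a6d78_lc.PS

open Cm

namespace FWalk

variable {M : Cm}

theorem lk_al (h : M.Ok) (p : ℕ) : M.al (M.lk p / 4) ↔ M.al (p / 4) :=
  ⟨fun k => by have := h.al_lk k; rwa [h.inv] at this, h.al_lk⟩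

theorem st_al (h : M.Ok) (i c : ℕ) : M.al (M.st i c) ↔ M.al c := by
  have := lk_al h (pt c i)
  rwa [pt_div] at this

theorem wk_al (h : M.Ok) (i c t : ℕ) : M.al (M.wk i c t) ↔ M.al c := by
  induction t with
  | zero => rfl
  | succ t ih => rw [wk_succ, st_al h, ih]

theorem back (h : M.Ok) {i c : ℕ} (hc : M.al c) :
    M.lk (pt (M.st i c) (ep i (M.ss i c))) = pt c i := by rw [← h.lk_pt hc, h.inv]

theorem ev (h : M.Ok) {i c : ℕ} (hc : M.al c) : ∃ u, M.Pa i c u ∧ M.Per i u := by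
  obtain ⟨s, hs, e⟩ := (Pa.wk i c M.n).bnd h hc
  obtain ⟨r, hr⟩ := Nat.exists_eq_add_of_lt hs
  refine ⟨_, Pa.wk i c s, h.al_wk i hc s, r, ?_⟩
  rw [← wk_succ', ← wk_add, ← add_assoc, ← hr, e]

theorem kd_per (h : M.Ok) {i a y : ℕ} (k : M.Kd i a y) :
    M.Per i y ∧ (a = i % 4 ∨ a = (i + 3) % 4) :=
  ⟨k.per h, let ⟨u, _, _, e⟩ := k; e ▸ ss_cases i u⟩

theorem kd_iff (h : M.Ok) (i a y : ℕ) : M.Kd i a y ↔ (a = i % 4 ∨ a = (i + 3) % 4) ∧
    M.lk (pt y (ep i a)) % 4 = i % 4 ∧ M.Per i (M.lk (pt y (ep i a)) / 4) := by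
  refine ⟨fun k => ⟨(kd_per h k).2, ?_⟩, fun ⟨k1, k2, k3⟩ => ?_⟩
  · obtain ⟨u, p, rfl, rfl⟩ := k
    rw [back h p.1, pt_mod, pt_div]
    exact ⟨rfl, p⟩
  · have e : pt (M.lk (pt y (ep i a)) / 4) i = M.lk (pt y (ep i a)) := by
      generalize M.lk (pt y (ep i a)) = q at k2
      unfold pt; omega
    refine ⟨_, k3, by rw [st, e, h.inv, pt_div], ?_⟩
    rw [ss, e, h.inv]
    unfold sd
    rw [pt_mod]
    unfold ep
    split_ifs <;> omega

theorem fe_lt (h : M.Ok) {i c a t : ℕ} (hc : M.al c) (e : M.ss i (M.wk i c t) = a) :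
    M.FE i c a < M.n :=
  h.lt _ ((FE_le h i c a).resolve_left fun k => (FE_none h hc).1 k t e)

theorem fe_kd (h : M.Ok) {i v y a : ℕ} (p : M.Per i v) (q : M.Pa i v y) (k : M.Kd i a y) :
    M.FE i v a < M.n ∧ M.Pa i v (M.FE i v a) ∧ M.Kd i a (M.FE i v a) := by
  obtain ⟨u, pu, rfl, rfl⟩ := k
  obtain ⟨t, ht⟩ : M.Pa i v u := q.trans pu.2
  have l := fe_lt h p.1 (congrArg (M.ss i) ht)
  obtain ⟨-, s, e1, e2, -⟩ := FE_spec h l
  exact ⟨l, ⟨s + 1, e1.symm⟩, _, (p.pa h (Pa.wk i v s)).1, by rw [e1, wk_succ], e2⟩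

theorem ring (h : M.Ok) (v : ℕ) : M.Ring v ↔ M.Rng 0 v := by
  refine ⟨fun ⟨p, a, b⟩ => ⟨p, ?_, ?_⟩, fun ⟨p, ⟨y, a, a'⟩, z, b, b'⟩ =>
    ⟨p, (fe_kd h p a a').1, (fe_kd h p b b').1⟩⟩
  · obtain ⟨-, s, -, e2, -⟩ := FE_spec h a
    exact ⟨_, Pa.wk 0 v (s + 1), _, (p.pa h (Pa.wk 0 v s)).1, (wk_succ _ _ _).symm, e2⟩
  · obtain ⟨-, s, -, e2, -⟩ := FE_spec h b
    exact ⟨_, Pa.wk 0 v (s + 1), _, (p.pa h (Pa.wk 0 v s)).1, (wk_succ _ _ _).symm, e2⟩

end FWalk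

open FWalk

theorem fWalk : S_Walk := fun M h =>
  { lk_al := lk_al h
    st_al := st_al h
    pa_al := fun i a _ ⟨t, e⟩ => e ▸ wk_al h i a t
    ent := fun _ _ hc => h.lk_pt hc
    back := fun i c hc => ⟨by rw [st, back h hc, pt_div], back h hc⟩
    ev := fun _ _ hc => ev h hc
    per_pa := fun _ _ _ p q => p.pa h q
    per_inj := fun _ _ _ p q e => p.st_inj h q e
    kd_ex := fun _ _ p => let ⟨_, k⟩ := p.kd h; (kd_per h k).2.elim (fun e => Or.inl (e ▸ k))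
      fun e => Or.inr (e ▸ k)
    kd_per := fun _ _ _ k => kd_per h k
    kd_one := fun _ _ _ _ k l => k.uniq h l
    kd_iff := kd_iff h
    co_trans := fun _ _ _ _ k l => k.trans l
    co_per := fun _ _ _ p => ⟨fun k => k.pa h p, Pa.co⟩
    fe := fun _ _ _ => ⟨fun k => let ⟨a, t, _, e, _⟩ := FE_spec h k; ⟨a, t, e⟩,
      fun ⟨a, _, e⟩ => fe_lt h a e⟩
    fe_spec := fun _ _ _ k => (FE_spec h k).2
    fe_kd := fun _ _ _ _ p q k => fe_kd h p q k
    ring := ring h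
    rn_pa := fun _ _ _ ⟨p, ⟨a, a1, a2⟩, b, b1, b2⟩ q =>
      ⟨(p.pa h q).1, ⟨a, (p.pa h q).2.trans a1, a2⟩, b, (p.pa h q).2.trans b1, b2⟩ }

end Pool.Agent.MP_1a6d78_lc.PS

end MrgPart3

-- ======== part 4: formerly Pool.Agent.MP_1a6d78_lc.PS.FWall
section MrgPart4

namespace Pool.Agent.MP_1a6d78_lc.PS

open Classical ED PR PL Relation

namespace FWall

variable {M : Cm} {x : ℕ}

/-- One step of a wall. -/
def Sp (M : Cm) (x c d : ℕ) : Prop := d = M.st 2 c ∧ (M.ss 2 c = 2 ↔ M.Dd x d)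

def Conf (M : Cm) (x g : ℕ) : Prop :=
  M.lk (4 * g + 2) % 4 = 3 ∧ ¬M.Dd x g ∧ M.Dd x (M.st 2 g)

def Top2 (M : Cm) (x w : ℕ) : Prop :=
  M.Dd x w ∧ M.Prb (4 * w + 3) ∧ M.lk (4 * w + 3) % 4 = 0 ∧ ¬M.Dd x (M.st 3 w)

theorem nr2 (M : Cm) (c : ℕ) : M.nr (4 * c + 2) = M.lk (4 * c + 3) := by
  unfold Cm.nr r4
  congr 1
  omega

theorem nr0 (M : Cm) (c : ℕ) : M.nr (4 * c) = M.lk (4 * c + 1) := by
  unfold Cm.nr r4
  congr 1
  omega

theorem runA (H : M.Ok) {g u : ℕ} (hg : M.al g) (h : M.Run 5 1 g u) (h0 : ¬M.Dd x g) :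
    (M.al u ∧ ¬M.Dd x u ∧ ReflTransGen (Sp M x) u g) ∨
      ∃ a b, M.Dd x b ∧ ¬M.Dd x a ∧ M.lk (4 * a + 1) = 4 * b + 2 ∧ TransGen (Sp M x) b g := by
  induction h with
  | refl => exact Or.inl ⟨hg, h0, ReflTransGen.refl⟩
  | @tail a b _ hab ih =>
    rcases ih with ⟨h1, h2, h3⟩ | h1
    · obtain ⟨e1, e2⟩ := hab
      have hp := H.par (pt a 5) (by rw [pt_div]; exact h1)
      have e3 : M.lk (4 * a + 1) = 4 * b + 2 := by
        unfold Cm.st at e1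
        unfold Cm.ss sd at e2
        unfold pt at e1 e2 hp
        norm_num at e1 e2 hp
        omega
      have e4 : M.lk (4 * b + 2) = 4 * a + 1 := by rw [← e3, H.inv]
      have e5 : Sp M x b a := by
        refine ⟨?_, ?_⟩
        · unfold Cm.st pt
          norm_num
          omega
        · unfold Cm.ss sd pt
          norm_num [e4, h2]
      by_cases hb : M.Dd x b
      · exact Or.inr ⟨a, b, hb, h2, e3, TransGen.head' e5 h3⟩
      · exact Or.inl ⟨e1 ▸ H.al_st 5 h1, hb, ReflTransGen.head e5 h3⟩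
    · exact Or.inr h1

/-- Steps along a region through labels of type 2. -/
def T2 (M : Cm) : ℕ → ℕ → Prop := ReflTransGen fun c d => M.nr (4 * c + 2) = 4 * d + 2

theorem t2_rg {c d : ℕ} (h : T2 M c d) : M.Rg (4 * c + 2) (4 * d + 2) := by
  induction h with
  | refl => exact ⟨0, rfl⟩
  | tail _ h ih =>
    obtain ⟨t, ht⟩ := ih
    exact ⟨t + 1, by rw [Function.iterate_succ_apply', ht, h]⟩

theorem fwd (a t : ℕ) : ∀ f, M.nr^[t] (4 * f + 2) = 4 * a →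
    ∃ f', T2 M f f' ∧ M.Alt (4 * f' + 2) := by
  induction t with
  | zero => intro f h; simp only [Function.iterate_zero, id] at h; omega
  | succ t ih =>
    intro f h
    by_cases h1 : M.Alt (4 * f + 2)
    · exact ⟨f, ReflTransGen.refl, h1⟩
    · unfold Cm.Alt at h1
      have h2 : M.nr (4 * f + 2) = 4 * (M.nr (4 * f + 2) / 4) + 2 := by omega
      rw [Function.iterate_succ_apply, h2] at h
      obtain ⟨f', h3, h4⟩ := ih _ h
      exact ⟨f', ReflTransGen.head h2 h3, h4⟩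

theorem runB (H : M.Ok) (R : RegK M) (D : DeadK M x) {a g : ℕ} (ha : ¬M.Dd x a) (t : ℕ) :
    ∀ d, M.nr^[t] (4 * d + 2) = 4 * a → M.Dd x d → (∀ f, T2 M f d → M.Dd x f) →
      TransGen (Sp M x) d g →
      (∃ w, ReflTransGen (Sp M x) w g ∧ Top2 M x w) ∨
        ∃ g', Conf M x g' ∧ TransGen (Sp M x) g' g := by
  induction t with
  | zero => intro d h; simp only [Function.iterate_zero, id] at h; omega
  | succ t ih =>
    intro d h hd hT hS
    have hrg : M.Rg (4 * d + 2) (4 * a) := ⟨_, h⟩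
    have hal := D.al d hd
    have hp := H.par (4 * d + 3) (by rw [show (4 * d + 3) / 4 = d by omega]; exact hal)
    rw [Function.iterate_succ_apply, nr2] at h
    obtain ⟨c, hc⟩ : ∃ c, c = M.lk (4 * d + 3) / 4 := ⟨_, rfl⟩
    have hst : M.st 3 d = c := by rw [hc]; rfl
    by_cases h0 : M.lk (4 * d + 3) % 4 = 0
    · left
      have e1 : M.lk (4 * d + 3) = 4 * c := by omega
      refine ⟨d, hS.to_reflTransGen, hd, ?_, h0, ?_⟩
      · rw [R.prb_up _ (by omega), show (4 * d + 3) / 4 = d by omega,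
          show r3 (4 * d + 3) = 4 * d + 2 by unfold r3; omega]
        refine ⟨hal, ?_⟩
        have h1 : ∃ f, M.Rg (4 * a) (4 * f + 2) ∧ ¬M.Dd x f := by
          by_contra hn
          exact ha (Cm.Dd.step ⟨d, R.symm _ _ hrg⟩ fun u hu =>
            by_contra fun h' => hn ⟨u, hu, h'⟩)
        obtain ⟨f, h2, h3⟩ := h1
        obtain ⟨s, hs⟩ := R.symm _ _ h2
        obtain ⟨f', h4, h5⟩ := fwd a s f hs
        refine ⟨4 * d + 2, 4 * f' + 2, ⟨0, rfl⟩,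
          Ct.rg_trans (Ct.rg_trans hrg h2) (t2_rg h4), fun e => h3 (hT f ?_), ?_, h5, by omega⟩
        · rw [show d = f' by omega]; exact h4
        · unfold Cm.Alt
          rw [nr2]
          omega
      · rw [hst]
        intro hcd
        rw [e1] at h
        exact ha (D.out c a hcd ⟨_, h⟩)
    · have e1 : M.lk (4 * d + 3) = 4 * c + 2 := by omega
      have e2 : M.lk (4 * c + 2) = 4 * d + 3 := by rw [← e1, H.inv]
      have e3 : M.st 2 c = d := by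
        unfold Cm.st pt
        norm_num
        omega
      have e5 : Sp M x c d := by
        refine ⟨e3.symm, ?_⟩
        unfold Cm.ss sd pt
        norm_num [e2, hd]
      by_cases hcd : M.Dd x c
      · rw [e1] at h
        refine ih c h hcd (fun f hf => ?_) (TransGen.head e5 hS)
        rcases ReflTransGen.cases_tail hf with h1 | ⟨c', h1, h2⟩
        · rw [← h1]; exact hcd
        · have := R.inj _ _ (h2.trans (e1.symm.trans (nr2 M d).symm))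
          refine hT f ?_
          rw [show d = c' by omega]
          exact h1
      · exact Or.inr ⟨c, ⟨by omega, hcd, e3 ▸ hd⟩, TransGen.head e5 hS⟩

theorem conf_al (W : WalkK M) (D : DeadK M x) {g : ℕ} (h : Conf M x g) : M.al g :=
  (W.st_al 2 g).1 (D.al _ h.2.2)

theorem stepW (H : M.Ok) (W : WalkK M) (R : RegK M) (D : DeadK M x) {g : ℕ} (h : Conf M x g) :
    M.Prb (4 * g + 2) ∨ (∃ w, ReflTransGen (Sp M x) w g ∧ Top2 M x w) ∨
      ∃ g', Conf M x g' ∧ TransGen (Sp M x) g' g := by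
  by_cases hP : M.Prb (4 * g + 2)
  · exact Or.inl hP
  right
  have hal := conf_al W D h
  obtain ⟨h1, h2, h3⟩ := h
  have e1 : M.lk (4 * g + 2) = pt (M.st 2 g) (0 + 3) := by
    unfold Cm.st pt
    norm_num
    omega
  have hC : M.Cfg 0 3 (M.st 2 g) g := ⟨D.al _ h3, by rw [← e1, H.inv]; rfl⟩
  obtain ⟨⟨hh, hF⟩, u, hL⟩ := R.run 0 3 _ g (Or.inr rfl) hC
  have e2 : hh = u := by
    by_contra hn
    apply hP
    rw [← R.prb_lk, e1]
    exact (R.flow 0 3 _ g hh u (Or.inr rfl) hC hF hL).1.1 hn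
  have hu : M.Dd x u := by
    obtain ⟨r, h4, h5⟩ := hF
    have h6 : M.Dd x r := by
      clear h5
      induction h4 with
      | refl => exact h3
      | tail _ h ih => rw [h.1]; exact (D.up _ ih).1
    have h7 : M.st 0 r = u := by
      unfold Cm.st
      rw [h5, pt_div, e2]
    rw [← h7]
    exact (D.up _ h6).1
  rcases runA H hal hL.1 h2 with h4 | ⟨a, b, h4, h5, h6, h7⟩
  · exact absurd hu h4.2.1
  · have h8 : M.Rg (4 * a) (4 * b + 2) := ⟨1, (nr0 M a).trans h6⟩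
    obtain ⟨t, ht⟩ := R.symm _ _ h8
    refine runB H R D h5 t b ht h4 (fun f hf => ?_) h7
    rcases ReflTransGen.cases_tail hf with h9 | ⟨c', _, h9⟩
    · rw [← h9]; exact h4
    · have := R.inj _ _ (h9.trans ((nr0 M a).trans h6).symm)
      omega

theorem sp_pa {a b : ℕ} (h : ReflTransGen (Sp M x) a b) : M.Pa 2 a b := by
  induction h with
  | refl => exact Cm.Pa.refl _ _
  | tail _ h ih => rw [h.1]; exact ih.trans (Cm.Pa.step _ _)

theorem cap (W : WalkK M) {g g0 : ℕ} (h : Conf M x g) (h0 : M.al g0)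
    (hc : TransGen (Sp M x) g0 g0) (hs : ReflTransGen (Sp M x) g0 g) : M.Cap x 2 g := by
  have hZ : ∀ y, M.Pa 2 g0 y → TransGen (Sp M x) y g0 := by
    rintro y ⟨t, rfl⟩
    induction t with
    | zero => exact hc
    | succ t ih =>
      obtain ⟨c, h1, h2⟩ := TransGen.head'_iff.1 ih
      rw [Cm.wk_succ, ← h1.1]
      exact TransGen.trans_right h2 hc
  have hper : M.Per 2 g0 := by
    obtain ⟨c, h1, h2⟩ := TransGen.head'_iff.1 hc
    exact ⟨h0, h1.1 ▸ sp_pa h2⟩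
  have hg := sp_pa hs
  have hgood : ∀ y a, M.Pa 2 g y → M.Kd 2 a y → (a = 2 ↔ M.Dd x y) := by
    rintro y a hy ⟨u, h1, h2, h3⟩
    have h4 := (W.per_pa 2 u y h1 (h2 ▸ Cm.Pa.step _ _)).2
    obtain ⟨c, h5, _⟩ := TransGen.head'_iff.1 (hZ u ((hg.trans hy).trans h4))
    rw [← h3, ← h2, ← h5.1]
    exact h5.2
  have hpg := (W.per_pa 2 g0 g hper hg).1
  have hall : ∀ y, M.Pa 2 g y → (M.Dd x y ↔ M.Kd 2 2 y) := by
    intro y hy
    refine ⟨fun hd => ?_, fun hk => (hgood y 2 hy hk).1 rfl⟩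
    rcases W.kd_ex 2 y (W.per_pa 2 g y hpg hy).1 with h1 | h1
    · exact h1
    · exact absurd ((hgood y _ hy h1).2 hd) (by norm_num)
  refine ⟨⟨hpg, ⟨_, Cm.Pa.step _ _, (hall _ (Cm.Pa.step _ _)).1 h.2.2⟩, g, Cm.Pa.refl _ _, ?_⟩,
    hall⟩
  rcases W.kd_ex 2 g hpg with h1 | h1
  · exact absurd ((hall g (Cm.Pa.refl _ _)).2 h1) h.2.1
  · exact h1

end FWall

open FWall in
theorem fWall : S_Walk → S_Reg → S_Dead → S_Wall := by
  intro hW hR hD M H x g hx h1 h2 h3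
  have W := hW M H
  have R := hR M H
  have D := hD M H x hx
  have hg : Conf M x g := ⟨h1, h2, h3⟩
  rw [or_iff_not_imp_left]
  intro hn
  have hnext : ∀ c, Conf M x c → ReflTransGen (Sp M x) c g →
      ∃ c', Conf M x c' ∧ TransGen (Sp M x) c' c := by
    intro c hc hs
    rcases stepW H W R D hc with h | ⟨w, h, h'⟩ | h
    · exact absurd ⟨c, hs, Or.inl ⟨hc.2.1, h, hc.1, hc.2.2⟩⟩ hn
    · exact absurd ⟨w, h.trans hs, Or.inr h'⟩ hn
    · exact h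
  by_contra hcap
  have key : ∀ k c, Conf M x c → ReflTransGen (Sp M x) c g →
      ((Finset.range M.n).filter fun y => TransGen (Sp M x) y c).card ≠ k := by
    intro k
    induction k using Nat.strong_induction_on with
    | _ k ih =>
      intro c hc hs hk
      obtain ⟨c', h4, h5⟩ := hnext c hc hs
      have h6 := h5.to_reflTransGen.trans hs
      refine ih _ ?_ c' h4 h6 rfl
      rw [← hk]
      refine Finset.card_lt_card ⟨fun y hy => ?_, fun h => ?_⟩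
      · rw [Finset.mem_filter] at hy ⊢
        exact ⟨hy.1, hy.2.trans h5⟩
      · have h7 := h (Finset.mem_filter.2
          ⟨Finset.mem_range.2 (H.lt _ (conf_al W D h4)), h5⟩)
        exact hcap (cap W hg (conf_al W D h4) (Finset.mem_filter.1 h7).2 h6)
  exact key _ g hg ReflTransGen.refl rfl

end Pool.Agent.MP_1a6d78_lc.PS

end MrgPart4

-- ======== part 5: formerly Pool.Agent.MP_1a6d78_lc.PS.KSmo
section MrgPart5

/-! PROJECT PSC: the links after a kill. -/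

namespace Pool.Agent.MP_1a6d78_lc.PS

open Classical ED PR GL PL Relation Cm

namespace KSmo

variable {Z : Ks} {w e t : ℕ}

theorem lvwk (D : Z.DeadK) (hw : w = 2 ∨ w = 3) (h : Z.M.Lv Z.M' e) (s : ℕ) :
    Z.M.Lv Z.M' (Z.M.wk w e s) := by
  induction s with
  | zero => exact h
  | succ s ih => rw [wk_succ]; exact (D.lvst hw ih).1

theorem two (H : Z.Hy) (D : Z.DeadK) (hw : w = 2 ∨ w = 3) (h : Z.M.Lv Z.M' e)
    (n : ¬Z.M'.al (Z.M.st w e)) : Z.M.lk (pt e w) = pt (Z.M.st w e) (ep w 2) := by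
  rw [H.ok.lk_pt h.1, not_not.1 fun k => n ((D.lvst hw h).2 k)]

theorem ex (H : Z.Hy) (D : Z.DeadK) (hw : w = 2 ∨ w = 3) (h : Z.M.Lv Z.M' e) :
    ∃ t, Z.M.Nt Z.M' w e t := by
  have k : ∃ t, Z.M'.al (Z.M.wk w e (t + 1)) := by
    by_contra! n
    have a := fun s => two H D hw (lvwk D hw h s) (by rw [← wk_succ]; exact n s)
    simp only [← wk_succ] at a
    have key : ∀ y, Z.M.Rg (4 * e + 2) y → ∃ s, y = 4 * Z.M.wk w e (s + 1) + 2 := by
      intro y hy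
      rcases hw with rfl | rfl
      · have b : ∀ s, Z.M.nr (4 * Z.M.wk 2 e (s + 1) + 2) = 4 * Z.M.wk 2 e s + 2 := fun s => by
          have := congrArg Z.M.lk (a s)
          rw [H.ok.inv] at this
          rw [nr, show r4 (4 * Z.M.wk 2 e (s + 1) + 2) = pt (Z.M.wk 2 e (s + 1)) (ep 2 2) by
            rw [show ep 2 2 = 3 from rfl]; simp only [r4, pt]; omega, ← this]
          rfl
        obtain ⟨t, ht⟩ := Ct.rg_symm H.ok (Ct.rg_trans (Ct.rg_nr _ _) ((b 0).symm ▸ hy))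
        generalize 0 = s at ht
        induction t generalizing s with
        | zero => exact ⟨s, ht⟩
        | succ t ih =>
          rw [Function.iterate_succ_apply', ← b (s + 1)] at ht
          exact ih _ (Ct.nr_inj H.ok ht)
      · have b : ∀ s, Z.M.nr (4 * Z.M.wk 3 e s + 2) = 4 * Z.M.wk 3 e (s + 1) + 2 := fun s => by
          rw [nr, show r4 (4 * Z.M.wk 3 e s + 2) = pt (Z.M.wk 3 e s) 3 by
            simp only [r4, pt]; omega, a s]
          rfl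
        refine Ct.rg_ind (Q := fun y => ∃ s, y = 4 * Z.M.wk 3 e (s + 1) + 2)
          (Ct.rg_trans (Ct.rg_back H.ok _) hy) ⟨0, b 0⟩ ?_
        rintro _ ⟨s, rfl⟩
        exact ⟨s + 1, b _⟩
    obtain ⟨u, hu, k | k⟩ := h.2
    · obtain ⟨s, hs⟩ := key _ k
      exact n s ((show u = Z.M.wk w e (s + 1) by omega) ▸ hu)
    · obtain ⟨s, hs⟩ := key _ k
      omega
  exact ⟨Nat.find k, fun s hs => Nat.find_min k hs, Nat.find_spec k⟩

theorem cv (H : Z.Hy) (D : Z.DeadK) (hw : w = 2 ∨ w = 3) (h : Z.M.Lv Z.M' e)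
    (k : Z.M.Nt Z.M' w e t) :
    Cv Z.M.lk pr0 Z.M'.al (pt e w) (Z.M.lk (pt (Z.M.wk w e t) w)) := by
  induction t generalizing e with
  | zero => exact .stop k.2
  | succ t ih =>
    have n : ¬Z.M'.al (Z.M.st w e) := k.1 0 t.succ_pos
    refine .go n ?_
    rw [two H D hw h n, show pr0 (pt (Z.M.st w e) (ep w 2)) = pt (Z.M.st w e) w by
      rcases hw with rfl | rfl <;> simp only [pr0, pt, ep] <;> split_ifs <;> omega]
    exact ih (D.lvst hw h).1 ⟨fun s hs => k.1 (s + 1) (Nat.succ_lt_succ hs), k.2⟩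

theorem dn (H : Z.Hy) (D : Z.DeadK) (hw : w = 2 ∨ w = 3) (h : Z.M'.al e)
    (k : Z.M.Nt Z.M' w e t) : Z.M'.lk (pt e w) = Z.M.lk (pt (Z.M.wk w e t) w) :=
  (H.smo.lk _ (by rwa [pt_div])).uniq (cv H D hw (D.lv h) k)

theorem same (H : Z.Hy) {p : ℕ} (h : Z.M'.al (p / 4)) (k : Z.M'.al (Z.M.lk p / 4)) :
    Z.M'.lk p = Z.M.lk p := (H.smo.lk _ h).uniq (.stop k)

end KSmo

open KSmo in
theorem smoS : SmoS := by
  intro Z H D
  refine ⟨ex H D, dn H D, same H, fun {i q t} hi hq n k => ?_, fun {w c} hw hc => ?_,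
    fun {i c} hi hc n => ?_⟩
  · obtain ⟨b1, b2⟩ := D.bnd hi hq n
    refine (H.smo.lk _ (by rwa [pt_div])).uniq (.go n ?_)
    rw [H.ok.lk_pt ((H.smo.al q).1 hq).1, b1,
      show pr0 (pt (Z.M.st i q) (ep i (hs i))) = pt (Z.M.st i q) (2 + i) by
        obtain rfl | rfl : i = 0 ∨ i = 1 := by omega
        · rw [show ep 0 (hs 0) = 3 from rfl]; simp only [pr0, pt]; split_ifs <;> omega
        · rw [show ep 1 (hs 1) = 2 from rfl]; simp only [pr0, pt]; split_ifs <;> omega]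
    exact cv H D (by omega) b2 k
  · choose! N hN using fun e (h : Z.M'.al e) => ex H D hw (D.lv h)
    obtain ⟨u, u0, u1⟩ : ∃ u : ℕ → ℕ, u 0 = 0 ∧ ∀ t, u (t + 1) = u t + (N (Z.M.wk w c (u t)) + 1) :=
      ⟨fun t => Nat.rec 0 (fun _ a => a + (N (Z.M.wk w c a) + 1)) t, rfl, fun _ => rfl⟩
    have a : ∀ t, Z.M'.al (Z.M.wk w c (u t)) ∧ Z.M'.wk w c t = Z.M.wk w c (u t) := fun t => by
      induction t with
      | zero => rw [u0]; exact ⟨hc, rfl⟩
      | succ t ih =>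
        rw [u1, wk_add]
        refine ⟨(hN _ ih.1).2, ?_⟩
        rw [wk_succ, wk_succ, ih.2, Cm.st, dn H D hw ih.1 (hN _ ih.1)]
        rfl
    refine ⟨u, strictMono_nat_of_lt_succ fun t => by rw [u1]; omega, u0, fun t => ⟨(a t).2, ?_⟩,
      fun s h => ?_⟩
    · rw [(a t).2, ss, dn H D hw (a t).1 (hN _ (a t).1), u1, ← add_assoc, Nat.add_sub_cancel, wk_add]
      rfl
    · obtain ⟨t, h1, h2⟩ : ∃ t, u t ≤ s ∧ s < u (t + 1) := by
        clear h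
        induction s with
        | zero => exact ⟨0, u0.le, by rw [u1]; omega⟩
        | succ s ih =>
          obtain ⟨t, h1, h2⟩ := ih
          by_cases k : s + 1 < u (t + 1)
          · exact ⟨t, by omega, k⟩
          · exact ⟨t + 1, by omega, by rw [u1 (t + 1)]; omega⟩
      refine ⟨t, by_contra fun k => ?_⟩
      obtain ⟨r, rfl⟩ : ∃ r, s = u t + (r + 1) := ⟨s - u t - 1, by omega⟩
      rw [wk_add] at h
      exact (hN _ (a t).1).1 r (by rw [u1] at h2; omega) h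
  · have a : ∀ t, Z.M'.al (Z.M.wk i c t) := fun t => (H.smo.al _).2 ⟨H.ok.al_wk i hc t,
      fun ⟨x, hx, k⟩ => n x hx ((Pa.wk i c t).trans (D.pa hx hi k)).co⟩
    have b : ∀ t, Z.M'.lk (pt (Z.M.wk i c t) i) = Z.M.lk (pt (Z.M.wk i c t) i) := fun t =>
      same H (by rw [pt_div]; exact a t) (by have := a (t + 1); rwa [wk_succ] at this)
    refine fun t => ⟨a t, ?_, by rw [ss, b]; rfl⟩
    induction t with
    | zero => rfl
    | succ t ih => rw [wk_succ, wk_succ, ih, Cm.st, b]; rfl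

end Pool.Agent.MP_1a6d78_lc.PS

end MrgPart5

-- ======== part 6: formerly Pool.Agent.MP_1a6d78_lc.PS.KWall
section MrgPart6

/-! PROJECT PSC, row WALL: a surviving candidate on the other wall of a hugged face. -/

namespace Pool.Agent.MP_1a6d78_lc.PS

open Classical ED PR GL Relation Cm

noncomputable section

namespace KW

theorem ti_refl (M : Cm) (i a u : ℕ) : M.Ti i a u u :=
  ⟨0, rfl, fun _ h => absurd h (Nat.not_lt_zero _)⟩

theorem ti_trans {M : Cm} {i a u v w : ℕ} (h : M.Ti i a u v) (k : M.Ti i a v w) :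
    M.Ti i a u w := by
  obtain ⟨s, rfl, h⟩ := h
  obtain ⟨t, rfl, k⟩ := k
  refine ⟨s + t, wk_add _ _ _ _, fun r hr => ?_⟩
  rcases lt_or_ge r s with u1 | u1
  · exact h r u1
  · obtain ⟨r, rfl⟩ := Nat.exists_eq_add_of_le u1
    rw [wk_add]
    exact k r (by omega)

theorem ti_one {M : Cm} {i a u : ℕ} (h : M.ss i u = a) : M.Ti i a u (M.st i u) :=
  ⟨1, rfl, fun s k => by rw [show s = 0 by omega]; exact h⟩

theorem ti_pa {M : Cm} {i a u v : ℕ} (h : M.Ti i a u v) : M.Pa i u v :=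
  let ⟨t, e, _⟩ := h; ⟨t, e⟩

theorem ti_al {M : Cm} (H : M.Ok) {i a u v : ℕ} (hu : M.al u) (h : M.Ti i a u v) : M.al v :=
  (ti_pa h).al H hu

/-- One hugging step, reversed. -/
theorem rv {M : Cm} (H : M.Ok) {i a : ℕ} (hi : i < 2) (ha : M.al a) (e : M.ss i a = hs i) :
    M.st (3 - i) (M.st i a) = a ∧ M.ss (3 - i) (M.st i a) = hs i := by
  have k : M.lk (pt (M.st i a) (3 - i)) = pt a i := by
    have := congrArg M.lk (H.lk_pt (i := i) ha)
    rw [H.inv, e] at this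
    rw [this]
    rcases (by omega : i = 0 ∨ i = 1) with rfl | rfl <;> rfl
  refine ⟨(congrArg (· / 4) k).trans (pt_div _ _), (congrArg (sd (3 - i)) k).trans ?_⟩
  unfold sd
  rw [pt_mod]
  rcases (by omega : i = 0 ∨ i = 1) with rfl | rfl <;> rfl

theorem rev {M : Cm} (F : M.FlowK) {i u v : ℕ} (hi : i < 2) (hu : M.al u)
    (h : M.Ti i (hs i) u v) : M.Ti (3 - i) (hs i) v u := by
  have := F.rev i (by omega) (hs i) u v hu
    (by rcases (by omega : i = 0 ∨ i = 1) with rfl | rfl <;> decide) h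
  rcases (by omega : i = 0 ∨ i = 1) with rfl | rfl <;> exact this

variable {Z : Ks}

theorem not_al (H : Z.Hy) {x c : ℕ} (hx : Z.X x) (d : Z.M.Dd x c) : ¬Z.M'.al c :=
  fun k => ((H.smo.al c).1 k).2 ⟨x, hx, d⟩

theorem old_al (H : Z.Hy) {c : ℕ} (k : Z.M'.al c) : Z.M.al c := ((H.smo.al c).1 k).1

/-- The last survivor of a hugging path. -/
theorem last (H : Z.Hy) (D : Z.DeadK) (S : Z.SmoK) {i x : ℕ} (hi : i < 2) (hx : Z.X x) (t : ℕ) :
    ∀ g, Z.M'.al g → (∀ s < t, Z.M.ss i (Z.M.wk i g s) = hs i) → Z.M.Dd x (Z.M.wk i g t) →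
      ∃ q, Z.M'.al q ∧ Z.M'.Ti i (hs i) g q ∧ Z.M.Dd x (Z.M.st i q) := by
  induction t with
  | zero => exact fun g hg _ d => absurd hg (not_al H hx d)
  | succ t ih =>
    intro g hg h d
    by_cases k : Z.M'.al (Z.M.st i g)
    · obtain ⟨q, q1, q2, q3⟩ := ih _ k (fun s u => h (s + 1) (by omega)) d
      have e : Z.M'.lk (pt g i) = Z.M.lk (pt g i) := S.same (by rwa [pt_div]) k
      have e1 : Z.M'.st i g = Z.M.st i g := congrArg (· / 4) e
      have e2 : Z.M'.ss i g = hs i := (congrArg (sd i) e).trans (h 0 (by omega))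
      exact ⟨q, q1, ti_trans (ti_one e2) (e1 ▸ q2), q3⟩
    · have a := H.ok.al_st i (old_al H hg)
      obtain ⟨y, hy, dy⟩ : Z.M.Dead Z.X (Z.M.st i g) :=
        by_contra fun u => k ((H.smo.al _).2 ⟨a, u⟩)
      have p : Z.M.Pa i (Z.M.st i g) x := Pa.trans ⟨t, rfl⟩ (D.pa hx hi d)
      have := D.uniq hx hy hi p.co (D.pa hy hi dy).co
      exact ⟨g, hg, ti_refl _ _ _ _, this ▸ dy⟩

/-- A hop needs a saddle. -/
theorem hop (H : Z.Hy) (D : Z.DeadK) (S : Z.SmoK) {i q : ℕ} (hi : i < 2) (hq : Z.M'.al q)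
    (k : ¬Z.M'.al (Z.M.st i q)) (p : Z.M.Prb (Z.M'.lk (pt q i))) (e : Z.M'.ss i q ≠ hs i) :
    Z.M.Prb (pt q i) := by
  obtain ⟨b1, b2⟩ := D.bnd hi hq k
  have hw : 2 + i = 2 ∨ 2 + i = 3 := by omega
  obtain ⟨t, ht⟩ := S.ex hw b2
  have u := S.up hi hq k ht
  have run : ∀ s ≤ t, Z.M.Lv Z.M' (Z.M.wk (2 + i) (Z.M.st i q) s) ∧
      Z.M.Rg (pt q 0) (pt (Z.M.wk (2 + i) (Z.M.st i q) s) 2) := by
    intro s
    induction s with
    | zero =>
      refine fun _ => ⟨b2, ?_⟩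
      have := H.fl.rg2 i (by omega) q (old_al H hq)
      rw [b1] at this
      rcases (by omega : i = 0 ∨ i = 1) with rfl | rfl <;> exact this
    | succ s ih =>
      intro hs
      obtain ⟨l1, l2⟩ := ih (by omega)
      obtain ⟨m1, m2⟩ := D.lvst hw l1
      rw [wk_succ]
      have e2 : Z.M.ss (2 + i) (Z.M.wk (2 + i) (Z.M.st i q) s) = 2 :=
        by_contra fun v => ht.1 s (by omega) (by rw [wk_succ]; exact m2 v)
      have := H.fl.rg1 (2 + i) (by omega) _ l1.1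
      rw [e2] at this
      exact ⟨m1, Ct.rg_trans l2 this⟩
  obtain ⟨l1, l2⟩ := run t le_rfl
  rw [u, H.fl.plk, H.fl.psad _ (by omega)] at p
  rw [H.fl.psad _ (by omega), b1]
  have e3 : os (2 + i) (Z.M.ss (2 + i) (Z.M.wk (2 + i) (Z.M.st i q) t)) = 2 := by
    have c := H.ok'.par (pt q i) (by rwa [pt_div])
    unfold ss at e ⊢
    rw [← u]
    rcases (by omega : i = 0 ∨ i = 1) with rfl | rfl
    · rw [show hs 0 = 3 from rfl] at e
      unfold sd os pt at *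
      split_ifs at e ⊢ <;> omega
    · rw [show hs 1 = 1 from rfl] at e
      unfold sd os pt at *
      split_ifs at e ⊢ <;> omega
  rw [e3] at p
  obtain ⟨-, y, y', s1, s2, s3⟩ := p
  have e4 : os i (hs i) = 0 := by rcases (by omega : i = 0 ∨ i = 1) with rfl | rfl <;> rfl
  rw [e4]
  exact ⟨old_al H hq, y, y', Ct.rg_trans l2 s1, Ct.rg_trans l2 s2, s3⟩

theorem src_al (H : Z.Hy) {x d : ℕ} (hx : Z.X x) (h : Z.M.Src x d) : Z.M.al d := by
  rcases h with rfl | ⟨p, h, rfl⟩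
  exacts [(H.fam.top _ hx).1, h.1.1]

/-- A new cycle all of whose passages hug carries a candidate. -/
theorem cyc (H : Z.Hy) (D : Z.DeadK) (S : Z.SmoK) (W : Z.DownK) (R : Z.RunK) (A : Z.AscK)
    {i x u q : ℕ} (hi : i < 2) (hx : Z.X x) (hu : Z.M'.al u) (e : Z.M'.ss i u = hs i)
    (c : Z.M'.Ti i (hs i) (Z.M'.st i u) u) (hq : Z.M'.Ti i (hs i) u q)
    (d : Z.M.Dd x (Z.M.st i q)) :
    ∃ b, Z.M.Cand Z.En x b ∧ Z.M'.al b ∧ Z.M'.Ti (3 - i) (hs i) b u := by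
  have hw : 3 - i = 2 ∨ 3 - i = 3 := by omega
  have eh : hs (3 - i) = hs i := by rcases (by omega : i = 0 ∨ i = 1) with rfl | rfl <;> rfl
  -- the cells of the new cycle
  have C1 : ∀ a, Z.M'.Ti i (hs i) u a → ∃ a', Z.M'.Ti i (hs i) u a' ∧ Z.M'.ss i a' = hs i ∧
      Z.M'.st i a' = a := by
    intro a h
    obtain ⟨t, rfl, k⟩ := ti_trans c h
    refine ⟨Z.M'.wk i u t, ⟨t, rfl, fun s hs => ?_⟩, ?_, (wk_succ _ _ _).symm⟩
    · cases s with
      | zero => exact e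
      | succ s => exact k s (by omega)
    · cases t with
      | zero => exact e
      | succ t => exact k t (by omega)
  have C2 : ∀ a, Z.M'.Ti i (hs i) u a → Z.M'.Ti i (hs i) u (Z.M'.st (3 - i) a) ∧
      Z.M'.ss (3 - i) a = hs i := by
    intro a h
    obtain ⟨a', h1, h2, rfl⟩ := C1 a h
    obtain ⟨r1, r2⟩ := rv H.ok' hi (ti_al H.ok' hu h1) h2
    exact ⟨r1.symm ▸ h1, r2⟩
  have C3 : ∀ s, Z.M'.Ti i (hs i) u (Z.M'.wk (3 - i) u s) := by
    intro s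
    induction s with
    | zero => exact ti_refl _ _ _ _
    | succ s ih => rw [wk_succ]; exact (C2 _ ih).1
  have per : Z.M.Per (3 - i) u :=
    (W.per hw hu).1 ⟨hu, ti_pa (rev H.fl' hi hu (C2 u (ti_refl _ _ _ _)).1)⟩
  have aq := ti_al H.ok' hu hq
  have nq := not_al H hx d
  have co : Z.M.Co (3 - i) (Z.M.st i q) u := by
    have r1 := (rv H.ok hi (old_al H aq) (D.bnd hi aq nq).1).1
    have p1 : Z.M.Pa (3 - i) (Z.M.st i q) q := ⟨1, r1⟩
    exact (p1.trans ((W.pa hw aq).1 (ti_pa (rev H.fl' hi hu hq))).1).co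
  obtain ⟨d', s1, s2⟩ := A.one hw hx (H.ok.al_st i (old_al H aq))
    (D.pa hx (by omega : 3 - i - 2 < 2) d).co
  have ad := src_al H hx s1
  have pe := H.nm.per (3 - i) (by omega) d' ad
  have pu : Z.M.Pa (3 - i) (Z.En (3 - i) d') u :=
    ((H.nm.pa (3 - i) (by omega) d' ad).co.symm.trans (s2.trans co)).pa H.ok per
  obtain ⟨v, -, v0, v1, -⟩ := S.idx hw hu
  have k1 : Z.M.ss (3 - i) (Z.M.wk (3 - i) u (v (0 + 1) - 1)) = hs (3 - i) := by
    rw [← (v1 0).2, eh]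
    exact (C2 _ (C3 0)).2
  have lt : Z.M.FE (3 - i) (Z.En (3 - i) d') (hs (3 - i)) < Z.M.n := by
    obtain ⟨t, ht⟩ := pu.trans (Pa.wk (3 - i) u (v (0 + 1) - 1))
    rcases FE_le H.ok (3 - i) (Z.En (3 - i) d') (hs (3 - i)) with k | k
    · exact absurd (ht ▸ k1) ((FE_none H.ok pe.1).1 k t)
    · exact H.ok.lt _ k
  obtain ⟨-, t, f1, f2, -⟩ := FE_spec H.ok lt
  have kd : Z.M.Kd (3 - i) (hs (3 - i)) (Z.M.FE (3 - i) (Z.En (3 - i) d') (hs (3 - i))) :=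
    ⟨_, (pe.pa H.ok (Pa.wk _ _ t)).1, by rw [f1, wk_succ], f2⟩
  have ab : Z.M'.al (Z.M.FE (3 - i) (Z.En (3 - i) d') (hs (3 - i))) :=
    (H.smo.al _).2 ⟨(kd.per H.ok).1, fun ⟨y, hy, dy⟩ => R.ring hw hy kd dy⟩
  refine ⟨_, Or.inr ⟨3 - i, d', hw, s1, rfl, lt⟩, ab, rev H.fl' hi hu ?_⟩
  obtain ⟨s, hs⟩ := (W.pa hw hu).2 ⟨(pe.pa H.ok pu).2.trans ⟨t + 1, f1.symm⟩, ab⟩
  exact hs ▸ C3 s

theorem one (H : Z.Hy) (D : Z.DeadK) (S : Z.SmoK) (W : Z.DownK) (R : Z.RunK) (A : Z.AscK)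
    {i x g : ℕ} (hi : i < 2) (hx : Z.X x) (hg : Z.M'.al g) (h : Z.M.Hug i x g) :
    ∃ b, Z.M.Cand Z.En x b ∧ Z.M'.al b ∧ Z.M'.Ti (3 - i) (hs i) b g := by
  by_contra nb
  obtain ⟨u, ⟨u1, ⟨d, ⟨t, rfl, u2⟩, u3⟩, u4⟩, cy⟩ := H.fl'.back
    (fun g => Z.M'.al g ∧ Z.M.Hug i x g ∧
      ¬∃ b, Z.M.Cand Z.En x b ∧ Z.M'.al b ∧ Z.M'.Ti (3 - i) (hs i) b g)
    (fun b a => Z.M'.ss i a = hs i ∧ Z.M'.Ti i (hs i) (Z.M'.st i a) b) (by
      rintro a ⟨a1, ⟨d, ⟨t, rfl, a2⟩, a3⟩, a4⟩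
      refine ⟨H.ok'.lt _ a1, ?_⟩
      obtain ⟨q, q1, q2, q3⟩ := last H D S hi hx t a a1 a2 a3
      have nq := not_al H hx q3
      have au := H.ok'.al_st i q1
      rcases (R.gcase hi hx q1 q3).2 with l | ⟨l1, l2⟩
      · by_cases e : Z.M'.ss i q = hs i
        · exact absurd ⟨Z.M'.st i q, Or.inl ⟨_, l, rfl⟩, au,
            rev H.fl' hi a1 (ti_trans q2 (ti_one e))⟩ a4
        · refine absurd ⟨q, Or.inl ⟨pt q i, ⟨hop H D S hi q1 nq l.1 e, Or.inr ?_⟩,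
            (pt_div _ _).symm⟩, q1, rev H.fl' hi a1 q2⟩ a4
          have c := H.ok.par (pt q i) (by rw [pt_div]; exact old_al H q1)
          rw [show (Z.M.lk (pt q i) + 1) % 2 = i by unfold pt at c ⊢; omega]
          exact (D.pa hx hi q3).co
      · have ti := ti_trans q2 (ti_one l1)
        refine ⟨Z.M'.st i q, ⟨au, l2, fun ⟨b, b1, b2, b3⟩ =>
          a4 ⟨b, b1, b2, ti_trans b3 (rev H.fl' hi a1 ti)⟩⟩, ?_⟩
        obtain ⟨s, rfl, k⟩ := q2
        cases s with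
        | zero => exact ⟨l1, ti_refl _ _ _ _⟩
        | succ s =>
          exact ⟨k 0 (by omega),
            ti_trans ⟨s, rfl, fun r hr => k (r + 1) (by omega)⟩ (ti_one l1)⟩) ⟨g, hg, h, nb⟩
  have tr : ∀ {a b}, TransGen (fun b a => Z.M'.ss i a = hs i ∧
      Z.M'.Ti i (hs i) (Z.M'.st i a) b) b a → Z.M'.ss i a = hs i ∧
      Z.M'.Ti i (hs i) (Z.M'.st i a) b := by
    intro a b k
    induction k with
    | single k => exact k
    | tail _ k ih => exact ⟨k.1, ti_trans k.2 (ti_trans (ti_one ih.1) ih.2)⟩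
  obtain ⟨q, -, q2, q3⟩ := last H D S hi hx t u u1 u2 u3
  exact u4 (cyc H D S W R A hi hx u1 (tr cy).1 (tr cy).2 q2 q3)

end KW

theorem wallS : WallS := by
  intro Z H D S W R A
  refine ⟨fun hi hx hg h => KW.one H D S W R A hi hx hg h, ?_⟩
  intro w x e hw hx he h e2 a
  rcases (R.cross hw hx he h e2).1 with l | l
  · refine ⟨Z.M.st w e, Or.inl ⟨Z.M.lk (pt e w), ⟨(H.fl.plk _).2 l.1, ?_⟩, rfl⟩, a,
      KW.ti_refl _ _ _ _⟩
    rw [H.ok.inv]
    exact l.2.symm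
  · have := KW.one H D S W R A (by omega : w - 2 < 2) hx a l
    rcases hw with rfl | rfl <;> exact this

end

end Pool.Agent.MP_1a6d78_lc.PS

end MrgPart6

-- ======== part 7: formerly Pool.Agent.MP_1a6d78_lc.PS.KMeet
section MrgPart7

/-! PROJECT PSC: the row MEET. -/

namespace Pool.Agent.MP_1a6d78_lc.PS

open Classical ED PR GL Cm Ct

namespace Meet

section gen

variable {M : Cm} {k a b u v c : ℕ}

theorem p0 (c : ℕ) : pt c 0 = 4 * c := rfl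

theorem p2 (c : ℕ) : pt c 2 = 4 * c + 2 := rfl

theorem s0 (c : ℕ) : M.ss 0 c = 0 ∨ M.ss 0 c = 3 := ss_cases 0 c

theorem s2 (c : ℕ) : M.ss 2 c = 2 ∨ M.ss 2 c = 1 := ss_cases 2 c

theorem s3 (c : ℕ) : M.ss 3 c = 2 ∨ M.ss 3 c = 3 := (ss_cases 3 c).symm

theorem ti_refl (k a u : ℕ) : M.Ti k a u u := ⟨0, rfl, fun _ h => absurd h (Nat.not_lt_zero _)⟩

theorem ti_pa (h : M.Ti k a u v) : M.Pa k u v := let ⟨t, e, _⟩ := h; ⟨t, e⟩

theorem ti_tail (h : M.Ti k a u v) (e : M.ss k v = a) : M.Ti k a u (M.st k v) := by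
  obtain ⟨t, rfl, h⟩ := h
  exact ⟨t + 1, wk_succ _ _ _, fun s hs =>
    (Nat.lt_succ_iff_lt_or_eq.1 hs).elim (h s) fun k => k ▸ e⟩

theorem ti_rg (H : M.Ok) (F : M.FlowK) (hk : k < 4) (hu : M.al u) (h : M.Ti k a u v) :
    M.Rg (pt u a) (pt v a) := by
  obtain ⟨t, rfl, h⟩ := h
  induction t with
  | zero => exact rg_refl _ _
  | succ t ih =>
    have := F.rg1 k hk _ (H.al_wk k hu t)
    rw [h t (Nat.lt_succ_self t), ← wk_succ] at this
    exact rg_trans (ih fun s hs => h s (Nat.lt_succ_of_lt hs)) this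

theorem fe_ti (H : M.Ok) (hu : M.al u) (h : M.Ti k a u v) (e : M.ss k v = b) (n : a ≠ b) :
    M.FE k u b = M.st k v := by
  obtain ⟨t, rfl, h⟩ := h
  rw [FE_eq H hu e fun s hs => h s hs ▸ n, wk_succ]

theorem fe_ex (H : M.Ok) (h : M.FE k u b < M.n) (s : ∀ c, M.ss k c = a ∨ M.ss k c = b) :
    M.al u ∧ ∃ v, M.Ti k a u v ∧ M.ss k v = b ∧ M.FE k u b = M.st k v := by
  obtain ⟨h1, t, h2, h3, h4⟩ := FE_spec H h
  exact ⟨h1, _, ⟨t, rfl, fun r hr => (s _).resolve_right (h4 r hr)⟩, h3, h2.trans (wk_succ _ _ _)⟩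

/-- The step back along a passage by the side 3. -/
theorem back (H : M.Ok) (hc : M.al c) (e : M.ss 0 c = 3) :
    M.st 3 (M.st 0 c) = c ∧ M.ss 3 (M.st 0 c) = 3 := by
  have h := H.lk_pt (i := 0) hc
  rw [e] at h
  have k : M.lk (pt (M.st 0 c) 3) = 4 * c := (congrArg M.lk h).symm.trans (H.inv _)
  unfold Cm.ss
  rw [Cm.st, k]
  exact ⟨by omega, if_pos (by omega)⟩

theorem r03 (F : M.FlowK) (hc : M.al c) (e : M.ss 0 c = 3) : M.Rg (4 * c) (4 * M.st 0 c + 2) := by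
  have := F.rg2 0 (by omega) c hc
  rwa [e] at this

theorem up_rg (H : M.Ok) (F : M.FlowK) (h : M.FE 0 u 3 < M.n) :
    M.al (M.FE 0 u 3) ∧ M.Rg (4 * u) (4 * M.FE 0 u 3 + 2) := by
  obtain ⟨hu, v, h1, h2, h3⟩ := fe_ex H h s0
  have hv := (ti_pa h1).al H hu
  rw [h3]
  exact ⟨H.al_st 0 hv, rg_trans (ti_rg H F (by omega) hu h1) (r03 F hv h2)⟩

theorem nr_back {Q : ℕ → Prop} (h : ∀ l, Q (M.nr l) → Q l) {x y : ℕ} (r : M.Rg x y) (q : Q y) :
    Q x := by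
  obtain ⟨t, rfl⟩ := r
  induction t generalizing x with
  | zero => exact q
  | succ t ih => exact h _ (ih q)

end gen

variable {Z : Ks} (G : Z.G1) {x c u b q w : ℕ}

include G

theorem al0 (h : Z.M'.al c) : Z.M.al c := ((G.hy.smo.al c).1 h).1

theorem nd (h : Z.M'.al c) (hx : Z.X x) : ¬Z.M.Dd x c := fun k =>
  ((G.hy.smo.al c).1 h).2 ⟨x, hx, k⟩

theorem dd (hx : Z.X x) (h : Z.M.al c) (n : ¬Z.M'.al c) (k : Z.M.Co 0 c x) : Z.M.Dd x c := by
  obtain ⟨y, hy, d⟩ : Z.M.Dead Z.X c := by_contra fun e => n ((G.hy.smo.al c).2 ⟨h, e⟩)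
  rwa [G.dead.uniq hx hy (by omega) k (G.dead.pa hy (by omega) d).co]

theorem al_pa (h : Z.M.al c) (k : Z.M.Pa 0 c b) (hb : Z.M'.al b) : Z.M'.al c := by
  refine (G.hy.smo.al c).2 ⟨h, fun ⟨x, hx, d⟩ => nd G hb hx ?_⟩
  obtain ⟨t, rfl⟩ := k
  exact iter_inv (Q := Z.M.Dd x) (fun _ k => G.dead.st hx (by omega) k) d t

theorem lv_wk (hw : w = 2 ∨ w = 3) (h : Z.M.Lv Z.M' c) (t : ℕ) : Z.M.Lv Z.M' (Z.M.wk w c t) :=
  iter_inv (Q := Z.M.Lv Z.M') (fun _ k => (G.dead.lvst hw k).1) h t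

theorem side (hw : w = 2 ∨ w = 3) (h : Z.M.Lv Z.M' c) (t : ℕ)
    (n : ¬Z.M'.al (Z.M.wk w c (t + 1))) : Z.M.ss w (Z.M.wk w c t) = 2 :=
  by_contra fun e => n (wk_succ w c t ▸ (G.dead.lvst hw (lv_wk G hw h t)).2 e)

theorem ex (s : ℕ) (hx : Z.X x) (hc : Z.M'.al c) (k : Z.M.Co 0 c x) :
    ∃ b, Z.M.Cand Z.En x b ∧ Z.M'.al b ∧ Z.M.Mt c s b := by
  have H := G.hy.ok
  obtain ⟨T, hT⟩ := k.pa H (G.dead.per hx (by omega))
  have e : ∃ t, ¬Z.M'.al (Z.M.wk 0 c (t + 1)) := by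
    cases T with
    | zero => exact absurd (.top (rg_refl _ _)) (nd G (hT ▸ hc) hx)
    | succ T => exact ⟨T, fun a => nd G (hT ▸ a) hx (.top (rg_refl _ _))⟩
  have a1 := Nat.find_spec e
  have a2 : Z.M'.al (Z.M.wk 0 c (Nat.find e)) := by
    rcases Nat.eq_zero_or_eq_succ_pred (Nat.find e) with a | a
    · rwa [a]
    · rw [a]
      exact not_not.1 (Nat.find_min e (by omega))
  generalize Nat.find e = t at a1 a2
  have co := (Pa.wk 0 c (t + 1)).co.symm.trans k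
  rw [wk_succ] at a1 co
  have a3 : Z.M.ss 0 (Z.M.wk 0 c t) = 3 := (G.dead.bnd (by omega) a2 a1).1
  obtain ⟨b, b1, b2, j, b3, b4⟩ := G.wall.one (i := 0) (by omega) hx a2
    ⟨_, ti_tail (ti_refl _ _ _) a3, dd G hx (H.al_st 0 (al0 G a2)) a1 co⟩
  refine ⟨b, b1, b2, ?_⟩
  cases j with
  | zero => exact Or.inl ⟨t, b3.symm⟩
  | succ j =>
    obtain ⟨⟨-, n⟩ | ⟨i, i1, i2⟩, -⟩ := (G.down.pw (s := 2) (Or.inr rfl) b2).1
      (Or.inr ⟨j, b3, b4 j (Nat.lt_succ_self j)⟩)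
    · exact absurd n (by decide)
    obtain ⟨r1, r2⟩ := back H (al0 G a2) a3
    have i3 : Z.M.wk 3 b i = Z.M.st 0 (Z.M.wk 0 c t) :=
      H.st_inj (H.al_wk 3 (al0 G b2) i) (H.al_st 0 (al0 G a2))
        (((wk_succ _ _ _).symm.trans i1).trans r1.symm) (i2.trans r2.symm)
    cases i with
    | zero => exact absurd (i3 ▸ b2) a1
    | succ i =>
      exact Or.inr ⟨_, Or.inr ⟨t, wk_succ _ _ _, a3⟩,
        Or.inr ⟨i, i3, side G (Or.inr rfl) (G.dead.lv b2) i (i3 ▸ a1)⟩⟩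

theorem al (hc : Z.M.al c) (hb : Z.M'.al b) (k : Z.M.Mt c 0 b) : Z.M'.al c := by
  obtain k | ⟨r, ⟨-, n⟩ | ⟨t, rfl, a⟩, ⟨-, n⟩ | ⟨j, e, -⟩⟩ := k
  · exact al_pa G hc k hb
  · exact absurd n (by decide)
  · exact absurd n (by decide)
  · exact absurd n (by decide)
  obtain ⟨r1, r2⟩ := back G.hy.ok (G.hy.ok.al_wk 0 hc t) a
  have := (G.dead.lvst (Or.inr rfl) (lv_wk G (Or.inr rfl) (G.dead.lv hb) (j + 1))).2
  rw [e, wk_succ, r1, r2] at this
  exact al_pa G hc (Pa.wk _ _ _) (this (by decide))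

theorem rk (ρ : ℕ → ℕ) (hx : Z.X x) (hρ : ∀ c u, Z.M.Dd x c →
    (Z.M.Rg (4 * c) (4 * u) → ρ u = ρ c) ∧ (Z.M.Rg (4 * c) (4 * u + 2) → ρ u < ρ c))
    (hu : Z.M.Dd x u) (h : Z.M.FE 0 u 3 < Z.M.n) (hb : Z.M.al b)
    (k : Z.M.Mt (Z.M.FE 0 u 3) 3 b) : Z.M.Dd x b ∧ ρ b < ρ u := by
  have H := G.hy.ok
  have F := G.hy.fl
  have al : ∀ {c}, Z.M.Dd x c → Z.M.al c := dd_al H (G.hy.fam.top x hx).1
  obtain ⟨-, r0⟩ := up_rg H F h
  generalize Z.M.FE 0 u 3 = y at r0 k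
  have w : ∀ t, Z.M.Dd x (Z.M.wk 0 y t) ∧ ρ (Z.M.wk 0 y t) < ρ u := fun t =>
    iter_inv (Q := fun c => Z.M.Dd x c ∧ ρ c < ρ u) (fun c k => ⟨G.dead.st hx (by omega) k.1, by
      rcases s0 (M := Z.M) c with e | e
      · have := F.rg1 0 (by omega) c (al k.1)
        rw [e] at this
        exact ((hρ _ _ k.1).1 this).trans_lt k.2
      · exact ((hρ _ _ k.1).2 (r03 F (al k.1) e)).trans k.2⟩)
      ⟨G.dead.inc hx hu r0, (hρ _ _ hu).2 r0⟩ t
  obtain ⟨t, rfl⟩ | ⟨r, k, ⟨-, n⟩ | ⟨j, e, -⟩⟩ := k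
  · exact w t
  · exact absurd n (by decide)
  have key : ∀ j, (∃ o, Z.M.Dd x o ∧ ρ o ≤ ρ u ∧ Z.M.Rg (4 * o) (4 * Z.M.wk 3 b j + 2)) →
      Z.M.Dd x b ∧ ρ b < ρ u := fun j => by
    induction j with
    | zero => exact fun ⟨o, o1, o2, o3⟩ => ⟨G.dead.inc hx o1 o3, ((hρ _ _ o1).2 o3).trans_le o2⟩
    | succ j ih =>
      rintro ⟨o, o1, o2, o3⟩
      rw [wk_succ] at o3
      rcases s3 (M := Z.M) (Z.M.wk 3 b j) with e | e
      · have := F.rg1 3 (by omega) _ (H.al_wk 3 hb j)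
        rw [e] at this
        exact ih ⟨o, o1, o2, rg_trans o3 (rg_symm H this)⟩
      · have := F.rg2 3 (by omega) _ (H.al_wk 3 hb j)
        rw [e] at this
        exact ih ⟨_, G.dead.inc hx o1 o3, (((hρ _ _ o1).2 o3).trans_le o2).le, rg_symm H this⟩
  refine key (j + 1) ?_
  rw [e]
  obtain ⟨rfl, -⟩ | ⟨t, rfl, a⟩ := k
  · exact ⟨u, hu, le_rfl, r0⟩
  · exact ⟨_, (w t).1, (w t).2.le, wk_succ 0 y t ▸ r03 F (al (w t).1) a⟩

theorem hop (h : Z.M.FE 0 u 3 < Z.M.n) : Z.M.FE 2 (Z.M.FE 0 u 3) 1 < Z.M.n ∧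
    Z.M.Rg (4 * u) (4 * Z.M.FE 2 (Z.M.FE 0 u 3) 1) := by
  have H := G.hy.ok
  have F := G.hy.fl
  obtain ⟨hu, v, h1, h2, h3⟩ := fe_ex H h s0
  have k := (F.turn 0 (by omega) v ((ti_pa h1).al H hu)).1
  rw [h2, ← h3] at k
  obtain ⟨hy, e, e1, e2, e3⟩ := fe_ex H k s2
  have r := F.rg2 2 (by omega) e ((ti_pa e1).al H hy)
  rw [e2, ← e3] at r
  exact ⟨k, rg_trans (up_rg H F h).2 (rg_trans (ti_rg H F (by omega) hy e1) r)⟩

theorem step (hx : Z.X x) (hu : Z.M'.al u) (k : Z.M.Co 0 u x) : Z.M.FE 0 u 3 < Z.M.n ∧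
    ((∃ b, Z.M.Cand Z.En x b ∧ Z.M'.al b ∧ Z.M.Mt (Z.M.FE 0 u 3) 3 b) ∨
      (Z.M.Cand Z.En x (Z.M.FE 2 (Z.M.FE 0 u 3) 1) ∧
        ∀ d, Z.M.Ti 2 2 (Z.M.FE 0 u 3) d → Z.M.Dd x d)) := by
  have H := G.hy.ok
  have F := G.hy.fl
  have h : Z.M.FE 0 u 3 < Z.M.n := by
    refine H.lt _ ((FE_le H 0 u 3).resolve_left fun e => nd G hu hx ?_)
    obtain ⟨t, ht⟩ := k.pa H (G.dead.per hx (by omega))
    exact .top (rg_symm H (ti_rg H F (a := 0) (by omega) (al0 G hu)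
      ⟨t, ht, fun s _ => (s0 _).resolve_right ((FE_none H (al0 G hu)).1 e s)⟩))
  refine ⟨h, ?_⟩
  obtain ⟨-, a, h1, h2, h3⟩ := fe_ex H h s0
  have ha := (ti_pa h1).al H (al0 G hu)
  have ha' : Z.M'.al a := (G.hy.smo.al a).2 ⟨ha, fun ⟨y, hy, d⟩ =>
    nd G hu hy (G.dead.rg d (rg_symm H (ti_rg H F (by omega) (al0 G hu) h1)))⟩
  have co := ((ti_pa h1).trans (Pa.step 0 a)).co.symm.trans k
  rw [h3]
  by_cases n : Z.M'.al (Z.M.st 0 a)
  · exact Or.inl (ex G 3 hx n co)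
  have hy := H.al_st 0 ha
  have d := dd G hx hy n co
  have lv := (G.dead.bnd (by omega) ha' n).2
  obtain ⟨t, nt⟩ := G.smo.ex (Or.inl rfl) lv
  have run := G.run.run (Or.inl rfl) hx d lv nt
  have ti : Z.M.Ti 2 2 (Z.M.st 0 a) (Z.M.wk 2 (Z.M.st 0 a) t) :=
    ⟨t, rfl, fun s hs => side G (Or.inl rfl) lv s (nt.1 s hs)⟩
  have hg := wk_succ 2 (Z.M.st 0 a) t ▸ nt.2
  rcases s2 (M := Z.M) (Z.M.wk 2 (Z.M.st 0 a) t) with e | e
  · obtain ⟨b, b1, b2, b3⟩ := G.wall.two (Or.inl rfl) hx (H.al_wk 2 hy t)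
      ⟨_, ti_refl _ _ _, run t le_rfl⟩ e hg
    obtain ⟨i, hi⟩ := ((G.down.pa (Or.inr rfl) b2).1 (ti_pa b3)).1
    obtain ⟨j, j1, j2⟩ := F.rev 2 (by omega) 2 _ _ hy (Or.inl rfl) (ti_tail ti e)
    cases j with
    | zero => exact absurd (j1 ▸ hg) n
    | succ j =>
      refine Or.inl ⟨b, b1, b2, Or.inr ⟨_, Or.inl ⟨rfl, rfl⟩, Or.inr ⟨i + j, ?_, ?_⟩⟩⟩
      · rw [add_assoc, wk_add, hi]
        exact j1
      · rw [wk_add, hi]
        exact j2 j (Nat.lt_succ_self j)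
  · have l := (G.smo.up (i := 0) (by omega) ha' n nt).trans (H.lk_pt (H.al_wk 2 hy t))
    rw [e] at l
    refine Or.inr ⟨?_, ?_⟩
    · rw [fe_ti H hy ti e (by decide)]
      rcases (G.run.gcase (by omega) hx ha' d).2 with g | ⟨g, -⟩
      · exact Or.inl ⟨_, g, by rw [l, pt_div]⟩
      · rw [Cm.ss, l, sd, pt_mod] at g
        exact absurd g (by decide)
    · rintro _ ⟨j, rfl, hj⟩
      exact run j (not_lt.1 fun c => absurd ((hj t c).symm.trans e) (by decide))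

theorem fin (u : ℕ → ℕ) (h : ∀ r, Z.M.FE 0 (u r) 3 < Z.M.n ∧
    u (r + 1) = Z.M.FE 2 (Z.M.FE 0 (u r) 3) 1 ∧
      ∀ d, Z.M.Ti 2 2 (Z.M.FE 0 (u r) 3) d → Z.M.Dd x d) : Z.M.Dd x (u 0) := by
  have H := G.hy.ok
  have F := G.hy.fl
  refine .step ⟨_, (up_rg H F (h 0).1).2⟩ fun v hv => ?_
  have key := nr_back (Q := fun l => ∃ r c, (l = 4 * c ∧ Z.M.Ti 0 0 (u r) c) ∨
    (l = 4 * c + 2 ∧ Z.M.Ti 2 2 (Z.M.FE 0 (u r) 3) c)) (fun l => ?_) (rg_symm H hv)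
    ⟨0, _, Or.inl ⟨rfl, ti_refl _ _ _⟩⟩
  · obtain ⟨r, c, ⟨e, -⟩ | ⟨e, k⟩⟩ := key
    · omega
    · exact (h r).2.2 v ((show c = v by omega) ▸ k)
  have inv : Z.M.lk (Z.M.nr l) = r4 l := H.inv _
  rintro ⟨r, c, ⟨e, k⟩ | ⟨e, k⟩⟩
  · have hu := (FE_spec H (h r).1).1
    have p := H.lk_pt (i := 0) ((ti_pa k).al H hu)
    rw [p0, ← e, inv] at p
    rcases s0 (M := Z.M) c with s | s <;> rw [s] at p
    · exact ⟨r, _, Or.inl ⟨by revert p; unfold r4 pt ep; simp; omega, ti_tail k s⟩⟩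
    · exact ⟨r, _, Or.inr ⟨by
        rw [fe_ti H hu k s (by decide)]; revert p; unfold r4 pt ep; simp; omega, ti_refl _ _ _⟩⟩
  · have hy := (up_rg H F (h r).1).1
    have p := H.lk_pt (i := 2) ((ti_pa k).al H hy)
    rw [p2, ← e, inv] at p
    rcases s2 (M := Z.M) c with s | s <;> rw [s] at p
    · exact ⟨r, _, Or.inr ⟨by revert p; unfold r4 pt ep; simp; omega, ti_tail k s⟩⟩
    · exact ⟨r + 1, _, Or.inl ⟨by
        rw [(h r).2.1, fe_ti H hy k s (by decide)]; revert p; unfold r4 pt ep; simp; omega,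
        ti_refl _ _ _⟩⟩

end Meet

theorem meetS : MeetS := fun _ G =>
  ⟨fun s => Meet.ex G s, Meet.al G, fun ρ => Meet.rk G ρ, Meet.hop G, Meet.step G,
    fun u _ _ => Meet.fin G u⟩

end Pool.Agent.MP_1a6d78_lc.PS

end MrgPart7

-- ======== part 8: formerly Pool.Agent.MP_1a6d78_lc.PS.KStage
section MrgPart8

/-! PROJECT PSC, row KSTAGE: the programs `dq`, `dg`, `tight`, `db`. -/

namespace Pool.Agent.MP_1a6d78_lc.PS

open Classical ED PR GL Cm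

namespace KStage

variable {K : Rn} {M M' : Cm} (H : K.H2 M M')
include H

theorem al_of {c : ℕ} (k : M'.al c) : M.al c := ((H.h1.g1.hy.smo.al c).1 k).1

theorem not_al {x c : ℕ} (hx : K.sel x) (k : M.Dd x c) : ¬M'.al c := fun u =>
  ((H.h1.g1.hy.smo.al c).1 u).2 ⟨x, hx, k⟩

theorem not_al_n : ¬M'.al M.n := fun u => H.h1.hy.ok.not_al_n (al_of H u)

theorem dd_pa {i x c u : ℕ} (hi : i < 2) (hx : K.sel x) (k : M.Dd x c) (p : M.Pa i c u) :
    M.Dd x u := by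
  obtain ⟨t, rfl⟩ := p
  induction t with
  | zero => exact k
  | succ t ih => rw [wk_succ]; exact H.h1.g1.dead.st hx hi ih

theorem lv_wk {w b : ℕ} (hw : w = 2 ∨ w = 3) (hb : M'.al b) (t : ℕ) : M.Lv M' (M.wk w b t) := by
  induction t with
  | zero => exact H.h1.g1.dead.lv hb
  | succ t ih => rw [wk_succ]; exact (H.h1.g1.dead.lvst hw ih).1

/-- After a last survivor comes a cell that dies with `x`. -/
theorem dd_st {i p x u : ℕ} (hi : i < 2) (hp : M.al p) (hx : K.sel x) (c : M.Co i p x)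
    (pu : M.Pa i p u) (k : ¬M'.al (M.st i u)) : M.Dd x (M.st i u) := by
  have h := H.h1.hy.ok
  have a : M.al (M.st i u) := h.al_st i (pu.al h hp)
  obtain ⟨y, hy, d⟩ : M.Dead K.sel (M.st i u) := by_contra fun e =>
    k ((H.h1.g1.hy.smo.al _).2 ⟨a, e⟩)
  have e : x = y := H.h1.g1.dead.uniq hx hy hi c
    ((pu.trans (Pa.step _ _)).trans (H.h1.g1.dead.pa hy hi d)).co
  exact e ▸ d

theorem ls_ex {i p x : ℕ} (hi : i < 2) (hp : M'.al p) (hx : K.sel x) (c : M.Co i p x) :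
    ∃ q, M.Pa i p q ∧ M'.al q ∧ ¬M'.al (M.st i q) := by
  obtain ⟨t, e⟩ := c.pa H.h1.hy.ok (H.h1.g1.dead.per hx hi)
  have d : ¬M'.al (M.wk i p t) := by
    rw [e]; exact not_al H hx (Dd.top (Ct.rg_refl _ _))
  clear e
  induction t with
  | zero => exact absurd hp d
  | succ t ih =>
    by_cases k : M'.al (M.wk i p t)
    · exact ⟨_, Pa.wk _ _ _, k, by rw [← wk_succ]; exact d⟩
    · exact ih k

theorem cq_ex {i p : ℕ} (hi : i < 2) (hp : M'.al p) (ho : K.obj i p < M.n) :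
    ∃ t < 3 * K.nc, M.Pa i p (K.cq i p t) ∧ M'.al (K.cq i p t) ∧ ¬M'.al (M.st i (K.cq i p t)) := by
  have h := H.h1.hy.ok
  have G := H.h1.hy.geo
  have h' : M'.Ok := H.h1.g1.hy.ok'
  obtain ⟨ap, hx, c⟩ := (H.h1.sel.obj hi).1 ⟨rfl, ho⟩
  obtain ⟨q, pq, aq, dq⟩ := ls_ex H hi hp hx c
  have dd := dd_st H hi ap hx c pq dq
  have sq : M.ss i q = hs i := (H.h1.g1.dead.bnd hi aq dq).1
  obtain ⟨b, cb, ab, t0, e0, s0⟩ := H.h1.g1.wall.one hi hx aq
    ⟨M.st i q, ⟨1, rfl, fun s hs => by obtain rfl : s = 0 := by omega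
                                       exact sq⟩, dd⟩
  obtain ⟨t, ht, et⟩ := H.good.gex hx cb ab
  have hw : 3 - i = 2 ∨ 3 - i = 3 := by omega
  have e1 : ep (3 - i) (hs i) = i := by rcases (by omega : i = 0 ∨ i = 1) with rfl | rfl <;> rfl
  have e2 : ep i (hs i) = 3 - i := by rcases (by omega : i = 0 ∨ i = 1) with rfl | rfl <;> rfl
  have e3 : hs i ≠ 0 ∧ hs i ≠ 2 ∧ hs i < 4 := by
    rcases (by omega : i = 0 ∨ i = 1) with rfl | rfl <;> decide
  cases t0 with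
  | zero =>
    have e : K.cq i p t = q := by rw [Rn.cq, if_pos ht, et]; exact e0
    exact ⟨t, by omega, by rw [e]; exact ⟨pq, aq, dq⟩⟩
  | succ t0 =>
    have pw : M.Pw (3 - i) b 2 q (hs i) :=
      ((H.h1.g1.down.pw hw ab).1 (Or.inr ⟨t0, e0, s0 t0 (by omega)⟩)).1
    obtain ⟨t1, f1, f2⟩ := pw.resolve_left fun k => e3.2.1 k.2
    have mb := al_of H ab
    have l1 := h.lk_pt (i := 3 - i) (h.al_wk (3 - i) mb t1)
    rw [← wk_succ, f1, f2, e1] at l1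
    have er : M.st i q = M.wk (3 - i) b t1 := by
      rw [Cm.st, ← l1, h.inv, pt_div]
    have pb : ∃ u < 2, M.Ps (K.P.fu (3 - i) b (hs (3 - i)) u) (M.st i q) 2 := by
      refine (G.fu_ps h _ (by omega) mb _ _).2 ⟨t1, er.symm, ?_⟩
      cases t1 with
      | zero => exact absurd (er ▸ ab) dq
      | succ t1 =>
        rw [sw_succ]
        by_contra k
        exact dq (by rw [er, wk_succ]; exact (H.h1.g1.dead.lvst hw (lv_wk H hw ab t1)).2 k)
    obtain ⟨u, hu, pb⟩ := pb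
    have ew : K.wall (3 - i) (K.obj i p) (2 * t + u) = K.P.fu (3 - i) b (hs (3 - i)) u := by
      rw [Rn.wall, show (2 * t + u) / 2 = t by omega, show (2 * t + u) % 2 = u by omega, et]
    have oA := G.fu_ok h 0 0 (by omega : i < 4) ap
    have oB := G.fu_ok h (hs (3 - i)) u (by omega : 3 - i < 4) mb
    have pA : M.Ps (K.P.fu i p 0 0) (M.st i q) (hs i) := by
      obtain ⟨tq, rfl⟩ := pq
      obtain ⟨v, hv, k⟩ := (G.fu_ps h 0 (by omega : i < 4) ap (M.st i (M.wk i p tq)) (hs i)).2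
        ⟨tq + 1, wk_succ _ _ _, sq⟩
      rcases (by omega : v = 0 ∨ v = 1) with rfl | rfl
      · exact k
      · rw [G.fu1 0 one_ne_zero (by omega) ap,
          rg_ps h (by omega) (G.nm.per i (by omega) p ap)] at k
        obtain ⟨⟨z, z1, z2, z3⟩, -⟩ := k
        have cz : M.Co i z (K.obj i p) :=
          (Pa.step i z).co.trans (z2 ▸ (H.h1.g1.dead.pa hx hi dd).co)
        exact absurd ((H.h1.g1.dead.top hx hi z1 cz).2.symm.trans z3).symm e3.1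
    have ex := F_spec h false (hs i) 2 oA oB
    have lt := ex.lt_iff.2 ⟨_, pA, pb⟩
    obtain ⟨⟨⟨t2, -, r1, r2⟩, r3⟩, r4⟩ := ex.of_lt lt
    have bf : M.Bf _ _ _ := r4 _ ⟨pA, pb⟩
    have ec : K.cq i p (K.nc + (2 * t + u)) = K.P.st (3 - i)
        (M.F false (hs i) 2 (K.P.fu i p 0 0) (K.P.fu (3 - i) b (hs (3 - i)) u)) := by
      rw [Rn.cq, if_neg (by omega), Nat.add_sub_cancel_left, ew, e2,
        G.F false _ _ _ _ e3.2.2 (by omega) e3.2.1 oA.wo oB.wo]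
    generalize M.F false (hs i) 2 (K.P.fu i p 0 0) (K.P.fu (3 - i) b (hs (3 - i)) u) = r at *
    have dr : M.Dd (K.obj i p) r := dd_pa H hi hx dd bf.pa
    cases t2 with
    | zero => exact absurd r2.symm e3.1
    | succ t2 =>
      have r1' : M.st i (M.wk i p t2) = r := (wk_succ _ _ _).symm.trans r1
      have r2' : M.ss i (M.wk i p t2) = hs i := r2
      have l2 := h.lk_pt (i := i) (h.al_wk i ap t2)
      rw [r1', r2', e2] at l2
      have l3 : M.lk (pt r (3 - i)) = pt (M.wk i p t2) i := by rw [← l2, h.inv]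
      have ar : M.al r := r1' ▸ h.al_st i (h.al_wk i ap t2)
      have es : M.st (3 - i) r = M.wk i p t2 := by rw [Cm.st, l3, pt_div]
      obtain ⟨t3, r5, -⟩ := (G.fu_ps h _ (by omega : 3 - i < 4) mb _ _).1 ⟨u, hu, r3⟩
      have aq' : M'.al (M.wk i p t2) := by
        rw [← es]
        refine (H.h1.g1.dead.lvst hw (r5 ▸ lv_wk H hw ab t3)).2 ?_
        show sd (3 - i) (M.lk (pt r (3 - i))) ≠ 2
        rw [l3, sd, pt_mod]
        rcases (by omega : i = 0 ∨ i = 1) with rfl | rfl <;> decide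
      refine ⟨K.nc + (2 * t + u), by omega, ?_⟩
      rw [ec, G.st_al _ ar, es, r1']
      exact ⟨Pa.wk _ _ _, aq', not_al H hx dr⟩

theorem q_ls {i p : ℕ} (hi : i < 2) (hp : M'.al p) (ho : K.obj i p < M.n) :
    M.Pa i p (K.dq i p) ∧ M'.al (K.dq i p) ∧ ¬M'.al (M.st i (K.dq i p)) := by
  have h := H.h1.hy.ok
  have G := H.h1.hy.geo
  obtain ⟨t, ht, c1, c2, c3⟩ := cq_ex H hi hp ho
  obtain ⟨-, d1, d2, d3⟩ := lst_spec (n := 3 * K.nc)
    (P := fun t => K.P.pa K.n i p (K.cq i p t) ∧ K.al' (K.cq i p t) ∧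
      ¬K.al' (K.P.st i (K.cq i p t))) ⟨t, ht, by
        rw [H.h1.hy.n, G.pa_iff h (by omega), H.good.al, G.st_al _ (al_of H c2)]
        exact ⟨⟨al_of H hp, c1⟩, c2, c3⟩⟩
  change K.P.pa K.n i p (K.dq i p) at d1
  change K.al' (K.dq i p) at d2
  change ¬K.al' (K.P.st i (K.dq i p)) at d3
  rw [H.good.al] at d2 d3
  rw [H.h1.hy.n, G.pa_iff h (by omega)] at d1
  rw [G.st_al _ (al_of H d2)] at d3
  exact ⟨d1.2, d2, d3⟩

theorem g_eq {i p : ℕ} (hi : i < 2) (hp : M'.al p) (ho : K.obj i p < M.n) :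
    K.dg i p = M'.lk (pt (K.dq i p) i) := by
  rw [Rn.dg, H.lam.lam, pt_div, if_pos (q_ls H hi hp ho).2.1]

theorem tight_iff {w b g : ℕ} (hw : w = 2 ∨ w = 3) (hb : M'.al b ∨ b = M.n) (hg : M'.al g) :
    K.tight w b g ↔ M'.al b ∧ M'.Ti w (hs w) b g := by
  have h := H.h1.hy.ok
  have G := H.h1.hy.geo
  have h' : M'.Ok := H.h1.g1.hy.ok'
  have en : M'.n = M.n := H.h1.g1.hy.smo.n
  have e3 : hs w ≠ 2 := by rcases hw with rfl | rfl <;> decide
  rw [Rn.tight, H.h1.hy.n, G.pa_iff h (by omega), H.lam.fed hw (by omega) hb]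
  rcases hb with hb | rfl
  swap
  · exact iff_of_false (fun k => h.not_al_n k.1.1) fun k => not_al_n H k.1
  have pa : M'.Pa w b g ↔ M.Pa w b g ∧ M'.al g := H.h1.g1.down.pa hw hb
  constructor
  · rintro ⟨⟨-, p⟩, k⟩
    have o : M'.ok ⟨w, b, hs w, g⟩ := ⟨by show w < 4; omega, hb, pa.2 ⟨p, hg⟩⟩
    obtain ⟨o', ps, -⟩ := H.h1.g1.down.ps (A := ⟨w, b, hs w, g⟩) hw o
    rw [G.On_iff h (by omega) (ok.wo o')] at k
    refine ⟨hb, _, (ln_spec h' o).2.1, fun s hs' => by_contra fun c => k ⟨o', ((ps _ _).1 ?_).1⟩⟩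
    have c2 : M'.ss w (M'.wk w b s) = 2 := by
      have := ss_cases (M := M') w (M'.wk w b s)
      have e4 : hs 2 = 1 ∧ hs 3 = 3 := ⟨rfl, rfl⟩
      rcases hw with rfl | rfl <;> omega
    have lt : M'.FE w b 2 < M'.n :=
      h'.lt _ ((FE_le h' w b 2).resolve_left fun e => (FE_none h' hb).1 e s c2)
    obtain ⟨-, t, t1, t2, t3⟩ := FE_spec h' lt
    have : t ≤ s := not_lt.1 fun u => t3 s u c2
    exact ⟨t + 1, (by omega : t + 1 ≤ M'.ln ⟨w, b, hs w, g⟩), t1.symm, t2⟩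
  · rintro ⟨-, t, t1, t2⟩
    have p : M'.Pa w b g := ⟨t, t1⟩
    have o : M'.ok ⟨w, b, hs w, g⟩ := ⟨by show w < 4; omega, hb, p⟩
    obtain ⟨o', ps, -⟩ := H.h1.g1.down.ps (A := ⟨w, b, hs w, g⟩) hw o
    refine ⟨⟨al_of H hb, (pa.1 p).1⟩, fun k => ?_⟩
    rw [G.On_iff h (by omega) (ok.wo o')] at k
    have a : M'.al (M'.FE w b 2) := (FE_le h' w b 2).resolve_left fun e =>
      h.not_al_n (by rw [← en, ← e]; exact k.2.mem.al h o')
    obtain ⟨s, s1, -, s3⟩ : M'.Ps ⟨w, b, hs w, g⟩ (M'.FE w b 2) 2 := (ps _ _).2 ⟨k.2, a⟩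
    have : M'.ln ⟨w, b, hs w, g⟩ ≤ t := not_lt.1 fun u => (ln_spec h' o).2.2 t u t1
    cases s with
    | zero => exact e3 s3
    | succ s => exact e3 ((t2 s (by omega)).symm.trans s3)

end KStage

open KStage in
theorem stageS : StageS := by
  intro K M M' H
  have h := H.h1.hy.ok
  have h' : M'.Ok := H.h1.g1.hy.ok'
  refine ⟨fun {i p} hi hp ho => ?_, g_eq H, fun {i p} hi hp ho k => ?_, tight_iff H,
    fun {i p} hi hp ho _ => ?_⟩
  all_goals
    obtain ⟨ap, hx, c⟩ := (H.h1.sel.obj hi).1 ⟨rfl, ho⟩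
    obtain ⟨q1, q2, q3⟩ := q_ls H hi hp ho
    have dd := dd_st H hi ap hx c q1 q3
    have gc := (H.h1.g1.run.gcase hi hx q2 dd).2
  · refine ⟨q1, q2, dd, fun pp => not_al H hx (dd_pa H hi hx (Dd.top (Ct.rg_refl _ _))
      (pp.pa h (c.pa h (H.h1.g1.dead.per hx hi))).2) hp⟩
  · rw [Rn.hp, g_eq H hi hp ho] at k
    rw [g_eq H hi hp ho]
    refine Or.inl ⟨_, gc.resolve_right fun u => ?_, rfl⟩
    have : hs i = 0 := u.1.symm.trans k
    rcases (by omega : i = 0 ∨ i = 1) with rfl | rfl <;> exact absurd this (by decide)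
  · have hw : 3 - i = 2 ∨ 3 - i = 3 := by omega
    have e1 : hs (3 - i) = hs i := by rcases (by omega : i = 0 ∨ i = 1) with rfl | rfl <;> rfl
    have eg : K.dg i p / 4 = M'.st i (K.dq i p) := by rw [g_eq H hi hp ho]; rfl
    have ag : M'.al (K.dg i p / 4) := eg ▸ h'.al_st i q2
    obtain ⟨b, cb, ab, tb⟩ : ∃ b, M.Cand K.P.En (K.obj i p) b ∧ M'.al b ∧
        M'.Ti (3 - i) (hs i) b (K.dg i p / 4) := by
      rcases gc with gc | gc
      · exact ⟨_, Or.inl ⟨_, gc, by rw [g_eq H hi hp ho]⟩, ag, 0, rfl, fun _ k => absurd k (by omega)⟩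
      · exact H.h1.g1.wall.one hi hx ag (eg ▸ gc.2)
    obtain ⟨t, ht, et⟩ := H.good.gex hx cb ab
    obtain ⟨d1, d2⟩ := lst_spec (n := K.nc)
      (P := fun t => K.tight (3 - i) (K.gd (K.obj i p) t) (K.dg i p / 4))
      ⟨t, ht, by rw [et, tight_iff H hw (Or.inl ab) ag, e1]; exact ⟨ab, tb⟩⟩
    have ga := H.good.gal hx d1
    change K.tight (3 - i) (K.db i p) _ at d2
    change K.db i p = M.n ∨ (M'.al (K.db i p) ∧ M.Cand _ _ (K.db i p)) at ga
    rw [tight_iff H hw (ga.symm.imp (fun u => u.1) id) ag, e1] at d2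
    exact ⟨(ga.resolve_left fun u => not_al_n H (u ▸ d2.1)).2, d2⟩

end Pool.Agent.MP_1a6d78_lc.PS

end MrgPart8

-- ======== part 9: formerly Pool.Agent.MP_1a6d78_lc.PS.KList
section MrgPart9

/-! PROJECT PSC, row LIST. -/

namespace Pool.Agent.MP_1a6d78_lc.PS

open Classical ED PR GL Cm

namespace KList

variable {K : Rn} {M M' : Cm}

/-- The setting. -/
structure St (K : Rn) (M M' : Cm) : Prop where
  h : K.H3 M M'
  en : K.EnK M M'
  v : (K.ks M M').ValK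
  a : (K.ks M M').AncK
  p : ∀ e, K.P.val e ↔ M.Prb (e / 4) ∧ (e / 4 + e) % 2 = 1
  p' : ∀ e, K.N.val e ↔ M'.Prb (e / 4) ∧ (e / 4 + e) % 2 = 1

theorem own_eq (e : ℕ) : K.N.own e = pt (K.En' (e % 4) (e / 16)) e := rfl

theorem own_div (e : ℕ) : K.N.own e / 4 = K.En' (e % 4) (e / 16) := pt_div _ _

theorem pt_pt (a b e : ℕ) : pt a (pt b e) = pt a e := by unfold pt; omega

namespace St

variable (h : St K M M') {e : ℕ}

include h

theorem ok : M.Ok := h.h.h2.h1.hy.ok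
theorem ok' : M'.Ok := h.h.h2.h1.g1.hy.ok'
theorem n : K.n = M.n := h.h.h2.h1.hy.n
theorem sel : K.SelK M := h.h.h2.h1.sel
theorem nm : M.Nm K.P.En := h.h.h2.h1.hy.geo.nm

theorem al {c : ℕ} (k : M'.al c) : M.al c := ((h.h.h2.h1.g1.hy.smo.al c).1 k).1

theorem lt {c : ℕ} (k : M'.al c) : c < K.n := h.n ▸ h.ok.lt c (h.al k)

theorem val_al (k : K.N.val e) : M'.al (e / 16) := by
  have := ((h.p' e).1 k).1.1
  rwa [Nat.div_div_eq_div_mul] at this

theorem hv_iff {y : ℕ} : K.N.hv y ↔ M'.al (y / 4) ∧ K.En' (y % 4) (y / 4) = y / 4 := by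
  rw [← h.h.h2.good.al]
  rfl

theorem hl {y : ℕ} (k : K.N.hv y) : y < 16 * K.n := by
  have := h.lt (h.hv_iff.1 k).1
  omega

theorem vl (k : K.N.val e) : e < 16 * K.n ∧ K.N.hv (K.N.own e) := by
  have a := h.val_al k
  have := h.lt a
  have i : e % 4 < 4 := Nat.mod_lt _ (by omega)
  refine ⟨by omega, h.hv_iff.2 ?_⟩
  rw [own_div, own_eq, pt_mod]
  exact ⟨h.en.nm.al i a, h.en.nm.idem h.ok' i a⟩

theorem mov {i c : ℕ} (a : M'.al c) (k : K.moved i (K.En' i c)) : K.obj i c = K.obj i (K.En' i c) :=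
  h.en.mov k.1 a (h.n ▸ k.2)

omit h in
theorem ren_eq (k : ¬K.moved (e % 4) (K.En' (e % 4) (e / 16))) :
    K.ren (K.N.own e) = pt (K.P.En (e % 4) (K.En' (e % 4) (e / 16))) e := by
  rw [Rn.ren, own_div, own_eq, pt_mod, if_neg k, pt_pt]

theorem co {i a b : ℕ} (hi : i < 4) (ha : M'.al a) (hb : M'.al b) (ma : ¬K.moved i a)
    (mb : ¬K.moved i b) (k : M.Co i a b) : M'.Co i a b := by
  rcases lt_or_ge i 2 with c | c
  · have fr : ∀ {a}, M'.al a → ¬K.moved i a → ∀ t, M'.wk i a t = M.wk i a t := fun ha ma t =>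
      (h.h.h2.h1.g1.smo.free c (h.al ha) (fun x hx k => ma ⟨c, by
        obtain ⟨k1, k2⟩ := (h.sel.obj c).2 ⟨h.al ha, hx, k⟩
        rwa [k1, h.n]⟩) t).2.1
    obtain ⟨u, ⟨s, k1⟩, t, k2⟩ := k
    exact ⟨u, ⟨s, (fr ha ma s).trans k1⟩, t, (fr hb mb t).trans k2⟩
  · exact (h.h.h2.h1.g1.down.co (by omega) ha hb).2 k

theorem inj {x y : ℕ} (hx : K.N.hv x) (hy : K.N.hv y) (k : K.P.hv (K.ren x))
    (e : K.ren x = K.ren y) : x = y := by
  have nm : ∀ y, K.P.hv (K.ren y) → ¬K.moved (y % 4) (y / 4) := fun y k m => by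
    have k1 := k.1
    rw [Rn.ren, if_pos m, h.h.h2.h1.hy.geo.al] at k1
    have := h.ok.lt _ k1
    have := h.n
    omega
  have mx := nm x k
  have my := nm y (e ▸ k)
  obtain ⟨x1, x2⟩ := h.hv_iff.1 hx
  obtain ⟨y1, y2⟩ := h.hv_iff.1 hy
  rw [Rn.ren, Rn.ren, if_neg mx, if_neg my] at e
  have i : y % 4 < 4 := Nat.mod_lt _ (by omega)
  have e1 : x % 4 = y % 4 := by rw [← pt_mod _ x, e, pt_mod]
  have e2 := congrArg (· / 4) e
  simp only [pt_div] at e2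
  rw [e1] at e2 x2 mx
  have := (h.en.nm.co h.ok' i x1 y1).2
    (h.co i x1 y1 mx my ((h.nm.co h.ok i (h.al x1) (h.al y1)).1 e2))
  omega

/-- The killer of an inserted entry. -/
theorem up (k : K.ins e) : K.up (e / 4) < M.n ∧ K.sel (K.up (e / 4)) ∧
    M.Co ((e / 4 + 1) % 2) (e / 4 / 4) (K.up (e / 4)) := by
  obtain ⟨k1, k2⟩ := (h.p' e).1 k.1
  have i : (e / 4 + 1) % 2 < 2 := Nat.mod_lt _ (by omega)
  suffices s : K.up (e / 4) < M.n from ⟨s, ((h.sel.obj i).1 ⟨rfl, s⟩).2⟩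
  rcases k.2 with m | m
  · rw [Rn.up, show (e / 4 + 1) % 2 = e % 4 by have := m.1; omega, Nat.div_div_eq_div_mul, ← h.n]
    exact m.2
  · obtain ⟨x, x1, -, -, x2⟩ := h.v.val k1 fun c => m ((h.p e).2 ⟨c, k2⟩)
    obtain ⟨c1, c2⟩ := (h.sel.obj i).2 ⟨h.al k1.1, x1, (h.h.h2.h1.g1.dead.hug x1 i x2).co⟩
    rwa [Rn.up, c1]

theorem anc (k : K.ins e) (m : ¬K.moved (e % 4) (K.En' (e % 4) (e / 16))) :
    ∃ t < 4 * K.c, K.P.val (pt (K.links (K.up (e / 4)) t) e) ∧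
      K.P.own (pt (K.links (K.up (e / 4)) t) e) = K.ren (K.N.own e) := by
  obtain ⟨k1, k2⟩ := (h.p' e).1 k.1
  obtain ⟨u1, u2, u3⟩ := h.up k
  have a := h.val_al k.1
  have i : e % 4 < 4 := Nat.mod_lt _ (by omega)
  have a' := h.al (h.en.nm.al i a)
  obtain ⟨q, q1, q2, q3⟩ : ∃ q, M.Lsd (K.up (e / 4)) q ∧ (q + e % 4) % 2 = 1 ∧
      K.P.En (e % 4) (q / 4) = K.P.En (e % 4) (K.En' (e % 4) (e / 16)) := by
    rcases lt_or_ge (e % 4) 2 with c | c
    · rw [show (e / 4 + 1) % 2 = e % 4 by omega, Nat.div_div_eq_div_mul] at u3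
      obtain ⟨q, q1, q2, q3⟩ := h.a.up c u2 a u3 (h.en.nm.pa _ i _ a) fun k => m ⟨c, by
        rwa [((h.sel.obj c).2 ⟨a', u2, k⟩).1, h.n]⟩
      exact ⟨q, q1, q2, (h.nm.co h.ok i q1.1.1 a').2 q3⟩
    · have m' : ¬K.moved (e % 4) (e / 16) := fun k => absurd k.1 (not_lt.2 c)
      obtain ⟨q, q1, q2, q3⟩ := h.a.dn k1 (fun c => k.2.resolve_left m' ((h.p e).2 ⟨c, k2⟩)) u2 u3
      rw [show 2 + (e / 4 + 1) % 2 = e % 4 by omega, Nat.div_div_eq_div_mul] at q3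
      exact ⟨q, q1, by omega, ((h.nm.co h.ok i q1.1.1 (h.al a)).2 q3).trans (h.en.old i a m').symm⟩
  obtain ⟨t, t1, t2⟩ := h.sel.lex u2 q1
  refine ⟨t, t1, ?_⟩
  rw [t2, h.p, pt_div, ren_eq m, ← q3, Pr.own, pt_mod, pt_pt,
    show pt q e / 16 = q / 4 by unfold pt; omega]
  exact ⟨⟨q1.1, by unfold pt; omega⟩, rfl⟩

theorem an_eq (k : K.ins e) (m : ¬K.moved (e % 4) (K.En' (e % 4) (e / 16))) :
    ∃ q, M.Lsd (K.up (e / 4)) q ∧ K.P.val (pt q e) ∧ K.P.own (pt q e) = K.ren (K.N.own e) ∧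
      K.an e = K.P.ld.slot (16 * K.n) (pt q e) := by
  obtain ⟨-, k1, k2⟩ := lst_spec (h.anc k m)
  refine ⟨_, h.sel.lsd (h.up k).2.1 ?_, k1, k2, by rw [Rn.an, own_div, if_neg m]⟩
  have := h.ok.lt _ ((h.p _).1 k1).1.1
  rw [pt_div] at this
  omega

theorem nxp (k : K.ins e) : ∃ t < 12 * K.nc, K.nxp (K.up (e / 4)) t = e / 4 := by
  have k1 := ((h.p' e).1 k.1).1
  obtain ⟨-, u2, u3⟩ := h.up k
  obtain ⟨b, b1, b2, b3⟩ := h.a.cand k1 u2 u3
  obtain ⟨t, t1, t2⟩ := h.h.h2.good.gex u2 b1 b2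
  have s0 : ∀ q, q / 4 = b → K.bp (K.up (e / 4)) (4 * t + q % 4) = q := fun q c => by
    rw [Rn.bp, if_pos (by omega), show (4 * t + q % 4) / 4 = t by omega, t2]
    unfold pt
    omega
  have s1 : ∀ s, K.bp (K.up (e / 4)) s = M'.lk (e / 4) →
      K.nxp (K.up (e / 4)) (2 * s + 1) = e / 4 := fun s c => by
    rw [Rn.nxp, if_neg (by omega), show (2 * s + 1) / 2 = s by omega, c, h.h.h2.lam.lam,
      if_pos (h.ok'.al_lk k1.1), h.ok'.inv]
  rcases b3 with c | c | ⟨w, c1, c⟩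
  · refine ⟨2 * (4 * t + e / 4 % 4), by omega, ?_⟩
    rw [Rn.nxp, if_pos (by omega), Nat.mul_div_cancel_left _ two_pos, s0 _ c]
  · exact ⟨_, by omega, s1 _ (s0 _ c)⟩
  · refine ⟨_, by omega, s1 (4 * K.nc + 2 * t + (w - 2)) ?_⟩
    rw [Rn.bp, if_neg (by omega), show 2 + (4 * K.nc + 2 * t + (w - 2)) % 2 = w by omega,
      show (4 * K.nc + 2 * t + (w - 2) - 4 * K.nc) / 2 = t by omega, t2,
      h.h.h2.lam.fed c1 (by omega) (Or.inl b2)]
    exact c.symm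

theorem nx (k : K.ins e) : ∃ t < 12 * K.nc, K.Nx (K.an e) t = e := by
  obtain ⟨t, t1, t2⟩ := h.nxp k
  refine ⟨t, t1, ?_⟩
  by_cases m : K.moved (e % 4) (K.En' (e % 4) (e / 16))
  · have l := h.hl (h.vl k.1).2
    have p := ((h.p' e).1 k.1).2
    have e1 : K.obj (e % 4) (e / 16) = K.up (e / 4) := by
      rw [Rn.up, show (e / 4 + 1) % 2 = e % 4 by have := m.1; omega, Nat.div_div_eq_div_mul]
    rw [Rn.an, own_div, if_pos m, Rn.Nx, zl_mk _ l, ze_mk _ l, if_pos rfl, own_div, own_eq, pt_mod,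
      ← h.mov (h.val_al k.1) m, e1, t2, pt_pt, pt_eta]
  · obtain ⟨q, q1, q2, -, q4⟩ := h.an_eq k m
    have l : pt q e < 16 * K.n := by
      have := h.ok.lt _ q1.1.1
      have := h.n
      unfold pt
      omega
    rw [q4, Ld.slot, Rn.Nx, zl_mk _ l, ze_mk _ l,
      if_neg (show K.P.ld.cur _ ≠ 0 from h.h.h2.h1.hy.cur _ q2), pt_div,
      h.sel.seen (h.up k).2.1 q1, t2, pt_pt, pt_eta]

end St

end KList

open KList in
theorem listS : ListS := by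
  intro hP K M M' H en v a G
  have h : St K M M' := ⟨H, en, v, a,
    fun e => and_congr_left' (hP M K.P H.h2.h1.hy.ok H.h2.h1.hy.geo _),
    fun e => and_congr_left' (hP M' K.N H.h2.h1.g1.hy.ok' G _)⟩
  refine ⟨fun e => h.vl, fun y => h.hl, fun e k => k.1, fun e k1 k2 => ?_, fun x y => h.inj,
    fun e k => ?_, fun e => h.nx⟩
  · obtain ⟨k3, k4⟩ := not_or.1 fun c => k2 ⟨k1, c⟩
    have b := h.val_al k1
    refine ⟨not_not.1 k4, (St.ren_eq fun m => k3 ⟨m.1, ?_⟩).trans ?_⟩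
    · rw [h.mov b m]
      exact m.2
    · rw [en.old (Nat.mod_lt _ (by omega)) b k3]
      rfl
  · by_cases m : K.moved (e % 4) (K.En' (e % 4) (e / 16))
    · exact Or.inl (show K.an e = _ by rw [Rn.an, own_div, if_pos m]; rfl)
    · obtain ⟨q, -, q2, q3, q4⟩ := h.an_eq k m
      exact Or.inr ⟨_, q2, q3, q4⟩

end Pool.Agent.MP_1a6d78_lc.PS

end MrgPart9

-- marker of a merged file
example : 731051 + 122423 = 731051 + 122423 := rfl
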