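import Pool.Agent.MP_1a6d78_lc.PS.Geo
import Pool.Agent.MP_1a6d78_lc.PS.GTw
import Pool.Agent.MP_1a6d78_lc.PS.Prog
import Pool.Agent.MP_1a6d78_lc.PS.Drop
import Pool.Agent.MP_1a6d78_lc.PS.Tw
import Pool.Agent.MP_1a6d78_lc.PS.KList

-- ======== part 0: formerly Pool.Agent.MP_1a6d78_lc.PS.MPr
section MrgPart0

/-! PROJECT PSC: closure rules for the primitives and the derived programs. -/

namespace Pool.Agent.MP_1a6d78_lc.PS

open Classical ED PR SC GL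

abbrev EB : Type := List Bool → Orc → Env → Bool

abbrev ES : Type := List Bool → Orc → Env → Sg

variable (κ m β : List Bool → ℕ)

def Bv (s : EB) : Prop := Pq κ m β fun x g ρ => s x g ρ = true

structure Sv (A : ES) : Prop where
  i : Nq κ m β fun x g ρ => (A x g ρ).i
  p : Nq κ m β fun x g ρ => (A x g ρ).p
  s : Nq κ m β fun x g ρ => (A x g ρ).s
  q : Nq κ m β fun x g ρ => (A x g ρ).q

/-- The primitives of `P` are computable. -/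
structure PC (P : List Bool → Orc → Env → Pr) : Prop where
  al : ∀ {a : EN}, Nq κ m β a → Pq κ m β fun x g ρ => (P x g ρ).al (a x g ρ)
  lam : ∀ {a : EN}, Nq κ m β a → Nq κ m β fun x g ρ => (P x g ρ).lam (a x g ρ)
  En : ∀ {i a : EN}, Nq κ m β i → Nq κ m β a →
    Nq κ m β fun x g ρ => (P x g ρ).En (i x g ρ) (a x g ρ)
  FE : ∀ {i a b : EN}, Nq κ m β i → Nq κ m β a → Nq κ m β b →
    Nq κ m β fun x g ρ => (P x g ρ).FE (i x g ρ) (a x g ρ) (b x g ρ)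
  F : ∀ {fl : EB} {a b : EN} {A B : ES}, Bv κ m β fl → Nq κ m β a → Nq κ m β b → Sv κ m β A →
    Sv κ m β B → Nq κ m β fun x g ρ => (P x g ρ).F (fl x g ρ) (a x g ρ) (b x g ρ) (A x g ρ) (B x g ρ)
  next : ∀ {a : EN}, Nq κ m β a → Nq κ m β fun x g ρ => (P x g ρ).next (a x g ρ)
  cur : ∀ {a : EN}, Nq κ m β a → Nq κ m β fun x g ρ => (P x g ρ).cur (a x g ρ)
  rs : Nq κ m β fun x g ρ => (P x g ρ).rs

/-- The data of a round are computable, `c` is a constant. -/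
structure KC (c : ℕ) (K : List Bool → Orc → Env → Rn) : Prop where
  P : PC κ m β fun x g ρ => (K x g ρ).P
  n : Nq κ m β fun x g ρ => (K x g ρ).n
  z : Nq κ m β fun x g ρ => (K x g ρ).z
  c : ∀ x g ρ, (K x g ρ).c = c
  q : Nq κ m β fun x g ρ => (K x g ρ).q
  j : Nq κ m β fun x g ρ => (K x g ρ).j
  h : ∀ {a : EN}, Nq κ m β a → Pq κ m β fun x g ρ => (K x g ρ).h (a x g ρ)

variable {κ m β} {n i a b e r : EN} {s t : EB} {A B : ES}

namespace Bv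

theorem dec {P : EP} {i : ∀ x g ρ, Decidable (P x g ρ)} (h : Pq κ m β P) :
    Bv κ m β fun x g ρ => @decide (P x g ρ) (i x g ρ) := Q.cgP h fun _ _ _ => by simp

theorem c (u : Bool) : Bv κ m β fun _ _ _ => u := U.cP _

theorem xor (h : Bv κ m β s) (k : Bv κ m β t) :
    Bv κ m β fun x g ρ => xor (s x g ρ) (t x g ρ) :=
  Q.cgP (Q.not (U.iff h k)) fun x g ρ => by
    show ¬(s x g ρ = true ↔ t x g ρ = true) ↔ (s x g ρ ^^ t x g ρ) = true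
    cases s x g ρ <;> cases t x g ρ <;> simp

theorem not (h : Bv κ m β s) : Bv κ m β fun x g ρ => !s x g ρ :=
  Q.cgP (Q.not h) fun _ _ _ => by simp

end Bv

theorem ptC (ha : Nq κ m β a) (hb : Nq κ m β b) : Nq κ m β fun x g ρ => pt (a x g ρ) (b x g ρ) :=
  Q.add (Q.mul (Q.c 4) ha) (Q.mod hb (Q.c 4))

theorem d4 (ha : Nq κ m β a) : Nq κ m β fun x g ρ => a x g ρ / 4 := Q.div ha (Q.c 4)

theorem m4 (ha : Nq κ m β a) : Nq κ m β fun x g ρ => a x g ρ % 4 := Q.mod ha (Q.c 4)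

theorem a4 (ha : Nq κ m β a) (k : ℕ) : Nq κ m β fun x g ρ => (a x g ρ + k) % 4 :=
  m4 (Q.add ha (Q.c k))

theorem sdC (ha : Nq κ m β a) (hb : Nq κ m β b) : Nq κ m β fun x g ρ => sd (a x g ρ) (b x g ρ) :=
  Q.ite (Q.eq (m4 hb) (a4 ha 1)) (m4 ha) (a4 ha 3)

theorem epC (ha : Nq κ m β a) (hb : Nq κ m β b) : Nq κ m β fun x g ρ => ep (a x g ρ) (b x g ρ) :=
  Q.ite (Q.eq (m4 hb) (m4 ha)) (a4 ha 1) (a4 ha 3)

theorem hsC (ha : Nq κ m β a) : Nq κ m β fun x g ρ => hs (a x g ρ) :=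
  Q.ite (Q.or (Q.eq ha (Q.c 0)) (Q.eq ha (Q.c 3))) (Q.c 3) (Q.c 1)

theorem fpC (ha : Nq κ m β a) (hb : Nq κ m β b) : Nq κ m β fun x g ρ => fp (a x g ρ) (b x g ρ) :=
  Q.ite (Q.lt ha (Q.c 4)) (m4 (Q.add ha hb)) (m4 (Q.sub (Q.add ha (Q.c 4)) (m4 hb)))

theorem fsC (ha : Nq κ m β a) (hb : Nq κ m β b) : Nq κ m β fun x g ρ => fs (a x g ρ) (b x g ρ) :=
  Q.ite (Q.lt ha (Q.c 4)) (m4 (Q.add ha hb)) (m4 (Q.sub (Q.add ha (Q.c 3)) (m4 hb)))

theorem giC (ha : Nq κ m β a) : Nq κ m β fun x g ρ => gi (a x g ρ) :=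
  Q.ite (Q.lt ha (Q.c 4)) (m4 (Q.sub (Q.c 4) ha)) ha

theorem tpC (ha : Nq κ m β a) (hb : Nq κ m β b) : Nq κ m β fun x g ρ => tp (a x g ρ) (b x g ρ) :=
  Q.add (Q.mul (Q.c 4) (d4 hb)) (fpC ha hb)

theorem teC (ha : Nq κ m β a) (hb : Nq κ m β b) : Nq κ m β fun x g ρ => te (a x g ρ) (b x g ρ) :=
  Q.add (Q.mul (Q.c 4) (tpC ha (d4 hb))) (fpC ha (m4 hb))

/-- `pick` with a constant bound. -/
theorem pickC {P : List Bool → Orc → Env → ℕ → Prop} (hs : Bv κ m β s) (k : ℕ)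
    (h : ∀ i, Pq κ m β fun x g ρ => P x g ρ i) :
    Nq κ m β fun x g ρ => pick (s x g ρ) k (P x g ρ) :=
  Q.ite hs (U.lst k h) (Q.sub (Q.c (k - 1))
    (U.lst (P := fun x g ρ i => P x g ρ (k - 1 - i)) k fun _ => h _))

theorem pick_le (fl : Bool) (k : ℕ) (P : ℕ → Prop) : pick fl k P ≤ k := by
  unfold pick
  split_ifs
  · exact U.lst_le' _ _
  · omega

namespace Sv

theorem mk' (hi : Nq κ m β i) (ha : Nq κ m β a) (hb : Nq κ m β b) (he : Nq κ m β e) :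
    Sv κ m β fun x g ρ => ⟨i x g ρ, a x g ρ, b x g ρ, e x g ρ⟩ := ⟨hi, ha, hb, he⟩

theorem ite {P : EP} {i : ∀ x g ρ, Decidable (P x g ρ)} (hP : Pq κ m β P) (h : Sv κ m β A)
    (k : Sv κ m β B) : Sv κ m β fun x g ρ => @ite _ (P x g ρ) (i x g ρ) (A x g ρ) (B x g ρ) :=
  ⟨Q.cg (Q.ite (i := i) hP h.i k.i) fun _ _ _ => (apply_ite Sg.i _ _ _).symm,
    Q.cg (Q.ite (i := i) hP h.p k.p) fun _ _ _ => (apply_ite Sg.p _ _ _).symm,
    Q.cg (Q.ite (i := i) hP h.s k.s) fun _ _ _ => (apply_ite Sg.s _ _ _).symm,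
    Q.cg (Q.ite (i := i) hP h.q k.q) fun _ _ _ => (apply_ite Sg.q _ _ _).symm⟩

theorem junk (hn : Nq κ m β n) : Sv κ m β fun x g ρ => junk (n x g ρ) := ⟨Q.c 0, hn, Q.c 0, hn⟩

theorem shr (hn : Nq κ m β n) (hs : Bv κ m β s) (ha : Nq κ m β a) (h : Sv κ m β A)
    (hr : Nq κ m β r) :
    Sv κ m β fun x g ρ => PS.shr (n x g ρ) (s x g ρ) (a x g ρ) (A x g ρ) (r x g ρ) :=
  ite (Q.lt hr hn) (ite hs (mk' h.i h.p h.s hr) (mk' h.i hr ha h.q)) h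

theorem tw (h : Sv κ m β A) (ha : Nq κ m β a) : Sv κ m β fun x g ρ => (A x g ρ).tw (a x g ρ) :=
  ⟨fpC ha h.i, h.p, Q.ite (Q.lt h.s (Q.c 4)) (fsC ha h.s) h.s, h.q⟩

/-- A computed index below a constant. -/
theorem sw {f : List Bool → Orc → Env → ℕ → Sg} (k : ℕ) (h : ∀ t, Sv κ m β fun x g ρ => f x g ρ t)
    (ha : Nq κ m β a) (hk : ∀ x g ρ, a x g ρ ≤ k) : Sv κ m β fun x g ρ => f x g ρ (a x g ρ) :=
  ⟨U.sw (f := fun x g ρ t => (f x g ρ t).i) k (fun t => (h t).i) ha hk,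
    U.sw (f := fun x g ρ t => (f x g ρ t).p) k (fun t => (h t).p) ha hk,
    U.sw (f := fun x g ρ t => (f x g ρ t).s) k (fun t => (h t).s) ha hk,
    U.sw (f := fun x g ρ t => (f x g ρ t).q) k (fun t => (h t).q) ha hk⟩

end Sv

namespace PC

variable {P R : List Bool → Orc → Env → Pr} (H : PC κ m β P)
include H

theorem ite {C : EP} {i : ∀ x g ρ, Decidable (C x g ρ)} (hC : Pq κ m β C) (k : PC κ m β R) :
    PC κ m β fun x g ρ => @ite _ (C x g ρ) (i x g ρ) (P x g ρ) (R x g ρ) where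
  al h := Q.cgP (U.iteP (i := i) hC (H.al h) (k.al h)) fun x g ρ => by
    by_cases u : C x g ρ <;> simp [u]
  lam h := Q.cg (Q.ite (i := i) hC (H.lam h) (k.lam h)) fun x g ρ => by
    by_cases u : C x g ρ <;> simp [u]
  En h h' := Q.cg (Q.ite (i := i) hC (H.En h h') (k.En h h')) fun x g ρ => by
    by_cases u : C x g ρ <;> simp [u]
  FE h h' h'' := Q.cg (Q.ite (i := i) hC (H.FE h h' h'') (k.FE h h' h'')) fun x g ρ => by
    by_cases u : C x g ρ <;> simp [u]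
  F h1 h2 h3 h4 h5 := Q.cg (Q.ite (i := i) hC (H.F h1 h2 h3 h4 h5) (k.F h1 h2 h3 h4 h5))
    fun x g ρ => by by_cases u : C x g ρ <;> simp [u]
  next h := Q.cg (Q.ite (i := i) hC (H.next h) (k.next h)) fun x g ρ => by
    by_cases u : C x g ρ <;> simp [u]
  cur h := Q.cg (Q.ite (i := i) hC (H.cur h) (k.cur h)) fun x g ρ => by
    by_cases u : C x g ρ <;> simp [u]
  rs := Q.cg (Q.ite (i := i) hC H.rs k.rs) fun x g ρ => by by_cases u : C x g ρ <;> simp [u]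

theorem st (hi : Nq κ m β i) (ha : Nq κ m β a) :
    Nq κ m β fun x g ρ => (P x g ρ).st (i x g ρ) (a x g ρ) := d4 (H.lam (ptC ha hi))

theorem ring (hi : Nq κ m β i) (ha : Nq κ m β a) :
    Sv κ m β fun x g ρ => (P x g ρ).ring (i x g ρ) (a x g ρ) :=
  ⟨hi, H.st hi ha, sdC hi (H.lam (ptC ha hi)), ha⟩

theorem fu (hi : Nq κ m β i) (ha : Nq κ m β a) (hb : Nq κ m β b) (u : ℕ) :
    Sv κ m β fun x g ρ => (P x g ρ).fu (i x g ρ) (a x g ρ) (b x g ρ) u :=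
  Sv.ite (U.cP (u = 0)) (Sv.mk' hi ha hb (H.En hi ha)) (H.ring hi (H.En hi ha))

theorem lo (ha : Nq κ m β a) : Nq κ m β fun x g ρ => (P x g ρ).lo (a x g ρ) :=
  Q.ite (Q.eq (m4 (H.lam ha)) (a4 ha 1)) ha (H.lam ha)

theorem prb (ha : Nq κ m β a) : Pq κ m β fun x g ρ => (P x g ρ).prb (a x g ρ) :=
  have l := H.lo ha
  Q.and (H.al (d4 ha)) (Q.ne (H.lam (ptC (H.FE (a4 l 3) (d4 l) (a4 l 2)) (Q.add l (Q.c 2))))
    (ptC (H.FE (a4 l 2) (d4 (H.lam l)) (a4 l 2)) (Q.add l (Q.c 3))))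

theorem val (ha : Nq κ m β a) : Pq κ m β fun x g ρ => (P x g ρ).val (a x g ρ) :=
  Q.and (H.prb (d4 ha)) (Q.eq (Q.mod (Q.add (d4 ha) ha) (Q.c 2)) (Q.c 1))

theorem own (ha : Nq κ m β a) : Nq κ m β fun x g ρ => (P x g ρ).own (a x g ρ) :=
  ptC (H.En (m4 ha) (Q.div ha (Q.c 16))) ha

theorem hv (ha : Nq κ m β a) : Pq κ m β fun x g ρ => (P x g ρ).hv (a x g ρ) :=
  Q.and (H.al (d4 ha)) (Q.eq (H.En (m4 ha) (d4 ha)) (d4 ha))

theorem ld : LC κ m β fun x g ρ => (P x g ρ).ld := ⟨H.val, H.own, H.hv, H.next, H.cur⟩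

variable (hn : Nq κ m β n)
include hn

theorem On (hb : Nq κ m β b) (ha : Nq κ m β a) (hA : Sv κ m β A) :
    Pq κ m β fun x g ρ => (P x g ρ).On (n x g ρ) (b x g ρ) (a x g ρ) (A x g ρ) :=
  Q.lt (H.F (Bv.c true) ha (a4 ha 1) hA (Sv.mk' (a4 ha 1) hb (a4 ha 1) hb)) hn

theorem OnC (hb : Nq κ m β b) (hA : Sv κ m β A) :
    Pq κ m β fun x g ρ => (P x g ρ).OnC (n x g ρ) (b x g ρ) (A x g ρ) :=
  Q.or (Q.and (Q.eq hb hA.p) (H.al hb)) (Q.or (H.On hn hb hA.i hA) (H.On hn hb (a4 hA.i 3) hA))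

theorem pa (hi : Nq κ m β i) (ha : Nq κ m β a) (hb : Nq κ m β b) :
    Pq κ m β fun x g ρ => (P x g ρ).pa (n x g ρ) (i x g ρ) (a x g ρ) (b x g ρ) :=
  Q.or (H.OnC hn hb (H.fu hi ha hi 0)) (H.OnC hn hb (H.fu hi ha hi 1))

theorem fo {Y : List Bool → Orc → Env → ℕ → Sg} (hs : Bv κ m β s) (ha : Nq κ m β a)
    (hb : Nq κ m β b) (hA : Sv κ m β A) (hY : ∀ t, Sv κ m β fun x g ρ => Y x g ρ t)
    (hr : Nq κ m β r) (k : ℕ) : Nq κ m β fun x g ρ => PS.fo (n x g ρ) (P x g ρ).F (s x g ρ)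
      (a x g ρ) (b x g ρ) (A x g ρ) (Y x g ρ) (r x g ρ) k :=
  U.itr (F := fun x g ρ t r => if (P x g ρ).F (s x g ρ) (a x g ρ) (b x g ρ)
      (PS.shr (n x g ρ) (s x g ρ) (a x g ρ) (A x g ρ) r) (Y x g ρ t) < n x g ρ then
      (P x g ρ).F (s x g ρ) (a x g ρ) (b x g ρ)
        (PS.shr (n x g ρ) (s x g ρ) (a x g ρ) (A x g ρ) r) (Y x g ρ t) else r) k
    (fun t _ hr => Q.ite (Q.lt (H.F hs ha hb (Sv.shr hn hs ha hA hr) (hY t)) hn)
      (H.F hs ha hb (Sv.shr hn hs ha hA hr) (hY t)) hr) hr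

theorem early {Y : List Bool → Orc → Env → ℕ → Sg} (hi : Nq κ m β i) (he : Nq κ m β e)
    (hr : Nq κ m β r) (ha : Nq κ m β a) (hb : Nq κ m β b)
    (hY : ∀ t, Sv κ m β fun x g ρ => Y x g ρ t) (k : ℕ) : Nq κ m β fun x g ρ =>
      (P x g ρ).early (n x g ρ) (i x g ρ) (e x g ρ) (r x g ρ) (a x g ρ) (b x g ρ) (Y x g ρ) k :=
  Q.ite (Q.lt (H.fo hn (Bv.c true) ha hb (H.fu hi he hr 0) hY hn k) hn)
    (H.fo hn (Bv.c true) ha hb (H.fu hi he hr 0) hY hn k)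
    (H.fo hn (Bv.c true) ha hb (H.fu hi he hr 1) hY hn k)

theorem fpc {X Y : List Bool → Orc → Env → ℕ → Sg} {rv : List Bool → Orc → Env → ℕ → Bool}
    (hs : Bv κ m β s) (ha : Nq κ m β a) (hb : Nq κ m β b)
    (hX : ∀ t, Sv κ m β fun x g ρ => X x g ρ t) (hr : ∀ t, Bv κ m β fun x g ρ => rv x g ρ t)
    (k : ℕ) (hY : ∀ t, Sv κ m β fun x g ρ => Y x g ρ t) (l : ℕ) :
    Nq κ m β fun x g ρ => PS.fpc (n x g ρ) (P x g ρ).F (s x g ρ) (a x g ρ) (b x g ρ) (X x g ρ)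
      (rv x g ρ) k (Y x g ρ) l :=
  have res := fun t => H.fo hn (hs.xor (hr t)) ha hb (hX t) hY hn l
  Q.ite (U.ex k fun t => Q.lt (res t) hn)
    (U.sw (f := fun x g ρ t => PS.fo (n x g ρ) (P x g ρ).F (xor (s x g ρ) (rv x g ρ t)) (a x g ρ)
      (b x g ρ) (X x g ρ t) (Y x g ρ) (n x g ρ) l) k res (pickC hs k fun t => Q.lt (res t) hn)
      fun _ _ _ => pick_le _ _ _) hn

/-- The primitive `F` from at most `k + 1` pieces. -/
theorem genF {al' : List Bool → Orc → Env → ℕ → Prop} {np : List Bool → Orc → Env → Sg → ℕ}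
    {pc : List Bool → Orc → Env → Sg → ℕ → ℕ → Sg} {rv : List Bool → Orc → Env → Sg → ℕ → Bool}
    (k : ℕ) (h1 : ∀ {a : EN}, Nq κ m β a → Pq κ m β fun x g ρ => al' x g ρ (a x g ρ))
    (h2 : ∀ {A : ES}, Sv κ m β A → Nq κ m β fun x g ρ => np x g ρ (A x g ρ))
    (hk : ∀ x g ρ A, np x g ρ A ≤ k)
    (h3 : ∀ {A : ES} {a : EN}, Sv κ m β A → Nq κ m β a → ∀ t,
      Sv κ m β fun x g ρ => pc x g ρ (A x g ρ) (a x g ρ) t)
    (h4 : ∀ {A : ES}, Sv κ m β A → ∀ t, Bv κ m β fun x g ρ => rv x g ρ (A x g ρ) t)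
    (hs : Bv κ m β s) (ha : Nq κ m β a) (hb : Nq κ m β b) (hA : Sv κ m β A) (hB : Sv κ m β B) :
    Nq κ m β fun x g ρ => (P x g ρ).genF (n x g ρ) (al' x g ρ) (np x g ρ) (pc x g ρ) (rv x g ρ)
      (s x g ρ) (a x g ρ) (b x g ρ) (A x g ρ) (B x g ρ) :=
  Q.ite (Q.and (h1 hA.p) (h1 hB.p))
    (U.sw (f := fun x g ρ u => PS.fpc (n x g ρ) (P x g ρ).F (s x g ρ) (a x g ρ) (b x g ρ)
      (pc x g ρ (A x g ρ) (a x g ρ)) (rv x g ρ (A x g ρ)) (u + 1) (pc x g ρ (B x g ρ) (b x g ρ))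
      (np x g ρ (B x g ρ) + 1)) k (fun u =>
        U.sw (f := fun x g ρ v => PS.fpc (n x g ρ) (P x g ρ).F (s x g ρ) (a x g ρ) (b x g ρ)
          (pc x g ρ (A x g ρ) (a x g ρ)) (rv x g ρ (A x g ρ)) (u + 1)
          (pc x g ρ (B x g ρ) (b x g ρ)) (v + 1)) k
          (fun v => H.fpc hn hs ha hb (h3 hA ha) (h4 hA) (u + 1) (h3 hB hb) (v + 1)) (h2 hB)
          fun x g ρ => hk x g ρ _) (h2 hA) fun x g ρ => hk x g ρ _) hn

theorem mark (ha : Nq κ m β a) : PC κ m β fun x g ρ => (P x g ρ).mark (n x g ρ) (a x g ρ) :=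
  ⟨H.al, H.lam, H.En, H.FE, H.F, H.next, H.cur,
    Q.ite (Q.and (Q.eq H.rs (Q.c 0)) (U.ex 8 fun t =>
      H.On hn ha (Q.c ((t / 2 + 3 * (t % 2)) % 4)) (H.fu (Q.c (t / 2)) ha (Q.c 0) 1)))
    (Q.ite (U.ex 4 fun t => H.On hn ha (Q.c (1 + 2 * (t / 2)))
      (H.fu (Q.c ((1 + 2 * (t / 2) + t % 2) % 4)) ha (Q.c 0) 1)) (Q.c 1) (Q.c 2)) H.rs⟩

theorem tw (ha : Nq κ m β a) : PC κ m β fun x g ρ => (P x g ρ).tw (n x g ρ) (a x g ρ) where
  al := H.al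
  lam h := Q.ite (H.al (d4 h)) (tpC (giC ha) (H.lam (tpC ha h))) (Q.mul (Q.c 4) hn)
  En h h' := H.En (fpC ha h) h'
  FE h h' h'' := H.FE (fpC ha h) h' (fsC ha h'')
  F h1 h2 h3 h4 h5 := H.F h1 (fsC ha h2) (fsC ha h3) (h4.tw ha) (h5.tw ha)
  next h := tzC (e := fun x g ρ => te (gi (a x g ρ))) (h := fun x g ρ => tp (gi (a x g ρ)))
    (Q.mul (Q.c 16) hn) (teC (giC ha)) (tpC (giC ha))
    (H.next (tzC (e := fun x g ρ => te (a x g ρ)) (h := fun x g ρ => tp (a x g ρ))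
      (Q.mul (Q.c 16) hn) (teC ha) (tpC ha) h))
  cur h := H.cur (teC ha h)
  rs := Q.ite (Q.eq H.rs (Q.c 0)) (Q.c 0) (Q.add (Q.c 1)
    (Q.mod (Q.add (Q.sub H.rs (Q.c 1)) (fsC ha (Q.c 0))) (Q.c 2)))

end PC

namespace KC

variable {c : ℕ} {K : List Bool → Orc → Env → Rn} (H : KC κ m β c K)
include H

theorem n4 : Nq κ m β fun x g ρ => 4 * (K x g ρ).n := Q.mul (Q.c 4) H.n

theorem n16 : Nq κ m β fun x g ρ => 16 * (K x g ρ).n := Q.mul (Q.c 16) H.n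

theorem short (hi : Nq κ m β i) (ha : Nq κ m β a) :
    Pq κ m β fun x g ρ => (K x g ρ).short (i x g ρ) (a x g ρ) :=
  Q.cgP (H.P.ld.short H.n16 H.q c (ptC ha hi)) fun x g ρ => by rw [Rn.short, H.c]

theorem ent (hi : Nq κ m β i) (ha : Nq κ m β a) (t : ℕ) :
    Nq κ m β fun x g ρ => (K x g ρ).ent (i x g ρ) (a x g ρ) t :=
  d4 (H.P.ld.en H.n16 H.q (ptC ha hi) t)

end KC

end Pool.Agent.MP_1a6d78_lc.PS

end MrgPart0

-- ======== part 1: formerly Pool.Agent.MP_1a6d78_lc.PS.MKill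
section MrgPart1

/-! PROJECT PSC: the kill round is computable. -/

namespace Pool.Agent.MP_1a6d78_lc.PS

open Classical ED PR SC GL

/-- The round with the constant `c`. -/
def Rn.wc (K : Rn) (c : ℕ) : Rn := { K with c := c }

variable {κ m β : List Bool → ℕ} {i a b e r : EN} {A B : ES}

theorem KC.wc {c : ℕ} {K : List Bool → Orc → Env → Rn} (H : KC κ m β c K) :
    K = fun x g ρ => (K x g ρ).wc c := by
  funext x g ρ
  rw [← H.c x g ρ]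
  rfl

namespace KL

variable {c : ℕ} {K : List Bool → Orc → Env → Rn} (H : KC κ m β c fun x g ρ => (K x g ρ).wc c)
include H

theorem links (ha : Nq κ m β a) (t : ℕ) :
    Nq κ m β fun x g ρ => ((K x g ρ).wc c).links (a x g ρ) t :=
  have u := Q.ite (i := fun _ _ _ => Nat.decLt (t / 2) c) (U.cP (t / 2 < c))
    (H.ent (Q.c 0) ha (t / 2)) (H.ent (Q.c 1) (H.P.En (Q.c 1) ha) (t / 2 - c))
  Q.ite (U.cP (t % 2 = 0)) u (H.P.lam u)

theorem own0 (ha : Nq κ m β a) : Nq κ m β fun x g ρ => ((K x g ρ).wc c).own0 (a x g ρ) :=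
  H.P.En (Q.c 0) (H.P.En (Q.mod (Q.add ha (Q.c 1)) (Q.c 2)) (d4 ha))

theorem sel (ha : Nq κ m β a) : Pq κ m β fun x g ρ => ((K x g ρ).wc c).sel (a x g ρ) :=
  Q.and (H.P.al ha) (Q.and (Q.eq (H.P.En (Q.c 0) ha) ha) (Q.and (Q.eq (H.P.FE (Q.c 0) ha (Q.c 3)) H.n)
    (Q.and (H.h ha) (Q.and (H.short (Q.c 0) ha) (Q.and (H.short (Q.c 1) (H.P.En (Q.c 1) ha))
      (U.all (4 * c) fun t => Q.imp (Q.lt (links H ha t) H.n4)
        (Q.or (Q.eq (own0 H (links H ha t)) ha) (Q.not (H.h (own0 H (links H ha t)))))))))))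

theorem obj (hi : Nq κ m β i) (ha : Nq κ m β a) :
    Nq κ m β fun x g ρ => ((K x g ρ).wc c).obj (i x g ρ) (a x g ρ) :=
  Q.ite (Q.and (Q.eq (H.P.FE hi (H.P.En hi ha) (hsC hi)) H.n) (sel H (H.P.En (Q.c 0) (H.P.En hi ha))))
    (H.P.En (Q.c 0) (H.P.En hi ha)) H.n

theorem C (ha : Nq κ m β a) (t : ℕ) : Nq κ m β fun x g ρ => ((K x g ρ).wc c).C (a x g ρ) t :=
  Q.ite (U.cP (t < 4 * c)) (d4 (links H ha t)) (H.P.FE (Q.c (2 + t % 2)) (H.P.En (Q.c (2 + t % 2))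
    (Q.ite (U.cP ((t - 4 * c) / 2 = 4 * c)) ha (d4 (links H ha ((t - 4 * c) / 2)))))
    (Q.c (hs (2 + t % 2))))

theorem meets (ha : Nq κ m β a) (hr : Nq κ m β r) (hb : Nq κ m β b) :
    Pq κ m β fun x g ρ => ((K x g ρ).wc c).meets (a x g ρ) (r x g ρ) (b x g ρ) :=
  Q.or (H.P.pa H.n (Q.c 0) ha hb) (Q.lt (H.P.early H.n (Q.c 0) ha hr (Q.c 3) (Q.c 2)
    (H.P.fu (Q.c 3) hb (Q.c 3)) 2) H.n)

theorem hop (ha : Nq κ m β a) : Nq κ m β fun x g ρ => ((K x g ρ).wc c).hop (a x g ρ) :=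
  Q.ite (Q.lt (H.P.FE (Q.c 0) ha (Q.c 3)) H.n) (H.P.FE (Q.c 2) (H.P.FE (Q.c 0) ha (Q.c 3)) (Q.c 1))
    ha

theorem G (ha : Nq κ m β a) (k t : ℕ) :
    Pq κ m β fun x g ρ => ((K x g ρ).wc c).G k (a x g ρ) t := by
  induction k generalizing t with
  | zero => exact Q.lt (C H ha t) H.n
  | succ k ih =>
    have u := fun r => U.it (f := fun x g ρ => ((K x g ρ).wc c).hop) r H.n (hop H) (C H ha t)
    exact Q.and (Q.lt (C H ha t) H.n) (U.ex (12 * c + 2 + 1) fun r =>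
      Q.or (Q.ne (H.P.En (Q.c 0) (u r)) ha) (U.ex (12 * c + 2) fun t' =>
        Q.and (ih t') (meets H (H.P.FE (Q.c 0) (u r) (Q.c 3)) (Q.c 3) (C H ha t'))))

theorem gd (ha : Nq κ m β a) (t : ℕ) : Nq κ m β fun x g ρ => ((K x g ρ).wc c).gd (a x g ρ) t :=
  Q.ite (G H ha (12 * c + 2) t) (C H ha t) H.n

theorem al' (ha : Nq κ m β a) : Pq κ m β fun x g ρ => ((K x g ρ).wc c).al' (a x g ρ) :=
  Q.and (H.P.al ha) (Q.or (Q.eq (obj H (Q.c 0) ha) H.n) (U.ex (12 * c + 2) fun t =>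
    meets H ha (Q.c 0) (gd H (obj H (Q.c 0) ha) t)))

theorem wall (hi : Nq κ m β i) (ha : Nq κ m β a) (t : ℕ) :
    Sv κ m β fun x g ρ => ((K x g ρ).wc c).wall (i x g ρ) (a x g ρ) t :=
  H.P.fu hi (gd H ha (t / 2)) (hsC hi) (t % 2)

theorem hits (hi : Nq κ m β i) (ha : Nq κ m β a) :
    Nq κ m β fun x g ρ => ((K x g ρ).wc c).hits (i x g ρ) (a x g ρ) :=
  H.P.early H.n hi ha (Q.c 2) (Q.c 2) (hsC (Q.sub (Q.c 5) hi))
    (wall H (Q.sub (Q.c 5) hi) (obj H (Q.c 0) ha)) (2 * (12 * c + 2))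

theorem nxa (hi : Nq κ m β i) (ha : Nq κ m β a) :
    Nq κ m β fun x g ρ => ((K x g ρ).wc c).nxa (i x g ρ) (a x g ρ) :=
  have s := H.P.st hi ha
  have f := H.P.FE hi s (hsC hi)
  Q.ite (al' H s) (H.P.lam (ptC ha hi)) (Q.ite (Q.and (Q.lt f H.n) (Q.not
    (H.P.On H.n (hits H hi s) (Q.c 2) (Sv.mk' hi s (Q.c 2) f)))) (ptC f (epC hi (hsC hi)))
    (ptC (hits H hi s) (epC hi (Q.c 2))))

theorem lam' (ha : Nq κ m β a) : Nq κ m β fun x g ρ => ((K x g ρ).wc c).lam' (a x g ρ) :=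
  Q.ite (al' H (d4 ha)) (Q.ite (Q.le (Q.c 2) (m4 ha)) (nxa H (m4 ha) (d4 ha))
    (Q.ite (al' H (d4 (H.P.lam ha))) (H.P.lam ha)
      (nxa H (Q.sub (Q.c 5) (m4 (H.P.lam ha))) (d4 (H.P.lam ha))))) H.n4

theorem FEd (hi : Nq κ m β i) (ha : Nq κ m β a) (hb : Nq κ m β b) :
    Nq κ m β fun x g ρ => ((K x g ρ).wc c).FEd (i x g ρ) (a x g ρ) (b x g ρ) :=
  have f := H.P.FE hi ha hb
  Q.ite (Q.and (Q.eq hb (Q.c 2)) (Q.and (Q.lt f H.n) (Q.not (al' H f)))) (hits H hi f) f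

theorem cq (hi : Nq κ m β i) (ha : Nq κ m β a) (t : ℕ) :
    Nq κ m β fun x g ρ => ((K x g ρ).wc c).cq (i x g ρ) (a x g ρ) t :=
  Q.ite (U.cP (t < 12 * c + 2)) (gd H (obj H hi ha) t) (H.P.st (epC hi (hsC hi))
    (H.P.F (Bv.c false) (hsC hi) (Q.c 2) (H.P.fu hi ha (Q.c 0) 0)
      (wall H (Q.sub (Q.c 3) hi) (obj H hi ha) (t - (12 * c + 2)))))

theorem dq (hi : Nq κ m β i) (ha : Nq κ m β a) :
    Nq κ m β fun x g ρ => ((K x g ρ).wc c).dq (i x g ρ) (a x g ρ) :=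
  U.atl (f := fun x g ρ t => ((K x g ρ).wc c).cq (i x g ρ) (a x g ρ) t) (3 * (12 * c + 2))
    (cq H hi ha) fun t => Q.and (H.P.pa H.n hi ha (cq H hi ha t)) (Q.and (al' H (cq H hi ha t))
      (Q.not (al' H (H.P.st hi (cq H hi ha t)))))

theorem dg (hi : Nq κ m β i) (ha : Nq κ m β a) :
    Nq κ m β fun x g ρ => ((K x g ρ).wc c).dg (i x g ρ) (a x g ρ) := lam' H (ptC (dq H hi ha) hi)

theorem hp (hi : Nq κ m β i) (ha : Nq κ m β a) :
    Pq κ m β fun x g ρ => ((K x g ρ).wc c).hp (i x g ρ) (a x g ρ) :=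
  Q.eq (sdC hi (dg H hi ha)) (Q.c 0)

theorem tight (hi : Nq κ m β i) (ha : Nq κ m β a) (hb : Nq κ m β b) :
    Pq κ m β fun x g ρ => ((K x g ρ).wc c).tight (i x g ρ) (a x g ρ) (b x g ρ) :=
  Q.and (H.P.pa H.n hi ha hb) (Q.not (H.P.On H.n (FEd H hi ha (Q.c 2)) (Q.c 2)
    (Sv.mk' hi ha (hsC hi) hb)))

theorem db (hi : Nq κ m β i) (ha : Nq κ m β a) :
    Nq κ m β fun x g ρ => ((K x g ρ).wc c).db (i x g ρ) (a x g ρ) :=
  U.atl (f := fun x g ρ t => ((K x g ρ).wc c).gd (((K x g ρ).wc c).obj (i x g ρ) (a x g ρ)) t)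
    (12 * c + 2) (gd H (obj H hi ha)) fun t =>
      tight H (Q.sub (Q.c 3) hi) (gd H (obj H hi ha) t) (d4 (dg H hi ha))

theorem nx (hi : Nq κ m β i) (ha : Nq κ m β a) :
    Nq κ m β fun x g ρ => ((K x g ρ).wc c).nx (i x g ρ) (a x g ρ) :=
  Q.ite (Q.eq (obj H hi ha) H.n) ha (Q.ite (hp H hi ha) (d4 (dg H hi ha)) (db H hi ha))

theorem dp (hi : Nq κ m β i) (ha : Nq κ m β a) (k : ℕ) :
    Nq κ m β fun x g ρ => ((K x g ρ).wc c).dp (i x g ρ) (a x g ρ) k :=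
  U.it (f := fun x g ρ => ((K x g ρ).wc c).nx (i x g ρ)) k H.n (nx H hi) ha

theorem ds (hi : Nq κ m β i) (ha : Nq κ m β a) (hb : Nq κ m β b) (k : ℕ) :
    Nq κ m β fun x g ρ => ((K x g ρ).wc c).ds (i x g ρ) (a x g ρ) (b x g ρ) k :=
  Q.ite (U.cP (k = 0)) hb (Q.ite (hp H hi (dp H hi ha (k - 1))) (Q.c 0) (hsC hi))

theorem pf (hi : Nq κ m β i) (ha : Nq κ m β a) (hb : Nq κ m β b) (k : ℕ) :
    Sv κ m β fun x g ρ => ((K x g ρ).wc c).pf (i x g ρ) (a x g ρ) (b x g ρ) k :=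
  have d := dp H hi ha (k / 2)
  Sv.ite (U.cP (k % 2 = 0)) (Sv.mk' hi d (ds H hi ha hb (k / 2)) (dq H hi d))
    (Sv.ite (hp H hi d) (Sv.junk H.n)
      (Sv.mk' (Q.sub (Q.c 3) hi) (db H hi d) (hsC hi) (d4 (dg H hi d))))

theorem onp (hi : Nq κ m β i) (ha : Nq κ m β a) (hb : Nq κ m β b) :
    Pq κ m β fun x g ρ => ((K x g ρ).wc c).onp (i x g ρ) (a x g ρ) (b x g ρ) :=
  U.ex (2 * (12 * c + 2 + 1)) fun k =>
    H.P.OnC H.n hb (pf H hi ha (Q.c 0) (2 * (12 * c + 2 + 1) + k))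

theorem En' (hi : Nq κ m β i) (ha : Nq κ m β a) :
    Nq κ m β fun x g ρ => ((K x g ρ).wc c).En' (i x g ρ) (a x g ρ) :=
  have d := dp H hi ha (12 * c + 2 + 1)
  have u := gd H (obj H hi ha)
  Q.ite (al' H ha) (Q.ite (Q.le (Q.c 2) hi)
    (Q.ite (al' H (H.P.En hi ha)) (H.P.En hi ha) (d4 (nxa H hi (H.P.En hi ha))))
    (Q.ite (Q.eq (obj H hi d) H.n) (H.P.En hi d)
      (U.ata (f := fun x g ρ t => ((K x g ρ).wc c).gd (((K x g ρ).wc c).obj (i x g ρ) (a x g ρ)) t)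
        (12 * c + 2) u fun t => Q.ite (onp H hi ha (u t)) (u t) H.n))) H.n

theorem fe (hi : Nq κ m β i) (ha : Nq κ m β a) (hb : Nq κ m β b) :
    Nq κ m β fun x g ρ => ((K x g ρ).wc c).fe (i x g ρ) (a x g ρ) (b x g ρ) :=
  Q.ite (Q.or (Q.eq (obj H hi ha) H.n) (H.P.On H.n (H.P.FE hi ha hb) hb
    (Sv.mk' hi ha (Q.c 0) (dq H hi ha)))) (H.P.FE hi ha hb)
    (Q.ite (Q.eq (sdC hi (dg H hi ha)) hb) (d4 (dg H hi ha)) H.n)

theorem FE' (hi : Nq κ m β i) (ha : Nq κ m β a) (hb : Nq κ m β b) :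
    Nq κ m β fun x g ρ => ((K x g ρ).wc c).FE' (i x g ρ) (a x g ρ) (b x g ρ) :=
  have u := fun k => fe H hi (dp H hi ha k) hb
  Q.ite (al' H ha) (Q.ite (Q.le (Q.c 2) hi) (FEd H hi ha hb)
    (U.atl (f := fun x g ρ k => ((K x g ρ).wc c).fe (i x g ρ)
      (((K x g ρ).wc c).dp (i x g ρ) (a x g ρ) k) (b x g ρ)) (2 * (12 * c + 2 + 1)) u
      fun k => Q.lt (u k) H.n)) H.n

theorem np (hA : Sv κ m β A) : Nq κ m β fun x g ρ => ((K x g ρ).wc c).np (A x g ρ) :=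
  Q.ite (Q.le (Q.c 2) hA.i) (Q.c 0) (U.lst (4 * (12 * c + 2 + 1)) fun k =>
    Q.or (Q.eq (obj H hA.i (dp H hA.i hA.p (k / 2))) H.n)
      (H.P.OnC H.n hA.q (pf H hA.i hA.p hA.s k)))

omit H in
theorem np_le (K : Rn) (A : Sg) : K.np A ≤ 4 * (K.nc + 1) := by
  unfold Rn.np
  split_ifs
  · omega
  · exact U.lst_le' _ _

theorem pc (hA : Sv κ m β A) (k : ℕ) :
    Sv κ m β fun x g ρ => ((K x g ρ).wc c).pc (A x g ρ) (a x g ρ) k :=
  Sv.ite (Q.le (Q.c 2) hA.i) hA (Sv.ite (Q.eq (Q.c k) (np H hA))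
    (Sv.ite (U.cP (k % 2 = 0)) (Sv.mk' hA.i (dp H hA.i hA.p (k / 2))
      (ds H hA.i hA.p hA.s (k / 2)) hA.q) (Sv.mk' (Q.sub (Q.c 3) hA.i) hA.q (hsC hA.i)
        (d4 (dg H hA.i (dp H hA.i hA.p (k / 2)))))) (pf H hA.i hA.p hA.s k))

theorem N : PC κ m β fun x g ρ => ((K x g ρ).wc c).N :=
  ⟨al' H, lam' H, En' H, FE' H,
    H.P.genF H.n (4 * (12 * c + 2 + 1)) (al' H) (np H) (fun x g ρ => np_le ((K x g ρ).wc c))
      (fun hA _ => pc H hA) fun hA k => Bv.dec (Q.and (Q.lt hA.i (Q.c 2)) (U.cP (k % 2 = 1))),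
    H.P.next, H.P.cur,
    Q.ite (Q.and (Q.eq H.P.rs (Q.c 0)) (Q.not (al' H H.z))) (Q.c 2) H.P.rs⟩

theorem moved (hi : Nq κ m β i) (ha : Nq κ m β a) :
    Pq κ m β fun x g ρ => ((K x g ρ).wc c).moved (i x g ρ) (a x g ρ) :=
  Q.and (Q.lt hi (Q.c 2)) (Q.lt (obj H hi ha) H.n)

theorem ins (ha : Nq κ m β a) : Pq κ m β fun x g ρ => ((K x g ρ).wc c).ins (a x g ρ) :=
  Q.and ((N H).val ha) (Q.or (moved H (m4 ha) (Q.div ha (Q.c 16))) (Q.not (H.P.val ha)))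

theorem ren (ha : Nq κ m β a) : Nq κ m β fun x g ρ => ((K x g ρ).wc c).ren (a x g ρ) :=
  Q.ite (moved H (m4 ha) (d4 ha)) H.n16 (ptC (H.P.En (m4 ha) (d4 ha)) ha)

theorem up (ha : Nq κ m β a) : Nq κ m β fun x g ρ => ((K x g ρ).wc c).up (a x g ρ) :=
  obj H (Q.mod (Q.add ha (Q.c 1)) (Q.c 2)) (d4 ha)

theorem seen (ha : Nq κ m β a) : Nq κ m β fun x g ρ => ((K x g ρ).wc c).seen (a x g ρ) :=
  Q.ite (Q.lt (up H ha) H.n) (up H ha) (up H (H.P.lam ha))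

theorem bp (ha : Nq κ m β a) (t : ℕ) : Nq κ m β fun x g ρ => ((K x g ρ).wc c).bp (a x g ρ) t :=
  Q.ite (U.cP (t < 4 * (12 * c + 2))) (ptC (gd H ha (t / 4)) (Q.c t))
    (ptC (FEd H (Q.c (2 + t % 2)) (gd H ha ((t - 4 * (12 * c + 2)) / 2)) (Q.c 2))
      (Q.c (ep (2 + t % 2) 2)))

theorem nxp (ha : Nq κ m β a) (t : ℕ) : Nq κ m β fun x g ρ => ((K x g ρ).wc c).nxp (a x g ρ) t :=
  Q.ite (U.cP (t % 2 = 0)) (bp H ha (t / 2)) (lam' H (bp H ha (t / 2)))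

theorem Nx (ha : Nq κ m β a) (t : ℕ) : Nq κ m β fun x g ρ => ((K x g ρ).wc c).Nx (a x g ρ) t :=
  have u := zeC H.n16 ha
  ptC (nxp H (Q.ite (Q.eq (zlC H.n16 ha) (Q.c 0)) (obj H (m4 u) (d4 u)) (seen H (d4 u))) t) u

theorem an (ha : Nq κ m β a) : Nq κ m β fun x g ρ => ((K x g ρ).wc c).an (a x g ρ) :=
  have u := fun t => ptC (links H (up H (d4 ha)) t) ha
  Q.ite (moved H (m4 ha) (d4 ((N H).own ha))) (codeC H.n16 (Q.c 0) ((N H).own ha))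
    (H.P.ld.slot H.n16 (U.atl (f := fun x g ρ t => pt (((K x g ρ).wc c).links
      (((K x g ρ).wc c).up (a x g ρ / 4)) t) (a x g ρ)) (4 * c) u fun t =>
        Q.and (H.P.val (u t)) (Q.eq (H.P.own (u t)) (ren H ((N H).own ha)))))

theorem rd : RC κ m β (12 * (12 * c + 2)) fun x g ρ => ((K x g ρ).wc c).rd :=
  ⟨fun _ _ _ => rfl, H.n16, H.j, H.P.ld, ins H, ren H, an H, fun t _ h => Nx H h t⟩

theorem kill : PC κ m β fun x g ρ => ((K x g ρ).wc c).kill :=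
  ⟨(N H).al, (N H).lam, (N H).En, (N H).FE, (N H).F, (rd H).next, (rd H).cur, (N H).rs⟩

end KL

theorem KC.kill {c : ℕ} {K : List Bool → Orc → Env → Rn} (H : KC κ m β c K) :
    PC κ m β fun x g ρ => (K x g ρ).kill := by
  have := H.wc
  rw [this] at H ⊢
  exact KL.kill H

end Pool.Agent.MP_1a6d78_lc.PS

end MrgPart1

-- ======== part 2: formerly Pool.Agent.MP_1a6d78_lc.PS.AlgC
section MrgPart2

/-! PROJECT PSC: the cut of rings of type 0 (outer cells: side 0, entry port 1; inner cells: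
side 3, entry port 3). -/

namespace Pool.Agent.MP_1a6d78_lc.PS

open Classical ED PR GL

noncomputable section

namespace Rn

variable (K : Rn)

/-- The 1-cycle of the first inner cell. -/
def cg (v : ℕ) : ℕ := K.P.En 1 (K.P.FE 0 v 3)

/-- `y` is a cell of kind `a` of the cycle with the name `v`. -/
def con (v a y : ℕ) : Prop := K.P.On K.n y a (K.P.ring 0 v)

/-- The 1-walk of `c` meets an outer cell of the cycle with the name `v`. -/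
def cx (v c : ℕ) : Prop :=
  K.con v 0 c ∨ K.P.early K.n 1 c 0 1 0 (fun _ => K.P.ring 0 v) 1 < K.n

def ccut (v : ℕ) : Prop :=
  K.P.En 0 v = v ∧ K.P.FE 0 v 0 < K.n ∧ K.P.FE 0 v 3 < K.n ∧ K.short 0 v ∧ K.short 1 (K.cg v) ∧
    (K.P.En 0 K.z = v ∨ ∃ t < K.c, K.P.En 0 (K.ent 1 (K.cg v) t / 4) = v) ∧
    ∀ t < K.c, K.ent 1 (K.cg v) t < 4 * K.n →
      (K.ent 1 (K.cg v) t % 4 = 0 ∧
        (K.con v 0 (K.ent 1 (K.cg v) t / 4) ∨ K.con v 3 (K.ent 1 (K.cg v) t / 4))) ∨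
      K.cx v (K.ent 1 (K.cg v) t / 4)

/-- `y` is a cell of kind `a` of a ring that is cut. -/
def cis (a y : ℕ) : Prop := K.ccut (K.P.En 0 y) ∧ K.con (K.P.En 0 y) a y

/-- The kind of a ring cell. -/
def ck (y : ℕ) : ℕ := if K.con (K.P.En 0 y) 0 y then 0 else 3

/-- The names of the rings at which a walk from `c` may be diverted, `t < c + 2`. -/
def cc (c t : ℕ) : ℕ :=
  K.P.En 0 (if t < K.c then K.ent 1 (K.P.En 1 c) t / 4 else if t = K.c then K.z else c)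

def cb (c t : ℕ) : Sg := if K.ccut (K.cc c t) then K.P.ring 0 (K.cc c t) else junk K.n

/-- The first cell of kind `a` of a cut ring on the `i`-walk of `c`; the walk arrives by the side `b`. -/
def ch (i a b c : ℕ) : ℕ := if K.cis a c then c else K.P.early K.n i c a b a (K.cb c) (K.c + 2)

/-- The cell at which the `i`-walk of `c` is diverted. -/
def cdiv (i c : ℕ) : ℕ :=
  if i = 0 then (if K.ch 0 0 3 c < K.n then K.ch 0 0 3 c else K.ch 0 3 0 c)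
  else if i = 1 then K.ch 1 0 1 c else if i = 3 then K.ch 3 3 2 c else K.n

/-- The last cell of kind `a` of the ring up to the ring cell `r`. -/
def cpv (a r : ℕ) : ℕ :=
  if K.con (K.P.En 0 r) a r then r
  else K.P.early K.n (ep 0 (3 - a)) r (3 - a) (3 - a) a (fun _ => K.P.ring 0 (K.P.En 0 r)) 1

def clam (p : ℕ) : ℕ :=
  if K.cis (K.ck (p / 4)) (p / 4) ∧ p % 4 = 0 then
    pt (K.P.FE 0 (p / 4) (K.ck (p / 4))) (ep 0 (K.ck (p / 4)))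
  else if K.cis (K.ck (p / 4)) (p / 4) ∧ p % 4 = ep 0 (K.ck (p / 4)) then
    4 * K.cpv (K.ck (p / 4)) (K.P.lam p / 4)
  else K.P.lam p

def cEn (i c : ℕ) : ℕ :=
  if K.cdiv i c < K.n then K.P.FE 0 (K.P.En 0 (K.cdiv i c)) (K.ck (K.cdiv i c)) else K.P.En i c

/-- The cell after the diversion. -/
def cr (i c : ℕ) : ℕ := K.clam (pt (K.cdiv i c) i) / 4

def cFE (i c a : ℕ) : ℕ :=
  if K.cdiv i c < K.n ∧
      ¬(K.P.FE i c a ≠ c ∧ K.P.On K.n (K.P.FE i c a) a ⟨i, c, a, K.cdiv i c⟩) then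
    (if a = K.ck (K.cdiv i c) then K.cr i c else K.n)
  else K.P.FE i c a

/-- The index of the last piece. -/
def cnp (A : Sg) : ℕ :=
  if K.cdiv A.i A.p < K.n ∧ ¬K.P.OnC K.n A.q ⟨A.i, A.p, A.s, K.cdiv A.i A.p⟩ then 1 else 0

def cpc (A : Sg) (a k : ℕ) : Sg :=
  if K.cnp A = 0 then A
  else if k = 0 then ⟨A.i, A.p, A.s, K.cdiv A.i A.p⟩
  else if a = K.ck (K.cdiv A.i A.p) then
    (if A.i = 0 then ⟨0, K.cr A.i A.p, a, A.q⟩ else ⟨0, A.q, a, K.cr A.i A.p⟩)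
  else junk K.n

def crv (A : Sg) (k : ℕ) : Bool := decide (A.i ≠ 0 ∧ k = 1)

/-- The new geometry with the old lists. -/
def cN : Pr :=
  ⟨K.P.al, K.clam, K.cEn, K.cFE, K.P.genF K.n K.P.al K.cnp K.cpc crv, K.P.next, K.P.cur, K.P.rs⟩

def cins (e : ℕ) : Prop := K.cN.val e ∧ (K.cdiv (e % 4) (e / 16) < K.n ∨ ¬K.P.val e)

def cren (y : ℕ) : ℕ :=
  if K.cdiv (y % 4) (y / 4) < K.n then 16 * K.n else pt (K.P.En (y % 4) (y / 4)) y

def can (e : ℕ) : ℕ :=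
  if K.cdiv (e % 4) (e / 16) < K.n then code (16 * K.n) 0 (K.cN.own e)
  else K.P.ld.slot (16 * K.n) (pt (K.P.lam (K.clam (e / 4))) e)

/-- The ports whose entries may move to a new cycle on the ring `v`, `t < 3 c`. -/
def cnx (v t : ℕ) : ℕ :=
  if t < K.c then K.ent 0 v t
  else if t < 2 * K.c then K.ent 1 (K.cg v) (t - K.c) else K.clam (K.ent 0 v (t - 2 * K.c))

def cNx (z t : ℕ) : ℕ :=
  pt (if zl (16 * K.n) z = 0 then K.cnx (K.P.En 0 (ze (16 * K.n) z / 4)) t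
    else K.clam (K.P.lam (ze (16 * K.n) z / 4))) (ze (16 * K.n) z)

def crd : GL.Rd :=
  ⟨16 * K.n, K.q, K.j, 3 * K.c + 1, K.P.ld, K.cN.val, K.cN.own, K.cN.hv, K.cins, K.cren, K.can,
    K.cNx⟩

def cut : Pr := { K.cN with next := K.crd.next, cur := K.crd.cur }

end Rn

end

end Pool.Agent.MP_1a6d78_lc.PS

end MrgPart2

-- ======== part 3: formerly Pool.Agent.MP_1a6d78_lc.PS.MCut
section MrgPart3

/-! PROJECT PSC: the cut round is computable. -/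

namespace Pool.Agent.MP_1a6d78_lc.PS

open Classical ED PR SC GL

variable {κ m β : List Bool → ℕ} {i a b e r : EN} {A B : ES}

namespace KL

variable {c : ℕ} {K : List Bool → Orc → Env → Rn} (H : KC κ m β c fun x g ρ => (K x g ρ).wc c)
include H

theorem cg (ha : Nq κ m β a) : Nq κ m β fun x g ρ => ((K x g ρ).wc c).cg (a x g ρ) :=
  H.P.En (Q.c 1) (H.P.FE (Q.c 0) ha (Q.c 3))

theorem con (ha : Nq κ m β a) (hi : Nq κ m β i) (hb : Nq κ m β b) :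
    Pq κ m β fun x g ρ => ((K x g ρ).wc c).con (a x g ρ) (i x g ρ) (b x g ρ) :=
  H.P.On H.n hb hi (H.P.ring (Q.c 0) ha)

theorem cx (ha : Nq κ m β a) (hb : Nq κ m β b) :
    Pq κ m β fun x g ρ => ((K x g ρ).wc c).cx (a x g ρ) (b x g ρ) :=
  Q.or (con H ha (Q.c 0) hb) (Q.lt (H.P.early H.n (Q.c 1) hb (Q.c 0) (Q.c 1) (Q.c 0)
    (fun _ => H.P.ring (Q.c 0) ha) 1) H.n)

theorem ccut (ha : Nq κ m β a) : Pq κ m β fun x g ρ => ((K x g ρ).wc c).ccut (a x g ρ) :=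
  have u := H.ent (Q.c 1) (cg H ha)
  Q.and (Q.eq (H.P.En (Q.c 0) ha) ha) (Q.and (Q.lt (H.P.FE (Q.c 0) ha (Q.c 0)) H.n)
    (Q.and (Q.lt (H.P.FE (Q.c 0) ha (Q.c 3)) H.n) (Q.and (H.short (Q.c 0) ha)
      (Q.and (H.short (Q.c 1) (cg H ha)) (Q.and (Q.or (Q.eq (H.P.En (Q.c 0) H.z) ha)
        (U.ex c fun t => Q.eq (H.P.En (Q.c 0) (d4 (u t))) ha))
        (U.all c fun t => Q.imp (Q.lt (u t) H.n4) (Q.or (Q.and (Q.eq (m4 (u t)) (Q.c 0))
          (Q.or (con H ha (Q.c 0) (d4 (u t))) (con H ha (Q.c 3) (d4 (u t)))))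
          (cx H ha (d4 (u t))))))))))

theorem cis (hi : Nq κ m β i) (ha : Nq κ m β a) :
    Pq κ m β fun x g ρ => ((K x g ρ).wc c).cis (i x g ρ) (a x g ρ) :=
  Q.and (ccut H (H.P.En (Q.c 0) ha)) (con H (H.P.En (Q.c 0) ha) hi ha)

theorem ck (ha : Nq κ m β a) : Nq κ m β fun x g ρ => ((K x g ρ).wc c).ck (a x g ρ) :=
  Q.ite (con H (H.P.En (Q.c 0) ha) (Q.c 0) ha) (Q.c 0) (Q.c 3)

theorem cc (ha : Nq κ m β a) (t : ℕ) : Nq κ m β fun x g ρ => ((K x g ρ).wc c).cc (a x g ρ) t :=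
  H.P.En (Q.c 0) (Q.ite (U.cP (t < c)) (d4 (H.ent (Q.c 1) (H.P.En (Q.c 1) ha) t))
    (Q.ite (U.cP (t = c)) H.z ha))

theorem cb (ha : Nq κ m β a) (t : ℕ) : Sv κ m β fun x g ρ => ((K x g ρ).wc c).cb (a x g ρ) t :=
  Sv.ite (ccut H (cc H ha t)) (H.P.ring (Q.c 0) (cc H ha t)) (Sv.junk H.n)

theorem ch (hi : Nq κ m β i) (ha : Nq κ m β a) (hb : Nq κ m β b) (he : Nq κ m β e) :
    Nq κ m β fun x g ρ => ((K x g ρ).wc c).ch (i x g ρ) (a x g ρ) (b x g ρ) (e x g ρ) :=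
  Q.ite (cis H ha he) he (H.P.early H.n hi he ha hb ha (cb H he) (c + 2))

theorem cdiv (hi : Nq κ m β i) (ha : Nq κ m β a) :
    Nq κ m β fun x g ρ => ((K x g ρ).wc c).cdiv (i x g ρ) (a x g ρ) :=
  Q.ite (Q.eq hi (Q.c 0)) (Q.ite (Q.lt (ch H (Q.c 0) (Q.c 0) (Q.c 3) ha) H.n)
    (ch H (Q.c 0) (Q.c 0) (Q.c 3) ha) (ch H (Q.c 0) (Q.c 3) (Q.c 0) ha))
    (Q.ite (Q.eq hi (Q.c 1)) (ch H (Q.c 1) (Q.c 0) (Q.c 1) ha)
      (Q.ite (Q.eq hi (Q.c 3)) (ch H (Q.c 3) (Q.c 3) (Q.c 2) ha) H.n))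

theorem cpv (ha : Nq κ m β a) (hr : Nq κ m β r) :
    Nq κ m β fun x g ρ => ((K x g ρ).wc c).cpv (a x g ρ) (r x g ρ) :=
  have u := Q.sub (Q.c 3) ha
  Q.ite (con H (H.P.En (Q.c 0) hr) ha hr) hr (H.P.early H.n (epC (Q.c 0) u) hr u u ha
    (fun _ => H.P.ring (Q.c 0) (H.P.En (Q.c 0) hr)) 1)

theorem clam (ha : Nq κ m β a) : Nq κ m β fun x g ρ => ((K x g ρ).wc c).clam (a x g ρ) :=
  have k := ck H (d4 ha)
  Q.ite (Q.and (cis H k (d4 ha)) (Q.eq (m4 ha) (Q.c 0)))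
    (ptC (H.P.FE (Q.c 0) (d4 ha) k) (epC (Q.c 0) k))
    (Q.ite (Q.and (cis H k (d4 ha)) (Q.eq (m4 ha) (epC (Q.c 0) k)))
      (Q.mul (Q.c 4) (cpv H k (d4 (H.P.lam ha)))) (H.P.lam ha))

theorem cEn (hi : Nq κ m β i) (ha : Nq κ m β a) :
    Nq κ m β fun x g ρ => ((K x g ρ).wc c).cEn (i x g ρ) (a x g ρ) :=
  have d := cdiv H hi ha
  Q.ite (Q.lt d H.n) (H.P.FE (Q.c 0) (H.P.En (Q.c 0) d) (ck H d)) (H.P.En hi ha)

theorem cr (hi : Nq κ m β i) (ha : Nq κ m β a) :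
    Nq κ m β fun x g ρ => ((K x g ρ).wc c).cr (i x g ρ) (a x g ρ) :=
  d4 (clam H (ptC (cdiv H hi ha) hi))

theorem cFE (hi : Nq κ m β i) (ha : Nq κ m β a) (hb : Nq κ m β b) :
    Nq κ m β fun x g ρ => ((K x g ρ).wc c).cFE (i x g ρ) (a x g ρ) (b x g ρ) :=
  have d := cdiv H hi ha
  have f := H.P.FE hi ha hb
  Q.ite (Q.and (Q.lt d H.n) (Q.not (Q.and (Q.ne f ha) (H.P.On H.n f hb (Sv.mk' hi ha hb d)))))
    (Q.ite (Q.eq hb (ck H d)) (cr H hi ha) H.n) f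

theorem cnp (hA : Sv κ m β A) : Nq κ m β fun x g ρ => ((K x g ρ).wc c).cnp (A x g ρ) :=
  have d := cdiv H hA.i hA.p
  Q.ite (Q.and (Q.lt d H.n) (Q.not (H.P.OnC H.n hA.q (Sv.mk' hA.i hA.p hA.s d)))) (Q.c 1) (Q.c 0)

omit H in
theorem cnp_le (K : Rn) (A : Sg) : K.cnp A ≤ 1 := by
  unfold Rn.cnp
  split_ifs <;> omega

theorem cpc (hA : Sv κ m β A) (ha : Nq κ m β a) (k : ℕ) :
    Sv κ m β fun x g ρ => ((K x g ρ).wc c).cpc (A x g ρ) (a x g ρ) k :=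
  have d := cdiv H hA.i hA.p
  have u := cr H hA.i hA.p
  Sv.ite (Q.eq (cnp H hA) (Q.c 0)) hA (Sv.ite (U.cP (k = 0)) (Sv.mk' hA.i hA.p hA.s d)
    (Sv.ite (Q.eq ha (ck H d)) (Sv.ite (Q.eq hA.i (Q.c 0)) (Sv.mk' (Q.c 0) u ha hA.q)
      (Sv.mk' (Q.c 0) hA.q ha u)) (Sv.junk H.n)))

theorem cN : PC κ m β fun x g ρ => ((K x g ρ).wc c).cN :=
  ⟨H.P.al, clam H, cEn H, cFE H,
    H.P.genF H.n 1 H.P.al (cnp H) (fun x g ρ => cnp_le ((K x g ρ).wc c)) (cpc H)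
      fun hA k => Bv.dec (Q.and (Q.ne hA.i (Q.c 0)) (U.cP (k = 1))),
    H.P.next, H.P.cur, H.P.rs⟩

theorem cins (ha : Nq κ m β a) : Pq κ m β fun x g ρ => ((K x g ρ).wc c).cins (a x g ρ) :=
  Q.and ((cN H).val ha) (Q.or (Q.lt (cdiv H (m4 ha) (Q.div ha (Q.c 16))) H.n) (Q.not (H.P.val ha)))

theorem cren (ha : Nq κ m β a) : Nq κ m β fun x g ρ => ((K x g ρ).wc c).cren (a x g ρ) :=
  Q.ite (Q.lt (cdiv H (m4 ha) (d4 ha)) H.n) H.n16 (ptC (H.P.En (m4 ha) (d4 ha)) ha)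

theorem can (ha : Nq κ m β a) : Nq κ m β fun x g ρ => ((K x g ρ).wc c).can (a x g ρ) :=
  Q.ite (Q.lt (cdiv H (m4 ha) (Q.div ha (Q.c 16))) H.n) (codeC H.n16 (Q.c 0) ((cN H).own ha))
    (H.P.ld.slot H.n16 (ptC (H.P.lam (clam H (d4 ha))) ha))

theorem cnx (ha : Nq κ m β a) (t : ℕ) : Nq κ m β fun x g ρ => ((K x g ρ).wc c).cnx (a x g ρ) t :=
  Q.ite (U.cP (t < c)) (H.ent (Q.c 0) ha t) (Q.ite (U.cP (t < 2 * c))
    (H.ent (Q.c 1) (cg H ha) (t - c)) (clam H (H.ent (Q.c 0) ha (t - 2 * c))))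

theorem cNx (ha : Nq κ m β a) (t : ℕ) : Nq κ m β fun x g ρ => ((K x g ρ).wc c).cNx (a x g ρ) t :=
  have u := zeC H.n16 ha
  ptC (Q.ite (Q.eq (zlC H.n16 ha) (Q.c 0)) (cnx H (H.P.En (Q.c 0) (d4 u)) t)
    (clam H (H.P.lam (d4 u)))) u

theorem crd : RC κ m β (3 * c + 1) fun x g ρ => ((K x g ρ).wc c).crd :=
  ⟨fun _ _ _ => rfl, H.n16, H.j, H.P.ld, cins H, cren H, can H, fun t _ h => cNx H h t⟩

theorem cut : PC κ m β fun x g ρ => ((K x g ρ).wc c).cut :=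
  ⟨(cN H).al, (cN H).lam, (cN H).En, (cN H).FE, (cN H).F, (crd H).next, (crd H).cur, (cN H).rs⟩

end KL

theorem KC.cut {c : ℕ} {K : List Bool → Orc → Env → Rn} (H : KC κ m β c K) :
    PC κ m β fun x g ρ => (K x g ρ).cut := by
  have := H.wc
  rw [this] at H ⊢
  exact KL.cut H

end Pool.Agent.MP_1a6d78_lc.PS

end MrgPart3

-- ======== part 4: formerly Pool.Agent.MP_1a6d78_lc.PS.CutS
section MrgPart4

/-! PROJECT PSC: walks after the cut of rings of type 0. -/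

namespace Pool.Agent.MP_1a6d78_lc.PS

open Classical ED PR PL

namespace Cm

variable {M M' : Cm} {R : ℕ → Prop} {a b i y u c p : ℕ}

/-- A cell of kind `a` of a ring that is cut. -/
def Rk (M : Cm) (R : ℕ → Prop) (a y : ℕ) : Prop := ∃ v, R v ∧ M.Rc v a y

/-- The `i`-walk leaves `y` by a link of a ring that is cut. -/
def Rp (M : Cm) (R : ℕ → Prop) (i y : ℕ) : Prop := ∃ a, M.Rk R a y ∧ (i = 0 ∨ i = ep 0 a)

theorem Kd.zero (k : M.Kd 0 a y) : a = 0 ∨ a = 3 := (Ct.en_kd k).2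

theorem kd_step (p : M.Per i u) : M.Kd i (M.ss i u) (M.st i u) := ⟨u, p, rfl, rfl⟩

theorem Rk.kd (k : M.Rk R a y) : M.Kd 0 a y := let ⟨_, _, u⟩ := k; u.1

theorem Rk.al (h : M.Ok) (k : M.Rk R a y) : M.al y := (k.kd.per h).1

theorem Rk.co (k : M.Rk R a y) (l : M.Kd 0 b u) (e : M.Co 0 u y) : M.Rk R b u :=
  let ⟨v, r, w⟩ := k; ⟨v, r, l, e.trans w.2⟩

/-- The predecessor on the cycle. -/
theorem Kd.pred (h : M.Ok) (k : M.Kd i a y) : ∃ r, M.Per i r ∧ M.st i r = y ∧ M.ss i r = a ∧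
    M.lk (pt y (ep i a)) = pt r i := by
  obtain ⟨r, r1, rfl, rfl⟩ := k
  exact ⟨r, r1, rfl, rfl, by rw [← h.lk_pt r1.1, h.inv]⟩

/-- A step backwards along a cycle of type 0. -/
theorem back0 (h : M.Ok) (p : M.Per 0 u) : M.st (ep 0 (M.ss 0 u)) (M.st 0 u) = u ∧
    M.ss (ep 0 (M.ss 0 u)) (M.st 0 u) = M.ss 0 u := by
  have e : M.lk (pt (M.st 0 u) (ep 0 (M.ss 0 u))) = pt u 0 := by rw [← h.lk_pt p.1, h.inv]
  refine ⟨by rw [st, e, pt_div], ?_⟩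
  rw [ss, e]
  rcases (kd_step p).zero with c | c <;> rw [c] <;> unfold sd ep pt <;> simp

/-- How a walk arrives at a cycle of type 0. -/
theorem arr0 (h : M.Ok) (hu : M.al u) (k : M.Kd 0 a (M.st i u))
    (hi : (i = 0 ∧ b = 3 - a) ∨ (i = 1 ∧ a = 0 ∧ b = 1) ∨ (i = 3 ∧ a = 3 ∧ b = 2)) :
    M.ss i u = b ∨ ∃ a', M.Kd 0 a' u ∧ M.Co 0 u (M.st i u) ∧ (i = 0 ∨ i = ep 0 a') := by
  have z := k.zero
  have s := ss_cases (M := M) i u
  by_cases c : M.ss i u = b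
  · exact Or.inl c
  right
  rcases hi with ⟨rfl, rfl⟩ | hi
  · obtain ⟨r, r1, r2, r3⟩ := k
    have : r = u := h.st_inj r1.1 hu r2 (by omega)
    subst this
    obtain ⟨a', k'⟩ := r1.kd h
    exact ⟨a', k', (Pa.step _ _).co, Or.inl rfl⟩
  · have e := h.lk_pt (i := i) hu
    have e2 : M.lk (pt (M.st i u) 0) = pt u i := by
      rw [← h.inv (pt u i), e]
      congr 1
      unfold pt ep
      split_ifs <;> omega
    have e3 : M.st 0 (M.st i u) = u := by rw [st, e2, pt_div]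
    have e4 : M.ss 0 (M.st i u) = a := by
      rw [ss, e2]
      unfold sd pt
      split_ifs <;> omega
    have k' := kd_step (k.per h)
    rw [e3, e4] at k'
    refine ⟨a, k', Co.symm (Pa.co ⟨1, e3⟩), Or.inr ?_⟩
    unfold ep
    split_ifs <;> omega

theorem fe_kd (h : M.Ok) (k : M.Kd 0 a y) : ∃ t, M.FE 0 y a = M.wk 0 y (t + 1) ∧
    M.Kd 0 a (M.wk 0 y (t + 1)) ∧ ∀ s < t, M.Kd 0 (3 - a) (M.wk 0 y (s + 1)) := by
  obtain ⟨-, t, t1, t2, t3⟩ := FE_spec h (Ct.cv_fe h k).1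
  have pw : ∀ s, M.Kd 0 (M.ss 0 (M.wk 0 y s)) (M.wk 0 y (s + 1)) := fun s => by
    rw [wk_succ]; exact kd_step ((k.per h).pa h (Pa.wk _ _ _)).1
  refine ⟨t, t1, t2 ▸ pw t, fun s hs => ?_⟩
  have := (pw s).zero
  have := k.zero
  have := t3 s hs
  rw [show 3 - a = M.ss 0 (M.wk 0 y s) by omega]
  exact pw s

/-- The first cell of kind `a` of a cycle. -/
theorem fe_rc (h : M.Ok) {v : ℕ} (p : M.Per 0 v) (k : M.FE 0 v a < M.n) :
    M.Rc v a (M.FE 0 v a) := by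
  obtain ⟨-, t, t1, t2, -⟩ := FE_spec h k
  rw [t1]
  exact ⟨by rw [wk_succ, ← t2]; exact kd_step (p.pa h (Pa.wk _ _ _)).1, (Pa.wk _ _ _).co.symm⟩

theorem fe_lt (h : M.Ok) {v : ℕ} (p : M.Per 0 v) (k : M.Rc v a y) : M.FE 0 v a < M.n := by
  obtain ⟨r, r1, r2, r3⟩ := k.1
  obtain ⟨t, e⟩ := ((r2 ▸ Pa.step 0 r : M.Pa 0 r y).co.trans k.2).symm.pa h r1
  exact lt_of_le_of_ne ((FE_le h _ _ _).elim le_of_eq fun u => (h.lt _ u).le)
    fun c => (FE_none h p.1).1 c t (by rw [e, r3])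

/-- From the predecessor back to the previous cell of the same kind. -/
theorem prev0 (h : M.Ok) (k : M.Kd 0 a u) {r : ℕ} (p : M.Per 0 r) (e : M.st 0 r = M.FE 0 u a) :
    ∃ t, M.wk (ep 0 (3 - a)) r t = u ∧ (∀ s ≤ t, M.sw (ep 0 (3 - a)) r (3 - a) s = 3 - a) ∧
      ∀ s < t, M.Kd 0 (3 - a) (M.wk (ep 0 (3 - a)) r s) := by
  obtain ⟨t, t1, -, t3⟩ := fe_kd h k
  have pw : ∀ s, M.Per 0 (M.wk 0 u s) := fun s => ((k.per h).pa h (Pa.wk _ _ _)).1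
  have er : r = M.wk 0 u t := p.st_inj h (pw t) (by rw [e, t1, wk_succ])
  have s1 : ∀ s < t, M.ss 0 (M.wk 0 u s) = 3 - a := fun s hs =>
    Kd.uniq h (by rw [wk_succ]; exact kd_step (pw s)) (t3 s hs)
  have w : ∀ j ≤ t, M.wk (ep 0 (3 - a)) r j = M.wk 0 u (t - j) := fun j => by
    induction j with
    | zero => exact fun _ => er
    | succ j ih =>
      intro hj
      rw [wk_succ, ih (by omega), show t - j = t - (j + 1) + 1 by omega, wk_succ,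
        ← s1 (t - (j + 1)) (by omega)]
      exact (back0 h (pw _)).1
  refine ⟨t, by rw [w t le_rfl, Nat.sub_self]; rfl, fun s hs => ?_, fun s hs => ?_⟩
  · cases s with
    | zero => rfl
    | succ s =>
      rw [sw_succ, w s (by omega), show t - s = t - (s + 1) + 1 by omega, wk_succ,
        ← s1 (t - (s + 1)) (by omega)]
      exact (back0 h (pw _)).2
  · rw [w s hs.le, show t - s = t - (s + 1) + 1 by omega]
    exact t3 _ (by omega)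

namespace Cutm

variable (h : M.Ok) (S : M.Cutm M' R)
include h S

theorem ok' : M'.Ok := Ct.cutm_ok h S

theorem al' : M'.al = M.al := Ct.cutm_al h S

omit h in
theorem off' (k : ¬M.Rp R (p % 4) (p / 4)) : M'.lk p = M.lk p :=
  S.off p fun ⟨v, a, r, w, e⟩ => k ⟨a, ⟨v, r, w⟩, e⟩

omit h in
theorem off_pt (hi : i < 4) (k : ¬M.Rp R i c) : M'.lk (pt c i) = M.lk (pt c i) :=
  S.off' (by rw [pt_mod, pt_div, Nat.mod_eq_of_lt hi]; exact k)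

omit h in
theorem exit (k : M.Rk R a y) : M'.lk (pt y 0) = pt (M.FE 0 y a) (ep 0 a) :=
  let ⟨v, r, w⟩ := k; S.ring v a y r w

theorem fwd (k : M.Rk R a y) : M'.st 0 y = M.FE 0 y a ∧ M'.ss 0 y = a ∧
    M.Rk R a (M.FE 0 y a) ∧ M.Pa 0 y (M.FE 0 y a) := by
  obtain ⟨t, t1, t2, -⟩ := fe_kd h k.kd
  refine ⟨by rw [st, S.exit k, pt_div], ?_, t1 ▸ k.co t2 (Pa.wk _ _ _).co.symm, t1 ▸ Pa.wk _ _ _⟩
  rw [ss, S.exit k]
  rcases k.kd.zero with rfl | rfl <;> unfold sd ep pt <;> simp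

theorem subw (a : ℕ) : SubW M M' 0 0 (M.Rk R a) := fun u k => by
  obtain ⟨t, t1, -, t3⟩ := fe_kd h k.kd
  obtain ⟨f1, -, f3, -⟩ := S.fwd h k
  refine ⟨t, f1.trans t1, f1 ▸ f3, fun s hs c => ?_⟩
  have := c.kd.uniq h (t3 s hs)
  have := k.kd.zero
  omega

theorem pa0 (k : M.Rk R a y) (u : ℕ) : M'.Pa 0 y u ↔ M.Rk R a u ∧ M.Co 0 u y := by
  rw [(S.subw h a).pa k]
  exact ⟨fun c => ⟨c.2, c.1.co.symm⟩, fun c => ⟨c.2.symm.pa h (c.1.kd.per h), c.1⟩⟩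

theorem per0 (k : M.Rk R a y) : M'.Per 0 y := by
  obtain ⟨f1, -, f3, f4⟩ := S.fwd h k
  exact ⟨S.al' h ▸ k.al h, f1 ▸ (S.pa0 h f3 y).2 ⟨k, f4.co⟩⟩

omit h in
theorem entry (k : M.Rk R a u) : M'.lk (pt (M.FE 0 u a) (ep 0 a)) = pt u 0 := by
  rw [← S.exit k, S.inv]

theorem bwd (k : M.Rk R a y) : ∃ u, M.Rk R a u ∧ M.Co 0 u y ∧ M.FE 0 u a = y ∧
    M'.lk (pt y (ep 0 a)) = pt u 0 := by
  obtain ⟨t, e⟩ := (S.per0 h k).2
  obtain ⟨u1, u2⟩ := (S.pa0 h k _).1 (Pa.wk 0 y t)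
  have e' : M.FE 0 (M'.wk 0 y t) a = y := by rw [← (S.fwd h u1).1, ← wk_succ, wk_succ', e]
  exact ⟨_, u1, u2, e', by rw [← S.entry u1, e']⟩

theorem st_st (k : M.Rk R a u) : M'.st (ep 0 a) (M'.st 0 u) = u := by
  rw [(S.fwd h k).1, st, S.entry k, pt_div]

/-- On a cut ring both walks stay on the cells of one kind. -/
theorem step (k : M.Rk R a y) (hi : i = 0 ∨ i = ep 0 a) :
    M'.ss i y = a ∧ M.Rk R a (M'.st i y) ∧ M.Co 0 (M'.st i y) y := by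
  rcases hi with rfl | rfl
  · obtain ⟨f1, f2, f3, f4⟩ := S.fwd h k
    exact ⟨f2, f1 ▸ f3, f1 ▸ f4.co.symm⟩
  · obtain ⟨u, u1, u2, -, u4⟩ := S.bwd h k
    have e : M'.st (ep 0 a) y = u := by rw [st, u4, pt_div]
    refine ⟨?_, e ▸ u1, e ▸ u2⟩
    rw [ss, u4]
    rcases k.kd.zero with rfl | rfl <;> unfold sd ep pt <;> simp

theorem pa_iff (k : M.Rk R a y) (hi : i = 0 ∨ i = ep 0 a) (u : ℕ) :
    M'.Pa i y u ↔ M.Rk R a u ∧ M.Co 0 u y := by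
  constructor
  · rintro ⟨t, rfl⟩
    induction t with
    | zero => exact ⟨k, Co.refl _ _⟩
    | succ t ih =>
      rw [wk_succ]
      exact ⟨(S.step h ih.1 hi).2.1, (S.step h ih.1 hi).2.2.trans ih.2⟩
  · rintro ⟨c1, c2⟩
    rcases hi with rfl | rfl
    · exact (S.pa0 h k u).2 ⟨c1, c2⟩
    · obtain ⟨t, rfl⟩ := (S.pa0 h c1 y).2 ⟨k, c2.symm⟩
      clear k c2
      induction t with
      | zero => exact Pa.refl _ _
      | succ t ih =>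
        refine Pa.trans ?_ ih
        have e := S.st_st h ((S.pa0 h c1 _).1 (Pa.wk 0 u t)).1
        rw [wk_succ]
        exact ⟨1, e⟩

theorem per_i (k : M.Rk R a y) (hi : i = 0 ∨ i = ep 0 a) : M'.Per i y :=
  ⟨S.al' h ▸ k.al h, (S.pa_iff h (S.step h k hi).2.1 hi y).2 ⟨k, (S.step h k hi).2.2.symm⟩⟩

omit h in
/-- Up to the first ring link the walk does not change. -/
theorem wk_eq (hi : i < 4) {T : ℕ} (k : ∀ t < T, ¬M.Rp R i (M.wk i c t)) :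
    (∀ t ≤ T, M'.wk i c t = M.wk i c t) ∧
      ∀ t < T, M'.ss i (M'.wk i c t) = M.ss i (M.wk i c t) := by
  have e : ∀ t ≤ T, M'.wk i c t = M.wk i c t :=
    wk_agree fun t ht => congrArg (· / 4) (S.off_pt hi (k t ht))
  exact ⟨e, fun t ht => by rw [e t ht.le, ss, ss, S.off_pt hi (k t ht)]⟩

end Cutm

end Cm

end Pool.Agent.MP_1a6d78_lc.PS

end MrgPart4

-- ======== part 5: formerly Pool.Agent.MP_1a6d78_lc.PS.SpecC
section MrgPart5

/-! PROJECT PSC: the statements for the programs of the cut round. -/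

namespace Pool.Agent.MP_1a6d78_lc.PS

open Classical ED PR GL

noncomputable section

namespace Rn

variable (K : Rn) (M M' : Cm)

/-- CSEL -/
structure CSelK : Prop where
  con : ∀ {a y c}, a < 4 → (K.con (K.P.En 0 c) a y ↔ M.al c ∧ M.Rc c a y)
  cut : ∀ v, K.ccut v ↔ K.P.En 0 v = v ∧ M.Cond K.z v ∧ K.short 0 v ∧ K.short 1 (K.cg v)
  cis : ∀ {a y}, a < 4 → (K.cis a y ↔ M.Rk K.ccut a y)
  ck : ∀ {a y}, M.Kd 0 a y → K.ck y = a
  div : ∀ {i c}, i < 4 → M.al c → M.Fst i c (fun t => M.Rp K.ccut i (M.wk i c t)) (K.cdiv i c)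
  dead : ∀ i {c}, ¬M.al c → K.cdiv i c = M.n

/-- The hypotheses of the rows. -/
structure C1 : Prop where
  hy : K.Hy M
  cut : M.Cutm M' K.ccut
  sel : K.CSelK M
  lam : ∀ p, K.clam p = if M.al (p / 4) then M'.lk p else 4 * M.n

end Rn

def CSelS : Prop := S_Om → ∀ (K : Rn) M, K.Hy M → K.CSelK M

def CLamS : Prop := ∀ (K : Rn) M M', K.Hy M → M.Cutm M' K.ccut → K.CSelK M →
  ∀ p, K.clam p = if M.al (p / 4) then M'.lk p else 4 * M.n

def CEnS : Prop := ∀ (K : Rn) M M', K.C1 M M' → M'.Nm K.cEn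

def CFeS : Prop := ∀ (K : Rn) M M', K.C1 M M' → ∀ i < 4, ∀ a < 4, ∀ c, K.cFE i c a = M'.FE i c a

def CCovS : Prop := ∀ (K : Rn) M M', K.C1 M M' → ∀ A, ∀ a < 4, M'.ok A →
  Cm.Cov M M' 0 a A (K.cpc A a) (Rn.crv A) (K.cnp A + 1)

/-- The cut round. -/
def CutS : Prop := ∀ (K : Rn) M, K.Hy M → ∃ M', M.Cutm M' K.ccut ∧ M'.Ok ∧ Geo M' K.cut ∧
  K.crd.Hy ∧
    ∀ v, K.ccut v ↔ K.P.En 0 v = v ∧ M.Cond K.z v ∧ K.short 0 v ∧ K.short 1 (K.cg v)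

end

end Pool.Agent.MP_1a6d78_lc.PS

end MrgPart5

-- ======== part 6: formerly Pool.Agent.MP_1a6d78_lc.PS.Cnt
section MrgPart6

/-! PROJECT PSC: counting regions, alternations and probes. -/

namespace Pool.Agent.MP_1a6d78_lc.PS.Ct

open Classical ED PR PL Relation

variable {M : Cm} {c x y p : ℕ}

/-- The next alternation of the region. -/
theorem nxt_alt (H : M.Ok) : ∃ f : ℕ → ℕ, ∀ y, M.al (y / 4) → M.Alt y →
    (M.Rg y (f y) ∧ M.Alt (f y) ∧ f y % 4 = (y + 2) % 4) ∧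
      ∀ y', M.Alt y' → f y = f y' → y = y' := by
  have ex : ∀ y, ∃ t, M.Alt y → 0 < t ∧ M.Alt (M.nr^[t] y) ∧
      ∀ s < t, 0 < s → ¬M.Alt (M.nr^[s] y) := fun y => by
    by_cases h : M.Alt y
    · have : ∃ t, 0 < t ∧ M.Alt (M.nr^[t] y) := by
        obtain ⟨t, k, e⟩ := nr_per H y
        exact ⟨t, k, by rwa [e]⟩
      exact ⟨Nat.find this, fun _ => ⟨(Nat.find_spec this).1, (Nat.find_spec this).2,
        fun s k l v => Nat.find_min this k ⟨l, v⟩⟩⟩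
    · exact ⟨0, fun v => absurd v h⟩
  choose T hT using ex
  have inj : ∀ y y', M.Alt y → M.Alt y' → T y ≤ T y' → M.nr^[T y] y = M.nr^[T y'] y' → y = y' :=
    fun y y' h h' l e => by
      obtain ⟨d, hd⟩ := Nat.exists_eq_add_of_le l
      rw [hd, Function.iterate_add_apply] at e
      have := (nr_inj H).iterate _ e
      rcases Nat.eq_zero_or_pos d with rfl | k
      · exact this
      · have i := (hT y h).1
        exact absurd (this ▸ h) ((hT y' h').2.2 d (by omega) k)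
  refine ⟨fun y => M.nr^[T y] y, fun y a h => ⟨⟨⟨_, rfl⟩, (hT y h).2.1, ?_⟩, fun y' h' e =>
    (le_total _ _).elim (fun l => inj y y' h h' l e) fun l => (inj y' y h' h l e.symm).symm⟩⟩
  have key : ∀ s, s + 1 ≤ T y → M.nr^[s + 1] y % 4 = (y + 2) % 4 := fun s => by
    induction s with
    | zero => exact fun _ => alt_mod H a h
    | succ s ih =>
      intro k
      rw [Function.iterate_succ_apply', not_not.1 ((hT y h).2.2 (s + 1) k s.succ_pos), ih (by omega)]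
  have := (hT y h).1
  have := key (T y - 1) (by omega)
  rwa [show T y - 1 + 1 = T y by omega] at this

theorem alt_one (H : M.Ok) (k : M.al (x / 4)) (h : ¬M.Crit x) (a : ℕ) :
    ∃ y, M.Rg x y ∧ M.Alt y ∧ y % 4 / 2 = a % 2 := by
  obtain ⟨f, hf⟩ := nxt_alt H
  obtain ⟨y, k1, k2⟩ : ∃ y, M.Rg x y ∧ M.Alt y := by
    by_contra v
    exact h fun y u w => v ⟨y, u, w⟩
  obtain ⟨⟨i1, i2, i3⟩, -⟩ := hf y ((rg_al H k1).2 k) k2
  by_cases e : y % 4 / 2 = a % 2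
  · exact ⟨y, k1, k2, e⟩
  · exact ⟨f y, rg_trans k1 i1, i2, by omega⟩

theorem alt_two (H : M.Ok) (h : M.Sad x) (a : ℕ) : ∃ y y', y < y' ∧ (M.Rg x y ∧ M.Rg x y') ∧
    (M.Alt y ∧ y % 4 / 2 = a % 2) ∧ M.Alt y' ∧ y' % 4 / 2 = a % 2 := by
  obtain ⟨f, hf⟩ := nxt_alt H
  have al := sad_al H h
  suffices ∃ y y', y ≠ y' ∧ (M.Rg x y ∧ M.Rg x y') ∧ (M.Alt y ∧ y % 4 / 2 = a % 2) ∧
      M.Alt y' ∧ y' % 4 / 2 = a % 2 by
    obtain ⟨y, y', e, k1, k2, k3⟩ := this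
    rcases Nat.lt_or_gt_of_ne e with l | l
    exacts [⟨y, y', l, k1, k2, k3⟩, ⟨y', y, l, k1.symm, k3, k2⟩]
  obtain ⟨y, y', k1, k2, k3, k4, k5, k6⟩ := h
  obtain ⟨⟨i1, i2, i3⟩, i4⟩ := hf y ((rg_al H k1).2 al) k4
  obtain ⟨⟨j1, j2, j3⟩, -⟩ := hf y' ((rg_al H k2).2 al) k5
  by_cases e : y % 4 / 2 = a % 2
  · exact ⟨y, y', k3, ⟨k1, k2⟩, ⟨k4, e⟩, k5, by omega⟩
  · exact ⟨f y, f y', fun v => k3 (i4 y' k5 v), ⟨rg_trans k1 i1, rg_trans k2 j1⟩, ⟨i2, by omega⟩,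
      j2, by omega⟩

theorem rg_lt (H : M.Ok) (h : M.Rg x y) (k : M.al (x / 4)) : y < 4 * M.n := lt4 H ((rg_al H h).2 k)

/-- Every link alternates for exactly one region. -/
theorem cnt_alt (H : M.Ok) :
    cnt (4 * M.n) (fun x => M.al (x / 4) ∧ M.Alt x) = 2 * cnt M.n M.al := by
  have i0 := cnt_split (4 * M.n) (fun x => M.al (x / 4)) M.Alt
  rw [(cnt4 M.n M.al).2] at i0
  have e : ∀ x, r3 x / 4 = x / 4 ∧ r4 (r3 x) = x ∧ r3 x % 4 = (x + 3) % 4 ∧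
      r4 x % 4 = (x + 1) % 4 := fun x => by
    unfold r3 r4
    exact ⟨by omega, by omega, by omega, by omega⟩
  have key : ∀ x, M.al (x / 4) → M.al (r3 (M.nr x) / 4) ∧ (M.Alt (r3 (M.nr x)) ↔ ¬M.Alt x) :=
    fun x k => by
      have j1 := nr_par H k
      refine ⟨by rw [(e _).1]; exact (nr_al H).2 k, ?_⟩
      have : M.nr (r3 (M.nr x)) = r4 x := by rw [Cm.nr, (e _).2.1, Cm.nr, H.inv]
      rw [Cm.Alt, Cm.Alt, this, (e x).2.2.2, (e _).2.2.1]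
      clear this i0
      generalize M.nr x = w at *
      omega
  have inj : ∀ x y, r3 (M.nr x) = r3 (M.nr y) → x = y := fun x y v =>
    nr_inj H (by rw [← (e (M.nr x)).2.1, v, (e _).2.1])
  have i1 : cnt (4 * M.n) (fun x => M.Alt x ∧ M.al (x / 4)) ≤
      cnt (4 * M.n) fun x => ¬M.Alt x ∧ M.al (x / 4) :=
    cnt_inj (fun x => r3 (M.nr x)) (fun x _ k => ⟨lt4 H (key x k.2).1,
      fun v => (key x k.2).2.1 v k.1, (key x k.2).1⟩) fun x _ y _ _ _ => inj x y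
  have i2 : cnt (4 * M.n) (fun x => ¬M.Alt x ∧ M.al (x / 4)) ≤
      cnt (4 * M.n) fun x => M.Alt x ∧ M.al (x / 4) :=
    cnt_inj (fun x => r3 (M.nr x)) (fun x _ k => ⟨lt4 H (key x k.2).1,
      (key x k.2).2.2 k.1, (key x k.2).1⟩) fun x _ y _ _ _ => inj x y
  rw [cnt_congr (Q := fun x => M.Alt x ∧ M.al (x / 4)) fun _ _ => and_comm]
  omega

theorem lo_alt (H : M.Ok) (k : M.al (p / 4)) : M.Alt (r3 (M.lo p)) := by
  have := H.par p k
  unfold Cm.Alt Cm.nr Cm.lo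
  rw [show ∀ q, r4 (r3 q) = q from fun q => by unfold r4 r3; omega]
  split_ifs
  · unfold r3
    omega
  · rw [H.inv]
    unfold r3
    omega

theorem cnt_prb (H : M.Ok) :
    cnt (4 * M.n) M.Prb ≤ 2 * cnt (4 * M.n) fun x => M.Sad x ∧ M.Alt x := by
  have i0 := cnt_split (4 * M.n) M.Prb fun p => M.lk p % 4 = (p + 1) % 4
  have f : ∀ p, M.Prb p → r3 (M.lo p) < 4 * M.n ∧ M.Sad (r3 (M.lo p)) ∧ M.Alt (r3 (M.lo p)) :=
    fun p k => ⟨lt4 H (sad_al H k.2), k.2, lo_alt H k.1⟩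
  have r : ∀ x y, r3 x = r3 y → x = y := fun x y => by unfold r3; omega
  have i1 := cnt_inj (n := 4 * M.n) (P := fun p => M.lk p % 4 = (p + 1) % 4 ∧ M.Prb p)
    (Q := fun x => M.Sad x ∧ M.Alt x) (fun p => r3 (M.lo p)) (fun p _ k => f p k.2) fun x _ y _ k k' e => by
      have := r _ _ e
      rwa [Cm.lo, Cm.lo, if_pos k.1, if_pos k'.1] at this
  have i2 := cnt_inj (n := 4 * M.n) (P := fun p => ¬M.lk p % 4 = (p + 1) % 4 ∧ M.Prb p)
    (Q := fun x => M.Sad x ∧ M.Alt x) (fun p => r3 (M.lo p)) (fun p _ k => f p k.2) fun x _ y _ k k' e => by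
      have := r _ _ e
      rw [Cm.lo, Cm.lo, if_neg k.1, if_neg k'.1] at this
      rw [← H.inv x, this, H.inv]
  omega

theorem ncl_cut (n : ℕ) (A B : ℕ → Prop) (r : ℕ → ℕ → Prop) :
    ncl n A r = ncl n (fun a => A a ∧ B a) r + ncl n (fun a => A a ∧ ¬B a) r := by
  unfold ncl
  rw [cnt_split n _ B]
  exact congrArg₂ _ (cnt_congr fun _ _ => ⟨fun k => ⟨⟨k.2.1, k.1⟩, k.2.2⟩,
    fun k => ⟨k.1.2, k.1.1, k.2⟩⟩) (cnt_congr fun _ _ => ⟨fun k => ⟨⟨k.2.1, k.1⟩, k.2.2⟩,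
    fun k => ⟨k.1.2, k.1.1, k.2⟩⟩)

theorem cnt_bit (n : ℕ) (P : ℕ → Prop) : cnt n P =
    cnt n (fun y => P y ∧ y % 4 / 2 = 0 % 2) + cnt n fun y => P y ∧ y % 4 / 2 = 1 % 2 := by
  rw [cnt_split n P fun y => y % 4 / 2 = 0 % 2]
  exact congrArg₂ _ (cnt_congr fun _ _ => and_comm)
    (cnt_congr fun _ _ => ⟨fun k => ⟨k.2, by omega⟩, fun k => ⟨by omega, k.1⟩⟩)

/-- A saddle region has four alternations. -/
theorem sad_four (H : M.Ok) :
    4 * ncl (4 * M.n) M.Sad M.Rg ≤ cnt (4 * M.n) fun x => M.Sad x ∧ M.Alt x := by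
  have key : ∀ a, 2 * ncl (4 * M.n) M.Sad M.Rg ≤
      cnt (4 * M.n) fun y => (M.Sad y ∧ M.Alt y) ∧ y % 4 / 2 = a % 2 := fun a => by
    rw [cnt_split _ _ fun y => ∃ e < y, M.Rg y e ∧ M.Alt e ∧ e % 4 / 2 = a % 2]
    have i1 := nclK.le (A := M.Sad) (B := fun y => (∃ e < y, M.Rg y e ∧ M.Alt e ∧
        e % 4 / 2 = a % 2) ∧ (M.Sad y ∧ M.Alt y) ∧ y % 4 / 2 = a % 2) (rg_eqv H (4 * M.n))
      fun x _ k => by
        obtain ⟨y, y', l, ⟨k1, k2⟩, k3, k4, k5⟩ := alt_two H k a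
        exact ⟨y', rg_lt H k2 (sad_al H k), k2, ⟨y, l, rg_trans (rg_symm H k2) k1, k3⟩,
          ⟨(sad_rg H k2).1 k, k4⟩, k5⟩
    have i2 := nclK.le (A := M.Sad) (B := fun y => ¬(∃ e < y, M.Rg y e ∧ M.Alt e ∧
        e % 4 / 2 = a % 2) ∧ (M.Sad y ∧ M.Alt y) ∧ y % 4 / 2 = a % 2) (rg_eqv H (4 * M.n))
      fun x _ k => by
        obtain ⟨y, -, -, ⟨k1, -⟩, k3, -⟩ := alt_two H k a
        have ex : ∃ y, M.Rg x y ∧ M.Alt y ∧ y % 4 / 2 = a % 2 := ⟨y, k1, k3⟩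
        obtain ⟨j1, j2, j3⟩ := Nat.find_spec ex
        exact ⟨_, rg_lt H j1 (sad_al H k), j1, fun ⟨e, l, u, v⟩ =>
          Nat.find_min ex l ⟨rg_trans j1 u, v⟩, ⟨(sad_rg H j1).1 k, j2⟩, j3⟩
    omega
  have i0 := key 0
  have i1 := key 1
  rw [cnt_bit]
  omega

/-- A set of non critical regions has two alternations per region. -/
theorem non_two (H : M.Ok) {A : ℕ → Prop} (hA : ∀ x y, M.Rg x y → A x → A y)
    (h : ∀ x, A x → M.al (x / 4) ∧ ¬M.Crit x) :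
    2 * ncl (4 * M.n) A M.Rg ≤ cnt (4 * M.n) fun x => A x ∧ M.Alt x := by
  have key : ∀ a, ncl (4 * M.n) A M.Rg ≤
      cnt (4 * M.n) fun y => (A y ∧ M.Alt y) ∧ y % 4 / 2 = a % 2 := fun a =>
    nclK.le (rg_eqv H _) fun x _ k => by
      obtain ⟨y, k1, k2, k3⟩ := alt_one H (h x k).1 (h x k).2 a
      exact ⟨y, rg_lt H k1 (h x k).1, k1, ⟨hA x y k1 k, k2⟩, k3⟩
  have i0 := key 0
  have i1 := key 1
  rw [cnt_bit]
  omega

theorem sad_non (h : M.Sad x) : ¬M.Crit x := fun k => by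
  obtain ⟨y, -, k1, -, -, k2, -⟩ := h
  exact k y k1 k2

theorem cnt_all (H : M.Ok) :
    M.mu + ncl (4 * M.n) (fun x => M.al (x / 4) ∧ ¬M.Crit x) M.Rg = cnt M.n M.al ∧
      cnt (4 * M.n) (fun x => M.Sad x ∧ M.Alt x) ≤ 4 * M.mu := by
  have i1 := sad_four H
  have i2 := non_two H (A := fun x => (M.al (x / 4) ∧ ¬M.Crit x) ∧ ¬M.Sad x)
    (fun x y u k => ⟨⟨(rg_al H u).2 k.1.1, mt (crit_rg H u).2 k.1.2⟩, mt (sad_rg H u).2 k.2⟩)
    fun _ k => k.1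
  have i3 := cnt_alt H
  have i4 := ncl_cut (4 * M.n) (fun x => M.al (x / 4) ∧ ¬M.Crit x) M.Sad M.Rg
  have i5 : ncl (4 * M.n) (fun x => (M.al (x / 4) ∧ ¬M.Crit x) ∧ M.Sad x) M.Rg =
      ncl (4 * M.n) M.Sad M.Rg := cnt_congr fun x _ => and_congr_left fun _ =>
    ⟨And.right, fun k => ⟨⟨sad_al H k, sad_non k⟩, k⟩⟩
  rw [cnt_split _ _ M.Sad, cnt_congr (Q := fun x => M.Sad x ∧ M.Alt x) (fun x _ =>
    and_congr_right fun k => and_iff_right (sad_al H k))] at i3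
  have i6 := cnt_mono (n := 4 * M.n)
    (P := fun x => ((M.al (x / 4) ∧ ¬M.Crit x) ∧ ¬M.Sad x) ∧ M.Alt x)
    (Q := fun x => ¬M.Sad x ∧ M.al (x / 4) ∧ M.Alt x) fun _ _ k => ⟨k.1.2, k.1.1.1, k.2⟩
  unfold Cm.mu
  omega

/-- The subtraction in `mu` is exact. -/
theorem mu_add (H : M.Ok) :
    M.mu + ncl (4 * M.n) (fun x => M.al (x / 4) ∧ ¬M.Crit x) M.Rg = cnt M.n M.al := (cnt_all H).1

/-- COUNT16. -/
theorem count16 (H : M.Ok) : cnt (4 * M.n) M.Prb ≤ 8 * M.mu := by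
  have := cnt_prb H
  have := (cnt_all H).2
  omega

theorem rg_sc (H : M.Ok) (h : x < 4 * M.n) :
    M.Rg x y ↔ Sc (4 * M.n) (fun p => r4 (M.lk p)) (r4 x) (r4 y) := by
  have e : ∀ t, (fun p => r4 (M.lk p))^[t] (r4 x) = r4 (M.nr^[t] x) := fun t =>
    (Function.Semiconj.iterate_right (f := r4) (ga := M.nr) (fun _ => rfl) t x).symm
  rw [sc_iff (Two.pm.comp (ok_pl H).iv.pm).1 (Two.pm.1 x h)]
  refine exists_congr fun t => ?_
  rw [e]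
  generalize M.nr^[t] x = w
  unfold r4
  omega

/-- EULER: regions = cells + twice the components. -/
theorem euler (H : M.Ok) : ncl (4 * M.n) (fun x => M.al (x / 4)) M.Rg =
    cnt M.n M.al + 2 * ncl (4 * M.n) (fun p => M.al (p / 4)) (Conn (4 * M.n) r4 M.lk) := by
  have o := ok_pl H
  have pm := Two.pm.comp o.iv.pm
  have e : ∀ x, r4 (r3 x) = x ∧ r3 x / 4 = x / 4 := fun x => by unfold r3 r4; omega
  rw [← count H.pl o.iv o.fix]
  refine le_antisymm (ncl_le r4 (rg_eqv H _) pm.eqv (fun x hx y _ u k => ?_)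
    (fun x hx k => ⟨Two.pm.1 x hx, by rwa [r4_div]⟩) fun x hx y _ _ _ => (rg_sc H hx).2)
    (ncl_le r3 pm.eqv (rg_eqv H _) (fun x _ y _ u => (rg_al H u).2)
      (fun x hx k => ⟨r3_pm.1 x hx, by rwa [(e x).2]⟩) fun x hx y _ _ _ u => ?_)
  · exact Sc.ind (Q := fun d => M.al (d / 4)) pm.1 hx k
      (fun d _ v => by rw [r4_div]; exact al_lk H v) u
  · have := (rg_sc H (r3_pm.1 x hx)).1 u
    rwa [show r4 (PL.r3 x) = x from (e x).1, (e y).1] at this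

/-- The number of critical regions. -/
theorem crit_eq (H : M.Ok) : ncl (4 * M.n) (fun x => M.al (x / 4) ∧ M.Crit x) M.Rg =
    M.mu + 2 * ncl (4 * M.n) (fun p => M.al (p / 4)) (Conn (4 * M.n) r4 M.lk) := by
  have := euler H
  have := mu_add H
  have := ncl_cut (4 * M.n) (fun x => M.al (x / 4)) M.Crit M.Rg
  omega

theorem crit_ge (H : M.Ok) (h : M.al c) :
    M.mu + 2 ≤ ncl (4 * M.n) (fun x => M.al (x / 4) ∧ M.Crit x) M.Rg := by
  have o := ok_pl H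
  have := count_ge H.pl o.iv o.fix (H.lt c h) h
  rw [count H.pl o.iv o.fix] at this
  rw [crit_eq H]
  omega

end Pool.Agent.MP_1a6d78_lc.PS.Ct

end MrgPart6

-- ======== part 7: formerly Pool.Agent.MP_1a6d78_lc.PS.FBase
section MrgPart7

/-! PROJECT PSC: enough critical regions outside the clean components. -/

namespace Pool.Agent.MP_1a6d78_lc.PS

open Classical ED PR PL Ct

theorem fBase0 : S_Base := fun M H z hz => by
  obtain ⟨U, hU⟩ : ∃ U : ℕ → Prop, ∀ c, U c ↔ ∃ W, M.Clo W ∧ M.Cln z W ∧ W c :=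
    ⟨_, fun _ => Iff.rfl⟩
  have u1 : ∀ p, U (p / 4) → U (M.lk p / 4) := fun p k => by
    obtain ⟨W, k1, k2, k3⟩ := (hU _).1 k
    exact (hU _).2 ⟨W, k1, k2, k1 p k3⟩
  have u2 : ∀ x, M.Alt x → U (x / 4) → ¬M.Sad x := fun x a k s => by
    obtain ⟨W, -, k2, k3⟩ := (hU _).1 k
    have al := sad_al H s
    have := alt_mod H al a
    refine k2.2 (r4 x) ⟨by rwa [r4_div], ?_⟩ (by rwa [r4_div])
    rwa [Cm.lo, if_pos (by unfold Cm.nr at this; rw [this]; unfold r4; omega),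
      show r3 (r4 x) = x by unfold r3 r4; omega]
  obtain ⟨N, S⟩ := smo_ex H U
  have H' := smo_ok H S
  have nr : ∀ x, N.al (x / 4) → N.nr x = M.nr x := fun x k => by
    rw [← r4_div, S.al] at k
    exact (S.lk _ ((S.al _).2 k)).uniq (.stop ((S.al _).2
      ⟨al_lk H k.1, fun v => k.2 (H.inv (r4 x) ▸ u1 _ v)⟩))
  have it : ∀ x, N.al (x / 4) → ∀ t, N.al (N.nr^[t] x / 4) ∧ N.nr^[t] x = M.nr^[t] x :=
    fun x k t => by
      induction t with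
      | zero => exact ⟨k, rfl⟩
      | succ t ih =>
        rw [Function.iterate_succ_apply', Function.iterate_succ_apply', ← ih.2]
        exact ⟨(nr_al H').2 ih.1, nr _ ih.1⟩
  have rg : ∀ x, N.al (x / 4) → ∀ y, N.Rg x y ↔ M.Rg x y := fun x k y =>
    exists_congr fun t => by rw [(it x k t).2]
  have alt : ∀ x, N.al (x / 4) → (N.Alt x ↔ M.Alt x) := fun x k => by
    unfold Cm.Alt
    rw [nr x k]
  have cr : ∀ x, N.al (x / 4) → (N.Crit x ↔ M.Crit x) := fun x k => forall_congr' fun y => by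
    rw [← rg x k]
    exact forall_congr' fun v => (alt y ((rg_al H' v).2 k)).not
  have i1 := crit_ge H' ((S.al z).2 ⟨hz, fun k => by
    obtain ⟨W, -, k2, k3⟩ := (hU _).1 k
    exact k2.1 k3⟩)
  have i2 := mu_add H
  have i3 := mu_add H'
  have i4 := cnt_alt H
  have i5 := cnt_alt H'
  rw [S.n] at i1 i3 i5
  rw [ncl_cut _ _ fun x => U (x / 4)] at i2
  rw [cnt_split _ _ fun x => U (x / 4), cnt_bit] at i4
  have i6 : ncl (4 * M.n) (fun x => (M.al (x / 4) ∧ ¬M.Crit x) ∧ ¬U (x / 4)) M.Rg =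
      ncl (4 * M.n) (fun x => N.al (x / 4) ∧ ¬N.Crit x) N.Rg := cnt_congr fun x _ => by
    by_cases k : N.al (x / 4)
    · simp only [rg x k, cr x k, k, (S.al _).1 k, not_false_iff, and_true]
    · exact ⟨fun v => absurd ((S.al _).2 ⟨v.1.1.1, v.1.2⟩) k, fun v => absurd v.1.1 k⟩
  have i7 : cnt (4 * M.n) (fun x => ¬U (x / 4) ∧ M.al (x / 4) ∧ M.Alt x) =
      cnt (4 * M.n) fun x => N.al (x / 4) ∧ N.Alt x := cnt_congr fun x _ =>
    ⟨fun v => have k := (S.al _).2 ⟨v.2.1, v.1⟩; ⟨k, (alt x k).2 v.2.2⟩,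
      fun v => ⟨((S.al _).1 v.1).2, ((S.al _).1 v.1).1, (alt x v.1).1 v.2⟩⟩
  have ur : ∀ x y, M.Rg x y → U (x / 4) → U (y / 4) := fun x y v k =>
    rg_ind (Q := fun d => U (d / 4)) v k fun d w => u1 _ (by rwa [r4_div])
  have i8 : ∀ a, cnt (4 * M.n) (fun x => (U (x / 4) ∧ M.al (x / 4) ∧ M.Alt x) ∧ x % 4 / 2 = a % 2) ≤
      ncl (4 * M.n) (fun x => (M.al (x / 4) ∧ ¬M.Crit x) ∧ U (x / 4)) M.Rg := fun a => by
    refine le_trans (cnt_mono fun x _ k => ⟨k, fun e _ (v : x = e) => v.le⟩)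
      (ncl_le (r := Eq) id ⟨fun _ _ => rfl, fun _ _ _ _ => Eq.symm, fun _ _ _ _ _ _ => Eq.trans⟩
        (rg_eqv H _) (fun x _ y _ v k => ⟨⟨(rg_al H v).2 k.1.1, mt (crit_rg H v).2 k.1.2⟩,
          ur x y v k.2⟩) (fun x hx k => ⟨hx, ⟨k.1.2.1, fun v => v x (rg_refl _ _) k.1.2.2⟩, k.1.1⟩)
        fun x _ y _ k k' v => by_contra fun ne => u2 x k.1.2.2 k.1.1
          ⟨x, y, rg_refl _ _, v, ne, k.1.2.2, k'.1.2.2, ?_⟩)
    have := rg_par H v k.1.2.1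
    have := k.2
    have := k'.2
    simp only [id] at *
    omega
  have j0 := i8 0
  have j1 := i8 1
  unfold ncl PR.cnt at i1
  refine ⟨_, le_trans (by omega : _ ≤ N.mu + 2) i1, fun x k => ?_, fun x k y k' v => ?_⟩ <;>
    simp only [Finset.mem_filter, Finset.mem_range] at *
  · obtain ⟨-, ⟨k1, k2⟩, -⟩ := k
    exact ⟨((S.al _).1 k1).1, (cr x k1).1 k2, fun W w1 w2 w3 =>
      ((S.al _).1 k1).2 ((hU _).2 ⟨W, w1, w2, w3⟩)⟩
  · obtain ⟨k0, ⟨k1, -⟩, k2⟩ := k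
    obtain ⟨l0, -, l2⟩ := k'
    have := (rg x k1 y).2 v
    exact le_antisymm (k2 y l0 this)
      (l2 x k0 (rg_symm H' this))

theorem fBase : S_Walk → S_Reg → S_Base := fun _ _ => fBase0

end Pool.Agent.MP_1a6d78_lc.PS

end MrgPart7

-- ======== part 8: formerly Pool.Agent.MP_1a6d78_lc.PS.Flow
section MrgPart8

/-! PROJECT PSC: the region kit, the test for saddle links, frames of the primitives. -/

namespace Pool.Agent.MP_1a6d78_lc.PS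

open Classical ED PR PL Relation Ct

namespace Fl

variable {M : Cm} {a b c e g i j k o s u v x : ℕ}

theorem ss_os (M : Cm) (hk : k < 4) (a : ℕ) :
    (M.ss k a = k ∧ os k (M.ss k a) = (k + 3) % 4) ∨
      (M.ss k a = (k + 3) % 4 ∧ os k (M.ss k a) = k) := by
  have := Cm.ss_cases (M := M) k a
  unfold os
  split_ifs <;> omega

theorem nr_pt (H : M.Ok) (h : M.al c) (e : i % 4 = (j + 1) % 4) :
    M.nr (pt c j) = pt (M.st i c) (ep i (M.ss i c)) := by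
  rw [← H.lk_pt h, Cm.nr, show r4 (pt c j) = pt c i by unfold r4 pt; omega]

theorem nr_back (H : M.Ok) (h : M.al c) (e : (j + 1) % 4 = ep i (M.ss i c)) :
    M.nr (pt (M.st i c) j) = pt c i := by
  rw [Cm.nr, show r4 (pt (M.st i c) j) = pt (M.st i c) (ep i (M.ss i c)) by
    rw [← e]; unfold r4 pt; omega, ← H.lk_pt h, H.inv]

theorem pt_cg (c : ℕ) (e : i % 4 = j % 4) : pt c i = pt c j := by unfold pt; rw [e]

theorem rg1 (H : M.Ok) (hk : k < 4) (h : M.al a) :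
    M.Rg (pt a (M.ss k a)) (pt (M.st k a) (M.ss k a)) := by
  rcases ss_os M hk a with ⟨e, -⟩ | ⟨e, -⟩
  · have := rg_back H (pt (M.st k a) k)
    rw [nr_back H h (by rw [e]; unfold ep; simp)] at this
    rwa [e]
  · have := rg_nr M (pt a ((k + 3) % 4))
    rw [nr_pt H h (i := k) (by omega), e, show ep k ((k + 3) % 4) = (k + 3) % 4 by
      unfold ep; split_ifs <;> omega] at this
    rwa [e]

theorem rg2 (H : M.Ok) (hk : k < 4) (h : M.al a) :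
    M.Rg (pt a (os k (M.ss k a))) (pt (M.st k a) (os k (M.ss k a) + 2)) := by
  rcases ss_os M hk a with ⟨e, e'⟩ | ⟨e, e'⟩ <;> rw [e']
  · have := rg_nr M (pt a ((k + 3) % 4))
    rwa [nr_pt H h (i := k) (by omega), e, pt_cg _ (show ep k k % 4 = ((k + 3) % 4 + 2) % 4 by
      unfold ep; split_ifs <;> omega)] at this
  · have := rg_back H (pt (M.st k a) (k + 2))
    rwa [nr_back H h (by rw [e]; unfold ep; split_ifs <;> omega)] at this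

theorem plk (H : M.Ok) (p : ℕ) : M.Prb (M.lk p) ↔ M.Prb p := by
  have key : ∀ p, M.Prb p → M.Prb (M.lk p) := fun p h => by
    have := H.par p h.1
    refine ⟨al_lk H h.1, ?_⟩
    rw [show M.lo (M.lk p) = M.lo p by
      unfold Cm.lo; rw [H.inv]; split_ifs <;> first | rfl | omega]
    exact h.2
  exact ⟨fun h => H.inv p ▸ key _ h, key p⟩

theorem psad (H : M.Ok) (hk : k < 4) :
    M.Prb (pt a k) ↔ M.al a ∧ M.Sad (pt a (os k (M.ss k a))) := by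
  unfold Cm.Prb
  rw [pt_div]
  refine and_congr_right fun h => ?_
  have r := rg2 H hk h
  rw [Cm.lo, H.lk_pt h]
  rcases ss_os M hk a with ⟨e, e'⟩ | ⟨e, e'⟩ <;> rw [e'] at r ⊢ <;> rw [e]
  · rw [if_pos (by unfold pt ep; split_ifs <;> omega),
      show r3 (pt a k) = pt a ((k + 3) % 4) by unfold r3 pt; omega]
  · rw [if_neg (by unfold pt ep; split_ifs <;> omega), sad_rg H r,
      show r3 (pt (M.st k a) (ep k ((k + 3) % 4))) = pt (M.st k a) (k + 2) by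
        unfold r3 pt ep; split_ifs <;> omega]

theorem ti_iff : M.Ti i o u v ↔ ReflTransGen (fun x y => y = M.st i x ∧ M.ss i x = o) u v := by
  constructor
  · rintro ⟨t, rfl, h⟩
    induction t with
    | zero => exact .refl
    | succ t ih => exact (ih fun s k => h s (by omega)).tail ⟨Cm.wk_succ _ _ _, h t (by omega)⟩
  · intro h
    induction h with
    | refl => exact ⟨0, rfl, fun _ h => by omega⟩
    | tail _ w ih =>
      obtain ⟨t, rfl, h⟩ := ih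
      refine ⟨t + 1, (Cm.wk_succ _ _ _).trans w.1.symm, fun s k => ?_⟩
      rcases (by omega : s < t ∨ s = t) with l | rfl
      exacts [h s l, w.2]

theorem ti_al (H : M.Ok) (h : M.al u) (t : M.Ti i o u v) : M.al v := by
  obtain ⟨t, rfl, -⟩ := t
  exact H.al_wk i h t

theorem ti_rg (H : M.Ok) (hi : i < 4) (h : M.al u) (t : M.Ti i o u v) : M.Rg (pt u o) (pt v o) := by
  rw [ti_iff] at t
  induction t with
  | refl => exact rg_refl _ _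
  | tail p w ih =>
    obtain ⟨rfl, rfl⟩ := w
    exact rg_trans ih (rg1 H hi (ti_al H h (ti_iff.2 p)))

theorem rev (H : M.Ok) (hk : k < 4) (h : M.al u) (ho : o = k ∨ o = (k + 3) % 4)
    (t : M.Ti k o u v) : M.Ti (ep k o) o v u := by
  rw [ti_iff] at t ⊢
  induction t with
  | refl => exact .refl
  | @tail x y p w ih =>
    obtain ⟨rfl, e⟩ := w
    have l : M.lk (pt (M.st k x) (ep k o)) = pt x k := by
      rw [← e, ← H.lk_pt (ti_al H h (ti_iff.2 p)), H.inv]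
    refine .head ⟨by rw [Cm.st, l, pt_div], ?_⟩ ih
    rw [Cm.ss, l]
    rcases ho with rfl | rfl <;> unfold sd ep pt <;> split_ifs <;> omega

theorem ti_uniq (t : M.Ti i o c u) (h : M.ss i u ≠ o) (t' : M.Ti i o c v) (h' : M.ss i v ≠ o) :
    u = v := by
  obtain ⟨s, rfl, k⟩ := t
  obtain ⟨r, rfl, k'⟩ := t'
  rcases lt_trichotomy s r with l | rfl | l
  exacts [absurd (k' s l) h, rfl, absurd (k r l) h']

theorem ti_fe (H : M.Ok) (h : M.al c) (t : M.Ti i o c g) (e : M.ss i g ≠ o) :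
    M.FE i c (M.ss i g) = M.st i g := by
  obtain ⟨t, rfl, k⟩ := t
  rw [Cm.FE_eq H h rfl fun s l v => e (v.symm.trans (k s l)), Cm.wk_succ]

/-- The first alternation, read on the walk that hugs the region. -/
theorem run1 (H : M.Ok) (hi : i < 4) (e : j = (i + 3) % 4) (h : M.al c) (n : ¬M.Crit (pt c j)) :
    ∃ t, (∀ s < t, ¬M.Alt (M.nr^[s] (pt c j))) ∧ M.Alt (M.nr^[t] (pt c j)) ∧
      ∃ g, M.nr^[t] (pt c j) = pt g j ∧ M.Ti i j c g ∧ M.ss i g = i := by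
  have ex : ∃ t, M.Alt (M.nr^[t] (pt c j)) := by
    by_contra v
    exact n fun y ⟨t, u⟩ w => v ⟨t, u ▸ w⟩
  have al : ∀ d, M.al d → (M.Alt (pt d j) ↔ M.ss i d = i) ∧
      (M.ss i d ≠ i → M.ss i d = j ∧ M.nr (pt d j) = pt (M.st i d) j) := fun d k => by
    have := Cm.ss_cases (M := M) i d
    rw [Cm.Alt, nr_pt H k (i := i) (by omega)]
    unfold pt ep
    split_ifs <;> omega
  have key : ∀ s ≤ Nat.find ex, ∃ g, M.nr^[s] (pt c j) = pt g j ∧ M.Ti i j c g := fun s => by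
    induction s with
    | zero => exact fun _ => ⟨c, rfl, ti_iff.2 .refl⟩
    | succ s ih =>
      intro l
      obtain ⟨g, k1, k2⟩ := ih (by omega)
      obtain ⟨i1, i2⟩ := al g (ti_al H h k2)
      obtain ⟨j1, j2⟩ := i2 (mt i1.2 (k1 ▸ Nat.find_min ex l))
      exact ⟨_, by rw [Function.iterate_succ_apply', k1, j2],
        ti_iff.2 ((ti_iff.1 k2).tail ⟨rfl, j1⟩)⟩
  obtain ⟨g, k1, k2⟩ := key _ le_rfl
  exact ⟨_, fun s => Nat.find_min ex, Nat.find_spec ex, g, k1, k2,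
    (al g (ti_al H h k2)).1.1 (k1 ▸ Nat.find_spec ex)⟩

theorem not_sad {t1 t2 : ℕ} (h1 : ∀ s < t1, ¬M.Alt (M.nr^[s] (M.nr x)))
    (h2 : ∀ s < t2, ¬M.Alt (M.nr^[s] (M.nr (M.nr^[t1] (M.nr x)))))
    (e : M.nr^[t2] (M.nr (M.nr^[t1] (M.nr x))) = x) (d : M.nr^[t1] (M.nr x) % 4 ≠ x % 4) :
    ¬M.Sad x := by
  have key : ∀ y, M.Rg x y → M.Alt y → y = x ∨ y = M.nr^[t1] (M.nr x) := fun y u w => by
    have := rg_ind (Q := fun y => (∃ s ≤ t1, y = M.nr^[s] (M.nr x)) ∨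
      ∃ s ≤ t2, y = M.nr^[s] (M.nr (M.nr^[t1] (M.nr x)))) u (Or.inr ⟨t2, le_rfl, e.symm⟩) (by
        rintro _ (⟨s, l, rfl⟩ | ⟨s, l, rfl⟩) <;> rcases l.lt_or_eq with l | rfl
        · exact Or.inl ⟨s + 1, l, (Function.iterate_succ_apply' _ _ _).symm⟩
        · exact Or.inr ⟨0, by omega, rfl⟩
        · exact Or.inr ⟨s + 1, l, (Function.iterate_succ_apply' _ _ _).symm⟩
        · exact Or.inl ⟨0, by omega, by rw [e]; rfl⟩)
    rcases this with ⟨s, l, rfl⟩ | ⟨s, l, rfl⟩ <;> rcases l.lt_or_eq with l | rfl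
    exacts [absurd w (h1 s l), Or.inr rfl, absurd w (h2 s l), Or.inl e]
  rintro ⟨y, y', k1, k2, k3, k4, k5, k6⟩
  rcases key y k1 k4 with rfl | i1 <;> rcases key y' k2 k5 with i2 | i2 <;> omega

theorem alt_pt (H : M.Ok) (hk : k < 4) (h : M.al a) (e : M.ss k a = k) :
    M.nr (pt a ((k + 3) % 4)) = pt (M.st k a) ((k + 1) % 4) ∧ M.Alt (pt a ((k + 3) % 4)) := by
  rw [Cm.Alt, nr_pt H h (i := k) (by omega), e]
  unfold pt ep
  split_ifs <;> omega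

theorem turn1 (H : M.Ok) (hk : k < 4) (h : M.al a) (e : M.ss k a = k) :
    ∃ d u, M.Ti ((k + 2) % 4) ((k + 1) % 4) (M.st k a) d ∧ M.ss ((k + 2) % 4) d = (k + 2) % 4 ∧
      M.Ti k ((k + 3) % 4) (M.st ((k + 2) % 4) d) u ∧ M.ss k u = k ∧
      M.Rg (pt a ((k + 3) % 4)) (pt u ((k + 3) % 4)) ∧ (M.Sad (pt a ((k + 3) % 4)) ↔ u ≠ a) := by
  obtain ⟨a1, a2⟩ := alt_pt H hk h e
  have nc : ∀ y, M.Rg (pt a ((k + 3) % 4)) y → ¬M.Crit y := fun y u v =>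
    (crit_rg H u).2 v _ (rg_refl _ _) a2
  have hb := H.al_st k h
  have r0 := a1 ▸ rg_nr M (pt a ((k + 3) % 4))
  obtain ⟨t1, k1, -, d, k2, k3, k4⟩ := run1 H (i := (k + 2) % 4) (j := (k + 1) % 4) (by omega)
    (by omega) hb (nc _ r0)
  have hd := ti_al H hb k3
  obtain ⟨b1, -⟩ := alt_pt H (k := (k + 2) % 4) (by omega) hd k4
  rw [show ((k + 2) % 4 + 3) % 4 = (k + 1) % 4 by omega,
    show ((k + 2) % 4 + 1) % 4 = (k + 3) % 4 by omega] at b1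
  have r1 := rg_trans (rg_trans r0 ⟨t1, k2⟩) (b1 ▸ rg_nr M _)
  obtain ⟨t2, l1, l0, u, l2, l3, l4⟩ := run1 H hk rfl (H.al_st _ hd) (nc _ r1)
  have r2 := rg_trans r1 ⟨t2, l2⟩
  refine ⟨d, u, k3, k4, l3, l4, r2, fun s v => ?_, fun v => ⟨_, _, rg_refl _ _, r2, fun w => v ?_,
    a2, l2 ▸ l0, by rw [pt_mod, pt_mod]⟩⟩
  · refine not_sad (t1 := t1) (t2 := t2) ?_ ?_ ?_ ?_ s <;> rw [a1]
    · exact k1
    · rwa [k2, b1]
    · rw [k2, b1, l2, v]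
    · rw [k2, pt_mod, pt_mod]
      omega
  · rw [← pt_div u ((k + 3) % 4), ← w, pt_div]

theorem tw_ti (H : M.Ok) (h : g < 8) (ho : o < 4) (k : M.al u) :
    (M.tw g).Ti i o u v ↔ M.Ti (fp g i) (fs g o) u v := by
  unfold Cm.Ti
  simp only [tw_wk h, tw_ss_iff H h i (wk_al H k _ _) ho]

/-- The mirror that keeps the type `k`. -/
theorem mir (hk : k < 4) : ∃ g < 8, fp g k = k ∧ fp g ((k + 2) % 4) = (k + 2) % 4 ∧ fs g k = (k + 3) % 4 ∧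
    fs g ((k + 3) % 4) = k ∧ fs g ((k + 2) % 4) = (k + 1) % 4 ∧ fs g ((k + 1) % 4) = (k + 2) % 4 :=
  ⟨4 + 2 * k % 4, by omega, by interval_cases k <;> decide⟩

theorem turn0 (H : M.Ok) (hk : k < 4) (h : M.al a) :
    ∃ d u, M.Ti ((k + 2) % 4) ((os k (M.ss k a) + 2) % 4) (M.st k a) d ∧
      M.ss ((k + 2) % 4) d = (M.ss k a + 2) % 4 ∧
      M.Ti k (os k (M.ss k a)) (M.st ((k + 2) % 4) d) u ∧ M.ss k u = M.ss k a ∧
      M.Rg (pt a (os k (M.ss k a))) (pt u (os k (M.ss k a))) ∧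
      (M.Sad (pt a (os k (M.ss k a))) ↔ u ≠ a) := by
  rcases ss_os M hk a with ⟨e, e'⟩ | ⟨e, e'⟩ <;> rw [e', e]
  · rw [show ((k + 3) % 4 + 2) % 4 = (k + 1) % 4 by omega]
    exact turn1 H hk h e
  · obtain ⟨g, hg, g1, g2, g3, g4, g5, g6⟩ := mir hk
    obtain ⟨d, u, k1, k2, k3, k4, k5, k6⟩ := turn1 (tw_ok H hg) hk (tw_al H hg ▸ h)
      ((tw_ss_iff H hg k h hk).2 (by rw [g1, g3, e]))
    rw [tw_st hg, g1, tw_ti H hg (by omega) (H.al_st k h), g2, g6] at k1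
    have hd := ti_al H (H.al_st k h) k1
    rw [tw_st hg, g2, tw_ti H hg (by omega) (H.al_st _ hd), g1, g4] at k3
    rw [tw_ss_iff H hg _ hd (by omega), g2, g5] at k2
    rw [tw_ss_iff H hg _ (ti_al H (H.al_st _ hd) k3) hk, g1, g3] at k4
    rw [tw_rg H hg, ts_pt, ts_pt, g4] at k5
    rw [tw_sad H hg, ts_pt, g4] at k6
    exact ⟨d, u, k1, by rw [k2]; omega, k3, k4, k5, k6⟩

theorem turn (H : M.Ok) (hk : k < 4) (h : M.al a) :
    M.FE ((k + 2) % 4) (M.st k a) ((M.ss k a + 2) % 4) < M.n ∧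
    ∃ u, M.Ti k (os k (M.ss k a)) (M.FE ((k + 2) % 4) (M.st k a) ((M.ss k a + 2) % 4)) u ∧
      M.ss k u = M.ss k a ∧ (M.Prb (pt a k) ↔ u ≠ a) ∧ (u ≠ a → M.Prb (pt u k)) := by
  obtain ⟨d, u, k1, k2, k3, k4, k5, k6⟩ := turn0 H hk h
  have hd := H.al_st ((k + 2) % 4) (ti_al H (H.al_st k h) k1)
  have := ss_os M hk a
  rw [← k2, ti_fe H (H.al_st k h) k1 (by omega)]
  exact ⟨H.lt _ hd, u, k3, k4, by rw [psad H hk, and_iff_right h, k6], fun v => by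
    rw [psad H hk, k4]; exact ⟨ti_al H hd k3, (sad_rg H k5).1 (k6.2 v)⟩⟩

theorem run2 (H : M.Ok) (hi : i < 4) (ho : o = i ∨ o = (i + 3) % 4) (h : M.al c)
    (n : ¬M.Crit (pt c o)) : ∃ g, M.Ti i o c g ∧ M.ss i g ≠ o := by
  rcases ho with rfl | rfl
  · obtain ⟨g, hg, g1, -, g3, g4, -⟩ := mir hi
    obtain ⟨-, -, -, d, -, k1, k2⟩ := run1 (tw_ok H hg) hi rfl (tw_al H hg ▸ h)
      (by rwa [tw_crit H hg, ts_pt, g4])
    rw [tw_ti H hg (by omega) h, g1, g4] at k1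
    rw [tw_ss_iff H hg _ (ti_al H h k1) hi, g1, g3] at k2
    exact ⟨d, k1, by omega⟩
  · obtain ⟨-, -, -, d, -, k1, k2⟩ := run1 H hi rfl h n
    exact ⟨d, k1, by omega⟩

theorem bk (H : M.Ok) (hk : k < 4) (h : M.al a) :
    ∃ g, M.Ti (ep k (os k (M.ss k a))) (os k (M.ss k a)) a g ∧
      M.ss (ep k (os k (M.ss k a))) g ≠ os k (M.ss k a) ∧
      (M.Prb (pt g (ep k (os k (M.ss k a)))) ↔ M.Prb (pt a k)) := by
  have r := rg2 H hk h
  have c := ss_os M hk a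
  rw [psad H hk]
  generalize os k (M.ss k a) = o at *
  have e : ep k o < 4 ∧ (o = ep k o ∨ o = (ep k o + 3) % 4) := by unfold ep; split_ifs <;> omega
  obtain ⟨g, k1, k2⟩ := run2 H e.1 e.2 h fun v => by
    have := crit_mod v r
    rw [pt_mod, pt_mod] at this
    omega
  have := ss_os M e.1 g
  refine ⟨g, k1, k2, ?_⟩
  rw [psad H e.1, show os (ep k o) (M.ss (ep k o) g) = o by omega, and_iff_right h,
    and_iff_right (ti_al H h k1), sad_rg H (ti_rg H e.1 h k1)]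

theorem trace (H : M.Ok) (hk : k < 4) (χ : ℕ → Prop)
    (hχ : ∀ c, M.al c → (χ (M.st ((k + 2) % 4) c) ↔ χ c)) (h : M.al a)
    (d : ¬(χ a ↔ χ (M.st k a))) (p : ¬M.Prb (pt a k)) : ∃ a', M.al a' ∧ M.Pa k (M.st k a') a ∧
      M.ss k a' ≠ M.ss k a ∧ (χ a' ↔ χ (M.st k a)) ∧ (χ (M.st k a') ↔ χ a) := by
  obtain ⟨k0, u, k1, -, k2, -⟩ := turn H hk h
  obtain rfl : u = a := not_not.1 (mt k2.2 p)
  obtain ⟨-, t, k3, -⟩ := Cm.FE_spec H k0
  have hb := H.al_st k h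
  have inv := iter_inv (f := M.st ((k + 2) % 4)) (Q := fun c => M.al c ∧ (χ c ↔ χ (M.st k u)))
    (fun c v => ⟨H.al_st _ v.1, (hχ c v.1).trans v.2⟩) ⟨hb, Iff.rfl⟩ (t + 1)
  rw [show (M.st ((k + 2) % 4))^[t + 1] (M.st k u) = _ from k3.symm] at inv
  generalize M.FE ((k + 2) % 4) (M.st k u) ((M.ss k u + 2) % 4) = e at *
  have key : ∀ v, ReflTransGen (fun x y => y = M.st k x ∧ M.ss k x = os k (M.ss k u)) e v →
      ¬(χ v ↔ χ e) → ∃ a', M.al a' ∧ M.Pa k (M.st k a') v ∧ M.ss k a' = os k (M.ss k u) ∧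
        (χ a' ↔ χ e) ∧ ¬(χ (M.st k a') ↔ χ e) := fun v w => by
    induction w with
    | refl => exact fun n => absurd Iff.rfl n
    | @tail x y w s ih =>
      obtain ⟨rfl, s⟩ := s
      intro n
      by_cases l : χ x ↔ χ e
      · exact ⟨x, ti_al H inv.1 (ti_iff.2 w), Cm.Pa.refl _ _, s, l, n⟩
      · obtain ⟨a', j1, j2, j3⟩ := ih l
        exact ⟨a', j1, j2.trans (Cm.Pa.step _ _), j3⟩
  obtain ⟨a', j1, j2, j3, j4, j5⟩ := key u (ti_iff.1 k1) (by tauto)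
  have := ss_os M hk u
  exact ⟨a', j1, j2, by omega, by tauto, by tauto⟩

theorem back {n : ℕ} (S : ℕ → Prop) (r : ℕ → ℕ → Prop) (h : ∀ a, S a → a < n ∧ ∃ b, S b ∧ r b a)
    (k : ∃ a, S a) : ∃ a, S a ∧ TransGen r a a := by
  obtain ⟨a, k⟩ := k
  have e : ∀ a, ∃ b, S a → S b ∧ r b a := fun a => by
    by_cases u : S a
    · exact (h a u).2.imp fun _ v _ => v
    · exact ⟨0, fun v => absurd v u⟩
  choose f hf using e
  obtain ⟨s, l, e⟩ := iter_bnd' (Q := S) (f := f) (fun a u => (hf a u).1) (fun a u => (h a u).1) k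
    (rfl : f^[n] a = _)
  have sa := iter_inv (Q := S) (f := f) (fun a u => (hf a u).1) k s
  have := (iter_inv (f := f) (Q := fun b => S b ∧ TransGen r b (f^[s] a))
    (fun b u => ⟨(hf b u.1).1, u.2.head (hf b u.1).2⟩) ⟨(hf _ sa).1, .single (hf _ sa).2⟩
    (n - s - 1)).2
  rw [← Function.iterate_succ_apply, ← Function.iterate_add_apply,
    show (n - s - 1).succ + s = n by omega, ← e] at this
  exact ⟨_, sa, this⟩

end Fl

theorem flowS : FlowS := fun _ H =>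
  ⟨fun _ hk _ => Fl.rg1 H hk, fun _ hk _ => Fl.rg2 H hk, Fl.plk H, fun _ hk _ => Fl.psad H hk,
    fun _ hk _ => Fl.turn H hk, fun _ hk _ => Fl.bk H hk, fun _ hk _ _ _ => Fl.rev H hk,
    fun _ hk χ _ => Fl.trace H hk χ, Fl.back⟩

theorem prbS : PrbS := fun M P H G p => by
  unfold Pr.prb
  rw [G.al]
  by_cases h : M.al (p / 4)
  swap
  · exact ⟨fun v => absurd v.1 h, fun v => absurd v.1 h⟩
  have e : P.lo p = M.lo p := by unfold Pr.lo Cm.lo; rw [G.lam, if_pos h]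
  have par := H.par p h
  obtain ⟨a, k, hk, ha, e1, e2, e3⟩ : ∃ a k, k < 4 ∧ M.al a ∧ M.lo p = pt a k ∧ M.ss k a = k ∧
      (M.Prb p ↔ M.Prb (pt a k)) := by
    unfold Cm.lo
    split_ifs with u
    · have : pt (p / 4) (p % 4) = p := by unfold pt; omega
      exact ⟨p / 4, p % 4, by omega, h, this.symm, by
        rw [Cm.ss, this]; unfold sd; split_ifs <;> omega, by rw [this]⟩
    · have : pt (M.lk p / 4) (M.lk p % 4) = M.lk p := by unfold pt; omega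
      exact ⟨M.lk p / 4, M.lk p % 4, by omega, al_lk H h, this.symm, by
        rw [Cm.ss, this, H.inv]; unfold sd; split_ifs <;> omega, by rw [this, Fl.plk H]⟩
  obtain ⟨d, u, k1, k2, k3, k4, -, k6⟩ := Fl.turn0 H hk ha
  obtain ⟨g, l1, l2, -⟩ := Fl.bk H hk ha
  rw [e3, Fl.psad H hk, k6, and_iff_right h, and_iff_right ha, e, e1, G.lam (pt a k), pt_div,
    if_pos ha, show (pt a k + 3) % 4 = (k + 3) % 4 by unfold pt; omega,
    show (pt a k + 2) % 4 = (k + 2) % 4 by unfold pt; omega, G.FE _ (by omega) _ (by omega),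
    G.FE _ (by omega) _ (by omega)]
  have o : os k (M.ss k a) = (k + 3) % 4 := by rw [e2]; simp [os]
  have w : ep k ((k + 3) % 4) = (k + 3) % 4 := by unfold ep; split_ifs <;> omega
  rw [o, w] at l1 l2
  rw [o] at k1 k3
  rw [e2] at k2 k4
  have hb := H.al_st k ha
  have hd := Fl.ti_al H hb k1
  have hg := Fl.ti_al H ha l1
  have s : M.ss ((k + 3) % 4) g = (k + 2) % 4 := by
    have := Cm.ss_cases (M := M) ((k + 3) % 4) g
    omega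
  have f1 := Fl.ti_fe H ha l1 l2
  have f2 := Fl.ti_fe H hb k1 (by omega)
  rw [s] at f1
  rw [k2] at f2
  have b1 := H.lk_pt (i := (k + 3) % 4) hg
  have b2 := H.lk_pt (i := (k + 2) % 4) hd
  rw [f1, show M.lk (pt a k) / 4 = M.st k a from rfl, f2, G.lam, pt_div, if_pos (H.al_st _ hg),
    Fl.pt_cg (j := ep ((k + 3) % 4) (M.ss ((k + 3) % 4) g)) _ (by
      rw [s]; unfold pt ep; split_ifs <;> omega), ← b1, H.inv]
  have he := H.al_st ((k + 2) % 4) hd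
  have se : M.ss ((k + 3) % 4) (M.st ((k + 2) % 4) d) ≠ (k + 3) % 4 := by
    rw [Cm.ss, Fl.pt_cg (j := ep ((k + 2) % 4) (M.ss ((k + 2) % 4) d)) _ (by
      rw [k2]; unfold ep; split_ifs <;> omega), ← b2, H.inv]
    unfold sd pt
    split_ifs <;> omega
  refine not_congr ⟨fun v => ?_, fun v => ?_⟩
  · obtain rfl : g = M.st ((k + 2) % 4) d := by unfold pt at v; omega
    have := Fl.rev H (by omega) ha (Or.inl rfl) l1
    rw [show ep ((k + 3) % 4) ((k + 3) % 4) = k by unfold ep; split_ifs <;> omega] at this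
    exact Fl.ti_uniq k3 (by omega) this (by omega)
  · have := Fl.rev H hk he (Or.inr rfl) k3
    rw [w, v] at this
    rw [Fl.ti_uniq l1 l2 this se]
    unfold pt
    omega

/-- The primitives in another frame. -/
theorem geo_tw {M : Cm} {P : Pr} {g : ℕ} (H : M.Ok) (G : Geo M P) (h : g < 8) :
    Geo (M.tw g) (P.tw M.n g) := by
  refine ⟨G.al.trans (tw_al H h).symm, fun p => ?_, tw_nm H h G.nm, fun i _ a ha c => ?_,
    fun fl a b A B ha hb ne wA wB => ?_⟩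
  · rw [tw_al H h]
    show ite (P.al _) (tp _ (P.lam _)) _ = _
    rw [G.lam, tp_div, G.al]
    split_ifs <;> rfl
  · rw [tw_fe H h i c ha]
    exact G.FE _ (fp_lt _ _) _ (fs_lt _ _) c
  · have wo : ∀ A, (M.tw g).wo A → M.wo (A.tw g) ∧ ((M.tw g).ok A ↔ M.ok (A.tw g)) := fun A w => by
      unfold Cm.wo at *
      rw [tw_al H h] at w
      have : M.al A.p → M.ok (A.tw g) := fun k => (tw_sok H h (w k).1).1 (w k)
      exact ⟨this, fun k => this (tw_al H h ▸ k.2.1), fun k => w k.2.1⟩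
    have sv : ∀ (A : Sg) a t, a < 4 → M.al A.p →
        ((M.tw g).sv A t = a ↔ M.sv (A.tw g) t = fs g a) := fun A a t ha k => by
      unfold Cm.sv
      split_ifs
      · have := fs_lt g a
        have := fs_inj (a := A.s) (b := a) h
        show _ ↔ ite _ _ _ = _
        split_ifs <;> omega
      · rw [tw_wk h]
        exact tw_ss_iff H h _ (wk_al H k _ _) ha
    have el : ∀ A, (M.tw g).el A = M.el (A.tw g) ∧ (M.tw g).ln A = M.ln (A.tw g) := fun A =>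
      ⟨tw_el h A, tw_ln h A⟩
    refine (G.F fl _ _ _ _ (fs_lt _ _) (fs_lt _ _) (fun e => ne (by
      have := (fs_inj h).1 e; omega)) (wo A wA).1 (wo B wB).1).trans ?_
    unfold Cm.F
    rw [(wo A wA).2, (wo B wB).2, tw_n]
    by_cases k : M.ok (A.tw g) ∧ M.ok (B.tw g)
    · have e : (M.tw g).hit a b A B = M.hit (fs g a) (fs g b) (A.tw g) (B.tw g) := by
        funext t
        unfold Cm.hit Cm.Ps
        simp only [(el _).1, (el _).2, sv A a _ ha k.1.2.1, sv B b _ hb k.2.2.1]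
      rw [e, (el A).1]
    · rw [if_neg fun v => k ⟨v.1, v.2.1⟩, if_neg fun v => k ⟨v.1, v.2.1⟩]

end Pool.Agent.MP_1a6d78_lc.PS

end MrgPart8

-- marker of a merged file
example : 731051 + 864963 = 731051 + 864963 := rfl
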