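import Pool.Agent.MP_1a6d78_lc.PS.Drop
import Pool.Agent.MP_1a6d78_lc.PS.Flow
import Pool.Agent.MP_1a6d78_lc.PS.KList
import Pool.Agent.MP_1a6d78_lc.PS.FStep

-- ======== part 0: formerly Pool.Agent.MP_1a6d78_lc.PS.FCutEx
section MrgPart0

/-! PROJECT PSC, row CUTEX: the cut of the machine is a cut of a system; cuts of one ring exist. -/

namespace Pool.Agent.MP_1a6d78_lc.PS

open Classical ED PR PL Relation

namespace FCutEx

variable {M : Cm}

theorem pa_refl (i a : ℕ) : M.Pa i a a := ⟨0, rfl⟩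

theorem pa_st {i a b : ℕ} (h : M.Pa i a b) : M.Pa i a (M.st i b) := by
  obtain ⟨t, rfl⟩ := h
  exact ⟨t + 1, Function.iterate_succ_apply' _ _ _⟩

theorem co_iff (W : WalkK M) {i v y : ℕ} (hv : M.Per i v) :
    M.Per i y ∧ M.Co i y v ↔ M.Pa i v y :=
  ⟨fun h => (W.per_pa i y v h.1 ((W.co_per i y v hv).1 h.2)).2, fun h =>
    ⟨(W.per_pa i v y hv h).1, y, pa_refl i y, h⟩⟩

theorem rs_zr (W : WalkK M) {R : ℕ → Prop} (hR : ∀ v, R v → M.Ring v) : M.Rs (M.Zr R) := by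
  rintro t y ⟨rfl, hy, v, hv, hc⟩
  have h1 := (W.ring v).1 (hR v hv)
  have h2 := (co_iff W h1.1).1 ⟨hy, hc⟩
  have h3 := (co_iff W h1.1).2 (pa_st h2)
  exact ⟨by omega, W.rn_pa 0 v y h1 h2, rfl, h3.1, v, hv, h3.2⟩

theorem cut_iff (W : WalkK M) (M' : Cm) (R : ℕ → Prop) : M.Cutm M' R ↔ M.Cutx M' (M.Zr R) := by
  constructor
  · intro S
    refine ⟨S.n, S.inv, ?_, fun p h => S.off p ?_⟩
    · rintro t y a ⟨rfl, -, v, hv, hc⟩ k
      exact S.ring v a y hv ⟨k, hc⟩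
    · rintro ⟨v, a, hv, k, e⟩
      exact h ⟨0, a, ⟨rfl, (W.kd_per 0 a _ k.1).1, v, hv, k.2⟩, k.1, e⟩
  · intro S
    refine ⟨S.n, S.inv, fun v a y hv k =>
      S.ring 0 y a ⟨rfl, (W.kd_per 0 a _ k.1).1, v, hv, k.2⟩ k.1, fun p h => S.off p ?_⟩
    rintro ⟨t, a, ⟨rfl, -, v, hv, hc⟩, k, e⟩
    exact h ⟨v, a, hv, ⟨k, hc⟩, e⟩

theorem rs_one (W : WalkK M) {t v : ℕ} (ht : t < 4) (h : M.Rng t v) : M.Rs (M.One t v) := by
  rintro s y ⟨rfl, hy⟩
  exact ⟨ht, W.rn_pa s v y h hy, rfl, pa_st hy⟩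

end FCutEx

theorem fCutEx : S_Walk → S_Tw → S_TwC → S_CutEx := by
  intro hW hT hC M H
  have W := hW M H
  refine ⟨fun M' R hR => ⟨FCutEx.rs_zr W hR, FCutEx.cut_iff W M' R, fun S => Ct.cutm_ok H S⟩,
    fun t ht v hv => ⟨FCutEx.rs_one W ht hv, ?_⟩⟩
  have T := hT M H t (by omega)
  have e0 : fp t 0 = t := by unfold fp; split_ifs; omega
  have WN := hW _ T.ok
  have hN : (M.tw t).Ring v := (WN.ring v).2 ((T.rn 0 v).2 (e0.symm ▸ hv))
  obtain ⟨N', S⟩ := Ct.cutm_ex T.ok (fun u => u = v)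
  have o := Ct.cutm_ok T.ok S
  have hg : gi t < 8 := Ct.gi_lt (by omega)
  have hs : (M.tw t).Rs ((M.tw t).Zr fun u => u = v) :=
    FCutEx.rs_zr WN fun u hu => hu ▸ hN
  have C := (hC _ N' _ T.ok o hs ((FCutEx.cut_iff WN N' _).1 S) (gi t) hg).2
  rw [T.back] at C
  refine ⟨N'.tw (gi t), (hT N' o _ hg).ok, ?_⟩
  have e : (fun s y => s < 4 ∧ ((M.tw t).Zr fun u => u = v) (fp (gi t) s) y) = M.One t v := by
    funext s y
    have e1 : s < 4 ∧ fp (gi t) s = 0 ↔ s = t := by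
      unfold fp gi
      split_ifs <;> omega
    have e2 := FCutEx.co_iff W (y := y) hv.1
    apply propext
    constructor
    · rintro ⟨a, b, c, u, rfl, d⟩
      rw [T.per, e0] at c
      rw [T.co, e0] at d
      exact ⟨e1.1 ⟨a, b⟩, e2.1 ⟨c, d⟩⟩
    · rintro ⟨a, b⟩
      have := e2.2 b
      refine ⟨(e1.2 a).1, (e1.2 a).2, ?_, v, rfl, ?_⟩
      · rw [T.per, e0]; exact this.1
      · rw [T.co, e0]; exact this.2
  rwa [e] at C

end Pool.Agent.MP_1a6d78_lc.PS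

end MrgPart0

-- ======== part 1: formerly Pool.Agent.MP_1a6d78_lc.PS.FCutN
section MrgPart1

/-! PROJECT PSC, row CUTN: one step along a region after a cut. -/

namespace Pool.Agent.MP_1a6d78_lc.PS

open Classical ED PR PL Relation Cm

noncomputable section

namespace FCutN

variable {M M' : Cm} {R : ℕ → ℕ → Prop}

theorem ep_a (t : ℕ) : ep t (t % 4) = (t + 1) % 4 := by unfold ep; rw [if_pos (by omega)]

theorem ep_b (t : ℕ) : ep t ((t + 3) % 4) = (t + 3) % 4 := by unfold ep; rw [if_neg (by omega)]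

theorem R_wk (hR : M.Rs R) {t y : ℕ} (h : R t y) (s : ℕ) : R t (M.wk t y s) := by
  induction s with
  | zero => exact h
  | succ s ih => rw [wk_succ]; exact (hR _ _ ih).2.2

theorem kd_st {t u : ℕ} (h : M.Per t u) : M.Kd t (M.ss t u) (M.st t u) := ⟨u, h, rfl, rfl⟩

theorem back (ok : M.Ok) {i c : ℕ} (hc : M.al c) :
    M.lk (pt (M.st i c) (ep i (M.ss i c))) = pt c i := by rw [← ok.lk_pt hc, ok.inv]

/-- A changed port. -/
def Chg (M : Cm) (R : ℕ → ℕ → Prop) (p : ℕ) : Prop :=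
  ∃ t a, R t (p / 4) ∧ M.Kd t a (p / 4) ∧ (p % 4 = t ∨ p % 4 = ep t a)

theorem chg_lk (ok : M.Ok) (hR : M.Rs R) {p : ℕ} (h : Chg M R p) : Chg M R (M.lk p) := by
  obtain ⟨t, a, r, k, e | e⟩ := h
  · have per := k.per ok
    have t4 := (hR _ _ r).1
    have e1 : p = pt (p / 4) t := by unfold pt; omega
    have e2 : M.lk p = pt (M.st t (p / 4)) (ep t (M.ss t (p / 4))) := by
      rw [← ok.lk_pt per.1, ← e1]
    refine ⟨t, M.ss t (p / 4), ?_, ?_, Or.inr ?_⟩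
    · rw [e2, pt_div]; exact (hR _ _ r).2.2
    · rw [e2, pt_div]; exact kd_st per
    · rw [e2, pt_mod]; unfold ep; split_ifs <;> omega
  · obtain ⟨u, per, e1, e2⟩ := k
    have t4 := (hR _ _ r).1
    have e3 : p = pt (M.st t u) (ep t (M.ss t u)) := by
      rw [e1, e2, ← e]; unfold pt; omega
    have e4 : M.lk p = pt u t := by rw [e3, back ok per.1]
    obtain ⟨s, hs⟩ := per.2
    obtain ⟨b, kb⟩ := per.kd ok
    refine ⟨t, b, ?_, ?_, Or.inl ?_⟩
    · rw [e4, pt_div, ← hs, e1]; exact R_wk hR r s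
    · rw [e4, pt_div]; exact kb
    · rw [e4, pt_mod]; omega

theorem kd_cases {t a y : ℕ} (k : M.Kd t a y) : a = t % 4 ∨ a = (t + 3) % 4 := by
  obtain ⟨u, -, -, rfl⟩ := k
  exact ss_cases t u

theorem cor_chg (hR : M.Rs R) {x : ℕ} (h : M.Cor R x) : Chg M R x := by
  obtain ⟨t, r, k⟩ := h
  have t4 := (hR _ _ r).1
  refine ⟨t, x % 4, r, k, ?_⟩
  rcases kd_cases k with e | e
  · left; omega
  · right; rw [e, ep_b]

theorem kd_ent (ok : M.Ok) {t a y : ℕ} (k : M.Kd t a y) :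
    M.lk (pt y (ep t a)) % 4 = t % 4 ∧ M.Per t (M.lk (pt y (ep t a)) / 4) := by
  obtain ⟨u, per, rfl, rfl⟩ := k
  rw [back ok per.1, pt_mod, pt_div]
  exact ⟨rfl, per⟩

/-- The goal. -/
def Goal (M M' : Cm) (R : ℕ → ℕ → Prop) (x : ℕ) : Prop :=
  ∃ k, 0 < k ∧ M'.nr x = M.nr^[k] x ∧ ¬M.Cor R (M'.nr x) ∧
    (∀ s, 0 < s → s < k → M.Cor R (M.nr^[s] x)) ∧
    (1 < k → M'.Alt x ∧ ∃ s < k, M.Alt (M.nr^[s] x) ∧ M.nr^[s] x % 4 = x % 4 ∧
      ∀ s' < k, M.Alt (M.nr^[s'] x) → s' = s)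

theorem exit (hS : S_Sep) (ok : M.Ok) (hR : M.Rs R) (hC : M.Cutx M' R) {t c : ℕ} (r : R t c)
    (k : M.Kd t (t % 4) c) : Goal M M' R (pt c (t + 3)) := by
  have t4 := (hR _ _ r).1
  have per := k.per ok
  have r4e : ∀ y, r4 (pt y (t + 3)) = pt y t := fun y => by unfold r4 pt; omega
  have lt : M.FE t c (t % 4) < M.n := by
    obtain ⟨u, pu, e1, e2⟩ := k
    obtain ⟨s, hs⟩ := pu.2
    rw [e1] at hs
    rcases FE_le ok t c (t % 4) with e | e
    · exact absurd (by rw [hs, e2]) ((FE_none ok per.1).1 e s)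
    · exact ok.lt _ e
  obtain ⟨-, j, f1, f2, f3⟩ := FE_spec ok lt
  have pw : ∀ s, M.Per t (M.wk t c s) := fun s => (per.pa ok (Pa.wk _ _ _)).1
  have f4 : ∀ s < j, M.ss t (M.wk t c s) = (t + 3) % 4 := fun s hs =>
    (ss_cases t _).resolve_left (f3 s hs)
  have it : ∀ s ≤ j, M.nr^[s] (pt c (t + 3)) = pt (M.wk t c s) (t + 3) := by
    intro s
    induction s with
    | zero => exact fun _ => rfl
    | succ s ih =>
      intro hs
      rw [Function.iterate_succ_apply', ih (by omega), nr, r4e, ok.lk_pt (pw s).1,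
        f4 s (by omega), ep_b, wk_succ]
      unfold pt; omega
  have last : M.nr^[j + 1] (pt c (t + 3)) = pt (M.wk t c (j + 1)) (t + 1) := by
    rw [Function.iterate_succ_apply', it j le_rfl, nr, r4e, ok.lk_pt (pw j).1, f2, ep_a, wk_succ]
    unfold pt; omega
  have new : M'.nr (pt c (t + 3)) = pt (M.wk t c (j + 1)) (t + 1) := by
    rw [nr, r4e, hC.ring t c _ r k, f1, ep_a]
    unfold pt; omega
  have kf : M.Kd t (t % 4) (M.wk t c (j + 1)) := by rw [wk_succ, ← f2]; exact kd_st (pw j)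
  refine ⟨j + 1, Nat.succ_pos _, new.trans last.symm, ?_, fun s s0 hs => ?_, fun _ => ⟨?_, j,
    Nat.lt_succ_self _, ?_, ?_, fun s' hs' a => ?_⟩⟩
  · rw [new]
    rintro ⟨t', r', k'⟩
    rw [pt_div] at r' k'
    rw [pt_mod] at k'
    have t4' := (hR _ _ r').1
    rcases kd_cases k' with e | e
    · refine (hS M ok t t4 _ (hR _ _ (R_wk hR r (j + 1))).2.1).1 _ kf ?_
      rw [ep_a, e, Nat.mod_eq_of_lt t4']
      exact k'.per ok
    · have a1 := (kd_ent ok kf).1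
      have a2 := (kd_ent ok k').1
      rw [ep_a] at a1
      rw [e, ep_b, ← e, a1] at a2
      omega
  · obtain ⟨s, rfl⟩ := Nat.exists_eq_succ_of_ne_zero s0.ne'
    rw [it _ (by omega)]
    refine ⟨t, ?_, ?_⟩
    · rw [pt_div]; exact R_wk hR r _
    · rw [pt_div, pt_mod, wk_succ, ← f4 s (by omega)]; exact kd_st (pw s)
  · unfold Alt; rw [new, pt_mod, pt_mod]; omega
  · unfold Alt
    rw [← Function.iterate_succ_apply' M.nr, last, it j le_rfl, pt_mod, pt_mod]; omega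
  · rw [it j le_rfl, pt_mod, pt_mod]
  · by_contra ne
    unfold Alt at a
    rw [← Function.iterate_succ_apply' M.nr, it (s' + 1) (by omega), it s' (by omega), pt_mod,
      pt_mod] at a
    exact a rfl

theorem prev (ok : M.Ok) {t a c : ℕ} (k : M.Kd t a c) : ∃ m j, M.Kd t a (M.wk t c m) ∧
    M.wk t (M.wk t c m) (j + 1) = c ∧ M.ss t (M.wk t (M.wk t c m) j) = a ∧
      ∀ s < j, M.ss t (M.wk t (M.wk t c m) s) ≠ a := by
  have per := k.per ok
  obtain ⟨n, hn⟩ := per.2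
  rw [← wk_succ'] at hn
  have pw : ∀ s, M.Per t (M.wk t c s) := fun s => (per.pa ok (Pa.wk _ _ _)).1
  have g1 := Nat.findGreatest_spec (P := fun m => M.Kd t a (M.wk t c m)) (Nat.zero_le n) k
  have g2 := Nat.findGreatest_le (P := fun m => M.Kd t a (M.wk t c m)) n
  have g3 := fun s => Nat.findGreatest_is_greatest (P := fun m => M.Kd t a (M.wk t c m))
    (n := n) (k := s)
  generalize Nat.findGreatest (fun m => M.Kd t a (M.wk t c m)) n = m at g1 g2 g3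
  obtain ⟨j, rfl⟩ := Nat.exists_eq_add_of_le g2
  refine ⟨m, j, g1, by rw [← wk_add, ← add_assoc, hn], ?_, fun s hs e => ?_⟩
  · rw [← wk_add]
    refine Kd.uniq ok (kd_st (pw (m + j))) ?_
    rw [← wk_succ, hn]; exact k
  · refine g3 (m + s + 1) (by omega) (by omega) ?_
    rw [← wk_add] at e
    show M.Kd t a (M.wk t c (m + s + 1))
    rw [wk_succ, ← e]; exact kd_st (pw (m + s))

theorem entry (hS : S_Sep) (ok : M.Ok) (hR : M.Rs R) (hC : M.Cutx M' R) {t c : ℕ} (r : R t c)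
    (k : M.Kd t ((t + 3) % 4) c) : Goal M M' R (pt c (t + 2)) := by
  have t4 := (hR _ _ r).1
  obtain ⟨m, j, kg, f1, f2, f3⟩ := prev ok k
  have rg := R_wk hR r m
  generalize M.wk t c m = g at kg f1 f2 f3 rg
  have per := kg.per ok
  have pw : ∀ s, M.Per t (M.wk t g s) := fun s => (per.pa ok (Pa.wk _ _ _)).1
  have f4 : ∀ s < j, M.ss t (M.wk t g s) = t % 4 := fun s hs =>
    (ss_cases t _).resolve_right (f3 s hs)
  have e0 : r4 (pt c (t + 2)) = pt c ((t + 3) % 4) := by unfold r4 pt; omega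
  have e1 : ∀ y, r4 (pt y t) = pt y ((t + 1) % 4) := fun y => by unfold r4 pt; omega
  have it : ∀ s i, s + i = j → M.nr^[s + 1] (pt c (t + 2)) = pt (M.wk t g i) t := by
    intro s
    induction s with
    | zero =>
      intro i hi
      have : i = j := by omega
      subst this
      show M.nr (pt c (t + 2)) = _
      rw [nr, e0, ← back ok (pw i).1, f2, ep_b, ← wk_succ, f1]
    | succ s ih =>
      intro i hi
      rw [Function.iterate_succ_apply', ih (i + 1) (by omega), nr, e1, ← back ok (pw i).1,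
        f4 i (by omega), ep_a, wk_succ]
  have new : M'.nr (pt c (t + 2)) = pt g t := by
    rw [nr, e0, ← hC.inv (pt g t), hC.ring t g _ rg kg, FE_eq ok per.1 f2 f3, f1, ep_b]
  have md : ∀ s ≤ j, M.nr^[s + 1] (pt c (t + 2)) % 4 = t % 4 := fun s hs => by
    rw [it s (j - s) (by omega), pt_mod]
  refine ⟨j + 1, Nat.succ_pos _, new.trans (it j 0 rfl).symm, ?_, fun s s0 hs => ?_, fun _ => ⟨?_, 0,
    Nat.succ_pos _, ?_, rfl, fun s' hs' a => ?_⟩⟩
  · rw [new]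
    rintro ⟨t', r', k'⟩
    rw [pt_div] at r' k'
    rw [pt_mod] at k'
    have t4' := (hR _ _ r').1
    rcases kd_cases k' with e | e
    · have : t' = t := by omega
      subst this
      have := Kd.uniq ok k' kg
      omega
    · obtain ⟨a1, a2⟩ := kd_ent ok k'
      have e2 : pt g (ep t' (t % 4)) = pt g t := by rw [e, ep_b, ← e]; unfold pt; omega
      rw [e2] at a1 a2
      have e3 : M.ss t g = t % 4 := by unfold ss sd; rw [if_pos (by omega)]
      refine (hS M ok t t4 _ (hR _ _ (hR _ _ rg).2.2).2.1).1 _ (kd_st per) ?_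
      rw [e3, ep_a, show (t + 1) % 4 = t' by omega]
      exact a2
  · obtain ⟨s, rfl⟩ := Nat.exists_eq_succ_of_ne_zero s0.ne'
    obtain ⟨i, hi⟩ : ∃ i, s + (i + 1) = j := ⟨j - s - 1, by omega⟩
    rw [it s _ hi]
    refine ⟨t, ?_, ?_⟩
    · rw [pt_div]; exact R_wk hR rg _
    · rw [pt_div, pt_mod, wk_succ, ← f4 i (by omega)]; exact kd_st (pw i)
  · unfold Alt; rw [new, pt_mod, pt_mod]; omega
  · have := md 0 (Nat.zero_le _)
    show M.nr^[0 + 1] (pt c (t + 2)) % 4 ≠ pt c (t + 2) % 4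
    rw [this, pt_mod]; omega
  · by_contra ne
    obtain ⟨s, rfl⟩ := Nat.exists_eq_succ_of_ne_zero ne
    unfold Alt at a
    rw [← Function.iterate_succ_apply' M.nr, md (s + 1) (by omega), md s (by omega)] at a
    exact a rfl

end FCutN

open FCutN in
theorem fCutN : S_Walk → S_Reg → S_Sep → S_CutW → S_CutN := by
  intro _ _ hS _ M M' R ok _ hR hC x hx
  by_cases h : Chg M R (r4 x)
  · obtain ⟨t, b, r, k, e⟩ := h
    have d : r4 x / 4 = x / 4 := by unfold r4; omega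
    have d' : r4 x % 4 = (x + 1) % 4 := by unfold r4; omega
    rw [d] at r k
    rw [d'] at e
    have t4 := (hR _ _ r).1
    have ne : x % 4 ≠ b := fun u => hx ⟨t, r, u ▸ k⟩
    rcases kd_cases k with rfl | rfl
    · rw [ep_a] at e
      have : x = pt (x / 4) (t + 3) := by unfold pt; omega
      rw [this]
      exact exit hS ok hR hC r k
    · rw [ep_b] at e
      have : x = pt (x / 4) (t + 2) := by unfold pt; omega
      rw [this]
      exact entry hS ok hR hC r k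
  · have e : M'.nr x = M.nr x := hC.off _ h
    refine ⟨1, Nat.one_pos, e, fun c => h ?_, fun s a b => by omega, fun a => absurd a (lt_irrefl _)⟩
    have := chg_lk ok hR (cor_chg hR c)
    rwa [e, nr, ok.inv] at this

end

end Pool.Agent.MP_1a6d78_lc.PS

end MrgPart1

-- ======== part 2: formerly Pool.Agent.MP_1a6d78_lc.PS.FCutR
section MrgPart2

/-! PROJECT PSC, row CUTR: regions after a cut. -/

namespace Pool.Agent.MP_1a6d78_lc.PS

open Classical ED PR PL Relation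

namespace FCutR

variable {M M' : Cm} {R : ℕ → ℕ → Prop}

theorem st_mod (M : Cm) {i j : ℕ} (e : i % 4 = j % 4) : M.st i = M.st j := by
  funext c
  unfold Cm.st pt
  rw [e]

theorem pa_mod {i j a b : ℕ} (e : i % 4 = j % 4) : M.Pa i a b ↔ M.Pa j a b := by
  unfold Cm.Pa Cm.wk
  rw [st_mod M e]

theorem per_mod {i j a : ℕ} (e : i % 4 = j % 4) : M.Per i a ↔ M.Per j a := by
  unfold Cm.Per
  rw [pa_mod e, st_mod M e]

theorem rs_pa (S : M.Rs R) {t y u : ℕ} (h : R t y) (p : M.Pa t y u) : R t u := by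
  obtain ⟨k, rfl⟩ := p
  induction k with
  | zero => exact h
  | succ k ih => rw [Cm.wk_succ]; exact (S _ _ ih).2.2

theorem tr {x y z : ℕ} (h : M.Rg x y) (k : M.Rg y z) : M.Rg x z := by
  obtain ⟨s, rfl⟩ := h
  obtain ⟨t, rfl⟩ := k
  exact ⟨t + s, Function.iterate_add_apply _ _ _ _⟩

/-- The conclusion of the row CUTN. -/
def Nx (M M' : Cm) (R : ℕ → ℕ → Prop) : Prop :=
  ∀ x, ¬M.Cor R x → ∃ k, 0 < k ∧ M'.nr x = M.nr^[k] x ∧ ¬M.Cor R (M'.nr x) ∧
    (∀ s, 0 < s → s < k → M.Cor R (M.nr^[s] x)) ∧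
    (1 < k → M'.Alt x ∧ ∃ s < k, M.Alt (M.nr^[s] x) ∧ M.nr^[s] x % 4 = x % 4 ∧
      ∀ s' < k, M.Alt (M.nr^[s'] x) → s' = s)

theorem rg (N : Nx M M' R) (x y : ℕ) (hx : ¬M.Cor R x) :
    M'.Rg x y ↔ M.Rg x y ∧ ¬M.Cor R y := by
  constructor
  · rintro ⟨t, rfl⟩
    induction t with
    | zero => exact ⟨⟨0, rfl⟩, hx⟩
    | succ t ih =>
      obtain ⟨k, _, e, c, _⟩ := N _ ih.2
      rw [Function.iterate_succ_apply']
      exact ⟨tr ih.1 ⟨k, e.symm⟩, c⟩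
  · rintro ⟨⟨t, e⟩, hy⟩
    induction t using Nat.strong_induction_on generalizing x with
    | _ t ih =>
      rcases Nat.eq_zero_or_pos t with rfl | ht
      · exact ⟨0, e⟩
      obtain ⟨k, k0, e1, c, m, _⟩ := N x hx
      have : k ≤ t := by
        by_contra h
        exact hy (e ▸ m t ht (by omega))
      refine tr ⟨1, rfl⟩ (ih (t - k) (by omega) _ c ?_)
      show M.nr^[t - k] (M'.nr x) = y
      rw [e1, ← Function.iterate_add_apply, Nat.sub_add_cancel this, e]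

/-- `u` is the last label before `y` that is not a corner. -/
def Ow (M : Cm) (R : ℕ → ℕ → Prop) (u y : ℕ) : Prop :=
  ¬M.Cor R u ∧ ∃ s, M.nr^[s] u = y ∧ ∀ s', 0 < s' → s' ≤ s → M.Cor R (M.nr^[s'] u)

theorem ow_ex {x y : ℕ} (hx : ¬M.Cor R x) (h : M.Rg x y) : ∃ u, M.Rg x u ∧ Ow M R u y := by
  obtain ⟨t, rfl⟩ := h
  induction t with
  | zero => exact ⟨x, ⟨0, rfl⟩, hx, 0, rfl, fun s' a b => by omega⟩
  | succ t ih =>
    by_cases c : M.Cor R (M.nr^[t + 1] x)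
    · obtain ⟨u, h1, h2, s, e, h3⟩ := ih
      have e' : M.nr^[s + 1] u = M.nr^[t + 1] x := by
        rw [Function.iterate_succ_apply', Function.iterate_succ_apply', e]
      refine ⟨u, h1, h2, s + 1, e', fun s' a b => ?_⟩
      rcases Nat.lt_or_ge s s' with h | h
      · rw [show s' = s + 1 by omega, e']; exact c
      · exact h3 s' a h
    · exact ⟨_, ⟨t + 1, rfl⟩, c, 0, rfl, fun s' a b => by omega⟩

theorem ow_uniq (G : RegK M) {u v y : ℕ} (h : Ow M R u y) (k : Ow M R v y) : u = v := by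
  have inj : Function.Injective M.nr := fun a b => G.inj a b
  have key : ∀ {u v : ℕ} {s t : ℕ}, ¬M.Cor R u → M.nr^[s] u = M.nr^[t] v → s ≤ t →
      (∀ s', 0 < s' → s' ≤ t → M.Cor R (M.nr^[s'] v)) → u = v := by
    intro u v s t hu e le c
    obtain ⟨d, rfl⟩ := Nat.exists_eq_add_of_le le
    rw [Function.iterate_add_apply] at e
    have e' := inj.iterate s e
    rcases Nat.eq_zero_or_pos d with rfl | hd
    · exact e'
    · exact absurd (e' ▸ c d hd (by omega)) hu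
  obtain ⟨h1, s, e1, c1⟩ := h
  obtain ⟨h2, t, e2, c2⟩ := k
  rcases le_total s t with le | le
  · exact key h1 (e1.trans e2.symm) le c2
  · exact (key h2 (e2.trans e1.symm) le c1).symm

theorem ow_alt (N : Nx M M' R) {u y : ℕ} (h : Ow M R u y) (a : M.Alt y) :
    M'.Alt u ∧ y % 4 = u % 4 ∧ ∀ z, Ow M R u z → M.Alt z → z = y := by
  obtain ⟨k, k0, e, c, _, f⟩ := N u h.1
  have lt : ∀ {s : ℕ}, (∀ s', 0 < s' → s' ≤ s → M.Cor R (M.nr^[s'] u)) → s < k := by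
    intro s hs
    by_contra h'
    exact c (e ▸ hs k k0 (by omega))
  obtain ⟨_, s, rfl, c1⟩ := h
  have l1 := lt c1
  rcases Nat.lt_or_ge 1 k with h1 | h1
  · obtain ⟨a1, s0, _, _, a3, a4⟩ := f h1
    refine ⟨a1, by rw [a4 s l1 a]; exact a3, ?_⟩
    rintro z ⟨_, t, rfl, c2⟩ az
    rw [a4 s l1 a, a4 t (lt c2) az]
  · obtain rfl : k = 1 := by omega
    obtain rfl : s = 0 := by omega
    refine ⟨?_, rfl, ?_⟩
    · unfold Cm.Alt at a ⊢
      rw [e]; exact a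
    · rintro z ⟨_, t, rfl, c2⟩ _
      obtain rfl : t = 0 := by have := lt c2; omega
      rfl

theorem alt_ow (N : Nx M M' R) {u : ℕ} (h : ¬M.Cor R u) (a : M'.Alt u) :
    ∃ y, Ow M R u y ∧ M.Alt y := by
  obtain ⟨k, k0, e, _, m, f⟩ := N u h
  rcases Nat.lt_or_ge 1 k with h1 | h1
  · obtain ⟨_, s, l, a2, _⟩ := f h1
    exact ⟨_, ⟨h, s, rfl, fun s' p q => m s' p (by omega)⟩, a2⟩
  · obtain rfl : k = 1 := by omega
    refine ⟨u, ⟨h, 0, rfl, fun s' p q => by omega⟩, ?_⟩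
    unfold Cm.Alt at a ⊢
    rw [e] at a; exact a

theorem Ow.rg {u y : ℕ} (h : Ow M R u y) : M.Rg u y := let ⟨_, s, e, _⟩ := h; ⟨s, e⟩

theorem crit (N : Nx M M' R) (x : ℕ) (hx : ¬M.Cor R x) : M'.Crit x ↔ M.Crit x := by
  constructor
  · intro h y r a
    obtain ⟨u, r1, o⟩ := ow_ex hx r
    exact h u ((rg N x u hx).2 ⟨r1, o.1⟩) (ow_alt N o a).1
  · intro h u r a
    obtain ⟨r1, c⟩ := (rg N x u hx).1 r
    obtain ⟨y, o, a1⟩ := alt_ow N c a
    exact h y (tr r1 o.rg) a1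

theorem sad (N : Nx M M' R) (G : RegK M) (x : ℕ) (hx : ¬M.Cor R x) : M'.Sad x ↔ M.Sad x := by
  constructor
  · rintro ⟨u, v, r1, r2, ne, a1, a2, e⟩
    obtain ⟨r3, c1⟩ := (rg N x u hx).1 r1
    obtain ⟨r4, c2⟩ := (rg N x v hx).1 r2
    obtain ⟨y, o1, b1⟩ := alt_ow N c1 a1
    obtain ⟨z, o2, b2⟩ := alt_ow N c2 a2
    refine ⟨y, z, tr r3 o1.rg, tr r4 o2.rg, fun h => ne (ow_uniq G o1 (h ▸ o2)), b1, b2, ?_⟩
    rw [(ow_alt N o1 b1).2.1, (ow_alt N o2 b2).2.1, e]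
  · rintro ⟨y, z, r1, r2, ne, a1, a2, e⟩
    obtain ⟨u, r3, o1⟩ := ow_ex hx r1
    obtain ⟨v, r4, o2⟩ := ow_ex hx r2
    obtain ⟨b1, e1, q1⟩ := ow_alt N o1 a1
    obtain ⟨b2, e2, _⟩ := ow_alt N o2 a2
    exact ⟨u, v, (rg N x u hx).2 ⟨r3, o1.1⟩, (rg N x v hx).2 ⟨r4, o2.1⟩,
      fun h => ne (q1 z (h ▸ o2) a2).symm, b1, b2, by omega⟩

/-- The first part of the row SEP. -/
def Sp (M : Cm) : Prop := ∀ t < 4, ∀ v, M.Rng t v → ∀ a, M.Kd t a v → ¬M.Per (ep t a) v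

theorem ncrit (K : WalkK M) (G : RegK M) (P : Sp M) (S : M.Rs R) {t a y : ℕ} (h : R t y)
    (k : M.Kd t a y) : ¬M.Crit (4 * y + a) := by
  intro c
  obtain ⟨t4, rn, _⟩ := S t y h
  obtain ⟨p, ha⟩ := K.kd_per t a y k
  obtain ⟨k1, k2, _⟩ := G.crit_kd y a (by omega) p.1 c
  refine P t t4 y rn a k ?_
  rcases ha with ha | ha
  · exact (per_mod (by unfold ep; split_ifs <;> omega)).1 (K.kd_per _ _ _ k2).1
  · exact (per_mod (by unfold ep; split_ifs <;> omega)).1 (K.kd_per _ _ _ k1).1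

theorem cor (K : WalkK M) (G' : RegK M') (W : CutWK M M' R) (S : M.Rs R) {t a y : ℕ} (h : R t y)
    (k : M.Kd t a y) : M'.Crit (4 * y + a) ∧
      ∀ x, M'.Rg (4 * y + a) x ↔ x % 4 = a ∧ M.Pa t y (x / 4) ∧ M.Kd t a (x / 4) := by
  obtain ⟨_, _, w⟩ := W.twin t a y h k
  obtain ⟨p, ha⟩ := K.kd_per t a y k
  have c : M'.Crit (4 * y + a) := G'.kd_crit t a y fun u q =>
    (W.twin t a u (rs_pa S h ((w u).1.1 q).1) ((w u).1.1 q).2).1
  obtain ⟨_, _, r⟩ := G'.crit_kd y a (by omega) ((W.al y).2 p.1) c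
  have r' : ∀ u, M'.Rg (4 * y + a) (4 * u + a) ↔ M.Pa t y u ∧ M.Kd t a u := fun u => by
    rw [← (w u).1]
    rcases ha with ha | ha
    · rw [(r u).1]; exact pa_mod (by omega)
    · rw [(r u).2]; exact pa_mod (by omega)
  refine ⟨c, fun x => ⟨fun q => ?_, fun q => ?_⟩⟩
  · have e : x % 4 = a := by have := G'.crit_typ _ _ c q; omega
    exact ⟨e, (r' _).1 (by rwa [show 4 * (x / 4) + a = x by omega])⟩
  · have := (r' _).2 q.2
    rwa [show 4 * (x / 4) + a = x by omega] at this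

theorem ex (K : WalkK M) (G : RegK M) (P : Sp M) (S : M.Rs R) (x : ℕ) :
    ∃ y, M.Rg x y ∧ ¬M.Cor R y := by
  by_contra hn
  have all : ∀ y, M.Rg x y → M.Cor R y := fun y r => by_contra fun c => hn ⟨y, r, c⟩
  obtain ⟨t0, h0, k0⟩ := all x ⟨0, rfl⟩
  have nc := ncrit K G P S h0 k0
  rw [Nat.div_add_mod] at nc
  obtain ⟨y, r, a⟩ : ∃ y, M.Rg x y ∧ M.Alt y := by
    by_contra h
    exact nc fun y r a => h ⟨y, r, a⟩
  obtain ⟨t, h, k⟩ := all y r
  obtain ⟨t', h', k'⟩ := all _ (tr r ⟨1, rfl⟩)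
  change R t' (M.nr y / 4) at h'
  change M.Kd t' (M.nr y % 4) (M.nr y / 4) at k'
  obtain ⟨t4, _, hs⟩ := S _ _ h
  have t4' := (S _ _ h').1
  obtain ⟨p, ha⟩ := K.kd_per _ _ _ k
  unfold Cm.Alt at a
  rcases ha with ha | ha
  · have := ((K.kd_iff _ _ _).1 k).2.1
    rw [show pt (y / 4) (ep t (y % 4)) = r4 y by unfold pt ep r4; split_ifs <;> omega] at this
    unfold Cm.nr at a
    omega
  · have e : M.nr y = pt (M.st t (y / 4)) (ep t (M.ss t (y / 4))) := by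
      rw [← K.ent t _ p.1, show pt (y / 4) t = r4 y by unfold pt r4; omega]; rfl
    have kd : M.Kd t (M.ss t (y / 4)) (M.st t (y / 4)) := ⟨_, p, rfl, rfl⟩
    have bk := (K.back t _ p.1).2
    have sp := P t t4 _ (S _ _ hs).2.1 _ kd
    rw [e, pt_div, pt_mod] at k'
    rw [e, pt_mod] at a
    obtain ⟨p', hb⟩ := K.kd_per _ _ _ k'
    have ty := ((K.kd_iff _ _ _).1 k').2.1
    generalize M.ss t (y / 4) = b at *
    have e1 : ep t b = (t + 1) % 4 := by unfold ep at *; split_ifs at * <;> omega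
    rcases hb with hb | hb
    · exact sp ((per_mod (by omega)).1 p')
    · rw [show pt (M.st t (y / 4)) (ep t' (ep t b % 4)) = pt (M.st t (y / 4)) (ep t b) by
        rw [e1] at *; unfold pt ep; split_ifs <;> omega, bk, pt_mod] at ty
      omega

theorem prb (H : M.Ok) (K : WalkK M) (G : RegK M) (G' : RegK M') (W : CutWK M M' R)
    (N : Nx M M' R) (S : M.Rs R) (p : ℕ) (h : ¬R (p % 4) (p / 4)) : M'.Prb p ↔ M.Prb p := by
  by_cases ha : M.al (p / 4)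
  swap
  · exact ⟨fun k => absurd ((W.al _).1 k.1) ha, fun k => absurd k.1 ha⟩
  have ty := W.typ p h
  have pr := H.par p ha
  have key : ∀ x, x / 4 = p / 4 → (x % 4 = (p + 3) % 4 ∧ M.lk p % 4 = (p + 1) % 4 ∨
      x % 4 = p % 4 ∧ M.lk p % 4 = (p + 3) % 4) → ¬M.Cor R x := by
    rintro x e hx ⟨t, r, k⟩
    rw [e] at r k
    have t4 := (S _ _ r).1
    have ne : t ≠ p % 4 := fun q => h (q ▸ r)
    obtain ⟨hb, ty, _⟩ := (K.kd_iff _ _ _).1 k
    rw [show pt (p / 4) (ep t (x % 4)) = p by unfold pt ep; split_ifs <;> omega] at ty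
    omega
  rcases show M.lk p % 4 = (p + 1) % 4 ∨ M.lk p % 4 = (p + 3) % 4 by omega with e | e
  · rw [G.prb_up p e, G'.prb_up p (ty.trans e), W.al,
      sad N G _ (key (r3 p) (by unfold r3; omega) (Or.inl ⟨by unfold r3; omega, e⟩))]
  · rw [G.prb_dn p e, G'.prb_dn p (ty.trans e), W.al, sad N G _ (key p rfl (Or.inr ⟨rfl, e⟩))]

end FCutR

open FCutR in
theorem fCutR : S_Walk → S_Reg → S_Sep → S_CutW → S_CutN → S_CutR := by
  intro hK hG hP hW hN M M' R H H' S X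
  have K := hK M H
  have G := hG M H
  have G' := hG M' H'
  have W := hW M M' R H H' S X
  have N : Nx M M' R := hN M M' R H H' S X
  have P : Sp M := fun t h v r => (hP M H t h v r).1
  refine ⟨rg N, fun t a y h k => ⟨(cor K G' W S h k).1, ncrit K G P S h k, (cor K G' W S h k).2⟩,
    ex K G P S, crit N, sad N G, prb H K G G' W N S, ?_⟩
  have nc : ∀ x, ¬M'.Crit x → ¬M.Cor R x := fun x c ⟨t, r, k⟩ => c (by
    have := (cor K G' W S r k).1
    rwa [Nat.div_add_mod] at this)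
  choose f f1 f2 using ex K G P S
  have i1 : ncl (4 * M.n) (fun x => M'.al (x / 4) ∧ ¬M'.Crit x) M'.Rg ≤
      ncl (4 * M.n) (fun x => M.al (x / 4) ∧ ¬M.Crit x) M.Rg :=
    Ct.ncl_le id (Ct.rg_eqv H' _) (Ct.rg_eqv H _)
      (fun x _ y _ u k => ⟨(G.al x y u).2 k.1, mt (G.crit x y u).2 k.2⟩)
      (fun x hx k => ⟨hx, (W.al _).1 k.1, mt (crit N x (nc x k.2)).2 k.2⟩)
      fun x _ y _ k k' u => (rg N x y (nc x k.2)).2 ⟨u, nc y k'.2⟩
  have i2 : ncl (4 * M.n) (fun x => M.al (x / 4) ∧ ¬M.Crit x) M.Rg ≤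
      ncl (4 * M.n) (fun x => M'.al (x / 4) ∧ ¬M'.Crit x) M'.Rg :=
    Ct.ncl_le f (Ct.rg_eqv H _) (Ct.rg_eqv H' _)
      (fun x _ y _ u k => ⟨(G'.al x y u).2 k.1, mt (G'.crit x y u).2 k.2⟩)
      (fun x _ k => by
        have a := (G.al x _ (f1 x)).2 k.1
        have := H.lt _ a
        exact ⟨by omega, (W.al _).2 a,
          mt (fun c => (G.crit x _ (f1 x)).2 ((crit N _ (f2 x)).1 c)) k.2⟩)
      fun x _ y _ _ _ u => tr (f1 x) (tr ((rg N _ _ (f2 x)).1 u).1 (G.symm _ _ (f1 y)))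
  unfold Cm.mu
  rw [X.n, le_antisymm i1 i2, show M'.al = M.al from funext fun c => propext (W.al c)]

end Pool.Agent.MP_1a6d78_lc.PS

end MrgPart2

-- ======== part 3: formerly Pool.Agent.MP_1a6d78_lc.PS.FOm
section MrgPart3

/-! PROJECT PSC: row OM. -/

namespace Pool.Agent.MP_1a6d78_lc.PS

open Classical ED PR PL Relation Cm

namespace FOm

variable {M : Cm}

theorem pa_ind {i a b : ℕ} {Q : ℕ → Prop} (h : M.Pa i a b) (h0 : Q a)
    (hs : ∀ c, Q c → Q (M.st i c)) : Q b := by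
  obtain ⟨t, rfl⟩ := h
  exact iter_inv hs h0 t

theorem run_pa {i s a b : ℕ} (h : M.Run i s a b) : M.Pa i a b := by
  induction h with
  | refl => exact Pa.refl _ _
  | tail _ k ih => exact ih.trans (k.1 ▸ Pa.step _ _)

theorem st_of {p c q : ℕ} (H : M.Ok) (e : M.lk p = pt c q) : M.st q c = p / 4 := by
  unfold Cm.st
  rw [← e, H.inv]

end FOm

open FOm

theorem fOm (hW : S_Walk) (hR : S_Reg) (hS : S_Side) (hP : S_Sep) (hB : S_Bas) : S_Om := by
  intro M H v hv hA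
  have K := hW M H
  have G := hR M H
  have rv : M.Rng 0 v := (K.ring v).1 hv
  obtain ⟨W, W1, W2⟩ := hS M H 0 (by omega) v rv
  have rc : ∀ a y, M.Rc v a y ↔ M.Kd 0 a y ∧ M.Pa 0 v y := fun a y =>
    and_congr_right fun k => ⟨fun c => (K.per_pa _ _ _ (K.kd_per _ _ _ k).1
      ((K.co_per _ _ _ rv.1).1 c)).2, fun c => c.co.symm⟩
  have inn : ∀ y, M.Pa 0 v y → ¬W y → M.Kd 0 3 y := fun y p k =>
    (K.kd_ex 0 y (K.per_pa _ _ _ rv.1 p).1).resolve_left fun u => k ((W1 y p).2 u)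
  have inn' : ∀ y, M.Pa 0 v y → M.Kd 0 3 y → ¬W y := fun y p k u => by
    have := K.kd_one _ _ _ _ k ((W1 y p).1 u)
    omega
  have pre : ∀ x, M.Per 0 x → M.Pa 0 v (M.st 0 x) → M.Pa 0 v x := fun x k p =>
    p.trans (K.per_pa _ _ _ k (Pa.step _ _)).2
  have onl : ∀ c q, q = 1 ∨ q = 3 → M.On 0 v (pt c q) →
      M.Pa 0 v c ∧ M.Kd 0 (if q = 1 then 0 else 3) c := fun c q hq k => by
    rcases k with k | k
    · have := k.1
      rw [pt_mod] at this
      omega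
    · have e : M.lk (pt c q) = pt (M.lk (pt c q) / 4) 0 := by
        have := k.1
        unfold pt at *
        omega
      have e' := st_of H e
      rw [pt_div] at e'
      refine ⟨e' ▸ k.2.trans (Pa.step _ _), (K.kd_iff _ _ _).2 ?_⟩
      have p := (K.per_pa _ _ _ rv.1 k.2).1
      rcases hq with rfl | rfl
      · exact ⟨Or.inl rfl, k.1, p⟩
      · exact ⟨Or.inr rfl, k.1, p⟩
  have in1 : ∀ c, ¬W c → ¬W (M.st 1 c) ∧ ¬M.On 0 v (pt c 1) := fun c k => by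
    have o : ¬M.On 0 v (pt c 1) := fun u => by
      obtain ⟨u1, u2⟩ := onl c 1 (Or.inl rfl) u
      exact k ((W1 c u1).2 u2)
    have := W2 _ o
    rw [pt_div] at this
    exact ⟨fun u => k (this.2 u), o⟩
  have out3 : ∀ c, W c → W (M.st 3 c) := fun c k => by
    have o : ¬M.On 0 v (pt c 3) := fun u => by
      obtain ⟨u1, u2⟩ := onl c 3 (Or.inr rfl) u
      exact inn' c u1 u2 k
    have := W2 _ o
    rw [pt_div] at this
    exact this.1 k
  obtain ⟨U, hU⟩ : ∃ U : ℕ → Prop, ∀ c, U c ↔ ∃ y, M.Pa 3 c y ∧ M.Rc v 3 y := ⟨_, fun _ => Iff.rfl⟩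
  have U1 : ∀ c, U c → ¬W c ∧ ¬M.Per 3 c ∧ M.al c := fun c k => by
    obtain ⟨y, p, r⟩ := (hU c).1 k
    rw [rc] at r
    refine ⟨fun u => inn' y r.2 r.1 (pa_ind p u out3), fun u => ?_,
      (K.pa_al _ _ _ p).1 (K.kd_per _ _ _ r.1).1.1⟩
    exact (hP M H 0 (by omega) y (K.rn_pa _ _ _ rv r.2)).1 3 r.1 (K.per_pa _ _ _ u p).1
  have U2 : ∀ c d, M.Pa 3 c d → U d → U c := fun c d p k =>
    let ⟨y, p', r⟩ := (hU d).1 k; (hU c).2 ⟨y, p.trans p', r⟩
  have noh : ∀ c, ¬W c → ∀ u, M.Pa 1 c u → ¬M.Rc v 0 u := fun c k u p r => by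
    rw [rc] at r
    exact pa_ind (Q := fun x => ¬W x) p k (fun x u => (in1 x u).1) ((W1 u r.2).2 r.1)
  obtain ⟨B, hBd⟩ : ∃ B : ℕ → Prop, ∀ c, B c ↔ M.Co 1 c (M.FE 0 v 3) := ⟨_, fun _ => Iff.rfl⟩
  have B1 : ∀ c, B (M.st 1 c) ↔ B c := fun c => by rw [hBd, hBd]; exact Ct.co_st
  have use : ∀ c q, q % 2 = 0 → M.Prb (pt c q) → B c → ¬W c → q % 4 = 0 ∧ M.Pa 0 v c :=
    fun c q hq k b w => by
    have := hA (pt c q) ⟨k, by unfold pt; omega, by rw [pt_div]; exact (hBd c).1 b⟩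
    rw [pt_div, pt_mod] at this
    rcases this with u | ⟨y, u1, u2⟩
    · exact ⟨u.1, (K.per_pa _ _ _ u.2.1 ((K.co_per _ _ _ rv.1).1 u.2.2)).2⟩
    · exact absurd u2 (noh c w y u1)
  have out1 : ∀ x, W x → M.Pa 0 v x → M.lk (pt x 1) % 4 = 0 ∧ M.Pa 0 v (M.st 1 x) := fun x w p => by
    obtain ⟨-, k1, k2⟩ := (K.kd_iff _ _ _).1 ((W1 x p).1 w)
    have e : M.lk (pt x 1) = pt (M.st 1 x) 0 := by
      change M.lk (pt x 1) % 4 = 0 at k1
      unfold Cm.st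
      generalize M.lk (pt x 1) = r at *
      unfold pt
      omega
    have e' := st_of H e
    rw [pt_div] at e'
    exact ⟨k1, pre _ k2 (by rwa [e'])⟩
  have hcase : ∀ a h, M.Pa 0 v a → M.Fh 1 3 a h → M.Prb (pt h (1 + 3 + 2)) → B h → False := by
    rintro a h p ⟨r, r1, r2⟩ k b
    have := pa_ind (Q := fun x => ¬W x ∨ M.Pa 0 v x) (run_pa r1) (Or.inr p) fun x u => by
      by_cases w : W x
      · exact Or.inr (out1 x w (u.resolve_left (not_not.2 w))).2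
      · exact Or.inl (in1 x w).1
    have w : ¬W r := fun w => by
      have := (out1 r w (this.resolve_left (not_not.2 w))).1
      rw [r2, pt_mod] at this
      omega
    have e : M.st 1 r = h := by unfold Cm.st; rw [r2, pt_div]
    have := (use h _ (by omega) k b (e ▸ (in1 r w).1)).1
    omega
  have key : ∀ b, U b → (B (M.st 3 b) ↔ B b) := by
    intro b ub
    by_contra ne
    obtain ⟨-, np, ab⟩ := U1 b ub
    obtain ⟨e, he, cf⟩ : ∃ e, (e = 1 ∨ e = 3) ∧ M.Cfg 1 e (M.st 3 b) b := by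
      have k := (K.back 3 b ab).2
      have a := (K.st_al 3 b).2 ab
      rcases ss_cases (M := M) 3 b with s | s <;> rw [s] at k
      · exact ⟨3, Or.inr rfl, a, k⟩
      · exact ⟨1, Or.inl rfl, a, k⟩
    obtain ⟨e', a', b', h, u, he', cf', pb, fh, lu, nb, ph, pu⟩ :=
      hB M H B 1 e _ b he B1 cf (fun k => np (K.kd_per _ _ _ k).1) ne
    have ub' : U b' := U2 _ _ pb ub
    have lb : M.lk (pt b' 3) = pt a' (1 + e') := by rw [← H.inv (pt a' _), cf'.2]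
    have ru : ∀ x, M.Run (1 + e' + 2) (sd (1 + e' + 2) (1 + 2)) b' x →
        U x ∧ (e' = 1 → M.Pa 0 v x → M.Pa 0 v b') := fun x k => by
      induction k with
      | refl => exact ⟨ub', fun _ k => k⟩
      | @tail x x' _ k ih =>
        have l := K.ent (1 + e' + 2) x (U1 x ih.1).2.2
        have e3 : ep (1 + e' + 2) (sd (1 + e' + 2) (1 + 2)) = 3 := by
          rcases he' with rfl | rfl <;> rfl
        rw [← k.1, k.2, e3] at l
        have s := st_of H l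
        rw [pt_div] at s
        have ux : U x' := U2 _ _ (s ▸ Pa.step 3 x') ih.1
        refine ⟨ux, fun e1 p => ih.2 e1 ?_⟩
        obtain ⟨-, -, k2⟩ := (K.kd_iff _ _ _).1 (inn x' p (U1 x' ux).1)
        change M.Per 0 (M.st 3 x') at k2
        rw [s] at k2
        subst e1
        exact pre x k2 (by rw [k.1] at p; exact p)
    obtain ⟨uu, ur⟩ := ru u lu.1
    by_cases bu : B u
    · obtain ⟨q0, p⟩ := use u _ (by omega) pu bu (U1 u uu).1
      have e1 : e' = 1 := by omega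
      obtain ⟨-, k1, -⟩ := (K.kd_iff _ _ _).1 (inn b' (ur e1 p) (U1 b' ub').1)
      change M.lk (pt b' 3) % 4 = 0 at k1
      rw [lb, pt_mod] at k1
      omega
    · have bh : B h := by_contra fun k => nb ⟨fun u => absurd u k, fun u => absurd u bu⟩
      by_cases wa : W a'
      · have o : M.On 0 v (pt b' 3) := by_contra fun o => by
          have := W2 _ o
          rw [lb, pt_div, pt_div] at this
          exact (U1 b' ub').1 (this.2 wa)
        rcases o with o | o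
        · have := o.1
          rw [pt_mod] at this
          omega
        · rw [lb, pt_mod, pt_div] at o
          have e3 : e' = 3 := by have := o.1; omega
          subst e3
          exact hcase a' h o.2 fh ph bh
      · obtain ⟨r, r1, r2⟩ := fh
        have wr := pa_ind (Q := fun x => ¬W x) (run_pa r1) wa fun x u => (in1 x u).1
        have e : M.st 1 r = h := by unfold Cm.st; rw [r2, pt_div]
        obtain ⟨q0, p⟩ := use h _ (by omega) ph bh (e ▸ (in1 r wr).1)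
        exact (in1 r wr).2 (Or.inr (by rw [r2, pt_mod, pt_div]; exact ⟨q0, p⟩))
  have rB : ∀ y, M.Pa 0 v y → B y := by
    obtain ⟨y, p, k⟩ := rv.2.2
    obtain ⟨-, p0, -⟩ := K.fe_kd 0 v y _ rv.1 p k
    intro x px
    have p1 : M.Pa 0 (M.FE 0 v 3) x := (K.per_pa _ _ _ rv.1 p0).2.trans px
    refine (pa_ind (Q := fun x => M.Pa 0 v x ∧ B x) p1 ⟨p0, (hBd _).2 (Co.refl _ _)⟩
      fun c u => ?_).2
    have pc := K.per_pa _ _ _ rv.1 u.1
    have p2 := u.1.trans (Pa.step 0 c)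
    refine ⟨p2, ?_⟩
    have bk := (K.back 0 c pc.1.1).1
    have kd : M.Kd 0 (M.ss 0 c) (M.st 0 c) := ⟨c, pc.1, rfl, rfl⟩
    rcases ss_cases (M := M) 0 c with s | s <;> rw [s] at bk kd
    · exact (B1 _).1 (by change M.st 1 _ = c at bk; rw [bk]; exact u.2)
    · exact (key _ ((hU _).2 ⟨_, Pa.refl _ _, (rc _ _).2 ⟨kd, p2⟩⟩)).1
        (by change M.st 3 _ = c at bk; rw [bk]; exact u.2)
  have uB : ∀ c, U c → B c := fun c k => by
    obtain ⟨y, ⟨t, p⟩, r⟩ := (hU c).1 k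
    induction t generalizing c with
    | zero => exact rB c (p ▸ ((rc _ _).1 r).2 :)
    | succ t ih => exact (key c k).1 (ih _ ((hU _).2 ⟨y, ⟨t, p⟩, r⟩) p)
  have f3 : ∀ y, M.Rc v 3 y → ¬M.Prb (4 * y + 3) := fun y r k => by
    rw [rc] at r
    obtain ⟨a, a1, a2, a3⟩ := r.1
    have l := K.ent 0 a a1.1
    rw [a2, a3] at l
    have cf : M.Cfg 1 3 a y := ⟨a1.1, l⟩
    obtain ⟨⟨h, fh⟩, u, lu⟩ := G.run 1 3 a y (Or.inr rfl) cf
    obtain ⟨i1, i2, -⟩ := G.flow 1 3 a y h u (Or.inr rfl) cf fh lu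
    have pa := pre a a1 (a2 ▸ r.2)
    refine hcase a h pa fh (i2.1 (i1.2 ((G.prb_lk _).1 ?_))) ?_
    · rw [cf.2]
      exact k
    · obtain ⟨r, r1, r2⟩ := fh
      have e : M.st 1 r = h := by unfold Cm.st; rw [r2, pt_div]
      exact e ▸ (B1 r).2 (pa_ind (run_pa r1) (rB a pa) fun c u => (B1 c).2 u)
  refine ⟨fun c y p r => ?_, fun y r => (hBd y).1 (rB y ((rc _ _).1 r).2), f3,
    fun p y k e p3 r => ?_⟩
  · have u := (hU c).2 ⟨y, p, r⟩
    exact ⟨(hBd c).1 (uB c u), noh c (U1 c u).1⟩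
  · have u := (hU _).2 ⟨y, p3, r⟩
    obtain ⟨q0, pv⟩ := use (p / 4) p e (by rwa [pt_eta]) (uB _ u) (U1 _ u).1
    refine ⟨q0, (rc _ _).2 ⟨inn _ pv (U1 _ u).1, pv⟩, ?_⟩
    have e0 : pt (p / 4) 0 = p := by unfold pt; omega
    have pc := (K.per_pa _ _ _ rv.1 pv).1
    have l := K.ent 0 _ pc.1
    have kd : M.Kd 0 (M.ss 0 (p / 4)) (M.st 0 (p / 4)) := ⟨_, pc, rfl, rfl⟩
    have p2 := pv.trans (Pa.step 0 _)
    have s4 : M.st 0 (p / 4) = M.lk p / 4 := by unfold Cm.st; rw [e0]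
    rw [e0] at l
    rw [← s4]
    rcases ss_cases (M := M) 0 (p / 4) with s | s <;> rw [s] at l kd
    · exact (rc _ _).2 ⟨kd, p2⟩
    · refine absurd ((G.prb_lk p).2 k) ?_
      rw [l]
      exact f3 _ ((rc _ _).2 ⟨kd, p2⟩)

end Pool.Agent.MP_1a6d78_lc.PS

end MrgPart3

-- ======== part 4: formerly Pool.Agent.MP_1a6d78_lc.PS.FSep
section MrgPart4

/-! PROJECT PSC: a ring separates. -/

namespace Pool.Agent.MP_1a6d78_lc.PS

namespace FSep

theorem one (hw : S_Walk) (hs : S_Side) {M : Cm} (H : M.Ok) {t : ℕ} (ht : t < 4) {v : ℕ}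
    (hv : M.Rng t v) {a : ℕ} (ha : M.Kd t a v) : ¬M.Per (ep t a) v := by
  intro hp
  have K := hw M H
  obtain ⟨W, w1, w2⟩ := hs M H t ht v hv
  have t4 : t % 4 = t := Nat.mod_eq_of_lt ht
  have ac := (K.kd_per t a v ha).2
  have ring : ∀ y, M.Pa t v y → ((W y ↔ a = t) ↔ M.Kd t a y) := fun y hy => by
    rw [w1 y hy]
    have e := K.kd_ex t y (K.per_pa t v y hv.1 hy).1
    rw [t4] at e ac
    rcases ac with rfl | rfl
    · simp
    · have n : (t + 3) % 4 ≠ t := by omega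
      constructor
      · intro k
        exact e.resolve_left fun k' => n (k.1 k')
      · intro k
        exact iff_of_false (fun k' => n (K.kd_one _ _ _ _ k k')) n
  have clo : ∀ c, ¬(W c ↔ a = t) → ¬(W (M.st (ep t a) c) ↔ a = t) := fun c hc => by
    by_cases o : M.On t v (pt c (ep t a))
    · rcases o with ⟨o, -⟩ | ⟨o1, o2⟩
      · rw [pt_mod] at o
        unfold ep at o
        split_ifs at o <;> omega
      · have e : pt (M.lk (pt c (ep t a)) / 4) t = M.lk (pt c (ep t a)) := by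
          unfold pt at o1 ⊢
          omega
        have s : M.st t (M.lk (pt c (ep t a)) / 4) = c := by rw [Cm.st, e, H.inv, pt_div]
        have k : M.Kd t a c := ⟨_, (K.per_pa t v _ hv.1 o2).1, s, by
          rw [Cm.ss, e, H.inv, sd, pt_mod]
          unfold ep
          split_ifs <;> omega⟩
        exact absurd ((ring c (s ▸ o2.trans (Cm.Pa.step _ _))).2 k) hc
    · have := w2 _ o
      rw [pt_div] at this
      rwa [this] at hc
  have all : ∀ y, M.Pa (ep t a) v y → (W y ↔ a = t) := fun y hy => by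
    by_contra hc
    obtain ⟨n, e⟩ := (K.per_pa _ v y hp hy).2
    have : ∀ n, ¬(W (M.wk (ep t a) y n) ↔ a = t) := fun n => by
      induction n with
      | zero => exact hc
      | succ n ih => rw [Cm.wk_succ]; exact clo _ ih
    exact this n (e ▸ (ring v (Cm.Pa.refl _ _)).2 ha)
  have bk : ∀ n y, M.Pa t v y → M.wk t y n = v → M.Pa (ep t a) v y := fun n => by
    induction n with
    | zero => exact fun y _ e => e ▸ Cm.Pa.refl _ _
    | succ n ih =>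
      intro y hy e
      have h1 := hy.trans (Cm.Pa.step t y)
      have h2 := ih _ h1 e
      have py := (K.per_pa t v y hv.1 hy).1
      have h3 : M.ss t y = a := K.kd_one _ _ _ _ ⟨y, py, rfl, rfl⟩ ((ring _ h1).1 (all _ h2))
      have h4 := (K.back t y py.1).1
      rw [h3] at h4
      exact h4 ▸ h2.trans (Cm.Pa.step _ _)
  have fin : ∀ y, M.Pa t v y → M.Kd t a y := fun y hy => by
    obtain ⟨n, e⟩ := (K.per_pa t v y hv.1 hy).2
    exact (ring y hy).1 (all y (bk n y hy e))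
  obtain ⟨y, y1, y2⟩ := hv.2.1
  obtain ⟨z, z1, z2⟩ := hv.2.2
  have := K.kd_one _ _ _ _ y2 (fin y y1)
  have := K.kd_one _ _ _ _ z2 (fin z z1)
  omega

theorem two (hw : S_Walk) (hs : S_Side) {M : Cm} (H : M.Ok) {t : ℕ} (ht : t < 4) {v : ℕ}
    (hv : M.Rng t v) {t' u p : ℕ} (ht' : t' < 4) (hu : M.Per t' u) (h1 : p % 4 = t % 4)
    (h2 : M.Pa t v (p / 4)) (h3 : M.lk p % 4 = t' % 4) (h4 : M.Pa t' u (M.lk p / 4)) : False := by
  have K := hw M H
  have e : pt (p / 4) t = p := by unfold pt; omega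
  have py := (K.per_pa t v _ hv.1 h2).1
  have a1 := K.ent t _ py.1
  have s : M.st t (p / 4) = M.lk p / 4 := by rw [Cm.st, e]
  rw [e] at a1
  have a2 : t' = ep t (M.ss t (p / 4)) := by
    rw [a1, pt_mod] at h3
    unfold ep at h3 ⊢
    split_ifs at h3 ⊢ <;> omega
  refine one hw hs H ht (K.rn_pa t v _ hv (h2.trans (Cm.Pa.step _ _))) ⟨_, py, rfl, rfl⟩ ?_
  rw [← a2, s]
  exact (K.per_pa t' u _ hu h4).1

end FSep

theorem fSep : S_Walk → S_Side → S_Sep := by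
  intro hw hs M H t ht v hv
  refine ⟨fun a ha => FSep.one hw hs H ht hv ha, fun t' ht' u p hu o o' => ?_⟩
  have K := hw M H
  rcases o with ⟨a1, a2⟩ | ⟨a1, a2⟩ <;> rcases o' with ⟨b1, b2⟩ | ⟨b1, b2⟩
  · obtain rfl : t' = t := by omega
    exact ⟨rfl, a2.trans (K.per_pa _ _ _ hu b2).2⟩
  · exact (FSep.two hw hs H ht hv ht' hu a1 a2 b1 b2).elim
  · exact (FSep.two hw hs H ht hv ht' hu a1 a2 (by rwa [H.inv]) (by rwa [H.inv])).elim
  · obtain rfl : t' = t := by omega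
    exact ⟨rfl, a2.trans (K.per_pa _ _ _ hu b2).2⟩

end Pool.Agent.MP_1a6d78_lc.PS

end MrgPart4

-- ======== part 5: formerly Pool.Agent.MP_1a6d78_lc.PS.FSide
section MrgPart5

/-! PROJECT PSC, row SIDE: the two sides of a ring. -/

namespace Pool.Agent.MP_1a6d78_lc.PS

open Classical ED PR PL Relation

theorem fSide : S_Walk → S_Side := by
  intro hW M h t ht v hv
  have K := hW M h
  obtain ⟨en, hen⟩ : ∃ en : ℕ → ℕ, ∀ y, en y = if M.Kd t t y then (t + 1) % 4 else (t + 3) % 4 :=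
    ⟨_, fun _ => rfl⟩
  have per : ∀ a, M.Pa t v a → M.Per t a := fun a ha => (K.per_pa t v a hv.1 ha).1
  have iv : Iv (4 * M.n) M.lk := fun p hp => ⟨by
    by_cases k : M.al (p / 4)
    · have := h.lt _ (h.al_lk k); omega
    · rw [(h.fix p).2 k]; exact hp, h.inv p⟩
  have h1 : ∀ a, M.Pa t v a → a < M.n ∧ M.Pa t v (M.st t a) ∧
      M.lk (4 * a + t) = 4 * M.st t a + en (M.st t a) := fun a ha => by
    refine ⟨h.lt _ (per a ha).1, ha.trans (Cm.Pa.step t a), ?_⟩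
    have e := K.ent t a (per a ha).1
    have k : M.Kd t (M.ss t a) (M.st t a) := ⟨a, per a ha, rfl, rfl⟩
    rw [show pt a t = 4 * a + t by unfold pt; omega] at e
    rw [e, hen]
    rcases M.ss_cases t a with c | c
    · rw [c, Nat.mod_eq_of_lt ht] at k
      rw [if_pos k, c]
      unfold pt ep
      rw [if_pos (by omega)]
      omega
    · rw [if_neg fun k' => by have := K.kd_one t _ _ _ k k'; omega, c]
      unfold pt ep
      rw [if_neg (by omega)]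
      omega
  have h2 : ∀ b, M.Pa t v b → (en b = (t + 1) % 4 ∨ en b = (t + 3) % 4) ∧
      ∃ a, M.Pa t v a ∧ M.st t a = b := fun b hb => by
    refine ⟨by rw [hen]; split_ifs <;> simp, ?_⟩
    obtain ⟨a, u, k1, k2, -⟩ := Cm.Per.kd h (per b hb)
    exact ⟨u, hb.trans (K.per_pa t u b k1 (k2 ▸ Cm.Pa.step t u)).2, k2⟩
  obtain ⟨col, c1, c2, c3, c4⟩ := side h.pl iv ht h1 h2
  have c0 : ∀ y, M.Pa t v y → col (4 * y + t) = col (4 * v + t) := by
    rintro _ ⟨s, rfl⟩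
    induction s with
    | zero => rfl
    | succ s ih => rw [Cm.wk_succ, c3 _ ⟨s, rfl⟩, ih]
  have on : ∀ p, M.Pa t v (p / 4) ∧ (p % 4 = t ∨ p % 4 = en (p / 4)) → M.On t v p := by
    rintro p ⟨k1, k2 | k2⟩
    · exact Or.inl ⟨by omega, k1⟩
    · obtain ⟨a, k3, k4⟩ := (h2 _ k1).2
      have e := (h1 a k3).2.2
      rw [k4, ← k2, Nat.div_add_mod] at e
      have e' : M.lk p = 4 * a + t := by rw [← e, h.inv]
      exact Or.inr ⟨by omega, by rw [show M.lk p / 4 = a by omega]; exact k3⟩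
  have key : ∀ p < 4 * M.n, ¬M.On t v p →
      ((M.Pa t v (p / 4) ∧ M.Kd t t (p / 4) ∨
        ¬M.Pa t v (p / 4) ∧ col (4 * (p / 4)) = col (4 * v + t)) ↔ col p = col (4 * v + t)) := by
    intro p hp k
    by_cases r : M.Pa t v (p / 4)
    · have e := c4 _ r (p % 4) (by omega) (fun e => k (on p ⟨r, Or.inl e⟩))
        fun e => k (on p ⟨r, Or.inr e⟩)
      rw [Nat.div_add_mod, c0 _ r, hen] at e
      rw [e]
      by_cases d : M.Kd t t (p / 4)
      · simp [r, d]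
      · rw [if_neg d, if_neg (by omega)]
        simp [r, d]
    · have e := c2 _ (by omega) r (p % 4) (by omega)
      rw [Nat.div_add_mod] at e
      simp [r, e]
  refine ⟨fun c => M.Pa t v c ∧ M.Kd t t c ∨ ¬M.Pa t v c ∧ col (4 * c) = col (4 * v + t),
    fun y hy => by simp [hy], fun p k => ?_⟩
  by_cases a : M.al (p / 4)
  · have hp : p < 4 * M.n := by have := h.lt _ a; omega
    have k' : ¬M.On t v (M.lk p) := fun o => k (by
      unfold Cm.On at o ⊢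
      rw [h.inv] at o
      exact o.symm)
    exact (key p hp k).trans (((c1 p hp fun u => k (on p u)) ▸ Iff.rfl : _ ↔ _).trans
      (key _ (iv p hp).1 k').symm)
  · rw [(h.fix p).2 a]

end Pool.Agent.MP_1a6d78_lc.PS

end MrgPart5

-- ======== part 6: formerly Pool.Agent.MP_1a6d78_lc.PS.FTw
section MrgPart6

/-! PROJECT PSC: the kit of frames. -/

namespace Pool.Agent.MP_1a6d78_lc.PS

open Classical ED PR PL Relation Ct

namespace FTw

theorem comp {g h : ℕ} (hg : g < 8) (hh : h < 8) : ∃ k < 8, (∀ q, fp k q = fp g (fp h q)) ∧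
    (∀ a, fs k a = fs g (fs h a)) ∧ (k < 4 ↔ (g < 4 ↔ h < 4)) := by
  refine ⟨if g < 4 then (if h < 4 then (g + h) % 4 else 4 + (g + h) % 4) else
    if h < 4 then 4 + (g + 4 - h) % 4 else (g + 4 - h) % 4, ?_, fun q => ?_, fun a => ?_, ?_⟩
  · split_ifs <;> omega
  · unfold fp
    split_ifs <;> omega
  · unfold fs
    split_ifs <;> omega
  · split_ifs <;> omega

theorem tw_comp (M : Cm) {g h k : ℕ} (hg : g < 8) (hh : h < 8) (hk : k < 8)
    (e : ∀ q, fp k q = fp g (fp h q)) : (M.tw g).tw h = M.tw k := by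
  have e1 : ∀ p, tp g (tp h p) = tp k p := fun p => by
    have e2 : fp g (tp h p) = fp g (fp h p) := by
      have := tp_mod h p
      have := fp_lt h p
      unfold fp at *
      split_ifs at * <;> omega
    rw [tp, tp_div, e2, ← e, tp]
  have e2 : ∀ r, tp (gi h) (tp (gi g) r) = tp (gi k) r := fun r => by
    rw [← (tp_tp hk r).2, ← e1, (tp_tp hg _).1, (tp_tp hh _).1, e1, (tp_tp hk _).1]
  unfold Cm.tw
  simp only [e1, e2]

end FTw

theorem fTw : S_Tw := by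
  intro M H g h
  have cell : ∀ p, (M.tw g).lk p / 4 = M.lk (tp g p) / 4 := fun p => by
    rw [← tw_lk h, tp_div]
  refine ⟨tw_ok H h, fun c => by rw [tw_al H h], cell, fun p => by rw [← tw_lk h, tp_mod],
    fun i c => by rw [tw_st h], fun i a b => by rw [tw_pa h], fun i c => by rw [tw_per H h],
    fun i a b => by rw [tw_co h], fun i a y ha => tw_kd H h ha, fun i c a ha => tw_fe H h i c ha,
    fun t v => ?_, fun x y => tw_rg H h, fun x => tw_crit H h, fun x => tw_sad H h,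
    fun p => tw_prb H h, tw_mu H h, fun W => ⟨fun k p hp => ?_, fun k p hp => ?_⟩,
    fun z W => and_congr_right fun _ => ⟨fun k p hp => ?_, fun k p hp => ?_⟩, tw_tw h M,
    fun h' hh => ?_⟩
  · unfold Cm.Rng
    simp only [tw_per H h, tw_pa h, tw_kd H h (Nat.mod_lt _ (by decide : 0 < 4))]
    by_cases k : g < 4
    · rw [show fs g (t % 4) = fp g t % 4 by unfold fs fp; split_ifs; omega,
        show fs g ((t + 3) % 4) = (fp g t + 3) % 4 by unfold fs fp; split_ifs; omega]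
    · rw [show fs g (t % 4) = (fp g t + 3) % 4 by unfold fs fp; split_ifs; omega,
        show fs g ((t + 3) % 4) = fp g t % 4 by unfold fs fp; split_ifs; omega]
      exact and_congr_right fun _ => and_comm
  · have := k (tp (gi g) p) (by rwa [tp_div])
    rwa [cell, (tp_tp h p).2] at this
  · rw [cell]
    exact k _ (by rwa [tp_div])
  · have := k (tp (gi g) p) ((tw_prb H h).2 (by rwa [(tp_tp h p).2]))
    rwa [tp_div] at this
  · have := k _ ((tw_prb H h).1 hp)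
    rwa [tp_div] at this
  · obtain ⟨k, hk, e1, e2, e3⟩ := FTw.comp h hh
    exact ⟨k, hk, e1, e2, e3, FTw.tw_comp M h hh hk e1⟩

end Pool.Agent.MP_1a6d78_lc.PS

end MrgPart6

-- ======== part 7: formerly Pool.Agent.MP_1a6d78_lc.PS.CSel
section MrgPart7

/-! PROJECT PSC: the test of the cut and the cells of diversion. -/

namespace Pool.Agent.MP_1a6d78_lc.PS

open Classical ED PR PL Cm

theorem Cm.Fst.weak {M : Cm} {i p v : ℕ} {H J : ℕ → Prop} (a : M.Fst i p H v)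
    (e : ∀ t, H t → J t) (f : ∀ t, J t → (∀ t' < t, ¬J t') → H t) : M.Fst i p J v := by
  rcases a with ⟨a1, a2⟩ | ⟨a1, t, t1, t2, t3⟩
  · refine Or.inl ⟨a1, fun t c => ?_⟩
    have x : ∃ t, J t := ⟨t, c⟩
    exact a2 _ (f _ (Nat.find_spec x) fun _ => Nat.find_min x)
  · refine Or.inr ⟨a1, t, t1, e t t2, fun s hs c => ?_⟩
    have x : ∃ t, J t := ⟨s, c⟩
    exact t3 _ ((Nat.find_min' x c).trans_lt hs) (f _ (Nat.find_spec x) fun _ => Nat.find_min x)

namespace Rn.Hy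

variable {K : Rn} {M : Cm} (H : K.Hy M)
include H

theorem con_iff {a y c : ℕ} (ha : a < 4) : K.con (K.P.En 0 c) a y ↔ M.al c ∧ M.Rc c a y := by
  rw [con, H.n]
  exact H.geo.On_ring H.ok (by omega) ha

theorem con_nm {a y v : ℕ} (ha : a < 4) (e : K.P.En 0 v = v) :
    K.con v a y ↔ M.al v ∧ M.Rc v a y := by
  have := H.con_iff (y := y) (c := v) ha
  rwa [e] at this

theorem ring_ps {a y c : ℕ} (ha : a < 4) :
    M.ok (K.P.ring 0 (K.P.En 0 c)) ∧ M.Ps (K.P.ring 0 (K.P.En 0 c)) y a ↔ M.al c ∧ M.Rc c a y :=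
  (H.geo.On_iff H.ok ha (H.geo.ring_wo H.ok c (by omega))).symm.trans
    (H.geo.On_ring H.ok (by omega) ha)

theorem cx_iff {v c : ℕ} (e : K.P.En 0 v = v) (hv : M.al v) (hc : M.al c) :
    K.cx v c ↔ ∃ y, M.Pa 1 c y ∧ M.Rc v 0 y := by
  have h := H.ok
  have f := (H.geo.early_fst h (i := 1) (p := c) (s := 0) (a := 1) (b := 0) (m := 1)
    (B := fun _ => K.P.ring 0 (K.P.En 0 v)) (by omega) (by omega) (by omega) (by omega) hc
    fun _ _ => H.geo.ring_wo h v (by omega)).lt_iff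
  rw [cx, H.con_nm (by omega) e, H.n]
  simp only [H.ring_ps (show 0 < 4 by omega)] at f
  rw [e] at f
  rw [f]
  constructor
  · rintro (k | ⟨t, -, -, -, -, k⟩)
    exacts [⟨c, Pa.refl _ _, k.2⟩, ⟨_, Pa.wk _ _ _, k⟩]
  · rintro ⟨y, ⟨t, rfl⟩, k⟩
    have x : ∃ t, M.Rc v 0 (M.wk 1 c t) := ⟨t, k⟩
    have x1 := Nat.find_spec x
    have x2 := fun s => Nat.find_min x (m := s)
    generalize Nat.find x = s at x1 x2
    cases s with
    | zero => exact Or.inl ⟨hv, x1⟩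
    | succ s =>
      refine Or.inr ⟨s + 1, ?_, 0, by omega, hv, x1⟩
      rw [wk_succ] at x1
      rcases arr0 (b := 1) h (h.al_wk 1 hc s) x1.1 (Or.inr (Or.inl ⟨rfl, rfl, rfl⟩)) with
        u | ⟨a', u1, u2, u3⟩
      · exact u
      · have : a' = 0 := by
          rcases u1.zero with r | r
          · exact r
          · subst r; revert u3; decide
        subst this
        exact absurd ⟨u1, u2.trans x1.2⟩ (x2 s s.lt_succ_self)

theorem cg_nm {v : ℕ} (r : K.P.FE 0 v 3 < M.n) : M.al (M.FE 0 v 3) ∧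
    K.cg v = K.P.En 1 (M.FE 0 v 3) ∧ M.al (K.cg v) ∧ K.P.En 1 (K.cg v) = K.cg v := by
  rw [H.geo.FE 0 (by omega) 3 (by omega)] at r
  have a : M.al (M.FE 0 v 3) := (FE_le H.ok 0 v 3).resolve_left r.ne
  have e : K.cg v = K.P.En 1 (M.FE 0 v 3) := by rw [cg, H.geo.FE 0 (by omega) 3 (by omega)]
  exact ⟨a, e, e ▸ H.geo.nm.al (by omega) a, e ▸ H.geo.nm.idem H.ok (by omega) a⟩

/-- The listed entries of the 1-cycle of the first inner cell. -/
theorem eg_ent {v t : ℕ} (r : K.P.FE 0 v 3 < M.n) (k : K.ent 1 (K.cg v) t < 4 * M.n) :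
    M.Eg v (K.ent 1 (K.cg v) t) := by
  obtain ⟨g1, g2, g3, g4⟩ := H.cg_nm r
  obtain ⟨u1, u2, u3⟩ := H.val 1 (by omega) _ t g3 g4 k
  exact ⟨u1, by omega, (H.geo.nm.co H.ok (by omega) u1.1 g1).1 (u3.trans g2)⟩

theorem ent_eg {v p : ℕ} (r : K.P.FE 0 v 3 < M.n) (s : K.short 1 (K.cg v)) (k : M.Eg v p) :
    ∃ t < K.c, K.ent 1 (K.cg v) t = p := by
  obtain ⟨g1, g2, -, -⟩ := H.cg_nm r
  have e : K.P.En 1 (p / 4) = K.cg v := g2 ▸ (H.geo.nm.co H.ok (by omega) k.1.1 g1).2 k.2.2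
  have := H.ex 1 (by omega) p k.1 (by have := k.2.1; omega) (e ▸ s)
  rwa [e] at this

theorem prb_lt {p : ℕ} (k : M.Prb p) : p < 4 * M.n := by
  have := H.ok.lt _ k.1
  omega

theorem en_co {v c : ℕ} (e : K.P.En 0 v = v) (hv : M.al v) : K.P.En 0 c = v ↔ M.Co 0 c v := by
  by_cases hc : M.al c
  · rw [← H.geo.nm.co H.ok (by omega) hc hv, e]
  · refine iff_of_false (fun u => hc ((H.geo.En_al H.ok (by omega)).1 (u ▸ hv))) ?_
    rintro ⟨u, ⟨t, rfl⟩, u2⟩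
    have : ∀ t, M.wk 0 c t = c := fun t => by
      induction t with
      | zero => rfl
      | succ t ih => rw [wk_succ, ih, H.ok.st_dead 0 hc]
    exact hc (this t ▸ u2.al H.ok hv)

theorem ccut_iff (v : ℕ) :
    K.ccut v ↔ K.P.En 0 v = v ∧ M.Cond K.z v ∧ K.short 0 v ∧ K.short 1 (K.cg v) := by
  have h := H.ok
  have G := H.geo
  have f0 := G.FE 0 (by omega) 0 (by omega) v
  have f3 := G.FE 0 (by omega) 3 (by omega) v
  have kd : ∀ {p : ℕ}, K.P.En 0 v = v → M.al v → (K.con v 0 p ∨ K.con v 3 p ↔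
      M.Per 0 p ∧ M.Co 0 p v) := fun {p} e hv => by
    rw [H.con_nm (by omega) e, H.con_nm (by omega) e]
    refine ⟨fun u => u.elim (fun u => ⟨u.2.1.per h, u.2.2⟩) fun u => ⟨u.2.1.per h, u.2.2⟩,
      fun u => ?_⟩
    obtain ⟨a, k⟩ := u.1.kd h
    rcases k.zero with rfl | rfl
    exacts [Or.inl ⟨hv, k, u.2⟩, Or.inr ⟨hv, k, u.2⟩]
  rw [ccut, H.n]
  constructor
  · rintro ⟨e, c0, c3, s0, s1, cd, al⟩
    have hv : M.al v := (FE_spec h (f0 ▸ c0)).1
    refine ⟨e, ⟨⟨e ▸ G.nm.per 0 (by omega) v hv, f0 ▸ c0, f3 ▸ c3⟩, ?_, fun p k => ?_⟩, s0, s1⟩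
    · rcases cd with u | ⟨t, -, u⟩
      · exact Or.inr ((H.en_co e hv).1 u)
      · have a := (G.En_al h (by omega)).1 (u ▸ hv)
        have := h.lt _ a
        exact Or.inl ⟨_, H.eg_ent c3 (by omega), (H.en_co e hv).1 u⟩
    · obtain ⟨t, t1, rfl⟩ := H.ent_eg c3 s1 k
      exact (al t t1 (H.prb_lt k.1)).imp (fun u => ⟨u.1, (kd e hv).1 u.2⟩)
        (H.cx_iff e hv k.1.1).1
  · rintro ⟨e, ⟨⟨r1, r2, r3⟩, cd, al⟩, s0, s1⟩
    refine ⟨e, f0 ▸ r2, f3 ▸ r3, s0, s1, ?_, fun t _ k => ?_⟩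
    · rcases cd with ⟨p, p1, p2⟩ | u
      · obtain ⟨t, t1, rfl⟩ := H.ent_eg (f3 ▸ r3) s1 p1
        exact Or.inr ⟨t, t1, (H.en_co e r1.1).2 p2⟩
      · exact Or.inl ((H.en_co e r1.1).2 u)
    · have g := H.eg_ent (f3 ▸ r3) k
      exact (al _ g).imp (fun u => ⟨u.1, (kd e r1.1).2 u.2⟩) (H.cx_iff e r1.1 g.1.1).2

theorem cut_en {v y : ℕ} (r : K.ccut v) (k : M.Co 0 y v) : K.P.En 0 y = v :=
  (H.en_co r.1 ((H.ccut_iff v).1 r).2.1.ring.1.1).2 k

theorem cis_iff {a y : ℕ} (ha : a < 4) : K.cis a y ↔ M.Rk K.ccut a y := by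
  rw [cis, H.con_iff ha]
  constructor
  · rintro ⟨r, k1, k2⟩
    exact ⟨_, r, k2.1, (H.geo.nm.pa 0 (by omega) y k1).co⟩
  · rintro ⟨v, r, k⟩
    exact ⟨H.cut_en r k.2 ▸ r, (k.1.per H.ok).1, k.1, Co.refl _ _⟩

theorem ck_eq {a y : ℕ} (k : M.Kd 0 a y) : K.ck y = a := by
  rw [ck]
  simp only [H.con_iff (show 0 < 4 by omega)]
  split_ifs with c
  · exact c.2.1.uniq H.ok k
  · rcases k.zero with rfl | rfl
    exacts [absurd ⟨(k.per H.ok).1, k, Co.refl _ _⟩ c, rfl]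

theorem cb_wo (c t : ℕ) : M.wo (K.cb c t) := by
  unfold cb
  split_ifs
  exacts [H.geo.ring_wo H.ok _ (by omega), H.n ▸ junk_wo H.ok]

theorem cb_ps {c t y a : ℕ} (ha : a < 4) :
    M.ok (K.cb c t) ∧ M.Ps (K.cb c t) y a ↔ K.ccut (K.cc c t) ∧ M.Rc (K.cc c t) a y := by
  unfold cb
  split_ifs with r
  · have := H.ring_ps (y := y) (c := K.cc c t) ha
    rw [r.1] at this
    rw [this]
    exact ⟨fun u => ⟨r, u.2⟩, fun u => ⟨((H.ccut_iff _).1 r).2.1.ring.1.1, u.2⟩⟩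
  · exact iff_of_false (fun u => junk_not H.ok (H.n ▸ u.1)) fun u => r u.1

theorem ch_fst {i a b c : ℕ} (hi : i < 4) (ha : a < 4) (hb : b < 4) (hab : a ≠ b) (hc : M.al c)
    (cp : ∀ v y, K.ccut v → M.Pa i c y → M.Rc v a y → ∃ l < K.c + 2, K.cc c l = v) :
    M.Fst i c (fun t => (t = 0 ∨ M.sw i c a t = b) ∧ M.Rk K.ccut a (M.wk i c t)) (K.ch i a b c) := by
  unfold ch
  split_ifs with u
  · exact Or.inr ⟨H.ok.lt _ hc, 0, rfl, ⟨Or.inl rfl, (H.cis_iff ha).1 u⟩, fun _ k => by omega⟩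
  · rw [H.n]
    refine (H.geo.early_fst H.ok hi hb ha hab.symm hc fun l _ => H.cb_wo c l).congr fun t => ?_
    simp only [H.cb_ps ha]
    constructor
    · rintro ⟨k1, l, -, k2⟩
      exact ⟨Or.inr k1, _, k2⟩
    · rintro ⟨k1, v, r, k2⟩
      obtain ⟨l, l1, rfl⟩ := cp v _ r (Pa.wk _ _ _) k2
      exact ⟨k1.resolve_left fun e => u ((H.cis_iff ha).2 (by subst e; exact ⟨_, r, k2⟩)),
        l, l1, r, k2⟩

theorem ch_dead {i a b c : ℕ} (hi : i < 4) (ha : a < 4) (hb : b < 4) (hab : a ≠ b)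
    (hc : ¬M.al c) : K.ch i a b c = M.n := by
  rw [ch, if_neg fun u => hc (((H.cis_iff ha).1 u).al H.ok), H.n]
  exact H.geo.early_dead H.ok hi hb ha hab.symm hc fun l _ => H.cb_wo c l

theorem cp0 {c v y a : ℕ} (r : K.ccut v) (p : M.Pa 0 c y) (k : M.Rc v a y) :
    ∃ l < K.c + 2, K.cc c l = v :=
  ⟨K.c + 1, by omega, by
    rw [cc, if_neg (by omega), if_neg (by omega)]; exact H.cut_en r (p.co.trans k.2)⟩

theorem cp1 {c v : ℕ} (hc : M.al c) (r : K.ccut v) (k : M.Co 1 c (M.FE 0 v 3)) :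
    ∃ l < K.c + 2, K.cc c l = v := by
  obtain ⟨g1, g2, -, -⟩ := H.cg_nm (H.n ▸ r.2.2.1)
  have e : K.P.En 1 c = K.cg v := g2 ▸ (H.geo.nm.co H.ok (by omega) hc g1).2 k
  rcases r.2.2.2.2.2.1 with u | ⟨t, t1, u⟩
  · exact ⟨K.c, by omega, by rw [cc, if_neg (by omega), if_pos rfl, u]⟩
  · exact ⟨t, by omega, by rw [cc, if_pos t1, e, u]⟩

theorem cdiv_fst (O : S_Om) {i c : ℕ} (hi : i < 4) (hc : M.al c) :
    M.Fst i c (fun t => M.Rp K.ccut i (M.wk i c t)) (K.cdiv i c) := by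
  have h := H.ok
  have om := fun v (r : K.ccut v) =>
    O M h v ((H.ccut_iff v).1 r).2.1.ring ((H.ccut_iff v).1 r).2.1.all
  have ar : ∀ {a b s t : ℕ}, M.Rk K.ccut a (M.wk i c t) →
      (∀ t' < t, ¬M.Rp K.ccut i (M.wk i c t')) →
      ((i = 0 ∧ b = 3 - a) ∨ (i = 1 ∧ a = 0 ∧ b = 1) ∨ (i = 3 ∧ a = 3 ∧ b = 2)) →
      t = 0 ∨ M.sw i c s t = b := fun {a b s t} k n e => by
    cases t with
    | zero => exact Or.inl rfl
    | succ t =>
      rw [wk_succ] at k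
      exact Or.inr ((arr0 h (h.al_wk i hc t) k.kd e).resolve_right fun ⟨a', u1, u2, u3⟩ =>
        n t t.lt_succ_self ⟨a', k.co u1 u2, u3⟩)
  unfold cdiv
  rcases (by omega : i = 0 ∨ i = 1 ∨ i = 2 ∨ i = 3) with rfl | rfl | rfl | rfl
  · have f0 := H.ch_fst (i := 0) (a := 0) (b := 3) hi (by omega) (by omega) (by omega) hc
      fun v y => H.cp0
    have f3 := H.ch_fst (i := 0) (a := 3) (b := 0) hi (by omega) (by omega) (by omega) hc
      fun v y => H.cp0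
    rw [if_pos rfl, H.n]
    split_ifs with u
    · obtain ⟨t, t1, t2, -⟩ := f0.of_lt u
      refine Or.inr ⟨u, t, t1, ⟨0, t2.2, Or.inl rfl⟩, fun s hs ⟨a, k, _⟩ => ?_⟩
      obtain ⟨r, rfl⟩ := Nat.exists_eq_add_of_lt hs
      have p : M.Per 0 (M.wk 0 c (s + r)) := by
        rw [wk_add]; exact ((k.kd.per h).pa h (Pa.wk _ _ _)).1
      have q := kd_step p
      rw [← wk_succ, ← sw_succ 0 c 0, t2.1.resolve_left (by omega)] at q
      have := q.uniq h t2.2.kd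
      omega
    · refine f3.weak (fun t k => ⟨3, k.2, Or.inl rfl⟩) fun t ⟨a, k, _⟩ n => ?_
      rcases k.kd.zero with rfl | rfl
      · exact absurd (f0.lt_iff.2 ⟨t, ar k n (Or.inl ⟨rfl, rfl⟩), k⟩) u
      · exact ⟨ar k n (Or.inl ⟨rfl, rfl⟩), k⟩
  · rw [if_neg (by omega), if_pos rfl]
    refine (H.ch_fst (i := 1) (a := 0) (b := 1) hi (by omega) (by omega) (by omega) hc
      fun v y r p k => H.cp1 hc r (p.co.trans ((om v r).2.1 y k))).weak
      (fun t k => ⟨0, k.2, Or.inr rfl⟩) fun t ⟨a, k, e⟩ n => ?_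
    rcases k.kd.zero with rfl | rfl
    · exact ⟨ar k n (Or.inr (Or.inl ⟨rfl, rfl, rfl⟩)), k⟩
    · exact absurd e (by decide)
  · rw [if_neg (by omega), if_neg (by omega), if_neg (by omega)]
    refine Or.inl ⟨H.n, fun t ⟨a, k, e⟩ => ?_⟩
    rcases k.kd.zero with rfl | rfl <;> exact absurd e (by decide)
  · rw [if_neg (by omega), if_neg (by omega), if_pos rfl]
    refine (H.ch_fst (i := 3) (a := 3) (b := 2) hi (by omega) (by omega) (by omega) hc
      fun v y r p k => H.cp1 hc r ((om v r).1 c y p k).1).weak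
      (fun t k => ⟨3, k.2, Or.inr rfl⟩) fun t ⟨a, k, e⟩ n => ?_
    rcases k.kd.zero with rfl | rfl
    · exact absurd e (by decide)
    · exact ⟨ar k n (Or.inr (Or.inr ⟨rfl, rfl, rfl⟩)), k⟩

theorem cdiv_dead (i : ℕ) {c : ℕ} (hc : ¬M.al c) : K.cdiv i c = M.n := by
  unfold cdiv
  rw [H.ch_dead (i := 0) (a := 0) (b := 3) (by omega) (by omega) (by omega) (by omega) hc,
    H.ch_dead (i := 0) (a := 3) (b := 0) (by omega) (by omega) (by omega) (by omega) hc,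
    H.ch_dead (i := 1) (a := 0) (b := 1) (by omega) (by omega) (by omega) (by omega) hc,
    H.ch_dead (i := 3) (a := 3) (b := 2) (by omega) (by omega) (by omega) (by omega) hc, H.n]
  simp only [ite_self]

end Rn.Hy

theorem cSel : CSelS := fun O _ _ H =>
  ⟨H.con_iff, H.ccut_iff, H.cis_iff, H.ck_eq, H.cdiv_fst O, H.cdiv_dead⟩

end Pool.Agent.MP_1a6d78_lc.PS

end MrgPart7

-- ======== part 8: formerly Pool.Agent.MP_1a6d78_lc.PS.CList
section MrgPart8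

/-! PROJECT PSC: the lists in the cut round. -/

namespace Pool.Agent.MP_1a6d78_lc.PS

open Classical ED PR PL GL Cm

/-- What the list part uses. -/
structure Rn.C2 (K : Rn) (M M' : Cm) : Prop where
  c1 : K.C1 M M'
  geo : Geo M' K.cN
  om : S_Om
  prb : ∀ p, ¬M.Zr K.ccut (p % 4) (p / 4) → (M'.Prb p ↔ M.Prb p)
  plk : ∀ p, M.Prb (M.lk p) ↔ M.Prb p
  plk' : ∀ p, M'.Prb (M'.lk p) ↔ M'.Prb p
  pp : ∀ p, K.P.prb p ↔ M.Prb p
  pp' : ∀ p, K.cN.prb p ↔ M'.Prb p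

namespace Rn.C2

variable {K : Rn} {M M' : Cm} (H : K.C2 M M')
include H

theorem omv {v : ℕ} (r : K.ccut v) :
    (∀ c y, M.Pa 3 c y → M.Rc v 3 y → M.Co 1 c (M.FE 0 v 3) ∧ ∀ u, M.Pa 1 c u → ¬M.Rc v 0 u) ∧
    (∀ y, M.Rc v 0 y → M.Co 1 y (M.FE 0 v 3)) ∧ (∀ y, M.Rc v 3 y → ¬M.Prb (4 * y + 3)) ∧
    ∀ p y, M.Prb p → p % 2 = 0 → M.Pa 3 (p / 4) y → M.Rc v 3 y →
      p % 4 = 0 ∧ M.Rc v 3 (p / 4) ∧ M.Rc v 0 (M.lk p / 4) :=
  H.om M H.c1.hy.ok v ((H.c1.sel.cut v).1 r).2.1.ring ((H.c1.sel.cut v).1 r).2.1.all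

theorem al' : M'.al = M.al := H.c1.cut.al' H.c1.hy.ok

/-- A new probe is the exit port of a ring cell. -/
theorem newp {p : ℕ} (k : M'.Prb p) (l : ¬M.Prb p) : p % 4 = 0 ∧ ∃ a, M.Rk K.ccut a (p / 4) := by
  obtain ⟨e, q, v, r, c⟩ : M.Zr K.ccut (p % 4) (p / 4) := by_contra fun u => l ((H.prb p u).1 k)
  obtain ⟨a, x⟩ := q.kd H.c1.hy.ok
  exact ⟨e, a, v, r, x, c⟩

/-- A probe at the exit port of a ring cell. -/
theorem exitp {a c : ℕ} (k : M.Rk K.ccut a c) (l : M'.Prb (pt c 0)) :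
    a = 0 ∧ M.Prb (pt (M.FE 0 c 0) 1) ∧ M.Co 0 (M.FE 0 c 0) c ∧
      M'.lk (pt c 0) = pt (M.FE 0 c 0) 1 ∧
      ∃ r, M.lk (pt (M.FE 0 c 0) 1) = pt r 0 ∧ M.Prb (pt r 0) ∧ M.Pa 3 r c := by
  have h := H.c1.hy.ok
  have S := H.c1.cut
  obtain ⟨-, -, f3, f4⟩ := S.fwd h k
  have p' : M.Prb (pt (M.FE 0 c a) (ep 0 a)) := by
    refine (H.prb _ fun u => ?_).1 (S.exit k ▸ (H.plk' _).2 l)
    have := u.1
    rw [pt_mod] at this
    rcases k.kd.zero with rfl | rfl <;> exact absurd this (by decide)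
  rcases k.kd.zero with rfl | rfl
  · obtain ⟨r, r1, r2, -, r4⟩ := f3.kd.pred h
    obtain ⟨t, t1, -⟩ := prev0 h k.kd r1 r2
    exact ⟨rfl, p', f4.co.symm, S.exit k, r, r4, r4 ▸ (H.plk _).2 p', t, t1⟩
  · obtain ⟨v, r, w⟩ := f3
    exact absurd p' ((H.omv r).2.2.1 _ w)

theorem val_iff {e : ℕ} : K.P.val e ↔ M.Prb (e / 4) ∧ (e / 4 + e) % 2 = 1 := by
  rw [Pr.val, H.pp]

theorem val'_iff {e : ℕ} : K.cN.val e ↔ M'.Prb (e / 4) ∧ (e / 4 + e) % 2 = 1 := by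
  rw [Pr.val, H.pp']

theorem val_al {e : ℕ} (k : K.cN.val e) : M.al (e / 16) := by
  have := (H.val'_iff.1 k).1.1
  rwa [H.al', Nat.div_div_eq_div_mul] at this

theorem hl {y : ℕ} (k : K.cN.hv y) : y < 16 * K.n := by
  have := H.c1.hy.ok.lt _ (H.c1.hy.geo.al ▸ k.1)
  rw [H.c1.hy.n]
  omega

theorem vl {e : ℕ} (k : K.cN.val e) : e < 16 * K.n ∧ K.cN.hv (K.cN.own e) := by
  have a := H.val_al k
  have := H.c1.hy.ok.lt _ a
  have i : e % 4 < 4 := Nat.mod_lt _ (by omega)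
  rw [← H.al'] at a
  refine ⟨by rw [H.c1.hy.n]; omega, ?_⟩
  rw [Pr.hv, Pr.own, pt_div, pt_mod, H.geo.al]
  exact ⟨H.geo.nm.al i a, H.geo.nm.idem (H.c1.cut.ok' H.c1.hy.ok) i a⟩

/-- The head of an entry that does not move. -/
theorem stay {e : ℕ} (a : M.al (e / 16)) (k : ¬K.cdiv (e % 4) (e / 16) < K.n) :
    K.cren (K.cN.own e) = pt (K.P.En (e % 4) (e / 16)) e := by
  have h := H.c1.hy.ok
  have G := H.c1.hy.geo
  have i : e % 4 < 4 := Nat.mod_lt _ (by omega)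
  have o : K.cN.own e = pt (K.P.En (e % 4) (e / 16)) e := by
    show pt (K.cEn _ _) e = _
    rw [cEn, if_neg k]
  have d : ¬K.cdiv (e % 4) (K.P.En (e % 4) (e / 16)) < K.n := fun u => k (by
    rw [H.c1.hy.n] at u ⊢
    obtain ⟨t, u⟩ := (H.c1.sel.div i (G.nm.al i a)).lt_iff.1 u
    obtain ⟨s, e⟩ := (G.nm.pa _ i _ a).trans (Pa.wk _ _ t)
    exact (H.c1.sel.div i a).lt_iff.2 ⟨s, e ▸ u⟩)
  rw [o, cren, pt_mod, pt_div, if_neg d, G.nm.idem h i a]
  unfold pt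
  omega

theorem ren_id {x : ℕ} (k : K.cN.hv x) (l : K.cren x ≠ 16 * K.n) : K.cren x = x := by
  have e : K.cEn (x % 4) (x / 4) = x / 4 := k.2
  unfold cren at l ⊢
  split_ifs at l ⊢ with c
  · exact absurd rfl l
  · rw [cEn, if_neg c] at e
    rw [e, pt_eta]

/-- The anchor of a new probe that does not move. -/
theorem anc {e : ℕ} (k : K.cins e) (u : ¬K.cdiv (e % 4) (e / 16) < K.n) :
    K.P.val (pt (K.P.lam (K.clam (e / 4))) e) ∧
      K.P.own (pt (K.P.lam (K.clam (e / 4))) e) = K.cren (K.cN.own e) ∧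
      K.clam (K.P.lam (K.P.lam (K.clam (e / 4)))) = e / 4 := by
  have h := H.c1.hy.ok
  have G := H.c1.hy.geo
  have a := H.val_al k.1
  obtain ⟨v1, v2⟩ := H.val'_iff.1 k.1
  obtain ⟨n1, b, n2⟩ := H.newp v1 fun c => k.2.resolve_left u (H.val_iff.2 ⟨c, v2⟩)
  have ep' : e / 4 = pt (e / 4 / 4) 0 := by unfold pt; omega
  obtain ⟨rfl, x1, -, x3, r, r1, r2, r3⟩ := H.exitp n2 (ep' ▸ v1)
  rw [Nat.div_div_eq_div_mul] at n2 r3
  have i3 : e % 4 = 3 := by
    by_contra c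
    exact u (H.c1.hy.n ▸ (H.c1.sel.div (Nat.mod_lt _ (by omega)) a).lt_iff.2
      ⟨0, 0, n2, Or.inr (show e % 4 = 1 by omega)⟩)
  have l1 : K.clam (e / 4) = pt (M.FE 0 (e / 4 / 4) 0) 1 := by
    rw [H.c1.lam, if_pos (by rw [Nat.div_div_eq_div_mul]; exact a), ← x3, ← ep']
  have l2 : K.P.lam (K.clam (e / 4)) = pt r 0 := by rw [l1, G.lam_al x1.1, r1]
  have ar : M.al r := by
    have := r2.1
    rwa [pt_div] at this
  refine ⟨?_, ?_, ?_⟩
  · rw [l2, H.val_iff, pt_div]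
    exact ⟨r2, by unfold pt; omega⟩
  · rw [H.stay a u, l2, Pr.own, pt_mod, show pt (pt r 0) e / 16 = r by unfold pt; omega, i3,
      G.nm.pa_eq h (by omega) ar r3]
    unfold pt
    omega
  · rw [l1, G.lam_lam h x1.1, H.c1.lam, if_pos x1.1, ← x3, H.c1.cut.inv, ← ep']

/-- The port of an entry that moves is found from the ring. -/
theorem found {e : ℕ} (k : K.cN.val e) (u : K.cdiv (e % 4) (e / 16) < K.n) :
    ∃ t < 3 * K.c + 1, K.cnx (K.P.En 0 (K.cN.own e / 4)) t = e / 4 := by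
  have Y := H.c1.hy
  have h := Y.ok
  have G := Y.geo
  have a := H.val_al k
  have i : e % 4 < 4 := Nat.mod_lt _ (by omega)
  obtain ⟨v1, v2⟩ := H.val'_iff.1 k
  have F := H.c1.sel.div i a
  obtain ⟨T, t1, ⟨b, ⟨v, r, w⟩, hb⟩, -⟩ := F.of_lt (Y.n ▸ u)
  have pa : M.Pa (e % 4) (e / 4 / 4) (M.wk (e % 4) (e / 16) T) := by
    rw [Nat.div_div_eq_div_mul]; exact Pa.wk _ _ _
  obtain ⟨-, cd, s0, s1⟩ := (H.c1.sel.cut v).1 r
  have o : K.P.En 0 (K.cN.own e / 4) = v := by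
    rw [Pr.own, pt_div]
    show K.P.En 0 (K.cEn _ _) = v
    have b4 : b < 4 := by have := w.1.zero; omega
    rw [cEn, if_pos u, t1, H.c1.sel.ck w.1, Y.cut_en r w.2, G.FE 0 (by omega) b b4]
    exact Y.cut_en r (fe_rc h cd.ring.1 (fe_lt h cd.ring.1 w)).2
  have ex0 : ∀ p, M.Prb p → p % 2 = 1 → M.Co 0 (p / 4) v → ∃ t < K.c, K.ent 0 v t = p :=
    fun p p1 p2 p3 => by
      have := Y.ex 0 (by omega) p p1 p2 (Y.cut_en r p3 ▸ s0)
      rwa [Y.cut_en r p3] at this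
  have ep' : e / 4 % 4 = 0 → e / 4 = pt (e / 4 / 4) 0 := by unfold pt; omega
  rw [o]
  rcases hb with hb | hb
  · rw [hb] at pa w
    have p1 : M.Prb (e / 4) := by_contra fun c => by have := (H.newp v1 c).1; omega
    obtain ⟨t, t1, t2⟩ := ex0 _ p1 (by omega) (pa.co.trans w.2)
    exact ⟨t, by omega, by rw [cnx, if_pos t1, t2]⟩
  rcases w.1.zero with rfl | rfl
  · replace hb : e % 4 = 1 := hb
    by_cases p1 : M.Prb (e / 4)
    · rw [hb] at pa w
      obtain ⟨t, t1, t2⟩ := Y.ent_eg (Y.n ▸ r.2.2.1) s1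
        ⟨p1, by omega, pa.co.trans ((H.omv r).2.1 _ w)⟩
      exact ⟨K.c + t, by omega, by
        rw [cnx, if_neg (by omega), if_pos (by omega), Nat.add_sub_cancel_left, t2]⟩
    · obtain ⟨n1, b, n2⟩ := H.newp v1 p1
      obtain ⟨rfl, x1, x2, x3, -⟩ := H.exitp n2 (ep' n1 ▸ v1)
      have d : M.wk (e % 4) (e / 16) T = e / 4 / 4 := by
        rw [Nat.div_div_eq_div_mul] at n2 ⊢
        exact t1.symm.trans (F.eq (t := 0) ⟨0, n2, Or.inr hb⟩ fun _ c => by omega)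
      obtain ⟨t, t1, t2⟩ := ex0 _ x1 (by unfold pt; omega)
        (by rw [pt_div]; exact x2.trans (d ▸ w.2))
      exact ⟨2 * K.c + t, by omega, by
        rw [cnx, if_neg (by omega), if_neg (by omega), Nat.add_sub_cancel_left, t2, H.c1.lam,
          if_pos x1.1, ← x3, H.c1.cut.inv, ← ep' n1]⟩
  · exfalso
    replace hb : e % 4 = 3 := hb
    rw [hb] at pa w
    by_cases p1 : M.Prb (e / 4)
    · obtain ⟨n1, n2, -⟩ := (H.omv r).2.2.2 _ _ p1 (by omega) pa w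
      exact absurd (H.exitp ⟨v, r, n2⟩ (ep' n1 ▸ v1)).1 (by omega)
    · obtain ⟨n1, b, n2⟩ := H.newp v1 p1
      obtain ⟨rfl, -, x2, -, s, r1, r2, r3⟩ := H.exitp n2 (ep' n1 ▸ v1)
      obtain ⟨-, -, n3⟩ := (H.omv r).2.2.2 _ _ r2 (by unfold pt; omega)
        (by rw [pt_div]; exact r3.trans pa) w
      rw [← r1, h.inv, pt_div] at n3
      exact ((H.omv r).1 _ _ pa w).2 _ (Pa.refl _ _) ⟨n2.kd, x2.symm.trans n3.2⟩

theorem hy : K.crd.Hy := by
  have Y := H.c1.hy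
  refine ⟨fun e => H.vl, fun y => H.hl, fun e k => k.1, fun e k l => ?_, fun x y hx hy d e => ?_,
    fun e k => ?_, fun e k => ?_⟩
  · have u : ¬K.cdiv (e % 4) (e / 16) < K.n := fun c => l ⟨k, Or.inl c⟩
    exact ⟨by_contra fun c => l ⟨k, Or.inr c⟩, H.stay (H.val_al k) u⟩
  · have n : K.cren x ≠ 16 * K.n := fun c => by
      have d1 : K.P.al (K.cren x / 4) := d.1
      rw [c, Y.geo.al, Y.n] at d1
      have := Y.ok.lt _ d1
      omega
    have e' : K.cren x = K.cren y := e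
    rw [← H.ren_id hx n, e', H.ren_id hy (e' ▸ n)]
  · show K.can e = _ ∨ ∃ e', _ ∧ _ ∧ K.can e = _
    unfold can
    split_ifs with u
    · exact Or.inl rfl
    · exact Or.inr ⟨_, (H.anc k u).1, (H.anc k u).2.1, rfl⟩
  · show ∃ t < 3 * K.c + 1, K.cNx (K.can e) t = e
    unfold can
    split_ifs with u
    · obtain ⟨t, t1, t2⟩ := H.found k.1 u
      have l := H.hl (H.vl k.1).2
      refine ⟨t, t1, ?_⟩
      rw [cNx, zl_mk _ l, ze_mk _ l, if_pos rfl, t2, Pr.own]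
      unfold pt
      omega
    · obtain ⟨a1, -, a3⟩ := H.anc k u
      have l : pt (K.P.lam (K.clam (e / 4))) e < 16 * K.n := by
        have := Y.prb_lt (H.val_iff.1 a1).1
        rw [Y.n]
        omega
      refine ⟨0, by omega, ?_⟩
      have c0 : K.P.ld.cur (pt (K.P.lam (K.clam (e / 4))) e) ≠ 0 := Y.cur _ a1
      rw [cNx, Ld.slot, zl_mk _ l, ze_mk _ l, if_neg c0, pt_div, a3]
      unfold pt
      omega

end Rn.C2

end Pool.Agent.MP_1a6d78_lc.PS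

end MrgPart8

-- ======== part 9: formerly Pool.Agent.MP_1a6d78_lc.PS.CLam
section MrgPart9

/-! PROJECT PSC, row CLAM: the links after the cut. -/

namespace Pool.Agent.MP_1a6d78_lc.PS

open Classical ED PR GL

theorem CLam.cpv_eq {K : Rn} {M : Cm} (H : K.Hy M) (L : K.CSelK M) {a r u : ℕ} (k : M.Kd 0 a u)
    (p : M.Per 0 r) (e : M.st 0 r = M.FE 0 u a) (c : M.Co 0 u r) : K.cpv a r = u := by
  have h := H.ok
  have G := H.geo
  have z := k.zero
  have ha : a < 4 := by omega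
  obtain ⟨t, t1, t2, t3⟩ := Cm.prev0 h k p e
  have no : ∀ s < t, ¬M.Kd 0 a (M.wk (ep 0 (3 - a)) r s) := fun s hs v => by
    have := v.uniq h (t3 s hs)
    omega
  rw [Rn.cpv, ← t1]
  split_ifs with w
  · rcases Nat.eq_zero_or_pos t with rfl | v
    exacts [rfl, absurd ((L.con ha).1 w).2.1 (no 0 v)]
  · have o := fun y => (G.On_iff h (y := y) ha (G.ring_wo h r (by omega))).symm.trans
      (G.On_ring h (i := 0) (c := r) (by omega) ha)
    rw [H.n]
    refine (G.early_fst h (by unfold ep; split_ifs <;> omega) (by omega) ha (by omega) p.1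
      fun _ _ => G.ring_wo h r (by omega)).eq ⟨t2 t le_rfl, 0, one_pos, (o _).2 ?_⟩
      fun s hs ⟨_, _, _, v⟩ => no s hs ((o _).1 v).2.1
    rw [t1]
    exact ⟨p.1, k, c⟩

theorem cLam : CLamS := by
  intro K M M' H S L p
  have h := H.ok
  have G := H.geo
  have ha : K.ck (p / 4) < 4 := by unfold Rn.ck; split_ifs <;> omega
  rw [Rn.clam]
  by_cases c1 : K.cis (K.ck (p / 4)) (p / 4) ∧ p % 4 = 0
  · have k := (L.cis ha).1 c1.1
    rw [if_pos c1, if_pos (k.al h), G.FE 0 (by omega) _ ha, ← S.exit k]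
    congr 1
    have := c1.2
    unfold pt
    omega
  rw [if_neg c1]
  by_cases c2 : K.cis (K.ck (p / 4)) (p / 4) ∧ p % 4 = ep 0 (K.ck (p / 4))
  · have k := (L.cis ha).1 c2.1
    have e : pt (p / 4) (ep 0 (K.ck (p / 4))) = p := by
      have := c2.2
      unfold pt
      omega
    obtain ⟨r, r1, r2, -, r4⟩ := k.kd.pred h
    obtain ⟨u, u1, u2, u3, u4⟩ := S.bwd h k
    rw [e] at r4 u4
    rw [if_pos c2, if_pos (k.al h), G.lam_al (k.al h), r4, pt_div, u4,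
      CLam.cpv_eq H L u1.kd r1 (r2.trans u3.symm) (u2.trans (r2 ▸ Cm.Pa.step 0 r).co.symm)]
    rfl
  rw [if_neg c2, G.lam, S.off']
  rintro ⟨a, k, v⟩
  have e := L.ck k.kd
  rw [← e] at k v
  exact v.elim (fun v => c1 ⟨(L.cis ha).2 k, v⟩) fun v => c2 ⟨(L.cis ha).2 k, v⟩

end Pool.Agent.MP_1a6d78_lc.PS

end MrgPart9

-- ======== part 10: formerly Pool.Agent.MP_1a6d78_lc.PS.CEn
section MrgPart10

/-! PROJECT PSC: the names of the cycles after the cut. -/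

namespace Pool.Agent.MP_1a6d78_lc.PS

open Classical ED PR GL Cm

namespace CEn

variable {K : Rn} {M M' : Cm} {i c a d : ℕ}

/-- The new name of the cells of one kind of a cut ring. -/
theorem name (H : K.C1 M M') (k : M.Rk K.ccut a d) :
    M.Rk K.ccut a (K.P.FE 0 (K.P.En 0 d) (K.ck d)) ∧
      M.Co 0 (K.P.FE 0 (K.P.En 0 d) (K.ck d)) d := by
  have h := H.hy.ok
  have G := H.hy.geo
  have z := k.kd.zero
  have p := G.nm.per 0 (by omega) d (k.al h)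
  have e := (G.nm.pa 0 (by omega) d (k.al h)).co
  rw [H.sel.ck k.kd, G.FE 0 (by omega) a (by omega)]
  have r := fe_rc h p (fe_lt h p ⟨k.kd, e⟩)
  exact ⟨k.co r.1 (r.2.trans e.symm), r.2.trans e.symm⟩

theorem pos (H : K.C1 M M') (k : K.cdiv i c < M.n) :
    K.cEn i c = K.P.FE 0 (K.P.En 0 (K.cdiv i c)) (K.ck (K.cdiv i c)) := by
  rw [Rn.cEn, H.hy.n, if_pos k]

theorem neg (H : K.C1 M M') (k : ¬K.cdiv i c < M.n) : K.cEn i c = K.P.En i c := by
  rw [Rn.cEn, H.hy.n, if_neg k]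

theorem free (H : K.C1 M M') (hi : i < 4) (k : ∀ t, ¬M.Rp K.ccut i (M.wk i c t)) (t : ℕ) :
    M'.wk i c t = M.wk i c t := (H.cut.wk_eq hi (T := t) fun s _ => k s).1 t le_rfl

theorem both (H : K.C1 M M') (hi : i < 4) (hc : M.al c) :
    M'.Pa i c (K.cEn i c) ∧ M'.Per i (K.cEn i c) := by
  have h := H.hy.ok
  have G := H.hy.geo
  have S := H.cut
  rcases H.sel.div hi hc with ⟨e, k⟩ | ⟨e, T, e1, ⟨a, k1, k2⟩, k3⟩
  · rw [neg H e.not_lt]
    obtain ⟨t, ht⟩ := G.nm.pa i hi c hc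
    obtain ⟨p, s, hs⟩ := G.nm.per i hi c hc
    refine ⟨⟨t, (free H hi k t).trans ht⟩, S.al' h ▸ p, s, ?_⟩
    rw [← wk_succ', free H hi (fun u => by rw [← ht, ← wk_add]; exact k _), wk_succ', hs]
  · rw [pos H e, e1]
    obtain ⟨n1, n2⟩ := name H k1
    exact ⟨Pa.trans ⟨T, (S.wk_eq hi k3).1 T le_rfl⟩ ((S.pa_iff h k1 k2 _).2 ⟨n1, n2⟩),
      S.per_i h n1 k2⟩

theorem step (H : K.C1 M M') (hi : i < 4) (hc : M.al c) : K.cEn i (M'.st i c) = K.cEn i c := by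
  have h := H.hy.ok
  have G := H.hy.geo
  have S := H.cut
  by_cases r : M.Rp K.ccut i c
  · obtain ⟨a, k1, k2⟩ := r
    obtain ⟨-, k3, k4⟩ := S.step h k1 k2
    have e1 : K.cdiv i c = c :=
      (H.sel.div hi hc).eq (t := 0) ⟨a, k1, k2⟩ fun _ u => absurd u (Nat.not_lt_zero _)
    have e2 : K.cdiv i (M'.st i c) = M'.st i c :=
      (H.sel.div hi (k3.al h)).eq (t := 0) ⟨a, k3, k2⟩ fun _ u => absurd u (Nat.not_lt_zero _)
    rw [pos H (e1.trans_lt (h.lt _ hc)), pos H (e2.trans_lt (h.lt _ (k3.al h))), e1, e2,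
      H.sel.ck k1.kd, H.sel.ck k3.kd, (G.nm.co h (by omega) (k3.al h) hc).2 k4]
  · have e : M'.st i c = M.st i c := congrArg (· / 4) (S.off_pt hi r)
    have F := H.sel.div hi (h.al_st i hc)
    have e2 : K.cdiv i (M.st i c) = K.cdiv i c := by
      rcases H.sel.div hi hc with ⟨e1, k⟩ | ⟨-, T, e1, k1, k3⟩
      · rw [e1]
        exact F.none fun t => k (t + 1)
      · cases T with
        | zero => exact absurd k1 r
        | succ T => exact (F.eq (t := T) k1 fun t ht => k3 (t + 1) (by omega)).trans e1.symm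
    rw [e, Rn.cEn, Rn.cEn, e2, G.nm.st i hi c hc]

end CEn

open CEn in
theorem cEn : CEnS := by
  intro K M M' H
  have e := H.cut.al' H.hy.ok
  refine ⟨fun i hi c hc => ?_, fun i hi c hc => (both H hi (e ▸ hc)).1,
    fun i hi c hc => (both H hi (e ▸ hc)).2, fun i hi c hc => step H hi (e ▸ hc)⟩
  rw [e] at hc
  rw [neg H (H.sel.dead i hc).not_lt, H.hy.geo.En_dead hi hc, H.cut.n]

end Pool.Agent.MP_1a6d78_lc.PS

end MrgPart10

-- ======== part 11: formerly Pool.Agent.MP_1a6d78_lc.PS.CFe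
section MrgPart11

/-! PROJECT PSC: the first passage by a side after the cut. -/

namespace Pool.Agent.MP_1a6d78_lc.PS

open Classical ED PR GL Cm

/-- A first passage before the diversion is the same in both maps. -/
theorem cfe_same {M M' : Cm} {R : ℕ → Prop} (h : M.Ok) (S : M.Cutm M' R) {i c a t : ℕ}
    (hi : i < 4) (hc : M.al c) (k : ∀ s < t + 1, ¬M.Rp R i (M.wk i c s))
    (e : M.ss i (M.wk i c t) = a) (f : ∀ s < t, M.ss i (M.wk i c s) ≠ a) :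
    M'.FE i c a = M.wk i c (t + 1) := by
  obtain ⟨w1, w2⟩ := S.wk_eq hi k
  rw [FE_eq (S.ok' h) (S.al' h ▸ hc) ((w2 t t.lt_succ_self).trans e)
    fun s hs => by rw [w2 s (by omega)]; exact f s hs, w1 _ le_rfl]

theorem cFe : CFeS := by
  intro K M M' H i hi a ha c
  have h := H.hy.ok
  have G := H.hy.geo
  have S := H.cut
  have h' := S.ok' h
  rw [Rn.cFE, H.hy.n, G.FE i hi a ha]
  by_cases hc : M.al c
  swap
  · rw [if_neg fun u => u.1.ne (H.sel.dead i hc), FE_dead hc, FE_dead (S.al' h ▸ hc), S.n]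
  have hc' : M'.al c := S.al' h ▸ hc
  rcases H.sel.div hi hc with ⟨d1, d2⟩ | ⟨d1, T, d2, d3, d4⟩
  · rw [if_neg fun u => u.1.ne d1]
    rcases FE_le h i c a with u | u
    · rw [u, ← S.n]
      refine ((FE_none h' hc').2 fun t => ?_).symm
      rw [(S.wk_eq hi (T := t + 1) fun s _ => d2 s).2 t t.lt_succ_self]
      exact (FE_none h hc).1 u t
    · obtain ⟨-, t, t1, t2, t3⟩ := FE_spec h (h.lt _ u)
      rw [t1, cfe_same h S hi hc (fun s _ => d2 s) t2 t3]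
  obtain ⟨o, ln⟩ := mem_first (s := a) (Q := M.Rp K.ccut i) h hi hc d3 d4
  obtain ⟨w1, w2⟩ := S.wk_eq hi d4
  rw [← d2] at o ln d3
  by_cases x : ∃ t, t < T ∧ M.ss i (M.wk i c t) = a
  · obtain ⟨t1, t2⟩ := Nat.find_spec x
    have t3 : ∀ s < Nat.find x, M.ss i (M.wk i c s) ≠ a := fun s hs e =>
      Nat.find_min x hs ⟨hs.trans t1, e⟩
    generalize Nat.find x = t at t1 t2 t3
    have e := FE_eq h hc t2 t3
    rw [if_neg, e, cfe_same h S hi hc (fun s hs => d4 s (by omega)) t2 t3]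
    refine fun u => u.2 ⟨fun v => ?_, (G.On_iff h ha o.wo).2 ⟨o, t + 1, by omega, e.symm, t2⟩⟩
    have := el_inj h o (s := t + 1) (t := 0) (by omega) (Nat.zero_le _) (e.symm.trans v)
    omega
  have y : ∀ s < T, M'.ss i (M'.wk i c s) ≠ a := fun s hs e => x ⟨s, hs, (w2 s hs).symm.trans e⟩
  obtain ⟨b, b1, b2⟩ := d3
  have wT : M'.wk i c T = K.cdiv i c := (w1 T le_rfl).trans d2.symm
  rw [if_pos, H.sel.ck b1.kd]
  · split_ifs with e
    · subst e
      rw [FE_eq h' hc' (t := T) (by rw [wT]; exact (S.step h b1 b2).1) y, wk_succ, wT, Rn.cr,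
        H.lam, pt_div, if_pos (b1.al h)]
      rfl
    · rw [← S.n]
      refine ((FE_none h' hc').2 fun t => ?_).symm
      rcases lt_or_ge t T with u | u
      · exact y t u
      · obtain ⟨r, rfl⟩ := Nat.exists_eq_add_of_le u
        rw [wk_add, wT, (S.step h ((S.pa_iff h b1 b2 _).1 (Pa.wk _ _ r)).1 b2).1]
        exact fun v => e v.symm
  · refine ⟨d1, fun ⟨v1, v2⟩ => ?_⟩
    obtain ⟨-, s, s1, s2, s3⟩ := (G.On_iff h ha o.wo).1 v2
    cases s with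
    | zero => exact v1 s2.symm
    | succ s => exact x ⟨s, by omega, s3⟩

end Pool.Agent.MP_1a6d78_lc.PS

end MrgPart11

-- ======== part 12: formerly Pool.Agent.MP_1a6d78_lc.PS.CCov
section MrgPart12

/-! PROJECT PSC, row CCOV: the pieces of a segment after the cut. -/

namespace Pool.Agent.MP_1a6d78_lc.PS

open Classical ED PR GL

namespace Cm

variable {M M' : Cm} {R : ℕ → Prop}

/-- A segment that does not leave a cell by a cut link. -/
theorem cov_same (h : M.Ok) (S : M.Cutm M' R) {A : Sg} {δ a : ℕ} {X : ℕ → Sg} {rv : ℕ → Bool}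
    (k : M.ok A) (e : ∀ u, M.Mem A u → u ≠ A.q → ¬M.Rp R A.i u) (hX : X 0 = A)
    (hr : rv 0 = false) : Cov M M' δ a A X rv 1 := by
  obtain ⟨-, e1, e2⟩ := agree h (S.ok' h) k (S.al' h ▸ k.2.1) fun u m c => S.off_pt k.1 (e u m c)
  refine cov_one (hX ▸ k) (fun y c => hX ▸ (e1 y a).1 c) (fun y c => Or.inl ((e1 y a).2 (hX ▸ c)))
    fun y y' _ _ _ _ c => ?_
  rw [hr, hX] at c
  exact (e2 y y').2 c

/-- A segment of type 0 between two cells of one kind of a cut ring. -/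
theorem ring_seg (h : M.Ok) (S : M.Cutm M' R) {a u v : ℕ} (ku : M.Rk R a u) (kv : M.Rk R a v)
    (c : M.Co 0 v u) : M.ok ⟨0, u, a, v⟩ ∧ M'.ok ⟨0, u, a, v⟩ ∧
      (∀ y, M.Ps ⟨0, u, a, v⟩ y a ↔ M'.Mem ⟨0, u, a, v⟩ y) ∧
      ∀ y y', M.Ps ⟨0, u, a, v⟩ y a → M.Ps ⟨0, u, a, v⟩ y' a → M.Bf ⟨0, u, a, v⟩ y y' →
        M'.Bf ⟨0, u, a, v⟩ y y' := by
  have o : M.ok ⟨0, u, a, v⟩ := ⟨Nat.zero_lt_succ _, ku.al h, c.symm.pa h (kv.kd.per h)⟩
  have o' : M'.ok ⟨0, u, a, v⟩ :=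
    ⟨Nat.zero_lt_succ _, S.al' h ▸ ku.al h, (S.pa0 h ku v).2 ⟨kv, c⟩⟩
  have b := (S.subw h a).bf h (S.ok' h) ku o o'
  have kd : ∀ y b, M.Ps ⟨0, u, a, v⟩ y b → M.Kd 0 b y := fun y b p => by
    rcases (ps_iff h o).1 p with ⟨rfl, rfl⟩ | ⟨w, w1, -, rfl, rfl⟩
    · exact ku.kd
    · exact kd_step ((ku.kd.per h).pa h w1.pa).1
  have rk : ∀ y, M.Ps ⟨0, u, a, v⟩ y a → M.Rk R a y := fun y p =>
    ku.co (kd y a p) p.mem.pa.co.symm
  refine ⟨o, o', fun y => ⟨fun p => ((b y y).2 ⟨p.mem.bf, rk y p, rk y p⟩).left, fun m => ?_⟩,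
    fun y y' p p' d => (b y y').2 ⟨d, rk y p, rk y' p'⟩⟩
  obtain ⟨m1, m2, -⟩ := (b y y).1 m.bf
  obtain ⟨b, pb⟩ := m1.left.ps
  exact (kd y b pb).uniq h m2.kd ▸ pb

/-- Two pieces: up to the diversion, and along the ring. -/
theorem cov_two (h : M.Ok) (h' : M'.Ok) {A Z : Sg} {δ a a0 d r : ℕ} {X : ℕ → Sg} {rv : ℕ → Bool}
    (k : M'.ok A) (oB : M.ok ⟨A.i, A.p, A.s, d⟩)
    (eP : ∀ y b, M'.Ps ⟨A.i, A.p, A.s, d⟩ y b ↔ M.Ps ⟨A.i, A.p, A.s, d⟩ y b)
    (eB : ∀ y y', M'.Bf ⟨A.i, A.p, A.s, d⟩ y y' ↔ M.Bf ⟨A.i, A.p, A.s, d⟩ y y')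
    (pr : M'.Ps A r a0) (dr : M'.Bf A d r) (sp : ∀ u, M'.Mem A u → M'.Bf A u d ∨ M'.Bf A r u)
    (s0 : ∀ y b, M'.Ps ⟨A.i, r, a0, A.q⟩ y b → b = a0) (oZ : M.ok Z)
    (z1 : ∀ y, M.Ps Z y a0 ↔ M'.Mem ⟨A.i, r, a0, A.q⟩ y)
    (z2 : ∀ y y', M.Ps Z y a0 → M.Ps Z y' a0 → M.Bo (!rv 1) Z y y' → M'.Bf ⟨A.i, r, a0, A.q⟩ y y')
    (x0 : X 0 = ⟨A.i, A.p, A.s, d⟩) (r0 : rv 0 = false)
    (x1 : X 1 = if a = a0 then Z else junk M.n) : Cov M M' δ a A X rv 2 := by
  obtain ⟨-, q1, q2⟩ := cutq h' k dr.left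
  obtain ⟨-, p1, p2⟩ := cutp h' k pr
  have one : M.ok (X 1) → a = a0 ∧ X 1 = Z := fun o => by
    by_cases c : a = a0
    · exact ⟨c, by rw [x1, if_pos c]⟩
    · rw [x1, if_neg c] at o
      exact absurd o (junk_not h)
  have zz : ∀ y, M.Ps Z y a0 → M'.Ps A y a0 ∧ M'.Bf A r y := fun y p => by
    obtain ⟨b, pb⟩ := ((z1 y).1 p).ps
    exact (p1 y a0).1 (s0 y b pb ▸ pb)
  have two : ∀ {l : ℕ}, l < 2 → l = 0 ∨ l = 1 := fun c => by omega
  refine ⟨fun l hl => ?_, fun y p => ?_, fun l hl y o p => Or.inl ?_,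
    fun l l' y y' c c' o o' p p' _ _ => ?_, fun l hl y y' o p p' _ _ b => ?_⟩
  · rcases two hl with rfl | rfl
    · rw [x0]; exact oB.wo
    · rw [x1]
      split_ifs
      exacts [oZ.wo, junk_wo h]
  · rcases sp y p.mem with c | c
    · exact ⟨0, by omega, x0 ▸ oB, x0 ▸ (eP y a).1 ((q1 y a).2 ⟨p, c⟩)⟩
    · have p' := (p1 y a).2 ⟨p, c⟩
      have e := s0 y a p'
      refine ⟨1, by omega, ?_⟩
      rw [x1, if_pos e, e]
      exact ⟨oZ, (z1 y).2 p'.mem⟩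
  · rcases two hl with rfl | rfl
    · rw [x0] at p
      exact ((q1 y a).1 ((eP y a).2 p)).1
    · obtain ⟨rfl, e⟩ := one o
      rw [e] at p
      exact (zz y p).1
  · obtain rfl : l = 0 := by omega
    obtain rfl : l' = 1 := by omega
    obtain ⟨rfl, e⟩ := one o'
    rw [x0] at p
    rw [e] at p'
    exact (((q1 y a).1 ((eP y a).2 p)).2.trans h' k dr).trans h' k (zz y' p').2
  · rcases two hl with rfl | rfl
    · rw [x0, r0] at b
      exact ((q2 y y').1 ((eB y y').2 b)).1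
    · obtain ⟨rfl, e⟩ := one o
      rw [e] at p p' b
      exact ((p2 y y').1 (z2 y y' p p' b)).1

end Cm

open Cm in
theorem cCov : CCovS := by
  rintro K M M' H ⟨i, p, s, q⟩ a ha k'
  have h := H.hy.ok
  have G := H.hy.geo
  have S := H.cut
  have en := H.hy.n
  have h' := S.ok' h
  have hi : i < 4 := k'.1
  have hp : M.al p := S.al' h ▸ k'.2.1
  have r0 : Rn.crv ⟨i, p, s, q⟩ 0 = false := by simp [Rn.crv]
  have zero : K.cnp ⟨i, p, s, q⟩ = 0 → M.ok ⟨i, p, s, q⟩ →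
      (∀ u, M.Mem ⟨i, p, s, q⟩ u → u ≠ q → ¬M.Rp K.ccut i u) →
      Cov M M' 0 a ⟨i, p, s, q⟩ (K.cpc ⟨i, p, s, q⟩ a) (Rn.crv ⟨i, p, s, q⟩)
        (K.cnp ⟨i, p, s, q⟩ + 1) := fun e o c => by
    rw [e]
    exact cov_same h S o c (by rw [Rn.cpc, if_pos e]) r0
  rcases H.sel.div hi hp with ⟨e, no⟩ | ⟨lt, T, e, rp, no⟩
  · refine zero (if_neg fun c => ?_) ⟨hi, hp, ?_⟩ ?_
    · have := c.1
      rw [en] at this
      exact this.ne e
    · obtain ⟨t, c⟩ := k'.2.2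
      exact ⟨t, ((S.wk_eq hi fun t _ => no t).1 t le_rfl).symm.trans c⟩
    · rintro u ⟨t, -, rfl⟩ -
      exact no t
  obtain ⟨oB, lB⟩ := mem_first (s := s) (Q := M.Rp K.ccut i) h hi hp rp no
  have w := (S.wk_eq hi no).1
  rw [← e] at oB lB rp
  have cr : K.cr i p = M'.st i (K.cdiv i p) := by
    rw [Rn.cr, H.lam, pt_div, if_pos (e ▸ h.al_wk i hp T)]
    rfl
  have test : K.P.OnC K.n q ⟨i, p, s, K.cdiv i p⟩ ↔ M.Mem ⟨i, p, s, K.cdiv i p⟩ q := by
    rw [en, G.OnC_iff h (A := ⟨i, p, s, K.cdiv i p⟩) hi oB.wo]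
    exact and_iff_right oB
  have off : ∀ u, M.Mem ⟨i, p, s, K.cdiv i p⟩ u → u ≠ K.cdiv i p → ¬M.Rp K.ccut i u := by
    rintro u ⟨t, t1, rfl⟩ c
    exact no t (lt_of_le_of_ne (lB ▸ t1) fun d => c (by rw [d]; exact e.symm))
  by_cases m : M.Mem ⟨i, p, s, K.cdiv i p⟩ q
  · obtain ⟨o, -, q2⟩ := cutq h oB m
    refine zero (if_neg fun c => c.2 (test.2 m)) o fun u mu c => ?_
    obtain ⟨u1, u2⟩ := (q2 u u).1 mu.bf
    refine off u u1.left fun d => c (u2.anti h oB ?_)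
    rw [d]
    exact m.bf_q h oB
  have np : K.cnp ⟨i, p, s, q⟩ = 1 := if_pos ⟨en ▸ lt, fun c => m (test.1 c)⟩
  obtain ⟨-, eP, eB⟩ := agree h h' oB k'.2.1 fun u c d => S.off_pt hi (off u c d)
  obtain ⟨a0, kd, i0⟩ := rp
  have ck := H.sel.ck kd.kd
  have md : M'.Mem ⟨i, p, s, q⟩ (K.cdiv i p) := by
    refine ⟨T, not_lt.1 fun c => m ⟨_, lB ▸ c.le, ?_⟩, (w T le_rfl).trans e.symm⟩
    exact (w _ c.le).symm.trans (ln_spec h' k').2.1
  obtain ⟨s1, s2, -, s4⟩ := split h' k' md fun c : K.cdiv i p = q => m (by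
    have u : M.Mem _ (K.cdiv i p) := mem_q h oB
    exact c ▸ u)
  obtain ⟨t1, t2, -⟩ := S.step h kd i0
  change M'.Ps _ (M'.st i _) (M'.ss i _) at s1
  change M'.Bf _ _ (M'.st i _) at s2
  change ∀ u, _ → _ ∨ M'.Bf _ (M'.st i _) _ at s4
  rw [t1] at s1
  rw [← cr] at s1 s2 s4 t2
  have o2 : M'.ok ⟨i, K.cr i p, a0, q⟩ := (cutp h' k' s1).1
  have rk : ∀ y, M'.Mem ⟨i, K.cr i p, a0, q⟩ y → M.Rk K.ccut a0 y ∧ M.Co 0 y (K.cr i p) :=
    fun y c => (S.pa_iff h t2 i0 y).1 c.pa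
  have s0 : ∀ y b, M'.Ps ⟨i, K.cr i p, a0, q⟩ y b → b = a0 := fun y b c => by
    rcases (ps_iff h' o2).1 c with c | ⟨u, u1, -, -, rfl⟩
    exacts [c.2, (S.step h (rk u u1).1 i0).1]
  obtain ⟨kq, cq⟩ := rk q (mem_q h' o2)
  have x0 : K.cpc ⟨i, p, s, q⟩ a 0 = ⟨i, p, s, K.cdiv i p⟩ := by
    rw [Rn.cpc, if_neg (by omega), if_pos rfl]
  have x1 : K.cpc ⟨i, p, s, q⟩ a 1 = if a = a0 then
      (if i = 0 then ⟨0, K.cr i p, a0, q⟩ else ⟨0, q, a0, K.cr i p⟩) else junk M.n := by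
    rw [Rn.cpc, if_neg (by omega), if_neg one_ne_zero, en]
    show (if a = K.ck (K.cdiv i p) then _ else _) = _
    rw [ck]
    by_cases c : a = a0
    · rw [if_pos c, if_pos c, c]
    · rw [if_neg c, if_neg c]
  rw [np]
  by_cases c : i = 0
  · subst c
    obtain ⟨z0, -, z1, z2⟩ := ring_seg h S t2 kq cq
    rw [if_pos rfl] at x1
    refine cov_two h h' k' oB eP eB s1 s2 s4 s0 z0 z1 (fun y y' u u' b => z2 y y' u u' ?_) x0 r0 x1
    simpa [Rn.crv, Cm.Bo] using b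
  · obtain ⟨z0, z0', z1, z2⟩ := ring_seg h S kq t2 cq.symm
    rw [if_neg c] at x1
    obtain ⟨-, v⟩ := rev_seg (s' := a0) h' hi z0' fun u mu _ => by
      rw [i0.resolve_left c]
      exact S.st_st h ((S.pa0 h kq u).1 mu.pa).1
    refine cov_two h h' k' oB eP eB s1 s2 s4 s0 z0 (fun y => ?_)
      (fun y y' u u' b => (v y y').2 (z2 y' y u' u ?_)) x0 r0 x1
    · rw [z1, mem_iff_bf, mem_iff_bf]
      exact (v y y).symm
    · simpa [Rn.crv, Cm.Bo, c] using b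

end Pool.Agent.MP_1a6d78_lc.PS

end MrgPart12

-- ======== part 13: formerly Pool.Agent.MP_1a6d78_lc.PS.CutF
section MrgPart13

/-! PROJECT PSC: the cut round. -/

namespace Pool.Agent.MP_1a6d78_lc.PS

theorem cut_of (O : S_Om) (X : S_CutEx) (C : S_CutR) (R : S_Reg) : CutS := by
  intro K M H
  obtain ⟨M', S⟩ := Ct.cutm_ex H.ok K.ccut
  have o' := S.ok' H.ok
  have sel := cSel O K M H
  have c1 : K.C1 M M' := ⟨H, S, sel, cLam K M M' H S sel⟩
  have ea : K.P.al = M'.al := H.geo.al.trans (S.al' H.ok).symm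
  have geo : Geo M' K.cN := ⟨ea, fun p => by rw [S.al' H.ok, S.n]; exact c1.lam p, cEn K M M' c1,
    cFe K M M' c1, by
      have := H.geo.genF_gf H.ok o' S.n ea 0 (cCov K M M' c1)
      rwa [← H.n] at this⟩
  obtain ⟨x1, x2, -⟩ := (X M H.ok).1 M' K.ccut fun v r => ((sel.cut v).1 r).2.1.ring
  exact ⟨M', S, o', ⟨geo.al, geo.lam, geo.nm, geo.FE, geo.F⟩,
    Rn.C2.hy ⟨c1, geo, O, (C M M' _ H.ok o' x1 (x2.1 S)).prb, (R M H.ok).prb_lk, (R M' o').prb_lk,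
      prbS M K.P H.ok H.geo, prbS M' K.cN o' geo⟩, sel.cut⟩

theorem cutS : CutS :=
  have R := fReg fWalk
  have P := fSep fWalk (fSide fWalk)
  have W := fCutW fWalk P
  cut_of (fOm fWalk R (fSide fWalk) P (fBas fWalk R)) (fCutEx fWalk fTw (fTwC fWalk fTw))
    (fCutR fWalk R P W (fCutN fWalk R P W)) R

end Pool.Agent.MP_1a6d78_lc.PS

end MrgPart13

-- marker of a merged file
example : 731051 + 539640 = 731051 + 539640 := rfl
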