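import Pool.Agent.MP_1a6d78_lc.PS.Geo

-- ======== part 0: formerly Pool.Agent.MP_1a6d78_lc.PS.Spec
section MrgPart0

/-! PROJECT PSC: the statements for the kill round.  Hints: PSC1a6d78_BLUEPRINT.md.
Up types `i < 2`, down types `w = 2, 3`. -/

namespace Pool.Agent.MP_1a6d78_lc.PS

open Classical ED PR GL Relation

noncomputable section

namespace Cm

variable (M : Cm)

/-- FLOW: the region kit (proved in PS/Flow). -/
structure FlowK : Prop where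
  rg1 : ∀ k < 4, ∀ a, M.al a → M.Rg (pt a (M.ss k a)) (pt (M.st k a) (M.ss k a))
  rg2 : ∀ k < 4, ∀ a, M.al a →
    M.Rg (pt a (os k (M.ss k a))) (pt (M.st k a) (os k (M.ss k a) + 2))
  plk : ∀ p, M.Prb (M.lk p) ↔ M.Prb p
  psad : ∀ k < 4, ∀ a, M.Prb (pt a k) ↔ M.al a ∧ M.Sad (pt a (os k (M.ss k a)))
  turn : ∀ k < 4, ∀ a, M.al a → M.FE ((k + 2) % 4) (M.st k a) ((M.ss k a + 2) % 4) < M.n ∧
    ∃ u, M.Ti k (os k (M.ss k a)) (M.FE ((k + 2) % 4) (M.st k a) ((M.ss k a + 2) % 4)) u ∧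
      M.ss k u = M.ss k a ∧ (M.Prb (pt a k) ↔ u ≠ a) ∧ (u ≠ a → M.Prb (pt u k))
  bk : ∀ k < 4, ∀ a, M.al a → ∃ g, M.Ti (ep k (os k (M.ss k a))) (os k (M.ss k a)) a g ∧
    M.ss (ep k (os k (M.ss k a))) g ≠ os k (M.ss k a) ∧
    (M.Prb (pt g (ep k (os k (M.ss k a)))) ↔ M.Prb (pt a k))
  rev : ∀ k < 4, ∀ a u v, M.al u → (a = k ∨ a = (k + 3) % 4) → M.Ti k a u v → M.Ti (ep k a) a v u
  trace : ∀ k < 4, ∀ (χ : ℕ → Prop) a, (∀ c, M.al c → (χ (M.st ((k + 2) % 4) c) ↔ χ c)) → M.al a →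
    ¬(χ a ↔ χ (M.st k a)) → ¬M.Prb (pt a k) → ∃ a', M.al a' ∧ M.Pa k (M.st k a') a ∧
      M.ss k a' ≠ M.ss k a ∧ (χ a' ↔ χ (M.st k a)) ∧ (χ (M.st k a') ↔ χ a)
  back : ∀ (S : ℕ → Prop) (r : ℕ → ℕ → Prop), (∀ a, S a → a < M.n ∧ ∃ b, S b ∧ r b a) →
    (∃ a, S a) → ∃ a, S a ∧ TransGen r a a

/-- An end of a saddle link that is listed for `x`. -/
def Lsd (x p : ℕ) : Prop :=
  M.Prb p ∧ (M.Co ((p + 1) % 2) (p / 4) x ∨ M.Co ((M.lk p + 1) % 2) (M.lk p / 4) x)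

def Src (x d : ℕ) : Prop := d = x ∨ ∃ p, M.Lsd x p ∧ d = p / 4

def Cand (En : ℕ → ℕ → ℕ) (x b : ℕ) : Prop :=
  (∃ p, M.Lsd x p ∧ b = p / 4) ∨
    ∃ w d, (w = 2 ∨ w = 3) ∧ M.Src x d ∧ b = M.FE w (En w d) (hs w) ∧ b < M.n

/-- The up walk hugs a face until it reaches a cell that dies with `x`. -/
def Hug (i x e : ℕ) : Prop := ∃ d, M.Ti i (hs i) e d ∧ M.Dd x d

/-- The walk from `p` (first passage counted with side `s`) passes `r` by the side `a`. -/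
def Pw (i p s r a : ℕ) : Prop :=
  (r = p ∧ a = s) ∨ ∃ t, M.wk i p (t + 1) = r ∧ M.ss i (M.wk i p t) = a

def Mt (p s b : ℕ) : Prop := M.Pa 0 p b ∨ ∃ r, M.Pw 0 p s r 3 ∧ M.Pw 3 b 3 r 2

variable (M' : Cm)

/-- The region below `e` has a surviving cell. -/
def Lv (e : ℕ) : Prop :=
  M.al e ∧ ∃ u, M'.al u ∧ (M.Rg (4 * e + 2) (4 * u + 2) ∨ M.Rg (4 * e + 2) (4 * u))

/-- The first survivor on the walk after `e` comes after `t + 1` steps. -/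
def Nt (w e t : ℕ) : Prop := (∀ s < t, ¬M'.al (M.wk w e (s + 1))) ∧ M'.al (M.wk w e (t + 1))

end Cm

/-- A kill on the semantic level. -/
structure Ks where
  M : Cm
  M' : Cm
  X : ℕ → Prop
  En : ℕ → ℕ → ℕ

namespace Ks

variable (Z : Ks)

structure Hy : Prop where
  ok : Z.M.Ok
  ok' : Z.M'.Ok
  fl : Z.M.FlowK
  fl' : Z.M'.FlowK
  fam : Z.M.Fam Z.X
  smo : Z.M.Smo Z.M' (Z.M.Dead Z.X)
  nm : Z.M.Nm Z.En

/-- DEAD -/
structure DeadK : Prop where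
  rg : ∀ {x c u}, Z.M.Dd x c → Z.M.Rg (4 * c) (4 * u) → Z.M.Dd x u
  inc : ∀ {x c u}, Z.X x → Z.M.Dd x c → Z.M.Rg (4 * c) (4 * u + 2) → Z.M.Dd x u
  st : ∀ {x c i}, Z.X x → i < 2 → Z.M.Dd x c → Z.M.Dd x (Z.M.st i c)
  pa : ∀ {x c i}, Z.X x → i < 2 → Z.M.Dd x c → Z.M.Pa i c x
  per : ∀ {x i}, Z.X x → i < 2 → Z.M.Per i x
  top : ∀ {x c i}, Z.X x → i < 2 → Z.M.Per i c → Z.M.Co i c x →
    Z.M.Rg (4 * x) (4 * c) ∧ Z.M.ss i c = 0
  uniq : ∀ {x y c i}, Z.X x → Z.X y → i < 2 → Z.M.Co i c x → Z.M.Co i c y → x = y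
  rank : ∀ {x}, Z.X x → ∃ ρ : ℕ → ℕ, ∀ c u, Z.M.Dd x c →
    (Z.M.Rg (4 * c) (4 * u) → ρ u = ρ c) ∧ (Z.M.Rg (4 * c) (4 * u + 2) → ρ u < ρ c)
  lv : ∀ {e}, Z.M'.al e → Z.M.Lv Z.M' e
  lvst : ∀ {w e}, w = 2 ∨ w = 3 → Z.M.Lv Z.M' e →
    Z.M.Lv Z.M' (Z.M.st w e) ∧ (Z.M.ss w e ≠ 2 → Z.M'.al (Z.M.st w e))
  bnd : ∀ {i q}, i < 2 → Z.M'.al q → ¬Z.M'.al (Z.M.st i q) →
    Z.M.ss i q = hs i ∧ Z.M.Lv Z.M' (Z.M.st i q)
  hug : ∀ {i x e}, Z.X x → i < 2 → Z.M.Hug i x e → Z.M.Pa i e x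

/-- SMO: the new links and the walks that do not change. -/
structure SmoK : Prop where
  ex : ∀ {w e}, w = 2 ∨ w = 3 → Z.M.Lv Z.M' e → ∃ t, Z.M.Nt Z.M' w e t
  dn : ∀ {w e t}, w = 2 ∨ w = 3 → Z.M'.al e → Z.M.Nt Z.M' w e t →
    Z.M'.lk (pt e w) = Z.M.lk (pt (Z.M.wk w e t) w)
  same : ∀ {p}, Z.M'.al (p / 4) → Z.M'.al (Z.M.lk p / 4) → Z.M'.lk p = Z.M.lk p
  up : ∀ {i q t}, i < 2 → Z.M'.al q → ¬Z.M'.al (Z.M.st i q) → Z.M.Nt Z.M' (2 + i) (Z.M.st i q) t →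
    Z.M'.lk (pt q i) = Z.M.lk (pt (Z.M.wk (2 + i) (Z.M.st i q) t) (2 + i))
  idx : ∀ {w c}, w = 2 ∨ w = 3 → Z.M'.al c → ∃ u : ℕ → ℕ, StrictMono u ∧ u 0 = 0 ∧
    (∀ t, Z.M'.wk w c t = Z.M.wk w c (u t) ∧
      Z.M'.ss w (Z.M'.wk w c t) = Z.M.ss w (Z.M.wk w c (u (t + 1) - 1))) ∧
    ∀ s, Z.M'.al (Z.M.wk w c s) → ∃ t, u t = s
  free : ∀ {i c}, i < 2 → Z.M.al c → (∀ x, Z.X x → ¬Z.M.Co i c x) → ∀ t,
    Z.M'.al (Z.M.wk i c t) ∧ Z.M'.wk i c t = Z.M.wk i c t ∧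
      Z.M'.ss i (Z.M.wk i c t) = Z.M.ss i (Z.M.wk i c t)

/-- DOWN: consequences for the down walks. -/
structure DownK : Prop where
  pa : ∀ {w c y}, w = 2 ∨ w = 3 → Z.M'.al c → (Z.M'.Pa w c y ↔ Z.M.Pa w c y ∧ Z.M'.al y)
  per : ∀ {w c}, w = 2 ∨ w = 3 → Z.M'.al c → (Z.M'.Per w c ↔ Z.M.Per w c)
  co : ∀ {w a b}, w = 2 ∨ w = 3 → Z.M'.al a → Z.M'.al b → (Z.M'.Co w a b ↔ Z.M.Co w a b)
  pw : ∀ {w c s r a}, w = 2 ∨ w = 3 → Z.M'.al c →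
    (Z.M'.Pw w c s r a ↔ Z.M.Pw w c s r a ∧ Z.M'.al r)
  fe : ∀ {w c a}, w = 2 ∨ w = 3 → Z.M'.al c → a ≠ 2 → Z.M'.FE w c a = Z.M.FE w c a
  fe2 : ∀ {w c s}, w = 2 ∨ w = 3 → Z.M'.al c → Z.M'.al (Z.M.wk w c (s + 1)) →
    Z.M.ss w (Z.M.wk w c s) = 2 →
    (∀ r < s, ¬(Z.M'.al (Z.M.wk w c (r + 1)) ∧ Z.M.ss w (Z.M.wk w c r) = 2)) →
      Z.M'.FE w c 2 = Z.M.wk w c (s + 1)
  fen : ∀ {w c}, w = 2 ∨ w = 3 → Z.M'.al c →
    (∀ r, ¬(Z.M'.al (Z.M.wk w c (r + 1)) ∧ Z.M.ss w (Z.M.wk w c r) = 2)) → Z.M'.FE w c 2 = Z.M.n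
  ps : ∀ {A : Sg}, A.i = 2 ∨ A.i = 3 → Z.M'.ok A → Z.M.ok A ∧
    (∀ y a, Z.M'.Ps A y a ↔ Z.M.Ps A y a ∧ Z.M'.al y) ∧
    (∀ y a, Z.M.Ps A y a → ¬Z.M'.al y → a = 2) ∧
    ∀ y y', Z.M'.al y → Z.M'.al y' → (Z.M'.Bf A y y' ↔ Z.M.Bf A y y')

/-- RUN: independence. -/
structure RunK : Prop where
  cross : ∀ {w x e}, w = 2 ∨ w = 3 → Z.X x → Z.M.al e → Z.M.Hug (3 - w) x e → Z.M.ss w e = 2 →
    (Z.M.Lsd x (pt e w) ∨ Z.M.Hug (w - 2) x (Z.M.st w e)) ∧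
      ∀ y, Z.X y → Z.M.Co (w - 2) (Z.M.st w e) y → y = x
  run : ∀ {w x e t}, w = 2 ∨ w = 3 → Z.X x → Z.M.Dd x e → Z.M.Lv Z.M' e → Z.M.Nt Z.M' w e t →
    ∀ s ≤ t, Z.M.Dd x (Z.M.wk w e s)
  gcase : ∀ {i x q}, i < 2 → Z.X x → Z.M'.al q → Z.M.Dd x (Z.M.st i q) →
    (∃ d, Z.M.Dd x d ∧ Z.M.lk (pt d (2 + i)) = Z.M'.lk (pt q i)) ∧
    (Z.M.Lsd x (Z.M'.lk (pt q i)) ∨ (Z.M'.ss i q = hs i ∧ Z.M.Hug i x (Z.M'.st i q)))
  inv : ∀ {i x y p}, i < 2 → Z.X x → Z.X y → Z.M'.al p → Z.M.Co i p x →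
    Z.M.Co i (Z.M'.st i p) y → y = x
  cand : ∀ {x y b}, Z.X x → Z.X y → Z.M.Cand Z.En x b → Z.M.Dd y b → y = x
  ring : ∀ {w y b}, w = 2 ∨ w = 3 → Z.X y → Z.M.Kd w (hs w) b → ¬Z.M.Dd y b

/-- ASC: cycles of the down types are seen from the lists. -/
structure AscK : Prop where
  one : ∀ {w x c}, w = 2 ∨ w = 3 → Z.X x → Z.M.al c → Z.M.Co (w - 2) c x →
    ∃ d, Z.M.Src x d ∧ Z.M.Co w d c
  two : ∀ {w x c q v}, w = 2 ∨ w = 3 → Z.X x → Z.M.al c → Z.M.Co (w - 2) c x → Z.M.Lsd x q →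
    (q + w) % 2 = 1 → Z.M.al v → Z.M.Co (w - 2) v x → Z.M.Co w v (q / 4) →
      ∃ q', Z.M.Lsd x q' ∧ (q' + w) % 2 = 1 ∧ Z.M.Co w (q' / 4) c

/-- WALL -/
structure WallK : Prop where
  one : ∀ {i x g}, i < 2 → Z.X x → Z.M'.al g → Z.M.Hug i x g →
    ∃ b, Z.M.Cand Z.En x b ∧ Z.M'.al b ∧ Z.M'.Ti (3 - i) (hs i) b g
  two : ∀ {w x e}, w = 2 ∨ w = 3 → Z.X x → Z.M.al e → Z.M.Hug (3 - w) x e → Z.M.ss w e = 2 →
    Z.M'.al (Z.M.st w e) →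
      ∃ b, Z.M.Cand Z.En x b ∧ Z.M'.al b ∧ Z.M'.Ti (5 - w) (hs (5 - w)) b (Z.M.st w e)

structure G1 : Prop where
  hy : Z.Hy
  dead : Z.DeadK
  smo : Z.SmoK
  down : Z.DownK
  run : Z.RunK
  asc : Z.AscK
  wall : Z.WallK

/-- MEET -/
structure MeetK : Prop where
  ex : ∀ {x c} s, Z.X x → Z.M'.al c → Z.M.Co 0 c x →
    ∃ b, Z.M.Cand Z.En x b ∧ Z.M'.al b ∧ Z.M.Mt c s b
  al : ∀ {c b}, Z.M.al c → Z.M'.al b → Z.M.Mt c 0 b → Z.M'.al c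
  rk : ∀ {x u b} (ρ : ℕ → ℕ), Z.X x → (∀ c u, Z.M.Dd x c →
    (Z.M.Rg (4 * c) (4 * u) → ρ u = ρ c) ∧ (Z.M.Rg (4 * c) (4 * u + 2) → ρ u < ρ c)) →
    Z.M.Dd x u → Z.M.FE 0 u 3 < Z.M.n → Z.M.al b → Z.M.Mt (Z.M.FE 0 u 3) 3 b →
      Z.M.Dd x b ∧ ρ b < ρ u
  hop : ∀ {u}, Z.M.FE 0 u 3 < Z.M.n → Z.M.FE 2 (Z.M.FE 0 u 3) 1 < Z.M.n ∧
    Z.M.Rg (4 * u) (4 * Z.M.FE 2 (Z.M.FE 0 u 3) 1)
  step : ∀ {x u}, Z.X x → Z.M'.al u → Z.M.Co 0 u x → Z.M.FE 0 u 3 < Z.M.n ∧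
    ((∃ b, Z.M.Cand Z.En x b ∧ Z.M'.al b ∧ Z.M.Mt (Z.M.FE 0 u 3) 3 b) ∨
      (Z.M.Cand Z.En x (Z.M.FE 2 (Z.M.FE 0 u 3) 1) ∧
        ∀ d, Z.M.Ti 2 2 (Z.M.FE 0 u 3) d → Z.M.Dd x d))
  fin : ∀ {x} (u : ℕ → ℕ), Z.X x → Z.M.al (u 0) → (∀ r, Z.M.FE 0 (u r) 3 < Z.M.n ∧
    u (r + 1) = Z.M.FE 2 (Z.M.FE 0 (u r) 3) 1 ∧
      ∀ d, Z.M.Ti 2 2 (Z.M.FE 0 (u r) 3) d → Z.M.Dd x d) → Z.M.Dd x (u 0)

/-- VAL: new saddle links. -/
structure ValK : Prop where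
  sad : ∀ {x}, Z.M'.al (x / 4) → x % 2 = 0 → Z.M'.Sad x → Z.M.Sad x
  val : ∀ {p}, Z.M'.Prb p → ¬Z.M.Prb p → ∃ x, Z.X x ∧ p % 4 = 3 - (p + 1) % 2 ∧
    Z.M.ss (p % 4) (p / 4) = 2 ∧ Z.M.Hug ((p + 1) % 2) x (p / 4)

/-- ANC -/
structure AncK : Prop where
  dn : ∀ {p x}, Z.M'.Prb p → ¬Z.M.Prb p → Z.X x → Z.M.Co ((p + 1) % 2) (p / 4) x →
    ∃ q, Z.M.Lsd x q ∧ q % 2 = p % 2 ∧ Z.M.Co (2 + (p + 1) % 2) (q / 4) (p / 4)
  up : ∀ {i c y x}, i < 2 → Z.X x → Z.M'.al c → Z.M.Co i c x → Z.M'.Pa i c y → ¬Z.M.Co i y x →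
    ∃ q, Z.M.Lsd x q ∧ (q + i) % 2 = 1 ∧ Z.M.Co i (q / 4) y
  cand : ∀ {p x}, Z.M'.Prb p → Z.X x → Z.M.Co ((p + 1) % 2) (p / 4) x →
    ∃ b, Z.M.Cand Z.En x b ∧ Z.M'.al b ∧ (p / 4 = b ∨ Z.M'.lk p / 4 = b ∨
      ∃ w, (w = 2 ∨ w = 3) ∧ Z.M'.lk p = pt (Z.M'.FE w b 2) (ep w 2))

end Ks

def FlowS : Prop := ∀ M : Cm, M.Ok → M.FlowK

def DeadS : Prop := ∀ Z : Ks, Z.Hy → Z.DeadK

def SmoS : Prop := ∀ Z : Ks, Z.Hy → Z.DeadK → Z.SmoK

def DownS : Prop := ∀ Z : Ks, Z.Hy → Z.DeadK → Z.SmoK → Z.DownK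

def RunS : Prop := ∀ Z : Ks, Z.Hy → Z.DeadK → Z.SmoK → Z.RunK

def AscS : Prop := ∀ Z : Ks, Z.Hy → Z.DeadK → Z.AscK

def WallS : Prop := ∀ Z : Ks, Z.Hy → Z.DeadK → Z.SmoK → Z.DownK → Z.RunK → Z.AscK → Z.WallK

def MeetS : Prop := ∀ Z : Ks, Z.G1 → Z.MeetK

def ValS : Prop := ∀ Z : Ks, Z.G1 → Z.ValK

def AncS : Prop := ∀ Z : Ks, Z.G1 → Z.ValK → Z.AncK

end

end Pool.Agent.MP_1a6d78_lc.PS

end MrgPart0

-- ======== part 1: formerly Pool.Agent.MP_1a6d78_lc.PS.KRun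
section MrgPart1

/-! PROJECT PSC, row RUN: independence of the kills of a family. -/

namespace Pool.Agent.MP_1a6d78_lc.PS

open Classical ED PR GL Relation Cm Ct

namespace KRun

variable {M : Cm} {Z : Ks}

theorem lk_back (H : M.Ok) {i c : ℕ} (hc : M.al c) :
    M.lk (pt (M.st i c) (ep i (M.ss i c))) = pt c i := by
  rw [← H.lk_pt hc, H.inv]

/-- A set of labels that is closed under the next or the previous label contains regions. -/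
theorem clo (H : M.Ok) {Q : ℕ → Prop} (i : ℕ)
    (hs : ∀ l, Q l → ∃ l', Q l' ∧ if i = 1 then M.nr l = l' else M.nr l' = l) {x y : ℕ}
    (h : M.Rg x y) (k : Q x) : Q y := by
  by_cases e : i = 1
  · refine rg_ind h k fun d u => ?_
    obtain ⟨l, l1, l2⟩ := hs d u
    rw [if_pos e] at l2
    exact l2 ▸ l1
  · obtain ⟨s, rfl⟩ := rg_symm H h
    clear h
    induction s with
    | zero => exact k
    | succ s ih =>
      rw [Function.iterate_succ_apply'] at k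
      obtain ⟨l, l1, l2⟩ := hs _ k
      rw [if_neg e] at l2
      exact ih (nr_inj H l2 ▸ l1)

/-- One step along a vertex. -/
theorem stp (H : M.Ok) {i b c : ℕ} (hi : i < 2) (hb : b = 0 ∨ b = 2) (hc : M.al c) {l : ℕ}
    (hl : l = 4 * M.st (b + i) c + if M.ss (b + i) c = b then b else 2 - b) :
    if i = 1 then M.nr (4 * c + b) = l else M.nr l = 4 * c + b := by
  have e1 := H.lk_pt (i := b + i) hc
  have e2 := lk_back (i := b + i) H hc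
  have e3 := ss_cases (M := M) (b + i) c
  subst hl
  unfold Cm.nr
  generalize M.ss (b + i) c = a at *
  generalize M.st (b + i) c = g at *
  split_ifs with u v v
  all_goals first
    | (rw [show r4 (4 * c + b) = pt c (b + i) by unfold r4 pt; omega, e1]
       unfold pt ep
       split_ifs <;> omega)
    | (rw [show 4 * c + b = pt c (b + i) by unfold pt; omega, ← e2]
       congr 1
       unfold r4 pt ep
       split_ifs <;> omega)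

theorem lsd_lk (H : M.Ok) (F : M.FlowK) {x p : ℕ} (h : M.Lsd x p) : M.Lsd x (M.lk p) :=
  ⟨(F.plk p).2 h.1, by rw [H.inv]; exact h.2.symm⟩

theorem dd_wk (D : Z.DeadK) {x c i : ℕ} (hx : Z.X x) (hi : i < 2) (h : Z.M.Dd x c) (t : ℕ) :
    Z.M.Dd x (Z.M.wk i c t) := iter_inv (Q := Z.M.Dd x) (fun _ k => D.st hx hi k) h t

theorem lv_wk (D : Z.DeadK) {w e : ℕ} (hw : w = 2 ∨ w = 3) (h : Z.M.Lv Z.M' e) (t : ℕ) :
    Z.M.Lv Z.M' (Z.M.wk w e t) :=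
  iter_inv (Q := Z.M.Lv Z.M') (fun _ k => (D.lvst hw k).1) h t

theorem hug_dd {i x e : ℕ} (h : M.Dd x e) : M.Hug i x e :=
  ⟨e, ⟨0, rfl, fun _ k => absurd k (Nat.not_lt_zero _)⟩, h⟩

theorem nt_ss (D : Z.DeadK) {w e t s : ℕ} (hw : w = 2 ∨ w = 3) (h : Z.M.Lv Z.M' e)
    (k : Z.M.Nt Z.M' w e t) (hs : s < t) : Z.M.ss w (Z.M.wk w e s) = 2 := by
  by_contra u
  exact k.1 s hs (by rw [wk_succ]; exact (D.lvst hw (lv_wk D hw h s)).2 u)

theorem ex_dd (Y : Z.Hy) {c : ℕ} (h : Z.M.al c) (k : ¬Z.M'.al c) : ∃ y, Z.X y ∧ Z.M.Dd y c :=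
  by_contra fun u => k ((Y.smo.al c).2 ⟨h, u⟩)

theorem cross (Y : Z.Hy) (D : Z.DeadK) {w x e : ℕ} (hw : w = 2 ∨ w = 3) (hx : Z.X x)
    (he : Z.M.al e) (hg : Z.M.Hug (3 - w) x e) (h2 : Z.M.ss w e = 2) :
    (Z.M.Lsd x (pt e w) ∨ Z.M.Hug (w - 2) x (Z.M.st w e)) ∧
      ∀ y, Z.X y → Z.M.Co (w - 2) (Z.M.st w e) y → y = x := by
  have H := Y.ok
  by_cases hp : Z.M.Prb (pt e w)
  · have c1 : Z.M.Co ((pt e w + 1) % 2) (pt e w / 4) x := by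
      rw [pt_div, show (pt e w + 1) % 2 = 3 - w by unfold pt; omega]
      exact (D.hug hx (by omega) hg).co
    refine ⟨Or.inl ⟨hp, Or.inl c1⟩, fun y hy c2 => (Y.fam.ind x y _ hx hy hp c1 ?_).symm⟩
    have := H.par (pt e w) (by rwa [pt_div])
    rwa [show (Z.M.lk (pt e w) + 1) % 2 = w - 2 by unfold pt at *; omega]
  · obtain ⟨f1, u, f2, -, f3, -⟩ := Y.fl.turn w (by omega) e he
    obtain rfl : u = e := not_not.1 fun k => hp (f3.2 k)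
    rw [h2, show (w + 2) % 4 = w - 2 by omega, show (2 + 2) % 4 = 0 from rfl] at f1 f2
    obtain ⟨g1, t, g2, g3, g4⟩ := FE_spec H f1
    have ab := H.al_wk (w - 2) g1 t
    obtain ⟨ta, a1, a2⟩ := Y.fl.rev w (by omega) _ _ _ (g2 ▸ H.al_wk _ g1 _)
      (by rcases hw with rfl | rfl <;> decide) f2
    rw [show ep w (os w 2) = 3 - w by rcases hw with rfl | rfl <;> rfl] at a1
    have bk := lk_back (i := w - 2) H ab
    rw [g3, ← wk_succ, ← g2, show ep (w - 2) 0 = 3 - w by rcases hw with rfl | rfl <;> rfl] at bk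
    obtain ⟨d, ⟨td, d1, d2⟩, d3⟩ := hg
    have le : td ≤ ta := not_lt.1 fun k => by
      have := d2 ta k
      rw [a1, Cm.ss, bk] at this
      revert this
      unfold sd hs pt
      split_ifs <;> omega
    obtain ⟨r, rfl⟩ := Nat.exists_eq_add_of_le le
    rw [wk_add, d1] at a1
    have k := D.st (i := 3 - w) hx (by omega) (a1 ▸ dd_wk (i := 3 - w) D hx (by omega) d3 r)
    rw [Cm.st, bk, pt_div] at k
    have hug : Z.M.Hug (w - 2) x (Z.M.st w u) := ⟨_, ⟨t, rfl, fun s hs => by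
      have h1 := g4 s hs
      have h3 := ss_cases (M := Z.M) (w - 2) (Z.M.wk (w - 2) (Z.M.st w u) s)
      unfold PS.hs
      split_ifs <;> omega⟩, k⟩
    exact ⟨Or.inr hug, fun y hy c => D.uniq hy hx (by omega) c (D.hug hx (by omega) hug).co⟩

theorem run (Y : Z.Hy) (D : Z.DeadK) {w x e t : ℕ} (hw : w = 2 ∨ w = 3) (hx : Z.X x)
    (he : Z.M.Dd x e) (hl : Z.M.Lv Z.M' e) (k : Z.M.Nt Z.M' w e t) :
    ∀ s ≤ t, Z.M.Dd x (Z.M.wk w e s) := by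
  intro s
  induction s with
  | zero => exact fun _ => he
  | succ s ih =>
    intro hs
    obtain ⟨y, hy, u⟩ := ex_dd Y (Y.ok.al_wk w hl.1 (s + 1)) (k.1 s hs)
    have := (cross Y D hw hx (Y.ok.al_wk w hl.1 s) (hug_dd (ih (by omega)))
      (nt_ss D hw hl k hs)).2 y hy (by rw [← wk_succ]; exact (D.pa hy (by omega) u).co)
    exact this ▸ u

theorem gcase (Y : Z.Hy) (D : Z.DeadK) (S : Z.SmoK) {i x q : ℕ} (hi : i < 2) (hx : Z.X x)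
    (hq : Z.M'.al q) (he : Z.M.Dd x (Z.M.st i q)) :
    (∃ d, Z.M.Dd x d ∧ Z.M.lk (pt d (2 + i)) = Z.M'.lk (pt q i)) ∧
    (Z.M.Lsd x (Z.M'.lk (pt q i)) ∨ (Z.M'.ss i q = hs i ∧ Z.M.Hug i x (Z.M'.st i q))) := by
  have H := Y.ok
  have aq := ((Y.smo.al q).1 hq).1
  have ne : ¬Z.M'.al (Z.M.st i q) := fun k => ((Y.smo.al _).1 k).2 ⟨x, hx, he⟩
  obtain ⟨b1, b2⟩ := D.bnd hi hq ne
  have hw : 2 + i = 2 ∨ 2 + i = 3 := by omega
  obtain ⟨t, nt⟩ := S.ex hw b2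
  have up := S.up hi hq ne nt
  have rn := run Y D hw hx he b2 nt
  have s2 := fun s => nt_ss (s := s) D hw b2 nt
  have aw := H.al_wk (2 + i) b2.1
  refine ⟨⟨_, rn t le_rfl, up.symm⟩, ?_⟩
  by_cases h2 : Z.M.ss (2 + i) (Z.M.wk (2 + i) (Z.M.st i q) t) = 2
  · rcases (cross Y D hw hx (aw t) (hug_dd (rn t le_rfl)) h2).1 with c | c
    · exact Or.inl (up ▸ lsd_lk H Y.fl c)
    · refine Or.inr ⟨?_, ?_⟩
      · rw [Cm.ss, up, H.lk_pt (aw t), h2]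
        unfold sd hs pt ep
        split_ifs <;> omega
      · rw [Cm.st, up]
        rwa [show 2 + i - 2 = i by omega] at c
  · refine Or.inl (up ▸ lsd_lk H Y.fl ⟨?_, Or.inl ?_⟩)
    swap
    · rw [pt_div]
      exact (D.pa hx (Nat.mod_lt _ (by omega)) (rn t le_rfl)).co
    by_contra hp
    have h3 := ss_cases (M := Z.M) (2 + i) (Z.M.wk (2 + i) (Z.M.st i q) t)
    have o1 : os i (hs i) = 0 := by interval_cases i <;> rfl
    have o2 : hs i ≠ 0 := by interval_cases i <;> decide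
    have r0 : Z.M.Rg (4 * q) (4 * Z.M.st i q + 2) := by
      have := Y.fl.rg2 i (by omega) q aq
      rwa [b1, o1] at this
    have r1 : ∀ s ≤ t, Z.M.Rg (4 * q) (4 * Z.M.wk (2 + i) (Z.M.st i q) s + 2) := fun s => by
      induction s with
      | zero => exact fun _ => r0
      | succ s ih =>
        intro hs
        have := Y.fl.rg1 (2 + i) (by omega) _ (aw s)
        rw [s2 s hs, ← wk_succ] at this
        exact rg_trans (ih (by omega)) this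
    have np : ¬Z.M.Prb (pt q i) := fun k => hp <| by
      obtain ⟨-, y, y', k1, k2, k3⟩ := (Y.fl.psad i (by omega) q).1 k
      rw [b1, o1] at k1 k2
      refine (Y.fl.psad (2 + i) (by omega) _).2 ⟨aw t, ?_⟩
      rw [show os (2 + i) (Z.M.ss (2 + i) (Z.M.wk (2 + i) (Z.M.st i q) t)) = 2 by
        unfold os; split_ifs <;> omega]
      exact ⟨y, y', rg_trans (rg_symm H (r1 t le_rfl)) k1, rg_trans (rg_symm H (r1 t le_rfl)) k2,
        k3⟩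
    obtain ⟨-, u, f2, -, f3, -⟩ := Y.fl.turn i (by omega) q aq
    obtain rfl : u = q := not_not.1 fun k => np (f3.2 k)
    rw [b1, o1, show (i + 2) % 4 = 2 + i by omega, FE_eq (t := t) H b2.1
      (by unfold hs; split_ifs <;> omega)
      (fun s k => by rw [s2 s k]; unfold hs; split_ifs <;> omega)] at f2
    obtain ⟨T, T1, T2⟩ := f2
    have key := fun y => clo (x := 4 * u) (y := y) H (Q := fun l =>
      (∃ s ≤ T, l = 4 * Z.M.wk i (Z.M.wk (2 + i) (Z.M.st i u) (t + 1)) s + 0) ∨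
        ∃ s ≤ t, l = 4 * Z.M.wk (2 + i) (Z.M.st i u) s + 2) i (by
      rintro l (⟨s, hs, rfl⟩ | ⟨s, hs, rfl⟩)
      · refine ⟨_, ?_, stp H hi (Or.inl rfl) (H.al_wk i (aw _) s) rfl⟩
        rw [Nat.zero_add]
        rcases hs.eq_or_lt with rfl | hs
        · rw [T1, if_neg (b1 ▸ o2)]
          exact Or.inr ⟨0, Nat.zero_le _, rfl⟩
        · rw [if_pos (T2 s hs), ← wk_succ]
          exact Or.inl ⟨s + 1, hs, rfl⟩
      · refine ⟨_, ?_, stp H hi (Or.inr rfl) (aw s) rfl⟩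
        rcases hs.eq_or_lt with rfl | hs
        · rw [if_neg h2, ← wk_succ]
          exact Or.inl ⟨0, Nat.zero_le _, rfl⟩
        · rw [if_pos (s2 s hs), ← wk_succ]
          exact Or.inr ⟨s + 1, hs, rfl⟩)
    refine ((Y.smo.al u).1 hq).2 ⟨x, hx, Dd.step ⟨_, r0⟩ fun v hv => ?_⟩
    rcases key _ hv (Or.inl ⟨T, le_rfl, by rw [T1]; rfl⟩) with ⟨s, -, k⟩ | ⟨s, hs, k⟩
    · omega
    · rw [show v = Z.M.wk (2 + i) (Z.M.st i u) s by omega]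
      exact rn s hs

theorem ring (Y : Z.Hy) (D : Z.DeadK) {w y b : ℕ} (hw : w = 2 ∨ w = 3) (hy : Z.X y)
    (k : Z.M.Kd w (hs w) b) : ¬Z.M.Dd y b := by
  intro hb
  have H := Y.ok
  obtain ⟨ρ, hρ⟩ := D.rank hy
  have turn : ∀ e, Z.M.al e → Z.M.ss w e ≠ 2 → Z.M.Rg (4 * Z.M.st w e) (4 * e + 2) :=
    fun e he h2 => by
      have h3 := ss_cases (M := Z.M) w e
      have := Y.fl.rg2 w (by omega) e he
      rw [show os w (Z.M.ss w e) = 2 by unfold os; split_ifs <;> omega] at this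
      exact rg_symm H this
  have key : ∀ t e, Z.M.al e →
      (∃ o, Z.M.Dd y o ∧ Z.M.Rg (4 * o) (4 * Z.M.wk w e t + 2) ∧ ρ o ≤ ρ b) →
      ∃ o, Z.M.Dd y o ∧ Z.M.Rg (4 * o) (4 * e + 2) ∧ ρ o ≤ ρ b := fun t => by
    induction t with
    | zero => exact fun _ _ => id
    | succ t ih =>
      intro e he u
      obtain ⟨o, o1, o2, o3⟩ := ih _ (H.al_st w he) u
      by_cases h2 : Z.M.ss w e = 2
      · have := Y.fl.rg1 w (by omega) e he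
        rw [h2] at this
        exact ⟨o, o1, rg_trans o2 (rg_symm H this), o3⟩
      · exact ⟨_, D.inc hy o1 o2, turn e he h2, ((hρ _ _ o1).2 o2).le.trans o3⟩
  obtain ⟨u, ⟨u1, t, u2⟩, rfl, u3⟩ := k
  obtain ⟨o, o1, o2, o3⟩ := key t _ (H.al_st w u1) ⟨_, hb, by
    rw [u2]
    exact turn u u1 (by rw [u3]; unfold hs; split_ifs <;> omega), le_rfl⟩
  exact absurd ((hρ _ _ o1).2 o2) (not_lt.2 o3)

end KRun

open KRun in
theorem runS : RunS := by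
  intro Z Y D S
  have H := Y.ok
  refine ⟨cross Y D, run Y D, gcase Y D S, ?_, ?_, ring Y D⟩
  · intro i x y p hi hx hy hp c1 c2
    by_cases k : Z.M'.al (Z.M.st i p)
    · have e : Z.M'.st i p = Z.M.st i p :=
        congrArg (· / 4) (S.same (p := pt p i) (by rwa [pt_div]) k)
      rw [e, co_st] at c2
      exact D.uniq hy hx hi c2 c1
    · obtain ⟨z, hz, u⟩ := ex_dd Y (H.al_st i ((Y.smo.al p).1 hp).1) k
      obtain rfl : z = x := D.uniq hz hx hi (co_st.1 (D.pa hz hi u).co) c1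
      obtain ⟨⟨d, d1, d2⟩, g | g⟩ := gcase Y D S hi hx hp u
      · have := Y.ok'.par (pt p i) (by rwa [pt_div])
        refine Y.fam.ind y z _ hy hx g.1 ?_ ?_
        · rwa [show (Z.M'.lk (pt p i) + 1) % 2 = i by unfold pt at *; omega]
        · rw [← d2, H.inv, pt_div]
          exact (D.pa hx (Nat.mod_lt _ (by omega)) d1).co
      · exact D.uniq hy hx hi c2 (D.hug hx hi g.2).co
  · rintro x y b hx hy (⟨p, ⟨p1, p2⟩, rfl⟩ | ⟨w, d, hw, -, rfl, k⟩) hb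
    · have c := (D.pa (i := (p + 1) % 2) hy (Nat.mod_lt _ (by omega)) hb).co
      rcases p2 with p2 | p2
      · exact D.uniq hy hx (Nat.mod_lt _ (by omega)) c p2
      · exact Y.fam.ind y x p hy hx p1 c p2
    · obtain ⟨g1, t, g2, g3, -⟩ := FE_spec H k
      have ad : Z.M.al d := by_contra fun u => H.not_al_n (Y.nm.junk w (by omega) d u ▸ g1)
      exact absurd hb (ring Y D hw hy ⟨_, ((Y.nm.per w (by omega) d ad).pa H (Pa.wk _ _ t)).1,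
        by rw [g2, wk_succ], g3⟩)

end Pool.Agent.MP_1a6d78_lc.PS

end MrgPart1

-- ======== part 2: formerly Pool.Agent.MP_1a6d78_lc.PS.KVal
section MrgPart2

/-! PROJECT PSC, row VAL: new saddle links. -/

namespace Pool.Agent.MP_1a6d78_lc.PS

open Classical ED PR PL Ct

namespace KVal

variable {Z : Ks} {c x y l i : ℕ}

theorem sad_rg {M : Cm} (h : M.Rg x y) (k : M.Sad y) : M.Sad x :=
  let ⟨u, v, a, b, r⟩ := k; ⟨u, v, rg_trans h a, rg_trans h b, r⟩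

theorem al0 (G : Z.G1) (h : Z.M'.al c) : Z.M.al c := ((G.hy.smo.al c).1 h).1

theorem dd (G : Z.G1) (h : Z.M.al c) (k : ¬Z.M'.al c) : ∃ x, Z.X x ∧ Z.M.Dd x c :=
  by_contra fun u => k ((G.hy.smo.al c).2 ⟨h, u⟩)

theorem nd (G : Z.G1) (h : Z.X x) (k : Z.M.Dd x c) : ¬Z.M'.al c :=
  fun u => ((G.hy.smo.al c).1 u).2 ⟨x, h, k⟩

theorem up (G : Z.G1) (hi : i < 2) (h : Z.M.al c) (k : ¬Z.M'.al c) : ¬Z.M'.al (Z.M.st i c) :=
  let ⟨_, a, b⟩ := dd G h k; nd G a (G.dead.st a hi b)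

/-- Labels of type 0 in one region die together. -/
theorem zero (G : Z.G1) (r : Z.M.Rg x y) (hx : x % 4 = 0) (hy : y % 4 = 0) (h : Z.M.al (x / 4))
    (k : ¬Z.M'.al (x / 4)) : ¬Z.M'.al (y / 4) := by
  obtain ⟨u, a, b⟩ := dd G h k
  refine nd G a (G.dead.rg b ?_)
  rwa [show 4 * (x / 4) = x by omega, show 4 * (y / 4) = y by omega]

theorem follow {M : Cm} (H : M.Ok) {P : ℕ → Prop} {q r : ℕ} (h : Cv M.lk Cm.pr0 P q r) :
    ∀ y, r4 y = q → y % 2 = 0 → M.al (y / 4) →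
      ∃ z, M.Rg y z ∧ M.nr z = r ∧ (z = y ∨ (¬P (z / 4) ∧ ¬P (M.nr y / 4))) := by
  induction h with
  | stop _ =>
    rintro y rfl - -
    exact ⟨y, rg_refl _ _, rfl, Or.inl rfl⟩
  | go d _ ih =>
    rintro y rfl e a
    have p := nr_par H a
    obtain ⟨z, z1, z2, z3⟩ := ih (M.nr y)
      (by change r4 (M.nr y) = Cm.pr0 (M.nr y); unfold r4 Cm.pr0; split_ifs <;> omega) (by omega)
      ((nr_al H).2 a)
    exact ⟨z, rg_trans (rg_nr _ _) z1, z2, Or.inr ⟨z3.elim (fun u => u ▸ d) fun u => u.1, d⟩⟩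

theorem nxt (G : Z.G1) (e : y % 2 = 0) (h : Z.M'.al (y / 4)) : ∃ z, Z.M.Rg y z ∧
    Z.M.nr z = Z.M'.nr y ∧ (z = y ∨ (¬Z.M'.al (z / 4) ∧ ¬Z.M'.al (Z.M.nr y / 4))) :=
  follow G.hy.ok (G.hy.smo.lk (r4 y) (by rwa [r4_div])) y rfl e (al0 G h)

theorem rg1 (G : Z.G1) (e : y % 2 = 0) (h : Z.M'.al (y / 4)) : Z.M.Rg y (Z.M'.nr y) :=
  let ⟨z, a, b, _⟩ := nxt G e h; b ▸ rg_trans a (rg_nr _ z)

theorem rg0 (G : Z.G1) (e : x % 2 = 0) (h : Z.M'.al (x / 4)) (r : Z.M'.Rg x y) :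
    Z.M.Rg x y ∧ y % 2 = 0 ∧ Z.M'.al (y / 4) :=
  rg_ind (Q := fun d => Z.M.Rg x d ∧ d % 2 = 0 ∧ Z.M'.al (d / 4)) r ⟨rg_refl _ _, e, h⟩
    fun _ ⟨a, b, k⟩ => ⟨rg_trans a (rg1 G b k), (nr_par G.hy.ok' k).trans b, (nr_al G.hy.ok').2 k⟩

theorem alt (G : Z.G1) (e : y % 2 = 0) (h : Z.M'.al (y / 4)) (a : Z.M'.Alt y) :
    ∃ z, Z.M.Rg y z ∧ Z.M.Alt z ∧ z % 4 = y % 4 ∧ (y % 4 = 0 → z = y) ∧
      (y % 4 = 2 → Z.M.nr z = Z.M'.nr y) := by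
  have H := G.hy.ok
  have h0 := al0 G h
  obtain ⟨z, z1, z2, z3⟩ := nxt G e h
  have p' := nr_par G.hy.ok' h
  unfold Cm.Alt at a ⊢
  rcases z3 with rfl | ⟨d1, d2⟩
  · exact ⟨z, z1, z2 ▸ a, rfl, fun _ => rfl, fun _ => z2⟩
  by_cases t : y % 4 = 0
  · refine ⟨y, rg_refl _ _, fun u => ?_, rfl, fun _ => rfl, fun u => by omega⟩
    exact zero G (rg_back H y) (u.trans t) t ((nr_al H).2 h0) d2 h
  · have pz := rg_par H z1 h0
    have : z % 4 = 2 := by_contra fun u => zero G (rg_nr _ z) (by omega) (by omega)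
      ((rg_al H z1).2 h0) d1 (z2 ▸ (nr_al G.hy.ok').2 h)
    exact ⟨z, z1, by omega, by omega, fun u => absurd u t, fun _ => z2⟩

theorem sad (G : Z.G1) (h : Z.M'.al (x / 4)) (e : x % 2 = 0) (s : Z.M'.Sad x) : Z.M.Sad x := by
  obtain ⟨y, y', r, r', ne, a, a', t⟩ := s
  obtain ⟨k1, k2, k3⟩ := rg0 G e h r
  obtain ⟨l1, l2, l3⟩ := rg0 G e h r'
  obtain ⟨z, z1, z2, z3, z4, z5⟩ := alt G k2 k3 a
  obtain ⟨w, w1, w2, w3, w4, w5⟩ := alt G l2 l3 a'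
  refine ⟨z, w, rg_trans k1 z1, rg_trans l1 w1, fun u => ne ?_, z2, w2, by omega⟩
  by_cases v : y % 4 = 0
  · rw [← z4 v, u, w4 (t ▸ v)]
  · exact nr_inj G.hy.ok' (by rw [← z5 (by omega), u, w5 (by omega)])

/-- A region without a dead cell does not change. -/
theorem whole (G : Z.G1) (h : ∀ d, Z.M.Rg l d → Z.M'.al (d / 4)) (s : Z.M'.Sad l) :
    Z.M.Sad l := by
  have e : ∀ d, Z.M.Rg l d → Z.M'.nr d = Z.M.nr d := fun d k =>
    G.smo.same (by rw [r4_div]; exact h d k) (h _ (rg_trans k (rg_nr _ d)))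
  have g : ∀ d, Z.M'.Rg l d → Z.M.Rg l d := fun d k =>
    rg_ind (Q := Z.M.Rg l) k (rg_refl _ _) fun u v => e u v ▸ rg_trans v (rg_nr _ u)
  obtain ⟨y, y', r, r', ne, a, a', t⟩ := s
  unfold Cm.Alt at a a'
  exact ⟨y, y', g y r, g y' r', ne, by rwa [e y (g y r)] at a, by rwa [e y' (g y' r')] at a', t⟩

/-- A face that is not a saddle, with both top cells alive, has no dead cell. -/
theorem top (G : Z.G1) (t : l % 4 = 3) (h : Z.M'.al (l / 4)) (t' : Z.M.nr l % 4 = 1)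
    (h' : Z.M'.al (Z.M.nr l / 4)) (s : ¬Z.M.Sad l) (d : ℕ) (r : Z.M.Rg l d) :
    Z.M'.al (d / 4) := by
  have H := G.hy.ok
  have h0 := al0 G h
  have one : ∀ d, Z.M.Rg l d → d % 4 = 1 → Z.M'.al (d / 4) := fun d r =>
    (rg_ind (Q := fun d => Z.M.Rg l d ∧ (d % 4 = 1 → Z.M'.al (d / 4))) r
      ⟨rg_refl _ _, fun u => by omega⟩ fun d ⟨a, b⟩ => ⟨rg_trans a (rg_nr _ d), fun u => by
        by_cases v : d % 4 = 1
        · by_contra w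
          refine up G (i := 1) one_lt_two ((nr_al H).2 ((rg_al H a).2 h0)) w ?_
          rw [Cm.st, show pt (Z.M.nr d / 4) 1 = Z.M.nr d by unfold pt; omega, Cm.nr, H.inv, r4_div]
          exact b v
        · have := rg_par H a h0
          have : d = l := by_contra fun ne => s ⟨d, l, a, rg_refl _ _, ne,
            by unfold Cm.Alt; omega, by unfold Cm.Alt; omega, by omega⟩
          exact this ▸ h'⟩).2
  by_contra w
  refine (rg_ind (Q := fun d => Z.M.Rg l d ∧ ¬Z.M'.al (d / 4)) (rg_symm H r) ⟨r, w⟩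
    fun d ⟨a, b⟩ => ⟨rg_trans a (rg_nr _ d), ?_⟩).2 h
  have p := rg_par H a h0
  have v : d % 4 ≠ 1 := fun u => b (one d a u)
  have := up G (i := 0) two_pos ((rg_al H a).2 h0) b
  rwa [Cm.st, show pt (d / 4) 0 = r4 d by unfold pt r4; omega] at this

/-- The top corner of a face. -/
theorem corner (G : Z.G1) (hi : i < 2) (h : Z.M'.al c) (h' : Z.M'.al (Z.M.st i c))
    (e : Z.M.ss i c = 0) (r : Z.M.Rg (pt c (os i 0)) l) (s : Z.M'.Sad l) : Z.M.Sad l := by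
  have H := G.hy.ok
  by_contra w
  have k := H.lk_pt (i := i) (al0 G h)
  rw [e] at k
  refine w (whole G (fun d v => ?_) s)
  have v' := rg_trans r v
  have w' : ¬Z.M.Sad (pt c (os i 0)) := fun u => w (sad_rg (rg_symm H r) u)
  obtain rfl | rfl : i = 0 ∨ i = 1 := by omega
  · have n : Z.M.nr (pt c (os 0 0)) = pt (Z.M.st 0 c) (ep 0 0) := by
      rw [← k, Cm.nr, show r4 (pt c (os 0 0)) = pt c 0 by simp [r4, pt, os]; omega]
    exact top G (by rw [pt_mod]; rfl) (by rwa [pt_div]) (by rw [n, pt_mod]; rfl)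
      (by rwa [n, pt_div]) w' d v'
  · have n : Z.M.nr (pt (Z.M.st 1 c) 3) = pt c (os 1 0) := by
      rw [Cm.nr, show r4 (pt (Z.M.st 1 c) 3) = pt (Z.M.st 1 c) (ep 1 0) by
        simp [r4, pt, ep]; omega, ← k, H.inv]
      rfl
    exact top G (l := pt (Z.M.st 1 c) 3) (by rw [pt_mod]) (by rwa [pt_div])
      (by rw [n, pt_mod]; rfl) (by rwa [n, pt_div])
      (fun u => w' (n ▸ sad_rg (rg_back H _) u)) d (rg_trans (n ▸ rg_nr _ _) v')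

theorem ti_rg {M : Cm} (H : M.Ok) (F : M.FlowK) {k a u v : ℕ} (hk : k < 4) (h : M.al u)
    (T : M.Ti k a u v) : M.Rg (pt u a) (pt v a) := by
  obtain ⟨t, rfl, s⟩ := T
  induction t with
  | zero => exact rg_refl _ _
  | succ t ih =>
    have := F.rg1 k hk _ (H.al_wk k h t)
    rw [s t t.lt_succ_self, ← Cm.wk_succ] at this
    exact rg_trans (ih fun r hr => s r (hr.trans t.lt_succ_self)) this

theorem dd_wk (G : Z.G1) (hi : i < 2) (hx : Z.X x) (d : Z.M.Dd x c) (t : ℕ) :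
    Z.M.Dd x (Z.M.wk i c t) :=
  iter_inv (Q := Z.M.Dd x) (fun _ k => G.dead.st hx hi k) d t

/-- The bottom corner of a face. -/
theorem bottom (G : Z.G1) (hi : i < 2) (h : Z.M'.al c) (e : Z.M.ss (2 + i) c = 2)
    (n : ¬Z.M.Prb (pt c (2 + i)))
    (s : Z.M'.al (Z.M.st (2 + i) c) → Z.M'.Sad (pt c (os (2 + i) 2))) :
    ∃ x, Z.X x ∧ Z.M.Hug (1 - i) x c := by
  have H := G.hy.ok
  have h0 := al0 G h
  obtain ⟨k1, u, k2, -, k3, -⟩ := G.hy.fl.turn (2 + i) (by omega) c h0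
  obtain rfl : u = c := by_contra fun v => n (k3.2 v)
  rw [e, show (2 + i + 2) % 4 = i by omega, show (2 + 2) % 4 = 0 from rfl] at k1 k2
  obtain ⟨b0, t, f1, f2, -⟩ := Cm.FE_spec H k1
  have a0 : Z.M.al (Z.M.FE i (Z.M.st (2 + i) u) 0) := f1 ▸ H.al_wk i b0 _
  have q : (os (2 + i) 2 = 2 + i ∨ os (2 + i) 2 = (2 + i + 3) % 4) ∧
      ep (2 + i) (os (2 + i) 2) = 1 - i ∧ os (2 + i) 2 = hs (1 - i) ∧
      (os i 0 + 2) % 4 = os (2 + i) 2 % 4 := by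
    obtain rfl | rfl : i = 0 ∨ i = 1 := by omega
    all_goals decide
  have T := G.hy.fl.rev (2 + i) (by omega) _ _ _ a0 q.1 k2
  rw [q.2.1, q.2.2.1] at T
  by_cases w : Z.M'.al (Z.M.FE i (Z.M.st (2 + i) u) 0)
  swap
  · obtain ⟨x, a, b⟩ := dd G a0 w
    exact ⟨x, a, _, T, b⟩
  exfalso
  have alv : ∀ r ≤ t + 1, Z.M'.al (Z.M.wk i (Z.M.st (2 + i) u) r) := fun r hr => by
    by_contra v
    obtain ⟨x, a, b⟩ := dd G (H.al_wk i b0 r) v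
    obtain ⟨j, hj⟩ := Nat.exists_eq_add_of_le hr
    refine nd G a (dd_wk G hi a b j) ?_
    rwa [← Cm.wk_add, ← hj, ← f1]
  have r := G.hy.fl.rg2 i (by omega) _ (H.al_wk i b0 t)
  rw [f2, ← Cm.wk_succ, ← f1, show pt (Z.M.FE i (Z.M.st (2 + i) u) 0) (os i 0 + 2) =
    pt (Z.M.FE i (Z.M.st (2 + i) u) 0) (os (2 + i) 2) by unfold pt; rw [q.2.2.2]] at r
  refine n ((G.hy.fl.psad (2 + i) (by omega) u).2 ⟨h0, ?_⟩)
  rw [e]
  exact corner G hi (alv t t.le_succ) (by rw [← Cm.wk_succ]; exact alv _ le_rfl) f2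
    (rg_trans r (ti_rg H G.hy.fl (by omega) a0 k2)) (s (alv 0 (Nat.zero_le _)))

theorem ss_same (G : Z.G1) {k : ℕ} (h : Z.M'.al c) (h' : Z.M'.al (Z.M.st k c)) :
    Z.M'.ss k c = Z.M.ss k c := by
  unfold Cm.ss
  rw [G.smo.same (by rwa [pt_div]) h']

/-- Upper ports do not become probes. -/
theorem upper (G : Z.G1) (hi : i < 2) (p : Z.M'.Prb (pt c i)) : Z.M.Prb (pt c i) := by
  have H := G.hy.ok
  obtain ⟨h, s⟩ := (G.hy.fl'.psad i (by omega) c).1 p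
  have h0 := al0 G h
  refine (G.hy.fl.psad i (by omega) c).2 ⟨h0, ?_⟩
  have q : os i (hs i) = 0 ∧ hs i ≠ 0 ∧ ep i 0 = 1 - i ∧ ∀ a, a = i % 4 ∨ a = (i + 3) % 4 →
      a = 0 ∨ a = hs i := by
    obtain rfl | rfl : i = 0 ∨ i = 1 := by omega
    all_goals refine ⟨rfl, by decide, rfl, ?_⟩; rintro a (rfl | rfl) <;> decide
  have ev : pt c 0 / 4 = c ∧ pt c 0 % 2 = 0 := by unfold pt; omega
  by_cases w : Z.M'.al (Z.M.st i c)
  · rw [ss_same G h w] at s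
    rcases q.2.2.2 _ (Cm.ss_cases (M := Z.M) i c) with e | e <;> rw [e] at s ⊢
    · exact corner G hi h w e (rg_refl _ _) s
    · rw [q.1] at s ⊢
      exact sad G (by rwa [ev.1]) ev.2 s
  rw [(G.dead.bnd hi h w).1, q.1]
  rcases q.2.2.2 _ (Cm.ss_cases (M := Z.M') i c) with e | e
  swap
  · rw [e, q.1] at s
    exact sad G (by rwa [ev.1]) ev.2 s
  obtain ⟨x, a, b⟩ := dd G (H.al_st i h0) w
  obtain ⟨⟨d, -, d2⟩, gc⟩ := G.run.gcase hi a h b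
  have pr := (gc.resolve_right fun u => q.2.1 (u.1.symm.trans e)).1
  have k := G.hy.ok'.lk_pt (i := i) h
  have g' := G.hy.ok'.al_st i h
  rw [e, q.2.2.1] at k
  rw [k] at pr d2
  have s0 := ((G.hy.fl.psad (1 - i) (by omega) _).1 pr).2
  rw [Cm.ss, ← d2, H.inv, show os (1 - i) (sd (1 - i) (pt d (2 + i))) = 0 by
    unfold os sd; rw [pt_mod]; split_ifs <;> omega] at s0
  generalize Z.M'.st i c = g at *
  have eg : pt g 0 / 4 = g ∧ pt g 0 % 2 = 0 := by unfold pt; omega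
  obtain rfl | rfl : i = 0 ∨ i = 1 := by omega
  · have := rg1 G eg.2 (by rwa [eg.1])
    rw [Cm.nr, show r4 (pt g 0) = pt g (1 - 0) by unfold r4 pt; omega, ← k, G.hy.ok'.inv] at this
    exact sad_rg (rg_symm H this) s0
  · have := rg1 G ev.2 (by rwa [ev.1])
    rw [Cm.nr, show r4 (pt c 0) = pt c 1 by unfold r4 pt; omega, k] at this
    exact sad_rg this s0

theorem lower (G : Z.G1) (hi : i < 2) (p : Z.M'.Prb (pt c (2 + i))) (n : ¬Z.M.Prb (pt c (2 + i))) :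
    Z.M.ss (2 + i) c = 2 ∧ ∃ x, Z.X x ∧ Z.M.Hug (1 - i) x c := by
  obtain ⟨h, s⟩ := (G.hy.fl'.psad (2 + i) (by omega) c).1 p
  have e : Z.M.ss (2 + i) c = 2 := by
    by_contra e
    rw [ss_same G h ((G.dead.lvst (by omega) (G.dead.lv h)).2 e)] at s
    refine n ((G.hy.fl.psad (2 + i) (by omega) c).2 ⟨al0 G h, sad G (by rwa [pt_div]) ?_ s⟩)
    have := Cm.ss_cases (M := Z.M) (2 + i) c
    unfold pt os
    split_ifs <;> omega
  exact ⟨e, bottom G hi h e n fun w => by rwa [ss_same G h w, e] at s⟩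

end KVal

open KVal in
theorem valS : ValS := fun Z G => by
  refine ⟨fun h e s => sad G h e s, fun {p} h n => ?_⟩
  have e : pt (p / 4) (p % 4) = p := by unfold pt; omega
  by_cases u : p % 4 < 2
  · exact absurd (e ▸ upper G u (e.symm ▸ h)) n
  have v : p % 4 = 2 + (p % 4 - 2) := by omega
  rw [← e, v] at h n
  obtain ⟨k, x, a, b⟩ := lower G (by omega) h n
  exact ⟨x, a, by omega, v ▸ k, by rwa [show (p + 1) % 2 = 1 - (p % 4 - 2) by omega]⟩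

end Pool.Agent.MP_1a6d78_lc.PS

end MrgPart2

-- ======== part 3: formerly Pool.Agent.MP_1a6d78_lc.PS.KAnc
section MrgPart3

/-! PROJECT PSC, row ANC: anchors and candidates. -/

namespace Pool.Agent.MP_1a6d78_lc.PS

open Classical ED PR GL Relation Cm

namespace KAnc

variable {Z : Ks} {i x e c p : ℕ}

theorem al_of (G : Z.G1) (h : Z.M'.al c) : Z.M.al c := ((G.hy.smo.al c).1 h).1

theorem dead_of (G : Z.G1) (h : Z.M.al c) (k : ¬Z.M'.al c) : ∃ y, Z.X y ∧ Z.M.Dd y c := by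
  by_contra n
  exact k ((G.hy.smo.al c).2 ⟨h, n⟩)

theorem same (G : Z.G1) (h : Z.M'.al c) (k : Z.M'.al (Z.M.st i c)) :
    Z.M'.lk (pt c i) = Z.M.lk (pt c i) := G.smo.same (by rwa [pt_div]) k

/-- The next cell is dead: it dies with `x`. -/
theorem dd_st (G : Z.G1) (hi : i < 2) (hx : Z.X x) (h : Z.M'.al c) (k : Z.M.Co i c x)
    (n : ¬Z.M'.al (Z.M.st i c)) : Z.M.Dd x (Z.M.st i c) := by
  obtain ⟨y, hy, d⟩ := dead_of G (G.hy.ok.al_st i (al_of G h)) n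
  rwa [G.dead.uniq hx hy hi k ((Pa.step i c).trans (G.dead.pa hy hi d)).co]

theorem par (G : Z.G1) (h : Z.M'.al c) : (Z.M'.lk (pt c i) + i) % 2 = 1 := by
  have := G.hy.ok'.par (pt c i) (by rwa [pt_div])
  have := pt_mod c i
  omega

/-- A listed port and a cell for the ascent. -/
def Fd (Z : Ks) (i x : ℕ) : Prop := ∃ q v, Z.M.Lsd x q ∧ (q + (2 + i)) % 2 = 1 ∧ Z.M.al v ∧
  Z.M.Co i v x ∧ Z.M.Co (2 + i) v (q / 4)

theorem hstep (G : Z.G1) (hi : i < 2) (hx : Z.X x) (h : Z.M'.al c) (k : Z.M.Hug i x c) :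
    Fd Z i x ∨ (Z.M'.ss i c = hs i ∧ Z.M.Hug i x (Z.M'.st i c)) := by
  by_cases n : Z.M'.al (Z.M.st i c)
  · have s := same G h n
    obtain ⟨d, ⟨t, t1, t2⟩, hd⟩ := k
    cases t with
    | zero => exact absurd ⟨x, hx, (show c = d from t1) ▸ hd⟩ ((G.hy.smo.al c).1 h).2
    | succ t =>
      refine Or.inr ⟨?_, d, ⟨t, ?_, fun r hr => ?_⟩, hd⟩
      · unfold Cm.ss
        rw [s]
        exact t2 0 (Nat.succ_pos t)
      · unfold Cm.st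
        rw [s]
        exact t1
      · unfold Cm.st
        rw [s]
        exact t2 (r + 1) (Nat.succ_lt_succ hr)
  · obtain ⟨⟨d, hd, l⟩, m⟩ := G.run.gcase hi hx h (dd_st G hi hx h (G.dead.hug hx hi k).co n)
    refine m.imp_left fun m => ⟨_, d, m, ?_, Ct.dd_al G.hy.ok (G.hy.fam.top x hx).1 hd,
      (G.dead.pa hx hi hd).co, ?_⟩
    · have := par (i := i) G h
      omega
    · rw [← l]
      exact (Pa.step (2 + i) d).co

theorem hwalk (G : Z.G1) (hi : i < 2) (hx : Z.X x) (h : Z.M'.al c) (k : Z.M.Hug i x c) (t : ℕ) :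
    Fd Z i x ∨ Z.M.Hug i x (Z.M'.wk i c t) := by
  induction t with
  | zero => exact Or.inr k
  | succ t ih =>
    refine ih.elim Or.inl fun a => ?_
    rw [wk_succ]
    exact (hstep G hi hx (G.hy.ok'.al_wk i h t) a).imp_right And.right

theorem lv_wk (G : Z.G1) {w : ℕ} (hw : w = 2 ∨ w = 3) (h : Z.M.Lv Z.M' e) (t : ℕ) :
    Z.M.Lv Z.M' (Z.M.wk w e t) := by
  induction t with
  | zero => exact h
  | succ t ih => rw [wk_succ]; exact (G.dead.lvst hw ih).1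

/-- The two kinds of new saddle links. -/
theorem split (G : Z.G1) (V : Z.ValK) {w : ℕ} (hw : w = 2 ∨ w = 3) (hx : Z.X x)
    (a : Z.M'.Prb (pt e w)) (s : Z.M.ss w e = 2) (k : Z.M.Hug (3 - w) x e) :
    Z.M'.ss w e = 2 ∨ ∃ d, Z.M.Dd x d ∧ Z.M.Prb (pt d w) ∧
      Z.M'.lk (pt e w) = Z.M.lk (pt d w) := by
  have w4 : w < 4 := by omega
  obtain ⟨he, sad⟩ := (G.hy.fl'.psad w w4 e).1 a
  have he0 := al_of G he
  have lv := G.dead.lv he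
  obtain ⟨t, nt⟩ := G.smo.ex hw lv
  have l := G.smo.dn hw he nt
  have ss : Z.M'.ss w e = Z.M.ss w (Z.M.wk w e t) := by
    unfold Cm.ss
    rw [l]
  by_cases c : Z.M'.ss w e = 2
  · exact Or.inl c
  have o : os w (Z.M'.ss w e) = 2 := by
    have := Z.M'.ss_cases w e
    unfold os
    split_ifs <;> omega
  refine Or.inr ⟨_, ?_, ?_, l⟩
  · cases t with
    | zero => exact absurd (ss.trans s) c
    | succ t =>
      obtain ⟨y, hy, d⟩ := dead_of G (G.hy.ok.al_st w he0) (nt.1 0 (Nat.succ_pos t))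
      obtain rfl := (G.run.cross hw hx he0 k s).2 y hy (G.dead.pa hy (by omega) d).co
      exact G.run.run hw hx d (G.dead.lvst hw lv).1
        ⟨fun r hr => nt.1 (r + 1) (Nat.succ_lt_succ hr), nt.2⟩ t le_rfl
  · refine (G.hy.fl.psad w w4 _).2 ⟨G.hy.ok.al_wk w he0 t, ?_⟩
    rw [← ss, o]
    rw [o] at sad
    have rg : ∀ r ≤ t, Z.M.Rg (pt (Z.M.wk w e r) 2) (pt e 2) := by
      intro r hr
      induction r with
      | zero => exact Ct.rg_refl _ _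
      | succ r ih =>
        have s2 : Z.M.ss w (Z.M.wk w e r) = 2 := by
          by_contra n
          exact nt.1 r hr (by rw [wk_succ]; exact (G.dead.lvst hw (lv_wk G hw lv r)).2 n)
        have := G.hy.fl.rg1 w w4 _ (G.hy.ok.al_wk w he0 r)
        rw [s2, ← wk_succ] at this
        exact Ct.rg_trans (Ct.rg_symm G.hy.ok this) (ih (by omega))
    obtain ⟨y, y', h1, h2, h3⟩ := V.sad (by rwa [pt_div]) (by unfold pt; omega) sad
    exact ⟨y, y', Ct.rg_trans (rg t le_rfl) h1, Ct.rg_trans (rg t le_rfl) h2, h3⟩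

theorem pre (G : Z.G1) (V : Z.ValK) (a : Z.M'.Prb p) (n : ¬Z.M.Prb p) (hx : Z.X x)
    (k : Z.M.Co ((p + 1) % 2) (p / 4) x) : ∃ i e, i < 2 ∧ p = pt e (3 - i) ∧ (p + 1) % 2 = i ∧
      p / 4 = e ∧ Z.M.Hug i x e ∧ (Z.M'.ss (3 - i) e = 2 ∨ ∃ d, Z.M.Dd x d ∧
        Z.M.Lsd x (pt d (3 - i)) ∧ Z.M'.lk p = Z.M.lk (pt d (3 - i))) := by
  obtain ⟨y, hy, m, s, g⟩ := V.val a n
  have hi : (p + 1) % 2 < 2 := by omega
  obtain rfl := G.dead.uniq hx hy hi k (G.dead.hug hy hi g).co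
  have ep : p = pt (p / 4) (3 - (p + 1) % 2) := by unfold pt; omega
  refine ⟨_, _, hi, ep, rfl, rfl, g, ?_⟩
  rw [m] at s
  generalize (p + 1) % 2 = i at *
  generalize p / 4 = e at *
  subst ep
  refine (split G V (by omega) hx a s (by rwa [show 3 - (3 - i) = i by omega])).imp_right ?_
  rintro ⟨d, h1, h2, h3⟩
  refine ⟨d, h1, ⟨h2, Or.inl ?_⟩, h3⟩
  rw [pt_div, show (pt d (3 - i) + 1) % 2 = i by unfold pt; omega]
  exact (G.dead.pa hx hi h1).co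

end KAnc

open KAnc in
theorem ancS : AncS := by
  intro Z G V
  refine ⟨fun {p x} a n hx k => ?_, fun {i c y x} hi hx hc k hp n => ?_,
    fun {p x} a hx k => ?_⟩
  · have he := a.1
    obtain ⟨i, e, hi, ep, e1, e2, g, m⟩ := pre G V a n hx k
    rw [e2] at he
    rw [e1, e2] at k ⊢
    have fd : Fd Z i x := by
      rcases m with m | ⟨d, h1, h2, -⟩
      · obtain ⟨u, ⟨t, t1, -⟩, t2, -⟩ := G.hy.fl'.bk (3 - i) (by omega) e he
        have o : os (3 - i) 2 = hs i ∧ PS.ep (3 - i) (hs i) = i := by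
          obtain rfl | rfl : i = 0 ∨ i = 1 := by omega
          all_goals decide
        rw [m, o.1, o.2] at t1 t2
        refine (hwalk G hi hx he g t).elim id fun b => ?_
        rw [t1] at b
        exact (hstep G hi hx (t1 ▸ G.hy.ok'.al_wk i he t) b).elim id fun b => absurd b.1 t2
      · exact ⟨_, d, h2, by unfold pt; omega, Ct.dd_al G.hy.ok (G.hy.fam.top x hx).1 h1,
          (G.dead.pa hx hi h1).co, by rw [pt_div]; exact Co.refl _ _⟩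
    obtain ⟨q, v, h1, h2, h3, h4, h5⟩ := fd
    have e3 : 2 + i - 2 = i := by omega
    obtain ⟨q', h6, h7, h8⟩ := G.asc.two (w := 2 + i) (c := e) (by omega) hx (al_of G he)
      (by rwa [e3]) h1 h2 h3 (by rwa [e3]) h5
    exact ⟨q', h6, by omega, h8⟩
  · obtain ⟨t, ht⟩ := hp
    induction t generalizing c with
    | zero => exact absurd ((show c = y from ht) ▸ k) n
    | succ t ih =>
      have hg := G.hy.ok'.al_st i hc
      by_cases b : Z.M.Co i (Z.M'.st i c) x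
      · exact ih hg b ht
      have nd : ¬Z.M'.al (Z.M.st i c) := fun d => b (by
        unfold Cm.st
        rw [same G hc d]
        exact (Pa.step i c).co.symm.trans k)
      refine ⟨Z.M'.lk (pt c i), (G.run.gcase hi hx hc (dd_st G hi hx hc k nd)).2.resolve_right
        fun d => b (G.dead.hug hx hi d.2).co, par G hc, Pa.co ⟨t, ?_⟩⟩
      exact (G.smo.free hi (al_of G hg)
        (fun z hz d => b (G.run.inv hi hx hz hc k d ▸ d)) t).2.1.symm.trans ht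
  · have he := a.1
    by_cases n : Z.M.Prb p
    · exact ⟨_, Or.inl ⟨p, ⟨n, Or.inl k⟩, rfl⟩, he, Or.inl rfl⟩
    have hl := G.hy.ok'.al_lk he
    obtain ⟨i, e, hi, ep, e1, e2, g, m⟩ := pre G V a n hx k
    rw [e2] at he
    rcases m with m | ⟨d, -, h2, h3⟩
    · obtain ⟨b, h1, h2, t, t1, t2⟩ := G.wall.one hi hx he g
      refine ⟨b, h1, h2, Or.inr (Or.inr ⟨3 - i, by omega, ?_⟩)⟩
      rw [FE_eq G.hy.ok' h2 (t := t) (by rw [t1, m]) fun s hs' => by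
        rw [t2 s hs']; unfold hs; split_ifs <;> omega, wk_succ, t1, ep, G.hy.ok'.lk_pt he, m]
    · refine ⟨_, Or.inl ⟨Z.M'.lk p, ?_, rfl⟩, hl, Or.inr (Or.inl rfl)⟩
      rw [h3]
      refine ⟨(G.hy.fl.plk _).2 h2.1, ?_⟩
      rw [G.hy.ok.inv]
      exact h2.2.symm

end Pool.Agent.MP_1a6d78_lc.PS

end MrgPart3

-- marker of a merged file
example : 731051 + 30132 = 731051 + 30132 := rfl
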