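import Pool.Agent.MP_1a6d78_lc.PS.KList
import Pool.Agent.MP_1a6d78_lc.PS.KAnc
import Pool.Agent.MP_1a6d78_lc.PS.Flow

-- ======== part 0: formerly Pool.Agent.MP_1a6d78_lc.PS.KAll0
section MrgPart0

/-! PROJECT PSC: the kill round from its rows. -/

namespace Pool.Agent.MP_1a6d78_lc.PS

theorem kill_of (fl : FlowS) (pb : PrbS) (a1 : DeadS) (a2 : SmoS) (a3 : DownS) (a4 : RunS)
    (a5 : AscS) (a6 : WallS) (a7 : MeetS) (a8 : ValS) (a9 : AncS) (b1 : SelS) (b2 : GoodS)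
    (b3 : LamS) (b4 : StageS) (b5 : DpS) (b6 : IdxS) (b7 : PfS) (b8 : EnS) (b9 : FeS) (c1 : CovS)
    (c2 : ListS) : KillS := by
  intro K M H
  obtain ⟨M', S⟩ := Ct.smo_ex H.ok (M.Dead K.sel)
  have o' := Ct.smo_ok H.ok S
  have sel := b1 K M H (fl M H.ok)
  have hy : (K.ks M M').Hy := ⟨H.ok, o', fl M H.ok, fl M' o', sel.fam, S, H.geo.nm⟩
  have d := a1 _ hy
  have s := a2 _ hy d
  have w := a3 _ hy d s
  have r := a4 _ hy d s
  have a := a5 _ hy d
  have g : (K.ks M M').G1 := ⟨hy, d, s, w, r, a, a6 _ hy d s w r a⟩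
  have h1 : K.H1 M M' := ⟨H, g, a7 _ g, sel⟩
  have gd := b2 K M M' h1
  have h2 : K.H2 M M' := ⟨h1, gd, b3 K M M' h1 gd⟩
  have st := b4 K M M' h2
  have dp := b5 K M M' h2 st
  have h3 : K.H3 M M' := ⟨h2, st, dp, b6 K M M' h2 st dp⟩
  have pf : K.PfK M M' := b7 K M M' h3
  have en := b8 K M M' h3 pf
  have geo : Geo M' K.N := ⟨gd.al, h2.lam.lam, en.nm, b9 K M M' h3, by
    have := H.geo.genF_gf H.ok o' S.n gd.al 2 (c1 K M M' h3 pf)
    rwa [← H.n] at this⟩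
  exact ⟨M', S, o', sel.fam, ⟨geo.al, geo.lam, geo.nm, geo.FE, geo.F⟩,
    c2 pb K M M' h3 en (a8 _ g) (a9 _ g (a8 _ g)) geo⟩

end Pool.Agent.MP_1a6d78_lc.PS

end MrgPart0

-- ======== part 1: formerly Pool.Agent.MP_1a6d78_lc.PS.KDead
section MrgPart1

/-! PROJECT PSC, row DEAD: the cells that die. -/

namespace Pool.Agent.MP_1a6d78_lc.PS

open Classical ED PR GL Relation Ct

namespace KDead

variable {M : Cm} {a c d e i u w x : ℕ}

theorem d0 (c : ℕ) : 4 * c / 4 = c := by omega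

theorem d2 (c : ℕ) : (4 * c + 2) / 4 = c := by omega

theorem up (F : M.FlowK) (hi : i < 2) (h : M.al c) :
    (M.ss i c = 0 ∧ M.Rg (4 * c) (4 * M.st i c)) ∨
      (M.ss i c = hs i ∧ M.Rg (4 * c) (4 * M.st i c + 2)) := by
  have k1 := F.rg1 i (by omega) c h
  have k2 := F.rg2 i (by omega) c h
  have k3 := Cm.ss_cases (M := M) i c
  obtain rfl | rfl : i = 0 ∨ i = 1 := by omega
  · rcases k3 with k | k <;> rw [k] at k1 k2
    exacts [Or.inl ⟨k, k1⟩, Or.inr ⟨k, k2⟩]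
  · rcases k3 with k | k <;> rw [k] at k1 k2
    exacts [Or.inr ⟨k, k2⟩, Or.inl ⟨k, k1⟩]

theorem dn (F : M.FlowK) (hw : w = 2 ∨ w = 3) (h : M.al e) :
    (M.ss w e = 2 ∧ M.Rg (4 * e + 2) (4 * M.st w e + 2)) ∨
      (M.ss w e ≠ 2 ∧ M.Rg (4 * e + 2) (4 * M.st w e)) := by
  have k1 := F.rg1 w (by omega) e h
  have k2 := F.rg2 w (by omega) e h
  have k3 := Cm.ss_cases (M := M) w e
  rcases hw with rfl | rfl
  · rcases k3 with k | k <;> rw [k] at k1 k2
    exacts [Or.inl ⟨k, k1⟩, Or.inr ⟨by omega, k2⟩]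
  · rcases k3 with k | k <;> rw [k] at k1 k2
    exacts [Or.inr ⟨by omega, k2⟩, Or.inl ⟨k, k1⟩]

theorem f1 (h : d % 4 = 0) : M.st 1 (d / 4) = M.nr d / 4 := by
  unfold Cm.st Cm.nr
  rw [show pt (d / 4) 1 = r4 d by unfold pt r4; omega]

theorem f0 (H : M.Ok) (h : M.nr d % 4 = 0) : M.st 0 (M.nr d / 4) = d / 4 := by
  unfold Cm.st
  rw [show pt (M.nr d / 4) 0 = M.nr d by unfold pt; omega, Cm.nr, H.inv, r4_div]

theorem rg (H : M.Ok) (h : M.Dd x c) (k : M.Rg (4 * c) (4 * u)) : M.Dd x u := by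
  cases h with
  | top l => exact .top (rg_trans l k)
  | step l m =>
    obtain ⟨v, l⟩ := l
    exact .step ⟨v, rg_trans (rg_symm H k) l⟩ fun v' l' => m v' (rg_trans k l')

theorem inc (hx : M.Top x) (h : M.Dd x c) (k : M.Rg (4 * c) (4 * u + 2)) : M.Dd x u := by
  cases h with
  | top l =>
    have := crit_mod hx.2 (rg_trans l k)
    omega
  | step _ m => exact m u k

theorem st (H : M.Ok) (F : M.FlowK) (hx : M.Top x) (hi : i < 2) (h : M.Dd x c) :
    M.Dd x (M.st i c) := by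
  rcases up F hi (dd_al H hx.1 h) with k | k
  exacts [rg H h k.2, inc hx h k.2]

theorem pa_top (H : M.Ok) (hx : M.Top x) (hi : i < 2) (h : M.Rg (4 * x) (4 * c)) : M.Pa i c x := by
  obtain rfl | rfl : i = 0 ∨ i = 1 := by omega
  · have := (rg_ind (Q := fun d => M.Rg (4 * x) d ∧ M.Pa 0 (d / 4) x) h
      ⟨rg_refl _ _, by rw [d0]; exact Cm.Pa.refl _ _⟩ fun d k => by
        have k1 := rg_trans k.1 (rg_nr M d)
        have k2 := crit_mod hx.2 k1
        refine ⟨k1, (Cm.Pa.step _ _).trans ?_⟩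
        rw [f0 H (by omega)]
        exact k.2).2
    rwa [d0] at this
  · have := (rg_ind (Q := fun d => M.Rg (4 * x) d ∧ M.Pa 1 c (d / 4)) (rg_symm H h)
      ⟨h, by rw [d0]; exact Cm.Pa.refl _ _⟩ fun d k => by
        have k2 := crit_mod hx.2 k.1
        refine ⟨rg_trans k.1 (rg_nr M d), k.2.trans ?_⟩
        rw [← f1 (by omega)]
        exact Cm.Pa.step _ _).2
    rwa [d0] at this

/-- The walk leaves a region that is not critical. -/
theorem turn (H : M.Ok) (hi : i < 2) (hc : M.al c) (h : M.Rg (4 * c) (4 * u + 2)) :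
    ∃ v, M.Pa i c v ∧ M.Rg (4 * c) (4 * v + 2) := by
  have par : ∀ d, M.Rg (4 * c) d → d % 2 = 0 := fun d k => by
    have := rg_par H k (by rwa [d0])
    omega
  obtain rfl | rfl : i = 0 ∨ i = 1 := by omega
  · have := (rg_ind (Q := fun d => M.Rg (4 * c) d ∧
      (d % 4 = 0 → ∃ v, M.Pa 0 (d / 4) v ∧ M.Rg (4 * c) (4 * v + 2))) (rg_symm H h)
      ⟨h, fun k => by omega⟩ fun d k => by
        refine ⟨rg_trans k.1 (rg_nr M d), fun k1 => ?_⟩
        have k2 : M.Pa 0 (M.nr d / 4) (d / 4) := f0 H k1 ▸ Cm.Pa.step _ _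
        have k3 := par d k.1
        by_cases k4 : d % 4 = 0
        · obtain ⟨v, v1, v2⟩ := k.2 k4
          exact ⟨v, k2.trans v1, v2⟩
        · exact ⟨d / 4, k2, by rw [show 4 * (d / 4) + 2 = d by omega]; exact k.1⟩).2 (by omega)
    rwa [d0] at this
  · by_contra g
    have := (rg_ind (Q := fun d => d % 4 = 0 ∧ M.Rg (4 * c) d ∧ M.Pa 1 c (d / 4)) h
      ⟨by omega, rg_refl _ _, by rw [d0]; exact Cm.Pa.refl _ _⟩ fun d k => by
        have k1 := rg_trans k.2.1 (rg_nr M d)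
        have k2 : M.Pa 1 c (M.nr d / 4) := k.2.2.trans (f1 k.1 ▸ Cm.Pa.step _ _)
        have k3 := par _ k1
        refine ⟨by_contra fun k4 => g ⟨M.nr d / 4, k2, ?_⟩, k1, k2⟩
        rwa [show 4 * (M.nr d / 4) + 2 = M.nr d by omega]).1
    omega

theorem pa (H : M.Ok) (hx : M.Top x) (hi : i < 2) (h : M.Dd x c) : M.Pa i c x := by
  induction h with
  | top k => exact pa_top H hx hi k
  | step k l ih =>
    obtain ⟨u, k⟩ := k
    obtain ⟨v, v1, v2⟩ := turn H hi (dd_al H hx.1 (.step ⟨u, k⟩ l)) k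
    exact v1.trans (ih v v2)

theorem per (H : M.Ok) (F : M.FlowK) (hx : M.Top x) (hi : i < 2) : M.Per i x :=
  ⟨hx.1, pa H hx hi (st H F hx hi (.top (rg_refl _ _)))⟩

theorem top1 (H : M.Ok) (F : M.FlowK) (hx : M.Top x) (hi : i < 2) (h : M.Rg (4 * x) (4 * a)) :
    M.ss i a = 0 ∧ M.Rg (4 * x) (4 * M.st i a) := by
  rcases up F hi (dd_al H hx.1 (.top h)) with k | k
  · exact ⟨k.1, rg_trans h k.2⟩
  · have := crit_mod hx.2 (rg_trans h k.2)
    omega

theorem top (H : M.Ok) (F : M.FlowK) (hx : M.Top x) (hi : i < 2) (hc : M.Per i c)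
    (h : M.Co i c x) : M.Rg (4 * x) (4 * c) ∧ M.ss i c = 0 := by
  obtain ⟨t, rfl⟩ := h.symm.pa H hc
  have k : ∀ t, M.Rg (4 * x) (4 * M.wk i x t) := fun t => by
    induction t with
    | zero => exact rg_refl _ _
    | succ t ih => rw [Cm.wk_succ]; exact (top1 H F hx hi ih).2
  exact ⟨k t, (top1 H F hx hi (k t)).1⟩

theorem acc (hx : M.Top x) (h : M.Dd x c) : Acc (fun u c => M.Rg (4 * c) (4 * u + 2)) c := by
  induction h with
  | top k =>
    refine ⟨_, fun u l => ?_⟩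
    have := crit_mod hx.2 (rg_trans k l)
    omega
  | step _ _ ih => exact ⟨_, ih⟩

theorem irr {r : ℕ → ℕ → Prop} (h : Acc r c) : ¬r c c := by
  induction h with
  | intro c _ ih => exact fun k => ih c k k

theorem rank (H : M.Ok) (hx : M.Top x) : ∃ ρ : ℕ → ℕ, ∀ c u, M.Dd x c →
    (M.Rg (4 * c) (4 * u) → ρ u = ρ c) ∧ (M.Rg (4 * c) (4 * u + 2) → ρ u < ρ c) := by
  refine ⟨fun c => ((Finset.range M.n).filter fun v =>
    TransGen (fun u c => M.Rg (4 * c) (4 * u + 2)) v c).card, fun c u h => ⟨fun k => ?_, fun k => ?_⟩⟩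
  · refine congrArg Finset.card (Finset.filter_congr fun v _ => ?_)
    rw [TransGen.tail'_iff, TransGen.tail'_iff]
    exact exists_congr fun b => and_congr_right fun _ => ⟨rg_trans k, rg_trans (rg_symm H k)⟩
  · have hu := inc hx h k
    refine Finset.card_lt_card ⟨fun v hv => ?_, fun g => ?_⟩
    · rw [Finset.mem_filter] at hv ⊢
      exact ⟨hv.1, hv.2.tail k⟩
    · have := g (Finset.mem_filter.2 ⟨Finset.mem_range.2 (H.lt u (dd_al H hx.1 hu)), .single k⟩)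
      exact irr (acc hx hu).transGen (Finset.mem_filter.1 this).2

end KDead

open KDead in
theorem deadS : DeadS := by
  intro Z h
  have H := h.ok
  have F := h.fl
  have T := h.fam.top
  have lv : ∀ {e}, Z.M'.al e → Z.M.Lv Z.M' e := fun {e} k =>
    ⟨((h.smo.al e).1 k).1, e, k, Or.inl (rg_refl _ _)⟩
  refine ⟨rg H, fun hx => inc (T _ hx), fun hx => st H F (T _ hx), fun hx => pa H (T _ hx),
    fun hx => per H F (T _ hx), fun hx => top H F (T _ hx), fun hx hy hi k l => ?_,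
    fun hx => rank H (T _ hx), lv, fun {w e} hw k => ?_, fun {i q} hi k l => ?_,
    fun hx hi k => ?_⟩
  · exact h.fam.one _ _ hx hy
      (top H F (T _ hx) hi (per H F (T _ hy) hi) (l.symm.trans k)).1
  · obtain ⟨k1, u, k2, k3⟩ := k
    have k4 := H.al_st w k1
    rcases dn F hw k1 with l | l
    · exact ⟨⟨k4, u, k2, k3.imp (rg_trans (rg_symm H l.2)) (rg_trans (rg_symm H l.2))⟩,
        fun g => absurd l.1 g⟩
    · have k5 : Z.M'.al (Z.M.st w e) := (h.smo.al _).2 ⟨k4, fun ⟨x, hx, g⟩ =>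
        ((h.smo.al u).1 k2).2 ⟨x, hx, k3.elim
          (fun m => inc (T _ hx) g (rg_trans (rg_symm H l.2) m))
          fun m => rg H g (rg_trans (rg_symm H l.2) m)⟩⟩
      exact ⟨lv k5, fun _ => k5⟩
  · obtain ⟨k1, k2⟩ := (h.smo.al q).1 k
    have k4 := H.al_st i k1
    rcases up F hi k1 with m | m
    · exact absurd ((h.smo.al _).2 ⟨k4, fun ⟨x, hx, g⟩ =>
        k2 ⟨x, hx, rg H g (rg_symm H m.2)⟩⟩) l
    · exact ⟨m.1, k4, q, k, Or.inr (rg_symm H m.2)⟩
  · obtain ⟨d, ⟨t, e, -⟩, g⟩ := k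
    exact Cm.Pa.trans ⟨t, e⟩ (pa H (T _ hx) hi g)

end Pool.Agent.MP_1a6d78_lc.PS

end MrgPart1

-- ======== part 2: formerly Pool.Agent.MP_1a6d78_lc.PS.KDown
section MrgPart2

/-! PROJECT PSC, row DOWN: consequences of the index map for the down walks. -/

namespace Pool.Agent.MP_1a6d78_lc.PS

open Cm

/-- The new walk from `c` is the old one read at the indices `u`. -/
structure DIx (M M' : Cm) (w c : ℕ) (u : ℕ → ℕ) : Prop where
  al : M'.al c
  mono : StrictMono u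
  zero : u 0 = 0
  wk : ∀ t, M'.wk w c t = M.wk w c (u t)
  ss : ∀ t s, u (t + 1) = s + 1 → M'.ss w (M'.wk w c t) = M.ss w (M.wk w c s)
  sur : ∀ s, M'.al (M.wk w c s) → ∃ t, u t = s
  two : ∀ s, ¬M'.al (M.wk w c (s + 1)) → M.ss w (M.wk w c s) = 2

namespace DIx

variable {M M' : Cm} {w c : ℕ} {u : ℕ → ℕ}

theorem succ (I : DIx M M' w c u) (t : ℕ) : ∃ s, u (t + 1) = s + 1 :=
  Nat.exists_eq_succ_of_ne_zero (Nat.ne_zero_of_lt (I.mono (Nat.succ_pos t)))

theorem sur1 (I : DIx M M' w c u) {s : ℕ} (h : M'.al (M.wk w c (s + 1))) :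
    ∃ t, u (t + 1) = s + 1 := by
  obtain ⟨t, ht⟩ := I.sur _ h
  cases t with
  | zero => rw [I.zero] at ht; omega
  | succ t => exact ⟨t, ht⟩

theorem alu (I : DIx M M' w c u) (H : M'.Ok) (t : ℕ) : M'.al (M.wk w c (u t)) :=
  I.wk t ▸ H.al_wk w I.al t

theorem pa (I : DIx M M' w c u) (H : M'.Ok) {y : ℕ} : M'.Pa w c y ↔ M.Pa w c y ∧ M'.al y := by
  constructor
  · rintro ⟨t, rfl⟩
    exact ⟨⟨u t, (I.wk t).symm⟩, H.al_wk w I.al t⟩
  · rintro ⟨⟨s, rfl⟩, h⟩
    obtain ⟨t, rfl⟩ := I.sur s h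
    exact ⟨t, I.wk t⟩

theorem nxt (I : DIx M M' w c u) (H : M'.Ok) {r a : ℕ} :
    (∃ t, M'.wk w c (t + 1) = r ∧ M'.ss w (M'.wk w c t) = a) ↔
      (∃ t, M.wk w c (t + 1) = r ∧ M.ss w (M.wk w c t) = a) ∧ M'.al r := by
  constructor
  · rintro ⟨t, rfl, rfl⟩
    obtain ⟨s, hs⟩ := I.succ t
    exact ⟨⟨s, by rw [I.wk, hs], (I.ss t s hs).symm⟩, H.al_wk w I.al _⟩
  · rintro ⟨⟨s, rfl, rfl⟩, h⟩
    obtain ⟨t, ht⟩ := I.sur1 h
    exact ⟨t, by rw [I.wk, ht], I.ss t s ht⟩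

theorem fe1 (I : DIx M M' w c u) (H : M'.Ok) {a s : ℕ} (h : M'.al (M.wk w c (s + 1)))
    (e : M.ss w (M.wk w c s) = a)
    (k : ∀ r < s, ¬(M'.al (M.wk w c (r + 1)) ∧ M.ss w (M.wk w c r) = a)) :
    M'.FE w c a = M.wk w c (s + 1) := by
  obtain ⟨t, ht⟩ := I.sur1 h
  rw [FE_eq H I.al ((I.ss t s ht).trans e) fun t' h' e' => ?_, I.wk, ht]
  obtain ⟨r, hr⟩ := I.succ t'
  have := I.mono (Nat.succ_lt_succ h')
  exact k r (by simp only [Nat.succ_eq_add_one] at this; omega)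
    ⟨hr ▸ I.alu H _, (I.ss t' r hr).symm.trans e'⟩

theorem fe0 (I : DIx M M' w c u) (H : M'.Ok) {a : ℕ}
    (k : ∀ r, ¬(M'.al (M.wk w c (r + 1)) ∧ M.ss w (M.wk w c r) = a)) : M'.FE w c a = M'.n := by
  refine (FE_none H I.al).2 fun t e => ?_
  obtain ⟨r, hr⟩ := I.succ t
  exact k r ⟨hr ▸ I.alu H _, (I.ss t r hr).symm.trans e⟩

variable {A : Sg}

theorem sv (I : DIx M M' A.i A.p u) (t : ℕ) : M.sv A (u t) = M'.sv A t := by
  cases t with
  | zero => rw [I.zero]; rfl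
  | succ t =>
    obtain ⟨s, hs⟩ := I.succ t
    rw [hs, sv_succ, sv_succ]
    exact (I.ss t s hs).symm

theorem ln (I : DIx M M' A.i A.p u) (H : M.Ok) (H' : M'.Ok) (k : M.ok A) (k' : M'.ok A) :
    M.ln A = u (M'.ln A) := by
  obtain ⟨-, h1, h2⟩ := ln_spec H' k'
  refine ln_eq H k ((I.wk _).symm.trans h1) fun s hs e => ?_
  obtain ⟨t, rfl⟩ := I.sur s (by
    have := k'.2.2.al H' k'.2.1
    rwa [← e] at this)
  exact h2 t (I.mono.lt_iff_lt.1 hs) ((I.wk t).trans e)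

end DIx

theorem Ks.dix {Z : Ks} (d : Z.DeadK) (s : Z.SmoK) {w c : ℕ} (hw : w = 2 ∨ w = 3)
    (hc : Z.M'.al c) : ∃ u, DIx Z.M Z.M' w c u := by
  obtain ⟨u, h1, h2, h3, h4⟩ := s.idx hw hc
  have lv : ∀ t, Z.M.Lv Z.M' (Z.M.wk w c t) := fun t => by
    induction t with
    | zero => exact d.lv hc
    | succ t ih => rw [wk_succ]; exact (d.lvst hw ih).1
  refine ⟨u, hc, h1, h2, fun t => (h3 t).1, fun t r e => ?_, h4, fun t h => by_contra fun k => ?_⟩
  · rw [(h3 t).2, e, Nat.add_sub_cancel]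
  · exact h (wk_succ w c t ▸ (d.lvst hw (lv t)).2 k)

theorem downS : DownS := by
  intro Z H d s
  have al : ∀ {c}, Z.M'.al c → Z.M.al c := fun h => ((H.smo.al _).1 h).1
  have pa : ∀ {w c y}, w = 2 ∨ w = 3 → Z.M'.al c → (Z.M'.Pa w c y ↔ Z.M.Pa w c y ∧ Z.M'.al y) :=
    fun hw hc => let ⟨_, I⟩ := Ks.dix d s hw hc; I.pa H.ok'
  refine ⟨pa, fun {w c} hw hc => ?_, fun {w a b} hw ha hb => ?_, fun {w c x r a} hw hc => ?_,
    fun {w c a} hw hc ha => ?_, fun hw hc h e k => ?_, fun hw hc k => ?_, fun {A} hw k' => ?_⟩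
  · obtain ⟨u, I⟩ := Ks.dix d s hw hc
    constructor
    · rintro ⟨-, t, e⟩
      obtain ⟨⟨r, h, -⟩, -⟩ := (I.nxt H.ok').1 ⟨t, e, rfl⟩
      exact ⟨al hc, r, h⟩
    · rintro ⟨-, t, e⟩
      obtain ⟨r, h, -⟩ := (I.nxt H.ok').2 ⟨⟨t, e, rfl⟩, hc⟩
      exact ⟨hc, r, h⟩
  · constructor
    · rintro ⟨v, h1, h2⟩
      exact ⟨v, ((pa hw ha).1 h1).1, ((pa hw hb).1 h2).1⟩
    · rintro ⟨_, ⟨t, rfl⟩, h2⟩
      obtain ⟨u, I⟩ := Ks.dix d s hw ha
      obtain ⟨r, hr⟩ := Nat.exists_eq_add_of_le (I.mono.le_apply (x := t))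
      refine ⟨Z.M.wk w a (u t), (pa hw ha).2 ⟨Pa.wk _ _ _, I.alu H.ok' t⟩,
        (pa hw hb).2 ⟨h2.trans ⟨r, ?_⟩, I.alu H.ok' t⟩⟩
      rw [hr, wk_add]
  · obtain ⟨u, I⟩ := Ks.dix d s hw hc
    unfold Cm.Pw
    rw [I.nxt H.ok', or_and_right]
    exact or_congr_left ⟨fun h => ⟨h, h.1 ▸ hc⟩, And.left⟩
  · obtain ⟨u, I⟩ := Ks.dix d s hw hc
    by_cases ex : ∃ t, Z.M.ss w (Z.M.wk w c t) = a
    · classical
      rw [FE_eq H.ok (al hc) (Nat.find_spec ex) fun _ => Nat.find_min ex]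
      exact I.fe1 H.ok' (by_contra fun h => ha ((Nat.find_spec ex).symm.trans (I.two _ h)))
        (Nat.find_spec ex) fun r hr h => Nat.find_min ex hr h.2
    · rw [(FE_none H.ok (al hc)).2 fun t e => ex ⟨t, e⟩, I.fe0 H.ok' fun r h => ex ⟨r, h.2⟩,
        H.smo.n]
  · obtain ⟨u, I⟩ := Ks.dix d s hw hc
    exact I.fe1 H.ok' h e k
  · obtain ⟨u, I⟩ := Ks.dix d s hw hc
    rw [I.fe0 H.ok' k, H.smo.n]
  · obtain ⟨u, I⟩ := Ks.dix d s hw k'.2.1
    have k : Z.M.ok A := ⟨k'.1, al k'.2.1, ((I.pa H.ok').1 k'.2.2).1⟩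
    have l := I.ln H.ok H.ok' k k'
    refine ⟨k, fun y a => ⟨?_, ?_⟩, ?_, fun y y' hy hy' => ⟨?_, ?_⟩⟩
    · rintro ⟨t, h, rfl, rfl⟩
      exact ⟨⟨u t, l ▸ I.mono.monotone h, (I.wk t).symm, I.sv t⟩, el_al H.ok' k' t⟩
    · rintro ⟨⟨r, h, rfl, rfl⟩, hy⟩
      obtain ⟨t, rfl⟩ := I.sur r hy
      exact ⟨t, I.mono.le_iff_le.1 (l ▸ h), I.wk t, (I.sv t).symm⟩
    · rintro _ _ ⟨r, -, rfl, rfl⟩ hy
      cases r with
      | zero => exact absurd k'.2.1 hy
      | succ r => exact I.two r hy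
    · rintro ⟨r, t, h1, h2, rfl, rfl⟩
      exact ⟨u r, u t, I.mono.monotone h1, l ▸ I.mono.monotone h2, (I.wk r).symm, (I.wk t).symm⟩
    · rintro ⟨r, t, h1, h2, rfl, rfl⟩
      obtain ⟨r, rfl⟩ := I.sur r hy
      obtain ⟨t, rfl⟩ := I.sur t hy'
      exact ⟨r, t, I.mono.le_iff_le.1 h1, I.mono.le_iff_le.1 (l ▸ h2), I.wk r, I.wk t⟩

end Pool.Agent.MP_1a6d78_lc.PS

end MrgPart2

-- ======== part 3: formerly Pool.Agent.MP_1a6d78_lc.PS.KAsc
section MrgPart3

/-! PROJECT PSC, row ASC. -/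

namespace Pool.Agent.MP_1a6d78_lc.PS

open Classical ED PR GL Relation

noncomputable section

namespace Asc

open Cm

variable {M : Cm} {Z : Ks} {k x c : ℕ}

theorem chg {χ : ℕ → Prop} {u t : ℕ} (h : ¬(χ u ↔ χ (M.wk k u t))) :
    ∃ s < t, ¬(χ (M.wk k u s) ↔ χ (M.st k (M.wk k u s))) ∧
      M.Pa k (M.st k (M.wk k u s)) (M.wk k u t) := by
  induction t with
  | zero => exact absurd Iff.rfl h
  | succ t ih =>
    rw [wk_succ] at h ⊢
    by_cases e : χ u ↔ χ (M.wk k u t)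
    · exact ⟨t, Nat.lt_succ_self t, fun e' => h (e.trans e'), Pa.refl _ _⟩
    · obtain ⟨s, hs, h1, h2⟩ := ih e
      exact ⟨s, hs.trans (Nat.lt_succ_self t), h1, h2.trans (Pa.step _ _)⟩

/-- The steps of the basin of `x` that change the cycle of the down type. -/
def Ch (M : Cm) (k x c a : ℕ) : Prop :=
  M.al a ∧ M.Co k a x ∧ ¬(M.Co (k + 2) a c ↔ M.Co (k + 2) (M.st k a) c)

theorem ne (hy : Z.Hy) (hd : Z.DeadK) (hk : k < 2) (hx : Z.X x) {u : ℕ} (hu : Z.M.al u)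
    (h : Z.M.Co k u x) (e : ¬(Z.M.Co (k + 2) u c ↔ Z.M.Co (k + 2) x c)) : ∃ a, Ch Z.M k x c a := by
  obtain ⟨t, rfl⟩ := h.pa hy.ok (hd.per hx hk)
  obtain ⟨s, -, h1, h2⟩ := chg (χ := fun y => Z.M.Co (k + 2) y c) e
  exact ⟨_, hy.ok.al_wk k hu s, ((Pa.step _ _).trans h2).co, h1⟩

theorem cyc (hy : Z.Hy) (hd : Z.DeadK) (hk : k < 2) (hx : Z.X x) (hn : ∃ a, Ch Z.M k x c a)
    (h : ∀ a, Ch Z.M k x c a → ∃ b, Ch Z.M k x c b ∧ Z.M.Pa k (Z.M.st k b) a ∧
      Z.M.ss k b ≠ Z.M.ss k a) : False := by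
  obtain ⟨a, ha, t⟩ := hy.fl.back (Ch Z.M k x c)
    (fun b a => Ch Z.M k x c b ∧ Z.M.Pa k (Z.M.st k b) a ∧ Z.M.ss k b ≠ Z.M.ss k a)
    (fun a ha => ⟨hy.ok.lt a ha.1, let ⟨b, hb, e⟩ := h a ha; ⟨b, hb, hb, e⟩⟩) hn
  obtain ⟨b, h1, hb, h2, h3⟩ := TransGen.tail'_iff.1 t
  have h4 : Z.M.Pa k a b := by
    clear h2 h3 hb
    induction h1 with
    | refl => exact Pa.refl _ _
    | tail _ e ih => exact ih.trans ((Pa.step _ _).trans e.2.1)
  have pb : Z.M.Per k b := ⟨hb.1, h2.trans h4⟩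
  have pa : Z.M.Per k a := ((pb.st hy.ok).pa hy.ok h2).1
  exact h3 ((hd.top hx hk pb hb.2.1).2.trans (hd.top hx hk pa ha.2.1).2.symm)

theorem tr (hy : Z.Hy) (hk : k < 2) {a : ℕ} (ha : Ch Z.M k x c a) (hp : ¬Z.M.Prb (pt a k)) :
    ∃ b, Ch Z.M k x c b ∧ Z.M.Pa k (Z.M.st k b) a ∧ Z.M.ss k b ≠ Z.M.ss k a := by
  obtain ⟨b, h1, h2, h3, h4, h5⟩ := hy.fl.trace k (by omega) (fun y => Z.M.Co (k + 2) y c) a
    (fun y _ => by
      rw [Nat.mod_eq_of_lt (by omega : k + 2 < 4)]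
      exact ⟨fun e => (Pa.step _ _).co.trans e, fun e => (Pa.step _ _).co.symm.trans e⟩)
    ha.1 ha.2.2 hp
  refine ⟨b, ⟨h1, ((Pa.step _ _).trans h2).co.trans ha.2.1, fun e => ha.2.2 ?_⟩, h2, h3⟩
  exact h5.symm.trans (e.symm.trans h4)

theorem lsd (hy : Z.Hy) (hk : k < 2) {a : ℕ} (ha : Ch Z.M k x c a) (hp : Z.M.Prb (pt a k)) :
    Z.M.Lsd x (pt a k) ∧ Z.M.Lsd x (Z.M.lk (pt a k)) ∧ (Z.M.lk (pt a k) + (k + 2)) % 2 = 1 := by
  have p := hy.ok.par (pt a k) (by rw [pt_div]; exact ha.1)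
  have q := pt_mod a k
  have e : (Z.M.lk (pt a k) + 1) % 2 = k := by omega
  have h : Z.M.Co ((Z.M.lk (pt a k) + 1) % 2) (Z.M.lk (pt a k) / 4) x := by
    rw [e]
    exact (Pa.step k a).co.symm.trans ha.2.1
  exact ⟨⟨hp, Or.inr h⟩, ⟨(hy.fl.plk _).2 hp, Or.inl h⟩, by omega⟩

theorem one (hy : Z.Hy) (hd : Z.DeadK) (hk : k < 2) (hx : Z.X x) (hc : Z.M.al c)
    (h : Z.M.Co k c x) : ∃ d, Z.M.Src x d ∧ Z.M.Co (k + 2) d c := by
  by_contra hn
  refine cyc (c := c) hy hd hk hx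
    (ne hy hd hk hx hc h fun e => hn ⟨x, Or.inl rfl, e.1 (Co.refl _ _)⟩) fun a ha =>
    tr hy hk ha fun hp => ha.2.2 (iff_of_false (fun e => hn ⟨a, ?_, e⟩) fun e => hn ⟨_, ?_, e⟩)
  · exact Or.inr ⟨_, (lsd hy hk ha hp).1, (pt_div a k).symm⟩
  · exact Or.inr ⟨_, (lsd hy hk ha hp).2.1, rfl⟩

theorem two (hy : Z.Hy) (hd : Z.DeadK) (hk : k < 2) (hx : Z.X x) (hc : Z.M.al c)
    (h : Z.M.Co k c x) {q v : ℕ} (hq : Z.M.Lsd x q) (hp : (q + (k + 2)) % 2 = 1) (hv : Z.M.al v)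
    (h1 : Z.M.Co k v x) (h2 : Z.M.Co (k + 2) v (q / 4)) :
    ∃ q', Z.M.Lsd x q' ∧ (q' + (k + 2)) % 2 = 1 ∧ Z.M.Co (k + 2) (q' / 4) c := by
  by_contra hn
  refine cyc (c := c) hy hd hk hx ?_ fun a ha => ?_
  · by_cases e : Z.M.Co (k + 2) x c
    · exact ne hy hd hk hx hv h1 fun e' => hn ⟨q, hq, hp, h2.symm.trans (e'.2 e)⟩
    · exact ne hy hd hk hx hc h fun e' => e (e'.1 (Co.refl _ _))
  by_cases hb : Z.M.Prb (pt a k)
  swap
  · exact tr hy hk ha hb
  have ca : Z.M.Co (k + 2) a c := by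
    by_contra e
    refine ha.2.2 (iff_of_false e fun e' => hn ⟨_, (lsd hy hk ha hb).2.1, (lsd hy hk ha hb).2.2, e'⟩)
  obtain ⟨g, g1, -, g3⟩ := hy.fl.bk k (by omega) a ha.1
  have ho : os k (Z.M.ss k a) ≠ Z.M.ss k a ∧
      (os k (Z.M.ss k a) = k ∨ os k (Z.M.ss k a) = k + 3 - 4 * k) := by
    unfold os
    split_ifs <;> omega
  generalize os k (Z.M.ss k a) = o at g1 g3 ho
  have he : ep k o < 4 ∧ (o = ep k o ∨ o = (ep k o + 3) % 4) ∧ ep (ep k o) o = k ∧
      (ep k o + 1) % 2 = k := by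
    rcases ho.2 with e | e <;> rw [e] <;> rcases (by omega : k = 0 ∨ k = 1) with rfl | rfl <;> decide
  have g2 := hy.fl.rev _ he.1 o a g ha.1 he.2.1 g1
  rw [he.2.2.1] at g2
  have ag : Z.M.al g := let ⟨t, e, _⟩ := g1; Pa.al hy.ok ha.1 ⟨t, e⟩
  obtain ⟨t, rfl, ht⟩ := g2
  have hm := pt_mod g (ep k o)
  obtain ⟨s, hs, s1, s2⟩ := chg (M := Z.M) (k := k) (χ := fun y => Z.M.Co (k + 2) y c) (u := g)
    (t := t) fun e => hn ⟨pt g (ep k o), ⟨g3.2 hb, Or.inl (by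
      rw [pt_div, show (pt g (ep k o) + 1) % 2 = k by omega]
      exact (Pa.wk k g t).co.trans ha.2.1)⟩, by omega, by rw [pt_div]; exact e.2 ca⟩
  exact ⟨_, ⟨hy.ok.al_wk k ag s, ((Pa.step _ _).trans s2).co.trans ha.2.1, s1⟩, s2,
    by rw [ht s hs]; exact ho.1⟩

end Asc

theorem ascS : AscS := fun _ hy hd =>
  ⟨fun hw hx hc h => by
    rcases hw with rfl | rfl
    · exact Asc.one (k := 0) hy hd (by omega) hx hc h
    · exact Asc.one (k := 1) hy hd (by omega) hx hc h,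
  fun hw hx hc h hq hp hv h1 h2 => by
    rcases hw with rfl | rfl
    · exact Asc.two (k := 0) hy hd (by omega) hx hc h hq hp hv h1 h2
    · exact Asc.two (k := 1) hy hd (by omega) hx hc h hq hp hv h1 h2⟩

end

end Pool.Agent.MP_1a6d78_lc.PS

end MrgPart3

-- ======== part 4: formerly Pool.Agent.MP_1a6d78_lc.PS.KGood
section MrgPart4

/-! PROJECT PSC, row KGOOD: the fixpoint that finds the surviving candidates. -/

namespace Pool.Agent.MP_1a6d78_lc.PS

open Classical ED PR GL Cm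

namespace KGood

theorem pw_iff (M : Cm) (i p s r a : ℕ) :
    M.Pw i p s r a ↔ ∃ t, M.wk i p t = r ∧ M.sw i p s t = a := by
  constructor
  · rintro (⟨rfl, rfl⟩ | ⟨t, c⟩)
    exacts [⟨0, rfl, rfl⟩, ⟨t + 1, c⟩]
  · rintro ⟨t, c⟩
    cases t with
    | zero => exact Or.inl ⟨c.1.symm, c.2.symm⟩
    | succ t => exact Or.inr ⟨t, c⟩

theorem iter_red {f : ℕ → ℕ} {d a b : ℕ} (l : a < b) (e : f^[a] d = f^[b] d) (r : ℕ) :
    ∃ r' < b, f^[r] d = f^[r'] d := by
  induction r with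
  | zero => exact ⟨0, by omega, rfl⟩
  | succ r ih =>
    obtain ⟨s, h, k⟩ := ih
    have k' : f^[r + 1] d = f^[s + 1] d := by
      rw [Function.iterate_succ_apply', Function.iterate_succ_apply', k]
    rcases Nat.lt_or_ge (s + 1) b with u | u
    · exact ⟨s + 1, u, k'⟩
    · exact ⟨a, l, by rw [k', e, show s + 1 = b by omega]⟩

variable {K : Rn} {M M' : Cm} (H : K.H1 M M')
include H

theorem meets (p s b : ℕ) : K.meets p s b ↔ M.al p ∧ M.al b ∧ M.Mt p s b := by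
  have G := H.hy.geo
  have h := H.hy.ok
  have w : ∀ l < 2, M.wo (K.P.fu 3 b 3 l) := fun l _ => G.fu_wo h _ _ _ (by omega)
  unfold Rn.meets
  rw [H.hy.n, G.pa_iff h (by omega)]
  by_cases k : M.al p
  swap
  · rw [G.early_dead h (by omega) (by omega) (by omega) (by omega) k w]
    exact iff_of_false (fun c => c.elim (fun c => k c.1) (lt_irrefl _)) fun c => k c.1
  rw [(G.early_fst h (by omega) (by omega) (by omega) (by omega) k w).lt_iff]
  constructor
  · rintro (c | ⟨t, c1, l, l2, o, c2⟩)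
    · exact ⟨k, c.2.al h k, Or.inl c.2⟩
    · have hb := (G.fu_ok_iff h _ _ (by omega)).1 o
      exact ⟨k, hb, Or.inr ⟨_, (pw_iff ..).2 ⟨t, rfl, c1⟩,
        (pw_iff ..).2 ((G.fu_ps h 3 (by omega) hb _ _).1 ⟨l, l2, c2⟩)⟩⟩
  · rintro ⟨_, hb, c | ⟨r, c1, c2⟩⟩
    · exact Or.inl ⟨k, c⟩
    · obtain ⟨t, e, c3⟩ := (pw_iff ..).1 c1
      obtain ⟨l, l2, c4⟩ := (G.fu_ps h 3 (by omega) hb _ _).2 ((pw_iff ..).1 c2)
      exact Or.inr ⟨t, c3, l, l2, G.fu_ok h _ _ (by omega) hb, e ▸ c4⟩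

theorem hop_eq (b : ℕ) : K.hop b = if M.FE 0 b 3 < M.n then M.FE 2 (M.FE 0 b 3) 1 else b := by
  unfold Rn.hop
  rw [H.hy.n, H.hy.geo.FE 0 (by omega) 3 (by omega), H.hy.geo.FE 2 (by omega) 1 (by omega)]

theorem hop_rg (b : ℕ) : M.Rg (4 * b) (4 * K.hop b) := by
  rw [hop_eq H]
  split_ifs with c
  exacts [(H.meet.hop c).2, ⟨0, rfl⟩]

theorem hops_rg (b r : ℕ) : M.Rg (4 * b) (4 * K.hop^[r] b) := by
  induction r with
  | zero => exact ⟨0, rfl⟩
  | succ r ih => rw [Function.iterate_succ_apply']; exact Ct.rg_trans ih (hop_rg H _)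

theorem al_rg {b c : ℕ} (k : M.al b) (r : M.Rg (4 * b) (4 * c)) : M.al c := by
  have := Ct.rg_al H.hy.ok r
  rw [Nat.mul_div_cancel_left _ (by omega), Nat.mul_div_cancel_left _ (by omega)] at this
  exact this.2 k

theorem it_hop {b : ℕ} (k : M.al b) (r : ℕ) : it K.n K.hop r b = K.hop^[r] b := by
  rw [H.hy.n]
  exact it_eq' (Q := M.al) (fun a u => al_rg H u (hop_rg H a)) H.hy.ok.lt k r

theorem al' (c : ℕ) : M'.al c ↔ M.al c ∧ ¬∃ x, K.sel x ∧ M.Dd x c := H.g1.hy.smo.al c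

theorem hops_al' {b : ℕ} (k : M'.al b) (r : ℕ) : M'.al (K.hop^[r] b) := by
  obtain ⟨k1, k2⟩ := (al' H b).1 k
  exact (al' H _).2 ⟨al_rg H k1 (hops_rg H b r), fun ⟨x, s, d⟩ =>
    k2 ⟨x, s, H.g1.dead.rg d (Ct.rg_symm H.hy.ok (hops_rg H b r))⟩⟩

/-- Surviving candidates pass every round. -/
theorem surv {x : ℕ} (s : K.sel x) (k : ℕ) : ∀ t, M'.al (K.C x t) → K.G k x t := by
  have h := H.hy.ok
  induction k with
  | zero => exact fun t a => (h.lt _ ((al' H _).1 a).1).trans_eq H.hy.n.symm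
  | succ k ih =>
    intro t a
    obtain ⟨a1, a2⟩ := (al' H _).1 a
    refine ⟨H.hy.n ▸ h.lt _ a1, by_contra fun hn => a2 ⟨x, s, ?_⟩⟩
    have st : ∀ r < K.nc + 1, M.Cand K.P.En x (K.hop^[r + 1] (K.C x t)) ∧
        M.FE 0 (K.hop^[r] (K.C x t)) 3 < M.n ∧
        ∀ d, M.Ti 2 2 (M.FE 0 (K.hop^[r] (K.C x t)) 3) d → M.Dd x d := by
      intro r hr
      have u := hops_al' H a r
      have u1 := ((al' H _).1 u).1
      have e : K.P.En 0 (K.hop^[r] (K.C x t)) = x := by_contra fun c =>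
        hn ⟨r, hr, Or.inl (by rwa [it_hop H a1])⟩
      have o := (H.hy.geo.nm.pa 0 (by omega) _ u1).co
      rw [e] at o
      obtain ⟨f, c⟩ := H.meet.step s u o
      rcases c with ⟨b, b1, b2, b3⟩ | c
      · obtain ⟨t', l, rfl⟩ := H.sel.cex s b1
        refine absurd ⟨r, hr, Or.inr ⟨t', l, ih t' b2, ?_⟩⟩ hn
        rw [it_hop H a1, H.hy.geo.FE 0 (by omega) 3 (by omega)]
        exact (meets H ..).2 ⟨(FE_le h ..).resolve_left f.ne, ((al' H _).1 b2).1, b3⟩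
      · refine ⟨?_, f, c.2⟩
        rw [Function.iterate_succ_apply', hop_eq H, if_pos f]
        exact c.1
    have ch : ∀ r, ∃ τ, r < K.nc + 1 → τ < K.nc ∧ K.C x τ = K.hop^[r + 1] (K.C x t) := fun r => by
      by_cases hr : r < K.nc + 1
      · obtain ⟨τ, l, e⟩ := H.sel.cex s (st r hr).1
        exact ⟨τ, fun _ => ⟨l, e⟩⟩
      · exact ⟨0, fun c => absurd c hr⟩
    choose τ hτ using ch
    have key : ∀ p q, p < q → q < K.nc + 1 → τ p = τ q → M.Dd x (K.C x t) := by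
      intro p q pq hq e
      have e' : K.hop^[p + 1] (K.C x t) = K.hop^[q + 1] (K.C x t) := by
        rw [← (hτ p (by omega)).2, e, (hτ q hq).2]
      refine H.meet.fin (fun r => K.hop^[r] (K.C x t)) s a1 fun r => ?_
      obtain ⟨r', l, e⟩ := iter_red (by omega) e' r
      obtain ⟨-, f, c⟩ := st r' (by omega)
      rw [← e] at f c
      refine ⟨f, ?_, c⟩
      rw [Function.iterate_succ_apply', hop_eq H, if_pos f]
    obtain ⟨p, hp, q, hq, ne, e⟩ := Finset.exists_ne_map_eq_of_card_lt_of_maps_to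
      (s := Finset.range (K.nc + 1)) (t := Finset.range K.nc) (by simp) (f := τ)
      fun r hr => Finset.mem_coe.2 (Finset.mem_range.2 (hτ r (Finset.mem_range.1 hr)).1)
    rw [Finset.mem_range] at hp hq
    rcases lt_or_gt_of_ne ne with l | l
    exacts [key p q l hq e, key q p l hp e.symm]

/-- Dead candidates fail. -/
theorem dead {x t : ℕ} (s : K.sel x) (ht : t < K.nc) (d : M.Dd x (K.C x t)) : ¬K.G K.nc x t := by
  have h := H.hy.ok
  obtain ⟨ρ, hρ⟩ := H.g1.dead.rank s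
  have key : ∀ k t, M.Dd x (K.C x t) → K.G k x t →
      k ≤ cnt K.nc fun t' => M.Dd x (K.C x t') ∧ ρ (K.C x t') < ρ (K.C x t) := by
    intro k
    induction k with
    | zero => exact fun _ _ _ => Nat.zero_le _
    | succ k ih =>
      rintro t d ⟨l, r, -, c⟩
      have a1 : M.al (K.C x t) :=
        ((H.sel.cand s).resolve_left (by rw [← H.hy.n]; exact l.ne)).1
      rw [it_hop H a1] at c
      have rg := hops_rg H (K.C x t) r
      have d' : M.Dd x (K.hop^[r] (K.C x t)) := H.g1.dead.rg d rg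
      rcases c with c | ⟨t', l', g, c⟩
      · exact absurd ((H.hy.geo.nm.pa_eq h (by omega) (al_rg H a1 rg)
          (H.g1.dead.pa s (by omega) d')).symm.trans (H.sel.name s)) c
      · rw [H.hy.geo.FE 0 (by omega) 3 (by omega)] at c
        obtain ⟨m1, m2, m3⟩ := (meets H ..).1 c
        obtain ⟨q1, q2⟩ := H.meet.rk ρ s hρ d' (h.lt _ m1) m2 m3
        have q3 : ρ (K.C x t') < ρ (K.C x t) := (hρ _ _ d).1 rg ▸ q2
        exact (ih t' q1 g).trans_lt (cnt_lt (fun _ _ c => ⟨c.1, c.2.trans q3⟩) l' ⟨q1, q3⟩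
          fun c => lt_irrefl _ c.2)
  intro g
  exact absurd (key _ t d g) (not_le.2 ((cnt_lt (Q := fun _ => True) (fun _ _ _ => trivial) ht
    trivial fun c => lt_irrefl _ c.2).trans_le (cnt_le _ _)))

theorem gd {x t : ℕ} (s : K.sel x) (ht : t < K.nc) :
    K.gd x t = if M'.al (K.C x t) then K.C x t else M.n := by
  unfold Rn.gd
  rw [H.hy.n]
  refine if_congr ⟨fun g => ?_, surv H s _ t⟩ rfl rfl
  have l : K.C x t < K.n := (show K.G (12 * K.c + 1 + 1) x t from g).1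
  obtain ⟨a, c⟩ := (H.sel.cand s).resolve_left (by rw [← H.hy.n]; exact l.ne)
  exact (al' H _).2 ⟨a, fun ⟨y, sy, d⟩ => dead H s ht (H.g1.run.cand s sy c d ▸ d) g⟩

theorem gal {x t : ℕ} (s : K.sel x) (ht : t < K.nc) :
    K.gd x t = M.n ∨ (M'.al (K.gd x t) ∧ M.Cand K.P.En x (K.gd x t)) := by
  rw [gd H s ht]
  split_ifs with a
  · exact Or.inr ⟨a, ((H.sel.cand s).resolve_left (H.hy.ok.lt _ ((al' H _).1 a).1).ne).2⟩
  · exact Or.inl rfl

theorem gex {x b : ℕ} (s : K.sel x) (c : M.Cand K.P.En x b) (a : M'.al b) :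
    ∃ t < K.nc, K.gd x t = b := by
  obtain ⟨t, l, rfl⟩ := H.sel.cex s c
  exact ⟨t, l, by rw [gd H s l, if_pos a]⟩

theorem al (c : ℕ) : K.al' c ↔ M'.al c := by
  unfold Rn.al'
  rw [H.hy.n, H.hy.geo.al]
  by_cases e : K.obj 0 c = M.n
  · refine ⟨fun a => (H.g1.smo.free (i := 0) (by omega) a.1 (fun x s o => ?_) 0).1,
      fun a => ⟨((al' H c).1 a).1, Or.inl e⟩⟩
    obtain ⟨u, v⟩ := (H.sel.obj (by omega)).2 ⟨a.1, s, o⟩
    omega
  obtain ⟨a, s, o⟩ := (H.sel.obj (i := 0) (by omega)).1 ⟨rfl, lt_of_le_of_ne (H.sel.ole 0 c) e⟩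
  constructor
  · rintro ⟨-, c' | ⟨t, l, m⟩⟩
    · exact absurd c' e
    · obtain ⟨m1, m2, m3⟩ := (meets H ..).1 m
      exact H.meet.al m1 ((gal H s l).resolve_left (H.hy.ok.lt _ m2).ne).1 m3
  · intro a'
    obtain ⟨b, b1, b2, b3⟩ := H.meet.ex 0 s a' o
    obtain ⟨t, l, rfl⟩ := gex H s b1 b2
    exact ⟨a, Or.inr ⟨t, l, (meets H ..).2 ⟨a, ((al' H _).1 b2).1, b3⟩⟩⟩

end KGood

theorem goodS : GoodS := fun _ _ _ H =>
  ⟨fun p s b _ => KGood.meets H p s b, KGood.gd H, KGood.gal H, KGood.gex H,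
    funext fun c => propext (KGood.al H c)⟩

end Pool.Agent.MP_1a6d78_lc.PS

end MrgPart4

-- ======== part 5: formerly Pool.Agent.MP_1a6d78_lc.PS.KLam
section MrgPart5

/-! PROJECT PSC, row LAM: the programs `hits`, `nxa`, `lam'`, `FEd`. -/

namespace Pool.Agent.MP_1a6d78_lc.PS

open Classical ED PR GL Cm

namespace KLam

variable {K : Rn} {M M' : Cm} {w : ℕ}

lemma fst_of {i p v : ℕ} {H J : ℕ → Prop} (a : M.Fst i p J v) (h1 : ∀ s, J s → H s)
    (h2 : ∀ s, H s → (∀ r < s, ¬H r) → J s) : M.Fst i p H v := by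
  have k : ∀ s, H s → ∃ r ≤ s, J r := fun s e =>
    ⟨_, Nat.find_min' ⟨s, e⟩ e, h2 _ (Nat.find_spec (⟨s, e⟩ : ∃ s, H s)) fun _ c => Nat.find_min _ c⟩
  rcases a with ⟨a1, a2⟩ | ⟨a1, t, a2, a3, a4⟩
  · exact Or.inl ⟨a1, fun s e => let ⟨r, _, c⟩ := k s e; a2 r c⟩
  · exact Or.inr ⟨a1, t, a2, h1 t a3, fun s l e => let ⟨r, b, c⟩ := k s e; a4 r (by omega) c⟩

lemma ti_cons {i a u v d : ℕ} (h1 : M.Ti i a u v) (h2 : M.Ti i a v d) : M.Ti i a u d := by
  obtain ⟨s, rfl, s1⟩ := h1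
  obtain ⟨t, rfl, t1⟩ := h2
  refine ⟨s + t, wk_add _ _ _ _, fun r hr => ?_⟩
  rcases Nat.lt_or_ge r s with l | l
  · exact s1 r l
  · obtain ⟨q, rfl⟩ := Nat.exists_eq_add_of_le l
    rw [wk_add]
    exact t1 q (by omega)

lemma side (hw : w = 2 ∨ w = 3) (e : ℕ) : M.ss w e = 2 ∨ M.ss w e = hs w := by
  rcases hw with rfl | rfl
  · exact ss_cases 2 e
  · exact (ss_cases 3 e).symm

lemma hs2 (w : ℕ) : hs w ≠ 2 ∧ hs w < 4 := by unfold hs; split_ifs <;> omega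

lemma lvwk (H : K.H1 M M') (hw : w = 2 ∨ w = 3) {e : ℕ} (h : M.Lv M' e) (r : ℕ) :
    M.Lv M' (M.wk w e r) := by
  induction r with
  | zero => exact h
  | succ r ih => rw [wk_succ]; exact (H.g1.dead.lvst hw ih).1

lemma lval (H : K.H1 M M') (hw : w = 2 ∨ w = 3) {e : ℕ} (h : M.Lv M' e) {r : ℕ}
    (k : M.ss w (M.wk w e r) ≠ 2) : M'.al (M.wk w e (r + 1)) := by
  rw [wk_succ]
  exact (H.g1.dead.lvst hw (lvwk H hw h r)).2 k

lemma dead (H : K.H1 M M') {c : ℕ} (h : M.al c) (k : ¬M'.al c) : ∃ x, K.sel x ∧ M.Dd x c :=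
  by_contra fun e => k ((H.g1.hy.smo.al c).2 ⟨h, e⟩)

lemma hits (H : K.H1 M M') (D : K.GoodK M M') (hw : w = 2 ∨ w = 3) {x t : ℕ} (hx : K.sel x)
    (hd : M.Dd x t) (hl : M.Lv M' t) :
    M.Fst w t (fun s => M'.al (M.wk w t s) ∧ M.sw w t 2 s = 2) (K.hits w t) := by
  have h := H.hy.ok
  have G := H.hy.geo
  have hw' : 5 - w = 2 ∨ 5 - w = 3 := by omega
  have w4 : 5 - w < 4 := by omega
  have ox : K.obj 0 t = x :=
    ((H.sel.obj (by omega)).2 ⟨hl.1, hx, (H.g1.dead.pa hx (by omega) hd).co⟩).1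
  unfold Rn.hits
  rw [ox, H.hy.n]
  refine fst_of (G.early_fst h (by omega) (by omega) (hs2 _).2 (hs2 _).1.symm hl.1
    fun l _ => G.fu_wo h _ _ _ w4) ?_ ?_
  · rintro s ⟨e, l, hl', o, ps⟩
    refine ⟨?_, e⟩
    have a1 : M.al (K.gd x (l / 2)) := (G.fu_ok_iff h _ _ w4).1 o
    have a2 : M'.al (K.gd x (l / 2)) := (D.gal hx (t := l / 2) (by omega)).elim
      (fun c => absurd (c ▸ a1) h.not_al_n) fun c => c.1
    obtain ⟨r, r1, r2⟩ := (G.fu_ps h _ w4 a1 _ _).1 ⟨l % 2, by omega, ps⟩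
    rw [← r1]
    cases r with
    | zero => exact a2
    | succ r => exact lval H hw' (H.g1.dead.lv a2) (by rw [← sw_succ, r2]; exact (hs2 _).1)
  · rintro s ⟨e1, e2⟩ mn
    refine ⟨e2, ?_⟩
    cases s with
    | zero => exact absurd ⟨x, hx, hd⟩ ((H.g1.hy.smo.al t).1 e1).2
    | succ s =>
      have hug : ∀ r ≤ s, M.Hug (3 - w) x (M.wk w t r) := by
        intro r
        induction r with
        | zero => exact fun _ => ⟨t, ⟨0, rfl, fun _ c => absurd c (Nat.not_lt_zero _)⟩, hd⟩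
        | succ r ih =>
          intro hr
          have al := h.al_wk w hl.1 r
          rcases side (M := M) hw (M.wk w t r) with c | c
          · obtain ⟨y, y1, y2⟩ := dead H (h.al_wk w hl.1 (r + 1))
              fun k => mn (r + 1) (by omega) ⟨k, c⟩
            have e := (H.g1.run.cross hw hx al (ih (by omega)) c).2 y y1
              (by
                have := (H.g1.dead.pa y1 (i := w - 2) (by omega) y2).co
                rwa [wk_succ] at this)
            exact ⟨_, ⟨0, rfl, fun _ c => absurd c (Nat.not_lt_zero _)⟩, e ▸ y2⟩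
          · obtain ⟨d, d1, d2⟩ := ih (by omega)
            have t1 : M.Ti w (hs w) (M.wk w t r) (M.wk w t (r + 1)) :=
              ⟨1, (wk_succ _ _ _).symm, fun q l => by rw [Nat.lt_one_iff.1 l]; exact c⟩
            have t2 := H.g1.hy.fl.rev w (by omega) _ _ _ al
              (by rcases hw with rfl | rfl <;> decide) t1
            refine ⟨d, ti_cons ?_ d1, d2⟩
            rcases hw with rfl | rfl <;> exact t2
      rw [wk_succ] at e1 ⊢
      obtain ⟨b, b1, b2, r, r1, r2⟩ :=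
        H.g1.wall.two hw hx (h.al_wk w hl.1 s) (hug s le_rfl) e2 e1
      obtain ⟨l, l1, rfl⟩ := D.gex hx b1 b2
      have a1 := ((H.g1.hy.smo.al _).1 b2).1
      have p1 : M'.Pw (5 - w) (K.gd x l) (hs (5 - w)) (M.st w (M.wk w t s)) (hs (5 - w)) := by
        cases r with
        | zero => exact Or.inl ⟨r1.symm, rfl⟩
        | succ r => exact Or.inr ⟨r, r1, r2 r (by omega)⟩
      obtain ⟨u, u1, u2⟩ := (G.fu_ps h (hs (5 - w)) w4 a1 (M.st w (M.wk w t s)) (hs (5 - w))).2 (by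
        rcases ((H.g1.down.pw hw' b2).1 p1).1 with ⟨c, -⟩ | ⟨q, c⟩
        exacts [⟨0, c.symm, rfl⟩, ⟨q + 1, c⟩])
      refine ⟨2 * l + u, by omega, ?_⟩
      unfold Rn.wall
      rw [show (2 * l + u) / 2 = l by omega, show (2 * l + u) % 2 = u by omega]
      exact ⟨G.fu_ok h _ _ w4 a1, u2⟩

lemma nxa (H : K.H1 M M') (D : K.GoodK M M') (hw : w = 2 ∨ w = 3) {e t : ℕ} (hl : M.Lv M' e)
    (hn : M.Nt M' w e t) : K.nxa w e = M.lk (pt (M.wk w e t) w) := by
  have h := H.hy.ok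
  have G := H.hy.geo
  have w4 : w < 4 := by omega
  unfold Rn.nxa
  rw [D.al, G.st_al w hl.1, G.FE w w4 _ (hs2 w).2, H.hy.n]
  cases t with
  | zero => rw [if_pos (show M'.al (M.st w e) from hn.2), G.lam_pt w hl.1]; rfl
  | succ t =>
    have n1 : ∀ s ≤ t, ¬M'.al (M.wk w (M.st w e) s) := fun s l => hn.1 s (by omega)
    have n2 : M'.al (M.wk w (M.st w e) (t + 1)) := hn.2
    have lr := (H.g1.dead.lvst hw hl).1
    rw [if_neg (show ¬M'.al (M.st w e) from n1 0 (Nat.zero_le _)), wk_succ']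
    generalize M.st w e = r at n1 n2 lr
    obtain ⟨x, x1, x2⟩ := dead H lr.1 (n1 0 (Nat.zero_le _))
    have F := hits H D hw x1 x2 lr
    have s2 : ∀ s < t, M.ss w (M.wk w r s) = 2 := fun s l =>
      by_contra fun c => n1 (s + 1) l (lval H hw lr c)
    rw [h.lk_pt (h.al_wk w lr.1 t), ← wk_succ]
    rcases side (M := M) hw (M.wk w r t) with c | c
    · rw [F.eq (t := t + 1) ⟨n2, c⟩ fun s l k => n1 s (by omega) k.1, if_neg, c]
      rintro ⟨k1, k2⟩
      obtain ⟨-, u, u1, u2, -⟩ := FE_spec h k1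
      have o : M.ok ⟨w, r, 2, M.FE w r (hs w)⟩ := ⟨w4, lr.1, _, u1.symm⟩
      refine k2 ((G.On_iff h (by omega) o.wo).2 ⟨o, t + 1, ?_, rfl, c⟩)
      by_contra l
      have a := lval H hw lr (r := u) (by rw [u2]; exact (hs2 w).1)
      rw [← u1] at a
      have q : M.wk w r (M.ln ⟨w, r, 2, M.FE w r (hs w)⟩) = M.FE w r (hs w) := (ln_spec h o).2.1
      exact n1 (M.ln ⟨w, r, 2, M.FE w r (hs w)⟩) (by omega) (by rw [q]; exact a)
    · rw [FE_eq h lr.1 c fun s l => by rw [s2 s l]; exact (hs2 w).1.symm, if_pos, c]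
      refine ⟨h.lt _ (h.al_wk w lr.1 _), fun k => ?_⟩
      have o : M.ok ⟨w, r, 2, M.wk w r (t + 1)⟩ := ⟨w4, lr.1, Pa.wk _ _ _⟩
      obtain ⟨-, u, u1, u2, u3⟩ := (G.On_iff h (by omega) o.wo).1 k
      rw [ln_eq h o (l := t + 1) rfl fun s l k => n1 s (by omega)
        ((show M.wk w r s = M.wk w r (t + 1) from k) ▸ n2)] at u1
      have u2' : M.wk w r u = K.hits w r := u2
      obtain ⟨s, s1, s3, -⟩ := F.of_lt (u2' ▸ h.lt _ (h.al_wk w lr.1 u))
      have : u = t + 1 := by_contra fun l => n1 u (by omega) (by rw [u2', s1]; exact s3.1)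
      subst this
      exact (hs2 w).1 (c.symm.trans u3)

lemma fed (H : K.H1 M M') (D : K.GoodK M M') (hw : w = 2 ∨ w = 3) {c a : ℕ} (ha : a < 4)
    (hc : M'.al c ∨ c = M.n) : K.FEd w c a = M'.FE w c a := by
  have h := H.hy.ok
  have n' : M'.n = M.n := H.g1.hy.smo.n
  unfold Rn.FEd
  rw [D.al, H.hy.geo.FE w (by omega) _ ha, H.hy.n]
  rcases hc with hc | rfl
  swap
  · rw [FE_dead h.not_al_n, if_neg fun k => lt_irrefl _ k.2.1,
      FE_dead (n' ▸ (H.g1.hy.ok' : M'.Ok).not_al_n), n']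
  have al := ((H.g1.hy.smo.al c).1 hc).1
  have lc := H.g1.dead.lv hc
  by_cases a2 : a = 2
  swap
  · rw [if_neg fun k => a2 k.1]
    exact (H.g1.down.fe hw hc a2).symm
  subst a2
  rcases FE_le h w c 2 with k | k
  · rw [if_neg fun e => e.2.1.ne k, k]
    exact (H.g1.down.fen hw hc fun r e => (FE_none h al).1 k r e.2).symm
  obtain ⟨-, u, u1, u2, u3⟩ := FE_spec h (h.lt _ k)
  by_cases k' : M'.al (M.FE w c 2)
  · rw [if_neg fun e => e.2.2 k', u1]
    exact (H.g1.down.fe2 hw hc (u1 ▸ k') u2 fun r l e => u3 r l e.2).symm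
  rw [if_pos ⟨rfl, h.lt _ k, k'⟩]
  obtain ⟨x, x1, x2⟩ := dead H k k'
  have F := hits H D hw x1 x2 (u1 ▸ lvwk H hw lc (u + 1))
  rw [u1] at F k' ⊢
  have key : ∀ r, M'.al (M.wk w c (r + 1)) ∧ M.ss w (M.wk w c r) = 2 → ∃ s, r = u + 1 + s ∧
      M'.al (M.wk w (M.wk w c (u + 1)) (s + 1)) ∧ M.sw w (M.wk w c (u + 1)) 2 (s + 1) = 2 := by
    intro r e
    rcases lt_trichotomy r u with l | l | l
    · exact absurd e.2 (u3 r l)
    · exact absurd (l ▸ e.1) k'
    · obtain ⟨s, rfl⟩ := Nat.exists_eq_add_of_le (show u + 1 ≤ r from l)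
      exact ⟨s, rfl, by rw [← wk_add]; exact e.1, by rw [sw_succ, ← wk_add]; exact e.2⟩
  rcases F with ⟨f1, f2⟩ | ⟨-, s, f1, f2, f3⟩
  · rw [f1]
    exact (H.g1.down.fen hw hc fun r e => let ⟨s, _, q⟩ := key r e; f2 _ q).symm
  · cases s with
    | zero => exact absurd f2.1 k'
    | succ s =>
      rw [sw_succ, ← wk_add, ← wk_add] at f2
      rw [f1, ← wk_add]
      exact (H.g1.down.fe2 (s := u + 1 + s) hw hc f2.1 f2.2 fun r l e =>
        let ⟨q, q1, q2⟩ := key r e; f3 _ (by omega) q2).symm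

lemma lam (H : K.H1 M M') (D : K.GoodK M M') (p : ℕ) :
    K.lam' p = if M'.al (p / 4) then M'.lk p else 4 * M'.n := by
  have h := H.hy.ok
  have n' : M'.n = M.n := H.g1.hy.smo.n
  have e : pt (p / 4) (p % 4) = p := by unfold pt; omega
  unfold Rn.lam'
  rw [D.al, H.hy.n, n']
  refine if_ctx_congr Iff.rfl (fun k => ?_) fun _ => rfl
  have al := ((H.g1.hy.smo.al _).1 k).1
  rw [H.hy.geo.lam_al al]
  split_ifs with k1 k2
  · have hw : p % 4 = 2 ∨ p % 4 = 3 := by omega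
    obtain ⟨t, ht⟩ := H.g1.smo.ex hw (H.g1.dead.lv k)
    rw [nxa H D hw (H.g1.dead.lv k) ht]
    exact (H.g1.smo.dn hw k ht).symm.trans (congrArg M'.lk e)
  · exact (H.g1.smo.same k k2).symm
  · have s : M.st (p % 4) (p / 4) = M.lk p / 4 := by rw [Cm.st, e]
    have hi : p % 4 < 2 := by omega
    have hw : 2 + p % 4 = 2 ∨ 2 + p % 4 = 3 := by omega
    obtain ⟨b1, b2⟩ := H.g1.dead.bnd hi k (s ▸ k2)
    obtain ⟨t, ht⟩ := H.g1.smo.ex hw b2
    have l := h.lk_pt (i := p % 4) al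
    rw [e, show M.ss (p % 4) (p / 4) = hs (p % 4) from b1] at l
    have q : 5 - M.lk p % 4 = 2 + p % 4 := by
      rw [l, pt_mod]
      rcases (by omega : p % 4 = 0 ∨ p % 4 = 1) with c | c <;> rw [c] <;> decide
    rw [q, ← s, nxa H D hw b2 ht]
    exact (H.g1.smo.up hi k (s ▸ k2) ht).symm.trans (congrArg M'.lk e)

end KLam

theorem lamS : LamS := fun _ _ _ H D =>
  ⟨fun hw => KLam.hits H D hw, fun hw => KLam.nxa H D hw, KLam.lam H D, fun hw => KLam.fed H D hw⟩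

end Pool.Agent.MP_1a6d78_lc.PS

end MrgPart5

-- ======== part 6: formerly Pool.Agent.MP_1a6d78_lc.PS.KDp
section MrgPart6

/-! PROJECT PSC, row DP: one stage and the loop. -/

namespace Pool.Agent.MP_1a6d78_lc.PS

open Classical ED PR GL Cm

namespace KDp

/-- One step of a wall, read backwards. -/
theorem back {M : Cm} (h : M.Ok) {i u : ℕ} (hi : i < 2) (hu : M.al u)
    (s : M.ss (3 - i) u = hs i) :
    M.st i (M.st (3 - i) u) = u ∧ M.ss i (M.st (3 - i) u) = hs i := by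
  have e := h.lk_pt (i := 3 - i) hu
  have o : ep (3 - i) (hs i) = i := by
    obtain rfl | rfl : i = 0 ∨ i = 1 := by omega
    all_goals decide
  rw [s, o] at e
  have e' : M.lk (pt (M.st (3 - i) u) i) = pt u (3 - i) := by rw [← e, h.inv]
  refine ⟨by rw [Cm.st, e', pt_div], ?_⟩
  rw [Cm.ss, e', sd, pt_mod]
  obtain rfl | rfl : i = 0 ∨ i = 1 := by omega
  all_goals decide

variable {K : Rn} {M M' : Cm} {i p : ℕ} (H : K.H2 M M')
include H

theorem ok : M.Ok := H.h1.g1.hy.ok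

theorem ok' : M'.Ok := H.h1.g1.hy.ok'

theorem al_iff (c : ℕ) : M'.al c ↔ M.al c ∧ ¬M.Dead K.sel c := H.h1.g1.hy.smo.al c

theorem obj_lt (hi : i < 2) (k : K.obj i p < M.n) :
    M.al p ∧ K.sel (K.obj i p) ∧ M.Co i p (K.obj i p) := (H.h1.sel.obj hi).1 ⟨rfl, k⟩

theorem obj_or (i p : ℕ) : K.obj i p < M.n ∨ K.obj i p = M.n := (H.h1.sel.ole i p).lt_or_eq

theorem alive (hi : i < 2) (hp : M.al p) {a t : ℕ} (k : M'.al (M.wk i p a)) (ht : t ≤ a) :
    M'.al (M.wk i p t) := by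
  refine (al_iff H _).2 ⟨(ok H).al_wk i hp t, fun ⟨y, hy, d⟩ => ((al_iff H _).1 k).2 ⟨y, hy, ?_⟩⟩
  obtain ⟨r, rfl⟩ := Nat.exists_eq_add_of_le ht
  rw [wk_add]
  exact iter_inv (Q := M.Dd y) (fun _ c => H.h1.g1.dead.st hy hi c) d r

theorem same {c : ℕ} (h : M'.al c) (k : M'.al (M.st i c)) :
    M'.lk (pt c i) = M.lk (pt c i) := H.h1.g1.smo.same (by rwa [pt_div]) k

theorem step (hi : i < 2) (hp : M'.al p) :
    K.obj i (M'.st i p) = K.obj i p ∨ K.obj i (M'.st i p) = M.n := by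
  refine (obj_or H i (M'.st i p)).imp_left fun k => ?_
  obtain ⟨-, k1, k2⟩ := obj_lt H hi k
  have a := ((al_iff H _).1 hp).1
  rcases obj_or H i p with l | l
  · obtain ⟨-, l1, l2⟩ := obj_lt H hi l
    exact H.h1.g1.run.inv hi l1 k1 hp l2 k2
  · have f : ∀ x, K.sel x → ¬M.Co i p x := fun x hx c => by
      have := (H.h1.sel.obj hi).2 ⟨a, hx, c⟩
      omega
    have e : M'.st i p = M.st i p := (H.h1.g1.smo.free hi a f 1).2.1
    rw [e] at k1 k2
    exact absurd ((Pa.step i p).co.trans k2) (f _ k1)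

theorem inv (hi : i < 2) (hp : M'.al p) {u : ℕ} (k : M'.Pa i p u) :
    K.obj i u = K.obj i p ∨ K.obj i u = M.n := by
  obtain ⟨t, rfl⟩ := k
  induction t with
  | zero => exact Or.inl rfl
  | succ t ih =>
    rw [wk_succ]
    rcases step H hi ((ok' H).al_wk i hp t) with e | e
    · rwa [e]
    · exact Or.inr e

theorem nx_n (k : K.obj i p = M.n) : K.nx i p = p := if_pos (k.trans H.h1.hy.n.symm)

theorem nx_lt (k : K.obj i p < M.n) :
    K.nx i p = if K.hp i p then K.dg i p / 4 else K.db i p :=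
  if_neg (by rw [H.h1.hy.n]; exact k.ne)

variable (S : K.StageK M M')
include S

theorem one (hi : i < 2) (hp : M'.al p) (k : K.obj i p < M.n) : ∃ a b, K.One M M' i p a b := by
  obtain ⟨pa, aq, -, -⟩ := S.q hi hp k
  have ea : M.wk i p (Nat.find pa) = K.dq i p := Nat.find_spec pa
  have fa : ∀ t < Nat.find pa, M.wk i p t ≠ K.dq i p := fun t ht => Nat.find_min pa ht
  generalize Nat.find pa = a at ea fa
  have al : ∀ t ≤ a, M'.al (M.wk i p t) := fun t ht =>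
    alive H hi (obj_lt H hi k).1 (ea ▸ aq) ht
  have sm : ∀ t < a, M'.lk (pt (M.wk i p t) i) = M.lk (pt (M.wk i p t) i) := fun t ht =>
    same H (al t ht.le) (wk_succ (M := M) i p t ▸ al (t + 1) ht)
  have old : ∀ t ≤ a, M'.wk i p t = M.wk i p t := fun t ht => by
    induction t with
    | zero => rfl
    | succ t ih => rw [wk_succ, wk_succ, ih (by omega), Cm.st, sm t ht, Cm.st]
  have ss : ∀ t < a, M'.ss i (M.wk i p t) = M.ss i (M.wk i p t) := fun t ht => by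
    rw [Cm.ss, sm t ht, Cm.ss]
  have g1 : M'.wk i p (a + 1) = K.dg i p / 4 := by
    rw [wk_succ, old a le_rfl, ea, S.g hi hp k, Cm.st]
  have g2 : M'.ss i (K.dq i p) = sd i (K.dg i p) := by rw [S.g hi hp k, Cm.ss]
  by_cases c : K.hp i p
  · exact ⟨a, 0, ea, fa, old, ss, ⟨g1, g2⟩, by rw [nx_lt H k, if_pos c, g1], fun _ => rfl,
      fun d => absurd c d⟩
  obtain ⟨-, ab, t0, t1, t2⟩ := S.b hi hp k c
  have o : M'.ok ⟨3 - i, K.db i p, hs i, K.dg i p / 4⟩ := ⟨by show 3 - i < 4; omega, ab, t0, t1⟩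
  obtain ⟨-, l1, l2⟩ := ln_spec (ok' H) o
  generalize hb : M'.ln ⟨3 - i, K.db i p, hs i, K.dg i p / 4⟩ = b at l1 l2
  have l1' : M'.wk (3 - i) (K.db i p) b = K.dg i p / 4 := l1
  have bt : b ≤ t0 := not_lt.1 fun d => l2 t0 d t1
  have s0 : M'.ss i (K.dq i p) = hs i := by
    have u := M'.ss_cases i (K.dq i p)
    have v : M'.ss i (K.dq i p) ≠ 0 := g2 ▸ c
    unfold hs
    split_ifs <;> omega
  have bk : ∀ t < b, M'.st i (M'.wk (3 - i) (K.db i p) (b - t)) =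
      M'.wk (3 - i) (K.db i p) (b - (t + 1)) ∧
      M'.ss i (M'.wk (3 - i) (K.db i p) (b - t)) = hs i := fun t ht => by
    rw [show b - t = b - (t + 1) + 1 by omega, wk_succ]
    exact back (ok' H) hi ((ok' H).al_wk _ ab _) (t2 _ (by omega))
  have rv : ∀ t ≤ b, M'.wk (3 - i) (K.db i p) (b - t) = M'.wk i p (a + 1 + t) := fun t ht => by
    induction t with
    | zero => exact l1'.trans g1.symm
    | succ t ih => rw [← add_assoc, wk_succ _ _ (a + 1 + t), ← ih (by omega), (bk t ht).1]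
  refine ⟨a, b, ea, fa, old, ss, ⟨g1, g2⟩, ?_, fun d => absurd d c,
    fun _ => ⟨s0, hb, o, fun t ht => ⟨rv t ht, ?_, ?_⟩⟩⟩
  · rw [nx_lt H k, if_neg c, ← rv b le_rfl, Nat.sub_self, wk_zero]
  · cases t with
    | zero => rfl
    | succ t => exact t2 t (by omega)
  · cases t with
    | zero => rw [add_zero, sw_succ, old a le_rfl, ea, s0]
    | succ t => rw [← add_assoc, sw_succ, ← rv t (by omega), (bk t ht).2]

theorem nx_pa (hi : i < 2) (hp : M'.al p) : M'.Pa i p (K.nx i p) := by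
  rcases obj_or H i p with k | k
  · obtain ⟨a, b, o⟩ := one H S hi hp k
    exact ⟨_, o.nx⟩
  · rw [nx_n H k]
    exact Pa.refl _ _

theorem dp_eq (hi : i < 2) (hp : M'.al p) (k : ℕ) : K.dp i p k = (K.nx i)^[k] p :=
  it_eq' (Q := M'.al) (fun _ c => (nx_pa H S hi c).al (ok' H) c) (fun a c => by
    rw [H.h1.hy.n]
    exact (ok H).lt a ((al_iff H a).1 c).1) hp k

theorem dp_succ (hi : i < 2) (hp : M'.al p) (k : ℕ) :
    K.dp i p (k + 1) = K.nx i (K.dp i p k) := by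
  rw [dp_eq H S hi hp, dp_eq H S hi hp, Function.iterate_succ_apply']

theorem dp_pa (hi : i < 2) (hp : M'.al p) (k : ℕ) : M'.Pa i p (K.dp i p k) := by
  induction k with
  | zero => exact Pa.refl _ _
  | succ k ih =>
    rw [dp_succ H S hi hp]
    exact ih.trans (nx_pa H S hi (ih.al (ok' H) hp))

theorem stay (hi : i < 2) (hp : M'.al p) {k l : ℕ} (e : K.obj i (K.dp i p k) = M.n) (h : k ≤ l) :
    K.dp i p l = K.dp i p k := by
  induction h with
  | refl => rfl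
  | step _ ih => rw [dp_succ H S hi hp, ih, nx_n H e]

theorem cand (hi : i < 2) (hp : M'.al p) {k : ℕ} (e : K.obj i (K.dp i p k) < M.n) :
    M.Cand K.P.En (K.obj i p) (K.dp i p (k + 1)) := by
  have pa := dp_pa H S hi hp k
  have a := pa.al (ok' H) hp
  rw [dp_succ H S hi hp, nx_lt H e, ← (inv H hi hp pa).resolve_right e.ne]
  split_ifs with c
  exacts [S.hp hi a e c, (S.b hi a e c).1]

theorem lt_le (hi : i < 2) (hp : M'.al p) {k l : ℕ} (e : K.obj i (K.dp i p l) < M.n) (h : k ≤ l) :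
    K.obj i (K.dp i p k) < M.n :=
  (obj_or H _ _).resolve_right fun c => by
    rw [stay H S hi hp c h] at e
    exact e.ne c

theorem per (hi : i < 2) (hp : M'.al p) (e : K.obj i (K.dp i p K.nc) < M.n) :
    ∃ s L, s ≤ K.nc ∧ 0 < L ∧ L ≤ K.nc ∧ ∀ k, s ≤ k → K.dp i p (k + L) = K.dp i p k := by
  have sx : K.sel (K.obj i p) := (obj_lt H hi (lt_le H S hi hp e (Nat.zero_le _))).2.1
  have ex : ∀ k : Fin (K.nc + 1), ∃ t : Fin K.nc, K.C (K.obj i p) t = K.dp i p (k + 1) := fun k =>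
    let ⟨t, t1, t2⟩ := H.h1.sel.cex sx (cand H S hi hp (lt_le H S hi hp e (Nat.le_of_lt_succ k.2)))
    ⟨⟨t, t1⟩, t2⟩
  choose f hf using ex
  have key : ∀ u v : Fin (K.nc + 1), u < v → f u = f v →
      ∃ s L, s ≤ K.nc ∧ 0 < L ∧ L ≤ K.nc ∧ ∀ k, s ≤ k → K.dp i p (k + L) = K.dp i p k := by
    intro u v uv d
    have uv' : (u : ℕ) < v := uv
    have v2 := v.2
    refine ⟨u + 1, v - u, by omega, by omega, by omega, fun k hk => ?_⟩
    induction hk with
    | refl => rw [show (u : ℕ) + 1 + (v - u) = v + 1 by omega, ← hf, ← hf, d]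
    | @step m _ ih =>
      rw [Nat.succ_eq_add_one, add_right_comm, dp_succ H S hi hp, ih, dp_succ H S hi hp]
  obtain ⟨u, v, ne, d⟩ := Fintype.exists_ne_map_eq_of_card_lt f (by simp)
  rcases lt_or_gt_of_ne ne with c | c
  exacts [key u v c d, key v u c d.symm]

theorem exit (hi : i < 2) (hp : M'.al p) {u : ℕ} (k : M'.Pa i p u) (e : K.obj i u = M.n) :
    K.obj i (K.dp i p K.nc) = M.n := by
  refine (obj_or H _ _).resolve_left fun c => ?_
  obtain ⟨s, L, s1, L0, -, pr⟩ := per H S hi hp c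
  have pj : ∀ j, K.dp i p (s + j * L) = K.dp i p s := fun j => by
    induction j with
    | zero => rw [zero_mul, add_zero]
    | succ j ih => rw [Nat.succ_mul, ← add_assoc, pr _ (Nat.le_add_right _ _), ih]
  have all : ∀ k, K.obj i (K.dp i p k) < M.n := fun k =>
    lt_le H S hi hp (l := s + k * L) (by rw [pj]; exact lt_le H S hi hp c s1)
      ((Nat.le_mul_of_pos_right k L0).trans (Nat.le_add_left _ _))
  have ix : ∀ k, ∃ m, k ≤ m ∧ M'.wk i p m = K.dp i p k := fun k => by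
    induction k with
    | zero => exact ⟨0, le_rfl, rfl⟩
    | succ k ih =>
      obtain ⟨m, m1, m2⟩ := ih
      obtain ⟨a, b, o⟩ := one H S hi ((dp_pa H S hi hp k).al (ok' H) hp) (all k)
      exact ⟨m + (a + 1 + b), by omega, by rw [wk_add, m2, o.nx, dp_succ H S hi hp]⟩
  obtain ⟨t, rfl⟩ := k
  obtain ⟨m, m1, m2⟩ := ix t
  obtain ⟨r, rfl⟩ := Nat.exists_eq_add_of_le m1
  rw [wk_add] at m2
  have := inv H hi ((ok' H).al_wk i hp t) ⟨r, m2⟩
  have := all t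
  omega

end KDp

open KDp in
theorem dpS : DpS := fun _ _ _ H S =>
  ⟨one H S, fun hi hp k => inv H hi hp k,
    fun k hi hp => ⟨dp_succ H S hi hp k, (dp_pa H S hi hp k).al (ok' H) hp, dp_pa H S hi hp k⟩,
    fun hi hp k e => exit H S hi hp k e, fun hi hp e h => stay H S hi hp e h, per H S,
    fun hi hp e => cand H S hi hp e⟩

end Pool.Agent.MP_1a6d78_lc.PS

end MrgPart6

-- ======== part 7: formerly Pool.Agent.MP_1a6d78_lc.PS.KIdx
section MrgPart7

/-! PROJECT PSC, rows IDX and PF: the stages cover the new walk; the cells of the pieces. -/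

namespace Pool.Agent.MP_1a6d78_lc.PS

open Classical ED PR GL Cm

theorem idxS : IdxS := by
  intro K M M' h _ D i p hi hp
  have ex : ∀ k, ∃ a b, K.obj i (K.dp i p k) < M.n → K.One M M' i (K.dp i p k) a b := fun k => by
    by_cases c : K.obj i (K.dp i p k) < M.n
    · obtain ⟨a, b, o⟩ := D.one hi (D.dp k hi hp).2.1 c
      exact ⟨a, b, fun _ => o⟩
    · exact ⟨0, 0, fun c' => absurd c' c⟩
  choose a b o using ex
  obtain ⟨u, u0, u1⟩ : ∃ u : ℕ → ℕ, u 0 = 0 ∧ ∀ k,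
      u (k + 1) = if K.obj i (K.dp i p k) < M.n then u k + a k + 1 + b k else u k :=
    ⟨fun k => Nat.rec 0 (fun k v => if K.obj i (K.dp i p k) < M.n then v + a k + 1 + b k else v) k,
      rfl, fun _ => rfl⟩
  have dp : ∀ k, M'.wk i p (u k) = K.dp i p k := fun k => by
    induction k with
    | zero => rw [u0]; rfl
    | succ k ih =>
      rw [u1]
      split_ifs with c
      · rw [show u k + a k + 1 + b k = u k + (a k + 1 + b k) by omega, wk_add, ih, (o k c).nx,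
          (D.dp k hi hp).1]
      · rw [ih, D.stay hi hp (le_antisymm (h.h1.sel.ole _ _) (not_lt.1 c)) k.le_succ]
  refine ⟨u, a, b, u0, dp, fun k c => ⟨o k c, by rw [u1, if_pos c]⟩, fun k s hk => ?_⟩
  cases k with
  | zero => rw [u0]; rfl
  | succ k =>
    have c := hk k k.lt_succ_self
    rw [u1, if_pos c, show u k + a k + 1 + b k = u k + (a k + b k) + 1 by omega, sw_succ, wk_add,
      dp, Rn.ds, if_neg k.succ_ne_zero, Nat.add_sub_cancel]
    split_ifs with d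
    · rw [(o k c).hop d, add_zero, (o k c).old _ le_rfl, (o k c).q, (o k c).g.2]
      exact (show sd i _ = 0 from d).symm
    · have e := (((o k c).wall d).2.2.2 _ le_rfl).2.2
      rw [show a k + 1 + b k = a k + b k + 1 by omega, sw_succ] at e
      exact e.symm

theorem pfS : PfS := by
  intro K M M' h i p u a b s k y hi hp I c
  have H := h.h2.h1
  have ok := H.hy.ok
  have G := H.hy.geo
  have o := (I.one k c).1
  have e0 : K.pf i p s (2 * k) = ⟨i, K.dp i p k, K.ds i p s k, K.dq i (K.dp i p k)⟩ := by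
    rw [Rn.pf, if_pos (by omega), show 2 * k / 2 = k by omega]
  have e1 : K.pf i p s (2 * k + 1) = if K.hp i (K.dp i p k) then junk M.n
      else ⟨3 - i, K.db i (K.dp i p k), hs i, K.dg i (K.dp i p k) / 4⟩ := by
    rw [Rn.pf, if_neg (by omega), show (2 * k + 1) / 2 = k by omega, H.hy.n]
  have k0 : M.ok ⟨i, K.dp i p k, K.ds i p s k, K.dq i (K.dp i p k)⟩ :=
    ⟨(by omega : i < 4), ((H.g1.hy.smo.al _).1 (h.dp.dp k hi hp).2.1).1, a k, o.q⟩
  have wk : ∀ t, M'.wk i p (u k + t) = M'.wk i (K.dp i p k) t := fun t => by rw [wk_add, I.dp]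
  rw [e0, e1, H.hy.n]
  have m0 : K.P.OnC M.n y ⟨i, K.dp i p k, K.ds i p s k, K.dq i (K.dp i p k)⟩ ↔
      ∃ t ≤ a k, M'.wk i p (u k + t) = y := by
    rw [G.OnC_iff ok k0.1 k0.wo, and_iff_right k0, Cm.Mem, ln_eq ok k0 o.q o.fst]
    exact exists_congr fun t => and_congr_right fun ht => by rw [wk, o.old t ht]; rfl
  by_cases d : K.hp i (K.dp i p k)
  · rw [if_pos d]
    refine ⟨k0.wo, junk_wo ok, m0, fun _ => iff_of_false (fun m => ?_) fun m => m.1 d⟩
    exact junk_not ok ((G.OnC_iff ok (by decide : (0 : ℕ) < 4) (junk_wo ok)).1 m).1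
  · rw [if_neg d]
    obtain ⟨-, w1, w2, w3⟩ := o.wall d
    obtain ⟨k1, ps, -⟩ := H.g1.down.ps (by change 3 - i = 2 ∨ 3 - i = 3; omega) w2
    refine ⟨k0.wo, k1.wo, m0, fun hy => ?_⟩
    rw [G.OnC_iff ok k1.1 k1.wo, and_iff_right k1, and_iff_right d]
    have wk' : ∀ t ≤ b k, M'.wk (3 - i) (K.db i (K.dp i p k)) (b k - t) =
        M'.wk i p (u k + a k + 1 + t) := fun t ht => by
      rw [(w3 t ht).1, ← wk, show u k + (a k + 1 + t) = u k + a k + 1 + t by omega]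
    constructor
    · intro m
      obtain ⟨x, m⟩ := m.ps
      obtain ⟨t, ht, e⟩ := ((ps y x).2 ⟨m, hy⟩).mem
      rw [w1] at ht
      exact ⟨b k - t, by omega, by rw [← wk' _ (by omega), Nat.sub_sub_self ht]; exact e⟩
    · rintro ⟨t, ht, e⟩
      have m : M'.Mem ⟨3 - i, K.db i (K.dp i p k), hs i, K.dg i (K.dp i p k) / 4⟩ y :=
        ⟨b k - t, by rw [w1]; omega, (wk' t ht).trans e⟩
      obtain ⟨x, m⟩ := m.ps
      exact ((ps y x).1 m).1.mem

end Pool.Agent.MP_1a6d78_lc.PS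

end MrgPart7

-- ======== part 8: formerly Pool.Agent.MP_1a6d78_lc.PS.KEn
section MrgPart8

namespace Pool.Agent.MP_1a6d78_lc.PS

open Classical ED PR GL

namespace KEn

variable {K : Rn} {M M' : Cm}

theorem al_old (H : K.H3 M M') {c : ℕ} (h : M'.al c) : M.al c :=
  ((H.h2.h1.g1.hy.smo.al c).1 h).1

theorem down (H : K.H3 M M') {w c : ℕ} (hw : w = 2 ∨ w = 3) (hc : M'.al c) :
    M.Pa w c (K.En' w c) ∧ M.Per w (K.En' w c) ∧ M'.al (K.En' w c) := by
  have G := H.h2.h1.g1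
  have ok := H.h2.h1.hy.ok
  have N := H.h2.h1.hy.geo.nm
  have h1 := N.pa w (by omega) c (al_old H hc)
  have h2 := N.per w (by omega) c (al_old H hc)
  unfold Rn.En'
  rw [H.h2.good.al, if_pos hc, if_pos (by omega)]
  split_ifs with h
  · exact ⟨h1, h2, h⟩
  · have h3 : M.Lv M' (K.P.En w c) := by
      obtain ⟨t, ht⟩ := h1
      rw [← ht]
      clear ht
      induction t with
      | zero => exact G.dead.lv hc
      | succ t ih => rw [Cm.wk_succ]; exact (G.dead.lvst hw ih).1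
    obtain ⟨t, ht⟩ := G.smo.ex hw h3
    have h4 : K.nxa w (K.P.En w c) / 4 = M.wk w (K.P.En w c) (t + 1) := by
      rw [H.h2.lam.nxa hw h3 ht, Cm.wk_succ]
      rfl
    rw [h4]
    exact ⟨h1.trans (Cm.Pa.wk _ _ _), (h2.pa ok (Cm.Pa.wk _ _ _)).1, ht.2⟩

theorem free (H : K.H3 M M') {i c : ℕ} (hi : i < 2) (hc : M'.al c) (h : K.obj i c = M.n)
    (t : ℕ) : M'.wk i c t = M.wk i c t := by
  refine (H.h2.h1.g1.smo.free hi (al_old H hc) (fun x hx hco => ?_) t).2.1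
  have := (H.h2.h1.sel.obj hi).2 ⟨al_old H hc, hx, hco⟩
  omega

theorem free_pa (H : K.H3 M M') {i c y : ℕ} (hi : i < 2) (hc : M'.al c) (h : K.obj i c = M.n) :
    M'.Pa i c y ↔ M.Pa i c y := by
  unfold Cm.Pa
  simp only [free H hi hc h]

theorem exit_iff (H : K.H3 M M') {i c : ℕ} (hi : i < 2) (hc : M'.al c) :
    K.obj i (K.dp i c (K.nc + 1)) = M.n ↔ ∃ u, M'.Pa i c u ∧ K.obj i u = M.n := by
  refine ⟨fun h => ⟨_, (H.dp.dp _ hi hc).2.2, h⟩, fun ⟨u, h1, h2⟩ => ?_⟩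
  have h3 := H.dp.exit hi hc h1 h2
  rw [H.dp.stay hi hc h3 (Nat.le_succ _)]
  exact h3

theorem wk_mod {N : Cm} {i d P : ℕ} (h : N.wk i d P = d) (m : ℕ) :
    N.wk i d m = N.wk i d (m % P) := by
  have h1 : ∀ q, N.wk i d (P * q) = d := by
    intro q
    induction q with
    | zero => rfl
    | succ q ih => rw [Nat.mul_succ, Cm.wk_add, ih, h]
  conv_lhs => rw [← Nat.div_add_mod m P, Cm.wk_add, h1]

theorem locate (u : ℕ → ℕ) (k m L : ℕ) (h1 : u k ≤ m) (h2 : m < u (k + L)) :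
    ∃ j < L, u (k + j) ≤ m ∧ m < u (k + j + 1) := by
  induction L with
  | zero => exact absurd h1 (not_le.2 h2)
  | succ L ih =>
    by_cases h : m < u (k + L)
    · obtain ⟨j, h3, h4⟩ := ih h
      exact ⟨j, by omega, h4⟩
    · exact ⟨L, by omega, not_lt.1 h, h2⟩

theorem onp_iff (H : K.H3 M M') (F : K.PfK M M') {i c : ℕ} (hi : i < 2) (hc : M'.al c)
    (h : K.obj i (K.dp i c (K.nc + 1)) ≠ M.n) : M'.Per i (K.dp i c (K.nc + 1)) ∧
      ∀ y, M'.al y → (K.onp i c y ↔ M'.Per i y ∧ M'.Co i y c) := by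
  have ok' : M'.Ok := H.h2.h1.g1.hy.ok'
  have hall : ∀ k, K.obj i (K.dp i c k) < M.n := fun k =>
    lt_of_le_of_ne (H.h2.h1.sel.ole _ _) fun e =>
      h ((exit_iff H hi hc).2 ⟨_, (H.dp.dp k hi hc).2.2, e⟩)
  obtain ⟨u, a, b, I⟩ := H.idx hi hc
  have hu : StrictMono u := strictMono_nat_of_lt_succ fun k => by
    have := (I.one k (hall k)).2
    omega
  obtain ⟨s, L, h1, h2, h3, h4⟩ := H.dp.per hi hc (hall _)
  obtain ⟨k, hk⟩ : ∃ k, k = K.nc + 1 := ⟨_, rfl⟩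
  rw [← hk]
  have h5 : u k < u (k + L) := hu (by omega)
  have h6 : ∀ m, M'.wk i (K.dp i c k) m = M'.wk i c (u k + m) := fun m => by
    rw [Cm.wk_add, I.dp]
  have h7 : M'.wk i (K.dp i c k) (u (k + L) - u k) = K.dp i c k := by
    rw [h6, show u k + (u (k + L) - u k) = u (k + L) by omega, I.dp, h4 k (by omega)]
  have hper : M'.Per i (K.dp i c k) := by
    refine ⟨(H.dp.dp k hi hc).2.1, u (k + L) - u k - 1, ?_⟩
    rw [← Cm.wk_succ', show u (k + L) - u k - 1 + 1 = u (k + L) - u k by omega, h7]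
  refine ⟨hper, fun y hy => ?_⟩
  unfold Rn.onp
  rw [← hk]
  constructor
  · rintro ⟨l, _, hl⟩
    have h8 : ∃ m, u k ≤ m ∧ M'.wk i c m = y := by
      have h9 : u k ≤ u (k + l / 2) := hu.monotone (by omega)
      obtain ⟨_, _, p1, p2⟩ := F 0 (k + l / 2) y hi hc I (hall _)
      rcases Nat.mod_two_eq_zero_or_one l with e | e
      · rw [show 2 * k + l = 2 * (k + l / 2) by omega] at hl
        obtain ⟨t, _, ht⟩ := p1.1 hl
        exact ⟨_, by omega, ht⟩
      · rw [show 2 * k + l = 2 * (k + l / 2) + 1 by omega] at hl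
        obtain ⟨_, t, _, ht⟩ := (p2 hy).1 hl
        exact ⟨_, by omega, ht⟩
    obtain ⟨m, h9, h10⟩ := h8
    refine ⟨(hper.pa ok' ⟨m - u k, ?_⟩).1, (Cm.Pa.co ⟨m, h10⟩).symm⟩
    rw [h6, show u k + (m - u k) = m by omega, h10]
  · rintro ⟨p1, p2⟩
    obtain ⟨m, hm⟩ := (((H.dp.dp k hi hc).2.2.co.symm).trans p2.symm).pa ok' p1
    rw [wk_mod h7, h6] at hm
    have h8 : m % (u (k + L) - u k) < u (k + L) - u k := Nat.mod_lt _ (by omega)
    obtain ⟨j, j1, j2, j3⟩ := locate u k (u k + m % (u (k + L) - u k)) L (by omega) (by omega)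
    obtain ⟨o1, o2⟩ := I.one (k + j) (hall _)
    obtain ⟨_, _, q1, q2⟩ := F 0 (k + j) y hi hc I (hall _)
    generalize u k + m % (u (k + L) - u k) = r at hm j2 j3
    by_cases h9 : r ≤ u (k + j) + a (k + j)
    · refine ⟨2 * j, by omega, ?_⟩
      rw [show 2 * k + 2 * j = 2 * (k + j) by omega]
      exact q1.2 ⟨r - u (k + j), by omega, by rw [← hm]; congr 1; omega⟩
    · refine ⟨2 * j + 1, by omega, ?_⟩
      rw [show 2 * k + (2 * j + 1) = 2 * (k + j) + 1 by omega]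
      refine (q2 hy).2 ⟨fun e => ?_, r - (u (k + j) + a (k + j) + 1), by omega,
        by rw [← hm]; congr 1; omega⟩
      have := o1.hop e
      omega

theorem en_exit (H : K.H3 M M') {i c : ℕ} (hi : i < 2) (hc : M'.al c)
    (h : K.obj i (K.dp i c (K.nc + 1)) = M.n) :
    K.En' i c = K.P.En i (K.dp i c (K.nc + 1)) := by
  unfold Rn.En'
  rw [H.h2.good.al, if_pos hc, if_neg (by omega), H.h2.h1.hy.n, if_pos h]

theorem sel_obj (H : K.H3 M M') {i c : ℕ} (hi : i < 2) (hc : M'.al c)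
    (h : K.obj i (K.dp i c (K.nc + 1)) ≠ M.n) : K.sel (K.obj i c) :=
  ((H.h2.h1.sel.obj hi).1 ⟨rfl, lt_of_le_of_ne (H.h2.h1.sel.ole _ _) fun e =>
    h ((exit_iff H hi hc).2 ⟨c, Cm.Pa.refl _ _, e⟩)⟩).2.1

theorem en_stay (H : K.H3 M M') (F : K.PfK M M') {i c : ℕ} (hi : i < 2) (hc : M'.al c)
    (h : K.obj i (K.dp i c (K.nc + 1)) ≠ M.n) :
    K.En' i c = K.gd (K.obj i c) (lst K.nc fun t => ∀ m < K.nc,
      (if M'.Per i (K.gd (K.obj i c) t) ∧ M'.Co i (K.gd (K.obj i c) t) c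
        then K.gd (K.obj i c) t else M.n) ≤
      (if M'.Per i (K.gd (K.obj i c) m) ∧ M'.Co i (K.gd (K.obj i c) m) c
        then K.gd (K.obj i c) m else M.n)) := by
  have key : ∀ t < K.nc, (if K.onp i c (K.gd (K.obj i c) t) then K.gd (K.obj i c) t else M.n) =
      if M'.Per i (K.gd (K.obj i c) t) ∧ M'.Co i (K.gd (K.obj i c) t) c
        then K.gd (K.obj i c) t else M.n := by
    intro t ht
    rcases H.h2.good.gal (sel_obj H hi hc h) ht with e | e
    · rw [e]; simp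
    · simp only [(onp_iff H F hi hc h).2 _ e.1]
  unfold Rn.En'
  rw [H.h2.good.al, if_pos hc, if_neg (by omega), H.h2.h1.hy.n, if_neg h]
  congr 1
  unfold amin
  refine lst_congr fun t ht => ?_
  beta_reduce
  rw [key t ht]
  exact forall₂_congr fun m hm => by rw [key m hm]

theorem up (H : K.H3 M M') (F : K.PfK M M') {i c : ℕ} (hi : i < 2) (hc : M'.al c) :
    M'.Pa i c (K.En' i c) ∧ M'.Per i (K.En' i c) := by
  have ok' : M'.Ok := H.h2.h1.g1.hy.ok'
  have N := H.h2.h1.hy.geo.nm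
  obtain ⟨-, d1, d2⟩ := H.dp.dp (K.nc + 1) hi hc
  by_cases h : K.obj i (K.dp i c (K.nc + 1)) = M.n
  · rw [en_exit H hi hc h]
    have h1 := (free_pa H hi d1 h).2 (N.pa i (by omega) _ (al_old H d1))
    have h2 := h1.al ok' d1
    have h3 : K.obj i (K.P.En i (K.dp i c (K.nc + 1))) = M.n :=
      (H.dp.inv hi d1 h1).elim (fun e => e.trans h) id
    refine ⟨d2.trans h1, h2, ?_⟩
    obtain ⟨t, ht⟩ := (N.per i (by omega) _ (al_old H d1)).2
    exact ⟨t, by rw [← Cm.wk_succ', free H hi h2 h3, Cm.wk_succ', ht]⟩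
  · rw [en_stay H F hi hc h]
    have h1 : K.obj i (K.dp i c K.nc) < M.n := lt_of_le_of_ne (H.h2.h1.sel.ole _ _) fun e =>
      h ((exit_iff H hi hc).2 ⟨_, (H.dp.dp _ hi hc).2.2, e⟩)
    obtain ⟨t, t1, t2⟩ := H.h2.good.gex (sel_obj H hi hc h) (H.dp.cand hi hc h1) d1
    have h2 := (amin_spec (fun t => if M'.Per i (K.gd (K.obj i c) t) ∧
      M'.Co i (K.gd (K.obj i c) t) c then K.gd (K.obj i c) t else M.n) (by omega : 0 < K.nc)).2 t t1
    unfold amin at h2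
    have h3 := H.h2.h1.hy.ok.lt _ (al_old H d1)
    rw [t2, if_pos (⟨(onp_iff H F hi hc h).1, d2.co.symm⟩ : _ ∧ _)] at h2
    split_ifs at h2 with h4
    · exact ⟨h4.2.symm.pa ok' h4.1, h4.1⟩
    · omega

end KEn

open KEn in
theorem enS : EnS := by
  intro K M M' H F
  have ok := H.h2.h1.hy.ok
  have ok' : M'.Ok := H.h2.h1.g1.hy.ok'
  have N := H.h2.h1.hy.geo.nm
  have D := H.h2.h1.g1.down
  refine ⟨⟨fun i _ c hc => ?_, fun i hi c hc => ?_, fun i hi c hc => ?_, fun i hi c hc => ?_⟩,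
    fun {i c} hi hc h => ?_, fun {i c} hi hc h => ?_⟩
  · unfold Rn.En'
    rw [H.h2.good.al, if_neg hc, H.h2.h1.hy.n]
    exact H.h2.h1.g1.hy.smo.n.symm
  · by_cases h : i < 2
    · exact (up H F h hc).1
    · have hw : i = 2 ∨ i = 3 := by omega
      exact (D.pa hw hc).2 ⟨(down H hw hc).1, (down H hw hc).2.2⟩
  · by_cases h : i < 2
    · exact (up H F h hc).2
    · have hw : i = 2 ∨ i = 3 := by omega
      exact (D.per hw (down H hw hc).2.2).2 (down H hw hc).2.1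
  · have hc' := ok'.al_st i hc
    have hp := Cm.Pa.step (M := M') i c
    by_cases h : i < 2
    · have e : K.obj i (K.dp i (M'.st i c) (K.nc + 1)) = M.n ↔
          K.obj i (K.dp i c (K.nc + 1)) = M.n := by
        rw [exit_iff H h hc, exit_iff H h hc']
        refine ⟨fun ⟨u, h1, h2⟩ => ⟨u, hp.trans h1, h2⟩, fun ⟨u, h1, h2⟩ => ?_⟩
        rcases h1.cases with rfl | h1
        · exact ⟨_, Cm.Pa.refl _ _, (H.dp.inv h hc hp).elim (fun e => e.trans h2) id⟩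
        · exact ⟨u, h1, h2⟩
      by_cases h1 : K.obj i (K.dp i c (K.nc + 1)) = M.n
      · rw [en_exit H h hc h1, en_exit H h hc' (e.2 h1)]
        obtain ⟨-, d1, d2⟩ := H.dp.dp (K.nc + 1) h hc
        obtain ⟨-, d3, d4⟩ := H.dp.dp (K.nc + 1) h hc'
        rcases d2.tot (hp.trans d4) with h2 | h2
        · exact N.pa_eq ok hi (al_old H d1) ((free_pa H h d1 h1).1 h2)
        · exact (N.pa_eq ok hi (al_old H d3) ((free_pa H h d3 (e.2 h1)).1 h2)).symm
      · have h2 : K.obj i (M'.st i c) = K.obj i c := (H.dp.inv h hc hp).resolve_right fun e' =>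
          h1 ((exit_iff H h hc).2 ⟨_, hp, e'⟩)
        have h3 : ∀ y, M'.Co i y (M'.st i c) ↔ M'.Co i y c := fun y =>
          ⟨fun a => a.trans hp.co.symm, fun a => a.trans hp.co⟩
        rw [en_stay H F h hc h1, en_stay H F h hc' fun a => h1 (e.1 a), h2]
        simp only [h3]
    · have hw : i = 2 ∨ i = 3 := by omega
      have e := N.pa_eq ok hi (al_old H hc) ((D.pa hw hc).1 hp).1
      unfold Rn.En'
      rw [H.h2.good.al, if_pos hc, if_pos hc', if_pos (by omega), if_pos (by omega : 2 ≤ i), e]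
  · exact ((H.dp.inv hi hc (up H F hi hc).1).resolve_right h.ne).symm
  · by_cases h1 : i < 2
    · have h2 : K.obj i c = M.n := le_antisymm (H.h2.h1.sel.ole _ _)
        (not_lt.1 fun a => h ⟨h1, H.h2.h1.hy.n ▸ a⟩)
      obtain ⟨u, a, b, I⟩ := H.idx h1 hc
      have h3 : K.dp i c 0 = c := by rw [← I.dp 0, I.zero]; rfl
      have h4 : K.dp i c (K.nc + 1) = c := by
        rw [H.dp.stay h1 hc (k := 0) (by rw [h3, h2]) (Nat.zero_le _), h3]
      rw [en_exit H h1 hc (by rw [h4, h2]), h4]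
      exact N.idem ok hi (al_old H hc)
    · exact N.pa_eq ok hi (al_old H hc) (down H (by omega) hc).1

end Pool.Agent.MP_1a6d78_lc.PS

end MrgPart8

-- ======== part 9: formerly Pool.Agent.MP_1a6d78_lc.PS.KFe
section MrgPart9

/-! PROJECT PSC, row FE: the new primitive `FE` of the kill round. -/

namespace Pool.Agent.MP_1a6d78_lc.PS

open Classical ED PR GL Cm

namespace KFe

variable {K : Rn} {M M' : Cm} (H : K.H3 M M')
include H

theorem ok' : M'.Ok := H.h2.h1.g1.hy.ok'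

theorem nn : M'.n = M.n := H.h2.h1.g1.hy.smo.n

theorem al_of {p : ℕ} (k : M'.al p) : M.al p := ((H.h2.h1.g1.hy.smo.al p).1 k).1

/-- The walk leaves the selected basins: nothing changes. -/
theorem exit {i p s : ℕ} (hi : i < 2) (hs : s < 4) (k : M'.al p) (e : K.obj i p = M.n) :
    K.fe i p s = M'.FE i p s := by
  have hy := H.h2.h1.hy
  have k0 := al_of H k
  have fr := H.h2.h1.g1.smo.free hi k0 (fun x hx c => by
    have := (H.h2.h1.sel.obj hi).2 ⟨k0, hx, c⟩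
    omega)
  have w : ∀ t, M'.wk i p t = M.wk i p t := fun t => (fr t).2.1
  have ss : ∀ t, M'.ss i (M'.wk i p t) = M.ss i (M.wk i p t) := fun t => by
    rw [w]; exact (fr t).2.2
  rw [Rn.fe, if_pos (Or.inl (e.trans hy.n.symm)), hy.geo.FE i (by omega) s hs]
  rcases FE_le hy.ok i p s with c | c
  · rw [c, ← nn H]
    exact ((FE_none (ok' H) k).2 fun t => ss t ▸ (FE_none hy.ok k0).1 c t).symm
  · obtain ⟨-, t, t1, t2, t3⟩ := FE_spec hy.ok (hy.ok.lt _ c)
    rw [t1, FE_eq (ok' H) k ((ss t).trans t2) fun r hr => ss r ▸ t3 r hr, w]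

/-- One stage. -/
theorem stage {i p s a b : ℕ} (hi : i < 2) (hs : s < 4) (k : M'.al p) (e : K.obj i p < M.n)
    (O : K.One M M' i p a b) :
    (K.fe i p s < M.n ∧ K.fe i p s = M'.FE i p s) ∨
      (K.fe i p s = M.n ∧ ∀ t < a + 1 + b, M'.ss i (M'.wk i p t) ≠ s) := by
  have hy := H.h2.h1.hy
  have k0 := al_of H k
  have o : M.ok ⟨i, p, 0, K.dq i p⟩ := ⟨by show i < 4; omega, k0, a, O.q⟩
  have l : M.ln ⟨i, p, 0, K.dq i p⟩ = a := ln_eq hy.ok o O.q O.fst
  have ss : ∀ t < a, M'.ss i (M'.wk i p t) = M.ss i (M.wk i p t) := fun t ht => by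
    rw [O.old t ht.le]; exact O.ss t ht
  have on := hy.geo.On_iff hy.ok (y := M.FE i p s) hs o.wo
  unfold Rn.fe
  rw [hy.n, hy.geo.FE i (by omega) s hs, on]
  by_cases c : ∃ t < a, M.ss i (M.wk i p t) = s
  · obtain ⟨t, t1, t2, t3⟩ : ∃ t < a, M.ss i (M.wk i p t) = s ∧
        ∀ r < t, M.ss i (M.wk i p r) ≠ s :=
      ⟨Nat.find c, (Nat.find_spec c).1, (Nat.find_spec c).2, fun r hr u =>
        Nat.find_min c hr ⟨hr.trans (Nat.find_spec c).1, u⟩⟩
    have f := FE_eq hy.ok k0 t2 t3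
    rw [if_pos (Or.inr ⟨o, t + 1, by omega, f.symm, t2⟩)]
    refine Or.inl ⟨f ▸ hy.ok.lt _ (hy.ok.al_wk i k0 _), ?_⟩
    rw [f, FE_eq (ok' H) k ((ss t t1).trans t2) fun r hr => ss r (by omega) ▸ t3 r hr,
      O.old _ (by omega)]
  have c' : ∀ t < a, M'.ss i (M'.wk i p t) ≠ s := fun t ht u => c ⟨t, ht, ss t ht ▸ u⟩
  have q : M'.wk i p a = K.dq i p := (O.old a le_rfl).trans O.q
  rw [if_neg]
  · split_ifs with d
    · refine Or.inl ⟨?_, ?_⟩
      · rw [← O.g.1, ← nn H]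
        exact (ok' H).lt _ ((ok' H).al_wk i k _)
      · rw [FE_eq (ok' H) k (t := a) (by rw [q, O.g.2, d]) c', O.g.1]
    · refine Or.inr ⟨rfl, fun t ht => ?_⟩
      rcases lt_trichotomy t a with u | rfl | u
      · exact c' t u
      · rwa [q, O.g.2]
      · obtain ⟨r, rfl⟩ := Nat.exists_eq_add_of_lt u
        have w := O.wall fun v => by
          have := O.hop v
          omega
        have := (w.2.2.2 (r + 1) (by omega)).2.2
        rw [show a + 1 + (r + 1) = a + r + 1 + 1 by omega, sw_succ] at this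
        rwa [this, ← w.1, O.g.2]
  · rintro (u | ⟨-, t, t1, t2, t3⟩)
    · omega
    · cases t with
      | zero =>
        have t2 : p = M.FE i p s := t2
        obtain ⟨-, r, r1, -⟩ := FE_spec hy.ok (t2 ▸ hy.ok.lt _ k0 : M.FE i p s < M.n)
        exact (H.stage.q hi k e).2.2.2 ⟨k0, r, by rw [← wk_succ', ← r1, ← t2]⟩
      | succ t => exact c ⟨t, by omega, t3⟩

theorem up {i c s : ℕ} (hi : i < 2) (hs : s < 4) (k : M'.al c) :
    K.fe i (K.dp i c (lst (2 * (K.nc + 1)) fun l => K.fe i (K.dp i c l) s < M.n)) s =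
      M'.FE i c s := by
  obtain ⟨u, a, b, I⟩ := H.idx hi k
  have h := ok' H
  have al : ∀ l, M'.al (K.dp i c l) := fun l => (H.dp.dp l hi k).2.1
  have wk : ∀ l t, M'.wk i c (u l + t) = M'.wk i (K.dp i c l) t := fun l t => by
    rw [wk_add, I.dp]
  have cs : ∀ l, K.obj i (K.dp i c l) = M.n ∨ K.obj i (K.dp i c l) < M.n := fun l =>
    (H.h2.h1.sel.ole _ _).eq_or_lt
  have key : ∀ l, (∀ r < l, ¬K.fe i (K.dp i c r) s < M.n) →
      (∀ t, M'.ss i (M'.wk i c t) ≠ s) ∨ (l ≤ u l ∧ ∀ t < u l, M'.ss i (M'.wk i c t) ≠ s) := by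
    intro l
    induction l with
    | zero => exact fun _ => Or.inr ⟨Nat.zero_le _, fun t ht => by rw [I.zero] at ht; omega⟩
    | succ l ih =>
      intro Q
      rcases ih fun r hr => Q r (by omega) with v | ⟨v1, v⟩
      · exact Or.inl v
      have Ql := Q l (by omega)
      rcases cs l with e | e
      · rw [exit H hi hs (al l) e, ← nn H] at Ql
        have := (FE_none h (al l)).1 ((FE_le h i _ s).resolve_right fun z => Ql (h.lt _ z))
        refine Or.inl fun t => ?_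
        rcases lt_or_ge t (u l) with d | d
        · exact v t d
        · obtain ⟨r, rfl⟩ := Nat.exists_eq_add_of_le d
          rw [wk]
          exact this r
      · obtain ⟨O, e'⟩ := I.one l e
        have := ((stage H hi hs (al l) e O).resolve_left fun z => Ql z.1).2
        refine Or.inr ⟨by omega, fun t ht => ?_⟩
        rcases lt_or_ge t (u l) with d | d
        · exact v t d
        · obtain ⟨r, rfl⟩ := Nat.exists_eq_add_of_le d
          rw [wk]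
          exact this r (by omega)
  have val : ∀ l, K.fe i (K.dp i c l) s = M.n ∨
      K.fe i (K.dp i c l) s = M'.FE i (K.dp i c l) s := fun l =>
    (cs l).elim (fun e => Or.inr (exit H hi hs (al l) e)) fun e =>
      (stage H hi hs (al l) e (I.one l e).1).elim (fun z => Or.inr z.2) fun z => Or.inl z.1
  by_cases ex : ∃ l < 2 * (K.nc + 1), K.fe i (K.dp i c l) s < M.n
  · have s1 := lst_spec ex
    have s2 : ∀ r < lst (2 * (K.nc + 1)) fun l => K.fe i (K.dp i c l) s < M.n,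
        ¬K.fe i (K.dp i c r) s < M.n := fun r hr z =>
      absurd (lst_le (P := fun l => K.fe i (K.dp i c l) s < M.n) (hr.trans s1.1) z) (by omega)
    generalize (lst (2 * (K.nc + 1)) fun l => K.fe i (K.dp i c l) s < M.n) = l at s1 s2
    have e := (val l).resolve_left s1.2.ne
    obtain ⟨-, t, t1, t2, t3⟩ := FE_spec h (i := i) (c := K.dp i c l) (a := s)
      (by rw [← e, nn H]; exact s1.2)
    have v : ∀ t < u l, M'.ss i (M'.wk i c t) ≠ s := (key l s2).elim (fun z t _ => z t) fun z => z.2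
    rw [e, t1, ← wk, ← add_assoc]
    refine (FE_eq h k (by rw [wk]; exact t2) fun r hr => ?_).symm
    rcases lt_or_ge r (u l) with d | d
    · exact v r d
    · obtain ⟨r, rfl⟩ := Nat.exists_eq_add_of_le d
      rw [wk]
      exact t3 r (by omega)
  · have all : ∀ l, ¬K.fe i (K.dp i c l) s < M.n := by
      intro l
      induction l using Nat.strong_induction_on with
      | _ l ih =>
        by_cases d : l < 2 * (K.nc + 1)
        · exact fun z => ex ⟨l, d, z⟩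
        rcases cs K.nc with e | e
        · rw [H.dp.stay hi k e (by omega : K.nc ≤ l)]
          exact ih _ (by omega)
        · obtain ⟨s0, L, a1, a2, a3, a4⟩ := H.dp.per hi k e
          have := a4 (l - L) (by omega)
          rw [show l - L + L = l by omega] at this
          rw [this]
          exact ih _ (by omega)
    have e : M'.FE i c s = M'.n := (FE_none h k).2 fun t =>
      (key (t + 1) fun r _ => all r).elim (fun z => z t) fun z => z.2 t (by omega)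
    rw [e, nn H]
    generalize (lst (2 * (K.nc + 1)) fun l => K.fe i (K.dp i c l) s < M.n) = l
    rcases val l with z | z
    · exact z
    · rcases FE_le h i (K.dp i c l) s with y | y
      · rw [z, y, nn H]
      · exact absurd (by rw [z, ← nn H]; exact h.lt _ y) (all l)

end KFe

theorem feS : FeS := by
  intro K M M' H i hi a ha c
  unfold Rn.FE'
  rw [H.h2.good.al, H.h2.h1.hy.n]
  split_ifs with k d
  · exact H.h2.lam.fed (by omega) ha (Or.inl k)
  · exact KFe.up H (by omega) ha k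
  · rw [FE_dead k, KFe.nn H]

end Pool.Agent.MP_1a6d78_lc.PS

end MrgPart9

-- ======== part 10: formerly Pool.Agent.MP_1a6d78_lc.PS.KCov
section MrgPart10

/-! PROJECT PSC, row KCOV: the pieces cover the new segment. -/

namespace Pool.Agent.MP_1a6d78_lc.PS

open Classical ED PR GL Cm

noncomputable section

namespace KCov

variable {M M' : Cm} {A : Sg}

/-- The piece `X` of `M` carries the indices `lo .. hi` of the segment `A` of `M'`. -/
structure Pc (M M' : Cm) (A X : Sg) (r : Bool) (lo hi : ℕ) : Prop where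
  le : hi ≤ M'.ln A
  ok : M.ok X
  ps : ∀ y c, M.Ps X y c ∧ M'.al y ↔ ∃ t, lo ≤ t ∧ t ≤ hi ∧ M'.el A t = y ∧ M'.sv A t = c
  dead : ∀ y c, M.Ps X y c → ¬M'.al y → c = 2
  bo : ∀ y y', M'.al y → M'.al y' → M.Bo (!r) X y y' → M'.Bf A y y'

theorem glue (a : ℕ) (X : ℕ → Sg) (rv : ℕ → Bool) (N : ℕ)
    (I : ℕ → ℕ → ℕ → Prop) (h1 : ∀ k ≤ N, ¬M.al (X k).p ∨ ∃ lo hi, I k lo hi)
    (h2 : ∀ k lo hi, k ≤ N → I k lo hi → Pc M M' A (X k) (rv k) lo hi)
    (h3 : ∀ k k' lo hi lo' hi', k < k' → k' ≤ N → I k lo hi → I k' lo' hi' → hi ≤ lo')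
    (h4 : ∀ t ≤ M'.ln A, ∃ k ≤ N, ∃ lo hi, I k lo hi ∧ lo ≤ t ∧ t ≤ hi) :
    Cov M M' 2 a A X rv (N + 1) := by
  have g : ∀ k < N + 1, M.ok (X k) → ∃ lo hi, I k lo hi := fun k hk ok =>
    (h1 k (by omega)).resolve_left fun c => c ok.2.1
  refine ⟨fun k hk al => ?_, fun y ⟨t, t1, t2, t3⟩ => ?_, fun k hk y ok p => ?_,
    fun k k' y y' kk hk ok ok' p p' al al' => ?_, fun k hk y y' ok _ _ al al' b => ?_⟩
  · obtain ⟨lo, hi, i⟩ := (h1 k (by omega)).resolve_left fun c => c al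
    exact (h2 k lo hi (by omega) i).ok
  · obtain ⟨k, hk, lo, hi, i, l1, l2⟩ := h4 t t1
    have P := h2 k lo hi hk i
    exact ⟨k, by omega, P.ok, ((P.ps y a).2 ⟨t, l1, l2, t2, t3⟩).1⟩
  · obtain ⟨lo, hi, i⟩ := g k hk ok
    have P := h2 k lo hi (by omega) i
    by_cases al : M'.al y
    · obtain ⟨t, -, l2, t2, t3⟩ := (P.ps y a).1 ⟨p, al⟩
      exact Or.inl ⟨t, l2.trans P.le, t2, t3⟩
    · exact Or.inr ⟨al, P.dead y a p al⟩
  · obtain ⟨lo, hi, i⟩ := g k (by omega) ok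
    obtain ⟨lo', hi', i'⟩ := g k' hk ok'
    have P := h2 k lo hi (by omega) i
    have P' := h2 k' lo' hi' (by omega) i'
    obtain ⟨t, -, l2, t2, -⟩ := (P.ps y a).1 ⟨p, al⟩
    obtain ⟨t', l1, l3, t2', -⟩ := (P'.ps y' a).1 ⟨p', al'⟩
    have := h3 k k' lo hi lo' hi' kk (by omega) i i'
    exact ⟨t, t', by omega, l3.trans P'.le, t2, t2'⟩
  · obtain ⟨lo, hi, i⟩ := g k hk ok
    exact (h2 k lo hi (by omega) i).bo y y' al al' b

theorem even (h : M.Ok) (h' : M'.Ok) (o : M'.ok A) (al : ∀ c, M'.al c → M.al c) {lo len : ℕ}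
    (hl : lo + len ≤ M'.ln A)
    (old : ∀ t ≤ len, M'.wk A.i (M'.el A lo) t = M.wk A.i (M'.el A lo) t)
    (ss : ∀ t < len, M'.ss A.i (M.wk A.i (M'.el A lo) t) = M.ss A.i (M.wk A.i (M'.el A lo) t)) :
    Pc M M' A ⟨A.i, M'.el A lo, M'.sv A lo, M'.el A (lo + len)⟩ false lo (lo + len) := by
  have e : ∀ t ≤ len, M.wk A.i (M'.el A lo) t = M'.el A (lo + t) := fun t ht => by
    rw [← old t ht]; exact (wk_add _ _ _ _).symm
  have ok : M.ok ⟨A.i, M'.el A lo, M'.sv A lo, M'.el A (lo + len)⟩ :=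
    ⟨o.1, al _ (el_al h' o lo), len, e len le_rfl⟩
  have ln : M.ln ⟨A.i, M'.el A lo, M'.sv A lo, M'.el A (lo + len)⟩ = len :=
    ln_eq h ok (e len le_rfl) fun t ht c => by
      have := el_inj h' o (s := lo + t) (t := lo + len) (by omega) hl ((e t ht.le).symm.trans c)
      omega
  have sv : ∀ t ≤ len, M.sv ⟨A.i, M'.el A lo, M'.sv A lo, M'.el A (lo + len)⟩ t =
      M'.sv A (lo + t) := by
    intro t ht
    cases t with
    | zero => rfl
    | succ t =>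
      show M.ss A.i (M.wk A.i (M'.el A lo) t) = M'.ss A.i (M'.el A (lo + t))
      rw [← ss t (by omega), e t (by omega)]
  refine ⟨hl, ok, fun y c => ⟨fun ⟨⟨t, t1, t2, t3⟩, _⟩ => ?_, fun ⟨t, t1, t2, t3, t4⟩ => ?_⟩,
    fun y c ⟨t, t1, t2, _⟩ d => ?_, fun y y' _ _ ⟨t, t', t1, t2, t3, t4⟩ => ?_⟩
  · rw [ln] at t1
    exact ⟨lo + t, by omega, by omega, (e t t1).symm.trans t2, (sv t t1).symm.trans t3⟩
  · obtain ⟨r, rfl⟩ := Nat.exists_eq_add_of_le t1
    exact ⟨⟨r, by rw [ln]; omega, (e r (by omega)).trans t3, (sv r (by omega)).trans t4⟩,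
      t3 ▸ el_al h' o _⟩
  · rw [ln] at t1
    exact absurd (((e t t1).symm.trans t2) ▸ el_al h' o (lo + t)) d
  · rw [ln] at t2
    exact ⟨lo + t, lo + t', by omega, by omega, (e t (by omega)).symm.trans t3,
      (e t' t2).symm.trans t4⟩

theorem odd {Z : Ks} (D : Z.DownK) (h' : Z.M'.Ok) (o : Z.M'.ok A) {w σ lo len : ℕ}
    (hw : w = 2 ∨ w = 3) (hl : lo + len ≤ Z.M'.ln A)
    (rev : ∀ t ≤ len, Z.M'.wk w (Z.M'.el A (lo + len)) t = Z.M'.el A (lo + (len - t)))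
    (side : ∀ t < len, Z.M'.ss w (Z.M'.wk w (Z.M'.el A (lo + len)) t) = σ)
    (S : ∀ t ≤ len, Z.M'.sv A (lo + t) = σ) :
    Pc Z.M Z.M' A ⟨w, Z.M'.el A (lo + len), σ, Z.M'.el A lo⟩ true lo (lo + len) := by
  have e0 : Z.M'.wk w (Z.M'.el A (lo + len)) len = Z.M'.el A lo := by
    rw [rev len le_rfl, Nat.sub_self, add_zero]
  have ok : Z.M'.ok ⟨w, Z.M'.el A (lo + len), σ, Z.M'.el A lo⟩ :=
    ⟨by show w < 4; omega, el_al h' o _, len, e0⟩
  have ln : Z.M'.ln ⟨w, Z.M'.el A (lo + len), σ, Z.M'.el A lo⟩ = len :=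
    ln_eq h' ok e0 fun t ht c => by
      have := el_inj h' o (s := lo + (len - t)) (t := lo) (by omega) (by omega)
        ((rev t ht.le).symm.trans c)
      omega
  have sv : ∀ t ≤ len, Z.M'.sv ⟨w, Z.M'.el A (lo + len), σ, Z.M'.el A lo⟩ t = σ := by
    intro t ht
    cases t with
    | zero => rfl
    | succ t => exact side t (by omega)
  obtain ⟨d1, d2, d3, d4⟩ := D.ps (A := ⟨w, Z.M'.el A (lo + len), σ, Z.M'.el A lo⟩) hw ok
  refine ⟨hl, d1, fun y c => ?_, d3, fun y y' a a' b => ?_⟩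
  · rw [← d2]
    refine ⟨fun ⟨t, t1, t2, t3⟩ => ?_, fun ⟨t, t1, t2, t3, t4⟩ => ?_⟩
    · rw [ln] at t1
      exact ⟨lo + (len - t), by omega, by omega, (rev t t1).symm.trans t2,
        (S _ (by omega)).trans ((sv t t1).symm.trans t3)⟩
    · obtain ⟨r, rfl⟩ := Nat.exists_eq_add_of_le t1
      refine ⟨len - r, by rw [ln]; omega, (rev _ (by omega)).trans ?_,
        (sv _ (by omega)).trans ((S r (by omega)).symm.trans t4)⟩
      rw [show len - (len - r) = r by omega, t3]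
  · obtain ⟨t, t', t1, t2, t3, t4⟩ := (d4 y' y a' a).2 b
    rw [ln] at t2
    exact ⟨lo + (len - t'), lo + (len - t), by omega, by omega, (rev t' t2).symm.trans t4,
      (rev t (by omega)).symm.trans t3⟩

variable {K : Rn} {u a b : ℕ → ℕ}

theorem ex_np (H : K.H3 M M') (P : K.PfK M M') (o : M'.ok A) (hi : A.i < 2)
    (X : K.Idx M M' A.i A.p u a b) : ∃ k < 4 * (K.nc + 1),
      K.obj A.i (K.dp A.i A.p (k / 2)) = K.n ∨ K.P.OnC K.n A.q (K.pf A.i A.p A.s k) := by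
  have n : K.n = M.n := H.h2.h1.hy.n
  have h' : M'.Ok := H.h2.h1.g1.hy.ok'
  by_cases e : K.obj A.i (K.dp A.i A.p K.nc) = M.n
  · exact ⟨2 * K.nc, by omega, Or.inl (by rw [Nat.mul_div_cancel_left _ (by omega), e, n])⟩
  have lt : ∀ l, K.obj A.i (K.dp A.i A.p l) < M.n := fun l =>
    lt_of_le_of_ne (H.h2.h1.sel.ole _ _) fun c =>
      e (H.dp.exit hi o.2.1 (H.dp.dp l hi o.2.1).2.2 c)
  obtain ⟨s, d, s1, d0, d1, per⟩ := H.dp.per hi o.2.1 (lt _)
  have st := fun l => (X.one l (lt l)).2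
  have mono : StrictMono u := strictMono_nat_of_lt_succ fun l => by rw [st l]; omega
  obtain ⟨-, l1, l2⟩ := ln_spec h' o
  have hL : M'.ln A < u (s + d) := by
    by_contra c
    obtain ⟨r, hr⟩ := Nat.exists_eq_add_of_le (not_lt.1 c)
    have : u s < u (s + d) := mono (by omega)
    refine l2 (u s + r) (by omega) ?_
    rw [← l1, hr]
    show M'.wk A.i A.p _ = M'.wk A.i A.p _
    rw [wk_add, wk_add, X.dp, X.dp, per s le_rfl]
  have cov : ∀ l, M'.ln A < u l → ∃ k < 2 * l, K.P.OnC K.n A.q (K.pf A.i A.p A.s k) := by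
    intro l
    induction l with
    | zero => intro c; rw [X.zero] at c; omega
    | succ l ih =>
      intro c
      rcases lt_or_ge (M'.ln A) (u l) with g | g
      · obtain ⟨k, k1, k2⟩ := ih g
        exact ⟨k, by omega, k2⟩
      obtain ⟨-, -, p1, p2⟩ := P A.s l A.q hi o.2.1 X (lt l)
      rcases le_or_gt (M'.ln A) (u l + a l) with g' | g'
      · refine ⟨2 * l, by omega, p1.2 ⟨M'.ln A - u l, by omega, ?_⟩⟩
        rw [show u l + (M'.ln A - u l) = M'.ln A by omega]; exact l1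
      · have := st l
        refine ⟨2 * l + 1, by omega, (p2 (l1 ▸ el_al h' o _)).2 ⟨fun hp => ?_,
          M'.ln A - (u l + a l + 1), by omega, ?_⟩⟩
        · have := (X.one l (lt l)).1.hop hp
          omega
        · rw [show u l + a l + 1 + (M'.ln A - (u l + a l + 1)) = M'.ln A by omega]; exact l1
  obtain ⟨k, k1, k2⟩ := cov _ hL
  exact ⟨k, by omega, Or.inr k2⟩

theorem evenP (H : K.H3 M M') (o : M'.ok A) (X : K.Idx M M' A.i A.p u a b) {l len : ℕ}
    (pre : ∀ l' < l, K.obj A.i (K.dp A.i A.p l') < M.n) (hl : u l + len ≤ M'.ln A)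
    (old : ∀ t ≤ len, M'.wk A.i (K.dp A.i A.p l) t = M.wk A.i (K.dp A.i A.p l) t)
    (ss : ∀ t < len, M'.ss A.i (M.wk A.i (K.dp A.i A.p l) t) = M.ss A.i (M.wk A.i (K.dp A.i A.p l) t)) :
    Pc M M' A ⟨A.i, K.dp A.i A.p l, K.ds A.i A.p A.s l, M'.el A (u l + len)⟩ false (u l)
      (u l + len) := by
  have e : M'.el A (u l) = K.dp A.i A.p l := X.dp l
  have := even H.h2.h1.hy.ok H.h2.h1.g1.hy.ok' o
    (fun c k => ((H.h2.h1.g1.hy.smo.al c).1 k).1) hl (by rw [e]; exact old) (by rw [e]; exact ss)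
  rwa [e, sv_sw, ← X.ds l A.s pre] at this

theorem oddP (H : K.H3 M M') (o : M'.ok A) (hi : A.i < 2) (X : K.Idx M M' A.i A.p u a b)
    {l len : ℕ} (lt : K.obj A.i (K.dp A.i A.p l) < M.n) (hp : ¬K.hp A.i (K.dp A.i A.p l))
    (hb : len ≤ b l) (hl : u l + a l + 1 + len ≤ M'.ln A) :
    Pc M M' A ⟨3 - A.i, M'.el A (u l + a l + 1 + len), hs A.i, K.dg A.i (K.dp A.i A.p l) / 4⟩ true
      (u l + a l + 1) (u l + a l + 1 + len) := by
  have O := (X.one l lt).1
  obtain ⟨-, -, -, w⟩ := O.wall hp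
  have e : ∀ t, M'.el A (u l + a l + 1 + t) = M'.wk A.i (K.dp A.i A.p l) (a l + 1 + t) := fun t => by
    show M'.wk A.i A.p _ = _
    rw [← X.dp, ← wk_add]; congr 1; omega
  have e1 : ∀ t ≤ len, M'.wk (3 - A.i) (M'.el A (u l + a l + 1 + len)) t =
      M'.wk (3 - A.i) (K.db A.i (K.dp A.i A.p l)) (b l - (len - t)) := fun t ht => by
    rw [e, ← (w len hb).1, ← wk_add]; congr 1; omega
  have := odd (Z := K.ks M M') (A := A) H.h2.h1.g1.down H.h2.h1.g1.hy.ok' o (w := 3 - A.i)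
    (σ := hs A.i) (lo := u l + a l + 1) (len := len) (by omega) hl
    (fun t ht => (e1 t ht).trans ((w _ (by omega)).1.trans (e _).symm))
    (fun t ht => by
      have := (w (b l - (len - t) + 1) (by omega)).2.1
      rw [sw_succ, ← e1 t ht.le] at this
      exact this)
    (fun t ht => by
      have := (w t (by omega)).2.2
      rw [show a l + 1 + t = a l + t + 1 by omega, sw_succ, ← X.dp, ← wk_add] at this
      show M'.sv A _ = _
      rw [show u l + a l + 1 + t = u l + (a l + t) + 1 by omega]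
      exact this)
  have e2 : M'.el A (u l + a l + 1) = K.dg A.i (K.dp A.i A.p l) / 4 := (e 0).trans O.g.1
  rw [← e2]
  exact this

theorem up (H : K.H3 M M') (P : K.PfK M M') (o : M'.ok A) (hi : A.i < 2) (c : ℕ) :
    Cov M M' 2 c A (K.pc A c) (Rn.rv A) (K.np A + 1) := by
  obtain ⟨u, a, b, X⟩ := H.idx hi o.2.1
  have n : K.n = M.n := H.h2.h1.hy.n
  have h : M.Ok := H.h2.h1.hy.ok
  have h' : M'.Ok := H.h2.h1.g1.hy.ok'
  have i2 : ¬2 ≤ A.i := by omega
  obtain ⟨N1, N2⟩ := lst_spec (ex_np H P o hi X)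
  have N3 := fun k (hk : k < 4 * (K.nc + 1)) => lst_le (P := fun k =>
    K.obj A.i (K.dp A.i A.p (k / 2)) = K.n ∨ K.P.OnC K.n A.q (K.pf A.i A.p A.s k)) hk
  have eN : K.np A = _ := if_neg i2
  rw [← eN] at N1 N2 N3
  have pcN : ∀ k, K.pc A c k = if k = K.np A then
      (if k % 2 = 0 then ⟨A.i, K.dp A.i A.p (k / 2), K.ds A.i A.p A.s (k / 2), A.q⟩
      else ⟨3 - A.i, A.q, hs A.i, K.dg A.i (K.dp A.i A.p (k / 2)) / 4⟩)
      else K.pf A.i A.p A.s k := fun k => if_neg i2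
  clear eN
  generalize K.np A = N at N1 N2 N3 pcN ⊢
  have d0 : ∀ l : ℕ, 2 * l / 2 = l := fun l => by omega
  have d1 : ∀ l : ℕ, (2 * l + 1) / 2 = l := fun l => by omega
  have m0 : ∀ l : ℕ, 2 * l % 2 = 0 := fun l => by omega
  have m1 : ∀ l : ℕ, ¬(2 * l + 1) % 2 = 0 := fun l => by omega
  have r0 : ∀ l : ℕ, Rn.rv A (2 * l) = false := fun l => decide_eq_false (by omega)
  have r1 : ∀ l : ℕ, Rn.rv A (2 * l + 1) = true := fun l => decide_eq_true (by omega)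
  have bef : ∀ k < N, ¬(K.obj A.i (K.dp A.i A.p (k / 2)) = K.n ∨
      K.P.OnC K.n A.q (K.pf A.i A.p A.s k)) := fun k hk e => by
    have := N3 k (by omega) e
    omega
  have lt : ∀ l, 2 * l < N → K.obj A.i (K.dp A.i A.p l) < M.n := fun l hl =>
    lt_of_le_of_ne (H.h2.h1.sel.ole _ _) fun e => bef _ hl (Or.inl (by rw [d0, e, n]))
  obtain ⟨-, l1, l2⟩ := ln_spec h' o
  have alq : M'.al A.q := l1 ▸ el_al h' o _
  have st := fun l (hl : 2 * l < N) => (X.one l (lt l hl)).2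
  have q0 : ∀ l, 2 * l < N → u l ≤ M'.ln A → u l + a l < M'.ln A := fun l hl g => by
    by_contra e
    refine bef _ hl (Or.inr ((P A.s l A.q hi o.2.1 X (lt l hl)).2.2.1.2
      ⟨M'.ln A - u l, by omega, ?_⟩))
    rw [show u l + (M'.ln A - u l) = M'.ln A by omega]; exact l1
  have q1 : ∀ l, 2 * l + 1 < N → u l ≤ M'.ln A → u (l + 1) ≤ M'.ln A := fun l hl g => by
    have g0 := q0 l (by omega) g
    have g1 := st l (by omega)
    by_contra e
    refine bef _ hl (Or.inr (((P A.s l A.q hi o.2.1 X (lt l (by omega))).2.2.2 alq).2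
      ⟨fun hp => ?_, M'.ln A - (u l + a l + 1), by omega, ?_⟩))
    · have := (X.one l (lt l (by omega))).1.hop hp
      omega
    · rw [show u l + a l + 1 + (M'.ln A - (u l + a l + 1)) = M'.ln A by omega]; exact l1
  have q2 : ∀ l, 2 * l ≤ N → u l ≤ M'.ln A := by
    intro l
    induction l with
    | zero => intro _; rw [X.zero]; omega
    | succ l ih => exact fun hl => q1 l (by omega) (ih (by omega))
  have mono : ∀ l l', l ≤ l' → 2 * l' ≤ N → u l ≤ u l' := by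
    intro l l' ll
    induction ll with
    | refl => exact fun _ => le_rfl
    | @step l' _ ih =>
      intro hl
      have := st l' (by omega)
      have := ih (by omega)
      show u l ≤ u (l' + 1)
      omega
  have last : ∀ l, 2 * l + 1 = N → ¬K.hp A.i (K.dp A.i A.p l) ∧
      M'.ln A ≤ u l + a l + 1 + b l := fun l hl => by
    rw [← hl, d1, n] at N2
    have := N2.resolve_left (lt l (by omega)).ne
    rw [← n] at this
    obtain ⟨hp, t, t1, t2⟩ := ((P A.s l A.q hi o.2.1 X (lt l (by omega))).2.2.2 alq).1 this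
    exact ⟨hp, by by_contra e; exact l2 _ (by omega) t2⟩
  refine glue c _ _ N (fun k lo hi => ∃ l,
    (k = 2 * l ∧ lo = u l ∧ ((k = N ∧ hi = M'.ln A) ∨ (k < N ∧ hi = u l + a l))) ∨
    (k = 2 * l + 1 ∧ ¬K.hp A.i (K.dp A.i A.p l) ∧ lo = u l + a l + 1 ∧
      ((k = N ∧ hi = M'.ln A) ∨ (k < N ∧ hi = u (l + 1))))) (fun k hk => ?_) ?_ ?_ fun t ht => ?_
  · obtain ⟨l, rfl | rfl⟩ := Nat.even_or_odd' k
    · rcases hk.eq_or_lt with e | e
      exacts [Or.inr ⟨_, _, l, Or.inl ⟨rfl, rfl, Or.inl ⟨e, rfl⟩⟩⟩,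
        Or.inr ⟨_, _, l, Or.inl ⟨rfl, rfl, Or.inr ⟨e, rfl⟩⟩⟩]
    · rcases hk.eq_or_lt with e | e
      · exact Or.inr ⟨_, _, l, Or.inr ⟨rfl, (last l e).1, rfl, Or.inl ⟨e, rfl⟩⟩⟩
      · by_cases hp : K.hp A.i (K.dp A.i A.p l)
        · left
          rw [pcN, if_neg e.ne, Rn.pf, if_neg (m1 l), d1, if_pos hp, n]
          exact h.not_al_n
        · exact Or.inr ⟨_, _, l, Or.inr ⟨rfl, hp, rfl, Or.inr ⟨e, rfl⟩⟩⟩
  · rintro k lo hi' hk ⟨l, ⟨rfl, rfl, ⟨e, rfl⟩ | ⟨e, rfl⟩⟩ | ⟨rfl, hp, rfl, ⟨e, rfl⟩ | ⟨e, rfl⟩⟩⟩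
    · rw [pcN, if_pos e, if_pos (m0 l), d0, r0]
      obtain ⟨r, hr⟩ := Nat.exists_eq_add_of_le (q2 l hk)
      have pre : ∀ l' < l, K.obj A.i (K.dp A.i A.p l') < M.n := fun l' h => lt l' (by omega)
      rw [← l1, hr]
      by_cases z : K.obj A.i (K.dp A.i A.p l) = M.n
      · have al := (H.dp.dp l hi o.2.1).2.1
        have al0 := ((H.h2.h1.g1.hy.smo.al _).1 al).1
        have f := H.h2.h1.g1.smo.free hi al0 fun x sx co => by
          have := (H.h2.h1.sel.obj hi).2 ⟨al0, sx, co⟩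
          omega
        exact evenP H o X pre hr.ge (fun t _ => (f t).2.1) fun t _ => (f t).2.2
      · have z' := lt_of_le_of_ne (H.h2.h1.sel.ole _ _) z
        rw [← e, d0, n] at N2
        have := N2.resolve_left z
        rw [← n] at this
        obtain ⟨t, t1, t2⟩ := (P A.s l A.q hi o.2.1 X z').2.2.1.1 this
        have : r ≤ a l := by by_contra g; exact l2 _ (by omega) t2
        have O := (X.one l z').1
        exact evenP H o X pre hr.ge (fun t _ => O.old t (by omega)) fun t _ => O.ss t (by omega)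
    · rw [pcN, if_neg e.ne, Rn.pf, if_pos (m0 l), d0, r0]
      have O := (X.one l (lt l e)).1
      have e1 : M'.el A (u l + a l) = K.dq A.i (K.dp A.i A.p l) := by
        show M'.wk A.i A.p _ = _
        rw [wk_add, X.dp, O.old _ le_rfl, O.q]
      rw [← e1]
      exact evenP H o X (fun l' h => lt l' (by omega)) (q0 l e (q2 l hk)).le O.old O.ss
    · rw [pcN, if_pos e, if_neg (m1 l), d1, r1]
      obtain ⟨r, hr⟩ := Nat.exists_eq_add_of_le
        (Nat.succ_le_of_lt (q0 l (by omega) (q2 l (by omega))))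
      have := (last l e).2
      rw [← l1, hr]
      exact oddP H o hi X (lt l (by omega)) hp (by omega) hr.ge
    · rw [pcN, if_neg e.ne, Rn.pf, if_neg (m1 l), d1, if_neg hp, r1]
      have O := (X.one l (lt l (by omega))).1
      have s1 := st l (by omega)
      have e1 : M'.el A (u l + a l + 1 + b l) = K.db A.i (K.dp A.i A.p l) := by
        have := ((O.wall hp).2.2.2 (b l) le_rfl).1
        rw [Nat.sub_self, wk_zero] at this
        show M'.wk A.i A.p _ = _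
        rw [this, ← X.dp, ← wk_add]; congr 1; omega
      rw [← e1, s1]
      exact oddP H o hi X (lt l (by omega)) hp le_rfl (s1 ▸ q1 l e (q2 l (by omega)))
  · rintro k k' lo hi' lo' hi'' kk hk ⟨l, p⟩ ⟨l', p'⟩
    have g : l < l' → 2 * l' ≤ N → u l + a l + 1 + b l = u (l + 1) ∧ u (l + 1) ≤ u l' :=
      fun g1 g2 => ⟨(st l (by omega)).symm, mono _ _ g1 g2⟩
    rcases lt_trichotomy l l' with z | rfl | z
    · have := g z (by omega)
      omega
    · omega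
    · omega
  · have cov : ∀ l, 2 * l ≤ N → t < u l → ∃ l' < l, (u l' ≤ t ∧ t ≤ u l' + a l') ∨
        (¬K.hp A.i (K.dp A.i A.p l') ∧ u l' + a l' + 1 ≤ t ∧ t ≤ u (l' + 1)) := by
      intro l
      induction l with
      | zero => intro _ c; rw [X.zero] at c; omega
      | succ l ih =>
        intro hl g
        rcases lt_or_ge t (u l) with g1 | g1
        · obtain ⟨l', a1, a2⟩ := ih (by omega) g1
          exact ⟨l', by omega, a2⟩
        rcases le_or_gt t (u l + a l) with g2 | g2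
        · exact ⟨l, by omega, Or.inl ⟨g1, g2⟩⟩
        · refine ⟨l, by omega, Or.inr ⟨fun hp => ?_, g2, g.le⟩⟩
          have := (X.one l (lt l (by omega))).1.hop hp
          have := st l (by omega)
          omega
    rcases lt_or_ge t (u (N / 2)) with g | g
    · obtain ⟨l, a1, a2 | a2⟩ := cov _ (by omega) g
      · exact ⟨2 * l, by omega, _, _, ⟨l, Or.inl ⟨rfl, rfl, Or.inr ⟨by omega, rfl⟩⟩⟩, a2⟩
      · exact ⟨2 * l + 1, by omega, _, _,
          ⟨l, Or.inr ⟨rfl, a2.1, rfl, Or.inr ⟨by omega, rfl⟩⟩⟩, a2.2⟩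
    · obtain ⟨l, e | e⟩ := Nat.even_or_odd' N
      · rw [e, d0] at g
        exact ⟨N, le_rfl, _, _, ⟨l, Or.inl ⟨e, rfl, Or.inl ⟨rfl, rfl⟩⟩⟩, g, ht⟩
      · rw [e, d1] at g
        rcases le_or_gt t (u l + a l) with g2 | g2
        · exact ⟨2 * l, by omega, _, _, ⟨l, Or.inl ⟨rfl, rfl, Or.inr ⟨by omega, rfl⟩⟩⟩, g, g2⟩
        · exact ⟨N, le_rfl, _, _, ⟨l, Or.inr ⟨e, (last l e.symm).1, rfl, Or.inl ⟨rfl, rfl⟩⟩⟩, g2, ht⟩

end KCov

theorem covS : CovS := by
  intro K M M' H P A a _ o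
  rcases lt_or_ge A.i 2 with hi | hi
  · exact KCov.up H P o hi a
  · have i4 := o.1
    obtain ⟨d1, d2, d3, d4⟩ := H.h2.h1.g1.down.ps (A := A) (by omega) o
    have e1 : K.np A = 0 := if_pos hi
    have e2 : K.pc A a 0 = A := if_pos hi
    have e3 : Rn.rv A 0 = false := decide_eq_false (by omega)
    rw [e1]
    refine cov_one (by rw [e2]; exact d1) (fun y p => by rw [e2]; exact ((d2 y a).1 p).1)
      (fun y p => ?_) fun y y' _ _ al al' b => ?_
    · rw [e2] at p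
      by_cases al : M'.al y
      exacts [Or.inl ((d2 y a).2 ⟨p, al⟩), Or.inr ⟨al, d3 y a p al⟩]
    · rw [e2, e3] at b
      exact (d4 y y' al al').2 b

end

end Pool.Agent.MP_1a6d78_lc.PS

end MrgPart10

-- ======== part 11: formerly Pool.Agent.MP_1a6d78_lc.PS.KAll
section MrgPart11

/-! PROJECT PSC: the kill round is correct. -/

namespace Pool.Agent.MP_1a6d78_lc.PS

theorem killS : KillS :=
  kill_of flowS prbS deadS smoS downS runS ascS wallS meetS valS ancS selS goodS lamS stageS dpS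
    idxS pfS enS feS covS listS

end Pool.Agent.MP_1a6d78_lc.PS

end MrgPart11

-- marker of a merged file
example : 731051 + 132305 = 731051 + 132305 := rfl
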