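import Pool.Agent.MP_1a6d78_lc.PS.Flow
import Pool.Agent.MP_1a6d78_lc.PS.Drop
import Pool.Agent.MP_1a6d78_lc.PS.KList
import Pool.Agent.MP_1a6d78_lc.PS.FStep
import Pool.Agent.MP_1a6d78_lc.PS.CutF
import Pool.Agent.MP_1a6d78_lc.PS.KAll

-- ======== part 0: formerly Pool.Agent.MP_1a6d78_lc.PS.AlgM
section MrgPart0

/-! PROJECT PSC: the machine: oracle coding, level 0, the step, the potential; computability. -/

namespace Pool.Agent.MP_1a6d78_lc.PS

open Classical ED PR SC GL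

noncomputable section

def Sg.clip (A : Sg) (q : ℕ) : Sg := ⟨min A.i q, min A.p q, min A.s q, min A.q q⟩

def Pr.clip (P : Pr) (q : ℕ) : Pr where
  al c := P.al (min c q)
  lam p := min (P.lam (min p q)) q
  En i c := min (P.En (min i q) (min c q)) q
  FE i c a := min (P.FE (min i q) (min c q) (min a q)) q
  F fl a b A B := min (P.F fl (min a q) (min b q) (A.clip q) (B.clip q)) q
  next z := min (P.next (min z q)) q
  cur e := min (P.cur (min e q)) q
  rs := min P.rs q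

/-- A call of the oracle. -/
def ask (q : ℕ) (g : Orc) (l : List ℕ) : ℕ := g (l.map fun a => min a q)

/-- The primitives read from an oracle. -/
def ofO (q : ℕ) (g : Orc) : Pr where
  al c := ask q g [0, c] ≠ 0
  lam p := ask q g [1, p]
  En i c := ask q g [2, i, c]
  FE i c a := ask q g [3, i, c, a]
  F fl a b A B := ask q g [4, if fl = true then 1 else 0, a, b, A.i, A.p, A.s, A.q, B.i, B.p, B.s, B.q]
  next z := ask q g [5, z]
  cur e := ask q g [6, e]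
  rs := ask q g [7]

/-- The primitives as one function. -/
def toO (q : ℕ) (P : Pr) (l : List ℕ) : ℕ :=
  if gt l 0 = 0 then (if P.al (gt l 1) then 1 else 0)
  else min (if gt l 0 = 1 then P.lam (gt l 1)
    else if gt l 0 = 2 then P.En (gt l 1) (gt l 2)
    else if gt l 0 = 3 then P.FE (gt l 1) (gt l 2) (gt l 3)
    else if gt l 0 = 4 then P.F (decide (gt l 1 = 1)) (gt l 2) (gt l 3)
      ⟨gt l 4, gt l 5, gt l 6, gt l 7⟩ ⟨gt l 8, gt l 9, gt l 10, gt l 11⟩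
    else if gt l 0 = 5 then P.next (gt l 1) else if gt l 0 = 6 then P.cur (gt l 1) else P.rs) q

/-- The geometry of level 0. -/
def geo0 (M : Cm) : Pr :=
  ⟨M.al, fun p => if M.al (p / 4) then M.lk p else 4 * M.n, M.En0, M.FE, M.F, fun _ => 0,
    fun _ => 1, 0⟩

def base0 (M : Cm) : Pr := { geo0 M with next := bnext (16 * M.n) (geo0 M).val (geo0 M).own }

def Pr.garb (P : Pr) (n : ℕ) (h : ℕ → Prop) : Pr := { P with next := P.ld.gnext (16 * n) h }

/-- The cut round in the frame `g`. -/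
def cutR (n z c q : ℕ) (P : Pr) (j g : ℕ) : Rn := ⟨P.tw n g, n, z, c, q, 2 * j, fun _ => True⟩

/-- The kill round in the frame `g`. -/
def killR (n z c q : ℕ) (P : Pr) (j g w : ℕ) : Rn :=
  ⟨(cutR n z c q P j g).cut, n, z, c, q, 2 * j + 1, colq n (4 * (4 * c)) w⟩

def step (n z c q : ℕ) (P : Pr) (j w : ℕ) : Pr :=
  if P.rs ≠ 0 then P
  else if w % 9 = 8 then P.garb n (colq q (4 * (4 * c)) (w / 9))
  else (killR n z c q P j (w % 9) (w / 9)).kill.tw n (gi (w % 9))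

/-- The potential. -/
def Phi (A n q : ℕ) (P : Pr) : ℕ :=
  if P.rs ≠ 0 then 0 else A * (muB n (P.mp n).lk + 1) + P.ld.N (16 * n) q

theorem ofO_toO {q β : ℕ} (h : q ≤ β) (h7 : 7 ≤ q) (P : Pr) :
    ofO q (nrm 12 β (toO q P)) = P.clip q := by
  have e : ∀ a, min β (min a q) = min a q := fun a => min_eq_right ((min_le_right _ _).trans h)
  have e3 : ∀ o, o ≤ 7 → min o q = o := fun o k => min_eq_left (k.trans h7)
  have e4 : ∀ o, o ≤ 7 → min β o = o := fun o k => min_eq_right ((k.trans h7).trans h)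
  have t : ∀ (l : List ℕ) (i : ℕ), i < 12 → gt (tab 12 fun i => min β (gt l i)) i = min β (gt l i) :=
    fun l i k => gt_tab _ k
  have g0 : ∀ (u : ℕ) (l : List ℕ), gt (u :: l) 0 = u := fun _ _ => rfl
  have g1 : ∀ (u i : ℕ) (l : List ℕ), gt (u :: l) (i + 1) = gt l i := fun _ _ _ => rfl
  unfold ofO Pr.clip ask nrm toO
  congr 1
  · funext d
    by_cases u : P.al (min d q) <;> simp [t, g0, g1, e, u]
    omega
  · funext a
    simp [t, g0, g1, e, e3, e4]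
  · funext a b
    simp [t, g0, g1, e, e3, e4]
  · funext a b c
    simp [t, g0, g1, e, e3, e4]
  · funext fl a b A B
    cases fl <;> simp [t, g0, g1, e, e3, e4, Sg.clip]
  · funext a
    simp [t, g0, g1, e, e3, e4]
  · funext a
    simp [t, g0, g1, e, e3, e4]
  · simp [t, g0, e, e3, e4]

variable {κ m β q n : List Bool → ℕ}

theorem askC (hk : ∀ x, 12 ≤ κ x) (hq : Nq κ m β fun x _ _ => q x) (hb : ∀ x, q x ≤ β x)
    (a : EN) (l : List EN) (hl : l.length < 12) (h : ∀ f ∈ a :: l, Nq κ m β f) :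
    Nq κ m β fun x g ρ => ask (q x) g ((a :: l).map fun f => f x g ρ) := by
  refine Q.call ?_ fun x g ρ y hy => ?_
  · induction l generalizing a with
    | nil => exact Q.min (h a List.mem_cons_self) hq
    | cons b l ih =>
      exact U.consL (l.length + 1) (fun x => by have := hk x; simp at hl; omega)
        (Q.min (h a List.mem_cons_self) hq)
        (ih b (by simp at hl; omega) fun f k => h f (List.mem_cons_of_mem _ k))
        fun _ _ _ => by simp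
  · obtain ⟨u, -, rfl⟩ := List.mem_map.1 hy
    exact (min_le_right _ _).trans (hb x)

theorem ofOC (hk : ∀ x, 12 ≤ κ x) (hq : Nq κ m β fun x _ _ => q x) (hb : ∀ x, q x ≤ β x) :
    PC κ m β fun x g _ => ofO (q x) g where
  al {a} h := Q.ne (askC hk hq hb _ [a] (by simp) (by simp [h, Q.c])) (Q.c 0)
  lam {a} h := askC hk hq hb _ [a] (by simp) (by simp [h, Q.c])
  En {i a} h h' := askC hk hq hb _ [i, a] (by simp) (by simp [h, h', Q.c])
  FE {i a b} h h' h'' := askC hk hq hb _ [i, a, b] (by simp) (by simp [h, h', h'', Q.c])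
  F {fl a b A B} h1 h2 h3 h4 h5 := askC hk hq hb (fun _ _ _ => 4)
    [fun x g ρ => if fl x g ρ = true then 1 else 0, a, b, fun x g ρ => (A x g ρ).i,
      fun x g ρ => (A x g ρ).p, fun x g ρ => (A x g ρ).s, fun x g ρ => (A x g ρ).q,
      fun x g ρ => (B x g ρ).i, fun x g ρ => (B x g ρ).p, fun x g ρ => (B x g ρ).s,
      fun x g ρ => (B x g ρ).q] (by simp) (by
        simp only [List.forall_mem_cons]
        exact ⟨Q.c 4, Q.ite h1 (Q.c 1) (Q.c 0), h2, h3, h4.i, h4.p, h4.s, h4.q, h5.i, h5.p, h5.s,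
          h5.q, by simp⟩)
  next {a} h := askC hk hq hb _ [a] (by simp) (by simp [h, Q.c])
  cur {a} h := askC hk hq hb _ [a] (by simp) (by simp [h, Q.c])
  rs := askC hk hq hb (fun _ _ _ => 7) [] (by simp) (by simp [Q.c])

theorem toOC {P : List Bool → Orc → Env → Pr} (H : PC κ m β P) (hq : Nq κ m β fun x _ _ => q x)
    {l : List Bool → Orc → Env → List ℕ} (hl : Lq κ m β l) :
    Nq κ m β fun x g ρ => toO (q x) (P x g ρ) (l x g ρ) :=
  have u := fun i => Q.gt hl (Q.c i)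
  have t := fun i => Q.eq (u 0) (Q.c i)
  Q.ite (t 0) (Q.ite (H.al (u 1)) (Q.c 1) (Q.c 0)) (Q.min (Q.ite (t 1) (H.lam (u 1))
    (Q.ite (t 2) (H.En (u 1) (u 2)) (Q.ite (t 3) (H.FE (u 1) (u 2) (u 3))
      (Q.ite (t 4) (H.F (Bv.dec (Q.eq (u 1) (Q.c 1))) (u 2) (u 3)
        (Sv.mk' (u 4) (u 5) (u 6) (u 7)) (Sv.mk' (u 8) (u 9) (u 10) (u 11)))
        (Q.ite (t 5) (H.next (u 1)) (Q.ite (t 6) (H.cur (u 1)) H.rs)))))) hq)

theorem stepC {P : List Bool → Orc → Env → Pr} (H : PC κ m β P) {n z q j w : EN} (c : ℕ)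
    (hn : Nq κ m β n) (hz : Nq κ m β z) (hq : Nq κ m β q) (hj : Nq κ m β j) (hw : Nq κ m β w) :
    PC κ m β fun x g ρ => step (n x g ρ) (z x g ρ) c (q x g ρ) (P x g ρ) (j x g ρ) (w x g ρ) := by
  have g9 := Q.mod hw (Q.c 9)
  have w9 := Q.div hw (Q.c 9)
  have k1 : KC κ m β c fun x g ρ =>
      cutR (n x g ρ) (z x g ρ) c (q x g ρ) (P x g ρ) (j x g ρ) (w x g ρ % 9) :=
    ⟨H.tw hn g9, hn, hz, fun _ _ _ => rfl, hq, Q.mul (Q.c 2) hj, fun _ => U.tt⟩
  have k2 : KC κ m β c fun x g ρ =>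
      killR (n x g ρ) (z x g ρ) c (q x g ρ) (P x g ρ) (j x g ρ) (w x g ρ % 9) (w x g ρ / 9) :=
    ⟨k1.cut, hn, hz, fun _ _ _ => rfl, hq, Q.add (Q.mul (Q.c 2) hj) (Q.c 1), U.colq _ hn w9⟩
  have k3 : PC κ m β fun x g ρ =>
      (P x g ρ).garb (n x g ρ) (colq (q x g ρ) (4 * (4 * c)) (w x g ρ / 9)) :=
    ⟨H.al, H.lam, H.En, H.FE, H.F, H.ld.gnext (Q.mul (Q.c 16) hn)
      (h := fun x g ρ => colq (q x g ρ) (4 * (4 * c)) (w x g ρ / 9)) (U.colq _ hq w9), H.cur, H.rs⟩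
  exact H.ite (Q.ne H.rs (Q.c 0)) (k3.ite (Q.eq g9 (Q.c 8)) (k2.kill.tw hn (giC g9)))

theorem PhiC {P : List Bool → Orc → Pr} (H : PC κ β β fun x g _ => P x g) (A : ℕ)
    (hn : Cn κ fun x _ => n x) (hq : Cn κ fun x _ => q x) (h1 : ∀ x, 16 * n x ≤ β x)
    (h2 : ∀ x, q x ≤ β x) : Nq κ β β fun x g _ => Phi A (n x) (q x) (P x g) :=
  Q.ite (Q.ne H.rs (Q.c 0)) (Q.c 0) (Q.add (Q.mul (Q.c A) (Q.add
    (muBC (lk := fun x g => ((P x g).mp (n x)).lk) hn (fun x => by have := h1 x; omega)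
      fun h => Q.ite (H.al (d4 h)) (H.lam h) h) (Q.c 1)))
    (NC (D := fun x g => (P x g).ld) H.ld (K.mul (K.c 16) hn) hq h1 h2))

namespace B0

variable {a : List Bool → Env → ℕ}

theorem lam (h : Cn κ a) : Cn κ fun x ρ => (geo0 (M0 x)).lam (a x ρ) :=
  K.ite (al (K.div h (K.c 4))) (lk h) (K.mul (K.c 4) B0.n)

theorem lo (h : Cn κ a) : Cn κ fun x ρ => (geo0 (M0 x)).lo (a x ρ) :=
  K.ite (K.eq (K.mod (lam h) (K.c 4)) (K.mod (K.add h (K.c 1)) (K.c 4))) h (lam h)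

theorem val (h : Cn κ a) : PR.Cp κ fun x ρ => (geo0 (M0 x)).val (a x ρ) :=
  have d := K.div h (K.c 4)
  have l := lo d
  have u := fun k => K.mod (K.add l (K.c k)) (K.c 4)
  K.and (K.and (al (K.div d (K.c 4))) (K.ne
    (lam (pt (FE (u 3) (K.div l (K.c 4)) (u 2)) (K.add l (K.c 2))))
    (pt (FE (u 2) (K.div (lam l) (K.c 4)) (u 2)) (K.add l (K.c 3)))))
    (K.eq (K.mod (K.add d h) (K.c 2)) (K.c 1))

theorem own (h : Cn κ a) : Cn κ fun x ρ => (geo0 (M0 x)).own (a x ρ) :=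
  pt (En0 (K.mod h (K.c 4)) (K.div h (K.c 16))) h

theorem base (hq : Cn κ fun x _ => q x) : Cn κ fun x ρ => toO (q x) (base0 (M0 x)) (ρ 0) := by
  have u := fun i => K.gt (K.vL (κ := κ) 0) (K.c i)
  have t := fun i => K.eq (u 0) (K.c i)
  have f := fun fl => F fl (u 2) (u 3)
    (A := fun _ ρ => ⟨gt (ρ 0) 4, gt (ρ 0) 5, gt (ρ 0) 6, gt (ρ 0) 7⟩)
    (B := fun _ ρ => ⟨gt (ρ 0) 8, gt (ρ 0) 9, gt (ρ 0) 10, gt (ρ 0) 11⟩)
    ⟨u 4, u 5, u 6, u 7⟩ ⟨u 8, u 9, u 10, u 11⟩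
  refine K.ite (t 0) (K.ite (al (u 1)) (K.c 1) (K.c 0)) (K.min (K.ite (t 1) (lam (u 1))
    (K.ite (t 2) (En0 (u 1) (u 2)) (K.ite (t 3) (FE (u 1) (u 2) (u 3)) (K.ite (t 4) ?_
      (K.ite (t 5) (bnextC (M := fun x => 16 * (M0 x).n) (K.mul (K.c 16) B0.n) val own (u 1))
        (K.ite (t 6) (K.c 1) (K.c 0))))))) hq)
  exact K.cg (K.ite (i := fun _ _ => propDecidable _) (K.eq (u 1) (K.c 1)) (f true) (f false))
    fun x ρ => by by_cases k : gt (ρ 0) 1 = 1 <;> simp [k, base0, geo0]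

end B0

end

end Pool.Agent.MP_1a6d78_lc.PS

end MrgPart0

-- ======== part 1: formerly Pool.Agent.MP_1a6d78_lc.PS.MSpec
section MrgPart1

/-! PROJECT PSC: the statements for the levels of the machine. -/

namespace Pool.Agent.MP_1a6d78_lc.PS

open Classical ED PR SC GL

noncomputable section

/-- The invariant of an open level. -/
structure Inv (M : Cm) (P : Pr) (j : ℕ) (ls : ℕ → List ℕ) : Prop where
  ok : M.Ok
  geo : Geo M P
  li : LI (16 * M.n) P.ld j ls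

/-- The number of slots. -/
def Pr.tot (P : Pr) (n : ℕ) (ls : ℕ → List ℕ) : ℕ := GL.tot (16 * n) P.hv ls

/-- CLIP -/
def ClipS : Prop := ∀ M P j ls q, Inv M P j ls → 16 * M.n * (j + 2) < q → 7 ≤ q →
  Inv M (P.clip q) j ls ∧ (P.clip q).tot M.n ls = P.tot M.n ls

/-- BASE0 -/
def Base0S : Prop := ∀ M : Cm, M.Ok →
  ∃ ls, Inv M (base0 M) 0 ls ∧ (base0 M).tot M.n ls ≤ 16 * M.n

/-- TWI -/
def TwiS : Prop := ∀ M P j ls, ∀ g < 8, Inv M P j ls →
  ∃ ls', Inv (M.tw g) (P.tw M.n g) j ls' ∧ (P.tw M.n g).tot M.n ls' = P.tot M.n ls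

/-- HY -/
def HyS : Prop := ∀ (K : Rn) M j ls, K.n = M.n → Inv M K.P j ls → 16 * M.n * (j + 2) < K.q → K.Hy M

/-- VCNT -/
def VcntS : Prop := ∀ M P, M.Ok → Geo M P → cnt (16 * M.n) P.val ≤ 16 * M.mu

/-- LONG: few heads of one type have long lists. -/
def LongS : Prop := ∀ (K : Rn) M j ls, K.n = M.n → Inv M K.P j ls → 16 * M.n * (j + 2) < K.q →
  ∀ i < 4, ∀ (Y : ℕ → Prop) (f : ℕ → ℕ), (∀ v, Y v → M.al (f v)) →
    (∀ v w, Y v → Y w → M.Co i (f v) (f w) → v = w) →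
      K.c * cnt M.n (fun v => Y v ∧ ¬K.short i (K.P.En i (f v))) ≤ K.P.tot M.n ls

/-- A family of poles that pay. -/
def Cm.Pay (M : Cm) (z : ℕ) (Y : ℕ → Prop) : Prop :=
  (∀ x, Y x → M.Top x ∧ M.NT z x) ∧ ∀ x y, Y x → Y y → M.Rg (4 * x) (4 * y) → x = y

/-- A family of rings that pay (second case of PROG). -/
def Cm.PayR (M : Cm) (z : ℕ) (Y : ℕ → Prop) : Prop :=
  (∀ v, Y v → M.Cond z v) ∧ (∀ v v', Y v → Y v' → M.Co 0 v v' → v = v') ∧
    (∀ v v', Y v → Y v' → M.Co 1 (M.FE 0 v 3) (M.FE 0 v' 3) → v = v') ∧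
    ∀ (N' : Cm) (R : ℕ → Prop), (∀ v, R v → M.Ring v) → M.Cutm N' R →
      (∀ v v', Y v → R v' → M.Co 0 v v' → N'.Top (M.FE 0 v 0) ∧ N'.NT z (M.FE 0 v 0)) ∧
      ∀ v w v' w', Y v → Y w → R v' → R w' → M.Co 0 v v' → M.Co 0 w w' →
        N'.Rg (4 * M.FE 0 v 0) (4 * M.FE 0 w 0) → v = w

/-- CPAY: after the cut most of the family are poles that pay. -/
def CpayS : Prop := ∀ (K : Rn) M M' j ls, K.n = M.n → Inv M K.P j ls → 16 * M.n * (j + 2) < K.q →
  M'.Ok → M.Cutm M' K.ccut →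
  (∀ v, K.ccut v ↔ K.P.En 0 v = v ∧ M.Cond K.z v ∧ K.short 0 v ∧ K.short 1 (K.cg v)) →
  ∀ Y, M.Pay K.z Y ∨ M.PayR K.z Y →
    ∃ Y', M'.Pay K.z Y' ∧ K.c * cnt M.n Y ≤ K.c * cnt M.n Y' + 2 * K.P.tot M.n ls

/-- KPAY: some hash selects many poles that pay. -/
def KpayS : Prop := ∀ (P : Pr) (M : Cm) z c q j j' ls, Inv M P j ls → 16 * M.n * (j + 2) < q → 0 < c →
  ∀ Y, M.Pay z Y → ∃ w < 4 * (4 * c) * (2 * M.n + 3) ^ 2,
    c * cnt M.n Y ≤ 2 * P.tot M.n ls + 32 * c ^ 2 * cnt M.n fun x =>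
      (Rn.mk P M.n z c q j' (colq M.n (4 * (4 * c)) w)).sel x ∧ M.NT z x

end

end Pool.Agent.MP_1a6d78_lc.PS

end MrgPart1

-- ======== part 2: formerly Pool.Agent.MP_1a6d78_lc.PS.LKpay
section MrgPart2

/-! PROJECT PSC: long lists are rare, some hash selects many poles that pay. -/

namespace Pool.Agent.MP_1a6d78_lc.PS

open Classical ED PR SC GL

theorem longS : LongS := by
  intro K M j ls hn I hq i hi Y f h1 h2
  refine le_trans (Nat.mul_le_mul_left _ ?_) (I.li.markov hq K.c)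
  have N := I.geo.nm
  refine cnt_inj (fun v => pt (K.P.En i (f v)) i) (fun v _ k => ?_) fun v _ w _ k l e => ?_
  · have a := N.al hi (h1 v k.1)
    have := I.ok.lt _ a
    refine ⟨by unfold pt; omega, ?_, fun s => k.2 (by rw [Rn.short, hn]; exact s)⟩
    show K.P.al _ ∧ _
    rw [pt_div, pt_mod, Nat.mod_eq_of_lt hi, I.geo.al]
    exact ⟨a, N.idem I.ok hi (h1 v k.1)⟩
  · refine h2 v w k.1 l.1 ((N.co I.ok hi (h1 v k.1) (h1 w l.1)).1 ?_)
    have := congrArg (· / 4) e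
    simpa only [pt_div] using this

theorem dd_rg {M : Cm} (h : M.Ok) {x y c : ℕ} (r : M.Rg (4 * x) (4 * y)) (d : M.Dd x c) :
    M.Dd y c := by
  induction d with
  | top k => exact .top (Ct.rg_trans (Ct.rg_symm h r) k)
  | step k _ ih => exact .step k ih

theorem nt_rg {M : Cm} (h : M.Ok) {x y z : ℕ} (r : M.Rg (4 * x) (4 * y)) (d : M.NT z x) :
    M.NT z y := by
  have e : M.Dd x = M.Dd y := funext fun c => propext ⟨dd_rg h r, dd_rg h (Ct.rg_symm h r)⟩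
  unfold Cm.NT Cm.Hop at *
  rwa [← e]

theorem kpayS : KpayS := by
  intro P M z c q j j' ls I hq hc Y ⟨y1, y2⟩
  have h := I.ok
  have N := I.geo.nm
  let K : Rn := ⟨P, M.n, z, c, q, j', fun _ => True⟩
  have co : ∀ i < 2, ∀ v w, Y v → Y w → M.Co i v w → v = w := fun i hi v w a b ⟨u, p1, p2⟩ =>
    y2 v w a b (Ct.rg_trans (KSel.pa_rg h (y1 v a).1 hi p1)
      (Ct.rg_symm h (KSel.pa_rg h (y1 w b).1 hi p2)))
  have l0 := longS K M j ls rfl I hq 0 (by omega) Y id (fun v k => (y1 v k).1.1) (co 0 (by omega))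
  have l1 := longS K M j ls rfl I hq 1 (by omega) Y id (fun v k => (y1 v k).1.1) (co 1 (by omega))
  obtain ⟨w, hw, k⟩ := hash M.n (4 * c)
    (fun x => ∃ y, Y y ∧ P.En 0 y = x ∧ K.short 0 x ∧ K.short 1 (P.En 1 y))
    (fun x t => K.own0 (K.links x t)) (by omega)
  refine ⟨w, hw, ?_⟩
  have a1 : cnt M.n Y ≤ cnt M.n (fun v => Y v ∧ ¬K.short 0 (P.En 0 v)) +
      (cnt M.n (fun v => Y v ∧ ¬K.short 1 (P.En 1 v)) +
        cnt M.n fun v => Y v ∧ K.short 0 (P.En 0 v) ∧ K.short 1 (P.En 1 v)) :=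
    le_trans (cnt_mono fun v _ k => by tauto)
      ((cnt_or _ _ _).trans (Nat.add_le_add_left (cnt_or _ _ _) _))
  have a2 : cnt M.n (fun v => Y v ∧ K.short 0 (P.En 0 v) ∧ K.short 1 (P.En 1 v)) ≤
      cnt M.n fun x => ∃ y, Y y ∧ P.En 0 y = x ∧ K.short 0 x ∧ K.short 1 (P.En 1 y) :=
    cnt_inj (P.En 0) (fun v _ k => ⟨h.lt _ (N.al (by omega) (y1 v k.1).1.1), v, k.1, rfl, k.2⟩)
      fun v _ u _ k l e => co 0 (by omega) v u k.1 l.1
        ((N.co h (by omega) (y1 v k.1).1.1 (y1 u l.1).1.1).1 e)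
  have a3 := k.trans (Nat.mul_le_mul_left _ (cnt_mono (Q := fun x =>
      (Rn.mk P M.n z c q j' (colq M.n (4 * (4 * c)) w)).sel x ∧ M.NT z x) ?_))
  · have e1 : K.c = c := rfl
    have e2 : K.P = P := rfl
    simp only [e1, e2, id] at l0 l1
    have := Nat.mul_le_mul_left c (a1.trans (Nat.add_le_add_left (Nat.add_le_add_left
      (a2.trans a3) _) _))
    rw [mul_add, mul_add, ← mul_assoc, show c * (8 * (4 * c)) = 32 * c ^ 2 by ring] at this
    omega
  · rintro x - ⟨⟨y, a, rfl, s0, s1⟩, c1, c2⟩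
    have t := (y1 y a).1
    have r := KSel.pa_rg h t (i := 0) (by omega) (N.pa 0 (by omega) y t.1)
    have t' := KSel.top_rg h t r
    refine ⟨⟨I.geo.al ▸ t'.1, N.idem h (by omega) t.1, ?_, c1, s0, ?_, fun u hu _ =>
      (Classical.em _).imp id (c2 u hu)⟩, nt_rg h r (y1 y a).2⟩
    · show P.FE 0 _ 3 = M.n
      rw [I.geo.FE 0 (by omega) 3 (by omega), Cm.FE_none h t'.1]
      intro u e
      have := KSel.top_ss h (KSel.top_rg h t' (KSel.pa_rg h t' (i := 0) (by omega)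
        (Cm.Pa.wk _ _ u))) (i := 0) (by omega)
      omega
    · show K.short 1 (P.En 1 (P.En 0 y))
      rwa [N.pa_eq h (by omega) t.1 (KSel.rg_pa h t (i := 1) (by omega) r)]

end Pool.Agent.MP_1a6d78_lc.PS

end MrgPart2

-- ======== part 3: formerly Pool.Agent.MP_1a6d78_lc.PS.FAct
section MrgPart3

/-! PROJECT PSC: enough poles and rings that pay. -/

namespace Pool.Agent.MP_1a6d78_lc.PS

open Classical ED PR PL Relation

noncomputable section

namespace FAct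

/-- The cells of the rings. -/
def rs (M : Cm) : Finset (ℕ × ℕ) :=
  (Finset.range 4 ×ˢ Finset.range M.n).filter fun a => M.Rng a.1 a.2

theorem mem {M : Cm} (H : M.Ok) (a : ℕ × ℕ) : a ∈ rs M ↔ a.1 < 4 ∧ M.Rng a.1 a.2 := by
  simp only [rs, Finset.mem_filter, Finset.mem_product, Finset.mem_range]
  exact ⟨fun h => ⟨h.1.1, h.2⟩, fun h => ⟨⟨h.1, H.lt _ h.2.1.1⟩, h.2⟩⟩

theorem ts_eq (x : ℕ) : Ct.ts (x % 4) (4 * (x / 4)) = x := by
  unfold Ct.ts fs
  split_ifs <;> omega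

theorem base (tw : S_Tw) (pe : S_PE) (ba : S_Base) {M : Cm} (H : M.Ok) {z : ℕ} (hz : M.al z)
    (h : ∀ g < 4, ∀ x, (M.tw g).Top x → ¬(M.tw g).NT z x → (M.tw g).Clo ((M.tw g).Dd x)) :
    M.Wit z := by
  obtain ⟨S, s1, s2, s3⟩ := ba M H z hz
  have inj : Function.Injective fun x : ℕ => (x % 4, x / 4) := fun x y e => by
    obtain ⟨e1, e2⟩ := Prod.mk.inj e
    omega
  refine ⟨S.image fun x => (x % 4, x / 4), ∅, ?_, fun a ha => ?_, fun a ha b hb e r => ?_,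
    by simp, by simp⟩
  · rw [Finset.card_image_of_injective _ inj]
    omega
  · obtain ⟨x, hx, rfl⟩ := Finset.mem_image.1 ha
    obtain ⟨x1, x2, x3⟩ := s2 x hx
    have g4 : x % 4 < 4 := Nat.mod_lt _ (by norm_num)
    have K := tw M H (x % 4) (by omega)
    have top : (M.tw (x % 4)).Top (x / 4) :=
      ⟨(K.al _).2 x1, (K.crit _).2 (by rwa [ts_eq])⟩
    refine ⟨g4, top, by_contra fun k => ?_⟩
    have c := h _ g4 _ top k
    exact x3 _ ((K.clo _).1 c) ((K.cln _ _).1 ((pe _ K.ok z _ top).2.1 k c))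
      (Cm.Dd.top ⟨0, rfl⟩)
  · obtain ⟨x, hx, rfl⟩ := Finset.mem_image.1 ha
    obtain ⟨y, hy, rfl⟩ := Finset.mem_image.1 hb
    have K := tw M H (x % 4) (by omega)
    have r' := (K.rg _ _).1 r
    have e' : x % 4 = y % 4 := e
    rw [ts_eq, e', ts_eq] at r'
    rw [s3 x hx y hy r']

end FAct

theorem fAct : S_Walk → S_Reg → S_Dead → S_Tw → S_TwC → S_CutEx → S_CutW → S_CutR → S_CS → S_G0 →
    S_G1 → S_PE → S_Base → S_Step → S_Act := by
  intro _ _ _ tw twc cx cw cr cs g0 g1 pe ba st M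
  induction hk : (FAct.rs M).card using Nat.strong_induction_on generalizing M with
  | _ k ih =>
  intro H z hz
  by_cases h : ∀ g < 4, ∀ x, (M.tw g).Top x → ¬(M.tw g).NT z x → (M.tw g).Clo ((M.tw g).Dd x)
  · exact FAct.base tw pe ba H hz h
  obtain ⟨g, g4, x, top, nt, p, p1, p2⟩ : ∃ g < 4, ∃ x, (M.tw g).Top x ∧ ¬(M.tw g).NT z x ∧
      ∃ p, (M.tw g).Dd x (p / 4) ∧ ¬(M.tw g).Dd x ((M.tw g).lk p / 4) := by
    by_contra k
    exact h fun g g4 x a b p c => by_contra fun d => k ⟨g, g4, x, a, b, p, c, d⟩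
  have g8 : g < 8 := by omega
  have K := tw M H g g8
  obtain ⟨t, v, ht, cap⟩ : ∃ t v, (t = 2 ∨ t = 3) ∧ (M.tw g).Cap x t v := by
    obtain ⟨t, ht, c | c⟩ := g0 _ K.ok z x p top nt p1 p2
    exacts [⟨t, _, ht, c.2⟩, ⟨t, _, ht, c.2⟩]
  have t4 : t < 4 := by omega
  obtain ⟨rsN, N1, ok1, cut⟩ := (cx _ K.ok).2 t t4 v cap.1
  obtain ⟨top1, dd, nt1⟩ := cs _ N1 _ K.ok ok1 rsN cut x top
  obtain ⟨y, y1, y2⟩ : ∃ y, (M.tw g).Pa t v y ∧ (M.tw g).Kd t 2 y := by
    rcases ht with rfl | rfl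
    exacts [cap.1.2.1, cap.1.2.2]
  have dy : N1.Dd x y := (dd y).2 ((cap.2 y y1).2 y2)
  have n1 : ¬N1.NT z x := fun c => nt ((nt1 z).1 c)
  have clo := g1 N1 ok1 z x y top1 n1 dy
    ((cr _ N1 _ K.ok ok1 rsN cut).cor t 2 y ⟨rfl, y1⟩ y2).1
  have cln := (pe N1 ok1 z x top1).2.1 n1 clo
  have K1 := tw N1 ok1 (gi g) (Ct.gi_lt g8)
  have cut' := (twc _ N1 _ K.ok ok1 rsN cut (gi g) (Ct.gi_lt g8)).2
  have e : (fun t' y => t' < 4 ∧ (M.tw g).One t v (fp (gi g) t') y) = M.One (fp g t) v := by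
    funext t' u
    refine propext ⟨fun ⟨a, b, c⟩ => ⟨?_, (K.pa _ _ _).1 c⟩, fun ⟨a, b⟩ =>
      ⟨a ▸ Ct.fp_lt g t, ?_, (K.pa _ _ _).2 b⟩⟩
    · rw [← b, (Ct.fp_fp g8 t').2]
      omega
    · rw [a, (Ct.fp_fp g8 t).1]
      omega
  rw [e, K.back] at cut'
  have rn := (K.rn t v).1 cap.1
  have f4 := Ct.fp_lt g t
  have W := cw M _ _ H K1.ok ((cx M H).2 _ f4 v rn).1 cut'
  refine st M _ (N1.Dd x) z _ v H K1.ok f4 rn cut' ((K1.clo _).2 clo) ((K1.cln _ _).2 cln)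
    ⟨y, (K.pa _ _ _).1 y1, dy⟩ (ih _ ?_ _ rfl K1.ok z ((W.al z).2 hz))
  rw [← hk]
  refine Finset.card_lt_card ⟨fun a ha => ?_, fun c => ?_⟩
  · obtain ⟨a1, a2⟩ := (FAct.mem K1.ok a).1 ha
    exact (FAct.mem H a).2 ⟨a1, (W.lift _ a1 _ a2).1⟩
  · obtain ⟨a1, a2⟩ := (FAct.mem K1.ok _).1 (c ((FAct.mem H (fp g t, v)).2 ⟨f4, rn⟩))
    exact (W.lift _ a1 _ a2).2 ⟨rfl, 0, rfl⟩

end

end Pool.Agent.MP_1a6d78_lc.PS

end MrgPart3

-- ======== part 4: formerly Pool.Agent.MP_1a6d78_lc.PS.FAll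
section MrgPart4

/-! PROJECT PSC: cuts, basins, progress; all rows together. -/

namespace Pool.Agent.MP_1a6d78_lc.PS

open PR

theorem sWalk : S_Walk := fWalk

theorem sReg : S_Reg := fReg sWalk

theorem sDead : S_Dead := fDead sWalk sReg

theorem sTw : S_Tw := fTw

theorem sMir : S_Mir := fMir sWalk sReg sDead sTw

theorem sTwC : S_TwC := fTwC sWalk sTw

theorem sCutEx : S_CutEx := fCutEx sWalk sTw sTwC

theorem sSide : S_Side := fSide sWalk

theorem sSep : S_Sep := fSep sWalk sSide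

theorem sBase : S_Base := fBase sWalk sReg

theorem sBas : S_Bas := fBas sWalk sReg

theorem sWall : S_Wall := fWall sWalk sReg sDead

theorem sG0 : S_G0 := fG0 sWalk sDead sTw sMir (fG0a sWalk sReg sDead sWall)

theorem sG1 : S_G1 := fG1 sWalk sReg sDead sBas sG0

theorem sPE : S_PE := fPE sWalk sReg sDead

theorem sCutW : S_CutW := fCutW sWalk sSep

theorem sCutR : S_CutR := fCutR sWalk sReg sSep sCutW (fCutN sWalk sReg sSep sCutW)

theorem sCS : S_CS := fCS sWalk sReg sDead sSep sCutW sCutR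

theorem sCmp : S_Cmp := fCmp sWalk sSep sCutW

theorem sOm : S_Om := fOm sWalk sReg sSide sSep sBas

theorem sPC : S_PC := fPC sWalk sReg sDead sCutEx sCutW sCutR sPE sOm

theorem sPInj : S_PInj := fPInj sWalk sReg sDead sCutEx sCutW sCutR sPE sPC

theorem sPT : S_PT := fPT sWalk sReg sCutEx sCutW sCutR sCS sCmp sPE

theorem sStep : S_Step := fStep sWalk sReg sDead sTw sMir sTwC sCutEx sCutW sCutR sCS sPE sPT

theorem sAct : S_Act :=
  fAct sWalk sReg sDead sTw sTwC sCutEx sCutW sCutR sCS sG0 sG1 sPE sBase sStep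

theorem sProg : S_Prog := fProg sWalk sTw sCutEx sCutR sCS sCmp sPC sPInj sAct

theorem sDrop (M M' : Cm) (X : ℕ → Prop) (z : ℕ) (H : M.Ok) (F : M.Fam X)
    (S : M.Smo M' (M.Dead X)) (hz : ¬M.Dead X z) :
    2 * M'.mu + cnt M.n (fun x => X x ∧ M.NT z x) ≤ 2 * M.mu :=
  drop sWalk sReg sDead M M' X z H F S hz

end Pool.Agent.MP_1a6d78_lc.PS

end MrgPart4

-- ======== part 5: formerly Pool.Agent.MP_1a6d78_lc.PS.LCpay
section MrgPart5

/-! PROJECT PSC: row CPAY. -/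

namespace Pool.Agent.MP_1a6d78_lc.PS

open Classical ED PR SC GL Cm

theorem cond_move {M : Cm} (H : M.Ok) {z v w : ℕ} (h : M.Cond z v) (p : M.Pa 0 v w) :
    M.Cond z w ∧ M.Co 1 (M.FE 0 w 3) (M.FE 0 v 3) := by
  have K := sWalk M H
  have rv := (K.ring v).1 h.ring
  have rw' := K.rn_pa _ _ _ rv p
  have c : ∀ y, M.Co 0 y w ↔ M.Co 0 y v := fun y => ⟨fun k => k.trans p.co.symm, fun k => k.trans p.co⟩
  obtain ⟨y, y1, y2⟩ := rw'.2.2
  obtain ⟨-, f1, f2⟩ := K.fe_kd 0 w y _ rw'.1 y1 y2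
  have o := ((sOm M H v h.ring h.all).1 _ _ (Pa.refl 3 _) ⟨f2, (c _).1 f1.co.symm⟩).1
  have e : ∀ p, M.Eg w p ↔ M.Eg v p := fun p => and_congr_right fun _ => and_congr_right fun _ =>
    ⟨fun k => k.trans o, fun k => k.trans o.symm⟩
  refine ⟨⟨(K.ring w).2 rw', h.cand.imp (fun ⟨q, q1, q2⟩ => ⟨q, (e q).2 q1, (c _).2 q2⟩) (c _).2,
    fun q k => (h.all q ((e q).1 k)).imp (fun u => ⟨u.1, u.2.1, (c _).2 u.2.2⟩)
      fun ⟨y, y1, y2⟩ => ⟨y, y1, y2.1, (c _).2 y2.2⟩⟩, o⟩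

theorem cpayS (hL : LongS) : CpayS := by
  intro K M M' j ls hn I hq H' C hc Y hY
  have H := I.ok
  have W := sWalk M H
  have N := I.geo.nm
  have rg : ∀ v, K.ccut v → M.Ring v := fun v k => ((hc v).1 k).2.1.ring
  rcases hY with hY | ⟨y1, y2, y3, y4⟩
  · obtain ⟨rs, cx, -⟩ := (sCutEx M H).1 M' _ rg
    have R := sCutR M M' _ H H' rs (cx.1 C)
    refine ⟨Y, ⟨fun x k => ?_, fun x y k l r => hY.2 x y k l ((R.rg _ _ ?_).1 r).1⟩, by omega⟩
    · obtain ⟨t, -, nt⟩ := sCS M M' _ H H' rs (cx.1 C) x (hY.1 x k).1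
      exact ⟨t, (nt _).2 (hY.1 x k).2⟩
    · rintro ⟨t, t1, t2⟩
      refine (R.cor t _ _ t1 t2).2.1 ?_
      rw [show 4 * (4 * x / 4) + 4 * x % 4 = 4 * x by omega]
      exact (hY.1 x k).1.2
  obtain ⟨y4, y5⟩ := y4 M' _ rg C
  have al : ∀ v, Y v → M.al v := fun v k => (y1 v k).ring.1.1
  have fe : ∀ v a, M.FE 0 v a < M.n → M.al (M.FE 0 v a) := fun v a k =>
    (FE_le H 0 v a).resolve_left k.ne
  have l0 := hL K M j ls hn I hq 0 (by omega) Y id al y2
  have l1 := hL K M j ls hn I hq 1 (by omega) Y (fun v => M.FE 0 v 3)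
    (fun v k => fe v 3 (y1 v k).ring.2.2) y3
  obtain ⟨G, hG⟩ : ∃ G : ℕ → Prop, ∀ v, G v ↔
      Y v ∧ K.short 0 (K.P.En 0 v) ∧ K.short 1 (K.P.En 1 (M.FE 0 v 3)) := ⟨_, fun _ => Iff.rfl⟩
  have cut : ∀ v, G v → Y v ∧ K.ccut (K.P.En 0 v) ∧ M.Co 0 v (K.P.En 0 v) := fun v k => by
    obtain ⟨k1, k2, k3⟩ := (hG v).1 k
    have p := N.pa 0 (by omega) v (al v k1)
    obtain ⟨c, o⟩ := cond_move H (y1 v k1) p
    refine ⟨k1, (hc _).2 ⟨N.idem H (by omega) (al v k1), c, k2, ?_⟩, p.co⟩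
    rw [Rn.cg, I.geo.FE 0 (by omega) 3 (by omega), (N.co H (by omega) (fe _ 3 c.ring.2.2)
      (fe v 3 (y1 v k1).ring.2.2)).2 o]
    exact k3
  have inj : ∀ v w, G v → G w → M'.Rg (4 * M.FE 0 v 0) (4 * M.FE 0 w 0) → v = w := fun v w k l =>
    y5 v w _ _ (cut v k).1 (cut w l).1 (cut v k).2.1 (cut w l).2.1 (cut v k).2.2 (cut w l).2.2
  refine ⟨fun x => ∃ v, G v ∧ x = M.FE 0 v 0, ⟨?_, ?_⟩, ?_⟩
  · rintro x ⟨v, k, rfl⟩
    exact y4 v _ (cut v k).1 (cut v k).2.1 (cut v k).2.2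
  · rintro x y ⟨v, k, rfl⟩ ⟨w, l, rfl⟩ r
    rw [inj v w k l r]
  · have c1 : cnt M.n G ≤ cnt M.n fun x => ∃ v, G v ∧ x = M.FE 0 v 0 :=
      cnt_inj (fun v => M.FE 0 v 0) (fun v _ k => ⟨(y1 v (cut v k).1).ring.2.1, v, k, rfl⟩)
        fun v _ w _ k l e => inj v w k l (by rw [show M.FE 0 v 0 = M.FE 0 w 0 from e]; exact Ct.rg_refl _ _)
    have c2 := (cnt_mono (n := M.n) (P := Y) fun v _ k => ?_).trans ((cnt_or _ G _).trans
      (Nat.add_le_add c1 (cnt_or M.n (fun v => Y v ∧ ¬K.short 0 (K.P.En 0 (id v)))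
        fun v => Y v ∧ ¬K.short 1 (K.P.En 1 (M.FE 0 v 3)))))
    · have := Nat.mul_le_mul_left K.c c2
      rw [mul_add, mul_add] at this
      omega
    · rw [hG]
      tauto

end Pool.Agent.MP_1a6d78_lc.PS

end MrgPart5

-- ======== part 6: formerly Pool.Agent.MP_1a6d78_lc.PS.LClip
section MrgPart6

/-! PROJECT PSC: clipping keeps the invariant; level 0. -/

namespace Pool.Agent.MP_1a6d78_lc.PS

open Classical ED PR SC GL

theorem clipS : ClipS := fun M P j ls q I hq h7 => by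
  have H := I.ok
  have G := I.geo
  have hn : 32 * M.n < q := by
    have : 16 * M.n * (j + 2) = 16 * M.n * j + 32 * M.n := by ring
    omega
  have m : ∀ a, a ≤ 4 * M.n ∨ a < 4 → min a q = a := fun a h => min_eq_left (by omega)
  have al : ∀ c, M.al (min c q) ↔ M.al c := fun c => by
    rcases le_total c q with h | h
    · rw [min_eq_left h]
    · rw [min_eq_right h]
      exact ⟨fun k => by have := H.lt _ k; omega, fun k => by have := H.lt _ k; omega⟩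
  have ma : ∀ c, M.al c → min c q = c := fun c k => m c (by have := H.lt _ k; omega)
  have en : ∀ i < 4, ∀ c, (P.clip q).En i c = P.En i c := fun i hi c => by
    show min (P.En (min i q) (min c q)) q = _
    rw [m i (Or.inr hi)]
    by_cases k : M.al c
    · rw [ma c k, ma _ (G.nm.al hi k)]
    · rw [G.nm.junk i hi c k, G.nm.junk i hi _ (mt (al c).1 k), m _ (by omega)]
  have e : (P.clip q).al = M.al := funext fun c => propext (G.al ▸ al c)
  have sg : ∀ A, M.wo A → M.wo (A.clip q) ∧ (M.ok (A.clip q) ↔ M.ok A) ∧ (M.ok A →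
      M.el (A.clip q) = M.el A ∧ M.ln (A.clip q) = M.ln A ∧
        ∀ a < 4, ∀ t, M.sv (A.clip q) t = a ↔ M.sv A t = a) := fun A w => by
    by_cases k : M.al A.p
    · have o := w k
      have : A.clip q = ⟨A.i, A.p, min A.s q, A.q⟩ := by
        unfold Sg.clip
        rw [m _ (Or.inr o.1), ma _ k, ma _ (o.2.2.al H k)]
      rw [this]
      refine ⟨w, Iff.rfl, fun _ => ⟨rfl, rfl, fun a ha t => ?_⟩⟩
      unfold Cm.sv
      split_ifs
      · show min A.s q = a ↔ _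
        omega
      · rfl
    · have k' : ¬M.al (A.clip q).p := mt (al _).1 k
      exact ⟨fun v => absurd v k', ⟨fun v => absurd v.2.1 k', fun v => absurd v.2.1 k⟩,
        fun v => absurd v.2.1 k⟩
  have G' : Geo M (P.clip q) := by
    refine ⟨e, fun p => ?_, ⟨fun i hi c k => ?_, fun i hi c k => ?_, fun i hi c k => ?_,
      fun i hi c k => ?_⟩, fun i hi a ha c => ?_, fun fl a b A B ha hb ne wA wB => ?_⟩
    · show min (P.lam (min p q)) q = _
      rw [G.lam]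
      by_cases k : M.al (p / 4)
      · rw [m p (Or.inl (Ct.lt4 H k).le), if_pos k, m _ (Or.inl (Ct.lt4 H (H.al_lk k)).le)]
      · rw [if_neg k, if_neg, m _ (Or.inl le_rfl)]
        intro v
        have := H.lt _ v
        exact k (by rwa [min_eq_left (by omega)] at v)
    · exact en i hi c ▸ G.nm.junk i hi c k
    · exact en i hi c ▸ G.nm.pa i hi c k
    · exact en i hi c ▸ G.nm.per i hi c k
    · rw [en i hi, en i hi, G.nm.st i hi c k]
    · show min (P.FE (min i q) (min c q) (min a q)) q = _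
      rw [m i (Or.inr hi), m a (Or.inr ha), G.FE i hi a ha]
      by_cases k : M.al c
      · rw [ma c k]
        exact (Cm.FE_le H i c a).elim (fun v => m _ (by omega)) (ma _)
      · rw [Cm.FE_dead k, Cm.FE_dead (mt (al c).1 k), m _ (by omega)]
    · show min (P.F fl (min a q) (min b q) _ _) q = _
      obtain ⟨a1, a2, a3⟩ := sg A wA
      obtain ⟨b1, b2, b3⟩ := sg B wB
      have := Cm.F_le H fl a b (A.clip q) (B.clip q)
      rw [m a (Or.inr ha), m b (Or.inr hb), G.F fl a b _ _ ha hb ne a1 b1, m _ (by omega)]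
      by_cases k : M.ok A ∧ M.ok B
      · have e : M.hit a b (A.clip q) (B.clip q) = M.hit a b A B := by
          funext t
          unfold Cm.hit Cm.Ps
          simp only [(a3 k.1).1, (a3 k.1).2.1, (a3 k.1).2.2 a ha, (b3 k.2).1, (b3 k.2).2.1,
            (b3 k.2).2.2 b hb]
        unfold Cm.F
        rw [a2, b2, e, (a3 k.1).1]
      · rw [Cm.F_junk _ _ _ k, Cm.F_junk _ _ _ (by rwa [a2, b2])]
  have hv : (P.clip q).hv = P.hv := funext fun y => by
    unfold Pr.hv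
    rw [en _ (Nat.mod_lt _ (by omega)), e, G.al]
  have ld : (P.clip q).ld = P.ld.clip q := by
    have e1 : (P.clip q).val = P.val := funext fun y => by
      unfold Pr.val
      rw [prbS M _ H G', prbS M _ H G]
    have e2 : (P.clip q).own = P.own := funext fun y => by
      unfold Pr.own
      rw [en _ (Nat.mod_lt _ (by omega))]
    unfold Pr.ld
    rw [e1, e2, hv]
    rfl
  exact ⟨⟨H, G', ld ▸ I.li.clip hq⟩, by unfold Pr.tot; rw [hv]⟩

theorem nm_en0 {M : Cm} (H : M.Ok) : M.Nm M.En0 := by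
  have per : ∀ i c, M.al c → M.Per i (M.wk i c M.n) := fun i c k => by
    obtain ⟨s, l, e⟩ := (Cm.Pa.wk i c M.n).bnd H k
    refine ⟨H.al_wk i k _, M.n - s - 1, ?_⟩
    rw [← Cm.wk_succ', ← e, ← Cm.wk_add, show s + (M.n - s - 1 + 1) = M.n by omega, e]
  have e : ∀ i c, M.al c → M.En0 i c = lst M.n (M.Pa i (M.wk i c M.n)) := fun i c k => by
    rw [Cm.En0, if_pos k]
    exact lst_congr fun y _ => ⟨fun ⟨t, _, v⟩ => ⟨t, by rwa [← Cm.wk_add]⟩, fun v =>
      (v.bnd H (per i c k).1).imp fun t u => ⟨u.1, by rw [Cm.wk_add, u.2]⟩⟩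
  have pa : ∀ i c, M.al c → M.Pa i (M.wk i c M.n) (M.En0 i c) := fun i c k =>
    e i c k ▸ (lst_spec ⟨_, H.lt _ (per i c k).1, Cm.Pa.refl _ _⟩).2
  refine ⟨fun i _ c k => if_neg k, fun i _ c k => (Cm.Pa.wk i c _).trans (pa i c k),
    fun i _ c k => ((per i c k).pa H (pa i c k)).1, fun i _ c k => ?_⟩
  rw [e i c k, e i _ (H.al_st i k), ← Cm.wk_succ', Cm.wk_succ]
  exact lst_congr fun y _ => ⟨(Cm.Pa.step _ _).trans, (per i c k).2.trans⟩

theorem base0S : Base0S := fun M H => by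
  have N := nm_en0 H
  obtain ⟨ls, k1, k2⟩ := GL.base (m := 16 * M.n) (val := (geo0 M).val) (hv := (geo0 M).hv)
    (own := (geo0 M).own) (fun e h => by
      have k : M.al (e / 4 / 4) := h.1.1
      have := H.lt _ k
      rw [show e / 4 / 4 = e / 16 by omega] at k
      refine ⟨by omega, ?_⟩
      unfold Pr.hv Pr.own
      rw [pt_div, pt_mod]
      exact ⟨N.al (Nat.mod_lt _ (by omega)) k, N.idem H (Nat.mod_lt _ (by omega)) k⟩)
    fun y h => by have := H.lt _ h.1; omega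
  exact ⟨ls, ⟨H, ⟨rfl, fun _ => rfl, N, fun _ _ _ _ _ => rfl, fun _ _ _ _ _ _ _ _ _ _ => rfl⟩, k1⟩,
    k2⟩

end Pool.Agent.MP_1a6d78_lc.PS

end MrgPart6

-- ======== part 7: formerly Pool.Agent.MP_1a6d78_lc.PS.LTwi
section MrgPart7

/-! PROJECT PSC: frames keep the invariant; the hypotheses of a round; valid entries are few. -/

namespace Pool.Agent.MP_1a6d78_lc.PS

open Classical ED PR SC GL Ct

theorem vcntS : VcntS := fun M P H G => by
  have i0 := count16 H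
  have key : ∀ Q : ℕ → Prop, (∀ a b, Q a → Q b → a % 4 / 2 = b % 4 / 2) →
      cnt (16 * M.n) (fun e => P.val e ∧ Q e) ≤ cnt (4 * M.n) M.Prb := fun Q h =>
    cnt_inj (fun e => e / 4) (fun e he k => ⟨by omega, (prbS M P H G _).1 k.1.1⟩)
      fun a _ b _ k k' e => by
        have := k.1.2
        have := k'.1.2
        have := h a b k.2 k'.2
        omega
  have i1 := key (fun e => e % 4 / 2 = 0 % 2) fun _ _ u v => u.trans v.symm
  have i2 := key (fun e => e % 4 / 2 = 1 % 2) fun _ _ u v => u.trans v.symm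
  rw [cnt_bit]
  omega

theorem hyS : HyS := fun K M j ls hn I hq => by
  have H := I.ok
  have G := I.geo
  have hv : ∀ i < 4, ∀ y, M.al y → K.P.En i y = y → K.P.ld.hv (pt y i) := fun i hi y k e => by
    show K.P.al _ ∧ _
    rw [pt_div, pt_mod, Nat.mod_eq_of_lt hi, G.al]
    exact ⟨k, e⟩
  refine ⟨H, hn, G, fun i y t => ?_, fun i hi y t k e l => ?_, fun i hi p k e s => ?_,
    fun e k => ?_⟩
  · have := I.li.en_le (q := K.q) (pt y i) t
    unfold Rn.ent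
    rw [hn]
    omega
  · unfold Rn.ent at *
    rw [hn] at *
    obtain ⟨k1, k2⟩ := I.li.en_val hq (i := t) (hv i hi y k e) (by omega)
    generalize K.P.ld.en (16 * M.n) K.q (pt y i) t = w at *
    have k3 : pt (K.P.En (w % 4) (w / 16)) w = pt y i := k2
    have k4 : w % 4 = i := by unfold pt at k3; omega
    have := k1.2
    rw [k4] at k3
    exact ⟨(prbS M _ H G _).1 k1.1, by omega, by
      rw [show w / 4 / 4 = w / 16 by omega]; unfold pt at k3; omega⟩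
  · have v : K.P.ld.val (4 * p + i) := ⟨by
      rw [show (4 * p + i) / 4 = p by omega]; exact (prbS M _ H G _).2 k, by
      rw [show (4 * p + i) / 4 = p by omega]; omega⟩
    have o : K.P.ld.own (4 * p + i) = pt (K.P.En i (p / 4)) i := by
      show pt (K.P.En _ _) _ = _
      rw [show (4 * p + i) % 4 = i by omega, show (4 * p + i) / 16 = p / 4 by omega]
      unfold pt
      omega
    unfold Rn.short Rn.ent at *
    rw [hn, ← o] at s ⊢
    obtain ⟨t, l, w⟩ := I.li.en_ex hq v s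
    exact ⟨t, l, by rw [w]; omega⟩
  · have := (I.li.rg _ (I.li.vl e k).2 _ (I.li.mem e k)).1
    rw [Ld.slot, zl_mk _ (I.li.vl e k).1] at this
    exact Nat.ne_of_gt this

theorem twiS : TwiS := fun M P j ls g h I => by
  have H := I.ok
  have G := I.geo
  have G' := geo_tw H G h
  have t4 : ∀ g e, te g e / 4 = tp g (e / 4) ∧ te g e % 4 = fp g (e % 4) := fun g e => by
    have := fp_lt g (e % 4)
    unfold te
    omega
  have b1 : Bij (16 * M.n) (te g) (te (gi g)) := fun a ha => by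
    have := tp_div g (a / 4)
    have := tp_div (gi g) (a / 4)
    have := t4 g a
    have := t4 (gi g) a
    refine ⟨by omega, by omega, ?_, ?_⟩ <;> rw [te, (t4 _ a).1, (t4 _ a).2]
    · rw [(tp_tp h _).2, (fp_fp h _).2]
      omega
    · rw [(tp_tp h _).1, (fp_fp h _).1]
      omega
  have b2 : Bij (16 * M.n) (tp g) (tp (gi g)) := fun a ha => by
    have := tp_div g a
    have := tp_div (gi g) a
    exact ⟨by omega, by omega, (tp_tp h a).2, (tp_tp h a).1⟩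
  obtain ⟨ls', k1, k2⟩ := I.li.tw b1 b2
  have fm : ∀ y, fp g (y % 4) = fp g y := fun y => (fp_inj h).2 (Nat.mod_mod _ _)
  obtain ⟨l1, l2⟩ := k1.congr (D' := (P.tw M.n g).ld) (fun a => by
      show (P.tw M.n g).prb _ ∧ _ ↔ _ ∧ P.prb _ ∧ _
      rw [prbS _ _ (tw_ok H h) G', prbS _ _ H G, tw_prb H h, (t4 g a).1]
      have e : (tp g (a / 4) + te g a) % 2 = 1 ↔ (a / 4 + a) % 2 = 1 := by
        unfold te tp fp
        split_ifs <;> omega
      rw [e]
      refine (and_iff_right_of_imp fun k => ?_).symm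
      have := H.lt _ k.1.1
      rw [tp_div] at this
      omega) (fun a _ => by
      show pt (P.En _ _) a = tp _ (pt (P.En _ _) _)
      have := tp_div g (a / 4)
      have := t4 g a
      rw [tp_pt, (t4 g a).2, show te g a / 16 = a / 16 by omega]
      refine Fl.pt_cg _ ?_
      rw [← (fp_inj (gi_lt h)).2 (Nat.mod_mod (te g a) 4), (t4 g a).2, (fp_fp h _).1]
      omega) (fun y => by
      show P.al _ ∧ P.En _ _ = _ ↔ _ ∧ P.al _ ∧ _
      rw [tp_div, tp_mod, fm]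
      refine (and_iff_right_of_imp fun k => ?_).symm
      have := H.lt _ (G.al ▸ k.1)
      omega) rfl rfl
  exact ⟨ls', ⟨tw_ok H h, G', l1⟩, l2.trans k2⟩

end Pool.Agent.MP_1a6d78_lc.PS

end MrgPart7

-- ======== part 8: formerly Pool.Agent.MP_1a6d78_lc.PS.LStep
section MrgPart8

/-! PROJECT PSC: the step keeps the invariant and lowers the potential. -/

namespace Pool.Agent.MP_1a6d78_lc.PS

open Classical ED PR SC GL Ct

noncomputable section

/-- The answer is known, or the level is open. -/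
def Good (n z : ℕ) (tr : Prop) (P : Pr) (j : ℕ) : Prop :=
  (P.rs ≠ 0 ∧ (P.rs = 1 ↔ tr)) ∨
    (P.rs = 0 ∧ ∃ M ls, M.n = n ∧ Inv M P (2 * j) ls ∧ M.al z ∧ (M.Cy 0 z ↔ tr))

variable {M : Cm} {P : Pr} {j q z c g : ℕ} {ls : ℕ → List ℕ}

theorem big {n j q k : ℕ} (h : 16 * n * (2 * j + 4) < q) (hk : k ≤ 2) :
    16 * n * (2 * j + k + 2) < q := (Nat.mul_le_mul_left _ (by omega)).trans_lt h

theorem cutRound (K : Rn) (e : K.n = M.n) (I : Inv M K.P K.j ls) (hq : 16 * M.n * (K.j + 2) < K.q) :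
    ∃ N ls', M.Cutm N K.ccut ∧ N.mu = M.mu ∧ Inv N K.cut (K.j + 1) ls' ∧
      K.cut.tot M.n ls' ≤ K.P.tot M.n ls + 16 * M.mu ∧
      ∀ v, K.ccut v ↔ K.P.En 0 v = v ∧ M.Cond K.z v ∧ K.short 0 v ∧ K.short 1 (K.cg v) := by
  obtain ⟨N, h1, h2, h3, h4, h5⟩ := cutS K M (hyS K M _ ls e I hq)
  obtain ⟨k1, k2, -⟩ := (sCutEx M I.ok).1 N K.ccut fun v k => ((h5 v).1 k).2.1.ring
  have mu := (sCutR M N _ I.ok h2 k1 (k2.1 h1)).mu
  obtain ⟨ls', J, t⟩ := Rd.step (K := K.crd) (ls := ls) (by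
    show LI (16 * K.n) K.P.ld K.j ls
    rw [e]; exact I.li) h4
  have v := (cnt_mono fun a (_ : a < 16 * N.n) => h4.iv a).trans (vcntS N K.cut h2 h3)
  rw [h1.n, mu] at v
  refine ⟨N, ls', h1, mu, ⟨h2, h3, by rw [h1.n, ← e]; exact J⟩, ?_, h5⟩
  have t' : GL.tot (16 * K.n) K.cut.hv ls' ≤ GL.tot (16 * K.n) K.P.hv ls +
    cnt (16 * K.n) K.crd.ins := t
  rw [e] at t'
  exact t'.trans (Nat.add_le_add_left v _)

theorem killRound (K : Rn) (e : K.n = M.n) (I : Inv M K.P K.j ls)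
    (hq : 16 * M.n * (K.j + 2) < K.q) : ∃ N ls', M.Smo N (M.Dead K.sel) ∧ M.Fam K.sel ∧
      Inv N K.kill (K.j + 1) ls' ∧ K.kill.tot M.n ls' ≤ K.P.tot M.n ls + 16 * N.mu := by
  obtain ⟨N, h1, h2, h5, h3, h4⟩ := killS K M (hyS K M _ ls e I hq)
  obtain ⟨ls', J, t⟩ := Rd.step (K := K.rd) (ls := ls) (by
    show LI (16 * K.n) K.P.ld K.j ls
    rw [e]; exact I.li) h4
  have v := (cnt_mono fun a (_ : a < 16 * N.n) => h4.iv a).trans (vcntS N K.kill h2 h3)
  rw [h1.n] at v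
  refine ⟨N, ls', h1, h5, ⟨h2, h3, by rw [h1.n, ← e]; exact J⟩, ?_⟩
  have t' : GL.tot (16 * K.n) K.kill.hv ls' ≤ GL.tot (16 * K.n) K.P.hv ls +
    cnt (16 * K.n) K.rd.ins := t
  rw [e] at t'
  exact t'.trans (Nat.add_le_add_left v _)

/-- A round in the frame `g`. -/
theorem round (I : Inv M P (2 * j) ls) (hz : M.al z) (h0 : P.rs = 0) (hg : g < 8)
    (hq : 16 * M.n * (2 * j + 4) < q) (hc : 0 < c) : ∃ s : ℕ → ℕ,
    (∀ Y, (M.tw g).Pay z Y ∨ (M.tw g).PayR z Y → ∃ w < 4 * (4 * c) * (2 * M.n + 3) ^ 2,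
      c * cnt M.n Y ≤ 4 * P.tot M.n ls + 32 * M.mu + 32 * c ^ 2 * s w) ∧
    ∀ w R, R = (killR M.n z c q P j g w).kill.tw M.n (gi g) →
      (R.rs ≠ 0 ∧ (R.rs = 1 ↔ M.Cy 0 z)) ∨ (R.rs = 0 ∧ ∃ N ls', N.n = M.n ∧
        Inv N R (2 * (j + 1)) ls' ∧ N.al z ∧ (N.Cy 0 z ↔ M.Cy 0 z) ∧
        R.tot M.n ls' ≤ P.tot M.n ls + 32 * M.mu ∧ 2 * N.mu + s w ≤ 2 * M.mu) := by
  obtain ⟨l0, I0, t0⟩ := twiS M P _ ls g hg I
  obtain ⟨N, l1, c1, c2, I1, t1, c3⟩ := cutRound (M := M.tw g) (cutR M.n z c q P j g) rfl I0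
    (big (k := 0) hq (by omega))
  have m0 := tw_mu I.ok hg
  have n1 : N.n = M.n := c1.n
  have t1' : (cutR M.n z c q P j g).cut.tot M.n l1 ≤ P.tot M.n ls + 16 * M.mu := by
    rw [← t0, ← m0]; exact t1
  rw [m0] at c2
  refine ⟨fun w => cnt M.n fun x => (killR M.n z c q P j g w).sel x ∧ N.NT z x, fun Y hY => ?_,
    fun w R eR => ?_⟩
  · obtain ⟨Y', y1, y2⟩ := cpayS longS (cutR M.n z c q P j g) (M.tw g) N _ l0 rfl I0
      (big (k := 0) hq (by omega)) I1.ok c1 c3 Y hY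
    obtain ⟨w, w1, w2⟩ := kpayS _ N z c q _ (2 * j + 1) l1 I1
      (by rw [n1]; exact big (k := 1) hq (by omega)) hc Y' y1
    rw [n1] at w1 w2
    have y3 : c * cnt M.n Y ≤ c * cnt M.n Y' + 2 * (P.tw M.n g).tot M.n l0 := y2
    refine ⟨w, w1, ?_⟩
    have w3 : c * cnt M.n Y' ≤ 2 * (cutR M.n z c q P j g).cut.tot M.n l1 + 32 * c ^ 2 *
      cnt M.n fun x => (killR M.n z c q P j g w).sel x ∧ N.NT z x := w2
    beta_reduce
    omega
  · obtain ⟨L, l2, k1, k2, I2, t2⟩ := killRound (M := N) (killR M.n z c q P j g w) n1.symm I1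
      (by rw [n1]; exact big (k := 1) hq (by omega))
    have n2 : L.n = M.n := k1.n.trans n1
    obtain ⟨l3, I3, t3⟩ := twiS L _ _ l2 (gi g) (gi_lt hg) I2
    rw [n2, ← eR] at I3 t3
    rw [n1] at t2
    have zN : N.al z := by rw [cutm_al I0.ok c1, tw_al I.ok hg]; exact hz
    have r0 : (killR M.n z c q P j g w).P.rs = 0 := if_pos h0
    have ea : (killR M.n z c q P j g w).al' = L.al := I2.geo.al
    have r1 : (killR M.n z c q P j g w).kill.rs = if L.al z then 0 else 2 := by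
      show (if (killR M.n z c q P j g w).P.rs = 0 ∧ ¬(killR M.n z c q P j g w).al' z then 2
        else (killR M.n z c q P j g w).P.rs) = _
      rw [ea, r0]
      by_cases u : L.al z <;> simp [u]
    have r2 : R.rs = if (killR M.n z c q P j g w).kill.rs = 0 then 0 else
      1 + ((killR M.n z c q P j g w).kill.rs - 1 + fs (gi g) 0) % 2 := by rw [eR]; rfl
    rw [r1] at r2
    by_cases u : L.al z
    · have d := sDrop N L _ z I1.ok k2 k1 ((k1.al z).1 u).2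
      rw [n1, c2] at d
      have t2' : (killR M.n z c q P j g w).kill.tot M.n l2 ≤
        (cutR M.n z c q P j g).cut.tot M.n l1 + 16 * L.mu := t2
      refine Or.inr ⟨by rw [r2, if_pos u, if_pos rfl], L.tw (gi g), l3, n2, I3,
        by rw [tw_al I2.ok (gi_lt hg)]; exact u, ?_, by omega,
        by rw [tw_mu I2.ok (gi_lt hg)]; exact d⟩
      rw [tw_cy I2.ok (gi_lt hg), kill_iff I1.ok k2.top k1 u, cutm_iff I0.ok c1, tw_cy I.ok hg,
        (fs_fs hg 0).2]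
    · have d := dead_cy I1.ok k2.top (by_contra fun v => u ((k1.al z).2 ⟨zN, v⟩))
      rw [cutm_iff I0.ok c1, tw_cy I.ok hg] at d
      rw [if_neg u, if_neg (by omega)] at r2
      have p : (fs g 1 + fs (gi g) 0) % 2 = 1 := by unfold fs gi; split_ifs <;> omega
      exact Or.inl ⟨by omega, fun v => cy_par I.ok (by omega) d,
        fun v => by_contra fun v' => cy_nb I.ok (by omega) v d⟩

theorem garb_inv {h : ℕ → Prop} {ls' : ℕ → List ℕ} (I : Inv M P (2 * j) ls)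
    (J : LI (16 * M.n) (P.ld.garb (16 * M.n) h) (2 * j + 1) ls') :
    Inv M (P.garb M.n h) (2 * (j + 1)) ls' :=
  ⟨I.ok, ⟨I.geo.al, I.geo.lam, I.geo.nm, I.geo.FE, I.geo.F⟩, J.up⟩

theorem step_good {n w : ℕ} {tr : Prop} (h : Good n z tr P j) (hq : 16 * n * (2 * j + 4) < q)
    (hc : 0 < c) : Good n z tr (step n z c q P j w) (j + 1) := by
  unfold step
  rcases h with h | ⟨h0, M, ls, rfl, I, hz, e⟩
  · rw [if_pos h.1]
    exact Or.inl h
  rw [if_neg (not_not.2 h0)]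
  split_ifs with k
  · obtain ⟨ls', J, -⟩ := I.li.garb (colq q (4 * (4 * c)) (w / 9)) q
    exact Or.inr ⟨h0, M, ls', rfl, garb_inv I J, hz, e⟩
  · obtain ⟨s, -, r⟩ := round (g := w % 9) I hz h0 (by omega) hq hc
    rcases r (w / 9) _ rfl with r | ⟨r, N, ls', r1, r2, r3, r4, -⟩
    · exact Or.inl ⟨r.1, r.2.trans e⟩
    · exact Or.inr ⟨r, N, ls', r1, r2, r3, r4.trans e⟩

theorem clip_rs (h7 : 7 ≤ q) : ((P.clip q).rs = 0 ↔ P.rs = 0) ∧ ((P.clip q).rs = 1 ↔ P.rs = 1) := by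
  show (min P.rs q = 0 ↔ _) ∧ (min P.rs q = 1 ↔ _)
  omega

theorem clip_good {n : ℕ} {tr : Prop} (h : Good n z tr P j) (hq : 16 * n * (2 * j + 2) < q)
    (h7 : 7 ≤ q) : Good n z tr (P.clip q) j := by
  rcases h with h | ⟨h0, M, ls, rfl, I, k⟩
  · exact Or.inl ⟨(clip_rs h7).1.not.2 h.1, (clip_rs h7).2.trans h.2⟩
  · exact Or.inr ⟨(clip_rs h7).1.2 h0, M, ls, rfl, (clipS M P _ ls q I hq h7).1, k⟩

theorem phi_eq (A : ℕ) (I : Inv M P j ls) (h0 : P.rs = 0) (hq : 16 * M.n * (j + 2) < q) :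
    Phi A M.n q P = A * (M.mu + 1) + P.tot M.n ls := by
  rw [Phi, if_neg (not_not.2 h0), I.geo.mp_eq I.ok, muB_eq I.ok, I.li.N hq]
  rfl

theorem phi_clip (A : ℕ) (I : Inv M P j ls) (h0 : P.rs = 0) (hq : 16 * M.n * (j + 2) < q)
    (h7 : 7 ≤ q) : Phi A M.n q (P.clip q) = A * (M.mu + 1) + P.tot M.n ls := by
  obtain ⟨J, e⟩ := clipS M P _ ls q I hq h7
  rw [phi_eq A J ((clip_rs h7).1.2 h0) hq, e]

theorem phi_zero (A n : ℕ) (h0 : P.rs ≠ 0) (h7 : 7 ≤ q) : Phi A n q (P.clip q) = 0 :=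
  if_pos ((clip_rs h7).1.not.2 h0)

theorem ar0 {a b d K : ℕ} (h : b + d ≤ a) (k : a ≤ K * d) : b * K ≤ a * (K - 1) := by
  rw [Nat.mul_sub, mul_one]
  exact Nat.le_sub_of_add_le (by nlinarith [Nat.mul_le_mul_right K h])

theorem ar1 {u y T s c : ℕ} (hc : 3840 ≤ c) (h1 : u + 1 ≤ 12 * y) (h2 : T < 32 * (u + 1))
    (h3 : c * y ≤ 4 * T + 32 * u + 32 * c ^ 2 * s) : u + 1 ≤ 768 * c * s := by
  have a1 := Nat.mul_le_mul_left c h1
  have a2 := Nat.mul_le_mul_right (u + 1) hc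
  exact le_of_mul_le_mul_left (a := c) (by nlinarith) (by omega)

/-- POT -/
theorem step_pot {n A K : ℕ} {tr : Prop} (h : Good n z tr P j) (hq : 16 * n * (2 * j + 4) < q)
    (h7 : 7 ≤ q) (hc : 3840 ≤ c) (hA : 49152 * c + 2 ≤ A) (hK : (A + 32) * (768 * c) ≤ K) :
    ∃ w < 9 * (4 * (4 * c) * (2 * q + 3) ^ 2),
      Phi A n q ((step n z c q P j w).clip q) * K ≤ Phi A n q P * (K - 1) := by
  rcases h with h | ⟨h0, M, ls, rfl, I, hz, -⟩
  · refine ⟨0, by have : 0 < c := by omega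
                  positivity, ?_⟩
    rw [step, if_pos h.1, phi_zero _ _ h.1 h7, zero_mul]
    exact Nat.zero_le _
  have q0 : 16 * M.n * (2 * j + 2) < q := big (k := 0) hq (by omega)
  have q2 : 16 * M.n * (2 * (j + 1) + 2) < q := big (k := 2) hq le_rfl
  rw [phi_eq A I h0 q0]
  by_cases k : 32 * (M.mu + 1) ≤ P.tot M.n ls
  · have v := vcntS M P I.ok I.geo
    obtain ⟨w, w1, ls', d, J, w2, w3⟩ := I.li.garb_gain q0 (c := 4 * c) (by omega)
      (show 2 * cnt (16 * M.n) P.val ≤ P.tot M.n ls by omega)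
    refine ⟨9 * w + 8, by omega, ?_⟩
    rw [step, if_neg (not_not.2 h0), if_pos (by omega), show (9 * w + 8) / 9 = w by omega,
      phi_clip A (garb_inv I J) h0 q2 h7]
    have w2' : (P.garb M.n (colq q (4 * (4 * c)) w)).tot M.n ls' + d ≤ P.tot M.n ls := w2
    have w3' : P.tot M.n ls ≤ 16 * (4 * c) * d := w3
    refine ar0 (d := d) (by omega) ?_
    have a1 := Nat.mul_le_mul_left A (show M.mu + 1 ≤ P.tot M.n ls by omega)
    have a2 := Nat.mul_le_mul_left (A + 1) w3'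
    have a3 := Nat.mul_le_mul_right d hK
    nlinarith [Nat.zero_le (A * c * d), Nat.zero_le (c * d)]
  · obtain ⟨g, hg, Y, y1, y2⟩ := sProg M I.ok z hz
    obtain ⟨s, r1, r2⟩ := round (c := c) I hz h0 hg hq (by omega)
    obtain ⟨w, w1, w2⟩ := r1 Y y2
    have u := ar1 hc y1 (not_le.1 k) w2
    have w3 := w1.trans_le (Nat.mul_le_mul_left _ (Nat.pow_le_pow_left
      (show 2 * M.n + 3 ≤ 2 * q + 3 by nlinarith) 2))
    refine ⟨9 * w + g, by omega, ?_⟩
    rw [step, if_neg (not_not.2 h0), if_neg (by omega), show (9 * w + g) / 9 = w by omega,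
      show (9 * w + g) % 9 = g by omega]
    rcases r2 w _ rfl with r | ⟨r, N, ls', e, J, -, -, t1, t2⟩
    · rw [phi_zero _ _ r.1 h7, zero_mul]
      exact Nat.zero_le _
    · have p := phi_clip A J r (by rw [e]; exact q2) h7
      rw [e] at p
      rw [p]
      refine ar0 (d := s w) ?_ ?_
      · have a1 := Nat.mul_le_mul_left A t2
        have a2 := Nat.mul_le_mul_right (s w) hA
        nlinarith
      · have a1 := Nat.mul_le_mul_left (A + 32) u
        have a2 := Nat.mul_le_mul_right (s w) hK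
        nlinarith

end

end Pool.Agent.MP_1a6d78_lc.PS

end MrgPart8

-- marker of a merged file
example : 731051 + 755775 = 731051 + 755775 := rfl
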