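import Pool.Agent.MP_1a6d78_lc.PS.Prog
import Pool.Agent.MP_1a6d78_lc.PS.Tw

/-! PROJECT PSC: frames for the primitives, the mark, the selection. -/

namespace Pool.Agent.MP_1a6d78_lc.PS

open Classical ED PR GL Ct

variable {M : Cm} {P : Pr} {g : ℕ}

theorem tw_sv' (H : M.Ok) (h : g < 8) {A : Sg} {a : ℕ} (k : M.al A.p) (ha : a < 4) (t : ℕ) :
    (M.tw g).sv A t = a ↔ M.sv (A.tw g) t = fs g a := by
  unfold Cm.sv
  split_ifs
  · show A.s = a ↔ (if A.s < 4 then fs g A.s else A.s) = fs g a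
    have := fs_lt g a
    split_ifs
    · rw [fs_inj h]; omega
    · omega
  · rw [tw_ss_iff H h _ (by rw [tw_wk h]; exact wk_al H k _ _) ha, tw_wk h]
    rfl

theorem tw_F' (H : M.Ok) (h : g < 8) (fl : Bool) {A B : Sg} {a b : ℕ} (hA : A.i < 4) (hB : B.i < 4)
    (ha : a < 4) (hb : b < 4) :
    (M.tw g).F fl a b A B = M.F fl (fs g a) (fs g b) (A.tw g) (B.tw g) := by
  have el : ∀ A : Sg, (M.tw g).el A = M.el (A.tw g) := fun A => tw_el h A
  have ln : ∀ A : Sg, (M.tw g).ln A = M.ln (A.tw g) := fun A => tw_ln h A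
  have ok : ∀ A : Sg, A.i < 4 → ((M.tw g).ok A ↔ M.ok (A.tw g)) := fun A k => tw_sok H h k
  unfold Cm.F
  rw [ok A hA, ok B hB, tw_n]
  by_cases k : M.ok (A.tw g) ∧ M.ok (B.tw g)
  · have : (M.tw g).hit a b A B = M.hit (fs g a) (fs g b) (A.tw g) (B.tw g) := by
      funext t
      unfold Cm.hit Cm.Ps
      simp only [ln, el, tw_sv' H h (A := A) k.1.2.1 ha, tw_sv' H h (A := B) k.2.2.1 hb]
    rw [this, el]
  · rw [if_neg fun u => k ⟨u.1, u.2.1⟩, if_neg fun u => k ⟨u.1, u.2.1⟩]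

theorem Geo.tw (G : Geo M P) (H : M.Ok) (h : g < 8) : Geo (M.tw g) (P.tw M.n g) := by
  refine ⟨G.al.trans (tw_al H h).symm, fun p => ?_, tw_nm H h G.nm, fun i _ a ha c => ?_,
    fun fl a b A B ha hb hab wa wb => ?_⟩
  · show (if P.al (p / 4) then tp (gi g) (P.lam (tp g p)) else 4 * M.n) = _
    rw [tw_al H h, G.al]
    split_ifs with k
    · rw [G.lam_al (by rwa [tp_div])]; rfl
    · rfl
  · rw [tw_fe H h _ _ ha]
    exact G.FE _ (fp_lt _ _) _ (fs_lt _ _) c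
  · have w : ∀ A : Sg, (M.tw g).wo A → M.wo (A.tw g) := fun A w k =>
      have o := w (by rw [tw_al H h]; exact k)
      (tw_sok H h o.1).1 o
    show P.F fl (fs g a) (fs g b) (A.tw g) (B.tw g) = _
    rw [G.F _ _ _ _ _ (fs_lt _ _) (fs_lt _ _) (by rw [Ne, fs_inj h]; omega) (w A wa) (w B wb)]
    by_cases k : (M.tw g).ok A ∧ (M.tw g).ok B
    · exact (tw_F' H h fl k.1.1 k.2.1 ha hb).symm
    · rw [Cm.F_junk _ _ _ k, Cm.F_junk _ _ _ fun u => k ⟨wa (by rw [tw_al H h]; exact u.1.2.1),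
        wb (by rw [tw_al H h]; exact u.2.2.1)⟩]
      rfl

theorem Geo.mark (G : Geo M P) (z : ℕ) : Geo M (P.mark M.n z) := ⟨G.al, G.lam, G.nm, G.FE, G.F⟩

theorem mark_ld (n z : ℕ) : (P.mark n z).ld = P.ld := rfl

theorem Geo.on1 (G : Geo M P) (H : M.Ok) {z i a : ℕ} (hz : M.al z) (hi : i < 4) (ha : a < 4) :
    P.On M.n z a (P.fu i z 0 1) ↔ M.Kd i a z := by
  rw [Pr.fu, if_neg one_ne_zero, G.On_ring H hi ha]
  exact ⟨fun k => k.2.1, fun k => ⟨hz, k, Cm.Co.refl _ _⟩⟩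

/-- MARK -/
theorem Geo.mark_rs (G : Geo M P) (H : M.Ok) {z : ℕ} (hz : M.al z) (h0 : P.rs = 0) :
    ((P.mark M.n z).rs = 0 ∧ ∀ i < 4, ¬M.Per i z) ∨
      ((P.mark M.n z).rs = 1 ∧ M.Cy 0 z) ∨ ((P.mark M.n z).rs = 2 ∧ M.Cy 1 z) := by
  unfold Pr.mark
  dsimp only
  split_ifs with c d
  · obtain ⟨t, ht, k⟩ := d
    rw [G.on1 H hz (Nat.mod_lt _ (by omega)) (by omega)] at k
    exact Or.inr (Or.inl ⟨rfl, cy_par H (by omega) (kd_cy H (Nat.mod_lt _ (by omega)) k)⟩)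
  · obtain ⟨t, ht, k⟩ := c.2
    rw [G.on1 H hz (by omega) (Nat.mod_lt _ (by omega))] at k
    refine Or.inr (Or.inr ⟨rfl, cy_par H ?_ (kd_cy H (by omega) k)⟩)
    by_contra e
    refine d ⟨2 * ((t / 2 + 3 * (t % 2)) % 4 / 2) + t % 2, by omega, ?_⟩
    rw [G.on1 H hz (Nat.mod_lt _ (by omega)) (by omega)]
    convert k using 1 <;> omega
  · refine Or.inl ⟨h0, fun i hi p => c ⟨h0, ?_⟩⟩
    obtain ⟨a, k⟩ := p.kd H
    have : a = i % 4 ∨ a = (i + 3) % 4 := by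
      obtain ⟨u, -, -, rfl⟩ := k
      exact Cm.ss_cases _ _
    rcases this with e | e
    · refine ⟨2 * i, by omega, ?_⟩
      rw [G.on1 H hz (by omega) (Nat.mod_lt _ (by omega))]
      convert k using 1 <;> omega
    · refine ⟨2 * i + 1, by omega, ?_⟩
      rw [G.on1 H hz (by omega) (Nat.mod_lt _ (by omega))]
      convert k using 1 <;> omega

theorem mark_ne {n z : ℕ} (h : P.rs ≠ 0) : (P.mark n z).rs = P.rs := if_neg fun k => h k.1

end Pool.Agent.MP_1a6d78_lc.PS
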